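import Pool.Agent.Work.MP_f0515e_an.D3.EML

-- merged part: Pool.Agent.Work.MP_f0515e_an.D3.ESec1
section
/-! Links of discs, and sections of a disc by the core of a wall. -/

open Set Metric Filter Topology Function BEv
open scoped NNReal

noncomputable section
namespace BEp

variable {n m : ℕ}

theorem ESec1_in {X : Set (Rn n)} {p : Rn n} (h : X ∈ 𝓝 p) : lk X p = sphere 0 1 := by
  ext v
  rw [mem_sphere_zero_iff_norm]
  exact and_iff_left (YPLk_tc.2 (YPLk_ray p v h))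

theorem ESec1_bd {p : Rn 2} (hp : p ∈ sphere (0 : Rn 2) 1) :
    ∃ a b, TArc (lk (closedBall 0 1) p) a b := by
  have hn : ‖p‖ = 1 := mem_sphere_zero_iff_norm.1 hp
  have c2 : IsClosed (closedBall (0 : Rn 2) 2 \ ball 0 1) := isClosed_closedBall.sdiff isOpen_ball
  have hu : closedBall (0 : Rn 2) 2 \ ball 0 1 ∪ closedBall 0 1 = closedBall 0 2 := by
    ext x
    simp only [mem_union, Set.mem_sdiff, mem_closedBall_zero_iff, mem_ball_zero_iff, not_lt]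
    exact ⟨fun h => h.elim And.left fun k => by linarith, fun h => (le_total 1 ‖x‖).imp_left fun k => ⟨h, k⟩⟩
  have hi : (closedBall (0 : Rn 2) 2 \ ball 0 1) ∩ closedBall 0 1 = sphere 0 1 := by
    ext x
    simp only [mem_inter_iff, Set.mem_sdiff, mem_closedBall_zero_iff, mem_ball_zero_iff, not_lt,
      mem_sphere_zero_iff_norm]
    exact ⟨fun h => le_antisymm h.2 h.1.2, fun h => ⟨⟨by linarith, h.ge⟩, h.le⟩⟩
  have p1 := Poly.closedBall (0 : Rn 2) 1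
  have p2 := poly_piece (Poly.closedBall (0 : Rn 2) 2) (poly_sphere 0 1) c2 isClosed_closedBall hu hi
  obtain ⟨a, b, hab, e⟩ := ncard_eq_two.1 (tcrc_lk (poly_sphere 0 1) (crc_sq 0 one_pos).tcrc hp)
  have nr : ∀ s t : ℝ, 0 ≤ 1 + t * s → ‖p + t • s • p‖ = 1 + t * s := fun s t h => by
    rw [smul_smul, show p + (t * s) • p = (1 + t * s) • p by rw [add_smul, one_smul], norm_smul, hn,
      mul_one, Real.norm_of_nonneg h]
  have ev : ∀ᶠ t in 𝓝[>] (0 : ℝ), t ∈ Ioo (0 : ℝ) 1 := Ioo_mem_nhdsGT one_pos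
  have no : ∀ s : ℝ, s = 1 ∨ s = -1 → s • p ∉ ({a, b} : Set (Rn 2)) := fun s hs k => by
    rw [← e] at k
    obtain ⟨t, h1, h2⟩ := ((YPLk_tc.1 k.2).and ev).exists
    rw [mem_sphere_zero_iff_norm, nr s t (by rcases hs with rfl | rfl <;> linarith [h2.1, h2.2])] at h1
    rcases hs with rfl | rfl <;> linarith [h2.1]
  refine ⟨a, b, tarc_uniq (crc_sq 0 one_pos).tcrc (p1.lk p).1.isClosed (p2.lk p).1.isClosed ?_ ?_ hab
    (fun k => no (-1) (Or.inr rfl) (k ⟨by simp [hn], YPLk_tc.2 (ev.mono fun t ht => ?_)⟩))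
    fun k => no 1 (Or.inl rfl) (k ⟨by simp [hn], YPLk_tc.2 (ev.mono fun t ht => ?_)⟩)⟩
  · rw [← lk_union p1 p2, union_comm, hu]
    exact ESec1_in (closedBall_mem_nhds_of_mem (by rw [mem_ball_zero_iff, hn]; norm_num))
  · rw [← lk_inter, inter_comm, hi, e]
  · rw [mem_closedBall_zero_iff, nr _ _ (by linarith [ht.2])]
    linarith [ht.1]
  · rw [Set.mem_sdiff, mem_closedBall_zero_iff, mem_ball_zero_iff, nr _ _ (by linarith [ht.1])]
    exact ⟨by linarith [ht.2], by linarith [ht.1]⟩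

theorem pdsc_lk {F J : Set (Rn n)} (h : PDsc F J) {x : Rn n} (hx : x ∈ F) :
    (x ∉ J → TCrc (lk F x)) ∧ (x ∈ J → ∃ a b, TArc (lk F x) a b) := by
  obtain ⟨g, hg, hi, rfl, rfl⟩ := h
  obtain ⟨p, hp, rfl⟩ := hx
  obtain ⟨k, hk, ki, e⟩ := lk_image (Poly.closedBall 0 1) hg hi hp
  rw [← e _ Subset.rfl (Poly.closedBall 0 1)]
  refine ⟨fun hn => TCrc.image ?_ hk ki, fun ⟨q, hq, e'⟩ => ?_⟩
  · rw [ESec1_in (closedBall_mem_nhds_of_mem (lt_of_le_of_ne hp fun k => hn ⟨p, k, rfl⟩))]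
    exact (crc_sq 0 one_pos).tcrc
  · obtain ⟨a, b, h⟩ := ESec1_bd (hi (sphere_subset_closedBall hq) hp e' ▸ hq)
    exact ⟨_, _, h.image hk ki⟩

theorem ESec1_norm {ζ : Rn 3} (h : ζ 2 = 0) (s : ℝ) :
    ‖ζ + s • (Pi.single 2 1 : Rn 3)‖ = max ‖ζ‖ |s| := by
  rw [norm_eq_hz 2, pfill_hz_add, pfill_hz_self h]
  simp [h]

/-- A cone over an arc that is invariant under vertical translations is a half plane. -/
theorem ESec1_cone {T : Set (Rn 3)} (h0 : (0 : Rn 3) ∈ T)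
    (cone : ∀ ξ ∈ T, ∀ t : ℝ, 0 < t → t • ξ ∈ T)
    (tr : ∀ ξ ∈ T, ∀ s : ℝ, ξ + s • (Pi.single 2 1 : Rn 3) ∈ T) {a b : Rn 3}
    (hc : TArc {ξ | ‖ξ‖ = 1 ∧ ξ ∈ T} a b) : {ξ | ‖ξ‖ = 1 ∧ ξ ∈ T ∧ ξ 2 = 0}.ncard = 1 := by
  obtain ⟨u, hu⟩ : {ξ | ‖ξ‖ = 1 ∧ ξ ∈ T ∧ ξ 2 = 0}.Nonempty := by
    by_contra hn
    refine hc.conn.infinite_of_nontrivial ⟨a, hc.left, b, hc.right, hc.ne⟩
      ((toFinite ({(1 : ℝ) • Pi.single 2 1, (-1 : ℝ) • Pi.single 2 1} : Set (Rn 3))).subset fun ξ hξ => ?_)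
    have z2 : (ξ + (-ξ 2) • (Pi.single 2 1 : Rn 3)) 2 = 0 := by simp
    have z : ξ + (-ξ 2) • (Pi.single 2 1 : Rn 3) = 0 := by_contra fun k => by
      have p := norm_pos_iff.2 k
      refine hn ⟨_, ?_, cone _ (tr ξ hξ.2 (-ξ 2)) _ (inv_pos.2 p), ?_⟩
      · rw [norm_smul, norm_inv, norm_norm, inv_mul_cancel₀ p.ne']
      · rw [Pi.smul_apply, z2, smul_zero]
    have e : ξ = 0 + ξ 2 • (Pi.single 2 1 : Rn 3) := by
      rw [← z, add_assoc, ← add_smul, neg_add_cancel, zero_smul, add_zero]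
    have e1 := hξ.1
    rw [e, ESec1_norm rfl, norm_zero, max_eq_right (abs_nonneg _), abs_eq zero_le_one] at e1
    rw [e, zero_add]
    exact e1.imp (fun k => by rw [k]) fun k => by rw [k]; rfl
  refine ncard_eq_one.2 ⟨u, eq_singleton_iff_unique_mem.2 ⟨hu, fun u' hu' => by_contra fun hne => ?_⟩⟩
  obtain ⟨f, fc, fi, -⟩ := tarc_inv hc
  let ζ : ℝ → Rn 3 := fun r => max r 0 • u + max (-r) 0 • u'
  have z2 : ∀ r, ζ r 2 = 0 := fun r => by simp [ζ, hu.2.2, hu'.2.2]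
  have zp : ∀ r, 0 ≤ r → ζ r = r • u := fun r h => by simp [ζ, h]
  have zm : ∀ r, r ≤ 0 → ζ r = (-r) • u' := fun r h => by simp [ζ, h]
  have zn : ∀ r, ‖ζ r‖ = |r| := fun r => (le_total 0 r).elim
    (fun h => by rw [zp r h, norm_smul, hu.1, mul_one, Real.norm_eq_abs])
    fun h => by rw [zm r h, norm_smul, hu'.1, mul_one, Real.norm_eq_abs, abs_neg]
  have zT : ∀ r, ζ r ∈ T := fun r => by
    rcases lt_trichotomy r 0 with h | rfl | h
    · rw [zm r h.le]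
      exact cone _ hu'.2.1 _ (neg_pos.2 h)
    · rwa [zp 0 le_rfl, zero_smul]
    · rw [zp r h.le]
      exact cone _ hu.2.1 _ h
  have zx : ∀ r s, 0 < r → s < 0 → ζ r ≠ ζ s := fun r s h k e => by
    have e1 := zn r
    rw [e, zn, abs_of_neg k, abs_of_pos h] at e1
    rw [zp r h.le, zm s k.le, e1] at e
    exact hne (smul_right_injective _ h.ne' e).symm
  have zi : Injective ζ := fun r s e => by
    have e1 := zn r
    rw [e, zn] at e1
    rcases abs_eq_abs.1 e1 with k | k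
    · exact k.symm
    · rcases lt_trichotomy r 0 with h | h | h
      · exact (zx s r (by linarith) h e.symm).elim
      · rw [k, h, neg_zero]
      · exact (zx r s h (by linarith) e).elim
  let κ : Rn 2 → Rn 3 := fun p => ζ (p 0) + p 1 • Pi.single 2 1
  have mk : MapsTo κ (sphere 0 1) {ξ | ‖ξ‖ = 1 ∧ ξ ∈ T} := fun p hp =>
    ⟨by rw [ESec1_norm (z2 _), zn, ← p2b_norm, mem_sphere_zero_iff_norm.1 hp], tr _ (zT _) _⟩
  refine tcrc_not_line (crc_sq (0 : Rn 2) one_pos).tcrc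
    (fc.comp (show Continuous κ by fun_prop).continuousOn mk) (fi.comp (fun p _ q _ e => ?_) mk)
  have e1 : p 1 = q 1 := by simpa [κ, z2] using congrFun e 2
  have e2 : ζ (p 0) = ζ (q 0) := by simpa [κ, e1] using e
  exact p2c_ext.2 ⟨zi e2, e1⟩

theorem ESec1_core {W : Set (Rn 2)} (hW : IsOpen W) {F J : Set (Rn 3)} (h : PDsc F J)
    (h1 : ∀ y ∈ W, ∀ s t : ℝ, |s| ≤ 1 → |t| ≤ 1 → mk3 y s ∈ F → mk3 y t ∈ F)
    (hc : IsClosed (F ∩ lay W 0)) :
    ∃ 𝒞 : Set (Set (Rn 3)), 𝒞.Finite ∧ ⋃₀ 𝒞 = F ∩ lay W 0 ∧ 𝒞.PairwiseDisjoint id ∧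
      ∀ K ∈ 𝒞, (Crc K ∧ Disjoint K J) ∨ ∃ a b, Arc K a b ∧ K ∩ J = {a, b} := by
  have t2 : TP fun x : Rn 3 => x 2 := TP.id'.apply 2
  have pZ := poly_eq h.poly t2 0
  have oW : IsOpen (pj3 ⁻¹' W) := hW.preimage tp_pj3.continuous
  have pG : Poly (F ∩ lay W 0) := poly_piece pZ Poly.empty hc (pZ.1.isClosed.sdiff oW)
    (by
      ext x
      by_cases k : pj3 x ∈ W <;> simp [lay, k])
    (eq_empty_of_forall_notMem fun x k => k.2.2 k.1.2.1)
  have key : ∀ x ∈ F ∩ lay W 0, (x ∉ J → (lk (F ∩ lay W 0) x).ncard = 2) ∧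
      (x ∈ J → (lk (F ∩ lay W 0) x).ncard = 1) := by
    rintro x ⟨hx, hw, x2⟩
    have e : lk (F ∩ lay W 0) x = lk {y ∈ F | y 2 = x 2} x :=
      lk_congr (mem_of_superset (oW.mem_nhds hw) fun y (hy : pj3 y ∈ W) => by simp [lay, hy, x2])
    have hp : ∀ᶠ p : Rn 3 × ℝ in 𝓝 (x, 0), (p.1 + p.2 • (Pi.single 2 1 : Rn 3) ∈ F ↔ p.1 ∈ F) ∧
        (p.1 + p.2 • (Pi.single 2 1 : Rn 3)) 2 = p.1 2 + p.2 := by
      have a1 : ∀ᶠ p : Rn 3 × ℝ in 𝓝 (x, 0), pj3 p.1 ∈ W :=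
        (oW.preimage continuous_fst).mem_nhds hw
      have a2 : ∀ᶠ p : Rn 3 × ℝ in 𝓝 (x, 0), |p.1 2| < 1 :=
        (isOpen_lt (by fun_prop) continuous_const).mem_nhds (by simp [x2])
      have a3 : ∀ᶠ p : Rn 3 × ℝ in 𝓝 (x, 0), |p.1 2 + p.2| < 1 :=
        (isOpen_lt (by fun_prop) continuous_const).mem_nhds (by simp [x2])
      filter_upwards [a1, a2, a3] with p b1 b2 b3
      have e1 : p.1 + p.2 • (Pi.single 2 1 : Rn 3) = mk3 (pj3 p.1) (p.1 2 + p.2) := by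
        ext i
        fin_cases i <;> simp
      refine ⟨?_, by simp⟩
      rw [e1]
      exact ⟨fun k => mk3_pj3 p.1 ▸ h1 _ b1 _ _ b3.le b2.le k,
        fun k => h1 _ b1 _ _ b2.le b3.le ((mk3_pj3 p.1).symm ▸ k)⟩
    rw [e]
    refine ⟨fun hn => (reg_of_prod h.poly hx ((pdsc_lk h hx).1 hn) t2 hp).two, fun hj => ?_⟩
    obtain ⟨a, b, hab⟩ := (pdsc_lk h hx).2 hj
    have e2 : lk {y ∈ F | y 2 = x 2} x = {ξ | ‖ξ‖ = 1 ∧ ξ ∈ tc F x ∧ ξ 2 = 0} := by
      ext ξ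
      refine and_congr_right fun _ => ⟨fun k => ⟨(YPLk_tc.1 k).mono fun t ht => ht.1, ?_⟩, fun k => ?_⟩
      · obtain ⟨t, h2, ht⟩ := ((YPLk_tc.1 k).and self_mem_nhdsWithin).exists
        have ht' : 0 < t := ht
        simpa [ht'.ne'] using h2.2
      · exact YPLk_tc.2 ((YPLk_tc.1 k.1).mono fun t ht => ⟨ht, by simp [k.2]⟩)
    rw [e2]
    refine ESec1_cone (YPLk_tc.2 (Eventually.of_forall fun t => by simpa using hx))
      (fun ξ hξ t ht => YPLk_smul ht hξ) (fun ξ hξ s => YPLk_tc.2 ?_) hab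
    have k : Tendsto (fun t : ℝ => (x + t • ξ, t * s)) (𝓝[>] 0) (𝓝 (x, 0)) :=
      (Continuous.tendsto' (by fun_prop) 0 _ (by simp)).mono_left nhdsWithin_le_nhds
    filter_upwards [k.eventually hp, YPLk_tc.1 hξ] with t ht h2
    rw [smul_add, smul_smul, ← add_assoc]
    exact ht.1.2 h2
  obtain ⟨𝒞, c1, c2, c3, c4⟩ := oneman pG fun x hx =>
    (em (x ∈ J)).imp (key x hx).2 (key x hx).1
  refine ⟨𝒞, c1, c2, c3, fun K hK => ?_⟩
  have kk : ∀ x ∈ K, (x ∉ J → (lk K x).ncard = 2) ∧ (x ∈ J → (lk K x).ncard = 1) := fun x hx => by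
    rw [← lk_piece c1 (fun C hC => (POne_poly (c4 C hC)).1.isClosed) c3 hK hx, c2]
    exact key x (c2 ▸ mem_sUnion_of_mem hx hK)
  refine (c4 K hK).imp (fun k => ⟨k, disjoint_left.2 fun x hx hj => ?_⟩) fun ⟨a, b, k⟩ => ⟨a, b, k, ?_⟩
  · have := tcrc_lk k.poly k.tcrc hx
    have := (kk x hx).2 hj
    omega
  · ext x
    refine ⟨fun hx => by_contra fun hn => ?_, fun hx => ?_⟩
    · rw [mem_insert_iff, mem_singleton_iff, not_or] at hn
      have := (tarc_lk k.poly k.tarc hx.1).2 hn.1 hn.2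
      have := (kk x hx.1).2 hx.2
      omega
    · have hx' : x ∈ K := by
        rcases hx with rfl | rfl
        exacts [k.tarc.left, k.tarc.right]
      refine ⟨hx', by_contra fun hn => ?_⟩
      have := (tarc_lk k.poly k.tarc hx').1 hx
      have := (kk x hx').1 hn
      omega

theorem esec {θ : Rn 3 → Rn 3} {W : Set (Rn 2)} (hθ : LH θ) (hW : IsOpen W) {F J : Set (Rn 3)}
    (h : PDsc F J) (h1 : Iw (cN θ W) (cf θ) F) (h2 : Iw (cN θ W) (cf θ) J)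
    (hc : IsClosed (F ∩ cN θ W)) :
    ∃ 𝒞 : Set (Set (Rn 3)), 𝒞.Finite ∧ ⋃₀ 𝒞 = F ∩ Co (cN θ W) (cf θ) ∧ 𝒞.PairwiseDisjoint id ∧
      ∀ K ∈ 𝒞, (Crc K ∧ Disjoint K J) ∨ ∃ a b, Arc K a b ∧ K ∩ J = {a, b} := by
  have pre : ∀ A : Set (Rn 3), invFun θ '' A = θ ⁻¹' A := fun A => by
    conv_lhs => rw [← image_preimage_eq A hθ.1.2, hθ.inv_image]
  have im : ∀ A : Set (Rn 3), θ '' (θ ⁻¹' A) = A := fun A => image_preimage_eq A hθ.1.2
  have h' := h.image hθ.tpi hθ.inv.inj.injOn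
  rw [pre, pre] at h'
  have e : θ ⁻¹' F ∩ lay W 0 = θ ⁻¹' (F ∩ cN θ W) ∩ {x | x 2 = 0} := by
    ext x
    simp only [cN, lay, mem_inter_iff, mem_preimage, hθ.inj.mem_set_image, mem_ofPred_eq]
    exact ⟨fun k => ⟨⟨k.1, k.2.1, by simp [k.2.2]⟩, k.2.2⟩, fun k => ⟨k.1.1, k.1.2.1, k.2⟩⟩
  obtain ⟨𝒞, c1, c2, c3, c4⟩ := ESec1_core hW h' ((iw_cN hθ).1 h1) (e ▸
    (hc.preimage hθ.tp.continuous).inter (isClosed_eq (continuous_apply 2) continuous_const))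
  refine ⟨image θ '' 𝒞, c1.image _, ?_, ?_, ?_⟩
  · rw [← image_sUnion, c2, image_inter hθ.inj, im, co_cN hθ]
  · rintro _ ⟨K, hK, rfl⟩ _ ⟨K', hK', rfl⟩ hne
    exact disjoint_image_of_injective hθ.inj (c3 hK hK' fun k => hne (k ▸ rfl))
  · rintro _ ⟨K, hK, rfl⟩
    refine (c4 K hK).imp (fun k => ⟨k.1.image hθ.tp hθ.inj.injOn, ?_⟩)
      fun ⟨a, b, k, k'⟩ => ⟨_, _, k.image hθ.tp hθ.inj.injOn, ?_⟩
    · rw [← im J]
      exact disjoint_image_of_injective hθ.inj k.2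
    · rw [← im J, ← image_inter hθ.inj, k', image_pair]

end BEp
end
end

-- merged part: Pool.Agent.Work.MP_f0515e_an.D3.ESec
section
/-! Sections of a disc by the core of a wall.
`pdsc_lk`: `lk_image` for the parametrisation; links of the unit square (interior point: the unit sphere of `Rn 2`, `crc_sq`; boundary point: an arc; one may move the
point by `PCel.bij`, `PDsc.arc` or cut `crc_split`). `esec`: apply `invFun θ` (`PCel.image`), so `θ = id`. `G = F ∩ lay W 0` is closed and open in the polyhedron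
`F ∩ {x 2 = 0}` (`poly_eq`, `poly_piece` with empty intersection). At `x ∈ G \ J` use `reg_of_prod` with `v = Pi.single 2 1`, `h x = x 2`: the link has two points. At
`x ∈ G ∩ J`: the link of `F` is an arc invariant under the vertical flow and contains `± v`; `J` is near `x` the vertical segment (`tcrc_lk`: its link is `{v, -v}`);
two horizontal directions `u ≠ u'` would give the circle `v, u, -v, u'` in the arc (`tcrc_not_line`), none would make the link finite. Then `oneman`, `tarc_lk`, `tcrc_lk`, `lk_piece`.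
`fin_crc`: a polyhedron in the closed planar disc whose link at a point is infinite has planar interior points; by invariance `X` then contains an open set, against `PC 2`;
so `crc_finite` applies to `X ∩ θ '' lay R 0`. `fin_ray`: an infinite polyhedron in a line contains a segment, horizontal invariance gives an open set.
About 350 lines. -/

open Set Metric Filter Topology Function BEv
open scoped NNReal

noncomputable section
namespace BEp

variable {n m : ℕ}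

/-- A polyhedron without interior points has lower dimension. -/
theorem ESec_dich {k : ℕ} {Y : Set (Rn (k + 1))} (hY : Poly Y) (h : ∀ y, Y ∉ 𝓝 y) : PC k Y := by
  obtain ⟨L, hL, -, hF⟩ := exists_adapted finite_empty hY
  refine pc_lower hL fun x hx => ?_
  by_contra! hlt
  have e : fdir L x = ⊤ := Submodule.eq_top_of_finrank_eq
    (le_antisymm (Submodule.finrank_le _) (by simpa [fdim] using hlt))
  obtain ⟨ε, h0, hε⟩ := face_open hL (mem_face_self L x)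
  exact h x (mem_of_superset (ball_mem_nhds x h0) fun z hz =>
    hF x hx (hε z (e ▸ Submodule.mem_top) (mem_ball_iff_norm.1 hz)))

theorem ESec_thin {X : Set (Rn 3)} (hp : PC 2 X) (x : Rn 3) : X ∉ 𝓝 x := fun h => by
  obtain ⟨y, h1, h2⟩ := (hp.sm.dense (by simp)).inter_nhds_nonempty h
  exact h1 h2

theorem ESec_zero {Y : Set (Rn n)} (h : PC 0 Y) : Y.Finite := by
  obtain ⟨S, h1, h2, h3⟩ := h
  refine (h1.biUnion (t := fun P => (P : Set (Rn n))) fun P hP =>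
    Set.Subsingleton.finite fun x hx y hy => ?_).subset fun x hx => ?_
  · have e : P.direction = ⊥ := Submodule.finrank_eq_zero.1 (Nat.le_zero.1 (h2 P hP))
    have := AffineSubspace.vsub_mem_direction hx hy
    rw [e, Submodule.mem_bot] at this
    exact vsub_eq_zero_iff_eq.1 this
  · obtain ⟨P, hP, k⟩ := h3 x hx
    exact mem_biUnion hP k

theorem fin_crc {θ : Rn 3 → Rn 3} {R bR : Set (Rn 2)} (hθ : LH θ) (hR : Ball R bR)
    {X : Set (Rn 3)} (hX : Poly X) (hp : PC 2 X) (h : Iw (cN θ (R \ bR)) (cf θ) X) :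
    {γ | Crc γ ∧ γ ⊆ X ∩ Co (cN θ (R \ bR)) (cf θ)}.Finite := by
  have tp : TP fun y : Rn 2 => θ (mk3 y 0) := hθ.tp.comp (tp_lay 0)
  have pY : Poly {y | y ∈ R ∧ θ (mk3 y 0) ∈ X} := poly_pre hR.poly hX tp
  have pc : PC 1 {y | y ∈ R ∧ θ (mk3 y 0) ∈ X} := ESec_dich pY fun y hy => by
    refine ESec_thin (hp.image hX.1.isBounded hθ.tpi) (mk3 y 0) ?_
    have h1 : ∀ᶠ z in 𝓝 y, z ∈ R \ bR ∧ θ (mk3 z 0) ∈ X := by
      have : R \ bR ∈ 𝓝 y := by
        rw [← hR.interior_eq]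
        exact interior_mem_nhds.2 (mem_of_superset hy fun z hz => hz.1)
      filter_upwards [this, hy] with z a b using ⟨a, b.2⟩
    have h2 : ∀ᶠ x in 𝓝 (mk3 y 0), pj3 x ∈ R \ bR ∧ θ (mk3 (pj3 x) 0) ∈ X :=
      tp_pj3.continuous.continuousAt.eventually
        (p := fun z => z ∈ R \ bR ∧ θ (mk3 z 0) ∈ X) ((pj3_mk3 y 0).symm ▸ h1)
    have h3 : ∀ᶠ x : Rn 3 in 𝓝 (mk3 y 0), |x 2| < 1 :=
      (continuous_apply 2).abs.continuousAt.eventually_lt continuousAt_const (by simp)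
    filter_upwards [h2, h3] with x a b
    refine ⟨θ x, ?_, hθ.li x⟩
    have := (iw_cN hθ).1 h _ a.1 0 (x 2) (by simp) b.le a.2
    rwa [mk3_pj3] at this
  have pK := pY.image tp
  refine (crc_finite pK fun x _ => (pc.image pY.1.isBounded tp).lk_finite pK x).subset
    fun γ hγ => ⟨hγ.1, fun x hx => ?_⟩
  obtain ⟨a, b⟩ := hγ.2 hx
  rw [co_cN hθ, lay_eq] at b
  obtain ⟨_, ⟨y, hy, rfl⟩, rfl⟩ := b
  exact ⟨y, ⟨hy.1, a⟩, rfl⟩

theorem fin_ray {L : Fin 3 → Set ℝ} {lo hi : Rn 3} (hB : EBx L lo hi) {X : Set (Rn 3)}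
    (hX : Poly X) (hp : PC 2 X) (h : HP L lo hi X) : (X ∩ bR L lo hi).Finite := by
  have hr : 0 < (hi 2 - lo 2) / 2 := by linarith [hB.lt 2]
  set B : Set (Rn 1) := closedBall (fun _ => (lo 2 + hi 2) / 2) ((hi 2 - lo 2) / 2) with hBd
  have key : ∀ p ∈ L 0 ×ˢ L 1, {s : Rn 1 | s ∈ B ∧ mk3 ![p.1, p.2] (s 0) ∈ X}.Finite := by
    rintro ⟨a, b⟩ ⟨ha, hb⟩
    refine ESec_zero (ESec_dich (poly_pre (Poly.closedBall _ _) hX
      ((TP.const _).mk3 (TP.id'.apply 0))) fun s hs => ESec_thin hp (mk3 ![a, b] (s 0)) ?_)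
    have h1 : ∀ᶠ z : Rn 1 in 𝓝 s, (lo 2 < z 0 ∧ z 0 < hi 2) ∧ mk3 ![a, b] (z 0) ∈ X := by
      have : interior B ∈ 𝓝 s := interior_mem_nhds.2 (mem_of_superset hs fun z hz => hz.1)
      filter_upwards [this, hs] with z k1 k2
      rw [hBd, interior_closedBall _ hr.ne', mem_ball, dist_pi_lt_iff hr] at k1
      have := k1 0
      rw [Real.dist_eq, abs_lt] at this
      exact ⟨⟨by linarith [this.1], by linarith [this.2]⟩, k2.2⟩
    have c : Continuous fun (x : Rn 3) (_ : Fin 1) => x 2 := by fun_prop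
    have h2 : ∀ᶠ x : Rn 3 in 𝓝 (mk3 ![a, b] (s 0)),
        (lo 2 < x 2 ∧ x 2 < hi 2) ∧ mk3 ![a, b] (x 2) ∈ X := by
      refine c.continuousAt.eventually (p := fun z : Rn 1 =>
        (lo 2 < z 0 ∧ z 0 < hi 2) ∧ mk3 ![a, b] (z 0) ∈ X) ?_
      have e : (fun (x : Rn 3) (_ : Fin 1) => x 2) (mk3 ![a, b] (s 0)) = s :=
        funext fun i => by rw [Subsingleton.elim i 0]; rfl
      rwa [e]
    have h3 : ∀ᶠ x : Rn 3 in 𝓝 (mk3 ![a, b] (s 0)), |x 0 - a| < 1 :=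
      ((continuous_apply 0).sub continuous_const).abs.continuousAt.eventually_lt
        continuousAt_const (by simp)
    have h4 : ∀ᶠ x : Rn 3 in 𝓝 (mk3 ![a, b] (s 0)), |x 1 - b| < 1 :=
      ((continuous_apply 1).sub continuous_const).abs.continuousAt.eventually_lt
        continuousAt_const (by simp)
    filter_upwards [h2, h3, h4] with x k2 k3 k4
    refine h.tub a ha b hb _ k2.2 (fun i => ?_) (by simp [oc]) x
      ⟨by linarith, by linarith, by linarith⟩ rfl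
    have i0 := hB.inn 0 a ha
    have i1 := hB.inn 1 b hb
    fin_cases i
    · exact ⟨by simp; linarith [i0.1], by simp; linarith [i0.2]⟩
    · exact ⟨by simp; linarith [i1.1], by simp; linarith [i1.2]⟩
    · exact k2.1
  refine (((hB.fin 0).prod (hB.fin 1)).biUnion fun p hp =>
    (key p hp).image fun s => mk3 ![p.1, p.2] (s 0)).subset fun x hx => ?_
  have e : mk3 ![x 0, x 1] (x 2) = x := mk3_pj3 x
  refine mem_biUnion (x := (x 0, x 1)) ⟨hx.2.2.1, hx.2.2.2⟩ ⟨fun _ => x 2, ⟨?_, ?_⟩, e⟩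
  · rw [hBd, mem_closedBall, dist_pi_le_iff hr.le]
    intro _
    have := hx.2.1 2
    rw [Real.dist_eq, abs_le]
    exact ⟨by linarith [this.1], by linarith [this.2]⟩
  · exact e.symm ▸ hx.1

theorem ESt.poly {ι : Type} [Finite ι] {F J : ι → Set (Rn 3)} (h : ESt F J) :
    Poly (⋃ c, F c) ∧ PC 2 (⋃ c, F c) := by
  rw [← biUnion_univ]
  exact ⟨Poly.biUnion finite_univ fun c _ => (h.dsc c).poly,
    PC.biUnion finite_univ fun c _ => PL6_pc (h.dsc c)⟩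

end BEp
end
end

-- merged part: Pool.Agent.Work.MP_f0515e_an.D3.EH2
section
/-! Handle position in a wall.
`hw1`: one arrangement adapted to all `P` (`adapted_two`), `gen_prod` for `h x = x 2` (`R` a bound for all `P`); from the eventual statement get `Iv` on a small ball (a segment in the ball is cut into short steps, or use the radius of the product neighbourhood: steps have `|s| < 2 ρ`).
`hw2`: as `slab` (file ASlab). At points of `frontier R` take `u = ![0, 0, 1]`, at points of `interior R` shrink `ρ` so that the planar ball lies in `interior R`. Finite subcover by balls of radius `ρ / 4`, bumps `φ k`, lists `l₊ y`, `l₋ y` with `± u k`.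
`G (mk3 y s) = mk3 (y + η • pj3 (pth (l₊ y) (λ s / η) + pth (l₋ y) (-λ s / η))) s` with the tent `λ s = clamp (s - t) (max 0 (2 η - |s - t|))` (`pth` vanishes for nonpositive times), `lp_pert`, `Φ = invFun G`, `δ = η`. `pth_iv` on the closed time interval from `0`.
About 350 lines. -/

open Set Metric Filter Topology Function BEv
open scoped NNReal

noncomputable section
namespace BEp

variable {n m : ℕ}

theorem EH2_ad {𝒬 : Set (Set (Rn 3))} (hf : 𝒬.Finite) (hP : ∀ P ∈ 𝒬, Poly P) :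
    ∃ L : Set ((Rn 3 →L[ℝ] ℝ) × ℝ), L.Finite ∧ ∀ P ∈ 𝒬, ∀ x ∈ P, face L x ⊆ P := by
  induction 𝒬, hf using Set.Finite.induction_on with
  | empty => exact ⟨∅, finite_empty, fun _ h => h.elim⟩
  | insert _ _ ih =>
    obtain ⟨L, h1, h2⟩ := ih fun P h => hP P (mem_insert_of_mem _ h)
    obtain ⟨L', k1, k2, k3⟩ := exists_adapted h1 (hP _ (mem_insert _ _))
    refine ⟨L', k1, ?_⟩
    rintro P (rfl | h) x hx
    · exact k3 x hx
    · exact (face_anti k2 x).trans (h2 P h x hx)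

theorem EH2_pj {l : List (ℝ × Rn 3)} (h : ∀ p ∈ l, p.1 = 0 ∨ pj3 p.2 = 0) (s : ℝ) :
    pj3 (pth l s) = 0 := by
  induction l generalizing s with
  | nil =>
    ext i
    fin_cases i <;> rfl
  | cons p l ih =>
    rw [pth, pj3_add, ih fun q hq => h q (List.mem_cons_of_mem p hq), add_zero, pj3_smul]
    rcases h p (by simp) with e | e
    · rw [e, min_eq_left (le_max_right _ _), zero_smul]
    · rw [e, smul_zero]

theorem hw1 {𝒬 : Set (Set (Rn 3))} (hf : 𝒬.Finite) (hP : ∀ P ∈ 𝒬, Poly P) :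
    ∃ T : Set ℝ, T.Finite ∧ ∀ x : Rn 3, x 2 ∉ T →
      ∃ (u : Rn 3) (ρ : ℝ), u 2 = 1 ∧ 0 < ρ ∧ ∀ P ∈ 𝒬, Iv P (ball x ρ) u := by
  obtain ⟨L, hL, hA⟩ := EH2_ad hf hP
  obtain ⟨R, hR⟩ := (hf.isCompact_sUnion fun P h => (hP P h).1).isBounded.exists_norm_le
  obtain ⟨T, hT, h⟩ := gen_prod hL (h := fun x : Rn 3 => x 2) (TP.id'.apply 2) R
  refine ⟨T, hT, fun x hx => ?_⟩
  rcases le_or_gt ‖x‖ R with k | k
  · obtain ⟨v, hv⟩ := h x k hx
    obtain ⟨ε, hε, he⟩ := Metric.eventually_nhds_iff.1 hv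
    have h2 : v 2 = 1 := by
      have := (he (y := (x, ε / 2)) (by
        rw [Prod.dist_eq, dist_self, Real.dist_eq, sub_zero, abs_of_pos (half_pos hε)]
        exact max_lt hε (half_lt_self hε))).2
      simp only [Pi.add_apply, Pi.smul_apply, smul_eq_mul, add_right_inj] at this
      exact mul_left_cancel₀ (half_pos hε).ne' (this.trans (mul_one _).symm)
    refine ⟨v, ε / 2, h2, half_pos hε, fun P hQ y hy s hs k => hA P hQ y k (he (y := (y, s)) ?_).1⟩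
    rw [Prod.dist_eq, Real.dist_eq, sub_zero]
    refine max_lt ((mem_ball.1 hy).trans (half_lt_self hε)) ?_
    have h3 := norm_le_pi_norm (y + s • v - y) 2
    have h4 := dist_triangle_right (y + s • v) y x
    rw [dist_eq_norm] at h4
    simp only [add_sub_cancel_left, Pi.smul_apply, h2, smul_eq_mul, mul_one, Real.norm_eq_abs]
      at h3 h4
    linarith [mem_ball.1 hy, mem_ball.1 hs]
  · refine ⟨![0, 0, 1], ‖x‖ - R, rfl, sub_pos.2 k, fun P hQ y hy s _ ky => ?_⟩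
    have h1 := hR y ⟨P, hQ, ky⟩
    have h2 := norm_sub_norm_le x y
    rw [mem_ball', dist_eq_norm] at hy
    linarith

theorem hw2 {𝒬 : Set (Set (Rn 3))} {R : Set (Rn 2)} (hR : IsCompact R) {t ρ : ℝ} (hρ : 0 < ρ)
    (h : ∀ y ∈ R, ∃ (u : Rn 3) (r : ℝ), u 2 = 1 ∧ 0 < r ∧ ∀ P ∈ 𝒬, Iv P (ball (mk3 y t) r) u)
    (hb : ∀ y ∈ frontier R, ∃ r > 0, ∀ P ∈ 𝒬, Iv P (ball (mk3 y t) r) ![0, 0, 1]) :
    ∃ δ > 0, ∃ Φ, Mv {x | pj3 x ∈ interior R ∧ |x 2 - t| < ρ} Φ ∧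
      (∀ x, Φ x 2 = x 2 ∧ ‖Φ x - x‖ ≤ ρ) ∧ (∀ x, x 2 = t → Φ x = x) ∧
      ∀ P ∈ 𝒬, ∀ y ∈ R, ∀ s s' : ℝ, |s - t| ≤ δ → |s' - t| ≤ δ →
        mk3 y s ∈ Φ '' P → mk3 y s' ∈ Φ '' P := by
  have h' : ∀ y ∈ R, ∃ (u : Rn 3) (r : ℝ), u 2 = 1 ∧ 0 < r ∧
      (∀ P ∈ 𝒬, Iv P (ball (mk3 y t) r) u) ∧ (ball y r ⊆ interior R ∨ pj3 u = 0) := fun y hy => by
    by_cases k : y ∈ interior R
    · obtain ⟨u, r, h1, h2, h3⟩ := h y hy
      obtain ⟨r', h4, h5⟩ := Metric.isOpen_iff.1 isOpen_interior y k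
      exact ⟨u, min r r', h1, lt_min h2 h4,
        fun P hP => (h3 P hP).mono (ball_subset_ball (min_le_left _ _)),
        Or.inl ((ball_subset_ball (min_le_right _ _)).trans h5)⟩
    · obtain ⟨r, h1, h2⟩ := hb y ⟨subset_closure hy, k⟩
      refine ⟨_, r, rfl, h1, h2, Or.inr ?_⟩
      ext i
      fin_cases i <;> rfl
  choose! u r hu hr hI hS using h'
  obtain ⟨F, hF, hc⟩ := hR.elim_nhds_subcover (fun x => ball x (r x / 4))
    fun x hx => ball_mem_nhds x (by linarith [hr x hx])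
  let φ : Rn 2 → Rn 2 → ℝ := fun k y => max 0 (min 1 (2 - 4 * ‖y - k‖ / r k))
  let l : ℝ → Rn 2 → List (ℝ × Rn 3) := fun ε y => F.toList.map fun k => (φ k y, ε • u k)
  have hφ : ∀ k, TP fun x => φ k (pj3 x) := fun k => (TP.const 0).max ((TP.const 1).min
    ((TP.const 2).sub (((tp_pj3.sub (TP.const _)).norm_pi.const_mul 4).div_const _)))
  have hΓ : ∀ ε, TP fun x => pth (l ε (pj3 x)) (x 2) := fun ε => pth_tp _ hφ _ (TP.id'.apply 2)
  have hl : ∀ ε y, ∀ p ∈ l ε y, ∃ k ∈ F, p = (φ k y, ε • u k) := fun ε y p hp => by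
    obtain ⟨k, hk, rfl⟩ := List.mem_map.1 hp
    exact ⟨k, Finset.mem_toList.1 hk, rfl⟩
  have hl0 : ∀ ε y, ∀ p ∈ l ε y, 0 ≤ p.1 ∧ p.2 2 = ε := fun ε y p hp => by
    obtain ⟨k, hk, rfl⟩ := hl ε y p hp
    exact ⟨le_max_left _ _, by simp [hu k (hF k hk)]⟩
  have hz : ∀ ε y s, s ≤ 0 → pth (l ε y) s = 0 := fun ε y s hs =>
    pth_nonpos (fun p hp => (hl0 ε y p hp).1) hs
  have hsup : ∀ k ∈ F, ∀ y, 0 < φ k y → ‖y - k‖ < r k / 2 := fun k hk y hp0 => by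
    have h3 : 0 < 2 - 4 * ‖y - k‖ / r k :=
      (lt_min_iff.1 ((lt_max_iff.1 hp0).resolve_left (lt_irrefl _))).2
    rw [sub_pos, div_lt_iff₀ (hr k (hF k hk))] at h3
    linarith
  let Γ : Rn 2 → ℝ → Rn 3 := fun y s => pth (l 1 y) s + pth (l (-1) y) (-s)
  have hΓ' : TP fun x => Γ (pj3 x) (x 2) := by
    have := (hΓ 1).add ((hΓ (-1)).comp (tp_pj3.mk3 (TP.id'.apply 2).neg))
    simpa only [pj3_mk3, mk3_2] using this
  obtain ⟨L, hL, hb'⟩ := hΓ'.exists_bound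
  have hL0 : 0 < L := by linarith
  have hΓz : ∀ y, Γ y 0 = 0 := fun y => by
    simp only [Γ, neg_zero, hz _ _ _ le_rfl, add_zero]
  have hΓ0 : ∀ y s, ‖Γ y s‖ ≤ L * |s| := fun y s => by
    have := hb' (mk3 y s) (mk3 y 0)
    simp only [pj3_mk3, mk3_2, ASl_ver, sub_zero] at this
    rwa [hΓz, sub_zero] at this
  obtain ⟨c, hr0, hr1, hr2, hr3⟩ := ((show ∀ᶠ c in 𝓝[>] (0 : ℝ), 0 < c from
    self_mem_nhdsWithin).and (((eventually_lt_nhds (half_pos hρ)).and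
      ((eventually_lt_nhds one_half_pos).and ((eventually_all_finset F).2 fun k hk =>
        eventually_lt_nhds (half_pos (half_pos (hr k (hF k hk))))))).filter_mono
          nhdsWithin_le_nhds)).exists
  obtain ⟨η, hη, rfl⟩ : ∃ η, 0 < η ∧ η * L = c := ⟨c / L, by positivity, by field_simp⟩
  have hηρ : 2 * η ≤ ρ := by nlinarith
  let w : ℝ → ℝ := fun s => clamp (s - t) (max 0 (2 * η - |s - t|)) / η
  have hw : TP fun x : Rn 3 => w (x 2) := (((TP.id'.apply 2).sub (TP.const t)).clamp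
    ((TP.const 0).max ((TP.const _).sub ((TP.id'.apply 2).sub (TP.const t)).abs))).div_const η
  have hw2 : ∀ s, |w s| ≤ 2 := fun s => by
    simp only [w]
    rw [abs_div, abs_of_pos hη, div_le_iff₀ hη]
    exact (abs_clamp_le (le_max_left _ _)).trans
      (max_le (by positivity) (by linarith [abs_nonneg (s - t)]))
  have hd : TP fun x : Rn 3 => η • pj3 (Γ (pj3 x) (w (x 2))) := by
    have := (tp_pj3.comp (hΓ'.comp (tp_pj3.mk3 hw))).const_smul η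
    simpa only [pj3_mk3, mk3_2] using this
  have hG : LP fun x => mk3 (pj3 x + η • pj3 (Γ (pj3 x) (w (x 2)))) (x 2) :=
    lp_pert hd fun y y' s => by
      have := hb' (mk3 y (w s)) (mk3 y' (w s))
      simp only [pj3_mk3, mk3_2, ASl_hor] at this ⊢
      rw [← smul_sub, ← pj3_sub, norm_smul, Real.norm_of_nonneg hη.le]
      refine (mul_le_mul_of_nonneg_left ((ASl_pj _).trans this) hη.le).trans ?_
      rw [← mul_assoc]
      exact mul_le_mul_of_nonneg_right hr2.le (norm_nonneg _)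
  set G : Rn 3 → Rn 3 := fun x => mk3 (pj3 x + η • pj3 (Γ (pj3 x) (w (x 2)))) (x 2) with hGe
  have fix : ∀ x, pj3 (Γ (pj3 x) (w (x 2))) = 0 → G x = x := fun x e => by
    simp only [G]
    rw [e, smul_zero, add_zero, mk3_pj3]
  have pz : pj3 0 = 0 := EH2_pj (l := []) (fun _ h => by simp at h) 0
  refine ⟨η, hη, invFun G, Mv.inv ⟨hG.1, fun x hx => fix x ?_⟩, fun x => ?_,
    fun x hx => hG.1.inv_eq (fix x ?_), fun P hP y hy => ?_⟩
  · by_cases k : pj3 x ∈ interior R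
    · have k2 : ρ ≤ |x 2 - t| := not_lt.1 fun k' => hx ⟨k, k'⟩
      have e : w (x 2) = 0 := by
        simp only [w]
        rw [max_eq_left (by linarith), clamp_zero, zero_div]
      rw [e, hΓz, pz]
    · have e : ∀ ε s, pj3 (pth (l ε (pj3 x)) s) = 0 := fun ε s => EH2_pj (fun p hp => by
        obtain ⟨j, hj, rfl⟩ := hl ε _ p hp
        rcases (hl0 ε _ _ hp).1.eq_or_lt with e | e
        · exact Or.inl e.symm
        · rcases hS j (hF j hj) with a | a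
          · refine (k (a (mem_ball_iff_norm.2 ((hsup j hj _ e).trans ?_)))).elim
            exact half_lt_self (hr j (hF j hj))
          · exact Or.inr (by rw [pj3_smul, a, smul_zero])) s
      simp only [Γ]
      rw [pj3_add, e, e, add_zero]
  · obtain ⟨x, rfl⟩ := hG.1.1.2 x
    rw [hG.1.li]
    refine ⟨rfl, ?_⟩
    conv_lhs => rw [norm_sub_rev, ← mk3_pj3 x]
    simp only [G, pj3_mk3, mk3_2]
    rw [ASl_hor, add_sub_cancel_left, norm_smul, Real.norm_of_nonneg hη.le]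
    have h1 := (ASl_pj _).trans ((hΓ0 (pj3 x) (w (x 2))).trans
      (mul_le_mul_of_nonneg_left (hw2 _) hL0.le))
    nlinarith
  · have e : w (x 2) = 0 := by
      simp only [w]
      rw [hx, sub_self, clamp_eq_self (by rw [abs_zero]; exact le_max_left _ _), zero_div]
    rw [e, hΓz, pz]
  obtain ⟨k, hk, hy'⟩ : ∃ k ∈ F, y ∈ ball k (r k / 4) := by simpa using hc hy
  have hsum : ∀ ε, 1 ≤ ((l ε y).map Prod.fst).sum := fun ε => by
    refine List.single_le_sum (fun c hc => ?_) 1 (List.mem_map.2 ⟨_, List.mem_map.2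
      ⟨k, Finset.mem_toList.2 hk, rfl⟩, ?_⟩)
    · obtain ⟨p, hp, rfl⟩ := List.mem_map.1 hc
      exact (hl0 ε y p hp).1
    · rw [mem_ball_iff_norm] at hy'
      have h1 : 4 * ‖y - k‖ / r k ≤ 1 := (div_le_one (hr k (hF k hk))).2 (by linarith)
      simp only [φ]
      rw [min_eq_left (by linarith), max_eq_right zero_le_one]
  have key : ∀ ε, (∀ σ ∈ Icc (0 : ℝ) 1, ‖pth (l ε y) σ‖ ≤ L) → ∀ σ ∈ Icc (0 : ℝ) 1,
      (mk3 y t ∈ P ↔ mk3 y t + η • pth (l ε y) σ ∈ P) := fun ε hn σ hσ => by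
    have := pth_iv (S := P) (N := closedBall (mk3 y t) (η * L)) (η := η) (l := l ε y)
      (fun p hp => ⟨(hl0 ε y p hp).1, fun hp0 => ?_⟩) (mk3 y t) hσ.1 fun τ hτ => ?_
    · rwa [hz _ _ _ le_rfl, smul_zero, add_zero] at this
    · obtain ⟨j, hj, rfl⟩ := hl ε y p hp
      have h4 : closedBall (mk3 y t) (η * L) ⊆ ball (mk3 j t) (r j) := closedBall_subset_ball' (by
        rw [dist_eq_norm, ASl_hor]
        linarith [hsup j hj y hp0, hr3 j hj, hr j (hF j hj)])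
      intro z hz' c
      rw [smul_smul]
      exact (hI j (hF j hj) P hP).mono h4 z hz' _
    · rw [mem_closedBall_iff_norm, add_sub_cancel_left, norm_smul, Real.norm_of_nonneg hη.le]
      exact mul_le_mul_of_nonneg_left (hn τ ⟨hτ.1, hτ.2.trans hσ.2⟩) hη.le
  have g1 : ∀ σ, 0 ≤ σ → Γ y σ = pth (l 1 y) σ := fun σ h0 => by
    simp only [Γ]
    rw [hz _ _ _ (neg_nonpos.2 h0), add_zero]
  have g2 : ∀ σ, 0 ≤ σ → Γ y (-σ) = pth (l (-1) y) σ := fun σ h0 => by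
    simp only [Γ]
    rw [hz _ _ _ (neg_nonpos.2 h0), zero_add, neg_neg]
  have key2 : ∀ σ, |σ| ≤ 1 → Γ y σ 2 = σ ∧ (mk3 y t ∈ P ↔ mk3 y t + η • Γ y σ ∈ P) := fun σ hσ => by
    rcases le_total 0 σ with h0 | h0
    · have h1 := (abs_le.1 hσ).2
      rw [g1 σ h0]
      refine ⟨(pth_two (hl0 1 y) h0 (h1.trans (hsum 1))).trans (one_mul σ),
        key 1 (fun τ hτ => ?_) σ ⟨h0, h1⟩⟩
      rw [← g1 τ hτ.1]
      exact (hΓ0 y τ).trans (mul_le_of_le_one_right hL0.le (by rw [abs_of_nonneg hτ.1]; exact hτ.2))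
    · have h1 : -σ ≤ 1 := by linarith [(abs_le.1 hσ).1]
      have h2 := neg_nonneg.2 h0
      rw [← neg_neg σ, g2 _ h2]
      refine ⟨(pth_two (hl0 (-1) y) h2 (h1.trans (hsum _))).trans (neg_one_mul _),
        key (-1) (fun τ hτ => ?_) _ ⟨h2, h1⟩⟩
      rw [← g2 τ hτ.1]
      exact (hΓ0 y _).trans (mul_le_of_le_one_right hL0.le
        (by rw [abs_neg, abs_of_nonneg hτ.1]; exact hτ.2))
  have key3 : ∀ s, |s - t| ≤ η → (mk3 y s ∈ invFun G '' P ↔ mk3 y t ∈ P) := fun s hs => by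
    have e : w s = (s - t) / η := by
      simp only [w]
      rw [clamp_eq_self (le_max_of_le_right (by linarith))]
    obtain ⟨a, b⟩ := key2 ((s - t) / η) (by rwa [abs_div, abs_of_pos hη, div_le_one hη])
    have e2 : G (mk3 y s) = mk3 y t + η • Γ y ((s - t) / η) := by
      simp only [G, pj3_mk3, mk3_2]
      conv_rhs => rw [← mk3_pj3 (Γ _ _), ← mk3_smul, ← mk3_add, a]
      rw [e]
      congr 1
      field_simp
      ring
    rw [b, ← e2]
    exact ⟨fun ⟨z, hz, e⟩ => by rwa [← e, hG.1.ri], fun k => ⟨_, k, hG.1.li _⟩⟩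
  exact fun s s' hs hs' k => (key3 s' hs').2 ((key3 s hs).1 k)

end BEp
end
end

-- merged part: Pool.Agent.Work.MP_f0515e_an.P2.CutB
section
/-! Thick walls round small balls; discs are made vertical in the walls. -/

open Set Metric Filter Topology Function BEv
open scoped NNReal

noncomputable section
namespace BEp

/-- Thick wall in the unit cube: side, bottom and the levels between `u` and `v`. -/
def cutWl (u v : ℝ) : Set (Rn 3) :=
  {x | ‖x‖ ≤ 1 ∧ (‖pj3 x‖ = 1 ∨ x 2 = -1 ∨ x 2 ∈ Icc u v)}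

/-- The inside of the wall. -/
def cutIn (u : ℝ) : Set (Rn 3) := {x | ‖pj3 x‖ < 1 ∧ -1 < x 2 ∧ x 2 < u}

/-- Trace of `X` on the wall. -/
def cutTr (θ : Rn 3 → Rn 3) (u v : ℝ) (X : Set (Rn 3)) : Set (Rn 2) :=
  {y | ‖y‖ ≤ 1 ∧ ∃ s ∈ Icc u v, θ (mk3 y s) ∈ X}

/-- `X` is vertical in the wall. -/
structure CutW (θ : Rn 3 → Rn 3) (u v : ℝ) (X : Set (Rn 3)) : Prop where
  ver : ∀ y ∈ cutTr θ u v X, ∀ t ∈ Icc u v, θ (mk3 y t) ∈ X
  sid : ∀ x, ‖x‖ ≤ 1 → ‖pj3 x‖ = 1 ∨ x 2 = -1 → θ x ∉ X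

variable {θ : Rn 3 → Rn 3} {u v : ℝ} {E J X : Set (Rn 3)}

theorem cutB_nm {y : Rn 2} {s : ℝ} (hy : ‖y‖ ≤ 1) (hu : -1 < u) (hv : v ≤ 1) (hs : s ∈ Icc u v) :
    mk3 y s ∈ cutWl u v :=
  ⟨by rw [norm_mk3]; exact max_le hy (abs_le.2 ⟨by linarith [hs.1], hs.2.trans hv⟩),
    Or.inr (Or.inr hs)⟩

theorem CutW.lt (h : CutW θ u v X) (hu : -1 < u) (hv : v ≤ 1) {y : Rn 2} (hy : y ∈ cutTr θ u v X) :
    ‖y‖ < 1 := by
  obtain ⟨h1, s, hs, h2⟩ := hy
  exact h1.lt_of_ne fun k => h.sid _ (cutB_nm h1 hu hv hs).1 (Or.inl (by rwa [pj3_mk3])) h2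

theorem CutW.tr (h : CutW θ u v X) {x : Rn 3} (hx : x ∈ cutWl u v) (k : θ x ∈ X) :
    pj3 x ∈ cutTr θ u v X ∧ x 2 ∈ Icc u v := by
  rcases hx.2 with e | e | e
  · exact (h.sid x hx.1 (Or.inl e) k).elim
  · exact (h.sid x hx.1 (Or.inr e) k).elim
  · exact ⟨⟨(ASl_pj x).trans hx.1, _, e, by rwa [mk3_pj3]⟩, e⟩

theorem cut_sec (hθ : LH θ) (h : PDsc E J) (hu : -1 < u) (huv : u < v) (hv : v ≤ 1)
    (hw : CutW θ u v E) (hJ : Disjoint J (θ '' cutWl u v)) :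
    ∃ 𝒞 : Set (Set (Rn 2)), 𝒞.Finite ∧ ⋃₀ 𝒞 = cutTr θ u v E ∧ 𝒞.PairwiseDisjoint id ∧
      ∀ C ∈ 𝒞, Crc C := by
  have hd : 0 < (v - u) / 2 := by linarith
  have hA : LH fun x : Rn 3 => update x 2 ((u + v) / 2 + (v - u) / 2 * x 2) :=
    lh_vert 2 ((TP.const _).add ((TP.id'.apply 2).const_mul _)) hd fun x a b _ => by
      simp only [update_self]
      linarith
  have hη := hθ.comp hA
  set η := θ ∘ fun x : Rn 3 => update x 2 ((u + v) / 2 + (v - u) / 2 * x 2) with e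
  have e1 : ∀ y s, η (mk3 y s) = θ (mk3 y ((u + v) / 2 + (v - u) / 2 * s)) := fun y s => by
    rw [e, comp_apply]
    congr 1
    ext i
    fin_cases i <;> rfl
  have e2 : ∀ s : ℝ, |s| ≤ 1 → (u + v) / 2 + (v - u) / 2 * s ∈ Icc u v := fun s hs => by
    obtain ⟨a, b⟩ := abs_le.1 hs
    constructor <;> nlinarith
  have e0 := e2 0 (by simp)
  have h' := h.image hη.tpi hη.inv.inj.injOn
  rw [EML_pre hη, EML_pre hη] at h'
  have e3 : ∀ x ∈ η ⁻¹' E ∩ lay (closedBall 0 1) 0, pj3 x ∈ cutTr θ u v E := fun x hx =>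
    ⟨mem_closedBall_zero_iff.1 hx.2.1, _, e0, by rw [← e1, ← hx.2.2, mk3_pj3]; exact hx.1⟩
  have e4 : η ⁻¹' E ∩ lay (ball 0 1) 0 = η ⁻¹' E ∩ lay (closedBall 0 1) 0 :=
    Subset.antisymm (fun x hx => ⟨hx.1, ball_subset_closedBall hx.2.1, hx.2.2⟩)
      fun x hx => ⟨hx.1, mem_ball_zero_iff.2 (hw.lt hu hv (e3 x hx)), hx.2.2⟩
  obtain ⟨𝒞, c1, c2, c3, c4⟩ := ESec1_core isOpen_ball h' (fun y hy s t hs ht k => by
    rw [mem_preimage, e1] at k ⊢
    exact hw.ver y ⟨(mem_ball_zero_iff.1 hy).le, _, e2 s hs, k⟩ _ (e2 t ht))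
    (e4 ▸ h'.cpt.isClosed.inter (poly_lay (Poly.closedBall 0 1) 0).1.isClosed)
  rw [e4] at c2
  have inj : InjOn pj3 (⋃₀ 𝒞) := fun x hx y hy k => by
    rw [c2] at hx hy
    rw [← mk3_pj3 x, ← mk3_pj3 y, k, hx.2.2, hy.2.2]
  refine ⟨image pj3 '' 𝒞, c1.image _, ?_, ?_, ?_⟩
  · rw [← image_sUnion, c2]
    refine Subset.antisymm (image_subset_iff.2 e3) fun y hy => ⟨mk3 y 0, ⟨?_, ?_, rfl⟩, pj3_mk3 _ _⟩
    · rw [mem_preimage, e1]
      exact hw.ver y hy _ e0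
    · rw [pj3_mk3]
      exact mem_closedBall_zero_iff.2 hy.1
  · rintro _ ⟨K, hK, rfl⟩ _ ⟨K', hK', rfl⟩ hne
    exact disjoint_image_image fun x hx y hy k => disjoint_left.1 (c3 hK hK' fun k => hne (k ▸ rfl))
      hx (inj (mem_sUnion_of_mem hx hK) (mem_sUnion_of_mem hy hK') k ▸ hy)
  · rintro _ ⟨K, hK, rfl⟩
    rcases c4 K hK with k | ⟨a, b, -, k⟩
    · exact k.1.image tp_pj3 (inj.mono (subset_sUnion_of_mem hK))
    · have ha : a ∈ K ∩ η ⁻¹' J := k ▸ mem_insert _ _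
      have hb : a ∈ η ⁻¹' E ∩ lay (closedBall 0 1) 0 := c2 ▸ mem_sUnion_of_mem ha.1 hK
      refine (disjoint_left.1 hJ ha.2 ⟨_, cutB_nm (e3 a hb).1 hu hv e0, ?_⟩).elim
      rw [← e1, ← hb.2.2, mk3_pj3]

theorem cut_wall {μ : Type} [Finite μ] {E J : μ → Set (Rn 3)} (hE : ∀ j, PDsc (E j) (J j))
    (c : Rn 3) {r R : ℝ} (hr : 0 < r) (hR : r < R) :
    ∃ Ψ, Mv (ball c R \ closedBall c r) Ψ ∧ ∃ θ u v, LH θ ∧
      θ '' closedBall 0 1 ⊆ ball c R ∧ -1 < u ∧ u < v ∧ v ≤ 1 ∧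
      closedBall c r ⊆ θ '' cutIn u ∧ ∀ j, CutW θ u v (Ψ '' E j) := by
  have p1 : Poly (⋃ j, E j) := by
    rw [← biUnion_univ]
    exact Poly.biUnion finite_univ fun j _ => (hE j).poly
  have p2 : PC 2 (⋃ j, E j) := by
    rw [← biUnion_univ]
    exact PC.biUnion finite_univ fun j _ => PL6_pc (hE j)
  obtain ⟨p, hp, hp'⟩ : ∃ p ∈ ball c R \ closedBall c r, p ∉ ⋃ j, E j := by
    by_contra! hn
    have e : dist (c + fun _ => (r + R) / 2) c = (r + R) / 2 := by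
      rw [dist_eq_norm, add_sub_cancel_left, pi_norm_const, Real.norm_of_nonneg (by linarith)]
    refine ESec_thin p2 (c + fun _ => (r + R) / 2) (mem_of_superset
      ((isOpen_ball.sdiff isClosed_closedBall).mem_nhds ⟨?_, ?_⟩) hn)
    · rw [mem_ball, e]
      linarith
    · rw [mem_closedBall, e]
      linarith
  have q1 : r < dist p c := not_le.1 hp.2
  have q2 : dist p c < R := hp.1
  obtain ⟨Θ, hΘ, b1, b2, b3⟩ := sph_chart (ball_round c (hr.trans q1))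
    (p1.1.isClosed.inter isClosed_sphere) inter_subset_right
    fun k => hp' (k.ge (mem_sphere.2 rfl)).1
  have side : ∀ x : Rn 3, ‖x‖ ≤ 1 → ‖pj3 x‖ = 1 ∨ x 2 = -1 → x ∉ Θ '' ⋃ j, E j := by
    rintro _ h1 h2 ⟨z, hz, rfl⟩
    have h3 : Θ z ∈ sphere (0 : Rn 3) 1 := mem_sphere_zero_iff_norm.2 (h1.antisymm (h2.elim
      (fun k => k ▸ ASl_pj _) fun k => by simpa [k] using norm_le_pi_norm (Θ z) 2))
    rw [← b2, hΘ.inj.mem_set_image] at h3
    obtain ⟨h4, h5⟩ := b3 ⟨z, ⟨hz, h3⟩, rfl⟩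
    rcases h2 with k | k
    · exact (mem_ball_zero_iff.1 h4).ne k
    · linarith
  obtain ⟨w, ⟨w0, w1⟩, hw⟩ := exists_pos_lt_subset_ball (x := (0 : Rn 3)) one_pos
    ((isCompact_closedBall c r).image hΘ.tp.continuous).isClosed (by
      rintro _ ⟨z, hz, rfl⟩
      have h1 : dist z c < dist p c := (mem_closedBall.1 hz).trans_lt q1
      have h2 : Θ z ∈ closedBall (0 : Rn 3) 1 := b1 ▸ mem_image_of_mem _ h1.le
      refine (mem_closedBall.1 h2).lt_of_ne fun k => h1.ne ?_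
      have h3 : Θ z ∈ sphere (0 : Rn 3) 1 := k
      rwa [← b2, hΘ.inj.mem_set_image] at h3)
  obtain ⟨T, hT, hT'⟩ := hw1 (finite_range fun j => Θ '' E j)
    (forall_mem_range.2 fun j => (hE j).poly.image hΘ.tp)
  obtain ⟨t, ⟨t1, t2⟩, ht⟩ := ((Ioo_infinite w1).sdiff hT).nonempty
  have hρ : 0 < min (t - w) (1 - t) := lt_min (by linarith) (by linarith)
  have m1 := min_le_left (t - w) (1 - t)
  have m2 := min_le_right (t - w) (1 - t)
  obtain ⟨δ, hδ, Φ, hΦ, -, -, hv⟩ := hw2 (𝒬 := range fun j => Θ '' E j) (t := t)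
    (isCompact_closedBall (0 : Rn 2) 1) hρ (fun y _ => hT' _ ht) fun y hy => by
      rw [frontier_closedBall _ one_ne_zero, mem_sphere_zero_iff_norm] at hy
      obtain ⟨ε, hε, k⟩ := Metric.isOpen_iff.1 (p1.image hΘ.tp).1.isClosed.isOpen_compl (mk3 y t)
        (side _ (by rw [norm_mk3, hy]; exact max_le le_rfl (abs_le.2 ⟨by linarith, t2.le⟩))
          (Or.inl (by rwa [pj3_mk3])))
      exact ⟨ε, hε, forall_mem_range.2 fun j z hz s _ k' =>
        (k hz (image_mono (subset_iUnion E j) k')).elim⟩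
  rw [interior_closedBall _ one_ne_zero] at hΦ
  have hθ := hΘ.inv
  have sub : invFun Θ '' closedBall 0 1 ⊆ ball c R := by
    rw [← b1, hΘ.inv_image]
    exact closedBall_subset_ball q2
  have mem : ∀ j x, invFun Θ x ∈ (invFun Θ ∘ Φ ∘ invFun (invFun Θ)) '' E j ↔
      x ∈ Φ '' (Θ '' E j) := fun j x => by
    rw [hΘ.inv_inv, image_comp, image_comp, hθ.inj.mem_set_image]
  have d0 : 0 < min δ (min (t - w) (1 - t)) := lt_min hδ hρ
  have d1 := min_le_left δ (min (t - w) (1 - t))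
  have d2 := min_le_right δ (min (t - w) (1 - t))
  refine ⟨_, (hΦ.conj hθ).mono ?_, invFun Θ, t - min δ (min (t - w) (1 - t)),
    t + min δ (min (t - w) (1 - t)), hθ, sub, by linarith, by linarith, by linarith,
    fun z hz => ?_, fun j => ⟨fun y ⟨h1, s, hs, h2⟩ s' hs' => ?_, fun x h1 h2 k => ?_⟩⟩
  · rintro _ ⟨x, ⟨h1, h2⟩, rfl⟩
    obtain ⟨h3, h4⟩ := abs_lt.1 h2
    refine ⟨sub ⟨x, ?_, rfl⟩, fun k => ?_⟩
    · rw [mem_closedBall_zero_iff, ← mk3_pj3 x, norm_mk3]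
      exact max_le (mem_ball_zero_iff.1 h1).le (abs_le.2 ⟨by linarith, by linarith⟩)
    · have h5 := mem_ball_zero_iff.1 (hw ⟨_, k, hΘ.ri x⟩)
      linarith [norm_le_pi_norm x 2, Real.le_norm_self (x 2)]
  · have h5 := mem_ball_zero_iff.1 (hw ⟨z, hz, rfl⟩)
    obtain ⟨h6, h7⟩ := abs_lt.1 ((norm_le_pi_norm (Θ z) 2).trans_lt h5)
    exact ⟨Θ z, ⟨by linarith [ASl_pj (Θ z)], by linarith, by linarith⟩, hΘ.li z⟩
  · rw [mem] at h2 ⊢
    exact hv _ ⟨j, rfl⟩ y (mem_closedBall_zero_iff.2 h1) s s'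
      (abs_le.2 ⟨by linarith [hs.1], by linarith [hs.2]⟩)
      (abs_le.2 ⟨by linarith [hs'.1], by linarith [hs'.2]⟩) h2
  · rw [mem, ← hΦ.2 x fun k' => ?_, hΦ.1.inj.mem_set_image] at k
    · exact side x h1 h2 (image_mono (subset_iUnion E j) k)
    · rcases h2 with e | e
      · exact (mem_ball_zero_iff.1 k'.1).ne e
      · linarith [(abs_lt.1 k'.2).1]

theorem CutW.congr {X' : Set (Rn 3)} (h : CutW θ u v X) (hu : -1 < u) (hv : v ≤ 1)
    (e : ∀ x, ‖x‖ ≤ 1 → (θ x ∈ X' ↔ θ x ∈ X)) : CutW θ u v X' :=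
  ⟨fun y ⟨h1, s, hs, h2⟩ t ht => (e _ (cutB_nm h1 hu hv ht).1).2
    (h.ver y ⟨h1, s, hs, (e _ (cutB_nm h1 hu hv hs).1).1 h2⟩ t ht),
    fun x h1 h2 k => h.sid x h1 h2 ((e x h1).1 k)⟩

theorem cut_walls {μ κ : Type} [Finite μ] [Finite κ] {E J : μ → Set (Rn 3)}
    (hE : ∀ j, PDsc (E j) (J j)) {c : κ → Rn 3} {r R : κ → ℝ} (hr : ∀ k, 0 < r k ∧ r k < R k)
    (hB : Pairwise fun k l => Disjoint (ball (c k) (R k)) (ball (c l) (R l))) :
    ∃ Ψ, Mv (⋃ k, ball (c k) (R k) \ closedBall (c k) (r k)) Ψ ∧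
      (∀ k x, Ψ x ∈ ball (c k) (R k) ↔ x ∈ ball (c k) (R k)) ∧ ∀ k, ∃ θ u v, LH θ ∧
      θ '' closedBall 0 1 ⊆ ball (c k) (R k) ∧ -1 < u ∧ u < v ∧ v ≤ 1 ∧
      closedBall (c k) (r k) ⊆ θ '' cutIn u ∧ ∀ j, CutW θ u v (Ψ '' E j) := by
  have key : ∀ s : Set κ, s.Finite → ∃ Ψ,
      Mv (⋃ k, ball (c k) (R k) \ closedBall (c k) (r k)) Ψ ∧
      (∀ k x, Ψ x ∈ ball (c k) (R k) ↔ x ∈ ball (c k) (R k)) ∧ ∀ k ∈ s, ∃ θ u v, LH θ ∧
      θ '' closedBall 0 1 ⊆ ball (c k) (R k) ∧ -1 < u ∧ u < v ∧ v ≤ 1 ∧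
      closedBall (c k) (r k) ⊆ θ '' cutIn u ∧ ∀ j, CutW θ u v (Ψ '' E j) := fun s hs => by
    induction s, hs using Set.Finite.induction_on with
    | empty => exact ⟨id, Mv.id' _, fun _ _ => Iff.rfl, fun _ h => h.elim⟩
    | @insert a s _ _ ih =>
      obtain ⟨Ψ, h1, h2, h3⟩ := ih
      obtain ⟨Φ, k1, k2⟩ := cut_wall (fun j => (hE j).image h1.1.tp h1.1.inj.injOn) (c a)
        (hr a).1 (hr a).2
      have fix : ∀ k, k ≠ a → ∀ x ∈ ball (c k) (R k), Φ x = x := fun k hk x hx =>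
        k1.2 x fun k' => disjoint_left.1 (hB hk) hx k'.1
      refine ⟨Φ ∘ Ψ, (k1.mono (subset_iUnion
        (fun k => ball (c k) (R k) \ closedBall (c k) (r k)) a)).comp h1, fun k x => ?_,
        fun k hk => ?_⟩
      · rw [← h2 k x, comp_apply]
        rcases eq_or_ne k a with rfl | hk
        · exact EML_mem k1 sdiff_subset
        · exact not_iff_not.1 (EML_mem (W' := (ball (c k) (R k))ᶜ) k1
            fun z hz k' => disjoint_left.1 (hB hk) k' hz.1)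
      simp only [image_comp]
      rcases eq_or_ne k a with rfl | hk'
      · exact k2
      obtain ⟨θ, u, v, a1, a2, a3, a4, a5, a6, a7⟩ := h3 k (hk.resolve_left hk')
      refine ⟨θ, u, v, a1, a2, a3, a4, a5, a6, fun j => (a7 j).congr a3 a5 fun x hx => ?_⟩
      conv_lhs => rw [← fix k hk' _ (a2 ⟨x, mem_closedBall_zero_iff.2 hx, rfl⟩)]
      exact k1.1.inj.mem_set_image
  obtain ⟨Ψ, h1, h2, h3⟩ := key univ finite_univ
  exact ⟨Ψ, h1, h2, fun k => h3 k trivial⟩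

end BEp
end
end
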