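import Pool.Agent.Work.MP_f0515e_an.P3.KInt
import Pool.Agent.Work.MP_f0515e_an.D3.EML
import Pool.Agent.Work.MP_f0515e_an.P2.CutB
import Pool.Agent.Work.MP_f0515e_an.D3.EMH
import Pool.Agent.Work.MP_f0515e_an.D3.DeTP
import Pool.Agent.Work.MP_f0515e_an.D3.CDisj

-- merged part: Pool.Agent.Work.MP_f0515e_an.P2.QDefs
section
-- merged part: Pool.Agent.Work.MP_f0515e_an.P2.QDefs
section
/-! Exponent two: definitions. The map `f` is replaced by `Λ ∘ f`, where `Λ` cuts the fingers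
`f '' d` (`d` a small disc in a face) and crushes the small balls which contain the images of their
boundary circles. -/

open Set Metric Filter Topology Function BEv MeasureTheory
open scoped NNReal ENNReal

noncomputable section
namespace BEp

/-- The coordinate plane with normal `n` at height `h`, and the projection to it. -/
def pl (n : Fin 3) (h : ℝ) (ξ : Rn 2) : Rn 3 := Fin.insertNth (α := fun _ => ℝ) n h ξ

def pq (n : Fin 3) (x : Rn 3) : Rn 2 := fun a => x (n.succAbove a)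

/-- A flat disc, its boundary circle and its normal. -/
structure Fg where
  d : Set (Rn 3)
  J : Set (Rn 3)
  n : Fin 3

/-- The disc lies in `Z`, and near the disc `Z` lies in the plane of the disc. -/
structure Fg.Ok (φ : Fg) (Z : Set (Rn 3)) : Prop where
  fd : ∃ (h : ℝ) (B S : Set (Rn 2)), Ball B S ∧ φ.d = pl φ.n h '' B ∧ φ.J = pl φ.n h '' S
  sub : φ.d ⊆ Z
  loc : ∀ x ∈ φ.d, ∀ᶠ y in 𝓝 x, y ∈ Z → y φ.n = x φ.n

/-- `x` lies in no open disc. -/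
def Off (𝒟 : Set Fg) (x : Rn 3) : Prop := ∀ φ ∈ 𝒟, x ∉ φ.d \ φ.J

/-- `G` is an upper gradient on the axis parallel segments in `U` on which `v` is integrable. -/
def UgA {F : Type} [NormedAddCommGroup F] (U : Set (Rn 2)) (k : Rn 2 → F) (v G : Rn 2 → ℝ≥0∞) :
    Prop :=
  ∀ (ξ : Rn 2) (a : Fin 2) (s s' : ℝ), s ≤ s' → (∀ t ∈ Icc s s', update ξ a t ∈ U) →
    ∫⁻ t in Icc s s', v (update ξ a t) ≠ ⊤ →
      ‖k (update ξ a s') - k (update ξ a s)‖ₑ ≤ ∫⁻ t in Icc s s', G (update ξ a t)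

/-- Planar discs which cover the set where `ψ` is large; their circles are sent to small balls. -/
structure Lp (k : Rn 2 → Rn 3) (ψ : Rn 2 → ℝ) (S : Set (Rn 2)) (τ1 τ2 l : ℝ)
    (𝒟 : Set (Set (Rn 2) × Set (Rn 2))) (𝔅 : Finset (Rn 3 × ℝ)) : Prop where
  fin : 𝒟.Finite
  ball : ∀ d ∈ 𝒟, Ball d.1 d.2 ∧ d.1 ⊆ S ∧ (∀ ξ ∈ d.2, τ1 < ψ ξ ∧ ψ ξ < τ2) ∧
    ∃ b ∈ 𝔅, k '' d.2 ⊆ closedBall b.1 b.2
  dis : ∀ d ∈ 𝒟, ∀ d' ∈ 𝒟, d ≠ d' → Disjoint d.1 d'.1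
  cov : ∀ ξ ∈ S, τ2 ≤ ψ ξ → ∃ d ∈ 𝒟, ξ ∈ d.1 \ d.2
  pos : ∀ b ∈ 𝔅, 0 ≤ b.2
  sum : ∑ b ∈ 𝔅, b.2 ≤ l

/-- Uniform approximation on `S` by injective piecewise affine maps. -/
def Moi (f : Rn 3 → Rn 3) (S : Set (Rn 3)) : Prop :=
  ∀ ε : ℝ, 0 < ε → ∃ g, TP g ∧ InjOn g S ∧ ∀ x ∈ S, ‖g x - f x‖ ≤ ε

/-- Disjoint flat discs whose circles are sent into disjoint balls. -/
structure QFam (f : Rn 3 → Rn 3) (Z : Set (Rn 3)) (𝒟 : Set Fg) (𝔅 : Set (Rn 3 × ℝ)) : Prop where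
  fin : 𝒟.Finite
  finb : 𝔅.Finite
  ok : ∀ φ ∈ 𝒟, φ.Ok Z
  dis : ∀ φ ∈ 𝒟, ∀ φ' ∈ 𝒟, φ ≠ φ' → Disjoint φ.d φ'.d
  inb : ∀ φ ∈ 𝒟, ∃ β ∈ 𝔅, f '' φ.J ⊆ ball β.1 β.2
  pos : ∀ β ∈ 𝔅, 0 < β.2
  disb : ∀ β ∈ 𝔅, ∀ β' ∈ 𝔅, β ≠ β' → Disjoint (closedBall β.1 β.2) (closedBall β'.1 β'.2)

/-- The homeomorphism which cuts the fingers. -/
structure CtOut (f : Rn 3 → Rn 3) (Z : Set (Rn 3)) (𝒟 : Set Fg) (𝔅 : Set (Rn 3 × ℝ)) (ρ : ℝ)
    (Φ : Rn 3 → Rn 3) : Prop where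
  lh : LH Φ
  mv : ∀ y, ‖Φ y - y‖ ≤ 12 * ρ
  sup : ∀ y, (∀ β ∈ 𝔅, 12 * ρ ≤ ‖y - β.1‖) → Φ y = y
  fix : ∀ x ∈ Z, Φ (f x) = f x ∨ ∃ β ∈ 𝔅, Φ (f x) ∈ ball β.1 β.2
  fing : ∀ φ ∈ 𝒟, ∃ β ∈ 𝔅, ∀ x ∈ φ.d, Φ (f x) ∈ ball β.1 β.2
  trk : ∀ β ∈ 𝔅, ∀ T ⊆ Z, IsPreconnected T → (∀ x ∈ T, f x ∉ ball β.1 β.2) →
    (∃ x ∈ T, 12 * ρ ≤ ‖f x - β.1‖) → ∀ x ∈ T, Φ (f x) ∉ ball β.1 β.2

/-- State of the cutting procedure: `β k` is a ball with boundary `Sg k`, `θ k` is the chart of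
a wall whose core lies in `Sg k`. -/
structure CSt {ι κ : Type} (D J : ι → Set (Rn 3)) (c : κ → Rn 3) (r : κ → ℝ) (Y : Set (Rn 3))
    (ρ : ℝ) (β Sg : κ → Set (Rn 3)) (θ : κ → Rn 3 → Rn 3) (Φ : Rn 3 → Rn 3) : Prop where
  lh : LH Φ
  wl : ∀ k, LH (θ k) ∧ Ball (β k) (Sg k) ∧ β k ⊆ ball (c k) (r k) ∧
    θ k '' closedBall 0 1 ⊆ ball (c k) (r k) ∧ ∀ x ∈ closedBall (0 : Rn 3) 1, θ k x ∈ Sg k → x 2 = 0
  d1 : ∀ j k, Φ '' D j ∩ Sg k ⊆ θ k '' lay (ball 0 1) 0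
  d2 : ∀ j k, ∀ x ∈ closedBall (0 : Rn 3) 1, θ k x ∈ Φ '' D j → ‖pj3 x‖ < 1
  d3 : ∀ j k, Iw (cN (θ k) (ball 0 1)) (cf (θ k)) (Φ '' D j)
  alt : ∀ j, (∃ k, Φ '' D j ⊆ ball (c k) (r k) \ (Sg k ∪ θ k '' closedBall 0 1)) ∨
    ((∀ x ∈ J j, Φ x = x) ∧ (∃ k, J j ⊆ β k \ (Sg k ∪ θ k '' closedBall 0 1)) ∧
      ∀ x ∈ D j, Φ x = x ∨ ∃ k, Φ x ∈ ball (c k) (r k) ∧ (ball (c k) (r k) ∩ D j).Nonempty)
  fy : ∀ y ∈ Y, Φ y = y ∨ ∃ k, Φ y ∈ ball (c k) (r k)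
  inv : ∀ k x, Φ x ∈ ball (c k) (r k) → x ∈ ball (c k) (5 * ρ)
  mv : ∀ x, ‖Φ x - x‖ ≤ 6 * ρ
  sup : ∀ x, (∀ k, 5 * ρ ≤ ‖x - c k‖) → Φ x = x
  trk : ∀ k, ∀ T ⊆ Y, IsPreconnected T → Disjoint T (ball (c k) (r k)) →
    (∃ p ∈ T, 5 * ρ ≤ ‖p - c k‖) → Disjoint (Φ '' T) (ball (c k) (r k))

/-- Hypotheses of the cutting procedure. -/
structure CIn {ι κ : Type} (D J : ι → Set (Rn 3)) (c : κ → Rn 3) (r : κ → ℝ) (Y : Set (Rn 3))
    (ρ : ℝ) : Prop where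
  dsc : ∀ j, PDsc (D j) (J j)
  dis : ∀ j j', j ≠ j' → Disjoint (D j) (D j')
  disb : ∀ k k', k ≠ k' → Disjoint (ball (c k) (r k)) (ball (c k') (r k'))
  inb : ∀ j, ∃ k, J j ⊆ ball (c k) (r k)
  cl : IsClosed Y
  yd : ∀ j, Y ∩ D j ⊆ J j
  sm : ∀ j, ∃ y, D j ⊆ ball y ρ
  r0 : ∀ k, 0 < r k ∧ r k ≤ ρ
  ρ0 : 0 ≤ ρ

/-- The circles in the cores of the walls. -/
def Cir {ι κ : Type} (D : ι → Set (Rn 3)) (θ : κ → Rn 3 → Rn 3) (Φ : Rn 3 → Rn 3) :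
    Set (κ × Set (Rn 3)) :=
  {p | Crc p.2 ∧ p.2 ⊆ (⋃ j, Φ '' D j) ∩ θ p.1 '' lay (ball 0 1) 0}

/-- Closed neighbourhood. -/
def nb (Y : Set (Rn 3)) (a : ℝ) : Set (Rn 3) := {y | ∃ x ∈ Y, ‖y - x‖ ≤ a}

def Ty.ep (T : Ty) : ℝ := T.lam * T.σ / (1000 * (1 + ‖T.A‖))

def Ty.dl (T : Ty) : ℝ := T.ep ^ 2 / (10 ^ 6 * 2 ^ (3 * T.a) * (1 + ‖T.A‖) ^ 2)

namespace Cu
variable (C : Cu)

def τ : ℝ := C.ep * C.s

def m : ℝ := C.σ * C.κ * C.s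

def R0 : ℝ := C.ρx + C.κ * C.s / 2

def R1 : ℝ := C.t0 / 2 - 16 * C.s * ⌈C.κ / 64⌉₊

def Rm : ℝ := C.t0 / 2 + 3 * C.ρ'

/-- Neighbourhood of the affine image of a part of a tile. -/
def Nb (f : Rn 3 → Rn 3) (u : I3 × I3) (R a : ℝ) : Set (Rn 3) := nb (C.aff0 f u '' C.Q u R) a

/-- The large private set. -/
def Pv (f : Rn 3 → Rn 3) (u : I3 × I3) : Set (Rn 3) := C.Nb f u C.R1 (19 / 100 * C.m)

/-- Grid points of a tile. -/
def Gp (u : I3 × I3) : Set (Rn 3) :=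
  {x | x ∈ C.Q u (C.t0 / 2) ∧ ∀ i, ∃ k : ℤ, x i = k * (16 * C.s)}

section
variable (D : Rn 3 → Rn 3 →L[ℝ] Rn 3) (v : Rn 3 → ℝ≥0∞) (δ : ℝ)

/-- Maximal conditions on a line, on a plane and in space. -/
def M1 (i : Fin 3) (x : Rn 3) : Prop :=
  ∫⁻ t in Icc (x i - C.Rm) (x i + C.Rm), v (update x i t) ≠ ⊤ ∧ ∀ R ∈ Icc (C.t0 / 2) C.Rm,
    ∫⁻ t in Icc (x i - R) (x i + R), ‖D (update x i t) - C.A‖ₑ ^ 2 ≤
      ENNReal.ofReal (δ ^ 2 * (2 * R))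

def M2 (n : Fin 3) (x : Rn 3) : Prop :=
  ∫⁻ ξ in closedBall (pq n x) C.Rm, v (pl n (x n) ξ) ≠ ⊤ ∧ ∀ R ∈ Icc (C.t0 / 2) C.Rm,
    ∫⁻ ξ in closedBall (pq n x) R, ‖D (pl n (x n) ξ) - C.A‖ₑ ^ 2 ≤
      ENNReal.ofReal (δ ^ 2 * (2 * R) ^ 2)

def M3 (x : Rn 3) : Prop :=
  ∫⁻ y in closedBall x C.Rm, v y ≠ ⊤ ∧ ∀ R ∈ Icc (C.t0 / 2) C.Rm,
    ∫⁻ y in closedBall x R, ‖D y - C.A‖ₑ ^ 2 ≤ ENNReal.ofReal (δ ^ 2 * (2 * R) ^ 3)

end

/-- All the maximal conditions of a tile. -/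
structure Mx (D : Rn 3 → Rn 3 →L[ℝ] Rn 3) (v : Rn 3 → ℝ≥0∞) (u : I3 × I3) : Prop where
  m1 : ∀ i ∈ C.I, ∀ x ∈ C.Gp u, x i = C.ctr u i → C.M1 D v C.dl i x
  m2 : ∀ n, (∀ i, i ≠ n → i ∈ C.I) → ∀ x ∈ C.Gp u, (∀ i, i ≠ n → x i = C.ctr u i) →
    C.M2 D v C.dl n x
  m3 : C.I.card = 3 → C.M3 D v C.dl (C.ctr u)

/-- The energy of the intruders of a plate is small. -/
def IE (f : Rn 3 → Rn 3) (D : Rn 3 → Rn 3 →L[ℝ] Rn 3) (u : I3 × I3) : Prop :=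
  ∀ n, (∀ i, i ∈ C.I ↔ i ≠ n) →
    ∫⁻ ξ in {ξ | ξ ∈ closedBall (pq n (C.ctr u)) C.ρ' ∧ pl n (C.ctr u n) ξ ∉ C.Q u C.R1 ∧
      f (pl n (C.ctr u n) ξ) ∈ C.Nb f u C.R0 (19 / 100 * C.m)},
      ‖D (pl n (C.ctr u n) ξ)‖ₑ ^ 2 ≤ ENNReal.ofReal (C.dl ^ 2 * C.s ^ 2)

/-- The affine maps of two neighbouring tiles are close. -/
def Rl (f : Rn 3 → Rn 3) (u u' : I3 × I3) : Prop :=
  ‖f (C.ctr u') - C.aff0 f u (C.ctr u')‖ ≤ C.τ / C.t0 * ‖C.ctr u' - C.ctr u‖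

/-- Selected tiles. -/
structure Gs {Ω : Set (Rn 3)} (K : Kx Ω) (f : Rn 3 → Rn 3) (D : Rn 3 → Rn 3 →L[ℝ] Rn 3)
    (v : Rn 3 → ℝ≥0∞) (u : I3 × I3) : Prop where
  adm : u ∈ C.Adm
  ne : C.A ≠ 0
  g1 : C.I.card = 1 → C.Gd K f u
  mx : 2 ≤ C.I.card → C.Mx D v u
  ie : C.IE f D u

/-- Control on the edges of a tile and on the rays through its centre. -/
structure G1 {Ω : Set (Rn 3)} (K : Kx Ω) (f : Rn 3 → Rn 3) (u : I3 × I3) : Prop where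
  ed : ∀ a b, K.Edge a b → a ∈ C.Q u (C.t0 / 2) → b ∈ C.Q u (C.t0 / 2) →
    vr (fun x => f x - C.aff0 f u x) a b ≤ ENNReal.ofReal C.τ
  c1 : ∀ x ∈ K.sk 1 ∩ C.Q u (C.t0 / 2), ‖f x - C.aff0 f u x‖ < C.τ
  ray : ∀ i ∈ C.I, ∀ t : ℝ, |t| ≤ C.Rm →
    ‖f (C.ctr u + t • (Pi.single i 1 : Rn 3)) - C.aff0 f u (C.ctr u + t • (Pi.single i 1 : Rn 3))‖ ≤
      C.τ / C.t0 * max C.t0 |t|

/-- Good tiles, after the cut. -/
structure Gd2 {Ω : Set (Rn 3)} (K : Kx Ω) (f : Rn 3 → Rn 3) (u : I3 × I3) : Prop where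
  adm : u ∈ C.Adm
  ne : C.A ≠ 0
  cl : ∀ x ∈ K.sk 2 ∩ C.Q u (C.t0 / 2), x ∈ C.Q u C.R0 ∨ f x ∈ C.Zt f u (1 / 2) →
    ‖f x - C.aff0 f u x‖ ≤ C.lam * C.t0
  vr : 2 ≤ C.I.card → ∀ a b, K.Edge a b → a ∈ C.Q u C.R0 → b ∈ C.Q u C.R0 →
    vr (fun x => f x - C.aff0 f u x) a b ≤ ENNReal.ofReal (C.lam * C.s)

/-- Selection of a set of tiles with a property. -/
def SelQ (Cs : ℝ≥0∞) (Pd : (Rn 3 → Rn 3) → (Rn 3 → Rn 3 →L[ℝ] Rn 3) → (Rn 3 → ℝ≥0∞) →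
    I3 × I3 → Prop) : Prop :=
  ∃ ν : Measure (Rn 3), ν C.qᶜ = 0 ∧ ν univ ≤ Cs * ENNReal.ofReal (C.η ^ 3) ∧
    ∀ (f : Rn 3 → Rn 3) (D : Rn 3 → Rn 3 →L[ℝ] Rn 3) (v : Rn 3 → ℝ≥0∞), ContinuousOn f C.q →
      Measurable D → Measurable v → USeg C.q f D v → ∫⁻ y, v y ∂ν ≠ ⊤ →
      C.unk {u | Pd f D v u} ≤ ∫⁻ y, ‖D y - C.A‖ₑ ^ 2 ∂ν

/-- Selection of the tiles. -/
def SelP2 (Cs : ℝ≥0∞) {Ω : Set (Rn 3)} (K : Kx Ω) : Prop :=
  ∃ ν : Measure (Rn 3), ν C.qᶜ = 0 ∧ ν univ ≤ Cs * ENNReal.ofReal (C.η ^ 3) ∧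
    ∀ (f : Rn 3 → Rn 3) (D : Rn 3 → Rn 3 →L[ℝ] Rn 3) (v : Rn 3 → ℝ≥0∞), ContinuousOn f C.q →
      Measurable D → Measurable v → USeg C.q f D v → ∫⁻ y, v y ∂ν ≠ ⊤ →
      ∃ kp, (∀ u ∈ kp, C.Gs K f D v u) ∧ (C.A ≠ 0 → C.unk kp ≤ ∫⁻ y, ‖D y - C.A‖ₑ ^ (2 : ℝ) ∂ν)

/-- Numerical facts. -/
structure Nm : Prop where
  s0 : 0 < C.s
  t0 : 0 < C.t0
  τ0 : 0 < C.τ
  dl0 : 0 < C.dl
  ep0 : 0 < C.ep ∧ C.ep ≤ 1 / 1000
  σ0 : 0 < C.σ ∧ C.σ ≤ 1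
  eτ : 1000 * (1 + ‖C.A‖) * C.τ = C.lam * C.σ * C.s
  edl : 10 ^ 6 * 2 ^ (3 * C.a) * (1 + ‖C.A‖) ^ 2 * C.dl = C.ep ^ 2
  et : C.t0 = 2 * 2 ^ C.a * C.s
  st : 32 * C.s ≤ C.t0
  τl : 1000 * C.τ ≤ C.lam * C.s
  lm : 10 ^ 6 * (C.lam * C.t0) ≤ C.m
  ls : C.lam * C.s ≤ C.lam * C.t0
  τm : 10 ^ 6 * C.τ ≤ C.m
  τσ : 1000 * C.τ ≤ C.σ * C.s
  dτ : 1000 * (C.dl * C.t0) ≤ C.τ
  dσ : 1000 * C.dl ≤ C.σ
  sm : 6400 * C.s ≤ C.m
  mκ : C.m ≤ C.κ * C.s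
  em : C.σ * (C.κ * C.s) = C.m
  x0 : 0 < C.ρx
  e0 : C.t0 / 2 = C.ρx + C.κ * C.s
  r0 : C.R0 + 99 / 400 * (C.κ * C.s) ≤ C.R1
  r1 : C.R1 + C.κ * C.s / 4 ≤ C.t0 / 2
  r2 : C.t0 / 4 ≤ C.R0
  rk : ∃ k : ℕ, C.R1 = k * (16 * C.s)
  ρ1 : C.t0 ≤ C.ρ'

end Cu

/-- Flat discs with balls, before merging. -/
structure QPre (f : Rn 3 → Rn 3) (Z : Set (Rn 3)) (l : ℝ) (𝒟 : Set Fg) (𝔅 : Finset (Rn 3 × ℝ)) :
    Prop where
  fin : 𝒟.Finite
  ok : ∀ φ ∈ 𝒟, φ.Ok Z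
  dis : ∀ φ ∈ 𝒟, ∀ φ' ∈ 𝒟, φ ≠ φ' → Disjoint φ.d φ'.d
  inb : ∀ φ ∈ 𝒟, ∃ β ∈ 𝔅, f '' φ.J ⊆ closedBall β.1 β.2
  pos : ∀ β ∈ 𝔅, 0 ≤ β.2
  sum : ∑ β ∈ 𝔅, β.2 ≤ l

/-- The discs and the balls of one tile. -/
structure Cu.TL (C : Cu) {Ω : Set (Rn 3)} (K : Kx Ω) (f : Rn 3 → Rn 3) (ρ1 : ℝ) (u : I3 × I3)
    (𝒟 : Set Fg) (𝔅 : Finset (Rn 3 × ℝ)) : Prop where
  fin : 𝒟.Finite
  ok : ∀ φ ∈ 𝒟, φ.Ok (K.sk 2)
  near : ∀ φ ∈ 𝒟, φ.d ⊆ closedBall (C.ctr u) ρ1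
  kind : ∀ φ ∈ 𝒟, φ.d ⊆ C.Q u C.R1 ∨ Disjoint φ.J (C.Q u C.R1)
  disJ : ∀ φ ∈ 𝒟, ∀ φ' ∈ 𝒟, φ ≠ φ' → Disjoint φ.J φ'.J
  inb : ∀ φ ∈ 𝒟, ∃ β ∈ 𝔅, f '' φ.J ⊆ ball β.1 β.2
  pos : ∀ β ∈ 𝔅, 0 < β.2 ∧ closedBall β.1 β.2 ⊆ C.Nb f u C.R1 (18 / 100 * C.m)
  disb : ∀ β ∈ 𝔅, ∀ β' ∈ 𝔅, β ≠ β' → Disjoint (closedBall β.1 β.2) (closedBall β'.1 β'.2)
  sum : ∑ β ∈ 𝔅, β.2 ≤ 3 * C.τ
  own : ∀ x ∈ K.sk 2 ∩ C.Q u C.R1, 2 * C.τ ≤ ‖f x - C.aff0 f u x‖ → ∃ φ ∈ 𝒟, x ∈ φ.d \ φ.J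
  intr : C.I.card = 2 → ∀ x ∈ K.sk 2, x ∉ C.Q u C.R1 → f x ∈ C.Nb f u C.R0 (135 / 1000 * C.m) →
    ∃ φ ∈ 𝒟, x ∈ φ.d \ φ.J

section
variable {ι : Type} {Ω : Set (Rn 3)}

/-- A second, smaller scale of openness. -/
structure Mu1 (C : ι → Cu) (Ω : Set (Rn 3)) (f : Rn 3 → Rn 3) (μ ρ1 μ1 : ℝ) : Prop where
  m1 : ∀ q, ∀ x ∈ (C q).q, ball (f x) μ1 ⊆ f '' (ball x ρ1 ∩ Ω)
  osc : ∀ q, ∀ x ∈ (C q).q, ∀ y ∈ (C q).q, ‖y - x‖ ≤ 2 * ρ1 → ‖f y - f x‖ ≤ μ / 1000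
  num : ∀ q, (1 + ‖(C q).A‖) * (C q).t0 < μ1 ∧ 1000 * ((1 + ‖(C q).A‖) * (C q).t0) ≤ μ ∧
    (C q).t0 ≤ ρ1 ∧ 2 * ρ1 ≤ (C q).ρ'
  μ0 : 0 < μ

/-- The situation before the cut. -/
structure QCf (C : ι → Cu) (P : Pr) (aK : ℝ) (K : Kx Ω) (ch : Set (Rn 3) → Ch)
    (w lam : Set (Rn 3) → ℝ) (f : Rn 3 → Rn 3) (θ : Rn 3 → ℝ) (μ ρ1 μ1 : ℝ)
    (kp : ι → Set (I3 × I3)) : Prop where
  gf : GFit C P aK K ch w lam
  mu : MuIn C Ω f θ μ μ
  m1 : Mu1 C Ω f μ ρ1 μ1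
  adm : ∀ q, ∀ u ∈ kp q, u ∈ (C q).Adm ∧ (C q).A ≠ 0
  g1 : ∀ q, (C q).I.card = 1 → ∀ u ∈ kp q, (C q).Gd K f u
  g2 : ∀ q, 2 ≤ (C q).I.card → ∀ u ∈ kp q, (C q).G1 K f u
  rl : ∀ q, 2 ≤ (C q).I.card → ∀ u ∈ kp q, ∀ u' ∈ kp q,
    ‖(C q).ctr u' - (C q).ctr u‖ < 2 * (C q).ρ' → (C q).Rl f u u'

/-- All the balls. -/
def allB {kp : ι → Set (I3 × I3)} (𝔅 : Pcs kp → Finset (Rn 3 × ℝ)) : Set (Rn 3 × ℝ) :=
  {β | ∃ b, β ∈ 𝔅 b}

/-- The global system of discs and balls. -/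
structure QGS (C : ι → Cu) (K : Kx Ω) (f : Rn 3 → Rn 3) (ρ1 : ℝ) (kp : ι → Set (I3 × I3))
    (𝒟 : Set Fg) (𝔅 : Pcs kp → Finset (Rn 3 × ℝ)) : Prop where
  fam : QFam f (K.sk 2) 𝒟 (allB 𝔅)
  near : ∀ φ ∈ 𝒟, ∃ q, 2 ≤ (C q).I.card ∧ ∃ u ∈ kp q, φ.d ⊆ closedBall ((C q).ctr u) ρ1
  side : ∀ φ ∈ 𝒟, ∀ q, 2 ≤ (C q).I.card → ∀ u ∈ kp q,
    φ.d ⊆ (C q).Q u (C q).R1 ∨ Disjoint φ.d ((C q).Q u (C q).R1)
  own : ∀ q, 2 ≤ (C q).I.card → ∀ u ∈ kp q, ∀ x ∈ K.sk 2 ∩ (C q).Q u (C q).R1, Off 𝒟 x →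
    ‖f x - (C q).aff0 f u x‖ < 2 * (C q).τ
  intr : ∀ q, (C q).I.card = 2 → ∀ u ∈ kp q, ∀ x ∈ K.sk 2, x ∉ (C q).Q u (C q).R1 → Off 𝒟 x →
    f x ∉ (C q).Nb f u (C q).R0 (135 / 1000 * (C q).m)
  bal : ∀ b, ∀ β ∈ 𝔅 b, 2 ≤ (C b.1.1).I.card ∧ closedBall β.1 β.2 ⊆
    (C b.1.1).Nb f b.1.2 (C b.1.1).R1 (18 / 100 * (C b.1.1).m)
  sum : ∀ b, ∑ β ∈ 𝔅 b, β.2 ≤ 3 * (C b.1.1).τ

/-- Three step bound on the segments in `Z`. -/
def Thr (c : ℝ) (Z : Set (Rn 3)) (f f' : Rn 3 → Rn 3) : Prop :=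
  ∀ a b, segment ℝ a b ⊆ Z → ∃ s s' : ℝ, 0 ≤ s ∧ s ≤ s' ∧ s' ≤ 1 ∧ ‖f' b - f' a‖ ≤
    c * (‖f (seg a b s) - f a‖ + ‖f (seg a b s') - f (seg a b s)‖ + ‖f b - f (seg a b s')‖)

/-- The modification of the target. -/
structure Lam (C : ι → Cu) (K : Kx Ω) (f : Rn 3 → Rn 3) (θ : Rn 3 → ℝ) (μ : ℝ)
    (kp : ι → Set (I3 × I3)) (Λ : Rn 3 → Rn 3) : Prop where
  inj : Injective Λ
  lip : ∃ L, LipschitzWith L Λ
  img : Λ '' (f '' Ω) = f '' Ω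
  mv : ∀ z ∈ f '' Ω, ‖Λ z - z‖ ≤ θ z
  fix : ∀ x ∈ Ω, (∀ q, 2 ≤ (C q).I.card → x ∉ ball (C q).o (C q).η) → Λ (f x) = f x
  thr : Thr (4 / 3) (K.sk 2) f (Λ ∘ f)
  mu : MuIn C Ω (Λ ∘ f) θ (μ / 2) μ
  gd : ∀ q, ∀ u ∈ kp q, (C q).Gd2 K (Λ ∘ f) u
  sep : SepOut C Ω (Λ ∘ f) θ μ kp

/-- The correction of the target and the pieces. -/
structure PrepOut2 (C : ι → Cu) (K : Kx Ω) (f : Rn 3 → Rn 3) (θ : Rn 3 → ℝ)
    (Cf : (Rn 3 ≃L[ℝ] Rn 3) → ℝ) (kp : ι → Set (I3 × I3)) (Ξ : Rn 3 → Rn 3)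
    (y : Pcs kp → Rn 3) : Prop where
  inj : Injective Ξ
  lip : ∃ L, LipschitzWith L Ξ
  dbl : ∀ a b, segment ℝ a b ⊆ K.sk 2 → ∀ γ : ℝ → ℝ≥0∞,
    (∀ s s', 0 ≤ s → s ≤ s' → s' ≤ 1 →
      ‖f (seg a b s') - f (seg a b s)‖ₑ ≤ ∫⁻ x in Icc s s', γ x) →
    ∀ s s', 0 ≤ s → s ≤ s' → s' ≤ 1 →
      ‖Ξ (f (seg a b s')) - Ξ (f (seg a b s))‖ₑ ≤ 2 * ∫⁻ x in Icc s s', γ x
  img : Ξ '' (f '' Ω) = f '' Ω
  mv : ∀ z ∈ f '' Ω, ‖Ξ z - z‖ ≤ 3 * θ z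
  pc : PcIn (f '' Ω) θ Cf (pcs C kp y)
  box : ∀ b, 2 ≤ (C b.1.1).I.card → BoxIn K (Ξ ∘ f) (pcs C kp y b) (C b.1.1).s (C b.1.1).r
    (C b.1.1).σ ((C b.1.1).g * (C b.1.1).l / (C b.1.1).cf)
  chd : ∀ b, (C b.1.1).I.card = 1 → ∃ k, ∀ x ∈ (C b.1.1).Q b.1.2 (C b.1.1).ρx,
    Ξ (f x) = (C b.1.1).L (f x) + k ∧
      ‖Ξ (f x) - (pcs C kp y b).aff x‖ ≤ (C b.1.1).g * (C b.1.1).l / (C b.1.1).cf / 2
  zone : ∀ b, ∀ x ∈ K.sk 2, (pcs C kp y b).Nr ((C b.1.1).cf * (C b.1.1).l) (Ξ (f x)) →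
    x ∈ (C b.1.1).zone b.1.2

end

/-- The theorem on the skeleton, for maps which send the skeleton to a null set. -/
def SurfN (p C1 g : ℝ) (Cf Cg : (Rn 3 ≃L[ℝ] Rn 3) → ℝ) : Prop :=
  ∀ (Ω : Set (Rn 3)) (K : Kx Ω) (f : Rn 3 → Rn 3) (ι : Type) [Finite ι] (d : SD ι) (e : ℝ≥0∞),
    e ≠ 0 → SIn p C1 g Cf K f d → volume (f '' K.sk 2) = 0 → ∃ G, SOut p C1 g Cg K f d e G

end BEp
end
end

-- merged part: Pool.Agent.Work.MP_f0515e_an.P2.QBas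
section
/-! Coordinate planes and flat discs. `ball_nest`: `Ball.side`, `Ball.mono`, `Ball.conn_bd`, unbounded complement (`Ball.conn_out`).
`Fg.Ok.normal`: a point of `φ'.d` is a limit of planar interior points (`Ball.closure_in`), near which the coordinate `φ.n` is free when the normals differ.
`Fg.Ok.miss`: Lebesgue number of the compact set `φ.d`. `maxi`: elements with `d` maximal for inclusion in a finite family. -/

open Set Metric Filter Topology Function BEv MeasureTheory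
open scoped NNReal ENNReal

noncomputable section
namespace BEp

theorem pl_n (n : Fin 3) (h : ℝ) (ξ : Rn 2) : pl n h ξ n = h :=
  Fin.insertNth_apply_same (α := fun _ => ℝ) n h ξ

theorem pl_a (n : Fin 3) (h : ℝ) (ξ : Rn 2) (a : Fin 2) : pl n h ξ (n.succAbove a) = ξ a :=
  Fin.insertNth_apply_succAbove (α := fun _ => ℝ) n h ξ a

theorem QBas_ext (n : Fin 3) {x y : Rn 3} (h1 : x n = y n)
    (h2 : ∀ a, x (n.succAbove a) = y (n.succAbove a)) : x = y :=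
  funext fun i => n.succAboveCases h1 h2 i

theorem pq_pl (n : Fin 3) (h : ℝ) (ξ : Rn 2) : pq n (pl n h ξ) = ξ :=
  funext (pl_a n h ξ)

theorem pl_pq (n : Fin 3) (x : Rn 3) : pl n (x n) (pq n x) = x :=
  QBas_ext n (pl_n _ _ _) (pl_a _ _ _)

theorem pl_norm (n : Fin 3) (h h' : ℝ) (ξ ξ' : Rn 2) :
    ‖pl n h ξ - pl n h' ξ'‖ = max |h - h'| ‖ξ - ξ'‖ := by
  rw [← dist_eq_norm, ← dist_eq_norm, ← Real.dist_eq]
  exact Fin.dist_insertNth_insertNth (α := fun _ => ℝ) n h h' ξ ξ'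

theorem pl_upd (n : Fin 3) (h : ℝ) (ξ : Rn 2) (a : Fin 2) (t : ℝ) :
    pl n h (update ξ a t) = update (pl n h ξ) (n.succAbove a) t := by
  refine QBas_ext n ?_ fun b => ?_
  · rw [update_of_ne (n.succAbove_ne a).symm, pl_n, pl_n]
  · rw [pl_a, update_apply, update_apply, pl_a]
    exact if_congr Fin.succAbove_right_inj.symm rfl rfl

theorem pl_add (n : Fin 3) (h t : ℝ) (ξ : Rn 2) :
    pl n h ξ + t • (Pi.single n 1 : Rn 3) = pl n (h + t) ξ := by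
  refine QBas_ext n ?_ fun b => ?_
  · simp [pl_n]
  · simp [pl_a]

theorem pl_tp (n : Fin 3) (h : ℝ) : TP (pl n h) ∧ Injective (pl n h) ∧ TP (pq n) := by
  refine ⟨TP.pi fun i => n.succAboveCases ?_ (fun a => ?_) i, LeftInverse.injective (pq_pl n h),
    TP.pi fun a => TP.id'.apply _⟩
  · simpa only [pl_n] using TP.const h
  · simpa only [pl_a] using TP.id'.apply a

theorem QBas_mem {n : Fin 3} {h : ℝ} {B : Set (Rn 2)} {y : Rn 3} :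
    y ∈ pl n h '' B ↔ y n = h ∧ pq n y ∈ B :=
  ⟨fun ⟨ξ, k, e⟩ => e ▸ ⟨pl_n _ _ _, (pq_pl n h ξ).symm ▸ k⟩, fun k => ⟨_, k.2, k.1 ▸ pl_pq n y⟩⟩

theorem QBas_conn {n : ℕ} {B S : Set (Rn n)} (h : Ball B S) : IsConnected B :=
  h.closure_in ▸ IsConnected.closure ⟨h.ne, h.conn_in⟩

theorem ball_nest {n : ℕ} (hn : 2 ≤ n) {B S B' S' : Set (Rn n)} (h : Ball B S) (h' : Ball B' S')
    (hd : Disjoint S S') : Disjoint B B' ∨ B ⊆ B' \ S' ∨ B' ⊆ B \ S := by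
  rcases h.side (h'.conn_bd hn).2 hd.symm with k | k
  · have h1 := h.mono hn h' (k.trans sdiff_subset)
    rcases h'.side (h.conn_bd hn).2 hd with l | l
    · obtain rfl := h1.antisymm (h'.mono hn h (l.trans sdiff_subset))
      obtain rfl := h.frontier_eq.symm.trans h'.frontier_eq
      exact absurd (disjoint_self.1 hd) (h.conn_bd hn).1.ne_empty
    · exact Or.inr (Or.inr (subset_sdiff.2 ⟨h1, l.symm⟩))
  · exact (h'.side (QBas_conn h).2 k.symm).elim (fun l => Or.inr (Or.inl l)) Or.inl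

theorem maxi {α X : Type} {𝒟 : Set α} (hf : 𝒟.Finite) (d J : α → Set X)
    (hJ : ∀ a ∈ 𝒟, (J a).Nonempty ∧ J a ⊆ d a)
    (h : ∀ a ∈ 𝒟, ∀ b ∈ 𝒟, a ≠ b → Disjoint (d a) (d b) ∨ d a ⊆ d b \ J b ∨ d b ⊆ d a \ J a) :
    ∃ 𝒟' ⊆ 𝒟, (∀ a ∈ 𝒟', ∀ b ∈ 𝒟', a ≠ b → Disjoint (d a) (d b)) ∧
      (∀ a ∈ 𝒟, ∃ b ∈ 𝒟', d a \ J a ⊆ d b \ J b) ∧ ∀ a ∈ 𝒟', ∀ b ∈ 𝒟, ¬ d a ⊆ d b \ J b := by
  refine ⟨{a ∈ 𝒟 | ∀ b ∈ 𝒟, ¬ d a ⊆ d b \ J b}, sep_subset _ _, fun a ha b hb ne => ?_,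
    fun a ha => ?_, fun a ha => ha.2⟩
  · exact ((h a ha.1 b hb.1 ne).resolve_right fun k => k.elim (ha.2 b hb.1) (hb.2 a ha.1))
  · obtain ⟨b, hb, hm⟩ := (hf.subset (sep_subset 𝒟 fun b => d a \ J a ⊆ d b \ J b)).exists_maximalFor
      d _ ⟨a, ha, subset_rfl⟩
    refine ⟨b, ⟨hb.1, fun c hc k => ?_⟩, hb.2⟩
    obtain ⟨x, hx⟩ := (hJ c hc).1
    exact (k (hm ⟨hc, (hb.2.trans sdiff_subset).trans k⟩ (k.trans sdiff_subset)
      ((hJ c hc).2 hx))).2 hx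

section
variable {φ φ' : Fg} {Z : Set (Rn 3)}

theorem Fg.Ok.top (h : φ.Ok Z) : IsCompact φ.d ∧ IsCompact φ.J ∧ IsConnected φ.d ∧
    IsConnected φ.J ∧ φ.J ⊆ φ.d ∧ ∀ W, Convex ℝ W → φ.J ⊆ W → φ.d ⊆ W := by
  obtain ⟨c, B, S, hB, e1, e2⟩ := h.fd
  have hc := (pl_tp φ.n c).1.continuous
  rw [e1, e2]
  refine ⟨hB.poly.1.image hc, hB.poly'.1.image hc, (QBas_conn hB).image _ hc.continuousOn,
    (hB.conn_bd le_rfl).image _ hc.continuousOn, image_mono hB.sub, fun W hW k => ?_⟩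
  rw [image_subset_iff] at k ⊢
  refine hB.sub_convex one_le_two (fun x hx y hy a b ha hb hab => ?_) k
  have : pl φ.n c (a • x + b • y) = a • pl φ.n c x + b • pl φ.n c y := by
    refine QBas_ext φ.n ?_ fun i => ?_
    · simp only [pl_n, Pi.add_apply, Pi.smul_apply, smul_eq_mul, ← add_mul, hab, one_mul]
    · simp only [pl_a, Pi.add_apply, Pi.smul_apply]
  rw [mem_preimage, this]
  exact hW hx hy ha hb hab

theorem Fg.Ok.opn (h : φ.Ok Z) : ∀ x ∈ φ.d \ φ.J, ∀ᶠ y in 𝓝 x, y ∈ Z → y ∈ φ.d \ φ.J := by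
  obtain ⟨c, B, S, hB, e1, e2⟩ := h.fd
  intro x hx
  have h1 := h.loc x hx.1
  rw [e1, e2, ← image_sdiff (pl_tp φ.n c).2.1, ← hB.interior_eq] at hx ⊢
  rw [QBas_mem] at hx
  filter_upwards [h1, (pl_tp φ.n c).2.2.continuous.continuousAt.eventually_mem
    (isOpen_interior.mem_nhds hx.2)] with y k1 k2 hy
  exact QBas_mem.2 ⟨(k1 hy).trans hx.1, k2⟩

theorem Fg.Ok.miss (h : φ.Ok Z) : ∃ ε : ℝ, 0 < ε ∧ ∀ x ∈ φ.d, ∀ t : ℝ, t ≠ 0 → |t| ≤ ε →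
    x + t • (Pi.single φ.n 1 : Rn 3) ∉ Z := by
  obtain ⟨c, B, S, hB, e1, -⟩ := h.fd
  have hc : ∀ x ∈ φ.d, x φ.n = c := fun x hx => (QBas_mem.1 (e1 ▸ hx)).1
  obtain ⟨ε, h0, hε⟩ := h.top.1.exists_cthickening_subset_open
    (t := interior {y | y ∈ Z → y φ.n = c}) isOpen_interior
    fun x hx => mem_interior_iff_mem_nhds.2 (hc x hx ▸ h.loc x hx)
  refine ⟨ε, h0, fun x hx t h1 h2 k => h1 ?_⟩
  have := interior_subset (hε (mem_cthickening_of_dist_le (x + t • (Pi.single φ.n 1 : Rn 3)) x ε _ hx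
    (by simpa [dist_eq_norm, norm_smul, Pi.norm_single] using h2))) k
  simpa [hc x hx] using this

theorem Fg.Ok.side (h : φ.Ok Z) {L : Set (Rn 3)} (hL : IsPreconnected L) (hs : L ⊆ Z)
    (hd : Disjoint L φ.J) : L ⊆ φ.d \ φ.J ∨ Disjoint L φ.d := by
  have := isPreconnected_iff_subset_of_disjoint.1 hL (interior {y | y ∈ Z → y ∈ φ.d \ φ.J}) φ.dᶜ
    isOpen_interior h.top.1.isClosed.isOpen_compl (fun x hx => by
      by_cases k : x ∈ φ.d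
      · exact Or.inl (mem_interior_iff_mem_nhds.2 (h.opn x ⟨k, disjoint_left.1 hd hx⟩))
      · exact Or.inr k)
    (eq_empty_of_forall_notMem fun x hx => hx.2.2 (interior_subset hx.2.1 (hs hx.1)).1)
  exact this.imp (fun k x hx => (k.trans interior_subset) hx (hs hx))
    subset_compl_iff_disjoint_right.1

theorem Fg.Ok.inter (h : φ.Ok Z) {S : Set (Rn 3)} (hs : φ.d ⊆ S) : φ.Ok (Z ∩ S) :=
  ⟨h.fd, subset_inter h.sub hs, fun x hx => (h.loc x hx).mono fun _ k hy => k hy.1⟩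

theorem Fg.Ok.normal (h : φ.Ok Z) (h' : φ'.Ok Z) (hn : ¬ Disjoint φ.d φ'.d) : φ.n = φ'.n := by
  by_contra ne
  obtain ⟨x, hx, hx'⟩ := not_disjoint_iff.1 hn
  obtain ⟨a, ha⟩ := Fin.exists_succAbove_eq ne
  obtain ⟨c, B, S, hB, e1, -⟩ := h'.fd
  have hc := (pl_tp φ'.n c).1.continuous
  obtain ⟨ξ, hξ, rfl⟩ := e1 ▸ hx'
  have h1 : ∀ᶠ ζ in 𝓝 ξ, ζ ∈ B → ζ a = ξ a := by
    filter_upwards [hc.continuousAt.eventually (h.loc _ hx)] with ζ k hζ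
    have := k (h'.sub (e1 ▸ mem_image_of_mem _ hζ))
    rwa [← ha, pl_a, pl_a] at this
  rw [← hB.closure_in, ← hB.interior_eq] at hξ
  obtain ⟨ζ, k1, k2⟩ := mem_closure_iff_nhds.1 hξ _ h1.eventually_nhds
  have h2 : ∀ᶠ η in 𝓝 ζ, η a = ξ a := by
    filter_upwards [k1, mem_interior_iff_mem_nhds.1 k2] with η l1 l2 using l1 l2
  have h3 : Tendsto (update ζ a) (𝓝 (ζ a)) (𝓝 ζ) := by
    have : ContinuousAt (update ζ a) (ζ a) := (continuous_const.update a continuous_id).continuousAt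
    rwa [ContinuousAt, update_eq_self] at this
  have h4 : ∀ᶠ t in 𝓝[≠] (ζ a), t = ξ a := by
    simpa using (h3.eventually h2).filter_mono nhdsWithin_le_nhds
  obtain ⟨t, l1, l2⟩ := (h4.and self_mem_nhdsWithin).exists
  exact l2 (l1.trans h2.self_of_nhds.symm)

theorem Fg.Ok.nest (h : φ.Ok Z) (h' : φ'.Ok Z) (hd : Disjoint φ.J φ'.J) :
    Disjoint φ.d φ'.d ∨ φ.d ⊆ φ'.d \ φ'.J ∨ φ'.d ⊆ φ.d \ φ.J := by
  by_cases hn : Disjoint φ.d φ'.d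
  · exact Or.inl hn
  have e := h.normal h' hn
  obtain ⟨x, hx, hx'⟩ := not_disjoint_iff.1 hn
  obtain ⟨c, B, S, hB, e1, e2⟩ := h.fd
  obtain ⟨c', B', S', hB', e1', e2'⟩ := h'.fd
  rw [← e] at e1' e2'
  obtain rfl : c = c' := (QBas_mem.1 (e1 ▸ hx)).1.symm.trans (QBas_mem.1 (e1' ▸ hx')).1
  have hi := (pl_tp φ.n c).2.1
  rw [e2, e2', disjoint_image_iff hi] at hd
  rw [e1, e2, e1', e2', disjoint_image_iff hi, ← image_sdiff hi, ← image_sdiff hi,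
    image_subset_image_iff hi, image_subset_image_iff hi]
  exact ball_nest le_rfl hB hB' hd

end

end BEp
end
end

-- merged part: Pool.Agent.Work.MP_f0515e_an.P2.QTrk
section
/-! Detours. First a point of `L` off all open discs (`Fg.Ok.opn`: disjoint relatively open sets cannot cover the connected set `L` unless one of them does). `QTrk_det`: induction on the finite family; if `L` meets `J`, then `(L \ (d \ J)) ∪ J` is closed and connected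
(if closed sets `a ⊇ J` and `b` separate it, then `a ∪ d` and `b` separate `L`); otherwise `L` misses `d` (`Fg.Ok.side`). An added circle contains a point of `L` off the open discs, so its ball is not `β`. A point of `L` in an open disc has its circle in `T`; use `fing`. -/

open Set Metric Filter Topology Function BEv MeasureTheory
open scoped NNReal ENNReal

noncomputable section
namespace BEp

theorem QTrk_step {φ : Fg} {Z L : Set (Rn 3)} (h : φ.Ok Z) (hs : L ⊆ Z) (hc : IsClosed L)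
    (hp : IsPreconnected L) (hm : (L ∩ φ.J).Nonempty) :
    IsClosed ((L \ (φ.d \ φ.J)) ∪ φ.J) ∧ IsPreconnected ((L \ (φ.d \ φ.J)) ∪ φ.J) := by
  obtain ⟨cd, cJ, -, kJ, Jd, -⟩ := h.top
  have c1 : IsClosed (L \ (φ.d \ φ.J)) := by
    rw [← isOpen_compl_iff, isOpen_iff_mem_nhds]
    intro x hx
    by_cases hL : x ∈ L
    · have hx' : x ∈ φ.d \ φ.J := by
        by_contra c
        exact hx ⟨hL, c⟩
      filter_upwards [h.opn x hx'] with y hy c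
      exact c.2 (hy (hs c.1))
    · filter_upwards [hc.isOpen_compl.mem_nhds hL] with y hy c
      exact hy c.1
  refine ⟨c1.union cJ.isClosed, ?_⟩
  have key : ∀ a b : Set (Rn 3), IsClosed a → IsClosed b → (L \ (φ.d \ φ.J)) ∪ φ.J ⊆ a ∪ b →
      φ.J ⊆ a → (((L \ (φ.d \ φ.J)) ∪ φ.J) ∩ b).Nonempty →
      (((L \ (φ.d \ φ.J)) ∪ φ.J) ∩ (a ∩ b)).Nonempty := by
    rintro a b ha hb hab hJ ⟨y, y1 | y1, y2⟩
    · obtain ⟨x, x1, x2, x3, x4⟩ := isPreconnected_closed_iff.1 hp (a ∪ φ.d) (b ∩ (L \ (φ.d \ φ.J)))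
        (ha.union cd.isClosed) (hb.inter c1)
        (fun x hx => by
          by_cases c : x ∈ φ.d \ φ.J
          · exact Or.inl (Or.inr c.1)
          · rcases hab (Or.inl ⟨hx, c⟩) with e | e
            · exact Or.inl (Or.inl e)
            · exact Or.inr ⟨e, hx, c⟩)
        (hm.mono (inter_subset_inter_right _ fun x hx => Or.inl (hJ hx))) ⟨y, y1.1, y2, y1⟩
      refine ⟨x, Or.inl x4, ?_, x3⟩
      rcases x2 with e | e
      · exact e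
      · by_contra c
        exact x4.2 ⟨e, fun d => c (hJ d)⟩
    · exact ⟨y, Or.inr y1, hJ y1, y2⟩
  refine isPreconnected_closed_iff.2 fun a b ha hb hab na nb => ?_
  by_cases c1 : φ.J ⊆ a
  · exact key a b ha hb hab c1 nb
  by_cases c2 : φ.J ⊆ b
  · rw [inter_comm a b]
    exact key b a hb ha (by rwa [union_comm b a]) c2 na
  obtain ⟨x, x1, x2⟩ := not_subset.1 c1
  obtain ⟨y, y1, y2⟩ := not_subset.1 c2
  obtain ⟨z, z1, z2⟩ := isPreconnected_closed_iff.1 kJ.isPreconnected a b ha hb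
    (subset_union_right.trans hab) ⟨y, y1, (hab (Or.inr y1)).resolve_right y2⟩
    ⟨x, x1, (hab (Or.inr x1)).resolve_left x2⟩
  exact ⟨z, Or.inr z1, z2⟩

theorem QTrk_det {Z : Set (Rn 3)} {𝒟 : Set Fg} (hf : 𝒟.Finite) :
    (∀ φ ∈ 𝒟, φ.Ok Z) → (∀ φ ∈ 𝒟, ∀ φ' ∈ 𝒟, φ ≠ φ' → Disjoint φ.d φ'.d) →
    ∀ L : Set (Rn 3), L ⊆ Z → IsClosed L → IsPreconnected L → (∀ φ ∈ 𝒟, ¬ L ⊆ φ.d) →
      ∃ T, T ⊆ Z ∧ IsPreconnected T ∧ (∀ x ∈ L, Off 𝒟 x → x ∈ T) ∧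
        (∀ φ ∈ 𝒟, (L ∩ φ.d).Nonempty → φ.J ⊆ T) ∧
        ∀ x ∈ T, (x ∈ L ∧ Off 𝒟 x) ∨ ∃ φ ∈ 𝒟, x ∈ φ.J ∧ (L ∩ φ.J).Nonempty := by
  induction 𝒟, hf using Set.Finite.induction_on with
  | empty =>
    intro _ _ L hs _ hp _
    exact ⟨L, hs, hp, fun x hx _ => hx, by simp, fun x hx => Or.inl ⟨hx, by simp [Off]⟩⟩
  | @insert φ 𝒟 hφ _ ih =>
    intro ok dis L hs hc hp h0
    have ih := ih (fun ψ k => ok ψ (mem_insert_of_mem _ k))
      fun ψ k ψ' k' => dis ψ (mem_insert_of_mem _ k) ψ' (mem_insert_of_mem _ k')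
    have o := ok φ (mem_insert _ _)
    obtain ⟨-, -, -, kJ, Jd, -⟩ := o.top
    have dj : ∀ ψ ∈ 𝒟, ∀ x ∈ φ.d, x ∉ ψ.d := fun ψ k x hx =>
      disjoint_left.1 (dis φ (mem_insert _ _) ψ (mem_insert_of_mem _ k) fun e => hφ (e ▸ k)) hx
    have Jd' : ∀ ψ ∈ 𝒟, ψ.J ⊆ ψ.d := fun ψ k => (ok ψ (mem_insert_of_mem _ k)).top.2.2.2.2.1
    by_cases hm : (L ∩ φ.J).Nonempty
    · obtain ⟨c1, c2⟩ := QTrk_step o hs hc hp hm
      obtain ⟨T, t1, t2, t3, t4, t5⟩ := ih _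
        (union_subset (sdiff_subset.trans hs) (Jd.trans o.sub)) c1 c2 fun ψ k e => by
          obtain ⟨y, hy⟩ := kJ.nonempty
          exact dj ψ k y (Jd hy) (e (Or.inr hy))
      refine ⟨T, t1, t2, fun x hx ho => t3 x (Or.inl ⟨hx, ho φ (mem_insert _ _)⟩)
        fun ψ k => ho ψ (mem_insert_of_mem _ k), ?_, fun x hx => ?_⟩
      · rintro ψ (rfl | k) ⟨y, y1, y2⟩
        · exact fun x hx => t3 x (Or.inr hx) fun ψ' k c => dj ψ' k x (Jd hx) c.1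
        · exact t4 ψ k ⟨y, Or.inl ⟨y1, fun c => dj ψ k y c.1 y2⟩, y2⟩
      · rcases t5 x hx with ⟨a | a, b⟩ | ⟨ψ, k, a, y, y1 | y1, y2⟩
        · refine Or.inl ⟨a.1, ?_⟩
          rintro ψ (rfl | k)
          · exact a.2
          · exact b ψ k
        · exact Or.inr ⟨φ, mem_insert _ _, a, hm⟩
        · exact Or.inr ⟨ψ, mem_insert_of_mem _ k, a, y, y1.1, y2⟩
        · exact absurd (Jd' ψ k y2) (dj ψ k y (Jd y1))
    · have hd : Disjoint L φ.d :=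
        (o.side hp hs (disjoint_iff_inter_eq_empty.2 (not_nonempty_iff_eq_empty.1 hm))).resolve_left
          fun c => h0 φ (mem_insert _ _) (c.trans sdiff_subset)
      obtain ⟨T, t1, t2, t3, t4, t5⟩ := ih L hs hc hp fun ψ k => h0 ψ (mem_insert_of_mem _ k)
      refine ⟨T, t1, t2, fun x hx ho => t3 x hx fun ψ k => ho ψ (mem_insert_of_mem _ k), ?_,
        fun x hx => ?_⟩
      · rintro ψ (rfl | k) ⟨y, y1, y2⟩
        · exact absurd y2 (disjoint_left.1 hd y1)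
        · exact t4 ψ k ⟨y, y1, y2⟩
      · rcases t5 x hx with ⟨a, b⟩ | ⟨ψ, k, a, b⟩
        · refine Or.inl ⟨a, ?_⟩
          rintro ψ (rfl | k)
          · exact fun c => disjoint_left.1 hd a c.1
          · exact b ψ k
        · exact Or.inr ⟨ψ, mem_insert_of_mem _ k, a, b⟩

theorem trk_det {f Φ : Rn 3 → Rn 3} {Z L : Set (Rn 3)} {𝒟 : Set Fg} {𝔅 : Set (Rn 3 × ℝ)} {ρ : ℝ}
    (hF : QFam f Z 𝒟 𝔅) (hC : CtOut f Z 𝒟 𝔅 ρ Φ) {β : Rn 3 × ℝ} (hβ : β ∈ 𝔅) (hs : L ⊆ Z)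
    (hc : IsClosed L) (hp : IsPreconnected L) (h0 : ∀ φ ∈ 𝒟, ¬ L ⊆ φ.d)
    (h1 : ∀ z ∈ L, Off 𝒟 z → f z ∉ ball β.1 β.2)
    (h2 : ∃ p ∈ L, ∀ p', (p' = p ∨ ∃ φ ∈ 𝒟, p ∈ φ.d ∧ p' ∈ φ.d) → 12 * ρ ≤ ‖f p' - β.1‖) :
    ∀ z ∈ L, Φ (f z) ∉ ball β.1 β.2 := by
  obtain ⟨T, t1, t2, t3, t4, t5⟩ := QTrk_det hF.fin hF.ok hF.dis L hs hc hp h0
  have db : ∀ β' ∈ 𝔅, β' ≠ β → ∀ y ∈ ball β'.1 β'.2, y ∉ ball β.1 β.2 := fun β' k ne y a b =>
    disjoint_left.1 (hF.disb β' k β hβ ne) (ball_subset_closedBall a) (ball_subset_closedBall b)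
  have off : ∀ x, ¬ Off 𝒟 x → ∃ φ ∈ 𝒟, x ∈ φ.d \ φ.J := fun x hx => by
    by_contra c
    exact hx fun φ k d => c ⟨φ, k, d⟩
  have tr := hC.trk β hβ T t1 t2 (fun x hx => by
    rcases t5 x hx with ⟨a, b⟩ | ⟨φ, k, a, y, y1, y2⟩
    · exact h1 x a b
    · obtain ⟨β', k', e⟩ := hF.inb φ k
      have oy : Off 𝒟 y := fun ψ kψ c => by
        by_cases d : φ = ψ
        · exact c.2 (d ▸ y2)
        · exact disjoint_left.1 (hF.dis φ k ψ kψ d) ((hF.ok φ k).top.2.2.2.2.1 y2) c.1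
      exact db β' k' (fun d => h1 y y1 oy (d ▸ e (mem_image_of_mem f y2))) _
        (e (mem_image_of_mem f a))) (by
    obtain ⟨p, p1, p2⟩ := h2
    by_cases c : Off 𝒟 p
    · exact ⟨p, t3 p p1 c, p2 p (Or.inl rfl)⟩
    · obtain ⟨φ, k, d⟩ := off p c
      obtain ⟨-, -, -, kJ, Jd, -⟩ := (hF.ok φ k).top
      obtain ⟨y, hy⟩ := kJ.nonempty
      exact ⟨y, t4 φ k ⟨p, p1, d.1⟩ hy, p2 y (Or.inr ⟨φ, k, d.1, Jd hy⟩)⟩)
  intro z hz
  by_cases c : Off 𝒟 z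
  · exact tr z (t3 z hz c)
  · obtain ⟨φ, k, d⟩ := off z c
    obtain ⟨-, -, -, kJ, Jd, -⟩ := (hF.ok φ k).top
    obtain ⟨y, hy⟩ := kJ.nonempty
    obtain ⟨β', k', e⟩ := hC.fing φ k
    exact db β' k' (fun d' => tr y (t4 φ k ⟨z, hz, d.1⟩ hy) (d' ▸ e y (Jd hy))) _ (e z d.1)

theorem QFam.inter {f : Rn 3 → Rn 3} {Z S : Set (Rn 3)} {𝒟 : Set Fg} {𝔅 : Set (Rn 3 × ℝ)}
    (h : QFam f Z 𝒟 𝔅) (hs : ∀ φ ∈ 𝒟, φ.d ⊆ S) : QFam f (Z ∩ S) 𝒟 𝔅 :=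
  ⟨h.fin, h.finb, fun φ k => (h.ok φ k).inter (hs φ k), h.dis, h.inb, h.pos, h.disb⟩

end BEp
end
end

-- merged part: Pool.Agent.Work.MP_f0515e_an.P2.QL2
section
/-! `lev_ex`: the integral over `τ` of the left side is at most the sum (`exists_notMem_null_le_laverage` or its real version).
`merge`: induction on the number of balls; two balls which meet are replaced by one ball (centre on the segment, radius `(r1 + r2 + ‖c1 - c2‖) / 2`, or the larger ball if it contains the other one). `disc_count`: volume. -/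

open Set Metric Filter Topology Function BEv MeasureTheory
open scoped NNReal ENNReal

noncomputable section
namespace BEp

theorem lev_ex {ι : Type} (s : Finset ι) (α β l : ι → ℝ) (hl : ∀ i ∈ s, 0 ≤ l i)
    (hab : ∀ i ∈ s, α i ≤ β i) {a b : ℝ} (h : a < b) {N : Set ℝ} (hN : N.Finite) :
    ∃ τ ∈ Ioo a b, τ ∉ N ∧ ∑ i ∈ s.filter (fun i => α i ≤ τ ∧ τ ≤ β i), l i ≤
      (∑ i ∈ s, (β i - α i) * l i) / (b - a) := by
  have hi : ∀ i ∈ s, Integrable ((Icc (α i) (β i)).indicator fun _ => l i)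
      (volume.restrict (Ioo a b)) := fun i _ => (integrable_const _).indicator measurableSet_Icc
  obtain ⟨τ, h1, h2⟩ := exists_notMem_null_le_average (μ := volume.restrict (Ioo a b))
    (N := N ∪ (Ioo a b)ᶜ) (f := fun τ => ∑ i ∈ s, (Icc (α i) (β i)).indicator (fun _ => l i) τ)
    (by simp [h]) (integrable_finsetSum s hi) (measure_union_null
      (Measure.restrict_le_self.absolutelyContinuous (hN.measure_zero _))
      (by rw [Measure.restrict_apply measurableSet_Ioo.compl, compl_inter_self, measure_empty]))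
  rw [mem_union, not_or, mem_compl_iff, not_not] at h1
  refine ⟨τ, h1.2, h1.1, ?_⟩
  rw [Finset.sum_filter]
  refine (le_of_eq (Finset.sum_congr rfl fun i _ => ?_)).trans (h2.trans ?_)
  · simp only [indicator_apply, mem_Icc]
  rw [average_eq, integral_finsetSum s hi, measureReal_restrict_apply_univ,
    Real.volume_real_Ioo_of_le h.le, smul_eq_mul, div_eq_inv_mul]
  refine mul_le_mul_of_nonneg_left (Finset.sum_le_sum fun i hi => ?_) (inv_nonneg.2 (by linarith))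
  rw [integral_indicator_const _ measurableSet_Icc, smul_eq_mul,
    ← Real.volume_real_Icc_of_le (hab i hi), measureReal_restrict_apply measurableSet_Icc]
  exact mul_le_mul_of_nonneg_right (measureReal_mono inter_subset_left measure_Icc_lt_top.ne)
    (hl i hi)

theorem QL2_merge (n : ℕ) : ∀ 𝔄 : Finset (Rn 3 × ℝ), 𝔄.card ≤ n → (∀ a ∈ 𝔄, 0 ≤ a.2) →
    ∃ 𝔅 : Finset (Rn 3 × ℝ), (∀ a ∈ 𝔄, ∃ b ∈ 𝔅, ‖a.1 - b.1‖ + a.2 ≤ b.2) ∧
      (∀ b ∈ 𝔅, ∃ a ∈ 𝔄, ‖a.1 - b.1‖ + a.2 ≤ b.2) ∧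
      (∀ b ∈ 𝔅, ∀ b' ∈ 𝔅, b ≠ b' → Disjoint (closedBall b.1 b.2) (closedBall b'.1 b'.2)) ∧
      ∑ b ∈ 𝔅, b.2 ≤ ∑ a ∈ 𝔄, a.2 := by
  classical
  have rf : ∀ a : Rn 3 × ℝ, ‖a.1 - a.1‖ + a.2 ≤ a.2 := fun a => by simp
  have tr : ∀ {a b c : Rn 3 × ℝ}, ‖a.1 - b.1‖ + a.2 ≤ b.2 → ‖b.1 - c.1‖ + b.2 ≤ c.2 →
      ‖a.1 - c.1‖ + a.2 ≤ c.2 := fun {a b c} h1 h2 => by
    linarith [norm_sub_le_norm_sub_add_norm_sub a.1 b.1 c.1]
  induction n with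
  | zero =>
    intro 𝔄 h _
    rw [Finset.card_eq_zero.1 (Nat.le_zero.1 h)]
    exact ⟨∅, by simp⟩
  | succ n ih =>
    intro 𝔄 h h0
    by_cases H : ∀ b ∈ 𝔄, ∀ b' ∈ 𝔄, b ≠ b' → Disjoint (closedBall b.1 b.2) (closedBall b'.1 b'.2)
    · exact ⟨𝔄, fun a ha => ⟨a, ha, rf a⟩, fun a ha => ⟨a, ha, rf a⟩, H, le_rfl⟩
    simp only [not_forall, not_disjoint_iff, mem_closedBall_iff_norm] at H
    obtain ⟨p, hp, q, hq, hne, z, z1, z2⟩ := H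
    have hq' : q ∈ 𝔄.erase p := Finset.mem_erase.2 ⟨hne.symm, hq⟩
    obtain ⟨m, m0, m1, m2⟩ : ∃ m : Rn 3 × ℝ, m.2 = p.2 + q.2 ∧ ‖p.1 - m.1‖ + p.2 ≤ m.2 ∧
        ‖q.1 - m.1‖ + q.2 ≤ m.2 := by
      refine ⟨(p.1 + q.1 - z, p.2 + q.2), rfl, ?_, ?_⟩
      · rw [show p.1 - (p.1 + q.1 - z) = z - q.1 by abel]
        linarith
      · rw [show q.1 - (p.1 + q.1 - z) = z - p.1 by abel]
        linarith
    have sub : (𝔄.erase p).erase q ⊆ 𝔄 := (Finset.erase_subset _ _).trans (Finset.erase_subset _ _)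
    have hm : 0 ≤ m.2 := m0 ▸ add_nonneg (h0 p hp) (h0 q hq)
    obtain ⟨𝔅, b1, b2, b3, b4⟩ := ih (insert m ((𝔄.erase p).erase q)) (by
      have := Finset.card_insert_le m ((𝔄.erase p).erase q)
      have := Finset.card_erase_add_one hp
      have := Finset.card_erase_add_one hq'
      omega) fun a ha => (Finset.mem_insert.1 ha).elim (fun e => e ▸ hm) fun e => h0 a (sub e)
    refine ⟨𝔅, fun a ha => ?_, fun b hb => ?_, b3, b4.trans ?_⟩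
    · obtain ⟨b, hb, e⟩ := b1 m (Finset.mem_insert_self _ _)
      by_cases e1 : a = p
      · exact ⟨b, hb, tr (e1 ▸ m1) e⟩
      by_cases e2 : a = q
      · exact ⟨b, hb, tr (e2 ▸ m2) e⟩
      exact b1 a (by simp [e1, e2, ha])
    · obtain ⟨a, ha, e⟩ := b2 b hb
      rcases Finset.mem_insert.1 ha with e' | e'
      · exact ⟨p, hp, tr m1 (e' ▸ e)⟩
      · exact ⟨a, sub e', e⟩
    · rw [← Finset.add_sum_erase _ _ hp, ← Finset.add_sum_erase _ _ hq', ← add_assoc, ← m0]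
      by_cases e : m ∈ (𝔄.erase p).erase q
      · rw [Finset.insert_eq_of_mem e]
        linarith
      · rw [Finset.sum_insert e]

theorem merge_balls {ι : Type} (s : Finset ι) (c : ι → Rn 3) (r : ι → ℝ) (hr : ∀ i ∈ s, 0 ≤ r i) :
    ∃ 𝔅 : Finset (Rn 3 × ℝ), (∀ i ∈ s, ∃ b ∈ 𝔅, ‖c i - b.1‖ + r i ≤ b.2) ∧
      (∀ b ∈ 𝔅, ∃ i ∈ s, ‖c i - b.1‖ + r i ≤ b.2) ∧
      (∀ b ∈ 𝔅, ∀ b' ∈ 𝔅, b ≠ b' → Disjoint (closedBall b.1 b.2) (closedBall b'.1 b'.2)) ∧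
      ∑ b ∈ 𝔅, b.2 ≤ ∑ i ∈ s, r i := by
  classical
  have h0 : ∀ a ∈ s.image fun i => (c i, r i), 0 ≤ a.2 := Finset.forall_mem_image.2 hr
  obtain ⟨𝔅, b1, b2, b3, b4⟩ := QL2_merge _ _ le_rfl h0
  refine ⟨𝔅, fun i hi => b1 _ (Finset.mem_image_of_mem _ hi), fun b hb => ?_, b3,
    b4.trans (Finset.sum_image_le_of_nonneg h0)⟩
  obtain ⟨a, ha, e⟩ := b2 b hb
  obtain ⟨i, hi, rfl⟩ := Finset.mem_image.1 ha
  exact ⟨i, hi, e⟩

theorem disc_count (c : Rn 2) (R : ℝ) {δ : ℝ} (hδ : 0 < δ) : ∃ N : ℕ,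
    ∀ 𝒟 : Set (Set (Rn 2) × Set (Rn 2)), 𝒟.Finite →
      (∀ d ∈ 𝒟, ∀ d' ∈ 𝒟, d ≠ d' → Disjoint d.1 d'.1) →
      (∀ d ∈ 𝒟, d.1 ⊆ closedBall c R ∧ ∃ ξ, ball ξ δ ⊆ d.1) → 𝒟.ncard ≤ N := by
  have h0 : 0 < volume.real (ball (0 : Rn 2) δ) :=
    ENNReal.toReal_pos (measure_ball_pos _ _ hδ).ne' measure_ball_lt_top.ne
  refine ⟨⌈volume.real (closedBall c R) / volume.real (ball (0 : Rn 2) δ)⌉₊, fun 𝒟 hf hd hs => ?_⟩
  choose! ξ hξ using fun d hd => (hs d hd).2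
  obtain ⟨𝒟, rfl⟩ := hf.exists_finset_coe
  have h1 := measureReal_biUnion_finset (μ := volume) (s := 𝒟) (f := fun d => ball (ξ d) δ)
    (fun d h d' h' n => (hd d h d' h' n).mono (hξ d h) (hξ d' h')) (fun _ _ => measurableSet_ball)
    fun _ _ => measure_ball_lt_top.ne
  have h2 : volume.real (⋃ d ∈ 𝒟, ball (ξ d) δ) ≤ volume.real (closedBall c R) :=
    measureReal_mono (iUnion₂_subset fun d h => (hξ d h).trans (hs d h).1)
      measure_closedBall_lt_top.ne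
  rw [h1, Finset.sum_congr rfl fun d _ => Measure.addHaar_real_ball_center volume (ξ d) δ,
    Finset.sum_const, nsmul_eq_mul, ← le_div_iff₀ h0] at h2
  rw [ncard_coe_finset]
  exact_mod_cast h2.trans (Nat.le_ceil _)

end BEp
end
end

-- merged part: Pool.Agent.Work.MP_f0515e_an.P2.QPre
section
/-! Families of flat discs. `QPre.merge`: keep the balls which contain the image of a circle, enlarge their radii by `ε / (card + 1)`, `merge_balls`. -/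

open Set Metric Filter Topology Function BEv MeasureTheory
open scoped NNReal ENNReal

noncomputable section
namespace BEp

/-- The flat disc given by a planar disc. -/
def fg (n : Fin 3) (h : ℝ) (d : Set (Rn 2) × Set (Rn 2)) : Fg := ⟨pl n h '' d.1, pl n h '' d.2, n⟩

variable {f : Rn 3 → Rn 3} {Z : Set (Rn 3)}

theorem Lp.pre {n : Fin 3} {h : ℝ} {ψ : Rn 2 → ℝ} {S : Set (Rn 2)} {τ1 τ2 l : ℝ}
    {𝒟 : Set (Set (Rn 2) × Set (Rn 2))} {𝔅 : Finset (Rn 3 × ℝ)}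
    (hL : Lp (fun ξ => f (pl n h ξ)) ψ S τ1 τ2 l 𝒟 𝔅)
    (hZ : ∀ d ∈ 𝒟, ∀ ξ ∈ d.1, pl n h ξ ∈ Z ∧ ∀ᶠ y in 𝓝 (pl n h ξ), y ∈ Z → y n = h) :
    QPre f Z l (fg n h '' 𝒟) 𝔅 := by
  refine ⟨hL.fin.image _, ?_, ?_, ?_, hL.pos, hL.sum⟩
  · rintro _ ⟨d, hd, rfl⟩
    refine ⟨⟨h, d.1, d.2, (hL.ball d hd).1, rfl, rfl⟩, ?_, ?_⟩
    · rintro _ ⟨ξ, hξ, rfl⟩
      exact (hZ d hd ξ hξ).1
    · rintro _ ⟨ξ, hξ, rfl⟩
      exact (hZ d hd ξ hξ).2.mono fun y k e => (k e).trans (pl_n n h ξ).symm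
  · rintro _ ⟨d, hd, rfl⟩ _ ⟨d', hd', rfl⟩ ne
    exact (disjoint_image_iff (pl_tp n h).2.1).2 (hL.dis d hd d' hd' fun e => ne (e ▸ rfl))
  · rintro _ ⟨d, hd, rfl⟩
    obtain ⟨-, -, -, b, b1, b2⟩ := hL.ball d hd
    refine ⟨b, b1, ?_⟩
    rintro _ ⟨_, ⟨ξ, hξ, rfl⟩, rfl⟩
    exact b2 ⟨ξ, hξ, rfl⟩

theorem QPre_un {β : Type} [DecidableEq β] {A B : Finset β} {r : β → ℝ} (h : ∀ b ∈ A, 0 ≤ r b) :
    ∑ b ∈ A ∪ B, r b ≤ ∑ b ∈ A, r b + ∑ b ∈ B, r b := by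
  rw [← Finset.sum_union_inter]
  exact le_add_of_nonneg_right (Finset.sum_nonneg fun b hb => h b (Finset.mem_inter.1 hb).1)

theorem QPre_bi {α β : Type} [DecidableEq β] (s : Finset α) {B : α → Finset β} {r : β → ℝ}
    (h : ∀ a ∈ s, ∀ b ∈ B a, 0 ≤ r b) : ∑ b ∈ s.biUnion B, r b ≤ ∑ a ∈ s, ∑ b ∈ B a, r b := by
  classical
  induction s using Finset.induction_on with
  | empty => simp
  | insert a s ha ih =>
    rw [Finset.biUnion_insert, Finset.sum_insert ha]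
    exact (QPre_un (h a (Finset.mem_insert_self a s))).trans
      (add_le_add le_rfl (ih fun a' k => h a' (Finset.mem_insert_of_mem k)))

theorem QPre.union {α : Type} (s : Finset α) {l : α → ℝ} {𝒟 : α → Set Fg}
    {𝔅 : α → Finset (Rn 3 × ℝ)} (h : ∀ a ∈ s, QPre f Z (l a) (𝒟 a) (𝔅 a))
    (hd : ∀ a ∈ s, ∀ b ∈ s, a ≠ b → ∀ φ ∈ 𝒟 a, ∀ φ' ∈ 𝒟 b, Disjoint φ.d φ'.d) :
    ∃ 𝔅', QPre f Z (∑ a ∈ s, l a) (⋃ a ∈ s, 𝒟 a) 𝔅' := by
  classical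
  refine ⟨s.biUnion 𝔅, s.finite_toSet.biUnion fun a ha => (h a ha).fin, fun φ hφ => ?_,
    fun φ hφ φ' hφ' ne => ?_, fun φ hφ => ?_, fun β hβ => ?_,
    (QPre_bi s fun a ha => (h a ha).pos).trans (Finset.sum_le_sum fun a ha => (h a ha).sum)⟩
  · obtain ⟨a, ha, k⟩ := mem_iUnion₂.1 hφ
    exact (h a ha).ok φ k
  · obtain ⟨a, ha, k⟩ := mem_iUnion₂.1 hφ
    obtain ⟨b, hb, k'⟩ := mem_iUnion₂.1 hφ'
    by_cases e : a = b
    · exact (h a ha).dis φ k φ' (e ▸ k') ne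
    · exact hd a ha b hb e φ k φ' k'
  · obtain ⟨a, ha, k⟩ := mem_iUnion₂.1 hφ
    obtain ⟨β, b1, b2⟩ := (h a ha).inb φ k
    exact ⟨β, Finset.mem_biUnion.2 ⟨a, ha, b1⟩, b2⟩
  · obtain ⟨a, ha, k⟩ := Finset.mem_biUnion.1 hβ
    exact (h a ha).pos β k

theorem QPre.merge {l l' ε : ℝ} {𝒟 𝒟' : Set Fg} {𝔅 𝔅' : Finset (Rn 3 × ℝ)} (h : QPre f Z l 𝒟 𝔅)
    (h' : QPre f Z l' 𝒟' 𝔅') (hε : 0 < ε) : ∃ 𝔅'' : Finset (Rn 3 × ℝ),
      (∀ φ ∈ 𝒟 ∪ 𝒟', ∃ β ∈ 𝔅'', f '' φ.J ⊆ ball β.1 β.2) ∧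
      (∀ β ∈ 𝔅'', 0 < β.2 ∧ ∃ φ ∈ 𝒟 ∪ 𝒟', ∃ x ∈ φ.J, f x ∈ ball β.1 β.2) ∧
      (∀ β ∈ 𝔅'', ∀ β' ∈ 𝔅'', β ≠ β' → Disjoint (closedBall β.1 β.2) (closedBall β'.1 β'.2)) ∧
      ∑ β ∈ 𝔅'', β.2 ≤ l + l' + ε := by
  classical
  obtain ⟨s, hs⟩ : ∃ s : Finset (Rn 3 × ℝ), s = (𝔅 ∪ 𝔅').filter
    fun β => ∃ φ ∈ 𝒟 ∪ 𝒟', f '' φ.J ⊆ closedBall β.1 β.2 := ⟨_, rfl⟩
  have ms : ∀ β, β ∈ s ↔ β ∈ 𝔅 ∪ 𝔅' ∧ ∃ φ ∈ 𝒟 ∪ 𝒟', f '' φ.J ⊆ closedBall β.1 β.2 := fun β => by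
    rw [hs, Finset.mem_filter]
  have p0 : ∀ β ∈ 𝔅 ∪ 𝔅', 0 ≤ β.2 := fun β hβ =>
    (Finset.mem_union.1 hβ).elim (h.pos β) (h'.pos β)
  obtain ⟨η, η0, η1⟩ : ∃ η : ℝ, 0 < η ∧ s.card * η ≤ ε := ⟨ε / (s.card + 1), by positivity, by
    rw [← mul_div_assoc, div_le_iff₀ (by positivity)]
    nlinarith⟩
  obtain ⟨B, b1, b2, b3, b4⟩ := merge_balls s (fun β => β.1) (fun β => β.2 + η)
    fun β hβ => add_nonneg (p0 β ((ms β).1 hβ).1) η0.le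
  have key : ∀ {β b : Rn 3 × ℝ}, ‖β.1 - b.1‖ + (β.2 + η) ≤ b.2 →
      closedBall β.1 β.2 ⊆ ball b.1 b.2 := fun {β b} e =>
    closedBall_subset_ball' (by rw [dist_eq_norm]; linarith)
  refine ⟨B, fun φ hφ => ?_, fun b hb => ?_, b3, b4.trans ?_⟩
  · obtain ⟨β, c1, c2⟩ : ∃ β ∈ 𝔅 ∪ 𝔅', f '' φ.J ⊆ closedBall β.1 β.2 := by
      rcases hφ with k | k
      · exact (h.inb φ k).imp fun β e => ⟨Finset.mem_union_left _ e.1, e.2⟩
      · exact (h'.inb φ k).imp fun β e => ⟨Finset.mem_union_right _ e.1, e.2⟩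
    obtain ⟨b, hb, e⟩ := b1 β ((ms β).2 ⟨c1, φ, hφ, c2⟩)
    exact ⟨b, hb, c2.trans (key e)⟩
  · obtain ⟨β, hβ, e⟩ := b2 b hb
    obtain ⟨c1, φ, hφ, c2⟩ := (ms β).1 hβ
    obtain ⟨x, hx⟩ := (hφ.elim (h.ok φ) (h'.ok φ)).top.2.2.2.1.nonempty
    refine ⟨?_, φ, hφ, x, hx, key e (c2 ⟨x, hx, rfl⟩)⟩
    have := norm_nonneg (β.1 - b.1)
    have := p0 β c1
    linarith
  · rw [Finset.sum_add_distrib, Finset.sum_const, nsmul_eq_mul]
    refine add_le_add ((Finset.sum_le_sum_of_subset_of_nonneg (fun β hβ => ((ms β).1 hβ).1)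
      fun β hβ _ => p0 β hβ).trans ((QPre_un h.pos).trans (add_le_add h.sum h'.sum))) η1

end BEp
end
end

-- merged part: Pool.Agent.Work.MP_f0515e_an.P2.CutA
section
/-! The squeeze of a lens onto a neighbourhood of its lower cap. -/

open Set Metric Filter Topology Function BEv
open scoped NNReal

noncomputable section
namespace BEp

theorem cutA_upd (x : Rn 3) (a : ℝ) : update x 2 a = mk3 (pj3 x) a := by
  ext i
  fin_cases i <;> rfl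

theorem cutA_oN (x : Rn 3) : oN 2 x = ‖pj3 x‖ + |x 2| := by rw [oN, norm_hz2]

theorem cutA_len : Len (2 : Fin 3) (oct 2) (capU 2) (capL 2) (eqt 2) :=
  ⟨id, LH.id', image_id _, image_id _, image_id _, image_id _⟩

theorem cut_sq0 {Z N : Set (Rn 3)} (hZ : IsClosed Z) (hZD : Z ∩ capU 2 ⊆ eqt 2) (hN : IsOpen N)
    (hL : capL 2 ⊆ N) :
    ∃ Φ, LH Φ ∧ (∀ x ∈ Z, x ∉ oct 2 → Φ x = x) ∧ ∀ x ∈ oct 2, Φ x ∈ N := by
  obtain ⟨δ, hδ, hδN⟩ := cutA_len.symm.poly.1.exists_cthickening_subset_open hN hL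
  obtain ⟨η, e0, e1, e2⟩ : ∃ η : ℝ, 0 < η ∧ η ≤ 1 ∧ 2 * η ≤ δ :=
    ⟨min 1 (δ / 2), lt_min one_pos (half_pos hδ), min_le_left _ _,
      by linarith [min_le_right 1 (δ / 2)]⟩
  have hC : IsCompact (capU (2 : Fin 3) ∩ {x | ‖pj3 x‖ ≤ 1 - η / 2}) :=
    cutA_len.poly.1.inter_right (isClosed_le tp_pj3.continuous.norm continuous_const)
  obtain ⟨h, h0, hh⟩ := hC.exists_cthickening_subset_open hZ.isOpen_compl fun x hx k => by
    have k1 := hZD ⟨k, hx.1⟩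
    have k2 : ‖pj3 x‖ ≤ 1 - η / 2 := hx.2
    rw [← PUp_norm k1.2, k1.1] at k2
    linarith
  obtain ⟨K, K0, K1⟩ : ∃ K : ℝ, 0 < K ∧ K * η = 4 :=
    ⟨4 / η, by positivity, div_mul_cancel₀ _ e0.ne'⟩
  obtain ⟨M, M0, M1⟩ : ∃ M : ℝ, 1 ≤ M ∧ M * h = 2 + h :=
    ⟨(2 + h) / h, (one_le_div h0).2 (by linarith), div_mul_cancel₀ _ h0.ne'⟩
  let g : ℝ → ℝ → ℝ := fun a s => min s (max (max (a - 1 + η * (s - (a - 1)))
    (s - K * (1 - η / 2 - a))) (1 - a + h + M * (s - (1 - a + h))))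
  have t2 : TP fun x : Rn 3 => x 2 := TP.id'.apply 2
  have ta : TP fun x : Rn 3 => ‖pj3 x‖ := tp_pj3.norm_pi
  have hG : LH fun x : Rn 3 => update x 2 (g ‖pj3 x‖ (x 2)) := by
    refine lh_vert 2 (t2.min ((((ta.sub (TP.const _)).add
      ((t2.sub (ta.sub (TP.const _))).const_mul η)).max
      (t2.sub (((TP.const _).sub ta).const_mul K))).max
      ((((TP.const _).sub ta).add (TP.const _)).add
        ((t2.sub (((TP.const _).sub ta).add (TP.const _))).const_mul M)))) e0 fun x s t st => ?_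
    simp only [g, update_self, EML_upd]
    have k1 := mul_le_mul_of_nonneg_right e1 (sub_nonneg.2 st)
    have k2 := mul_le_mul_of_nonneg_right M0 (sub_nonneg.2 st)
    rw [le_sub_iff_add_le', ← min_add_add_right, ← max_add_add_right, ← max_add_add_right]
    exact min_le_min (by linarith) (max_le_max (max_le_max (by linarith) (by linarith)) (by linarith))
  refine ⟨_, hG, fun x hx hn => update_eq_self_iff.2 (min_eq_left ?_), fun x hx => ?_⟩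
  · have hn' : 1 < ‖pj3 x‖ + |x 2| := by rw [← cutA_oN]; exact not_le.1 hn
    rcases le_total (1 - η / 2) ‖pj3 x‖ with k | k
    · exact le_max_of_le_left (le_max_of_le_right (by nlinarith))
    rcases le_total (x 2) 0 with k1 | k1
    · rw [abs_of_nonpos k1] at hn'
      exact le_max_of_le_left (le_max_of_le_left (by nlinarith))
    rw [abs_of_nonneg k1] at hn'
    rcases le_total (1 - ‖pj3 x‖ + h) (x 2) with k2 | k2
    · exact le_max_of_le_right (by nlinarith)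
    refine (hh (mem_cthickening_of_dist_le x (mk3 (pj3 x) (1 - ‖pj3 x‖)) h _
      ⟨⟨?_, ?_⟩, ?_⟩ ?_) hx).elim
    · rw [cutA_oN, pj3_mk3, mk3_2, abs_of_nonneg (by linarith)]
      ring
    · rw [mk3_2]
      linarith
    · simpa using k
    · conv_lhs => rw [← mk3_pj3 x, pj3_mk3, dist_eq_norm, ASl_ver]
      rw [abs_of_nonneg (by linarith)]
      linarith
  · have hx' : ‖pj3 x‖ + |x 2| ≤ 1 := by rw [← cutA_oN]; exact hx
    have k0 := norm_nonneg (pj3 x)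
    obtain ⟨k1, k2⟩ := abs_le.1 (show |x 2| ≤ 1 - ‖pj3 x‖ by linarith)
    refine hδN (mem_cthickening_of_dist_le _ (mk3 (pj3 x) (‖pj3 x‖ - 1)) δ _ ⟨?_, ?_⟩ ?_)
    · rw [cutA_oN, pj3_mk3, mk3_2, abs_of_nonpos (by linarith)]
      ring
    · rw [mk3_2]
      linarith
    rw [cutA_upd, dist_eq_norm, ASl_ver, abs_le]
    have lo : ‖pj3 x‖ - 1 ≤ g ‖pj3 x‖ (x 2) :=
      le_min (by linarith) (le_max_of_le_left (le_max_of_le_left (by nlinarith)))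
    refine ⟨by linarith, ?_⟩
    rcases le_total (1 - η) ‖pj3 x‖ with k | k
    · linarith [show g ‖pj3 x‖ (x 2) ≤ x 2 from min_le_left _ _]
    · have up : g ‖pj3 x‖ (x 2) ≤ ‖pj3 x‖ - 1 + 2 * η := (min_le_right _ _).trans
        (max_le (max_le (by nlinarith) (by nlinarith)) (by nlinarith))
      linarith

theorem cut_sq {M D e c Z N : Set (Rn 3)} (h : Len 2 M D e c) (hZ : IsClosed Z) (hZD : Z ∩ D ⊆ c)
    (hN : IsOpen N) (he : e ⊆ N) :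
    ∃ Φ, LH Φ ∧ (∀ x ∈ Z, x ∉ M → Φ x = x) ∧ ∀ x ∈ M, Φ x ∈ N := by
  obtain ⟨Θ, hΘ, rfl, rfl, rfl, rfl⟩ := h
  obtain ⟨Φ, h1, h2, h3⟩ := cut_sq0 (hZ.preimage hΘ.tp.continuous)
    (fun x hx => hΘ.inj.mem_set_image.1 (hZD ⟨hx.1, mem_image_of_mem _ hx.2⟩))
    (hN.preimage hΘ.tp.continuous) (image_subset_iff.1 he)
  refine ⟨Θ ∘ Φ ∘ invFun Θ, hΘ.comp (h1.comp hΘ.inv), fun x hx hn => ?_, ?_⟩
  · obtain ⟨x, rfl⟩ := hΘ.1.2 x
    rw [comp_apply, comp_apply, hΘ.li, h2 x hx fun k => hn (mem_image_of_mem _ k)]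
  · rintro _ ⟨x, hx, rfl⟩
    rw [comp_apply, comp_apply, hΘ.li]
    exact h3 x hx

end BEp
end
end

-- merged part: Pool.Agent.Work.MP_f0515e_an.P2.CutC
section
/-! The cutting procedure: state, data of one step. -/

open Set Metric Filter Topology Function BEv
open scoped NNReal

noncomputable section
namespace BEp

/-- Every ball with boundary in `G` lies in `G`. -/
def CSat (G : Set (Rn 3)) : Prop := ∀ M S, Ball M S → S ⊆ G → M ⊆ G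

theorem CSat.image {G : Set (Rn 3)} (h : CSat G) {Φ : Rn 3 → Rn 3} (hΦ : LH Φ) :
    CSat (Φ '' G) := fun M S hM hS => by
  rw [← hΦ.image_inv M]
  refine image_mono (h _ _ (hM.image hΦ.inv) ?_)
  rw [← hΦ.inv_image G]
  exact image_mono hS

variable {μ κ : Type}

/-- The fixed data: charts of the walls, balls, convex hulls. -/
structure CFx (θ : κ → Rn 3 → Rn 3) (B O : κ → Set (Rn 3)) : Prop where
  lh : ∀ k, LH (θ k)
  sub : ∀ k, θ k '' closedBall 0 1 ⊆ B k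
  dis : Pairwise fun k l => Disjoint (B k) (B l)
  op : ∀ k, IsOpen (O k) ∧ Convex ℝ (O k)

/-- The state of the procedure. -/
structure CtS (θ : κ → Rn 3 → Rn 3) (B O : κ → Set (Rn 3)) (H : μ → Set (Rn 3)) (u v : κ → ℝ)
    (E J U : μ → Set (Rn 3)) (G : κ → Set (Rn 3)) (Y : Set (Rn 3)) : Prop where
  lev : ∀ k, -1 < u k ∧ u k < v k ∧ v k ≤ 1
  dsc : ∀ j, PDsc (E j) (J j)
  dis : Pairwise fun j l => Disjoint (E j) (E l)
  cl : IsClosed Y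
  ye : ∀ j, Y ∩ E j ⊆ J j
  cw : ∀ k j, CutW (θ k) (u k) (v k) (E j)
  pil : ∀ j, ∃ k, J j ⊆ θ k '' cutIn (u k) ∨
    (E j ⊆ B k ∧ ∀ l, Disjoint (E j) (θ l '' cutWl (u l) (v l)))
  hul : ∀ j k, (E j ∩ θ k '' cutWl (u k) (v k)).Nonempty →
    E j ⊆ H j ∧ B k ⊆ H j ∧ H j ⊆ O k ∧ ∀ l, (O k ∩ B l).Nonempty → U j ⊆ G l
  uo : ∀ j, IsOpen (U j) ∧ E j ⊆ U j
  sat : ∀ k, CSat (G k) ∧ θ k '' cutWl (u k) (v k) ⊆ G k

/-- The properties of the moves. -/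
structure CutO (B O G : κ → Set (Rn 3)) (Y : Set (Rn 3)) (Φ : Rn 3 → Rn 3) : Prop where
  lh : LH Φ
  mv : ∀ y, Φ y = y ∨ ∃ k, Φ y ∈ O k ∧ y ∈ G k
  fy : ∀ y ∈ Y, Φ y = y ∨ ∃ k, Φ y ∈ B k
  tr : ∀ k, ∀ T ⊆ Y, IsPreconnected T → Disjoint T (B k) → ¬ T ⊆ G k → Disjoint (Φ '' T) (B k)

/-- The circles on the walls. -/
def CCir (θ : κ → Rn 3 → Rn 3) (u v : κ → ℝ) (E : μ → Set (Rn 3)) : Set (κ × Set (Rn 2)) :=
  {p | Crc p.2 ∧ p.2 ⊆ ⋃ j, cutTr (θ p.1) (u p.1) (v p.1) (E j)}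

variable {θ : κ → Rn 3 → Rn 3} {B O G : κ → Set (Rn 3)} {H E J U : μ → Set (Rn 3)} {u v : κ → ℝ}
  {Y : Set (Rn 3)} {Φ Ψ : Rn 3 → Rn 3}

theorem CutO.comp (h : CutO B O G Y Φ) (k : CutO B O (fun l => Φ '' G l) (Φ '' Y) Ψ) :
    CutO B O G Y (Ψ ∘ Φ) := by
  refine ⟨k.lh.comp h.lh, fun y => ?_, fun y hy => ?_, fun l T h1 h2 h3 h4 => ?_⟩
  · rcases k.mv (Φ y) with e | ⟨l, e1, e2⟩
    · rw [comp_apply, e]
      exact h.mv y
    · exact Or.inr ⟨l, e1, h.lh.inj.mem_set_image.1 e2⟩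
  · rcases k.fy _ (mem_image_of_mem _ hy) with e | e
    · rw [comp_apply, e]
      exact h.fy y hy
    · exact Or.inr e
  · rw [image_comp]
    exact k.tr l _ (image_mono h1) (h2.image _ h.lh.tp.continuous.continuousOn) (h.tr l T h1 h2 h3 h4)
      fun e => h4 ((image_subset_image_iff h.lh.inj).1 e)

theorem cutC_in {a : ℝ} (ha : a ≤ 1) {x : Rn 3} (hx : x ∈ cutIn a) : ‖x‖ ≤ 1 := by
  rw [← mk3_pj3 x, norm_mk3]
  exact max_le hx.1.le (abs_le.2 ⟨hx.2.1.le, hx.2.2.le.trans ha⟩)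

theorem CFx.wl (hF : CFx θ B O) (k : κ) (a b : ℝ) : θ k '' cutWl a b ⊆ B k :=
  (image_mono fun _ hx => mem_closedBall_zero_iff.2 hx.1).trans (hF.sub k)

theorem CtS.missJ (hF : CFx θ B O) (h : CtS θ B O H u v E J U G Y) (j : μ) (k : κ) :
    Disjoint (J j) (θ k '' cutWl (u k) (v k)) := by
  obtain ⟨l, e | e⟩ := h.pil j
  · refine disjoint_left.2 fun x hx hw => ?_
    obtain ⟨z, hz, rfl⟩ := e hx
    rcases eq_or_ne l k with rfl | hl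
    · rcases ((hF.lh l).inj.mem_set_image.1 hw).2 with a | a | a
      exacts [hz.1.ne a, hz.2.1.ne' a, hz.2.2.not_ge a.1]
    · exact disjoint_left.1 (hF.dis hl) (hF.sub l ⟨z, mem_closedBall_zero_iff.2
        (cutC_in ((h.lev l).2.1.le.trans (h.lev l).2.2) hz), rfl⟩) (hF.wl k _ _ hw)
  · exact (e.2 k).mono_left (h.dsc j).sub

theorem CtS.sec [Finite μ] (hF : CFx θ B O) (h : CtS θ B O H u v E J U G Y) (k : κ) :
    ∃ 𝒞 : Set (Set (Rn 2)), 𝒞.Finite ∧ ⋃₀ 𝒞 = ⋃ j, cutTr (θ k) (u k) (v k) (E j) ∧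
      𝒞.PairwiseDisjoint id ∧ ∀ C ∈ 𝒞, Crc C ∧ ∃ j, C ⊆ cutTr (θ k) (u k) (v k) (E j) := by
  choose 𝒞 c1 c2 c3 c4 using fun j => cut_sec (hF.lh k) (h.dsc j) (h.lev k).1 (h.lev k).2.1
    (h.lev k).2.2 (h.cw k j) (h.missJ hF j k)
  have sub : ∀ j, ∀ C ∈ 𝒞 j, C ⊆ cutTr (θ k) (u k) (v k) (E j) := fun j C hC =>
    c2 j ▸ subset_sUnion_of_mem hC
  refine ⟨⋃ j, 𝒞 j, finite_iUnion c1, ?_, fun C hC C' hC' hne => ?_, fun C hC => ?_⟩
  · rw [sUnion_iUnion]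
    exact iUnion_congr fun j => by rw [← c2 j, sUnion_eq_biUnion]
  · obtain ⟨j, hj⟩ := mem_iUnion.1 hC
    obtain ⟨l, hl⟩ := mem_iUnion.1 hC'
    rcases eq_or_ne j l with rfl | hjl
    · exact c3 j hj hl hne
    · have hu := left_mem_Icc.2 (h.lev k).2.1.le
      exact disjoint_left.2 fun y a b => disjoint_left.1 (h.dis hjl)
        ((h.cw k j).ver y (sub j C hj a) _ hu) ((h.cw k l).ver y (sub l C' hl b) _ hu)
  · obtain ⟨j, hj⟩ := mem_iUnion.1 hC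
    exact ⟨c4 j C hj, j, sub j C hj⟩

theorem cutC_cl {𝒞 : Set (Set (Rn 2))} (hf : 𝒞.Finite) (hc : ∀ C ∈ 𝒞, Crc C) (C : Set (Rn 2)) :
    IsClosed (⋃₀ (𝒞 \ {C})) :=
  (hf.sdiff.isCompact_sUnion fun P hP => (hc P hP.1).poly.1).isClosed

theorem CtS.fin [Finite μ] [Finite κ] (hF : CFx θ B O) (h : CtS θ B O H u v E J U G Y) :
    (CCir θ u v E).Finite := by
  choose 𝒞 c1 c2 c3 c4 using h.sec hF
  refine (finite_iUnion fun k => (finite_singleton k).prod (c1 k)).subset fun ⟨k, γ⟩ ⟨h1, h2⟩ =>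
    mem_iUnion.2 ⟨k, rfl, ?_⟩
  simp only [← c2] at h1 h2 ⊢
  obtain ⟨x, hx⟩ := h1.tcrc.conn.nonempty
  obtain ⟨C, hC, hx'⟩ := h2 hx
  have dj : ∀ y ∈ C, y ∉ ⋃₀ (𝒞 k \ {C}) := fun y a ⟨C', b, b'⟩ =>
    disjoint_left.1 (c3 k hC b.1 (Ne.symm b.2)) a b'
  rcases isPreconnected_iff_subset_of_disjoint_closed.1 h1.tcrc.conn.isPreconnected C _
    (c4 k C hC).1.poly.1.isClosed (cutC_cl (c1 k) (fun C hC => (c4 k C hC).1) C)
    (fun y hy => by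
      obtain ⟨C', a, b⟩ := h2 hy
      exact (eq_or_ne C' C).imp (fun e : C' = C => e ▸ b) fun e => ⟨C', ⟨a, e⟩, b⟩)
    (eq_empty_of_forall_notMem fun y hy => dj y hy.2.1 hy.2.2) with e | e
  · exact tcrc_sub h1.tcrc (c4 k C hC).1.tcrc e ▸ hC
  · exact (dj x hx' (e hx)).elim

theorem CtS.data [Finite μ] (hF : CFx θ B O) (h : CtS θ B O H u v E J U G Y) {k : κ}
    (hn : (⋃ j, cutTr (θ k) (u k) (v k) (E j)).Nonempty) :
    ∃ (j : μ) (M D e c : Set (Rn 3)) (m s : ℝ) (c₀ : Set (Rn 2)), Len 2 M D e c ∧ D ⊆ E j ∧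
      Disjoint D (J j) ∧ (∀ l, e ∩ E l ⊆ c) ∧ m ∈ Ioo (u k) (v k) ∧ s ∈ Ioo (u k) (v k) ∧ s ≠ m ∧
      e ⊆ θ k '' lay (ball 0 1) m ∧ (k, c₀) ∈ CCir θ u v E ∧ ∃ y ∈ c₀, θ k (mk3 y s) ∈ D := by
  obtain ⟨𝒞, c1, c2, c3, c4⟩ := h.sec hF k
  obtain ⟨l1, l2, l3⟩ := h.lev k
  have hθ := hF.lh k
  obtain ⟨c₀, h0, D₀, hD₀, hi⟩ := innermost c1 (by
    rw [← c2] at hn
    obtain ⟨_, C, hC, -⟩ := hn
    exact ⟨C, hC⟩) (fun C hC => (c4 C hC).1) (z := 0)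
    fun C hC C' hC' hne => (disjoint_iff_inter_eq_empty.1 (c3 hC hC' hne)).le.trans (empty_subset _)
  obtain ⟨cc, j, hj⟩ := c4 c₀ h0
  have hb : D₀ ⊆ ball 0 1 := hD₀.sub_convex one_le_two (convex_ball 0 1)
    fun y hy => mem_ball_zero_iff.2 ((h.cw k j).lt l1 l3 (hj hy))
  obtain ⟨m, hm⟩ := nonempty_Ioo.2 l2
  have hm' := Ioo_subset_Icc_self hm
  have tg : TP fun y : Rn 2 => θ k (mk3 y m) := hθ.tp.comp (tp_lay m)
  have ig : Injective fun y : Rn 2 => θ k (mk3 y m) := fun y z e => by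
    simpa only [pj3_mk3] using congrArg pj3 (hθ.inj e)
  have he := hD₀.cel.image tg ig.injOn
  obtain ⟨D, d1, d2, d3⟩ := sd_ex (h.dsc j) (cc.image tg ig.injOn)
    (image_subset_iff.2 fun y hy => (h.cw k j).ver y (hj hy) m hm')
  have eE : ∀ l, (fun y => θ k (mk3 y m)) '' D₀ ∩ E l ⊆ (fun y => θ k (mk3 y m)) '' c₀ := by
    rintro l _ ⟨⟨y, hy, rfl⟩, k2⟩
    obtain ⟨C, hC, k3⟩ : y ∈ ⋃₀ 𝒞 :=
      c2 ▸ mem_iUnion.2 ⟨l, (mem_ball_zero_iff.1 (hb hy)).le, m, hm', k2⟩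
    exact ⟨y, hi C hC ⟨hy, k3⟩, rfl⟩
  obtain ⟨M, hM⟩ := len_two d1 he (Subset.antisymm (fun x hx => eE j ⟨hx.2, d2 hx.1⟩)
    fun x hx => ⟨d1.sub hx, he.sub hx⟩)
  obtain ⟨y₀, hy₀⟩ := cc.tcrc.conn.nonempty
  have oV : IsOpen (invFun (θ k) ⁻¹' {x | pj3 x ∈ (⋃₀ (𝒞 \ {c₀}))ᶜ ∩ ball 0 1 ∧
      x 2 ∈ Ioo (u k) (v k)}) :=
    (((((cutC_cl c1 (fun C hC => (c4 C hC).1) c₀).isOpen_compl).inter isOpen_ball).preimage
      tp_pj3.continuous).inter (isOpen_Ioo.preimage (continuous_apply 2))).preimage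
        hθ.tpi.continuous
  obtain ⟨p, p1, p2⟩ := mem_closure_iff.1 (d1.cl.ge (d1.sub ⟨y₀, hy₀, rfl⟩)) _ oV (by
    rw [mem_preimage, hθ.li]
    refine ⟨?_, hm⟩
    rw [pj3_mk3]
    exact ⟨fun ⟨C, a, b⟩ => disjoint_left.1 (c3 h0 a.1 (Ne.symm a.2)) hy₀ b, hb (hD₀.sub hy₀)⟩)
  obtain ⟨x, rfl⟩ := hθ.1.2 p
  rw [mem_preimage, hθ.li] at p1
  have hx : pj3 x ∈ c₀ := by
    obtain ⟨C, hC, k3⟩ : pj3 x ∈ ⋃₀ 𝒞 := c2 ▸ mem_iUnion.2 ⟨j, (mem_ball_zero_iff.1 p1.1.2).le, _,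
      Ioo_subset_Icc_self p1.2, by rw [mk3_pj3]; exact d2 p2.1⟩
    exact by_contra fun a => p1.1.1 ⟨C, ⟨hC, fun e => a (e ▸ k3)⟩, k3⟩
  refine ⟨j, M, D, _, _, m, x 2, c₀, hM, d2, d3 ((h.missJ hF j k).symm.mono_left ?_), eE, hm, p1.2,
    fun e => p2.2 ⟨_, hx, by simp only [← e, mk3_pj3]⟩, ?_, ⟨cc, hj.trans (subset_iUnion
      (fun j => cutTr (θ k) (u k) (v k) (E j)) j)⟩, _, hx, by rw [mk3_pj3]; exact p2.1⟩
  · rintro _ ⟨y, hy, rfl⟩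
    exact ⟨_, cutB_nm (hj hy).1 l1 l3 hm', rfl⟩
  · rintro _ ⟨y, hy, rfl⟩
    exact ⟨_, ⟨by rw [pj3_mk3]; exact hb hy, rfl⟩, rfl⟩

theorem CtS.fine (hF : CFx θ B O) (h : CtS θ B O H u v E J U G Y)
    (hn : ∀ k, ¬ (⋃ j, cutTr (θ k) (u k) (v k) (E j)).Nonempty) (j : μ) : ∃ k, E j ⊆ B k := by
  obtain ⟨k, e | e⟩ := h.pil j
  swap
  · exact ⟨k, e.1⟩
  have hθ := hF.lh k
  obtain ⟨l1, l2, l3⟩ := h.lev k
  have o1 : IsOpen (invFun (θ k) ⁻¹' cutIn (u k)) :=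
    ((isOpen_lt tp_pj3.continuous.norm continuous_const).inter
      (isOpen_Ioo.preimage (continuous_apply 2))).preimage hθ.tpi.continuous
  have o2 : IsOpen (invFun (θ k) ⁻¹' {x | ‖x‖ ≤ 1 ∧ x 2 ≤ u k}ᶜ) :=
    (IsClosed.and (isClosed_le continuous_norm continuous_const)
      (isClosed_le (continuous_apply 2) continuous_const)).isOpen_compl.preimage hθ.tpi.continuous
  have := (h.dsc j).conn.isPreconnected.subset_left_of_subset_union o1 o2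
    (disjoint_left.2 fun x a b => b ⟨cutC_in (l2.le.trans l3) a, a.2.2.le⟩) (fun p hp => by
      obtain ⟨x, rfl⟩ := hθ.1.2 p
      rw [mem_union, mem_preimage, mem_preimage, hθ.li]
      refine (em _).imp_left fun a : ‖x‖ ≤ 1 ∧ x 2 ≤ u k => ?_
      have no : x ∉ cutWl (u k) (v k) := fun b => hn k ⟨_, mem_iUnion.2 ⟨j, ((h.cw k j).tr b hp).1⟩⟩
      exact ⟨((ASl_pj x).trans a.1).lt_of_ne fun b => no ⟨a.1, Or.inl b⟩,
        (abs_le.1 ((norm_le_pi_norm x 2).trans a.1)).1.lt_of_ne' fun b => no ⟨a.1, Or.inr (Or.inl b)⟩,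
        a.2.lt_of_ne fun b => no ⟨a.1, Or.inr (Or.inr ⟨b.ge, b.le.trans l2.le⟩)⟩⟩) (by
      obtain ⟨p, hp⟩ := (PDsc.conn_bd (h.dsc j)).nonempty
      obtain ⟨x, hx, rfl⟩ := e hp
      exact ⟨_, (h.dsc j).sub hp, by rwa [mem_preimage, hθ.li]⟩)
  exact ⟨k, fun p hp => hF.sub k ⟨_, mem_closedBall_zero_iff.2
    (cutC_in (l2.le.trans l3) (this hp)), hθ.ri p⟩⟩

end BEp
end
end

-- merged part: Pool.Agent.Work.MP_f0515e_an.P2.CutD
section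
/-! The cutting procedure: one step, the induction, the final statement. -/

open Set Metric Filter Topology Function BEv
open scoped NNReal

noncomputable section
namespace BEp

variable {μ κ : Type} {θ : κ → Rn 3 → Rn 3} {B O G : κ → Set (Rn 3)} {H E J U : μ → Set (Rn 3)}
  {u v : κ → ℝ} {Y : Set (Rn 3)}

theorem cutD_op {Φ : Rn 3 → Rn 3} (h : LH Φ) {A : Set (Rn 3)} (hA : IsOpen A) : IsOpen (Φ '' A) := by
  obtain ⟨e, rfl, -⟩ := h.homeo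
  exact e.isOpenMap _ hA

theorem cutD_cl {Φ : Rn 3 → Rn 3} (h : LH Φ) {A : Set (Rn 3)} (hA : IsClosed A) :
    IsClosed (Φ '' A) := by
  obtain ⟨e, rfl, -⟩ := h.homeo
  exact e.isClosedMap _ hA

theorem cutD_fix {Φ : Rn 3 → Rn 3} {A : Set (Rn 3)} (h : ∀ x ∈ A, Φ x = x) : Φ '' A = A :=
  (image_congr h).trans (image_id' A)

theorem CtS.lev2 (hF : CFx θ B O) (h : CtS θ B O H u v E J U G Y) (k : κ) {m s : ℝ}
    (hm : m ∈ Ioo (u k) (v k)) (hs : s ∈ Ioo (u k) (v k)) (hne : s ≠ m) :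
    ∃ (u' v' : κ → ℝ) (N : Set (Rn 3)), (∀ l, u l ≤ u' l ∧ u' l < v' l ∧ v' l ≤ v l) ∧
      s ∈ Icc (u' k) (v' k) ∧ IsOpen N ∧ θ k '' lay (ball 0 1) m ⊆ N ∧ N ⊆ B k ∧
      ∀ l, Disjoint N (θ l '' cutWl (u' l) (v' l)) := by
  classical
  obtain ⟨a, b, a1, a2, a3, a4, a5⟩ : ∃ a b, u k ≤ a ∧ a < b ∧ b ≤ v k ∧ s ∈ Icc a b ∧
      m ∉ Icc a b := by
    rcases hne.lt_or_gt with e | e
    · exact ⟨u k, s, le_rfl, hs.1, hs.2.le, ⟨hs.1.le, le_rfl⟩, fun k => k.2.not_gt e⟩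
    · exact ⟨s, v k, hs.1.le, hs.2, le_rfl, ⟨le_rfl, hs.2.le⟩, fun k => k.1.not_gt e⟩
  obtain ⟨l1, l2, l3⟩ := h.lev k
  have sub : θ k '' {x | pj3 x ∈ ball 0 1 ∧ x 2 ∈ Ioo (u k) (v k) \ Icc a b} ⊆ B k :=
    (image_mono fun x hx => mem_closedBall_zero_iff.2
      (cutC_in l3 ⟨mem_ball_zero_iff.1 hx.1, l1.trans hx.2.1.1, hx.2.1.2⟩)).trans (hF.sub k)
  refine ⟨update u k a, update v k b, _, fun l => ?_, by simpa only [update_self] using a4,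
    cutD_op (hF.lh k) ((isOpen_ball.preimage tp_pj3.continuous).inter
      ((isOpen_Ioo.sdiff isClosed_Icc).preimage (continuous_apply 2))),
    image_mono fun x hx => ⟨hx.1, by rw [mem_preimage, hx.2]; exact ⟨hm, a5⟩⟩, sub, fun l => ?_⟩
  · rcases eq_or_ne l k with rfl | e
    · simp only [update_self]
      exact ⟨a1, a2, a3⟩
    · simp only [update_of_ne e]
      exact ⟨le_rfl, (h.lev l).2.1, le_rfl⟩
  · rcases eq_or_ne l k with rfl | e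
    · simp only [update_self]
      refine disjoint_image_of_injective (hF.lh l).inj (disjoint_left.2 fun x hx hw => ?_)
      rcases hw.2 with c | c | c
      exacts [(mem_ball_zero_iff.1 hx.1).ne c, (l1.trans hx.2.1.1).ne' c, hx.2.2 c]
    · exact (hF.dis e.symm).mono sub (hF.wl l _ _)

theorem CtS.step [Finite μ] (hF : CFx θ B O) (h : CtS θ B O H u v E J U G Y) {k : κ}
    (hn : (⋃ j, cutTr (θ k) (u k) (v k) (E j)).Nonempty) :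
    ∃ Φ u' v', CutO B O G Y Φ ∧ CtS θ B O H u' v' (fun j => Φ '' E j) (fun j => Φ '' J j)
      (fun j => Φ '' U j) (fun l => Φ '' G l) (Φ '' Y) ∧
      CCir θ u' v' (fun j => Φ '' E j) ⊂ CCir θ u v E := by
  obtain ⟨j, M, D, e, c, m, s, c₀, hM, DE, DJ, eE, hm, hs, hne, hl, hc₀, y₀, hy₀, hy₁⟩ :=
    h.data hF hn
  obtain ⟨u', v', N, lv, hs', oN, lN, NB, NW⟩ := h.lev2 hF k hm hs hne
  have lv' : ∀ l, -1 < u' l ∧ u' l < v' l ∧ v' l ≤ 1 := fun l =>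
    ⟨(h.lev l).1.trans_le (lv l).1, (lv l).2.1, (lv l).2.2.trans (h.lev l).2.2⟩
  have ic : ∀ l, Icc (u' l) (v' l) ⊆ Icc (u l) (v l) := fun l =>
    Icc_subset_Icc (lv l).1 (lv l).2.2
  have ww : ∀ l, θ l '' cutWl (u' l) (v' l) ⊆ θ l '' cutWl (u l) (v l) := fun l =>
    image_mono fun x hx => ⟨hx.1, hx.2.imp_right (Or.imp_right fun a => ic l a)⟩
  have eN := hl.trans lN
  have eW : e ⊆ θ k '' cutWl (u k) (v k) := hl.trans (image_mono fun x hx => mk3_pj3 x ▸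
    cutB_nm (mem_ball_zero_iff.1 hx.1).le (h.lev k).1 (h.lev k).2.2 (hx.2.symm ▸ Ioo_subset_Icc_self hm))
  have hD := hM.pdsc
  have hb := hM.ball
  have DM : D ⊆ M := subset_union_left.trans hb.sub
  have ce : c ⊆ e := hM.inter.ge.trans inter_subset_right
  obtain ⟨p₀, hp₀⟩ := (PDsc.conn_bd hD).nonempty
  have mj : (E j ∩ θ k '' cutWl (u k) (v k)).Nonempty := ⟨p₀, DE (hD.sub hp₀), eW (ce hp₀)⟩
  obtain ⟨q1, q2, q3, q4⟩ := h.hul j k mj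
  have UG : U j ⊆ G k := q4 k ⟨p₀, q3 (q1 (DE (hD.sub hp₀))), NB (eN (ce hp₀))⟩
  have MO : M ⊆ O k := hb.sub_convex (by norm_num) (hF.op k).2
    (union_subset (DE.trans (q1.trans q3)) (eN.trans (NB.trans (q2.trans q3))))
  have MG : M ⊆ G k := (h.sat k).1 _ _ hb
    (union_subset (DE.trans ((h.uo j).2.trans UG)) (eW.trans (h.sat k).2))
  have so := sd_open (h.dsc j) hD DE
  have YD : Disjoint Y D := disjoint_left.2 fun x a b => disjoint_left.1 DJ b (h.ye j ⟨a, DE b⟩)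
  have ED : ∀ i, i ≠ j → Disjoint (E i) D := fun i hi => (h.dis hi).mono_right DE
  obtain ⟨Φ, hΦ, f1, f2⟩ := cut_sq (Z := ((Y ∪ ⋃ i ∈ {i | i ≠ j}, E i) ∪ E j \ (D \ c)) ∪
    (O k ∩ U j)ᶜ) hM (((h.cl.union ((toFinite _).isClosed_biUnion fun i _ =>
      (h.dsc i).cpt.isClosed)).union so.1).union ((hF.op k).1.inter (h.uo j).1).isClosed_compl) (by
      rintro x ⟨((a | a) | a) | a, b⟩
      · exact (disjoint_left.1 YD a b).elim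
      · obtain ⟨i, hi, a⟩ := mem_iUnion₂.1 a
        exact (disjoint_left.1 (ED i hi) a b).elim
      · exact by_contra fun a' => a.2 ⟨b, a'⟩
      · exact (a ⟨q3 (q1 (DE b)), (h.uo j).2 (DE b)⟩).elim) oN eN
  have f3 : ∀ i, ∀ x ∈ E i, x ∉ M → Φ x = x := fun i x hx => by
    refine fun hn => f1 x (Or.inl ?_) hn
    rcases eq_or_ne i j with rfl | hi
    · exact Or.inr ⟨hx, fun a => hn (DM a.1)⟩
    · exact Or.inl (Or.inr (mem_iUnion₂.2 ⟨i, hi, hx⟩))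
  have fY : ∀ x ∈ Y, x ∉ M → Φ x = x := fun x hx => f1 x (Or.inl (Or.inl (Or.inl hx)))
  have fO : ∀ x, x ∉ O k ∩ U j → x ∉ M → Φ x = x := fun x hx => f1 x (Or.inr hx)
  have f4 : Mv (O k) Φ := ⟨hΦ, fun x hx => fO x (fun a => hx a.1) fun a => hx (MO a)⟩
  have f5 : ∀ l i, ∀ x ∈ θ l '' cutWl (u' l) (v' l), x ∈ Φ '' E i → x ∈ E i ∧ x ∉ M := by
    rintro l i _ hx ⟨q, hq, rfl⟩
    have a : q ∉ M := fun a => disjoint_left.1 (NW l) (f2 q a) hx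
    rw [f3 i q hq a]
    exact ⟨hq, a⟩
  have f6 : ∀ T, IsPreconnected T → Disjoint T D → Disjoint T e → T ⊆ M ∨ Disjoint T M :=
    fun T a b b' => (hb.side a (disjoint_union_right.2 ⟨b, b'⟩)).imp_left fun a => a.trans sdiff_subset
  have f7 : ∀ i, i ≠ j → E i ⊆ M ∨ Disjoint (E i) M := fun i hi =>
    f6 _ (h.dsc i).conn.isPreconnected (ED i hi) (disjoint_left.2 fun x a b =>
      disjoint_left.1 (ED i hi) a (hD.sub (eE i ⟨b, a⟩)))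
  have g1 : ∀ i, E i ⊆ M → Φ '' E i ⊆ B k ∧ ∀ l, Disjoint (Φ '' E i) (θ l '' cutWl (u' l) (v' l)) :=
    fun i hi =>
      have a : Φ '' E i ⊆ N := image_subset_iff.2 fun x hx => f2 x (hi hx)
      ⟨a.trans NB, fun l => (NW l).mono_left a⟩
  have tr : ∀ l i, ∀ y ∈ cutTr (θ l) (u' l) (v' l) (Φ '' E i), ∀ t ∈ Icc (u' l) (v' l),
      θ l (mk3 y t) ∈ E i ∧ θ l (mk3 y t) ∉ M := by
    rintro l i y ⟨y1, s', y2, y3⟩ t ht
    have w : ∀ t ∈ Icc (u' l) (v' l), θ l (mk3 y t) ∈ θ l '' cutWl (u' l) (v' l) := fun t ht =>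
      mem_image_of_mem _ (cutB_nm y1 (lv' l).1 (lv' l).2.2 ht)
    obtain ⟨a1, a2⟩ := f5 l i _ (w s' y2) y3
    have TE : (fun t => θ l (mk3 y t)) '' Icc (u' l) (v' l) ⊆ E i := image_subset_iff.2
      fun t ht => (h.cw l i).ver y ⟨y1, s', ic l y2, a1⟩ t (ic l ht)
    have Tc : IsPreconnected ((fun t => θ l (mk3 y t)) '' Icc (u' l) (v' l)) :=
      isPreconnected_Icc.image _
        ((hF.lh l).tp.comp ((TP.const y).mk3 TP.id')).continuous.continuousOn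
    have Te : Disjoint ((fun t => θ l (mk3 y t)) '' Icc (u' l) (v' l)) e :=
      (NW l).symm.mono (forall_mem_image.2 w) eN
    refine ⟨TE ⟨t, ht, rfl⟩, disjoint_left.1 ((f6 _ Tc ?_ Te).resolve_left
      fun a => a2 (a ⟨s', y2, rfl⟩)) ⟨t, ht, rfl⟩⟩
    rcases eq_or_ne i j with rfl | hi
    · exact (sd_side (h.dsc i) hD DE Tc TE (Te.mono_right ce)).resolve_left
        fun a => a2 (DM (a ⟨s', y2, rfl⟩).1)
    · exact (ED i hi).mono_left TE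
  refine ⟨Φ, u', v', ⟨hΦ, fun y => ?_, fun y hy => ?_, fun l T h1 h2 h3 h4 => ?_⟩,
    ⟨lv', fun i => (h.dsc i).image hΦ.tp hΦ.inj.injOn,
      fun i l a => disjoint_image_of_injective hΦ.inj (h.dis a), cutD_cl hΦ h.cl,
      fun i => (image_inter hΦ.inj).ge.trans (image_mono (h.ye i)),
      fun l i => ⟨fun y hy t ht => ?_, fun x x1 x2 a => ?_⟩, fun i => ?_, fun i l ⟨x, x1, x2⟩ => ?_,
      fun i => ⟨cutD_op hΦ (h.uo i).1, image_mono (h.uo i).2⟩,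
      fun l => ⟨(h.sat l).1.image hΦ, fun x hx => ?_⟩⟩,
    fun p hp => ⟨hp.1, fun y hy => ?_⟩, fun a => ?_⟩
  · by_cases a : y ∈ M
    · exact Or.inr ⟨k, (EML_mem f4 Subset.rfl).2 (MO a), MG a⟩
    by_cases b : y ∈ O k ∩ U j
    · exact Or.inr ⟨k, (EML_mem f4 Subset.rfl).2 b.1, UG b.2⟩
    · exact Or.inl (fO y b a)
  · exact (em (y ∈ M)).symm.imp (fY y hy) fun a => ⟨k, NB (f2 y a)⟩
  · rcases eq_or_ne l k with rfl | hk
    · have a := (f6 T h2 (YD.mono_left h1) (h3.mono_right (eN.trans NB))).resolve_left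
        fun a => h4 (a.trans MG)
      rwa [cutD_fix fun x hx => fY x (h1 hx) (disjoint_left.1 a hx)]
    · refine disjoint_left.2 ?_
      rintro _ ⟨x, hx, rfl⟩ a
      by_cases b : x ∈ M
      · exact disjoint_left.1 (hF.dis hk) a (NB (f2 x b))
      · exact disjoint_left.1 h3 hx (fY x (h1 hx) b ▸ a)
  · obtain ⟨a, b⟩ := tr l i y hy t ht
    exact ⟨_, a, f3 i _ a b⟩
  · exact (h.cw l i).sid x x1 x2 (f5 l i _ ⟨x, ⟨x1, x2.imp_right Or.inl⟩, rfl⟩ a).1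
  · obtain ⟨l, a | a⟩ := h.pil i
    · have cJ := PDsc.conn_bd (h.dsc i)
      rcases f6 (J i) cJ.isPreconnected (by
        rcases eq_or_ne i j with rfl | hi
        exacts [DJ.symm, (ED i hi).mono_left (h.dsc i).sub]) ((h.missJ hF i k).mono_right eW)
        with b | b
      · refine ⟨k, Or.inr (g1 i ?_)⟩
        rcases eq_or_ne i j with rfl | hi
        · refine sdiff_eq_empty.1 (sd_void (h.dsc i) hD DE (sdiff_subset_sdiff_right b)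
            (disjoint_left.2 fun x a b => a.2 (DM b)) ?_ fun x hx => ?_)
          · rw [Set.sdiff_sdiff_right_self]
            exact (h.dsc i).cpt.isClosed.inter hb.poly.1.isClosed
          · have x1 : x ∈ E i \ (D \ c) :=
              closure_minimal (sdiff_subset_sdiff_right (sdiff_subset.trans DM)) so.1 hx
            rcases hb.closure_out.le (closure_mono (fun _ a => a.2) hx) with x2 | x2 | x2
            · exact Or.inl ⟨x1.1, x2⟩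
            · exact Or.inr (by_contra fun a => x1.2 ⟨x2, a⟩)
            · exact Or.inr (eE i ⟨x2, x1.1⟩)
        · obtain ⟨x, hx⟩ := cJ.nonempty
          exact (f7 i hi).resolve_right fun a => disjoint_left.1 a ((h.dsc i).sub hx) (b hx)
      · refine ⟨l, Or.inl ?_⟩
        rw [cutD_fix fun x hx => f3 i x ((h.dsc i).sub hx) (disjoint_left.1 b hx)]
        exact a.trans (image_mono fun x hx => ⟨hx.1, hx.2.1, hx.2.2.trans_le (lv l).1⟩)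
    · have hi : i ≠ j := by
        rintro rfl
        exact mj.not_disjoint (a.2 k)
      rcases f7 i hi with b | b
      · exact ⟨k, Or.inr (g1 i b)⟩
      · refine ⟨l, Or.inr ?_⟩
        rw [cutD_fix fun x hx => f3 i x hx (disjoint_left.1 b hx)]
        exact ⟨a.1, fun l' => (a.2 l').mono_right (ww l')⟩
  · obtain ⟨a1, a2⟩ := f5 l i x x2 x1
    obtain ⟨b1, b2, b3, b4⟩ := h.hul i l ⟨x, a1, ww l x2⟩
    refine ⟨?_, b2, b3, fun l' a => image_mono (b4 l' a)⟩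
    rintro _ ⟨q, hq, rfl⟩
    by_cases a : q ∈ M
    · rcases eq_or_ne i j with rfl | hi
      · exact q2 (NB (f2 q a))
      · rcases f7 i hi with b | b
        exacts [(a2 (b a1)).elim, (disjoint_left.1 b hq a).elim]
    · rw [f3 i q hq a]
      exact b1 hq
  · obtain ⟨q, rfl⟩ := hΦ.1.2 x
    refine mem_image_of_mem _ ?_
    by_cases b : q ∈ O k ∩ U j
    · exact q4 l ⟨_, (EML_mem f4 Subset.rfl).2 b.1, hF.wl l _ _ hx⟩ b.2
    · rw [fO q b fun a => disjoint_left.1 (NW l) (f2 q a) hx] at hx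
      exact (h.sat l).2 (ww l hx)
  · obtain ⟨i, hi⟩ := mem_iUnion.1 (hp.2 hy)
    obtain ⟨y1, t, ht, -⟩ := id hi
    exact mem_iUnion.2 ⟨i, y1, t, ic _ ht, (tr _ i y hi t ht).1⟩
  · obtain ⟨i, hi⟩ := mem_iUnion.1 ((a hc₀).2 hy₀)
    exact (tr k i y₀ hi s hs').2 (DM hy₁)

theorem cut_ind [Finite μ] [Finite κ] (hF : CFx θ B O) (n : ℕ) :
    ∀ {u v : κ → ℝ} {E J U : μ → Set (Rn 3)} {G : κ → Set (Rn 3)} {Y : Set (Rn 3)},
      CtS θ B O H u v E J U G Y → (CCir θ u v E).ncard = n →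
      ∃ Φ, CutO B O G Y Φ ∧ ∀ j, ∃ k, Φ '' E j ⊆ B k := by
  induction n using Nat.strong_induction_on with
  | _ n ih =>
    intro u v E J U G Y h hn
    by_cases a : ∃ k, (⋃ j, cutTr (θ k) (u k) (v k) (E j)).Nonempty
    · obtain ⟨k, a⟩ := a
      obtain ⟨Φ, u', v', h1, h2, h3⟩ := h.step hF a
      obtain ⟨Ψ, k1, k2⟩ := ih _ (hn ▸ ncard_lt_ncard h3 (h.fin hF)) h2 rfl
      exact ⟨Ψ ∘ Φ, h1.comp k1, fun j => by simpa only [image_comp] using k2 j⟩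
    · refine ⟨id, ⟨LH.id', fun _ => Or.inl rfl, fun _ _ => Or.inl rfl, fun _ _ _ _ b _ => ?_⟩,
        fun j => ?_⟩
      · rwa [image_id]
      · rw [image_id]
        exact h.fine hF (not_exists.1 a) j

theorem cut_main [Finite μ] [Finite κ] {c : κ → Rn 3} {R : κ → ℝ} {ρ a : ℝ}
    (hR : ∀ k, 0 < R k ∧ R k ≤ ρ)
    (hB : Pairwise fun k l => Disjoint (ball (c k) (R k)) (ball (c l) (R l)))
    (hE : ∀ j, PDsc (E j) (J j)) (hd : Pairwise fun j l => Disjoint (E j) (E l))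
    (hU : ∀ j, IsOpen (U j) ∧ E j ⊆ U j ∧ ∀ x ∈ U j, ∀ y ∈ U j, dist x y ≤ a) (ha : 0 ≤ a)
    (hJ : ∀ j, ∃ k, J j ⊆ ball (c k) (R k)) (hY : IsClosed Y) (hYE : ∀ j, Y ∩ E j ⊆ J j) :
    ∃ Φ, CutO (fun k => ball (c k) (R k)) (fun k => ball (c k) (3 * ρ + a))
      (fun k => ball (c k) (5 * ρ + 2 * a)) Y Φ ∧ ∀ j, ∃ k, Φ '' E j ⊆ ball (c k) (R k) := by
  choose r hr hr' using fun k => exists_pos_lt_subset_ball (hR k).1
    ((toFinite {j | J j ⊆ ball (c k) (R k)}).isClosed_biUnion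
      fun j _ => (hE j).poly'.1.isClosed) (iUnion₂_subset fun j hj => hj)
  obtain ⟨Ψ, h1, h2, h3⟩ := cut_walls hE (r := r) hr hB
  choose θ u v a1 a2 a3 a4 a5 a6 a7 using h3
  have hF : CFx θ (fun k => ball (c k) (R k)) fun k => ball (c k) (3 * ρ + a) :=
    ⟨a1, a2, hB, fun k => ⟨isOpen_ball, convex_ball _ _⟩⟩
  have b1 : ∀ k, ball (c k) (R k) ⊆ ball (c k) (3 * ρ + a) := fun k =>
    ball_subset_ball (by linarith [(hR k).1, (hR k).2])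
  have b2 : ∀ k, ball (c k) (R k) ⊆ ball (c k) (5 * ρ + 2 * a) := fun k =>
    ball_subset_ball (by linarith [(hR k).1, (hR k).2])
  have b3 : ∀ y, Ψ y = y ∨ ∃ k, y ∈ ball (c k) (R k) := fun y =>
    (em _).symm.imp (h1.2 y) fun e => (mem_iUnion.1 e).imp fun k e => e.1
  have b4 : ∀ j k, (E j ∩ ball (c k) (R k)).Nonempty → ∀ x ∈ U j, dist x (c k) < ρ + a :=
    fun j k ⟨p, p1, p2⟩ x hx => by
      linarith [dist_triangle x p (c k), (hU j).2.2 x hx p ((hU j).2.1 p1), mem_ball.1 p2, (hR k).2]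
  suffices hS : CtS θ (fun k => ball (c k) (R k)) (fun k => ball (c k) (3 * ρ + a))
      (fun j => E j ∪ ⋃ k ∈ {k | (E j ∩ ball (c k) (R k)).Nonempty}, ball (c k) (R k)) u v
      (fun j => Ψ '' E j) (fun j => Ψ '' J j) (fun j => Ψ '' U j)
      (fun k => Ψ '' ball (c k) (5 * ρ + 2 * a)) (Ψ '' Y) by
    obtain ⟨Φ, k1, k2⟩ := cut_ind hF _ hS rfl
    refine ⟨Φ ∘ Ψ, CutO.comp ⟨h1.1, fun y => (b3 y).imp_right fun ⟨k, e⟩ =>
      ⟨k, b1 k ((h2 k y).2 e), b2 k e⟩, fun y _ => (b3 y).imp_right fun ⟨k, e⟩ =>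
      ⟨k, (h2 k y).2 e⟩, fun k T _ _ e _ => disjoint_left.2 ?_⟩ k1,
      fun j => by simpa only [image_comp] using k2 j⟩
    rintro _ ⟨x, hx, rfl⟩ e'
    exact disjoint_left.1 e hx ((h2 k x).1 e')
  refine ⟨fun k => ⟨a3 k, a4 k, a5 k⟩, fun j => (hE j).image h1.1.tp h1.1.inj.injOn,
    fun i l e => disjoint_image_of_injective h1.1.inj (hd e), cutD_cl h1.1 hY,
    fun i => (image_inter h1.1.inj).ge.trans (image_mono (hYE i)), a7, fun j => ?_,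
    fun j k ⟨x, x1, x2⟩ => ?_, fun j => ⟨cutD_op h1.1 (hU j).1, image_mono (hU j).2.1⟩,
    fun k => ⟨CSat.image (fun M S e => e.sub_convex (by norm_num) (convex_ball _ _)) h1.1,
      fun x hx => ?_⟩⟩
  · obtain ⟨k, hk⟩ := hJ j
    have e : J j ⊆ closedBall (c k) (r k) :=
      ((subset_iUnion₂ (s := fun j (_ : j ∈ {j | J j ⊆ ball (c k) (R k)}) => J j) j hk).trans
        (hr' k)).trans ball_subset_closedBall
    refine ⟨k, Or.inl ?_⟩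
    rw [cutD_fix fun x hx => h1.2 x fun e' => ?_]
    · exact e.trans (a6 k)
    · obtain ⟨l, hl⟩ := mem_iUnion.1 e'
      rcases eq_or_ne l k with rfl | e2
      exacts [hl.2 (e hx), disjoint_left.1 (hB e2) hl.1 (hk hx)]
  · obtain ⟨q, hq, rfl⟩ := x1
    have e : (E j ∩ ball (c k) (R k)).Nonempty := ⟨q, hq, (h2 k q).1 (hF.wl k _ _ x2)⟩
    refine ⟨?_, fun z hz => Or.inr (mem_iUnion₂.2 ⟨k, e, hz⟩), ?_,
      fun l ⟨z, z1, z2⟩ => image_mono fun y hy => ?_⟩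
    · rintro _ ⟨y, hy, rfl⟩
      rcases b3 y with e' | ⟨l, e'⟩
      · exact Or.inl (e'.symm ▸ hy)
      · exact Or.inr (mem_iUnion₂.2 ⟨l, ⟨y, hy, e'⟩, (h2 l y).2 e'⟩)
    · rintro z (hz | hz)
      · exact mem_ball.2 (by linarith [b4 j k e z ((hU j).2.1 hz), (hR k).1, (hR k).2])
      · obtain ⟨l, ⟨p, p1, p2⟩, hz⟩ := mem_iUnion₂.1 hz
        exact mem_ball.2 (by
          linarith [b4 j k e p ((hU j).2.1 p1), (hR l).2, mem_ball.1 p2,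
            mem_ball.1 hz, dist_triangle z p (c k), dist_triangle_right z p (c l)])
    · exact mem_ball.2 (by
        linarith [b4 j k e y hy, (hR l).2, mem_ball.1 z1, mem_ball.1 z2,
          dist_triangle y (c k) (c l), dist_triangle_left (c k) (c l) z])
  · obtain ⟨q, rfl⟩ := h1.1.1.2 x
    exact mem_image_of_mem _ (b2 k ((h2 k q).1 (hF.wl k _ _ hx)))

end BEp
end
end

-- merged part: Pool.Agent.Work.MP_f0515e_an.P2.QCr
section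
/-! The crush. `ζ i l s = (volume (Iic s ∩ ⋃ β ∈ 𝔅 i, Icc (β.1 l - β.2) (β.1 l + β.2))).toReal` is monotone, 1-Lipschitz, of slope one on the intervals, between `0` and `2 ϱ i`; `π i l s = s - ζ i l s`;
`α i y = max 0 (a i + w i - infDist y (Y i)) / 4` (zero if `Y i` is empty); `Ξ y l = y l - max 0 (max over i of min (ζ i l (y l)) (α i y))`. -/

open Set Metric Filter Topology Function BEv MeasureTheory
open scoped NNReal ENNReal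

noncomputable section
namespace BEp

theorem QCr_pi (l : Fin 3) (𝔅 : Finset (Rn 3 × ℝ)) (h0 : ∀ β ∈ 𝔅, 0 ≤ β.2) :
    ∃ π : ℝ → ℝ, (∀ s s', s ≤ s' → π s ≤ π s' ∧ π s' - π s ≤ s' - s) ∧
      (∀ s, 0 ≤ s - π s ∧ s - π s ≤ 2 * ∑ β ∈ 𝔅, β.2) ∧
      ∀ β ∈ 𝔅, ∀ s s', |s - β.1 l| ≤ β.2 → |s' - β.1 l| ≤ β.2 → π s = π s' := by
  classical
  induction 𝔅 using Finset.induction_on with
  | empty => exact ⟨id, fun s s' h => ⟨h, le_rfl⟩, fun s => by simp, fun β hβ => by simp at hβ⟩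
  | insert b 𝔅 hb ih =>
    obtain ⟨π, m, e, c⟩ := ih fun β hβ => h0 β (Finset.mem_insert_of_mem hβ)
    have hb0 : 0 ≤ b.2 := h0 b (Finset.mem_insert_self _ _)
    obtain ⟨hAB, hBA⟩ := m (b.1 l - b.2) (b.1 l + b.2) (by linarith)
    refine ⟨fun s => min (π s) (π (b.1 l - b.2)) + max 0 (π s - π (b.1 l + b.2)),
      fun s s' h => ?_, fun s => ?_, fun β hβ s s' hs hs' => ?_⟩
    · obtain ⟨h1, h2⟩ := m s s' h
      constructor <;> simp only [min_def, max_def] <;> split_ifs <;> linarith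
    · obtain ⟨h1, h2⟩ := e s
      rw [Finset.sum_insert hb]
      constructor <;> simp only [min_def, max_def] <;> split_ifs <;> linarith
    · rcases Finset.mem_insert.1 hβ with rfl | hβ
      · rw [abs_le] at hs hs'
        have a1 := (m (β.1 l - β.2) s (by linarith)).1
        have a2 := (m s (β.1 l + β.2) (by linarith)).1
        have a3 := (m (β.1 l - β.2) s' (by linarith)).1
        have a4 := (m s' (β.1 l + β.2) (by linarith)).1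
        show min _ _ + max _ _ = min _ _ + max _ _
        rw [min_eq_right a1, min_eq_right a3, max_eq_left (by linarith), max_eq_left (by linarith)]
      · show min _ _ + max _ _ = min _ _ + max _ _
        rw [c β hβ s s' hs hs']

theorem QCr_al (Y : Set (Rn 3)) (hY : IsCompact Y) (a w : ℝ) :
    ∃ α : Rn 3 → ℝ, (∀ y, 0 ≤ α y) ∧ (∀ x y, α x ≤ α y + ‖x - y‖ / 4) ∧
      (∀ y, y ∉ nb Y (a + w) → α y = 0) ∧ ∀ y ∈ nb Y a, w / 4 ≤ α y := by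
  rcases Y.eq_empty_or_nonempty with rfl | hne
  · refine ⟨fun _ => 0, fun _ => le_rfl, fun x y => by positivity, fun _ _ => rfl, ?_⟩
    rintro y ⟨x, hx, -⟩
    exact hx.elim
  refine ⟨fun y => max 0 (a + w - infDist y Y) / 4, fun y => by positivity, fun x y => ?_,
    fun y hy => ?_, ?_⟩
  · have h1 : infDist y Y ≤ infDist x Y + dist y x := infDist_le_infDist_add_dist
    rw [dist_comm, dist_eq_norm] at h1
    have h2 := norm_nonneg (x - y)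
    simp only [max_def]
    split_ifs <;> linarith
  · obtain ⟨x, hx, e⟩ := hY.exists_infDist_eq_dist hne y
    have h1 : ¬ ‖y - x‖ ≤ a + w := fun h => hy ⟨x, hx, h⟩
    rw [dist_eq_norm] at e
    show max _ _ / 4 = 0
    rw [max_eq_left (by rw [e]; linarith [not_le.1 h1]), zero_div]
  · rintro y ⟨x, hx, h⟩
    have h1 : infDist y Y ≤ dist y x := infDist_le_dist_of_mem hx
    rw [dist_eq_norm] at h1
    have h2 := le_max_right 0 (a + w - infDist y Y)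
    show _ ≤ max _ _ / 4
    linarith

theorem crush {ι : Type} [Finite ι] (Y : ι → Set (Rn 3)) (hY : ∀ i, IsCompact (Y i))
    (a w ϱ : ι → ℝ) (𝔅 : ι → Finset (Rn 3 × ℝ)) (h0 : ∀ i, ∀ β ∈ 𝔅 i, 0 ≤ β.2)
    (h1 : ∀ i, ∑ β ∈ 𝔅 i, β.2 ≤ ϱ i) (h2 : ∀ i, 8 * ϱ i ≤ w i)
    (hd : ∀ i j, i ≠ j → Disjoint (nb (Y i) (a i + w i)) (nb (Y j) (a j + w j))) :
    ∃ (Ξ : Rn 3 → Rn 3) (π : ι → Fin 3 → ℝ → ℝ), Accr Ξ ∧
      (∀ y y', ‖Ξ y - Ξ y'‖ ≤ 4 / 3 * ‖y - y'‖) ∧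
      (∀ y, (∀ i, y ∉ nb (Y i) (a i + w i)) → Ξ y = y) ∧
      (∀ i, ∀ y ∈ nb (Y i) (a i + w i), ‖Ξ y - y‖ ≤ 2 * ϱ i) ∧
      (∀ i l s s', s ≤ s' → π i l s ≤ π i l s' ∧ π i l s' - π i l s ≤ s' - s) ∧
      (∀ i, ∀ y ∈ nb (Y i) (a i), ∀ l, Ξ y l = π i l (y l)) ∧
      ∀ i, ∀ β ∈ 𝔅 i, ∀ l s s', |s - β.1 l| ≤ β.2 → |s' - β.1 l| ≤ β.2 → π i l s = π i l s' := by
  choose π πm πe πc using fun i l => QCr_pi l (𝔅 i) (h0 i)
  choose α α0 αl αz αw using fun i => QCr_al (Y i) (hY i) (a i) (w i)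
  have ϱ0 : ∀ i, 0 ≤ ϱ i := fun i => (Finset.sum_nonneg (h0 i)).trans (h1 i)
  have ζ1 : ∀ i l s, s - π i l s ≤ 2 * ϱ i := fun i l s => by
    have := (πe i l s).2
    linarith [h1 i]
  set T : Fin 3 → Rn 3 → ι → ℝ := fun l y i => min (y l - π i l (y l)) (α i y) with hT
  have T0 : ∀ l y i, 0 ≤ T l y i := fun l y i => le_min (πe i l _).1 (α0 i y)
  have G0 : ∀ l y, 0 ≤ ⨆ i, T l y i := fun l y => Real.iSup_nonneg (T0 l y)
  have Gle : ∀ l y i, T l y i ≤ ⨆ i, T l y i := fun l y i =>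
    le_ciSup (Finite.bddAbove_range (T l y)) i
  have key : ∀ l x y d, 0 ≤ d → (∀ i, x l - π i l (x l) ≤ y l - π i l (y l) + d) →
      ‖x - y‖ / 4 ≤ d → ⨆ i, T l x i ≤ (⨆ i, T l y i) + d := fun l x y d d0 e1 e2 => by
    refine Real.iSup_le (fun i => ?_) (add_nonneg (G0 l y) d0)
    refine le_trans ?_ (add_le_add_left (Gle l y i) d)
    have a1 := e1 i
    have a2 := αl i x y
    have a3 : T l x i ≤ x l - π i l (x l) := min_le_left _ _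
    have a4 : T l x i ≤ α i x := min_le_right _ _
    show _ ≤ min _ _ + d
    rw [← min_add_add_right]
    exact le_min (by linarith) (by linarith)
  have up : ∀ i, ∀ y ∈ nb (Y i) (a i + w i), ∀ l, ⨆ j, T l y j ≤ y l - π i l (y l) :=
    fun i y hy l => by
      refine Real.iSup_le (fun j => ?_) (πe i l _).1
      by_cases hj : i = j
      · subst hj
        exact min_le_left _ _
      · have := αz j y (Set.disjoint_left.1 (hd i j hj) hy)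
        exact (min_le_right _ _).trans (this.le.trans (πe i l _).1)
  have one : ∀ x y : Rn 3, ∀ l, (x l - ⨆ i, T l x i) - (y l - ⨆ i, T l y i) ≤ 4 / 3 * ‖x - y‖ :=
    fun x y l => by
      have n1 : |x l - y l| ≤ ‖x - y‖ := by
        simpa using norm_le_pi_norm (x - y) l
      have n0 := norm_nonneg (x - y)
      rw [abs_le] at n1
      have := key l y x (4 / 3 * ‖x - y‖ - (x l - y l)) (by linarith) (fun i => ?_)
        (by rw [norm_sub_rev]; linarith)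
      · linarith
      · rcases le_total (x l) (y l) with h | h
        · have := (πm i l _ _ h).1
          linarith
        · have := (πm i l _ _ h).2
          linarith
  refine ⟨fun y l => y l - ⨆ i, T l y i, π, fun x y l h => ?_, fun y y' => ?_, fun y hy => ?_,
    fun i y hy => ?_, fun i l => πm i l, fun i y hy l => ?_, fun i β hβ l => πc i l β hβ⟩
  · have n0 := norm_nonneg (x - y)
    have := key l x y (x l - y l) (by linarith) (fun i => ?_) (by linarith)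
    · show y l - _ ≤ x l - _
      linarith
    · have := (πm i l (y l) (x l) (by linarith)).1
      linarith
  · refine (pi_norm_le_iff_of_nonneg (by positivity)).2 fun l => ?_
    rw [Pi.sub_apply, Real.norm_eq_abs, abs_le]
    have a1 := one y y' l
    have a2 := one y' y l
    rw [norm_sub_rev] at a2
    constructor <;> linarith
  · funext l
    have : ⨆ i, T l y i ≤ 0 :=
      Real.iSup_le (fun i => (min_le_right _ _).trans (αz i y (hy i)).le) le_rfl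
    have := G0 l y
    show y l - _ = y l
    linarith
  · refine (pi_norm_le_iff_of_nonneg (by linarith [ϱ0 i])).2 fun l => ?_
    rw [Pi.sub_apply, Real.norm_eq_abs, abs_le]
    have a1 := up i y hy l
    have a2 := G0 l y
    have a3 := ζ1 i l (y l)
    have a4 := ϱ0 i
    constructor <;> linarith
  · have hy' : y ∈ nb (Y i) (a i + w i) := by
      obtain ⟨x, hx, h⟩ := hy
      exact ⟨x, hx, by linarith [ϱ0 i, h2 i]⟩
    have a1 := up i y hy' l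
    have a2 := Gle l y i
    have a3 : T l y i = y l - π i l (y l) :=
      min_eq_left (by linarith [ζ1 i l (y l), αw i y hy, h2 i])
    show y l - _ = _
    linarith

end BEp
end
end
end

-- merged part: Pool.Agent.Work.MP_f0515e_an.P2.QLoop
section
-- merged part: Pool.Agent.Work.MP_f0515e_an.P2.QL1
section
/-! The grid. `grid_ex`: each edge lies in two squares; the edges in direction `a` fill the lines `t ↦ update (fun _ => u + j h) a t`; the integral over `u ∈ [0, h)` of the sum over `j` of the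
line integrals is `∫ W` (Tonelli, `lintegral_iUnion`, `volume_preserving_finTwoArrow` or `measurePreserving_piFinTwo`); `exists_notMem_null_le_laverage` (see `sel_t`, P3/SGr2, D3/GInd).
`gsq_osc`: at most two edges. `gin_mul`: Cauchy-Schwarz on each edge, `a b ≤ (θ a² + b² / θ) / 2`. -/

open Set Metric Filter Topology Function BEv MeasureTheory
open scoped NNReal ENNReal

noncomputable section
namespace BEp

def vtx (h u : ℝ) (z : Fin 2 → ℤ) : Rn 2 := fun a => u + z a * h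

/-- Closed square, its boundary and its corners. -/
def gsq (h u : ℝ) (z : Fin 2 → ℤ) : Set (Rn 2) :=
  {ξ | ∀ a, vtx h u z a ≤ ξ a ∧ ξ a ≤ vtx h u z a + h}

def gbd (h u : ℝ) (z : Fin 2 → ℤ) : Set (Rn 2) :=
  {ξ | ξ ∈ gsq h u z ∧ ∃ a, ξ a = vtx h u z a ∨ ξ a = vtx h u z a + h}

def gvx (h u : ℝ) (z : Fin 2 → ℤ) : Set (Rn 2) :=
  {ξ | ∀ a, ξ a = vtx h u z a ∨ ξ a = vtx h u z a + h}

/-- Integral over the boundary of a square. -/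
def gin (h u : ℝ) (W : Rn 2 → ℝ≥0∞) (z : Fin 2 → ℤ) : ℝ≥0∞ :=
  ∑ a : Fin 2, ((∫⁻ t in Icc (vtx h u z a) (vtx h u z a + h), W (update (vtx h u z) a t)) +
    ∫⁻ t in Icc (vtx h u z a) (vtx h u z a + h), W (update (fun b => vtx h u z b + h) a t))

theorem QL1_up (ξ : Rn 2) (a : Fin 2) (t : ℝ) : update ξ a t = update (fun _ => ξ a.rev) a t := by
  funext c
  fin_cases a <;> fin_cases c <;> rfl

theorem QL1_sum (φ : ℝ → ℝ≥0∞) {h : ℝ} (hh : 0 < h) (u : ℝ) :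
    ∑' i : ℤ, ∫⁻ t in Icc (u + i * h) (u + i * h + h), φ t = ∫⁻ t, φ t := by
  have k := lintegral_iUnion (μ := volume) (fun _ => measurableSet_Ico)
    (pairwise_disjoint_Ico_add_zsmul u h) φ
  rw [iUnion_Ico_add_zsmul hh u, Measure.restrict_univ] at k
  rw [k]
  refine tsum_congr fun i => ?_
  rw [← setLIntegral_congr Ico_ae_eq_Icc, add_smul, one_smul, zsmul_eq_mul, add_assoc]

theorem QL1_avg {φ : ℝ → ℝ≥0∞} (hφ : Measurable φ) {h : ℝ} (hh : 0 < h) :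
    ∫⁻ u in Icc 0 h, ∑' j : ℤ, φ (u + j * h) = ∫⁻ t, φ t := by
  rw [lintegral_tsum (f := fun (j : ℤ) (u : ℝ) => φ (u + j * h))
    fun j => (hφ.comp (measurable_add_const _)).aemeasurable, ← QL1_sum φ hh 0]
  refine tsum_congr fun j => ?_
  rw [← (measurePreserving_add_right volume (j * h)).setLIntegral_comp_preimage_emb
    (measurableEmbedding_addRight _) φ, preimage_add_const_Icc, add_sub_cancel_right, zero_add,
    add_sub_cancel_left]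

/-- The integral over a line. -/
def QL1_ln (W : Rn 2 → ℝ≥0∞) (a : Fin 2) (s : ℝ) : ℝ≥0∞ := ∫⁻ t, W (update (fun _ => s) a t)

theorem QL1_ms {W : Rn 2 → ℝ≥0∞} (hW : Measurable W) (a : Fin 2) :
    Measurable fun p : ℝ × ℝ => W (update (fun _ => p.1) a p.2) :=
  hW.comp (measurable_update'.comp
    ((measurable_pi_lambda _ fun _ => measurable_fst).prodMk measurable_snd))

theorem QL1_int {W : Rn 2 → ℝ≥0∞} (hW : Measurable W) (a : Fin 2) :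
    ∫⁻ s, QL1_ln W a s = ∫⁻ ξ, W ξ := by
  have k := (volume_preserving_finTwoArrow ℝ).symm.lintegral_comp hW
  have m := (hW.comp (MeasurableEquiv.finTwoArrow (α := ℝ)).symm.measurable).aemeasurable
    (μ := (volume : Measure ℝ).prod volume)
  rw [← k, Measure.volume_eq_prod]
  fin_cases a
  · refine Eq.trans ?_ (lintegral_prod_symm _ m).symm
    refine lintegral_congr fun s => lintegral_congr fun t => congrArg W (funext fun c => ?_)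
    fin_cases c <;> rfl
  · refine Eq.trans ?_ (lintegral_prod _ m).symm
    refine lintegral_congr fun s => lintegral_congr fun t => congrArg W (funext fun c => ?_)
    fin_cases c <;> rfl

theorem QL1_ts (F : ℤ → ℤ → ℝ≥0∞) (a : Fin 2) :
    ∑' z : Fin 2 → ℤ, F (z a.rev) (z a) = ∑' j, ∑' i, F j i := by
  rw [← (finTwoArrowEquiv ℤ).symm.tsum_eq, ENNReal.tsum_prod']
  fin_cases a
  · exact ENNReal.tsum_comm
  · rfl

/-- The integral over all the lines of the grid. -/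
def QL1_S (h : ℝ) (W : Rn 2 → ℝ≥0∞) (u : ℝ) : ℝ≥0∞ := ∑ a, ∑' j : ℤ, QL1_ln W a (u + j * h)

theorem QL1_tot (W : Rn 2 → ℝ≥0∞) {h : ℝ} (hh : 0 < h) (u : ℝ) :
    ∑' z, gin h u W z = 2 * QL1_S h W u := by
  simp only [gin]
  rw [Summable.tsum_finsetSum fun _ _ => ENNReal.summable, QL1_S, Finset.mul_sum]
  refine Finset.sum_congr rfl fun a _ => ?_
  have k : ∀ c : ℝ, ∑' z : Fin 2 → ℤ, ∫⁻ t in Icc (vtx h u z a) (vtx h u z a + h),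
      W (update (fun b => vtx h u z b + c) a t) = ∑' j : ℤ, QL1_ln W a (u + j * h + c) := fun c => by
    simp only [fun z : Fin 2 → ℤ => QL1_up (fun b => vtx h u z b + c) a]
    exact (QL1_ts (fun j i => ∫⁻ t in Icc (u + i * h) (u + i * h + h),
      W (update (fun _ => u + j * h + c) a t)) a).trans (tsum_congr fun j => QL1_sum _ hh u)
  have k0 := k 0
  simp only [add_zero] at k0
  rw [ENNReal.tsum_add, k h, two_mul]
  refine congrArg₂ (· + ·) k0 ?_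
  rw [← (Equiv.addRight (1 : ℤ)).tsum_eq fun j : ℤ => QL1_ln W a (u + j * h)]
  refine tsum_congr fun j => congrArg _ ?_
  simp only [Equiv.coe_addRight]
  push_cast
  ring

theorem QL1_mS {W : Rn 2 → ℝ≥0∞} (hW : Measurable W) {h : ℝ} (hh : 0 < h) :
    Measurable (QL1_S h W) ∧ ∫⁻ u in Icc 0 h, QL1_S h W u = 2 * ∫⁻ ξ, W ξ := by
  have m : ∀ a, Measurable (QL1_ln W a) := fun a => (QL1_ms hW a).lintegral_prod_right'
  have m' : ∀ a, Measurable fun u : ℝ => ∑' j : ℤ, QL1_ln W a (u + j * h) := fun a =>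
    Measurable.tsum fun j => (m a).comp (measurable_add_const _)
  refine ⟨Finset.measurable_sum _ fun a _ => m' a, ?_⟩
  simp only [QL1_S]
  rw [lintegral_finsetSum _ fun a _ => m' a]
  simp only [fun a => QL1_avg (m a) hh, QL1_int hW]
  rw [Fin.sum_univ_two, two_mul]

theorem grid_ex {W v : Rn 2 → ℝ≥0∞} (hW : Measurable W) (hv : Measurable v) (hi : ∫⁻ ξ, v ξ ≠ ⊤)
    {h : ℝ} (hh : 0 < h) : ∃ u, (∀ z, gin h u v z ≠ ⊤) ∧
      ENNReal.ofReal h * ∑' z, gin h u W z ≤ 4 * ∫⁻ ξ, W ξ := by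
  obtain ⟨m1, e1⟩ := QL1_mS hW hh
  obtain ⟨m2, e2⟩ := QL1_mS hv hh
  have e3 : (volume.restrict (Icc 0 h)) univ = ENNReal.ofReal h := by simp
  have h0 : ENNReal.ofReal h ≠ 0 := (ENNReal.ofReal_pos.2 hh).ne'
  have hN := ae_iff.1 (ae_lt_top m2 (e2 ▸ ENNReal.mul_ne_top (by norm_num) hi))
  obtain ⟨u, u1, u2⟩ := exists_notMem_null_le_laverage (μ := volume.restrict (Icc 0 h))
    (fun e => h0 (by rw [← e3, e]; rfl)) m1.aemeasurable hN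
  refine ⟨u, fun z => ne_top_of_le_ne_top ?_ (ENNReal.le_tsum z), ?_⟩
  · rw [QL1_tot v hh]
    exact ENNReal.mul_ne_top (by norm_num) (not_not.1 u1).ne
  · rw [laverage_eq, e1, e3] at u2
    rw [QL1_tot W hh, mul_left_comm]
    refine (mul_le_mul_right ((mul_le_mul_right u2 _).trans ENNReal.mul_div_le) 2).trans_eq ?_
    rw [← mul_assoc]
    norm_num

theorem QL1_mem {h u : ℝ} (hh : 0 < h) {z : Fin 2 → ℤ} {ξ : Rn 2} {a : Fin 2}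
    (k : ξ a.rev = vtx h u z a.rev ∨ ξ a.rev = vtx h u z a.rev + h) {t : ℝ}
    (ht : t ∈ Icc (vtx h u z a) (vtx h u z a + h)) : update ξ a t ∈ gbd h u z := by
  have n : a.rev ≠ a := by fin_cases a <;> decide
  refine ⟨fun c => ?_, a.rev, by rwa [update_of_ne n]⟩
  by_cases e : c = a
  · rwa [e, update_self]
  · have e' : c = a.rev := by fin_cases a <;> fin_cases c <;> first | rfl | exact absurd rfl e
    rw [update_of_ne e, e']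
    rcases k with k | k <;> rw [k] <;> constructor <;> linarith

/-- The part of the boundary integral in one direction. -/
def QL1_E (h u : ℝ) (W : Rn 2 → ℝ≥0∞) (z : Fin 2 → ℤ) (a : Fin 2) : ℝ≥0∞ :=
  (∫⁻ t in Icc (vtx h u z a) (vtx h u z a + h), W (update (vtx h u z) a t)) +
    ∫⁻ t in Icc (vtx h u z a) (vtx h u z a + h), W (update (fun b => vtx h u z b + h) a t)

theorem QL1_two (h u : ℝ) (W : Rn 2 → ℝ≥0∞) (z : Fin 2 → ℤ) (a : Fin 2) :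
    gin h u W z = QL1_E h u W z a.rev + QL1_E h u W z a := by
  refine (Fin.sum_univ_two (QL1_E h u W z)).trans ?_
  fin_cases a
  · exact add_comm _ _
  · rfl

theorem QL1_le {h u : ℝ} (W : Rn 2 → ℝ≥0∞) {z : Fin 2 → ℤ} {ξ : Rn 2} {a : Fin 2}
    (k : ξ a.rev = vtx h u z a.rev ∨ ξ a.rev = vtx h u z a.rev + h) {s s' : ℝ}
    (hs : Icc s s' ⊆ Icc (vtx h u z a) (vtx h u z a + h)) :
    ∫⁻ t in Icc s s', W (update ξ a t) ≤ QL1_E h u W z a := by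
  refine (lintegral_mono_set hs).trans ?_
  simp only [QL1_E, QL1_up ξ, QL1_up (vtx h u z), QL1_up fun b => vtx h u z b + h]
  rcases k with k | k <;> rw [k]
  exacts [le_self_add, le_add_self]

theorem QL1_edge {F : Type} [NormedAddCommGroup F] {U : Set (Rn 2)} {k : Rn 2 → F}
    {v G : Rn 2 → ℝ≥0∞} (hk : UgA U k v G) {h u : ℝ} (hh : 0 < h) {z : Fin 2 → ℤ}
    (hs : gbd h u z ⊆ U) (hv : gin h u v z ≠ ⊤) {ξ : Rn 2} {a : Fin 2}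
    (e : ξ a.rev = vtx h u z a.rev ∨ ξ a.rev = vtx h u z a.rev + h) {s s' : ℝ}
    (h1 : s ∈ Icc (vtx h u z a) (vtx h u z a + h)) (h2 : s' ∈ Icc (vtx h u z a) (vtx h u z a + h)) :
    ‖k (update ξ a s') - k (update ξ a s)‖ₑ ≤ QL1_E h u G z a := by
  wlog c : s ≤ s' generalizing s s'
  · rw [enorm_sub_rev]
    exact this h2 h1 (le_of_not_ge c)
  have sub := Icc_subset_Icc h1.1 h2.2
  refine (hk ξ a s s' c (fun t ht => hs (QL1_mem hh e (sub ht))) (ne_top_of_le_ne_top hv ?_)).trans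
    (QL1_le G e sub)
  rw [QL1_two h u v z a]
  exact (QL1_le v e sub).trans le_add_self

theorem gsq_osc {F : Type} [NormedAddCommGroup F] {U : Set (Rn 2)} {k : Rn 2 → F}
    {v G : Rn 2 → ℝ≥0∞} (hk : UgA U k v G) {h u : ℝ} (hh : 0 < h) {z : Fin 2 → ℤ}
    (hs : gbd h u z ⊆ U) (hv : gin h u v z ≠ ⊤) :
    ∀ ξ ∈ gbd h u z, ∀ ξ' ∈ gvx h u z, ‖k ξ - k ξ'‖ₑ ≤ gin h u G z := by
  rintro ξ ⟨h1, a, h2⟩ ξ' h3
  have h4 : ∀ c, ξ' c ∈ Icc (vtx h u z c) (vtx h u z c + h) := fun c => by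
    rcases h3 c with e | e <;> rw [e] <;> constructor <;> linarith
  have k1 := QL1_edge hk hh hs hv (ξ := ξ) (a := a.rev) (by rwa [Fin.rev_rev]) (h4 _) (h1 _)
  have k2 := QL1_edge hk hh hs hv (ξ := ξ') (a := a) (h3 _) (h4 _) (h1 _)
  have e : update ξ a.rev (ξ' a.rev) = update ξ' a (ξ a) := by
    funext c
    fin_cases a <;> fin_cases c <;> rfl
  rw [update_eq_self] at k1 k2
  rw [e] at k1
  rw [QL1_two h u G z a, ← sub_add_sub_cancel _ (k (update ξ' a (ξ a)))]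
  exact (enorm_add_le _ _).trans (add_le_add k1 k2)

theorem QL1_am {θ : ℝ} (hθ : 0 < θ) (a b : ℝ≥0∞) :
    2 * (a * b) ≤ ENNReal.ofReal θ * a ^ 2 + ENNReal.ofReal θ⁻¹ * b ^ 2 := by
  rcases eq_or_ne a ⊤ with rfl | ha
  · simp [hθ]
  rcases eq_or_ne b ⊤ with rfl | hb
  · simp [hθ]
  lift a to ℝ≥0 using ha
  lift b to ℝ≥0 using hb
  lift θ to ℝ≥0 using hθ.le
  rw [← NNReal.coe_inv, ENNReal.ofReal_coe_nnreal, ENNReal.ofReal_coe_nnreal]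
  have k : (2 : ℝ) * (a * b) ≤ θ * a ^ 2 + (θ : ℝ)⁻¹ * b ^ 2 := by
    have e : (θ : ℝ) * a ^ 2 + (θ : ℝ)⁻¹ * b ^ 2 - 2 * (a * b) = (θ * a - b) ^ 2 / θ := by
      field_simp
      ring
    have : 0 ≤ ((θ : ℝ) * a - b) ^ 2 / θ := by positivity
    linarith
  exact_mod_cast k

theorem QL1_ms2 (h u : ℝ) (z : Fin 2 → ℤ) : ∃ μ : Measure (Rn 2),
    ∀ W : Rn 2 → ℝ≥0∞, Measurable W → gin h u W z = ∫⁻ ξ, W ξ ∂μ := by
  refine ⟨∑ a, ((volume.restrict (Icc (vtx h u z a) (vtx h u z a + h))).map (update (vtx h u z) a) +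
    (volume.restrict (Icc (vtx h u z a) (vtx h u z a + h))).map
      (update (fun b => vtx h u z b + h) a)), fun W hW => ?_⟩
  rw [lintegral_finsetSum_measure]
  refine Finset.sum_congr rfl fun a _ => ?_
  rw [lintegral_add_measure, lintegral_map hW (measurable_update _),
    lintegral_map hW (measurable_update _)]

theorem gin_mul {G P : Rn 2 → ℝ≥0∞} (hG : Measurable G) (hP : Measurable P) {h u θ : ℝ}
    (hh : 0 < h) (hθ : 0 < θ) (z : Fin 2 → ℤ) : gin h u G z * gin h u P z ≤ ENNReal.ofReal (2 * h) *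
      gin h u (fun ξ => ENNReal.ofReal θ * G ξ ^ 2 + ENNReal.ofReal θ⁻¹ * P ξ ^ 2) z := by
  obtain ⟨μ, hμ⟩ := QL1_ms2 h u z
  have m1 : Measurable fun ξ => ENNReal.ofReal θ * G ξ ^ 2 := (hG.pow_const 2).const_mul _
  have m2 : Measurable fun ξ => ENNReal.ofReal θ⁻¹ * P ξ ^ 2 := (hP.pow_const 2).const_mul _
  have e : μ univ = 2 * ENNReal.ofReal (2 * h) := by
    rw [← lintegral_one, ← hμ _ measurable_const, ENNReal.ofReal_mul zero_le_two]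
    simp only [gin, lintegral_one, Measure.restrict_apply_univ, Real.volume_Icc, add_sub_cancel_left,
      Fin.sum_univ_two, ENNReal.ofReal_ofNat, two_mul]
  rw [hμ _ hG, hμ _ hP, hμ _ (m1.fun_add m2), ← ENNReal.mul_le_mul_iff_right two_ne_zero (by norm_num),
    ← mul_assoc 2 (ENNReal.ofReal _), ← e, lintegral_add_left m1,
    ← lintegral_lintegral_mul hG.aemeasurable hP.aemeasurable,
    ← lintegral_const_mul' _ _ (by norm_num)]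
  calc _ ≤ ∫⁻ x, (ENNReal.ofReal θ * G x ^ 2 * μ univ + ∫⁻ y, ENNReal.ofReal θ⁻¹ * P y ^ 2 ∂μ) ∂μ := by
        refine lintegral_mono fun x => ?_
        rw [← lintegral_const_mul' _ _ (by norm_num), ← lintegral_const,
          ← lintegral_add_left measurable_const]
        exact lintegral_mono fun y => QL1_am hθ _ _
    _ = _ := by
        rw [lintegral_add_left (m1.mul_const _), lintegral_mul_const _ m1, lintegral_const, mul_add,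
          mul_comm (μ univ), mul_comm (μ univ)]

theorem gin_congr {W W' : Rn 2 → ℝ≥0∞} {h u : ℝ} (hh : 0 < h) {z : Fin 2 → ℤ}
    (e : EqOn W W' (gbd h u z)) : gin h u W z = gin h u W' z := by
  refine Finset.sum_congr rfl fun a _ => congrArg₂ (· + ·) ?_ ?_
  · exact setLIntegral_congr_fun measurableSet_Icc fun t ht => e (QL1_mem hh (Or.inl rfl) ht)
  · exact setLIntegral_congr_fun measurableSet_Icc fun t ht => e (QL1_mem hh (Or.inr rfl) ht)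

theorem gsq_cover {h : ℝ} (hh : 0 < h) (u : ℝ) (ξ : Rn 2) : ∃ z, ξ ∈ gsq h u z := by
  refine ⟨fun a => ⌊(ξ a - u) / h⌋, fun a => ?_⟩
  have h1 := (le_div_iff₀ hh).1 (Int.floor_le ((ξ a - u) / h))
  have h2 := (div_lt_iff₀ hh).1 (Int.lt_floor_add_one ((ξ a - u) / h))
  simp only [vtx]
  constructor <;> linarith

theorem gsq_meet {h u : ℝ} (hh : 0 < h) {z z' : Fin 2 → ℤ} {ξ : Rn 2} (k : ξ ∈ gsq h u z)
    (k' : ξ ∈ gsq h u z') : (gvx h u z ∩ gvx h u z').Nonempty := by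
  have key : ∀ {z z' : Fin 2 → ℤ}, ξ ∈ gsq h u z → ξ ∈ gsq h u z' →
      vtx h u (fun a => max (z a) (z' a)) ∈ gvx h u z := fun {z z'} k k' a => by
    have h1 := (k' a).1.trans (k a).2
    simp only [vtx] at h1 ⊢
    have h2 : (z' a : ℝ) ≤ z a + 1 := le_of_mul_le_mul_right (by linarith) hh
    have h3 : z' a ≤ z a + 1 := by exact_mod_cast h2
    rcases le_or_gt (z' a) (z a) with c | c
    · rw [max_eq_left c]
      exact Or.inl rfl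
    · rw [max_eq_right c.le, show z' a = z a + 1 by omega]
      refine Or.inr ?_
      push_cast
      ring
  refine ⟨_, key k k', ?_⟩
  simp only [fun a => max_comm (z a) (z' a)]
  exact key k' k

theorem gsq_fin {h : ℝ} (hh : 0 < h) (u : ℝ) {S : Set (Rn 2)} (hS : Bornology.IsBounded S) :
    {z | (gsq h u z ∩ S).Nonempty}.Finite := by
  obtain ⟨R, hR⟩ := hS.exists_norm_le
  refine (Finite.pi' fun _ : Fin 2 => finite_Icc ⌊(-R - u - h) / h⌋ ⌈(R - u) / h⌉).subset ?_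
  rintro z ⟨ξ, h1, h2⟩ a
  obtain ⟨k1, k2⟩ := abs_le.1 ((norm_le_pi_norm ξ a).trans (hR ξ h2))
  obtain ⟨k3, k4⟩ := h1 a
  simp only [vtx] at k3 k4
  constructor
  · refine Int.cast_le.1 ((Int.floor_le _).trans ?_)
    rw [div_le_iff₀ hh]
    linarith
  · refine Int.cast_le.1 (le_trans ?_ (Int.le_ceil _))
    rw [le_div_iff₀ hh]
    linarith

end BEp
end
end

-- merged part: Pool.Agent.Work.MP_f0515e_an.P2.QL3
section
/-! `interp`: `χ ξ = max α (max over the finitely many z with ψ (vtx z) ≠ α of min (ψ (vtx z)) (α + M * (2 - 2 ‖ξ - vtx z‖ / h)))`, `M ≥ ψ (vtx z) - α`. The nearest corner is within `h / 2`; the vertices at distance less than `h` are corners.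
`circles`: rescale to the unit ball, `gen_pencil` with `β = 1`, `poly_eq`, `oneman_crc`, `crc_ball`, `Ball.sub_convex`, `ball_nest`, `maxi`; the complement of the discs is connected (`DeEss_ind`), so `χ < τ` on it. -/

open Set Metric Filter Topology Function BEv MeasureTheory
open scoped NNReal ENNReal

noncomputable section
namespace BEp

theorem QL3_max {ι : Type} {S : Set ι} (hS : S.Finite) (α : ℝ) {g : ι → Rn 2 → ℝ}
    (hg : ∀ i, TP (g i)) : ∃ χ : Rn 2 → ℝ, TP χ ∧ ∀ ξ, α ≤ χ ξ ∧ (∀ i ∈ S, g i ξ ≤ χ ξ) ∧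
      (χ ξ = α ∨ ∃ i, χ ξ = g i ξ) := by
  induction S, hS using Set.Finite.induction_on with
  | empty => exact ⟨fun _ => α, TP.const α, fun ξ => ⟨le_rfl, fun _ h => h.elim, .inl rfl⟩⟩
  | @insert i S _ _ ih =>
    obtain ⟨χ, h1, h2⟩ := ih
    refine ⟨fun ξ => max (g i ξ) (χ ξ), (hg i).max h1, fun ξ => ?_⟩
    obtain ⟨h3, h4, h5⟩ := h2 ξ
    refine ⟨h3.trans (le_max_right _ _), ?_, ?_⟩
    · rintro j (rfl | hj)
      · exact le_max_left _ _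
      · exact (h4 j hj).trans (le_max_right _ _)
    · rcases le_total (g i ξ) (χ ξ) with h | h
      · simpa only [max_eq_right h] using h5
      · exact .inr ⟨i, max_eq_left h⟩

theorem QL3_near {h : ℝ} (u : ℝ) {z : Fin 2 → ℤ} {ξ : Rn 2} (hh : 0 < h) (k : ξ ∈ gsq h u z) :
    ∃ z', vtx h u z' ∈ gvx h u z ∧ ‖ξ - vtx h u z'‖ ≤ h / 2 := by
  refine ⟨fun a => if ξ a ≤ vtx h u z a + h / 2 then z a else z a + 1, fun a => ?_, ?_⟩
  · simp only [vtx]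
    split_ifs
    · exact .inl rfl
    · right
      push_cast
      ring
  · refine (pi_norm_le_iff_of_nonneg (by positivity)).2 fun a => ?_
    obtain ⟨k1, k2⟩ := k a
    simp only [vtx, Pi.sub_apply, Real.norm_eq_abs, abs_le] at k1 k2 ⊢
    split_ifs with c
    · constructor <;> linarith
    · push_cast
      constructor <;> linarith

theorem QL3_corner {h : ℝ} (u : ℝ) {z z' : Fin 2 → ℤ} {ξ : Rn 2} (hh : 0 < h) (k : ξ ∈ gsq h u z)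
    (k' : ‖ξ - vtx h u z'‖ < h) : vtx h u z' ∈ gvx h u z := by
  intro a
  obtain ⟨k1, k2⟩ := k a
  have k3 := (norm_le_pi_norm (ξ - vtx h u z') a).trans_lt k'
  simp only [vtx, Pi.sub_apply, Real.norm_eq_abs, abs_lt] at k1 k2 k3 ⊢
  have c1 : (z a : ℝ) - 1 < z' a := lt_of_mul_lt_mul_right (by linarith) hh.le
  have c2 : (z' a : ℝ) < z a + 2 := lt_of_mul_lt_mul_right (by linarith) hh.le
  have c3 : z a - 1 < z' a := by exact_mod_cast c1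
  have c4 : z' a < z a + 2 := by exact_mod_cast c2
  obtain e | e : z' a = z a ∨ z' a = z a + 1 := by omega
  · exact .inl (by rw [e])
  · right
    rw [e]
    push_cast
    ring

theorem interp {h : ℝ} (hh : 0 < h) (u : ℝ) {ψ : Rn 2 → ℝ} {α : ℝ} (hα : ∀ ξ, α ≤ ψ ξ)
    (hf : {z | ψ (vtx h u z) ≠ α}.Finite) : ∃ χ : Rn 2 → ℝ, TP χ ∧ ∀ z, ∀ ξ ∈ gsq h u z,
      (∃ y ∈ gvx h u z, ψ y ≤ χ ξ) ∧ ∃ y ∈ gvx h u z, χ ξ ≤ ψ y := by
  obtain ⟨χ, h1, h2⟩ := QL3_max hf α (g := fun z ξ => min (ψ (vtx h u z))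
    (α + (ψ (vtx h u z) - α) * (2 - 2 * ‖ξ - vtx h u z‖ / h))) fun z => (TP.const _).min
      ((TP.const α).add (TP.const_mul _ ((TP.const 2).sub
        ((TP.const_mul 2 (TP.id'.sub (TP.const _)).norm_pi).div_const h))))
  refine ⟨χ, h1, fun z ξ k => ?_⟩
  obtain ⟨h3, h4, h5⟩ := h2 ξ
  have h0 : vtx h u z ∈ gvx h u z := fun _ => .inl rfl
  constructor
  · obtain ⟨z', c1, c2⟩ := QL3_near u hh k
    refine ⟨_, c1, ?_⟩
    by_cases e : ψ (vtx h u z') = α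
    · exact e.trans_le h3
    · refine le_trans (le_min le_rfl ?_) (h4 z' e)
      have c3 : 2 * ‖ξ - vtx h u z'‖ / h ≤ 1 := (div_le_one hh).2 (by linarith)
      nlinarith [hα (vtx h u z')]
  · rcases h5 with e | ⟨z', e⟩
    · exact ⟨_, h0, e.trans_le (hα _)⟩
    · rcases lt_or_ge ‖ξ - vtx h u z'‖ h with c | c
      · exact ⟨_, QL3_corner u hh k c, e.trans_le (min_le_left _ _)⟩
      · refine ⟨_, h0, e.trans_le ((min_le_right _ _).trans (le_trans ?_ (hα _)))⟩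
        have c3 : 2 ≤ 2 * ‖ξ - vtx h u z'‖ / h := (le_div_iff₀ hh).2 (by linarith)
        nlinarith [hα (vtx h u z')]

theorem circles {χ : Rn 2 → ℝ} (hχ : TP χ) {c : Rn 2} {R α : ℝ} (hR : 0 < R)
    (h : ∀ ξ, R ≤ ‖ξ - c‖ → χ ξ ≤ α) : ∃ N : Set ℝ, N.Finite ∧ ∀ τ, τ ∉ N → α < τ →
      ∃ 𝒟 : Set (Set (Rn 2) × Set (Rn 2)), 𝒟.Finite ∧
        (∀ d ∈ 𝒟, Ball d.1 d.2 ∧ d.1 ⊆ ball c R ∧ ∀ ξ ∈ d.2, χ ξ = τ) ∧
        (∀ d ∈ 𝒟, ∀ d' ∈ 𝒟, d ≠ d' → Disjoint d.1 d'.1) ∧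
        ∀ ξ, τ < χ ξ → ∃ d ∈ 𝒟, ξ ∈ d.1 \ d.2 := by
  set A : Rn 2 → Rn 2 := fun y => c + R • y with hA
  have tA : TP A := (TP.const c).add (TP.const_smul R TP.id')
  have iA : Injective A := fun x y e => smul_right_injective _ hR.ne' (add_left_cancel e)
  have sA : ∀ ξ, A (R⁻¹ • (ξ - c)) = ξ := fun ξ => by
    simp only [hA, smul_smul, mul_inv_cancel₀ hR.ne', one_smul, add_sub_cancel]
  have nA : ∀ y, ‖A y - c‖ = R * ‖y‖ := fun y => by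
    simp only [hA, add_sub_cancel_left, norm_smul, Real.norm_of_nonneg hR.le]
  refine ⟨_, (gen_pencil (hχ.comp tA) (TP.const 1)).image fun t => -t, fun τ hτ hα => ?_⟩
  have inb : ∀ ξ, χ ξ = τ → ξ ∈ ball c R := fun ξ e => by
    rw [mem_ball_iff_norm]
    by_contra k
    linarith [h ξ (not_lt.1 k)]
  have in1 : ∀ y, χ (A y) = τ → ‖y‖ ≤ 1 := fun y e => by
    have := mem_ball_iff_norm.1 (inb _ e)
    rw [nA] at this
    nlinarith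
  have eY : {y ∈ closedBall (0 : Rn 2) 1 | χ (A y) = τ} = {z | χ (A z) + -τ * 1 = 0} := by
    ext y
    simp only [mem_closedBall_zero_iff, mem_ofPred_eq]
    exact ⟨fun k => by linarith [k.2], fun k => ⟨in1 y (by linarith), by linarith⟩⟩
  have pY := poly_eq (Poly.closedBall (0 : Rn 2) 1) (hχ.comp tA) τ
  have eX : A '' {y ∈ closedBall (0 : Rn 2) 1 | χ (A y) = τ} = {ξ | χ ξ = τ} := by
    ext ξ
    constructor
    · rintro ⟨y, k, rfl⟩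
      exact k.2
    · intro k
      have k' : χ (A (R⁻¹ • (ξ - c))) = τ := by rw [sA]; exact k
      exact ⟨_, ⟨mem_closedBall_zero_iff.2 (in1 _ k'), k'⟩, sA ξ⟩
  obtain ⟨𝒞, c1, c2, c3, c4⟩ := oneman_crc (pY.image tA) (by
    rintro _ ⟨y, k, rfl⟩
    rw [(lk_ncard_image pY tA iA.injOn k).1, eY]
    by_contra k'
    exact hτ ⟨-τ, ⟨y, in1 y k.2, one_pos, by linarith [k.2], k'⟩, neg_neg τ⟩)
  rw [eX] at c2
  have lev : ∀ C ∈ 𝒞, ∀ ξ ∈ C, χ ξ = τ := fun C hC ξ k => by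
    have : ξ ∈ ⋃₀ 𝒞 := ⟨C, hC, k⟩
    rwa [c2] at this
  choose! D hD using fun C (hC : C ∈ 𝒞) => crc_ball (c4 C hC)
  have sub : ∀ C ∈ 𝒞, D C ⊆ ball c R := fun C hC =>
    (hD C hC).sub_convex (by norm_num) (convex_ball c R) fun ξ k => inb ξ (lev C hC ξ k)
  obtain ⟨𝒟, d1, d2, d3, -⟩ := maxi c1 D id
    (fun C hC => ⟨((hD C hC).conn_bd le_rfl).nonempty, (hD C hC).sub⟩)
    fun C hC C' hC' ne => ball_nest le_rfl (hD C hC) (hD C' hC') (c3 hC hC' ne)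
  refine ⟨(fun C => (D C, C)) '' 𝒟, (c1.subset d1).image _, ?_, ?_, fun ξ k => ?_⟩
  · rintro _ ⟨C, hC, rfl⟩
    exact ⟨hD C (d1 hC), sub C (d1 hC), lev C (d1 hC)⟩
  · rintro _ ⟨C, hC, rfl⟩ _ ⟨C', hC', rfl⟩ ne
    exact d2 C hC C' hC' fun e => ne (by rw [e])
  · have hc := DeEss_ind (n := 2) le_rfl isPreconnected_univ (D := D) c1
      (fun C hC => ⟨hD C hC, fun _ _ => univ_mem⟩) c3
    have far : R ≤ ‖A 1 - c‖ := by rw [nA, norm_one, mul_one]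
    have m1 : A 1 ∈ univ \ ⋃ C ∈ 𝒞, D C := ⟨trivial, fun k => by
      obtain ⟨C, hC, k⟩ := mem_iUnion₂.1 k
      exact (mem_ball_iff_norm.1 (sub C hC k)).not_ge far⟩
    obtain ⟨C, hC, k1⟩ : ∃ C ∈ 𝒞, ξ ∈ D C := by
      by_contra k1
      have m2 : ξ ∈ univ \ ⋃ C ∈ 𝒞, D C := ⟨trivial, fun k => k1 (by
        obtain ⟨C, hC, k⟩ := mem_iUnion₂.1 k
        exact ⟨C, hC, k⟩)⟩
      obtain ⟨y, y1, y2⟩ := hc.intermediate_value m1 m2 hχ.continuous.continuousOn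
        (⟨((h _ far).trans hα.le), k.le⟩ : τ ∈ Icc (χ (A 1)) (χ ξ))
      have y3 : y ∈ ⋃₀ 𝒞 := by rw [c2]; exact y2
      obtain ⟨C, hC, y4⟩ := y3
      exact y1.2 (mem_iUnion₂.2 ⟨C, hC, (hD C hC).sub y4⟩)
    obtain ⟨C', hC', k2⟩ := d3 C hC
    exact ⟨_, ⟨C', hC', rfl⟩, k2 ⟨k1, fun k3 => k.ne' (lev C hC ξ k3)⟩⟩

end BEp
end
end

-- merged part: Pool.Agent.Work.MP_f0515e_an.P2.QLoop
section
/-! The loops. Put `Δ = τ2 - τ1`, `ψ' = max ψ τ1` on `S`, `τ1` off `S` (continuous on the plane, equal to `τ1` near the sphere, uniformly continuous). `δ`: oscillation of `ψ'` less than `Δ / 10`; `N` from `disc_count`;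
`h` small: oscillation of `ψ` on `S` at scale `h` less than `min (Δ / 10) (τ1 - τ0)`, of `k` at most `ε / (N + 1)`, a square with a corner where `τ1 < ψ'` lies in `S`, hence in `U`.
`grid_ex` for `indicator U H` and `indicator S v`; `interp`, `circles`. For the finitely many squares in `U` with finite `gin H`: `α, β` = least and largest value of `ψ'` at the corners, `β - α ≤ gin P` (`gsq_osc`, `max · τ1` is 1-Lipschitz),
`l = (gin G).toReal` (finite: `gin_mul` with the constant function `1`); `lev_ex` on `(τ1 + Δ / 3, τ1 + 2 Δ / 3)`; the sum of `(β - α) l` is at most `2 h ∑ gin H ≤ 8 E`.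
`merge_balls` for the balls `closedBall (k (vtx z)) (l z)`, `z` crossing the level. A circle is connected and covered by crossing squares; squares which meet have a common corner (`gsq_meet`), so all of them belong to one merged ball.
Keep the discs which meet `τ2 ≤ ψ` (they contain a ball of radius `δ`, `Ball.side`), keep their balls and enlarge them by `ε / (N + 1)`. -/

open Set Metric Filter Topology Function BEv MeasureTheory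
open scoped NNReal ENNReal

noncomputable section
namespace BEp

theorem QLoop_near {h u : ℝ} (hh : 0 < h) {z : Fin 2 → ℤ} {ξ ξ' : Rn 2} (k : ξ ∈ gsq h u z)
    (k' : ξ' ∈ gsq h u z) : ‖ξ - ξ'‖ ≤ h :=
  (pi_norm_le_iff_of_nonneg hh.le).2 fun a => by
    rw [Pi.sub_apply, Real.norm_eq_abs, abs_le]
    constructor <;> linarith [(k a).1, (k a).2, (k' a).1, (k' a).2]

theorem QLoop_vx {h u : ℝ} (hh : 0 < h) (z : Fin 2 → ℤ) : gvx h u z ⊆ gbd h u z := fun ξ k =>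
  ⟨fun a => by rcases k a with e | e <;> rw [e] <;> constructor <;> linarith, 0, k 0⟩

theorem QLoop_v0 (h u : ℝ) (z : Fin 2 → ℤ) : vtx h u z ∈ gvx h u z := fun _ => Or.inl rfl

theorem QLoop_vfin (h u : ℝ) (z : Fin 2 → ℤ) : (gvx h u z).Finite :=
  Set.Finite.pi' (t := fun a => {vtx h u z a, vtx h u z a + h}) fun _ => toFinite _

theorem QLoop_closed (h u : ℝ) (z : Fin 2 → ℤ) : IsClosed (gsq h u z) := by
  rw [gsq, ofPred_forall]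
  exact isClosed_iInter fun a => (isClosed_le continuous_const (continuous_apply a)).inter
    (isClosed_le (continuous_apply a) continuous_const)

theorem QLoop_fin {G H : Rn 2 → ℝ≥0∞} {a : ℝ≥0∞} (ha : a ≠ ⊤) (hGH : ∀ ξ, G ξ ≤ 1 + a * H ξ)
    {h u : ℝ} {z : Fin 2 → ℤ} (hH : gin h u H z ≠ ⊤) : gin h u G z ≠ ⊤ := by
  have k : ∀ (γ : ℝ → Rn 2) (s t : ℝ), ∫⁻ x in Icc s t, H (γ x) ≠ ⊤ →
      ∫⁻ x in Icc s t, G (γ x) ≠ ⊤ := fun γ s t e => by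
    refine ne_top_of_le_ne_top ?_ (lintegral_mono fun x => hGH (γ x))
    rw [lintegral_add_left measurable_const, lintegral_const_mul' _ _ ha, setLIntegral_const,
      Real.volume_Icc]
    finiteness
  rw [gin, ENNReal.sum_ne_top] at hH ⊢
  exact fun b hb => ENNReal.add_ne_top.2 ⟨k _ _ _ (ENNReal.add_ne_top.1 (hH b hb)).1,
    k _ _ _ (ENNReal.add_ne_top.1 (hH b hb)).2⟩

theorem QLoop_uc {F : Type} [NormedAddCommGroup F] {S : Set (Rn 2)} (hS : IsCompact S)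
    {f : Rn 2 → F} (hf : ContinuousOn f S) {η : ℝ} (hη : 0 < η) :
    ∃ δ : ℝ, 0 < δ ∧ ∀ ξ ∈ S, ∀ ξ' ∈ S, ‖ξ - ξ'‖ ≤ δ → ‖f ξ - f ξ'‖ < η := by
  obtain ⟨δ, d0, d⟩ := Metric.uniformContinuousOn_iff.1
    (hS.uniformContinuousOn_of_continuous hf) η hη
  refine ⟨δ / 2, half_pos d0, fun ξ a ξ' b e => ?_⟩
  rw [← dist_eq_norm] at e ⊢
  exact d ξ a ξ' b (by linarith)

theorem QLoop_psi {c : Rn 2} {R : ℝ} {ψ : Rn 2 → ℝ} (hψ : ContinuousOn ψ (closedBall c R))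
    {τ1 : ℝ} (hb : ∀ ξ ∈ sphere c R, ψ ξ < τ1) {η : ℝ} (hη : 0 < η) :
    ∃ (ψ' : Rn 2 → ℝ) (δ : ℝ), 0 < δ ∧ (∀ ξ, τ1 ≤ ψ' ξ) ∧
      (∀ ξ ∈ closedBall c R, ψ' ξ = max (ψ ξ) τ1) ∧ (∀ ξ, τ1 < ψ' ξ → ‖ξ - c‖ < R - δ) ∧
      ∀ ξ ξ', ‖ξ - ξ'‖ ≤ δ → |ψ' ξ - ψ' ξ'| < η := by
  classical
  obtain ⟨R', r1, r2⟩ := exists_lt_subset_ball (x := c) (r := R)
    (hψ.preimage_isClosed_of_isClosed isClosed_closedBall (isClosed_Ici (a := τ1)))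
    fun ξ k => mem_ball.2 (lt_of_le_of_ne k.1 fun e => (hb ξ e).not_ge k.2)
  obtain ⟨δ, d0, d⟩ := QLoop_uc (isCompact_closedBall c R) hψ hη
  set ψ' : Rn 2 → ℝ := fun ξ => if ξ ∈ closedBall c R then max (ψ ξ) τ1 else τ1 with hψ'
  have a1 : ∀ ξ, τ1 ≤ ψ' ξ := fun ξ => by
    simp only [hψ']
    split_ifs
    exacts [le_max_right _ _, le_rfl]
  have a2 : ∀ ξ ∈ closedBall c R, ψ' ξ = max (ψ ξ) τ1 := fun ξ k => if_pos k
  have a3 : ∀ ξ, τ1 < ψ' ξ → ‖ξ - c‖ < R - min δ (R - R') := fun ξ k => by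
    simp only [hψ'] at k
    split_ifs at k with e
    · have := mem_ball_iff_norm.1 (r2 ⟨e, ((lt_max_iff.1 k).resolve_right (lt_irrefl _)).le⟩)
      linarith [min_le_right δ (R - R')]
    · exact (lt_irrefl _ k).elim
  have a4 : ∀ ξ ξ', ‖ξ - ξ'‖ ≤ min δ (R - R') → τ1 < ψ' ξ → |ψ' ξ - ψ' ξ'| < η := fun ξ ξ' e k => by
    have m := a3 ξ k
    have p : 0 < min δ (R - R') := lt_min d0 (sub_pos.2 r1)
    have m1 : ξ ∈ closedBall c R := mem_closedBall_iff_norm.2 (by linarith)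
    have m2 : ξ' ∈ closedBall c R := mem_closedBall_iff_norm.2 (by
      have := norm_sub_le_norm_sub_add_norm_sub ξ' ξ c
      rw [norm_sub_rev ξ' ξ] at this
      linarith)
    rw [a2 ξ m1, a2 ξ' m2]
    exact (abs_max_sub_max_le_abs _ _ _).trans_lt (d ξ m1 ξ' m2 (e.trans (min_le_left _ _)))
  refine ⟨ψ', _, lt_min d0 (sub_pos.2 r1), a1, a2, a3, fun ξ ξ' e => ?_⟩
  rcases (a1 ξ).lt_or_eq with k | k
  · exact a4 ξ ξ' e k
  · rcases (a1 ξ').lt_or_eq with k' | k'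
    · rw [abs_sub_comm]
      exact a4 ξ' ξ (norm_sub_rev ξ ξ' ▸ e) k'
    · rwa [← k, ← k', sub_self, abs_zero]

theorem QLoop_conn {β : Type} {h u : ℝ} {J : Set (Rn 2)} (hJ : IsConnected J)
    {s : Finset (Fin 2 → ℤ)} (cov : ∀ ξ ∈ J, ∃ z ∈ s, ξ ∈ gsq h u z) {𝔅 : Finset β}
    {Q : (Fin 2 → ℤ) → β → Prop} (h1 : ∀ z ∈ s, ∃ b ∈ 𝔅, Q z b)
    (h2 : ∀ z ∈ s, ∀ z' ∈ s, ∀ b ∈ 𝔅, ∀ b' ∈ 𝔅, Q z b → Q z' b' →
      ∀ ξ ∈ gsq h u z, ξ ∈ gsq h u z' → b = b') :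
    ∃ b ∈ 𝔅, ∀ ξ ∈ J, ∃ z ∈ s, Q z b ∧ ξ ∈ gsq h u z := by
  obtain ⟨ξ0, h0⟩ := hJ.1
  obtain ⟨z0, s0, g0⟩ := cov ξ0 h0
  obtain ⟨b, hb, q0⟩ := h1 z0 s0
  have cl : ∀ p : (Fin 2 → ℤ) → Prop, IsClosed (⋃ z ∈ {z | z ∈ s ∧ p z}, gsq h u z) := fun p =>
    (s.finite_toSet.subset fun z k => k.1).isClosed_biUnion fun z _ => QLoop_closed h u z
  have dj : ∀ ξ, ξ ∈ ⋃ z ∈ {z | z ∈ s ∧ Q z b}, gsq h u z →
      ξ ∉ ⋃ z ∈ {z | z ∈ s ∧ ¬ Q z b}, gsq h u z := fun ξ k k' => by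
    obtain ⟨z, hz, m⟩ := mem_iUnion₂.1 k
    obtain ⟨z', hz', m'⟩ := mem_iUnion₂.1 k'
    obtain ⟨b', hb', q'⟩ := h1 z' hz'.1
    exact hz'.2 (h2 z hz.1 z' hz'.1 b hb b' hb' hz.2 q' ξ m m' ▸ q')
  refine ⟨b, hb, fun ξ hξ => ?_⟩
  rcases isPreconnected_iff_subset_of_disjoint_closed.1 hJ.2 _ _ (cl (Q · b)) (cl (¬ Q · b))
    (fun x hx => by
      obtain ⟨z, hz, m⟩ := cov x hx
      by_cases q : Q z b
      exacts [Or.inl (mem_biUnion ⟨hz, q⟩ m), Or.inr (mem_biUnion ⟨hz, q⟩ m)])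
    (eq_empty_of_forall_notMem fun x hx => dj x hx.2.1 hx.2.2) with k | k
  · obtain ⟨z, hz, m⟩ := mem_iUnion₂.1 (k hξ)
    exact ⟨z, hz.1, hz.2, m⟩
  · exact (dj ξ0 (mem_biUnion ⟨s0, q0⟩ g0) (k h0)).elim

theorem QLoop_grid {S U : Set (Rn 2)} (hS : MeasurableSet S) (hU : MeasurableSet U) (hUS : U ⊆ S)
    {v G P : Rn 2 → ℝ≥0∞} (hv : Measurable v) (hG : Measurable G) (hP : Measurable P)
    (hi : ∫⁻ ξ in S, v ξ ≠ ⊤) {θ E h : ℝ} (hθ : 0 < θ) (hE : 0 ≤ E) (hh : 0 < h)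
    (he : ∫⁻ ξ in U, (ENNReal.ofReal θ * G ξ ^ 2 + ENNReal.ofReal θ⁻¹ * P ξ ^ 2) ≤
      ENNReal.ofReal E) :
    ∃ u, (∀ z, gsq h u z ⊆ U → gin h u v z ≠ ⊤ ∧ gin h u G z ≠ ⊤) ∧
      ∀ (s : Finset (Fin 2 → ℤ)) (a : (Fin 2 → ℤ) → ℝ), (∀ z ∈ s, gsq h u z ⊆ U ∧ 0 ≤ a z ∧
        ENNReal.ofReal (a z) ≤ gin h u P z) → ∑ z ∈ s, a z * (gin h u G z).toReal ≤ 8 * E := by
  set H : Rn 2 → ℝ≥0∞ := fun ξ => ENNReal.ofReal θ * G ξ ^ 2 + ENNReal.ofReal θ⁻¹ * P ξ ^ 2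
    with hH
  have mH : Measurable H := ((hG.pow_const 2).const_mul _).add ((hP.pow_const 2).const_mul _)
  obtain ⟨u, g1, g2⟩ := grid_ex (mH.indicator hU) (hv.indicator hS)
    (by rwa [lintegral_indicator hS]) hh
  rw [lintegral_indicator hU] at g2
  replace g2 := g2.trans (mul_le_mul_right he 4)
  have e1 : ∀ z, gsq h u z ⊆ U → gin h u (U.indicator H) z = gin h u H z := fun z k =>
    gin_congr hh fun ξ m => indicator_of_mem (k m.1) _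
  refine ⟨u, fun z k => ⟨?_, QLoop_fin (H := H) (a := ENNReal.ofReal θ⁻¹) ENNReal.ofReal_ne_top
    (fun ξ => ?_) ?_⟩, fun s a k => ?_⟩
  · rw [← gin_congr (W := S.indicator v) hh fun ξ m => indicator_of_mem (hUS (k m.1)) _]
    exact g1 z
  · have : G ξ ≤ 1 + G ξ ^ 2 := by
      rcases le_total (G ξ) 1 with e | e
      · exact e.trans le_self_add
      · exact (le_self_pow₀ e two_ne_zero).trans le_add_self
    refine this.trans (add_le_add_right ?_ _)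
    simp only [hH]
    rw [mul_add, ← mul_assoc, ← ENNReal.ofReal_mul (by positivity), inv_mul_cancel₀ hθ.ne',
      ENNReal.ofReal_one, one_mul]
    exact le_self_add
  · rw [← e1 z k]
    refine ne_top_of_le_ne_top (fun e => ?_) (ENNReal.le_tsum z)
    rw [e, ENNReal.mul_top (by simpa using hh), top_le_iff] at g2
    exact (by finiteness : (4 : ℝ≥0∞) * ENNReal.ofReal E ≠ ⊤) g2
  · rw [← ENNReal.ofReal_le_ofReal_iff (by positivity),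
      ENNReal.ofReal_sum_of_nonneg fun z hz => mul_nonneg (k z hz).2.1 ENNReal.toReal_nonneg]
    calc _ ≤ ∑ z ∈ s, ENNReal.ofReal (2 * h) * gin h u (U.indicator H) z :=
          Finset.sum_le_sum fun z hz => by
            rw [ENNReal.ofReal_mul (k z hz).2.1, e1 z (k z hz).1, mul_comm]
            exact (mul_le_mul' ENNReal.ofReal_toReal_le (k z hz).2.2).trans
              (gin_mul hG hP hh hθ z)
      _ ≤ 2 * (ENNReal.ofReal h * ∑' z, gin h u (U.indicator H) z) := by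
          rw [← Finset.mul_sum, ENNReal.ofReal_mul zero_le_two, ENNReal.ofReal_ofNat, mul_assoc]
          exact mul_le_mul_right (mul_le_mul_right (ENNReal.sum_le_tsum s) _) _
      _ ≤ 2 * (4 * ENNReal.ofReal E) := mul_le_mul_right g2 _
      _ = _ := by
          rw [ENNReal.ofReal_mul (by norm_num), ENNReal.ofReal_ofNat, ← mul_assoc]
          norm_num

theorem QLoop_sum {α : Type} {𝒟 : Set α} (hf : 𝒟.Finite) {N : ℕ} (hN : 𝒟.ncard ≤ N)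
    {𝔅 : Finset (Rn 3 × ℝ)} (h0 : ∀ b ∈ 𝔅, 0 ≤ b.2) {ε : ℝ} (hε : 0 < ε) {Y : α → Set (Rn 3)}
    (h : ∀ d ∈ 𝒟, ∃ b ∈ 𝔅, Y d ⊆ closedBall b.1 (b.2 + ε / (N + 1))) :
    ∃ 𝔅' : Finset (Rn 3 × ℝ), (∀ d ∈ 𝒟, ∃ b ∈ 𝔅', Y d ⊆ closedBall b.1 b.2) ∧
      (∀ b ∈ 𝔅', 0 ≤ b.2) ∧ ∑ b ∈ 𝔅', b.2 ≤ ∑ b ∈ 𝔅, b.2 + ε := by
  classical
  choose! bb b1 b2 using h
  have sub : hf.toFinset.image bb ⊆ 𝔅 := fun b hb => by
    obtain ⟨d, hd, rfl⟩ := Finset.mem_image.1 hb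
    exact b1 d (hf.mem_toFinset.1 hd)
  have p : 0 < ε / (N + 1) := by positivity
  refine ⟨(hf.toFinset.image bb).image fun b => (b.1, b.2 + ε / (N + 1)), fun d hd =>
    ⟨_, Finset.mem_image_of_mem _ (Finset.mem_image_of_mem _ (hf.mem_toFinset.2 hd)), b2 d hd⟩,
    fun b hb => ?_, ?_⟩
  · obtain ⟨b', hb', rfl⟩ := Finset.mem_image.1 hb
    exact add_nonneg (h0 b' (sub hb')) p.le
  · rw [Finset.sum_image (g := fun b : Rn 3 × ℝ => (b.1, b.2 + ε / (N + 1))) fun b _ b' _ e =>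
      Prod.ext (Prod.ext_iff.1 e).1 (add_right_cancel (Prod.ext_iff.1 e).2), Finset.sum_add_distrib,
      Finset.sum_const, nsmul_eq_mul]
    refine add_le_add (Finset.sum_le_sum_of_subset_of_nonneg sub fun b hb _ => h0 b hb) ?_
    have c : ((hf.toFinset.image bb).card : ℝ) ≤ N + 1 := by
      have := (Finset.card_image_le (s := hf.toFinset) (f := bb)).trans
        ((ncard_eq_toFinset_card 𝒟 hf).symm.trans_le hN)
      exact_mod_cast this.trans (Nat.le_succ N)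
    refine (mul_le_mul_of_nonneg_right c p.le).trans_eq ?_
    field_simp



theorem loop {c : Rn 2} {R : ℝ} (hR : 0 < R) {k : Rn 2 → Rn 3} {ψ : Rn 2 → ℝ}
    (hk : ContinuousOn k (closedBall c R)) (hψ : ContinuousOn ψ (closedBall c R)) {τ0 τ1 τ2 : ℝ}
    (h01 : τ0 < τ1) (h12 : τ1 < τ2) (hb : ∀ ξ ∈ sphere c R, ψ ξ < τ1) {v G P : Rn 2 → ℝ≥0∞}
    (hv : Measurable v) (hG : Measurable G) (hP : Measurable P)
    (hi : ∫⁻ ξ in closedBall c R, v ξ ≠ ⊤) {U : Set (Rn 2)}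
    (hU : U = {ξ | ξ ∈ closedBall c R ∧ τ0 < ψ ξ}) (u1 : UgA U k v G) (u2 : UgA U ψ v P)
    {θ E ε : ℝ} (hθ : 0 < θ) (hE : 0 ≤ E) (hε : 0 < ε)
    (he : ∫⁻ ξ in U, (ENNReal.ofReal θ * G ξ ^ 2 + ENNReal.ofReal θ⁻¹ * P ξ ^ 2) ≤
      ENNReal.ofReal E) :
    ∃ 𝒟 𝔅, Lp k ψ (closedBall c R) τ1 τ2 (100 * E / (τ2 - τ1) + ε) 𝒟 𝔅 := by
  classical
  have hΔ : 0 < τ2 - τ1 := sub_pos.2 h12
  obtain ⟨ψ', δ, d0, a1, a2, a3, a4⟩ := QLoop_psi hψ hb (η := (τ2 - τ1) / 10) (by positivity)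
  obtain ⟨N, hN⟩ := disc_count c R d0
  obtain ⟨δ1, d1, b1⟩ := QLoop_uc (isCompact_closedBall c R) hψ (sub_pos.2 h01)
  obtain ⟨δ2, d2, b2⟩ := QLoop_uc (isCompact_closedBall c R) hk (η := ε / (N + 1)) (by positivity)
  obtain ⟨h, hh, e0, e1, e2⟩ : ∃ h : ℝ, 0 < h ∧ h ≤ δ ∧ h ≤ δ1 ∧ h ≤ δ2 :=
    ⟨min δ (min δ1 δ2), by positivity, min_le_left _ _, (min_le_right _ _).trans (min_le_left _ _),
      (min_le_right _ _).trans (min_le_right _ _)⟩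
  have hUS : U ⊆ closedBall c R := fun ξ m => (hU ▸ m).1
  have mU : MeasurableSet U := by
    have : U = closedBall c R \ (closedBall c R ∩ ψ ⁻¹' Iic τ0) := by
      rw [hU]
      exact Set.ext fun ξ => ⟨fun m => ⟨m.1, fun n => m.2.not_ge n.2⟩,
        fun m => ⟨m.1, not_le.1 fun n => m.2 ⟨m.1, n⟩⟩⟩
    rw [this]
    exact measurableSet_closedBall.diff
      (hψ.preimage_isClosed_of_isClosed isClosed_closedBall isClosed_Iic).measurableSet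
  obtain ⟨u, g1, g2⟩ := QLoop_grid measurableSet_closedBall mU hUS hv hG hP hi hθ hE hh he
  have vq : ∀ {z y}, y ∈ gvx h u z → y ∈ gsq h u z := fun m => (QLoop_vx hh _ m).1
  have c1 : ∀ z, ∀ y ∈ gvx h u z, τ1 < ψ' y → ∀ ξ ∈ gsq h u z, ‖ξ - c‖ < R := fun z y hy t ξ m => by
    have := norm_sub_le_norm_sub_add_norm_sub ξ y c
    linarith [a3 y t, QLoop_near hh m (vq hy)]
  have c2 : ∀ z, ∀ y ∈ gvx h u z, τ1 < ψ' y → gsq h u z ⊆ U := fun z y hy t ξ m => by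
    have m1 := mem_closedBall_iff_norm.2 (c1 z y hy t ξ m).le
    have m2 := mem_closedBall_iff_norm.2 (c1 z y hy t y (vq hy)).le
    have := b1 y m2 ξ m1 ((QLoop_near hh (vq hy) m).trans e1)
    rw [a2 y m2, lt_max_iff, or_iff_left (lt_irrefl _)] at t
    rw [hU]
    exact ⟨m1, by linarith [(abs_lt.1 this).2]⟩
  have fA : {z | ∃ y ∈ gvx h u z, τ1 < ψ' y}.Finite :=
    (gsq_fin hh u (isBounded_closedBall (x := c) (r := R))).subset fun z ⟨y, hy, t⟩ =>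
      ⟨y, vq hy, hUS (c2 z y hy t (vq hy))⟩
  choose y0 y1 y2 using fun z => Set.exists_min_image _ ψ' (QLoop_vfin h u z) ⟨_, QLoop_v0 h u z⟩
  choose w0 w1 w2 using fun z => Set.exists_max_image _ ψ' (QLoop_vfin h u z) ⟨_, QLoop_v0 h u z⟩
  have sU : ∀ z ∈ fA.toFinset, gsq h u z ⊆ U := fun z hz =>
    (fA.mem_toFinset.1 hz).elim fun y k => c2 z y k.1 k.2
  have en := g2 fA.toFinset (fun z => ψ' (w0 z) - ψ' (y0 z)) fun z hz => by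
    refine ⟨sU z hz, sub_nonneg.2 (y2 z _ (w1 z)), le_trans ?_ (gsq_osc u2 hh
      (fun ξ m => sU z hz m.1) (g1 z (sU z hz)).1 _ (QLoop_vx hh z (w1 z)) _ (y1 z))⟩
    rw [← ofReal_norm, a2 _ (hUS (sU z hz (vq (w1 z)))), a2 _ (hUS (sU z hz (vq (y1 z))))]
    exact ENNReal.ofReal_le_ofReal ((le_abs_self _).trans (abs_max_sub_max_le_abs _ _ _))
  obtain ⟨χ, x1, x2⟩ := interp hh u a1 (fA.subset fun z k =>
    ⟨_, QLoop_v0 h u z, lt_of_le_of_ne (a1 _) (Ne.symm k)⟩)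
  have x3 : ∀ z, ∀ ξ ∈ gsq h u z, ψ' (y0 z) ≤ χ ξ ∧ χ ξ ≤ ψ' (w0 z) := fun z ξ m =>
    ⟨(x2 z ξ m).1.elim fun y k => (y2 z y k.1).trans k.2,
      (x2 z ξ m).2.elim fun y k => k.2.trans (w2 z y k.1)⟩
  have x4 : ∀ ξ, |χ ξ - ψ' ξ| < (τ2 - τ1) / 10 := fun ξ => by
    obtain ⟨z, m⟩ := gsq_cover hh u ξ
    have p1 := abs_lt.1 (a4 _ _ ((QLoop_near hh m (vq (y1 z))).trans e0))
    have p2 := abs_lt.1 (a4 _ _ ((QLoop_near hh m (vq (w1 z))).trans e0))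
    rw [abs_lt]
    constructor <;> linarith [(x3 z ξ m).1, (x3 z ξ m).2]
  obtain ⟨N0, n1, n2⟩ := circles x1 (α := τ1) hR fun ξ k => by
    obtain ⟨z, m⟩ := gsq_cover hh u ξ
    exact (x3 z ξ m).2.trans (not_lt.1 fun t => (c1 z _ (w1 z) t ξ m).not_ge k)
  obtain ⟨τ, t1, t2, t3⟩ := lev_ex fA.toFinset (fun z => ψ' (y0 z)) (fun z => ψ' (w0 z))
    (fun z => (gin h u G z).toReal) (fun _ _ => ENNReal.toReal_nonneg) (fun z _ => y2 z _ (w1 z))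
    (a := τ1 + (τ2 - τ1) / 3) (b := τ1 + 2 * (τ2 - τ1) / 3) (by linarith) n1
  have t4 : τ1 < τ := by linarith [t1.1]
  obtain ⟨𝒟, f1, f2, f3, f4⟩ := n2 τ t2 t4
  set s := fA.toFinset.filter fun z => ψ' (y0 z) ≤ τ ∧ τ ≤ ψ' (w0 z) with hs
  obtain ⟨𝔅, m1, m2, m3, m4⟩ := merge_balls s (fun z => k (vtx h u z))
    (fun z => (gin h u G z).toReal) fun _ _ => ENNReal.toReal_nonneg
  have sU' : ∀ z ∈ s, gsq h u z ⊆ U := fun z hz => sU z (Finset.mem_filter.1 hz).1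
  have k1 : ∀ z ∈ s, ∀ b : Rn 3 × ℝ, ‖k (vtx h u z) - b.1‖ + (gin h u G z).toReal ≤ b.2 →
      ∀ y ∈ gvx h u z, k y ∈ closedBall b.1 b.2 := fun z hz b q y hy => by
    have o := gsq_osc u1 hh (fun ξ m => sU' z hz m.1) (g1 z (sU' z hz)).1 _ (QLoop_vx hh z hy) _
      (QLoop_v0 h u z)
    rw [← ofReal_norm, ENNReal.ofReal_le_iff_le_toReal (g1 z (sU' z hz)).2] at o
    have := norm_sub_le_norm_sub_add_norm_sub (k y) (k (vtx h u z)) b.1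
    exact mem_closedBall_iff_norm.2 (by linarith)
  have k2 : ∀ d ∈ 𝒟, ∃ b ∈ 𝔅, k '' d.2 ⊆ closedBall b.1 (b.2 + ε / (N + 1)) := fun d hd => by
    refine (QLoop_conn (h := h) (u := u) ((f2 d hd).1.conn_bd le_rfl) (s := s) (fun ξ m => ?_) m1
      fun z hz z' hz' b hb b' hb' q q' ξ p p' => ?_).imp fun b q => ⟨q.1, ?_⟩
    · obtain ⟨z, p⟩ := gsq_cover hh u ξ
      have := x3 z ξ p
      rw [(f2 d hd).2.2 ξ m] at this
      exact ⟨z, Finset.mem_filter.2 ⟨fA.mem_toFinset.2 ⟨_, w1 z, t4.trans_le this.2⟩, this⟩, p⟩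
    · obtain ⟨y, hy, hy'⟩ := gsq_meet hh p p'
      by_contra n
      exact disjoint_left.1 (m3 b hb b' hb' n) (k1 z hz b q y hy) (k1 z' hz' b' q' y hy')
    · rintro _ ⟨ξ, m, rfl⟩
      obtain ⟨z, hz, q', p⟩ := q.2 ξ m
      have o := b2 ξ (hUS (sU' z hz p)) _ (hUS (sU' z hz (vq (QLoop_v0 h u z))))
        ((QLoop_near hh p (vq (QLoop_v0 h u z))).trans e2)
      have := norm_sub_le_norm_sub_add_norm_sub (k ξ) (k (vtx h u z)) b.1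
      exact mem_closedBall_iff_norm.2
        (by linarith [ENNReal.toReal_nonneg (a := gin h u G z)])
  have dS : ∀ d ∈ 𝒟, d.1 ⊆ closedBall c R := fun d hd =>
    (f2 d hd).2.1.trans ball_subset_closedBall
  have k3 : ∀ d ∈ 𝒟, ∀ ξ ∈ d.2, |τ - ψ' ξ| < (τ2 - τ1) / 10 := fun d hd ξ m =>
    (f2 d hd).2.2 ξ m ▸ x4 ξ
  have k4 : ∀ ξ ∈ closedBall c R, ψ ξ ≤ ψ' ξ := fun ξ m => a2 ξ m ▸ le_max_left _ _
  have f1' : {d | d ∈ 𝒟 ∧ ∃ ξ ∈ d.1, τ2 ≤ ψ ξ}.Finite := f1.subset fun d m => m.1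
  obtain ⟨𝔅', r1, r2, r3⟩ := QLoop_sum f1' (hN _ f1' (fun d m d' m' => f3 d m.1 d' m'.1)
    fun d ⟨hd, ξ, m, t⟩ => ⟨dS d hd, ξ, by
      refine (((f2 d hd).1.side (convex_ball ξ δ).isPreconnected
        (disjoint_left.2 fun x hx m' => ?_)).resolve_right fun n =>
          disjoint_left.1 n (mem_ball_self d0) m).trans sdiff_subset
      have p1 := abs_lt.1 (a4 x ξ (mem_ball_iff_norm.1 hx).le)
      have p2 := abs_lt.1 (k3 d hd x m')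
      linarith [k4 ξ (dS d hd m), t1.2]⟩)
    (fun b hb => (m2 b hb).elim fun z q => le_trans (by positivity) q.2) hε
    (Y := fun d => k '' d.2) fun d m => k2 d m.1
  refine ⟨_, 𝔅', f1', fun d m => ⟨(f2 d m.1).1, dS d m.1, fun ξ p => ?_, r1 d m⟩,
    fun d m d' m' => f3 d m.1 d' m'.1, fun ξ m t => ?_, r2, r3.trans (add_le_add_left ?_ _)⟩
  · have p1 := dS d m.1 ((f2 d m.1).1.sub p)
    have p2 := abs_lt.1 (k3 d m.1 ξ p)
    refine ⟨?_, by linarith [k4 ξ p1, t1.2]⟩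
    have : τ1 < ψ' ξ := by linarith [t1.1]
    rwa [a2 ξ p1, lt_max_iff, or_iff_left (lt_irrefl _)] at this
  · obtain ⟨d, hd, p⟩ := f4 ξ (by linarith [(abs_lt.1 (x4 ξ)).1, k4 ξ m, t1.2])
    exact ⟨d, ⟨hd, ξ, p.1, t⟩, p⟩
  · refine m4.trans (t3.trans ?_)
    rw [div_le_div_iff₀ (by linarith) hΔ]
    nlinarith [mul_le_mul_of_nonneg_right en hΔ.le, mul_nonneg hE hΔ.le]

end BEp
end
end
end
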