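import Pool.Agent.Work.MP_f0515e_an.P3.GGeo
import Pool.Agent.Work.MP_f0515e_an.P3.CMass
import Pool.Agent.Work.MP_f0515e_an.D3.NLn
import Pool.Agent.Work.MP_f0515e_an.P2.QLoop

-- merged part: Pool.Agent.Work.MP_f0515e_an.P3.DetS
section
/-! The data on the skeleton. `γ F ξ = 2 ‖D (φ ξ) ∘ M‖` if `F` lies in some cube (`us`, `Ξ` is
2-Lipschitz), `4 ‖D (φ ξ)‖` otherwise (`gs`; such a face is a face of an outer cell, `exists_up`, so
`Bi idE 1`); `γe e t = 2 ‖e.2 - e.1‖ ‖D‖`; `d.D x = L_q ∘ D x` on the open cube `q`, `D x` elsewhere;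
`wt y` = the largest of `C1` and of the `cf` of the pieces with `Nr (cf l) y` (closed sets, finitely
many); `s = P.s`. By `zone` and `zone_sub` a point of the skeleton with large weight lies in the
zone of a tile of its own cube. `omF` is finite by `two_tops`. -/

open Set Metric Filter Topology Function BEv MeasureTheory
open scoped NNReal ENNReal

noncomputable section
namespace BEp

variable {ι : Type} [Fintype ι] {C : ι → Cu} {P : Pr} {aK : ℝ} {Ω : Set (Rn 3)} {K : Kx Ω}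
  {ch : Set (Rn 3) → Ch} {w lam : Set (Rn 3) → ℝ} {f : Rn 3 → Rn 3} {D : Rn 3 → Rn 3 →L[ℝ] Rn 3}
  {v : Rn 3 → ℝ≥0∞} {θ : Rn 3 → ℝ} {kp : ι → Set (I3 × I3)} {p C1 : ℝ}
  {Cf Cg : (Rn 3 ≃L[ℝ] Rn 3) → ℝ}

theorem finite_pcs (hF : GFit C P aK K ch w lam) (hk : ∀ q, kp q ⊆ (C q).Adm) :
    Finite (Pcs kp) := by
  have h : {b : ι × I3 × I3 | b.2 ∈ kp b.1}.Finite := by
    refine (Set.finite_iUnion fun q : ι =>
      (((hF.ok q).adm_finite.subset (hk q)).image (fun u => (q, u)))).subset ?_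
    rintro ⟨q, u⟩ hb
    exact mem_iUnion.2 ⟨q, u, hb, rfl⟩
  exact h.to_subtype

/-! ### Geometry -/

theorem DetS_Qmono (Q : Pc) {R R' : ℝ} (h : R ≤ R') : Q.Q R ⊆ Q.Q R' :=
  fun _ hx => ⟨hx.1, fun i hi => (hx.2 i hi).trans h⟩

theorem DetS_O {c : Cu} (h : c.Ok aK) : c.O ⊆ ball c.o c.η :=
  h.O_prop.2.1.trans (ball_subset_ball (by linarith [h.pos.2.1]))

theorem DetS_WI {c : Cu} (h : c.Ok aK) : c.WI ⊆ ball c.o c.η := h.WI_prop.2.1.trans (DetS_O h)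

theorem DetS_Q {c : Cu} (h : c.Ok aK) {u : I3 × I3} (hu : u ∈ c.Adm) {R : ℝ}
    (hR : R ≤ c.ρx + 32 * c.s) : c.Q u R ⊆ ball c.o c.η := by
  obtain ⟨-, -, hs, -, -, hρ, -, hζ, -⟩ := h.pos
  obtain ⟨-, h2, -, -, h5, -⟩ := h.num
  refine (DetS_Qmono (c.pc u 0) (R' := c.t0 / 2 + 3 * c.ρ') ?_).trans
    ((h.Q_sub hu).1.trans ((h.Q_sub hu).2.1.trans (DetS_WI h)))
  nlinarith

omit [Fintype ι] in
theorem DetS_same (hF : GFit C P aK K ch w lam) {q q' : ι} {x : Rn 3}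
    (h : x ∈ ball (C q).o (C q).η) (h' : x ∈ (C q').q) : q = q' := by
  by_contra hn
  exact Set.disjoint_left.1 (hF.far q q' hn) h h'

omit [Fintype ι] in
theorem DetS_out (hF : GFit C P aK K ch w lam) {σ : Set (Rn 3)} (hσ : σ ∈ K.cel 3)
    (ho : ∀ q, ¬ σ ⊆ (C q).q) (q : ι) {x : Rn 3} (hx : x ∈ closure σ) :
    x ∉ ball (C q).o (C q).η := by
  intro hb
  obtain ⟨z, hz, hzσ⟩ := mem_closure_iff.1 hx _ isOpen_ball hb
  refine ho q ?_
  rw [← Kx.cell_eq hσ.1 hzσ]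
  exact (hF.fit q).cq z (ball_subset_closedBall hz)

omit [Fintype ι] in
theorem DetS_s (hF : GFit C P aK K ch w lam) (q : ι) : (C q).s = P.s := by
  rw [← hF.par q]

omit [Fintype ι] in
theorem DetS_g (hF : GFit C P aK K ch w lam) (q : ι) : (C q).g = P.g := by
  rw [← hF.par q]

theorem DetS_φc (k : Ch) : Continuous k.φ := by
  unfold Ch.φ
  fun_prop

theorem DetS_φcl {k : Ch} {F : Set (Rn 3)} (h : k.Of F) {ξ : Rn 2} (hξ : ξ ∈ closure k.U) :
    k.φ ξ ∈ closure F := by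
  rw [← h.2.2]
  exact image_closure_subset_closure_image (DetS_φc k) (mem_image_of_mem _ hξ)

theorem DetS_φseg (k : Ch) (ξ ξ' : Rn 2) (s : ℝ) :
    k.φ (seg ξ ξ' s) = seg (k.φ ξ) (k.φ ξ') s := by
  simp only [Ch.φ, seg, map_add, map_smul, map_sub, add_sub_add_left_eq_sub, add_assoc]

theorem DetS_M {k : Ch} (h : k.Bi idE 1) : ‖k.M‖ ≤ 1 :=
  ContinuousLinearMap.opNorm_le_bound _ zero_le_one fun ξ => (h ξ).1

/-! ### Analysis on a segment -/

theorem DetS_ac {a b : Rn 3} (h : ACs f D a b) {s s' : ℝ} (h0 : 0 ≤ s) (h1 : s ≤ s')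
    (h2 : s' ≤ 1) : ‖f (seg a b s') - f (seg a b s)‖ₑ ≤
      ∫⁻ x in Icc s s', ‖D (seg a b x) (b - a)‖ₑ := by
  have hi : IntegrableOn (fun t => D (seg a b t) (b - a)) (Icc 0 1) :=
    (ContinuousLinearMap.apply ℝ (Rn 3) (b - a)).integrable_comp h.1
  have i1 : ∀ t ∈ Icc (0 : ℝ) 1, IntervalIntegrable (fun t => D (seg a b t) (b - a)) volume 0 t :=
    fun t ht => (intervalIntegrable_iff_integrableOn_Icc_of_le ht.1).2
      (hi.mono_set (Icc_subset_Icc le_rfl ht.2))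
  rw [h.2 s' ⟨h0.trans h1, h2⟩, h.2 s ⟨h0, h1.trans h2⟩, add_sub_add_left_eq_sub,
    intervalIntegral.integral_interval_sub_left (i1 s' ⟨h0.trans h1, h2⟩) (i1 s ⟨h0, h1.trans h2⟩),
    intervalIntegral.integral_of_le h1, ← integral_Icc_eq_integral_Ioc]
  exact enorm_integral_le_lintegral_enorm _

theorem DetS_lip {Ξ : Rn 3 → Rn 3} (h : ∀ z z', ‖Ξ z - Ξ z'‖ ≤ 2 * ‖z - z'‖) (z z' : Rn 3) :
    ‖Ξ z - Ξ z'‖ₑ ≤ 2 * ‖z - z'‖ₑ := by
  rw [← ofReal_norm, ← ofReal_norm, ← ENNReal.ofReal_ofNat,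
    ← ENNReal.ofReal_mul (by norm_num)]
  exact ENNReal.ofReal_le_ofReal (h z z')

theorem DetS_fin {α : Type} [MeasurableSpace α] {μ : Measure α} {a b c : α → ℝ≥0∞} {k : ℝ≥0∞}
    (hp : 0 ≤ p) (hk : k ≠ ⊤) (h : ∀ x, c x ≤ k * b x) (hf : ∫⁻ x, (a x + b x ^ p) ∂μ ≠ ⊤) :
    ∫⁻ x, (a x + c x ^ p) ∂μ ≠ ⊤ := by
  have hk' : 1 + k ^ p ≠ ⊤ :=
    ENNReal.add_ne_top.2 ⟨ENNReal.one_ne_top, ENNReal.rpow_ne_top_of_nonneg hp hk⟩
  refine ne_top_of_le_ne_top (ENNReal.mul_ne_top hk' hf) ?_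
  rw [← lintegral_const_mul' _ _ hk']
  refine lintegral_mono fun x => ?_
  have h1 : c x ^ p ≤ k ^ p * b x ^ p := by
    rw [← ENNReal.mul_rpow_of_nonneg _ _ hp]
    exact ENNReal.rpow_le_rpow (h x) hp
  calc a x + c x ^ p ≤ a x + k ^ p * b x ^ p := add_le_add le_rfl h1
    _ ≤ (1 + k ^ p) * a x + (1 + k ^ p) * b x ^ p :=
      add_le_add (le_mul_of_one_le_left zero_le le_self_add)
        (mul_le_mul_left le_add_self _)
    _ = (1 + k ^ p) * (a x + b x ^ p) := (mul_add _ _ _).symm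

theorem DetS_cv {ρ : ℝ} (hρ : 0 < ρ) (g : ℝ → ℝ≥0∞) :
    ∫⁻ t in Icc (-ρ) ρ, g t = ENNReal.ofReal (2 * ρ) * ∫⁻ t in Icc (0 : ℝ) 1, g (-ρ + 2 * ρ * t) := by
  have e : (fun t : ℝ => -ρ + 2 * ρ * t) '' Icc 0 1 = Icc (-ρ) ρ := by
    ext t
    constructor
    · rintro ⟨s, hs, rfl⟩
      constructor <;> nlinarith [hs.1, hs.2]
    · intro ht
      refine ⟨(t + ρ) / (2 * ρ), ⟨div_nonneg (by linarith [ht.1]) (by linarith),
        (div_le_one (by linarith)).2 (by linarith [ht.2])⟩, ?_⟩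
      field_simp
      ring
  rw [← e, lintegral_image_eq_lintegral_abs_deriv_mul measurableSet_Icc (f' := fun _ => 2 * ρ)
    (fun x _ => by simpa using (((hasDerivAt_id x).const_mul (2 * ρ)).const_add (-ρ)).hasDerivWithinAt)
    (fun x _ y _ h => by
      have : 2 * ρ * x = 2 * ρ * y := by linarith
      exact mul_left_cancel₀ (by linarith) this),
    abs_of_pos (by linarith), lintegral_const_mul' _ _ ENNReal.ofReal_ne_top]

/-! ### The data -/

open Classical in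
/-- Upper gradient on a face. -/
def DetS_γ (C : ι → Cu) (ch : Set (Rn 3) → Ch) (D : Rn 3 → Rn 3 →L[ℝ] Rn 3) (F : Set (Rn 3))
    (ξ : Rn 2) : ℝ≥0∞ :=
  if ∃ q, F ⊆ (C q).q then 2 * ‖(D ((ch F).φ ξ)).comp (ch F).M‖ₑ else 4 * ‖D ((ch F).φ ξ)‖ₑ

/-- The corrected derivative. -/
def DetS_D (C : ι → Cu) (D : Rn 3 → Rn 3 →L[ℝ] Rn 3) (x : Rn 3) : Rn 3 →L[ℝ] Rn 3 :=
  D x + ∑ q, (ball (C q).o (C q).η).indicator (fun x => (C q).L.comp (D x) - D x) x

/-- The weight. -/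
def DetS_wt (C : ι → Cu) (kp : ι → Set (I3 × I3)) (y : Pcs kp → Rn 3) (C1 : ℝ) (z : Rn 3) :
    ℝ≥0∞ :=
  ENNReal.ofReal C1 ⊔ ⨆ b : Pcs kp,
    {z | (pcs C kp y b).Nr ((C b.1.1).cf * (C b.1.1).l) z}.indicator
      (fun _ => ENNReal.ofReal (C b.1.1).cf) z

theorem DetS_mD (h : Measurable D) : Measurable (DetS_D C D) := by
  refine h.add (Finset.measurable_sum _ fun q _ => Measurable.indicator ?_ measurableSet_ball)
  exact ((ContinuousLinearMap.compL ℝ (Rn 3) (Rn 3) (Rn 3) (C q).L).continuous.measurable.comp h).sub h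

theorem DetS_eD (hF : GFit C P aK K ch w lam) (D : Rn 3 → Rn 3 →L[ℝ] Rn 3) (q : ι) {x : Rn 3}
    (hx : x ∈ ball (C q).o (C q).η) : DetS_D C D x = (C q).L.comp (D x) := by
  rw [DetS_D, Finset.sum_eq_single q (fun q' _ hn => indicator_of_notMem
    (fun h => hn (DetS_same hF h (ball_subset_closedBall hx))) _) (by simp),
    indicator_of_mem hx, add_sub_cancel]

theorem DetS_Nr (c : Cu) (u : I3 × I3) (y : Rn 3) (a : ℝ) :
    MeasurableSet {z | (c.pc u y).Nr a z} := by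
  have h1 : IsClosed {x : Rn 3 | (c.pc u y).I.card = 3 →
      ∃ i, |x i - (c.pc u y).c i| = (c.pc u y).ρ} := by
    by_cases h : (c.pc u y).I.card = 3
    · simp only [h, forall_true_left, ofPred_exists]
      exact isClosed_iUnion_of_finite fun i => isClosed_eq (by fun_prop) continuous_const
    · simp [h]
  have h2 : IsCompact (c.pc u y).Bx := (c.Q_cpt u (c.pc u y).ρx).1.inter_right h1
  have e : {z | (c.pc u y).Nr a z} = (fun z : Rn 3 × Rn 3 => (c.pc u y).aff z.1 + z.2) ''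
      ((c.pc u y).Bx ×ˢ closedBall 0 a) := by
    ext z
    constructor
    · rintro ⟨x, hx, h⟩
      exact ⟨(x, z - (c.pc u y).aff x), ⟨hx, mem_closedBall_zero_iff.2 h⟩, add_sub_cancel _ _⟩
    · rintro ⟨⟨x, t⟩, ⟨hx, h⟩, rfl⟩
      exact ⟨x, hx, by simpa using h⟩
  rw [e]
  refine ((h2.prod (isCompact_closedBall _ _)).image ?_).isClosed.measurableSet
  unfold Pc.aff
  fun_prop

omit [Fintype ι] in
theorem DetS_mw [Finite (Pcs kp)] (y : Pcs kp → Rn 3) : Measurable (DetS_wt C kp y C1) := by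
  unfold DetS_wt
  exact Measurable.max measurable_const
    (Measurable.iSup fun b => measurable_const.indicator (DetS_Nr (C b.1.1) b.1.2 (y b) _))

variable {Ξ : Rn 3 → Rn 3} {y : Pcs kp → Rn 3}

omit [Fintype ι] in
theorem DetS_wtq (hF : GFit C P aK K ch w lam) (hk : ∀ q, kp q ⊆ (C q).Adm)
    (hC : CstOk C C1 Cf Cg) (hP : PrepOut C K f θ Cf kp Ξ y) {q : ι} {x : Rn 3} (hx : x ∈ K.sk 2)
    (hq : x ∈ (C q).q) : DetS_wt C kp y C1 (Ξ (f x)) ≤ (C q).Wt C1 (kp q) x := by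
  refine sup_le (ENNReal.ofReal_le_ofReal ?_) (iSup_le fun b => ?_)
  · split_ifs
    exacts [(hC.2 q).2.2, le_rfl]
  · by_cases h : Ξ (f x) ∈ {z | (pcs C kp y b).Nr ((C b.1.1).cf * (C b.1.1).l) z}
    · rw [indicator_of_mem h]
      have hz := hP.zone b x hx h
      obtain ⟨⟨q', u⟩, hu⟩ := b
      obtain rfl : q' = q :=
        DetS_same hF (DetS_O (hF.ok q') (((hF.ok q').zone_sub (hk q' hu)).1 hz)) hq
      rw [Cu.Wt, if_pos ⟨u, hu, hz⟩]
    · rw [indicator_of_notMem h]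
      exact zero_le

omit [Fintype ι] in
theorem DetS_wto (hF : GFit C P aK K ch w lam) (hk : ∀ q, kp q ⊆ (C q).Adm)
    (hP : PrepOut C K f θ Cf kp Ξ y) {x : Rn 3} (hx : x ∈ K.sk 2)
    (hq : ∀ q, x ∉ ball (C q).o (C q).η) : DetS_wt C kp y C1 (Ξ (f x)) ≤ ENNReal.ofReal C1 := by
  refine sup_le le_rfl (iSup_le fun b => ?_)
  rw [indicator_of_notMem]
  · exact zero_le
  · exact fun h => hq _ (DetS_O (hF.ok _) (((hF.ok _).zone_sub (hk _ b.2)).1 (hP.zone b x hx h)))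

omit [Fintype ι] in
theorem DetS_om (hF : GFit C P aK K ch w lam) {F : Set (Rn 3)} (h : F ∈ K.cel 2) :
    omF C aK K lam F ≠ ⊤ := by
  obtain ⟨τ₁, -, τ₂, -, -, -, -, ht⟩ := Kx.two_tops hF.opn h
  have : Finite {σ // σ ∈ K.cel 3 ∧ F ⊆ closure σ} :=
    ((Set.toFinite {τ₁, τ₂}).subset fun σ (hσ : σ ∈ K.cel 3 ∧ F ⊆ closure σ) =>
      ht σ hσ.1 hσ.2).to_subtype
  have := Fintype.ofFinite {σ // σ ∈ K.cel 3 ∧ F ⊆ closure σ}
  rw [omF, tsum_fintype]
  refine ENNReal.sum_ne_top.2 fun σ _ => ?_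
  split_ifs
  · exact ENNReal.ofReal_ne_top
  · exact ENNReal.ofReal_ne_top

theorem DetS_face (hp1 : 1 ≤ p) (hF : GFit C P aK K ch w lam) (hR : RegIn p C K ch f D v)
    (hl : ∀ z z', ‖Ξ z - Ξ z'‖ ≤ 2 * ‖z - z'‖) {F : Set (Rn 3)} (h : F ∈ K.cel 2) :
    FIn p (Ξ ∘ f) v (ch F) (DetS_γ C ch D F) := by
  have hO := (hF.face F h).1
  have hm : Measurable fun ξ => D ((ch F).φ ξ) := hR.mD.comp (DetS_φc _).measurable
  have hb : ∀ ξ, DetS_γ C ch D F ξ ≤ (2 * ‖(ch F).M‖ₑ + 4) * ‖D ((ch F).φ ξ)‖ₑ := fun ξ => by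
    unfold DetS_γ
    split_ifs
    · refine le_trans ?_ (mul_le_mul_left le_self_add _)
      rw [mul_assoc, mul_comm ‖(ch F).M‖ₑ]
      exact mul_le_mul_right (ContinuousLinearMap.opENorm_comp_le _ _) _
    · exact mul_le_mul_left le_add_self _
  have hk : 2 * ‖(ch F).M‖ₑ + 4 ≠ ⊤ :=
    ENNReal.add_ne_top.2 ⟨ENNReal.mul_ne_top (by simp) enorm_ne_top, by simp⟩
  refine ⟨?_, fun ξ hξ ξ' hξ' hv s s' h0 h1 h2 => ?_,
    DetS_fin (by linarith) hk hb (hR.ff F h).1, DetS_fin (by linarith) hk hb (hR.ff F h).2⟩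
  · unfold DetS_γ
    split_ifs
    · exact measurable_const.mul ((((ContinuousLinearMap.compL ℝ (Rn 2) (Rn 3) (Rn 3)).flip
        (ch F).M).continuous.measurable.comp hm).enorm)
    · exact measurable_const.mul hm.enorm
  · have hs : segment ℝ ((ch F).φ ξ) ((ch F).φ ξ') ⊆ closure F :=
      (Kx.cells_cvx h.1).closure.segment_subset (DetS_φcl hO hξ) (DetS_φcl hO hξ')
    have hd : (ch F).φ ξ' - (ch F).φ ξ = (ch F).M (ξ' - ξ) := by
      simp only [Ch.φ, map_sub, add_sub_add_left_eq_sub]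
    simp only [DetS_φseg] at hv
    simp only [comp_apply, DetS_φseg]
    refine (DetS_lip hl _ _).trans ?_
    unfold DetS_γ
    simp only [DetS_φseg]
    split_ifs with hq
    · obtain ⟨q, hq⟩ := hq
      have hac := hR.us q _ _ (hs.trans (closure_minimal hq isClosed_closedBall)) hv
      refine (mul_le_mul_right (DetS_ac hac h0 h1 h2) _).trans ?_
      rw [← lintegral_const_mul' _ _ (by simp), ← lintegral_const_mul' _ _ enorm_ne_top]
      refine lintegral_mono fun x => ?_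
      rw [hd, mul_left_comm, mul_comm ‖ξ' - ξ‖ₑ]
      exact mul_le_mul_right (ContinuousLinearMap.le_opENorm
        ((D (seg ((ch F).φ ξ) ((ch F).φ ξ') x)).comp (ch F).M) (ξ' - ξ)) _
    · obtain ⟨σ, hσ, hFσ⟩ := Kx.exists_up hF.opn h.1 (d := 3) (by rw [h.2]; norm_num) le_rfl
      have ho : ∀ q, ¬ σ ⊆ (C q).q := fun q hσq =>
        hq ⟨q, hFσ.trans (closure_minimal hσq isClosed_closedBall)⟩
      have hB := ((hF.out σ hσ ho).2.2 F ⟨h, hFσ⟩ (ξ' - ξ)).1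
      have hB' : ‖(ch F).φ ξ' - (ch F).φ ξ‖ₑ ≤ ‖ξ' - ξ‖ₑ := by
        rw [hd, ← ofReal_norm, ← ofReal_norm]
        exact ENNReal.ofReal_le_ofReal (by simpa using hB)
      refine (mul_le_mul_right ((hR.gs _ _ (hs.trans (Kx.cl_sub h.1)) hv s s' h0 h1 h2).trans
        (mul_le_mul_left hB' _)) _).trans (le_of_eq ?_)
      rw [mul_left_comm, ← lintegral_const_mul' _ _ (by simp)]
      congr 1
      refine lintegral_congr fun x => ?_
      rw [← mul_assoc]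
      norm_num

theorem DetS_chd (hp1 : 1 ≤ p) (hF : GFit C P aK K ch w lam) (hR : RegIn p C K ch f D v)
    (hk : ∀ q, kp q ⊆ (C q).Adm) (hP : PrepOut C K f θ Cf kp Ξ y) (b : Pcs kp) {j : Fin 3}
    (hj : (C b.1.1).I = {j}) : ChdIn K p (Ξ ∘ f) (DetS_D C D) (pcs C kp y b) j
      ((C b.1.1).g * (C b.1.1).l / (C b.1.1).cf) := by
  obtain ⟨k, hk1⟩ := hP.chd b (by rw [hj, Finset.card_singleton])
  obtain ⟨⟨q, u⟩, hu⟩ := b
  replace hj : (C q).I = {j} := hj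
  have hu' : u ∈ (C q).Adm := hk q hu
  have ho := hF.ok q
  obtain ⟨-, -, hs, -, hl, -, hκ, -⟩ := ho.pos
  obtain ⟨-, n2, -, -, -, n6, n7, -⟩ := ho.num
  obtain ⟨-, -, -, ⟨k1, m1⟩, ⟨k2, -, m2⟩, -⟩ := ho.mult
  have hρ : 0 < (C q).ρ := hl.trans_le n6
  have hQ : (C q).Q u (C q).ρ ⊆ ball (C q).o (C q).η := DetS_Q ho hu' (by linarith)
  have hx : (C q).Q u (C q).ρ ⊆ (C q).Q u (C q).ρx := DetS_Qmono _ n7
  set a := ((C q).pc u 0).pt j (-(C q).ρ) with ha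
  set a' := ((C q).pc u 0).pt j (C q).ρ with ha'
  have hsg : ∀ t, seg a a' t = ((C q).pc u 0).pt j (-(C q).ρ + 2 * (C q).ρ * t) := fun t => by
    simp only [ha, ha', seg, Pc.pt]
    module
  have hpt : ∀ t ∈ Icc (-(C q).ρ) (C q).ρ, ((C q).pc u 0).pt j t ∈ (C q).Q u (C q).ρ := by
    intro t ht
    refine ⟨fun i hi => ?_, fun i hi => ?_⟩
    · have : i ≠ j := fun e => hi (by
        change i ∈ (C q).I
        rw [hj, e]
        exact Finset.mem_singleton_self j)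
      simp [Pc.pt, this]
    · have : i = j := Finset.mem_singleton.1 (hj ▸ hi)
      simpa [Pc.pt, this, abs_le] using ht
  have hsq : ∀ t ∈ Icc (0 : ℝ) 1, seg a a' t ∈ (C q).Q u (C q).ρ := fun t ht => by
    rw [hsg]
    exact hpt _ ⟨by nlinarith [ht.1], by nlinarith [ht.2]⟩
  have hfc := hR.fc q j hj u hu' a a' rfl rfl
  have hac : ACs f D a a' := hR.us q a a' (by
      rw [← seg_image]
      rintro _ ⟨t, ht, rfl⟩
      exact ball_subset_closedBall (hQ (hsq t ht)))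
    (ne_top_of_le_ne_top hfc (lintegral_mono fun t => le_self_add))
  have hD : ∀ t ∈ Icc (0 : ℝ) 1, DetS_D C D (seg a a' t) = (C q).L.comp (D (seg a a' t)) :=
    fun t ht => DetS_eD hF D q (hQ (hsq t ht))
  refine ⟨hQ.trans (ball_subset_closedBall.trans (hF.fit q).sub), fun x hx' => ?_,
    fun x hx' => (hk1 x (hx hx')).2, ⟨?_, fun t ht => ?_⟩, ?_⟩
  · refine (hF.fit q).cel ho hu' ⟨k2 * k1, ?_⟩ ?_ hx'
    · change (C q).ρ = _
      rw [m2, m1]
      push_cast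
      ring
    · change (C q).ρ ≤ _
      nlinarith
  · exact IntegrableOn.congr_fun
      ((ContinuousLinearMap.compL ℝ (Rn 3) (Rn 3) (Rn 3) (C q).L).integrable_comp hac.1)
      (fun t ht => (hD t ht).symm) measurableSet_Icc
  · change Ξ (f (seg a a' t)) = Ξ (f a) + ∫ s in (0 : ℝ)..t, DetS_D C D (seg a a' s) (a' - a)
    have ha0 : a ∈ (C q).Q u (C q).ρ := hpt _ ⟨le_rfl, by linarith⟩
    have hi : IntervalIntegrable (fun s => D (seg a a' s) (a' - a)) volume 0 t :=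
      (intervalIntegrable_iff_integrableOn_Icc_of_le ht.1).2
        (IntegrableOn.mono_set ((ContinuousLinearMap.apply ℝ (Rn 3) (a' - a)).integrable_comp hac.1)
          (Icc_subset_Icc le_rfl ht.2))
    rw [(hk1 _ (hx (hsq t ht))).1, (hk1 _ (hx ha0)).1, hac.2 t ht, map_add,
      ← ContinuousLinearMap.intervalIntegral_comp_comm _ hi, add_right_comm]
    congr 1
    refine intervalIntegral.integral_congr fun s hs' => ?_
    rw [uIcc_of_le ht.1] at hs'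
    simp only [hD s ⟨hs'.1, hs'.2.trans ht.2⟩, ContinuousLinearMap.comp_apply]
  · change ∫⁻ t in Icc (-(C q).ρ) (C q).ρ, ‖DetS_D C D (((C q).pc u 0).pt j t)‖ₑ ^ p ≠ ⊤
    rw [DetS_cv hρ]
    refine ENNReal.mul_ne_top ENNReal.ofReal_ne_top ?_
    simp only [← hsg]
    rw [setLIntegral_congr_fun measurableSet_Icc (fun t ht => by rw [hD t ht])]
    refine ne_top_of_le_ne_top (DetS_fin (k := ‖(C q).L‖ₑ) (by linarith) enorm_ne_top
      (fun t => ContinuousLinearMap.opENorm_comp_le _ _) hfc) (lintegral_mono fun t => le_add_self)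

omit [Fintype ι] in
theorem DetS_sub (hF : GFit C P aK K ch w lam) (hk : ∀ q, kp q ⊆ (C q).Adm) (b : Pcs kp) {c : ℝ}
    (hc : c ≤ 32 * P.s) : (pcs C kp y b).Q ((pcs C kp y b).ρx + c) ⊆
      ball (C b.1.1).o (C b.1.1).η := by
  refine DetS_Q (hF.ok _) (hk _ b.2) ?_
  rw [pcs, Cu.pc_ρx, DetS_s hF]
  linarith

omit [Fintype ι] in
theorem DetS_iff (hF : GFit C P aK K ch w lam) (hk : ∀ q, kp q ⊆ (C q).Adm) {c : ℝ}
    (hc : c ≤ 32 * P.s) {q : ι} {F : Set (Rn 3)} (h : F ∈ K.cel 2) (hq : F ⊆ (C q).q) :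
    (∃ b, 2 ≤ (pcs C kp y b).I.card ∧ F ⊆ (pcs C kp y b).Q ((pcs C kp y b).ρx + c)) ↔
      2 ≤ (C q).I.card ∧ ∃ u ∈ kp q, F ⊆ (C q).Q u ((C q).ρx + c) := by
  constructor
  · rintro ⟨b, h1, h2⟩
    obtain ⟨x, hx⟩ := Kx.cells_ne h.1
    have e := DetS_same hF (DetS_sub hF hk b hc (h2 hx)) (hq hx)
    obtain ⟨⟨q', u⟩, hu⟩ := b
    obtain rfl : q' = q := e
    rw [pcs, Cu.pc_ρx] at h2
    exact ⟨h1, u, hu, h2⟩
  · rintro ⟨h1, u, hu, h2⟩
    refine ⟨⟨(q, u), hu⟩, h1, ?_⟩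
    rw [pcs, Cu.pc_ρx]
    exact h2

omit [Fintype ι] in
theorem DetS_disj (hF : GFit C P aK K ch w lam) (hk : ∀ q, kp q ⊆ (C q).Adm) {b b' : Pcs kp}
    (hn : b ≠ b') : Disjoint ((pcs C kp y b).Q ((pcs C kp y b).ρx + 32 * P.s))
      ((pcs C kp y b').Q ((pcs C kp y b').ρx + 32 * P.s)) := by
  refine Set.disjoint_left.2 fun x hx hx' => ?_
  have e := DetS_same hF (DetS_sub hF hk b le_rfl hx)
    (ball_subset_closedBall (DetS_sub hF hk b' le_rfl hx'))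
  obtain ⟨⟨q, u⟩, hu⟩ := b
  obtain ⟨⟨q', u'⟩, hu'⟩ := b'
  obtain rfl : q = q' := e
  have hu0 : u ≠ u' := fun e => hn (by subst e; rfl)
  have ho := hF.ok q
  obtain ⟨-, -, hs, -, hl, -, hκ, hζ, -⟩ := ho.pos
  obtain ⟨-, n2, -, -, n5, n6, n7, -⟩ := ho.num
  rw [pcs, Cu.pc_ρx, Cu.pc_Q, ← DetS_s hF q, Cu.mem_Q (by linarith)] at hx hx'
  have h1 := (ho.tile_sep (hk q hu) (hk q hu') hu0).1
  have h2 : ‖(C q).ctr u - (C q).ctr u'‖ ≤ ‖x - (C q).ctr u'‖ + ‖x - (C q).ctr u‖ := by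
    rw [show (C q).ctr u - (C q).ctr u' = (x - (C q).ctr u') - (x - (C q).ctr u) by abel]
    exact norm_sub_le _ _
  have h3 := hx.2
  have h4 := hx'.2
  nlinarith

theorem exists_skd (hp1 : 1 ≤ p) (hF : GFit C P aK K ch w lam) (hc : ContinuousOn f Ω)
    (hi : InjOn f Ω) (hR : RegIn p C K ch f D v) (hk : ∀ q, kp q ⊆ (C q).Adm)
    (hs : Scl (f '' Ω) θ 100) (hC : CstOk C C1 Cf Cg) {Ξ : Rn 3 → Rn 3} {y : Pcs kp → Rn 3}
    (hP : PrepOut C K f θ Cf kp Ξ y) :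
    ∃ d : SD (Pcs kp), SIn p C1 P.g Cf K (Ξ ∘ f) d ∧
      SDok p C1 C P aK K ch w lam (Ξ ∘ f) D θ kp y d := by
  have := finite_pcs hF hk
  have hE : (⋃ q, (C q).Ed (kp q)).Finite :=
    Set.finite_iUnion fun q => (hF.ok q).Ed0_finite.subset fun e he => he.1
  have hs0 : 0 < P.s := by
    unfold Pr.s
    positivity
  have hp0 : 0 ≤ p := by linarith
  have him : (Ξ ∘ f) '' Ω = f '' Ω := by rw [image_comp, hP.img]
  have hΞ : Continuous Ξ := (LipschitzWith.of_dist_le_mul (K := 2) fun z z' => by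
    simpa [dist_eq_norm] using hP.lip z z').continuous
  have hcf : ∀ b : Pcs kp, Cf (pcs C kp y b).A = (C b.1.1).cf := fun b => (hC.2 b.1.1).1.symm
  have hed : ∀ q, ∀ e ∈ (C q).Ed (kp q), K.Edge e.1 e.2 ∧
      segment ℝ e.1 e.2 ⊆ ball (C q).o (C q).η := fun q e he =>
    ⟨((hF.fit q).edge (hF.ok q) he.1).1,
      ((hF.fit q).edge (hF.ok q) he.1).2.1.trans (DetS_WI (hF.ok q))⟩
  have hno : ∀ σ ∈ K.cel 3, (∀ q, ¬ σ ⊆ (C q).q) → ∀ F ∈ K.fc σ, ∀ c ≤ 32 * P.s, ∀ b,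
      ¬ F ⊆ (pcs C kp y b).Q ((pcs C kp y b).ρx + c) := fun σ hσ ho F h c hc b h2 => by
    obtain ⟨x, hx⟩ := Kx.cells_ne h.1.1
    exact DetS_out hF hσ ho _ (h.2 hx) (DetS_sub hF hk b hc (h2 hx))
  refine ⟨⟨v, DetS_D C D, ch, w, DetS_γ C ch D, omF C aK K lam, hE.toFinset,
    fun e t => 2 * ‖e.2 - e.1‖ₑ * ‖D (seg e.1 e.2 t)‖ₑ, fun _ => P.ωe p, θ, DetS_wt C kp y C1,
    pcs C kp y, P.s, fun b => (C b.1.1).r, fun b => (C b.1.1).σ⟩,
    ⟨hF.opn, hΞ.comp_continuousOn hc, hP.inj.comp_injOn hi, hR.mv, DetS_mD hR.mD,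
      fun F h => ⟨(hF.face F h).1, (hF.face F h).2, DetS_face hp1 hF hR hP.lip h, DetS_om hF h⟩,
      fun e he => ?_, him.symm ▸ hs, DetS_mw y, fun z => le_sup_left, fun b z hz => ?_,
      him.symm ▸ hP.pc, hs0, fun b hb => ?_, fun b j hj => ?_, fun b b' hn => DetS_disj hF hk hn⟩,
    ⟨rfl, rfl, rfl, rfl, fun e => hE.mem_toFinset.trans mem_iUnion, fun _ => rfl,
      fun q x hx => DetS_eD hF D q hx, fun q F h hq => ?_, fun σ hσ ho F h hr => ?_,
      fun q F h hq => ?_, fun σ hσ ho F h => ?_, fun q e he => ?_⟩⟩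
  · obtain ⟨q, he⟩ := mem_iUnion.1 (hE.mem_toFinset.1 he)
    refine ⟨(hed q e he).1, fun b => Set.disjoint_left.2 fun x hx hx' => ?_, ?_,
      ENNReal.ofReal_ne_top, fun s s' h0 h1 h2 => ?_⟩
    · have e1 := DetS_same hF ((hed q e he).2 (openSegment_subset_segment _ _ _ hx))
        (ball_subset_closedBall (DetS_sub (y := y) hF hk b (c := 0) (by linarith)
          (by rw [add_zero]; exact hx')))
      obtain ⟨⟨q', u⟩, hu⟩ := b
      obtain rfl : q = q' := e1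
      change x ∈ (pcs C kp y ⟨(q, u), hu⟩).Q (pcs C kp y ⟨(q, u), hu⟩).ρx at hx'
      rw [pcs, Cu.pc_ρx] at hx'
      exact Set.disjoint_left.1 (he.2 u hu) hx hx'
    · refine measurable_const.mul (hR.mD.comp (Continuous.measurable ?_)).enorm
      unfold seg
      fun_prop
    · have hac := hR.us q _ _ ((hed q e he).2.trans ball_subset_closedBall) (hR.fe q e he.1)
      refine (DetS_lip hP.lip _ _).trans ((mul_le_mul_right (DetS_ac hac h0 h1 h2) _).trans ?_)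
      rw [← lintegral_const_mul' _ _ (by simp)]
      refine lintegral_mono fun x => ?_
      change _ ≤ 2 * ‖e.2 - e.1‖ₑ * ‖D (seg e.1 e.2 x)‖ₑ
      rw [mul_assoc, mul_comm ‖e.2 - e.1‖ₑ]
      exact mul_le_mul_right (ContinuousLinearMap.le_opENorm _ _) _
  · change (pcs C kp y b).Nr (Cf (pcs C kp y b).A * (C b.1.1).l) z at hz
    change ENNReal.ofReal (Cf (pcs C kp y b).A) ≤ DetS_wt C kp y C1 z
    rw [hcf] at hz ⊢
    refine le_sup_of_le_right (le_iSup_of_le b ?_)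
    rw [indicator_of_mem (show z ∈ {z | (pcs C kp y b).Nr ((C b.1.1).cf * (C b.1.1).l) z} from hz)]
  · change BoxIn K (Ξ ∘ f) (pcs C kp y b) P.s (C b.1.1).r (C b.1.1).σ
      (P.g * (C b.1.1).l / Cf (pcs C kp y b).A)
    rw [hcf, ← DetS_s hF b.1.1, ← DetS_g hF b.1.1]
    exact hP.box b hb
  · change ChdIn K p (Ξ ∘ f) (DetS_D C D) (pcs C kp y b) j
      (P.g * (C b.1.1).l / Cf (pcs C kp y b).A)
    rw [hcf, ← DetS_g hF b.1.1]
    exact DetS_chd hp1 hF hR hk hP b hj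
  · have := DetS_iff (y := y) hF hk (c := 0) (by linarith) h hq
    simp only [add_zero] at this
    exact this
  · obtain ⟨b, -, h2⟩ := hr
    exact hno σ hσ ho F h 0 (by linarith) b (by rw [add_zero]; exact h2)
  · have hz := DetS_iff (y := y) hF hk (c := 32 * P.s) le_rfl h hq
    have hO := (hF.face F h).1
    have hw : ∀ ξ ∈ closure (ch F).U,
        (DetS_wt C kp y C1 ((Ξ ∘ f) ((ch F).φ ξ)) * DetS_γ C ch D F ξ) ^ p ≤
          ((C q).Wt C1 (kp q) ((ch F).φ ξ) * (2 * ‖(D ((ch F).φ ξ)).comp (ch F).M‖ₑ)) ^ p := by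
      intro ξ hξ
      rw [DetS_γ, if_pos ⟨q, hq⟩]
      exact ENNReal.rpow_le_rpow (mul_le_mul_left (DetS_wtq hF hk hC hP
        (Kx.cl_sub_sk h.1 h.2.le (DetS_φcl hO hξ))
        (closure_minimal hq isClosed_closedBall (DetS_φcl hO hξ))) _) hp0
    rw [SD.X, Cu.XF]
    split_ifs with h1 h2 h2
    · exact mul_le_mul_right (setLIntegral_mono' isClosed_frontier.measurableSet
        fun ξ hξ => hw ξ (frontier_subset_closure hξ)) _
    · have h3 := hz.1 h1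
      rw [← DetS_s hF q] at h3
      exact absurd h3 h2
    · exact absurd (hz.2 (by rw [← DetS_s hF q]; exact h2)) h1
    · exact setLIntegral_mono' hO.2.1.measurableSet fun ξ hξ => hw ξ (subset_closure hξ)
  · have hO := (hF.face F h.1).1
    rw [SD.X, if_neg fun ⟨b, _, h2⟩ => hno σ hσ ho F h _ le_rfl b h2]
    refine setLIntegral_mono' hO.2.1.measurableSet fun ξ hξ => ENNReal.rpow_le_rpow ?_ hp0
    have hξ' : (ch F).φ ξ ∈ F := hO.2.2.le (mem_image_of_mem _ hξ)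
    refine mul_le_mul' (DetS_wto hF hk hP (Kx.cl_sub_sk h.1.1 h.1.2.le (subset_closure hξ'))
      fun q => DetS_out hF hσ ho q (h.2 hξ')) ?_
    change DetS_γ C ch D F ξ ≤ _
    unfold DetS_γ
    split_ifs
    · refine mul_le_mul' (by norm_num) ((ContinuousLinearMap.opENorm_comp_le _ _).trans
        (mul_le_of_le_one_right zero_le ?_))
      rw [← ofReal_norm]
      exact ENNReal.ofReal_le_one.2 (DetS_M ((hF.out σ hσ ho).2.2 F h))
    · exact le_rfl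
  · refine setLIntegral_mono' measurableSet_Icc fun t ht => ENNReal.rpow_le_rpow ?_ hp0
    have h1 : seg e.1 e.2 t ∈ segment ℝ e.1 e.2 := seg_image e.1 e.2 ▸ mem_image_of_mem _ ht
    exact mul_le_mul_left (DetS_wtq hF hk hC hP
      (Kx.sk_mono (by norm_num) ((hed q e he).1.seg_sub h1))
      (ball_subset_closedBall ((hed q e he).2 h1))) _

end BEp
end
end

-- merged part: Pool.Agent.Work.MP_f0515e_an.P2.QDetS
section
/-! The data on the skeleton, from the doubled upper gradients. -/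

open Set Metric Filter Topology Function BEv MeasureTheory
open scoped NNReal ENNReal

noncomputable section
namespace BEp

variable {ι : Type} [Fintype ι] {C : ι → Cu} {P : Pr} {aK : ℝ} {Ω : Set (Rn 3)} {K : Kx Ω}
  {ch : Set (Rn 3) → Ch} {w lam : Set (Rn 3) → ℝ} {f : Rn 3 → Rn 3} {D : Rn 3 → Rn 3 →L[ℝ] Rn 3}
  {v : Rn 3 → ℝ≥0∞} {θ : Rn 3 → ℝ} {kp : ι → Set (I3 × I3)} {p C1 : ℝ}
  {Cf Cg : (Rn 3 ≃L[ℝ] Rn 3) → ℝ}

variable {Ξ : Rn 3 → Rn 3} {y : Pcs kp → Rn 3}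

omit [Fintype ι] in
theorem QDetS_wtq (hF : GFit C P aK K ch w lam) (hk : ∀ q, kp q ⊆ (C q).Adm)
    (hC : CstOk C C1 Cf Cg) (hP : PrepOut2 C K f θ Cf kp Ξ y) {q : ι} {x : Rn 3} (hx : x ∈ K.sk 2)
    (hq : x ∈ (C q).q) : DetS_wt C kp y C1 (Ξ (f x)) ≤ (C q).Wt C1 (kp q) x := by
  refine sup_le (ENNReal.ofReal_le_ofReal ?_) (iSup_le fun b => ?_)
  · split_ifs
    exacts [(hC.2 q).2.2, le_rfl]
  · by_cases h : Ξ (f x) ∈ {z | (pcs C kp y b).Nr ((C b.1.1).cf * (C b.1.1).l) z}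
    · rw [indicator_of_mem h]
      have hz := hP.zone b x hx h
      obtain ⟨⟨q', u⟩, hu⟩ := b
      obtain rfl : q' = q :=
        DetS_same hF (DetS_O (hF.ok q') (((hF.ok q').zone_sub (hk q' hu)).1 hz)) hq
      rw [Cu.Wt, if_pos ⟨u, hu, hz⟩]
    · rw [indicator_of_notMem h]
      exact zero_le

omit [Fintype ι] in
theorem QDetS_wto (hF : GFit C P aK K ch w lam) (hk : ∀ q, kp q ⊆ (C q).Adm)
    (hP : PrepOut2 C K f θ Cf kp Ξ y) {x : Rn 3} (hx : x ∈ K.sk 2)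
    (hq : ∀ q, x ∉ ball (C q).o (C q).η) : DetS_wt C kp y C1 (Ξ (f x)) ≤ ENNReal.ofReal C1 := by
  refine sup_le le_rfl (iSup_le fun b => ?_)
  rw [indicator_of_notMem]
  · exact zero_le
  · exact fun h => hq _ (DetS_O (hF.ok _) (((hF.ok _).zone_sub (hk _ b.2)).1 (hP.zone b x hx h)))

theorem QDetS_face (hp1 : 1 ≤ p) (hF : GFit C P aK K ch w lam) (hR : RegIn p C K ch f D v)
    (hP : PrepOut2 C K f θ Cf kp Ξ y) {F : Set (Rn 3)} (h : F ∈ K.cel 2) :
    FIn p (Ξ ∘ f) v (ch F) (DetS_γ C ch D F) := by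
  have hO := (hF.face F h).1
  have hm : Measurable fun ξ => D ((ch F).φ ξ) := hR.mD.comp (DetS_φc _).measurable
  have hb : ∀ ξ, DetS_γ C ch D F ξ ≤ (2 * ‖(ch F).M‖ₑ + 4) * ‖D ((ch F).φ ξ)‖ₑ := fun ξ => by
    unfold DetS_γ
    split_ifs
    · refine le_trans ?_ (mul_le_mul_left le_self_add _)
      rw [mul_assoc, mul_comm ‖(ch F).M‖ₑ]
      exact mul_le_mul_right (ContinuousLinearMap.opENorm_comp_le _ _) _
    · exact mul_le_mul_left le_add_self _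
  have hk : 2 * ‖(ch F).M‖ₑ + 4 ≠ ⊤ :=
    ENNReal.add_ne_top.2 ⟨ENNReal.mul_ne_top (by simp) enorm_ne_top, by simp⟩
  refine ⟨?_, fun ξ hξ ξ' hξ' hv s s' h0 h1 h2 => ?_,
    DetS_fin (by linarith) hk hb (hR.ff F h).1, DetS_fin (by linarith) hk hb (hR.ff F h).2⟩
  · unfold DetS_γ
    split_ifs
    · exact measurable_const.mul ((((ContinuousLinearMap.compL ℝ (Rn 2) (Rn 3) (Rn 3)).flip
        (ch F).M).continuous.measurable.comp hm).enorm)
    · exact measurable_const.mul hm.enorm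
  · have hs : segment ℝ ((ch F).φ ξ) ((ch F).φ ξ') ⊆ closure F :=
      (Kx.cells_cvx h.1).closure.segment_subset (DetS_φcl hO hξ) (DetS_φcl hO hξ')
    have hd : (ch F).φ ξ' - (ch F).φ ξ = (ch F).M (ξ' - ξ) := by
      simp only [Ch.φ, map_sub, add_sub_add_left_eq_sub]
    simp only [DetS_φseg] at hv
    simp only [comp_apply, DetS_φseg]
    have hk2 := hs.trans (Kx.cl_sub_sk h.1 h.2.le)
    unfold DetS_γ
    simp only [DetS_φseg]
    split_ifs with hq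
    · obtain ⟨q, hq⟩ := hq
      have hac := hR.us q _ _ (hs.trans (closure_minimal hq isClosed_closedBall)) hv
      refine (hP.dbl _ _ hk2 _ (fun _ _ => DetS_ac hac) s s' h0 h1 h2).trans ?_
      rw [← lintegral_const_mul' _ _ (by simp), ← lintegral_const_mul' _ _ enorm_ne_top]
      refine lintegral_mono fun x => ?_
      rw [hd, mul_left_comm, mul_comm ‖ξ' - ξ‖ₑ]
      exact mul_le_mul_right (ContinuousLinearMap.le_opENorm
        ((D (seg ((ch F).φ ξ) ((ch F).φ ξ') x)).comp (ch F).M) (ξ' - ξ)) _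
    · obtain ⟨σ, hσ, hFσ⟩ := Kx.exists_up hF.opn h.1 (d := 3) (by rw [h.2]; norm_num) le_rfl
      have ho : ∀ q, ¬ σ ⊆ (C q).q := fun q hσq =>
        hq ⟨q, hFσ.trans (closure_minimal hσq isClosed_closedBall)⟩
      have hB := ((hF.out σ hσ ho).2.2 F ⟨h, hFσ⟩ (ξ' - ξ)).1
      have hB' : ‖(ch F).φ ξ' - (ch F).φ ξ‖ₑ ≤ ‖ξ' - ξ‖ₑ := by
        rw [hd, ← ofReal_norm, ← ofReal_norm]
        exact ENNReal.ofReal_le_ofReal (by simpa using hB)
      refine (hP.dbl _ _ hk2 (fun x => ‖ξ' - ξ‖ₑ *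
        (2 * ‖D (seg ((ch F).φ ξ) ((ch F).φ ξ') x)‖ₑ)) (fun r r' k0 k1 k2 => ?_) s s' h0 h1 h2).trans
        (le_of_eq ?_)
      · rw [lintegral_const_mul' _ _ enorm_ne_top]
        exact (hR.gs _ _ (hs.trans (Kx.cl_sub h.1)) hv r r' k0 k1 k2).trans (mul_le_mul_left hB' _)
      rw [lintegral_const_mul' _ _ enorm_ne_top, mul_left_comm, ← lintegral_const_mul' _ _ (by simp)]
      congr 1
      refine lintegral_congr fun x => ?_
      rw [← mul_assoc]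
      norm_num

theorem QDetS_chd (hp1 : 1 ≤ p) (hF : GFit C P aK K ch w lam) (hR : RegIn p C K ch f D v)
    (hk : ∀ q, kp q ⊆ (C q).Adm) (hP : PrepOut2 C K f θ Cf kp Ξ y) (b : Pcs kp) {j : Fin 3}
    (hj : (C b.1.1).I = {j}) : ChdIn K p (Ξ ∘ f) (DetS_D C D) (pcs C kp y b) j
      ((C b.1.1).g * (C b.1.1).l / (C b.1.1).cf) := by
  obtain ⟨k, hk1⟩ := hP.chd b (by rw [hj, Finset.card_singleton])
  obtain ⟨⟨q, u⟩, hu⟩ := b
  replace hj : (C q).I = {j} := hj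
  have hu' : u ∈ (C q).Adm := hk q hu
  have ho := hF.ok q
  obtain ⟨-, -, hs, -, hl, -, hκ, -⟩ := ho.pos
  obtain ⟨-, n2, -, -, -, n6, n7, -⟩ := ho.num
  obtain ⟨-, -, -, ⟨k1, m1⟩, ⟨k2, -, m2⟩, -⟩ := ho.mult
  have hρ : 0 < (C q).ρ := hl.trans_le n6
  have hQ : (C q).Q u (C q).ρ ⊆ ball (C q).o (C q).η := DetS_Q ho hu' (by linarith)
  have hx : (C q).Q u (C q).ρ ⊆ (C q).Q u (C q).ρx := DetS_Qmono _ n7
  set a := ((C q).pc u 0).pt j (-(C q).ρ) with ha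
  set a' := ((C q).pc u 0).pt j (C q).ρ with ha'
  have hsg : ∀ t, seg a a' t = ((C q).pc u 0).pt j (-(C q).ρ + 2 * (C q).ρ * t) := fun t => by
    simp only [ha, ha', seg, Pc.pt]
    module
  have hpt : ∀ t ∈ Icc (-(C q).ρ) (C q).ρ, ((C q).pc u 0).pt j t ∈ (C q).Q u (C q).ρ := by
    intro t ht
    refine ⟨fun i hi => ?_, fun i hi => ?_⟩
    · have : i ≠ j := fun e => hi (by
        change i ∈ (C q).I
        rw [hj, e]
        exact Finset.mem_singleton_self j)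
      simp [Pc.pt, this]
    · have : i = j := Finset.mem_singleton.1 (hj ▸ hi)
      simpa [Pc.pt, this, abs_le] using ht
  have hsq : ∀ t ∈ Icc (0 : ℝ) 1, seg a a' t ∈ (C q).Q u (C q).ρ := fun t ht => by
    rw [hsg]
    exact hpt _ ⟨by nlinarith [ht.1], by nlinarith [ht.2]⟩
  have hfc := hR.fc q j hj u hu' a a' rfl rfl
  have hac : ACs f D a a' := hR.us q a a' (by
      rw [← seg_image]
      rintro _ ⟨t, ht, rfl⟩
      exact ball_subset_closedBall (hQ (hsq t ht)))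
    (ne_top_of_le_ne_top hfc (lintegral_mono fun t => le_self_add))
  have hD : ∀ t ∈ Icc (0 : ℝ) 1, DetS_D C D (seg a a' t) = (C q).L.comp (D (seg a a' t)) :=
    fun t ht => DetS_eD hF D q (hQ (hsq t ht))
  refine ⟨hQ.trans (ball_subset_closedBall.trans (hF.fit q).sub), fun x hx' => ?_,
    fun x hx' => (hk1 x (hx hx')).2, ⟨?_, fun t ht => ?_⟩, ?_⟩
  · refine (hF.fit q).cel ho hu' ⟨k2 * k1, ?_⟩ ?_ hx'
    · change (C q).ρ = _
      rw [m2, m1]
      push_cast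
      ring
    · change (C q).ρ ≤ _
      nlinarith
  · exact IntegrableOn.congr_fun
      ((ContinuousLinearMap.compL ℝ (Rn 3) (Rn 3) (Rn 3) (C q).L).integrable_comp hac.1)
      (fun t ht => (hD t ht).symm) measurableSet_Icc
  · change Ξ (f (seg a a' t)) = Ξ (f a) + ∫ s in (0 : ℝ)..t, DetS_D C D (seg a a' s) (a' - a)
    have ha0 : a ∈ (C q).Q u (C q).ρ := hpt _ ⟨le_rfl, by linarith⟩
    have hi : IntervalIntegrable (fun s => D (seg a a' s) (a' - a)) volume 0 t :=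
      (intervalIntegrable_iff_integrableOn_Icc_of_le ht.1).2
        (IntegrableOn.mono_set ((ContinuousLinearMap.apply ℝ (Rn 3) (a' - a)).integrable_comp hac.1)
          (Icc_subset_Icc le_rfl ht.2))
    rw [(hk1 _ (hx (hsq t ht))).1, (hk1 _ (hx ha0)).1, hac.2 t ht, map_add,
      ← ContinuousLinearMap.intervalIntegral_comp_comm _ hi, add_right_comm]
    congr 1
    refine intervalIntegral.integral_congr fun s hs' => ?_
    rw [uIcc_of_le ht.1] at hs'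
    simp only [hD s ⟨hs'.1, hs'.2.trans ht.2⟩, ContinuousLinearMap.comp_apply]
  · change ∫⁻ t in Icc (-(C q).ρ) (C q).ρ, ‖DetS_D C D (((C q).pc u 0).pt j t)‖ₑ ^ p ≠ ⊤
    rw [DetS_cv hρ]
    refine ENNReal.mul_ne_top ENNReal.ofReal_ne_top ?_
    simp only [← hsg]
    rw [setLIntegral_congr_fun measurableSet_Icc (fun t ht => by rw [hD t ht])]
    refine ne_top_of_le_ne_top (DetS_fin (k := ‖(C q).L‖ₑ) (by linarith) enorm_ne_top
      (fun t => ContinuousLinearMap.opENorm_comp_le _ _) hfc) (lintegral_mono fun t => le_add_self)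

theorem exists_skd2 (hp1 : 1 ≤ p) (hF : GFit C P aK K ch w lam) (hc : ContinuousOn f Ω)
    (hi : InjOn f Ω) (hR : RegIn p C K ch f D v) (hk : ∀ q, kp q ⊆ (C q).Adm)
    (hs : Scl (f '' Ω) θ 100) (hC : CstOk C C1 Cf Cg) {Ξ : Rn 3 → Rn 3} {y : Pcs kp → Rn 3}
    (hP : PrepOut2 C K f θ Cf kp Ξ y) :
    ∃ d : SD (Pcs kp), SIn p C1 P.g Cf K (Ξ ∘ f) d ∧
      SDok p C1 C P aK K ch w lam (Ξ ∘ f) D θ kp y d := by
  have := finite_pcs hF hk
  have hE : (⋃ q, (C q).Ed (kp q)).Finite :=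
    Set.finite_iUnion fun q => (hF.ok q).Ed0_finite.subset fun e he => he.1
  have hs0 : 0 < P.s := by
    unfold Pr.s
    positivity
  have hp0 : 0 ≤ p := by linarith
  have him : (Ξ ∘ f) '' Ω = f '' Ω := by rw [image_comp, hP.img]
  have hΞ : Continuous Ξ := hP.lip.choose_spec.continuous
  have hcf : ∀ b : Pcs kp, Cf (pcs C kp y b).A = (C b.1.1).cf := fun b => (hC.2 b.1.1).1.symm
  have hed : ∀ q, ∀ e ∈ (C q).Ed (kp q), K.Edge e.1 e.2 ∧
      segment ℝ e.1 e.2 ⊆ ball (C q).o (C q).η := fun q e he =>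
    ⟨((hF.fit q).edge (hF.ok q) he.1).1,
      ((hF.fit q).edge (hF.ok q) he.1).2.1.trans (DetS_WI (hF.ok q))⟩
  have hno : ∀ σ ∈ K.cel 3, (∀ q, ¬ σ ⊆ (C q).q) → ∀ F ∈ K.fc σ, ∀ c ≤ 32 * P.s, ∀ b,
      ¬ F ⊆ (pcs C kp y b).Q ((pcs C kp y b).ρx + c) := fun σ hσ ho F h c hc b h2 => by
    obtain ⟨x, hx⟩ := Kx.cells_ne h.1.1
    exact DetS_out hF hσ ho _ (h.2 hx) (DetS_sub hF hk b hc (h2 hx))
  refine ⟨⟨v, DetS_D C D, ch, w, DetS_γ C ch D, omF C aK K lam, hE.toFinset,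
    fun e t => 2 * ‖e.2 - e.1‖ₑ * ‖D (seg e.1 e.2 t)‖ₑ, fun _ => P.ωe p, θ, DetS_wt C kp y C1,
    pcs C kp y, P.s, fun b => (C b.1.1).r, fun b => (C b.1.1).σ⟩,
    ⟨hF.opn, hΞ.comp_continuousOn hc, hP.inj.comp_injOn hi, hR.mv, DetS_mD hR.mD,
      fun F h => ⟨(hF.face F h).1, (hF.face F h).2, QDetS_face hp1 hF hR hP h, DetS_om hF h⟩,
      fun e he => ?_, him.symm ▸ hs, DetS_mw y, fun z => le_sup_left, fun b z hz => ?_,
      him.symm ▸ hP.pc, hs0, fun b hb => ?_, fun b j hj => ?_, fun b b' hn => DetS_disj hF hk hn⟩,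
    ⟨rfl, rfl, rfl, rfl, fun e => hE.mem_toFinset.trans mem_iUnion, fun _ => rfl,
      fun q x hx => DetS_eD hF D q hx, fun q F h hq => ?_, fun σ hσ ho F h hr => ?_,
      fun q F h hq => ?_, fun σ hσ ho F h => ?_, fun q e he => ?_⟩⟩
  · obtain ⟨q, he⟩ := mem_iUnion.1 (hE.mem_toFinset.1 he)
    refine ⟨(hed q e he).1, fun b => Set.disjoint_left.2 fun x hx hx' => ?_, ?_,
      ENNReal.ofReal_ne_top, fun s s' h0 h1 h2 => ?_⟩
    · have e1 := DetS_same hF ((hed q e he).2 (openSegment_subset_segment _ _ _ hx))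
        (ball_subset_closedBall (DetS_sub (y := y) hF hk b (c := 0) (by linarith)
          (by rw [add_zero]; exact hx')))
      obtain ⟨⟨q', u⟩, hu⟩ := b
      obtain rfl : q = q' := e1
      change x ∈ (pcs C kp y ⟨(q, u), hu⟩).Q (pcs C kp y ⟨(q, u), hu⟩).ρx at hx'
      rw [pcs, Cu.pc_ρx] at hx'
      exact Set.disjoint_left.1 (he.2 u hu) hx hx'
    · refine measurable_const.mul (hR.mD.comp (Continuous.measurable ?_)).enorm
      unfold seg
      fun_prop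
    · have hac := hR.us q _ _ ((hed q e he).2.trans ball_subset_closedBall) (hR.fe q e he.1)
      refine (hP.dbl _ _ ((hed q e he).1.seg_sub.trans (Kx.sk_mono one_le_two)) _
        (fun _ _ => DetS_ac hac) s s' h0 h1 h2).trans ?_
      rw [← lintegral_const_mul' _ _ (by simp)]
      refine lintegral_mono fun x => ?_
      change _ ≤ 2 * ‖e.2 - e.1‖ₑ * ‖D (seg e.1 e.2 x)‖ₑ
      rw [mul_assoc, mul_comm ‖e.2 - e.1‖ₑ]
      exact mul_le_mul_right (ContinuousLinearMap.le_opENorm _ _) _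
  · change (pcs C kp y b).Nr (Cf (pcs C kp y b).A * (C b.1.1).l) z at hz
    change ENNReal.ofReal (Cf (pcs C kp y b).A) ≤ DetS_wt C kp y C1 z
    rw [hcf] at hz ⊢
    refine le_sup_of_le_right (le_iSup_of_le b ?_)
    rw [indicator_of_mem (show z ∈ {z | (pcs C kp y b).Nr ((C b.1.1).cf * (C b.1.1).l) z} from hz)]
  · change BoxIn K (Ξ ∘ f) (pcs C kp y b) P.s (C b.1.1).r (C b.1.1).σ
      (P.g * (C b.1.1).l / Cf (pcs C kp y b).A)
    rw [hcf, ← DetS_s hF b.1.1, ← DetS_g hF b.1.1]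
    exact hP.box b hb
  · change ChdIn K p (Ξ ∘ f) (DetS_D C D) (pcs C kp y b) j
      (P.g * (C b.1.1).l / Cf (pcs C kp y b).A)
    rw [hcf, ← DetS_g hF b.1.1]
    exact QDetS_chd hp1 hF hR hk hP b hj
  · have := DetS_iff (y := y) hF hk (c := 0) (by linarith) h hq
    simp only [add_zero] at this
    exact this
  · obtain ⟨b, -, h2⟩ := hr
    exact hno σ hσ ho F h 0 (by linarith) b (by rw [add_zero]; exact h2)
  · have hz := DetS_iff (y := y) hF hk (c := 32 * P.s) le_rfl h hq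
    have hO := (hF.face F h).1
    have hw : ∀ ξ ∈ closure (ch F).U,
        (DetS_wt C kp y C1 ((Ξ ∘ f) ((ch F).φ ξ)) * DetS_γ C ch D F ξ) ^ p ≤
          ((C q).Wt C1 (kp q) ((ch F).φ ξ) * (2 * ‖(D ((ch F).φ ξ)).comp (ch F).M‖ₑ)) ^ p := by
      intro ξ hξ
      rw [DetS_γ, if_pos ⟨q, hq⟩]
      exact ENNReal.rpow_le_rpow (mul_le_mul_left (QDetS_wtq hF hk hC hP
        (Kx.cl_sub_sk h.1 h.2.le (DetS_φcl hO hξ))
        (closure_minimal hq isClosed_closedBall (DetS_φcl hO hξ))) _) hp0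
    rw [SD.X, Cu.XF]
    split_ifs with h1 h2 h2
    · exact mul_le_mul_right (setLIntegral_mono' isClosed_frontier.measurableSet
        fun ξ hξ => hw ξ (frontier_subset_closure hξ)) _
    · have h3 := hz.1 h1
      rw [← DetS_s hF q] at h3
      exact absurd h3 h2
    · exact absurd (hz.2 (by rw [← DetS_s hF q]; exact h2)) h1
    · exact setLIntegral_mono' hO.2.1.measurableSet fun ξ hξ => hw ξ (subset_closure hξ)
  · have hO := (hF.face F h.1).1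
    rw [SD.X, if_neg fun ⟨b, _, h2⟩ => hno σ hσ ho F h _ le_rfl b h2]
    refine setLIntegral_mono' hO.2.1.measurableSet fun ξ hξ => ENNReal.rpow_le_rpow ?_ hp0
    have hξ' : (ch F).φ ξ ∈ F := hO.2.2.le (mem_image_of_mem _ hξ)
    refine mul_le_mul' (QDetS_wto hF hk hP (Kx.cl_sub_sk h.1.1 h.1.2.le (subset_closure hξ'))
      fun q => DetS_out hF hσ ho q (h.2 hξ')) ?_
    change DetS_γ C ch D F ξ ≤ _
    unfold DetS_γ
    split_ifs
    · refine mul_le_mul' (by norm_num) ((ContinuousLinearMap.opENorm_comp_le _ _).trans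
        (mul_le_of_le_one_right zero_le ?_))
      rw [← ofReal_norm]
      exact ENNReal.ofReal_le_one.2 (DetS_M ((hF.out σ hσ ho).2.2 F h))
    · exact le_rfl
  · refine setLIntegral_mono' measurableSet_Icc fun t ht => ENNReal.rpow_le_rpow ?_ hp0
    have h1 : seg e.1 e.2 t ∈ segment ℝ e.1 e.2 := seg_image e.1 e.2 ▸ mem_image_of_mem _ ht
    exact mul_le_mul_left (QDetS_wtq hF hk hC hP
      (Kx.sk_mono (by norm_num) ((hed q e he).1.seg_sub h1))
      (ball_subset_closedBall ((hed q e he).2 h1))) _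

end BEp
end
end
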