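import Pool.Agent.Work.MP_f0515e_an.P3.Vit
import Pool.Agent.Work.MP_f0515e_an.P2.QLoop
import Pool.Agent.Work.MP_f0515e_an.P3.Sel3

-- merged part: Pool.Agent.Work.MP_f0515e_an.P3.Prep
section
/-! The pieces. `y b` = a point of `l ℤ³` at distance at most `l/2` from `f (ctr u)`; `exists_xi` with
`Y b = aff0 '' Q (ρx + κ s / 2)`, `μ b = σ κ s / 8`, `B b = L - 1`, `k b = y b - L (f (ctr u))`, so
that `Ξ z = L (z - f c) + y b` on `Zt f u (1/2)` and `Ξ (f x) - aff x = L (f x - aff0 x)` on the slice.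
`nohit` and `zone`: the points in question lie in `Zt f u 1`, which `Ξ` preserves, so `z3` applies
(with `near2` for plates); in the tile use `Gd.cl`. All constants have room (`κζ`, `L1`, `lam1`,
`big`). -/

open Set Metric Filter Topology Function BEv MeasureTheory
open scoped NNReal ENNReal

noncomputable section
namespace BEp

/-- Numerical facts on a cube; `m` is eight times the width of the private sets. -/
structure Prep_N (C : Cu) (m τ : ℝ) : Prop where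
  s0 : 0 < C.s
  l1 : 16 * C.s ≤ C.l
  l2 : C.l ≤ C.cf * C.l
  l3 : 400 * (C.cf * C.l) ≤ m
  m1 : m ≤ C.κ * C.s
  m2 : 6400 * (C.σ * C.s) ≤ m
  m3 : 6400 * C.s ≤ m
  x0 : 0 < C.ρx
  t0 : C.t0 / 2 = C.ρx + C.κ * C.s
  τ1 : 2 * (C.lam * C.t0) ≤ τ
  τ2 : 2 * (C.lam * C.s) ≤ τ
  τ3 : τ ≤ C.σ * C.s
  τ4 : τ ≤ C.s
  big : 10 ^ 15 * (1 + ‖(C.Ah : Rn 3 →L[ℝ] Rn 3)‖) * C.s ≤ C.g * C.l / C.cf
  ζ1 : C.σ * (C.ζ * C.s) = 4 * (C.cf * C.l)
  L1 : ‖C.L - 1‖ * (1 + ‖C.A‖) * C.t0 ≤ m / 250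

/-- The correction near one piece. -/
structure Prep_L (C : Cu) (f Ξ : Rn 3 → Rn 3) (u : I3 × I3) (y : Rn 3) : Prop where
  lat : ‖y - f (C.ctr u)‖ ≤ C.l / 2
  eq : ∀ z ∈ C.Zt f u (1 / 2), Ξ z = C.L (z - f (C.ctr u)) + y
  mv : ∀ z ∈ C.Zt f u 1, ‖Ξ z - z‖ ≤ C.σ * C.κ * C.s / 8 / 16
  iff : ∀ z, Ξ z ∈ C.Zt f u 1 ↔ z ∈ C.Zt f u 1

section
variable {C : Cu} {aK : ℝ} {Ω : Set (Rn 3)} {K : Kx Ω} {ch : Set (Rn 3) → Ch} {w : Set (Rn 3) → ℝ}
  {f Ξ : Rn 3 → Rn 3} {u : I3 × I3} {x y z : Rn 3} {R R' : ℝ}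

theorem Prep_num (h : C.Ok aK) (u : I3 × I3) (y : Rn 3) :
    Prep_N C (C.σ * C.κ * C.s) ((C.pc u y).tol C.σ C.s) := by
  obtain ⟨-, -, s0, t0, l0, -, k0, z0, -⟩ := h.pos
  obtain ⟨e1, e2, e3, e4, -, -, -, -, -, -, -, -, -, e5⟩ := h.num
  obtain ⟨σ0, σ1⟩ := h.σ0
  have c1 := h.c1.1
  have kz := mul_le_mul_of_nonneg_right h.κζ s0.le
  have n0 := norm_nonneg (C.Ah : Rn 3 →L[ℝ] Rn 3)
  have a1 : (1 : ℝ) ≤ 2 ^ C.a := one_le_pow₀ one_le_two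
  have zs := mul_pos z0 s0
  have ss := mul_le_of_le_one_left s0.le σ1
  have et : C.t0 = 2 * 2 ^ C.a * C.s := by rw [Cu.t0, pow_succ]; ring
  have τ1 : 2 * (C.lam * C.t0) ≤ (C.pc u y).tol C.σ C.s := by
    refine (le_div_iff₀ (by positivity)).2 ?_
    have := mul_le_mul_of_nonneg_right h.lam1 s0.le
    have p : 0 ≤ (1 + ‖(C.Ah : Rn 3 →L[ℝ] Rn 3)‖) * 2 ^ C.a * C.lam * C.s := by
      have := h.lam0
      positivity
    rw [et]
    change _ * (10 ^ 13 * (1 + ‖(C.Ah : Rn 3 →L[ℝ] Rn 3)‖)) ≤ _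
    linarith only [this, p]
  have τ3 : (C.pc u y).tol C.σ C.s ≤ C.σ * C.s := by
    refine (div_le_iff₀ (by positivity)).2 ?_
    change _ ≤ _ * (10 ^ 13 * (1 + ‖(C.Ah : Rn 3 →L[ℝ] Rn 3)‖))
    have p := mul_pos σ0 s0
    have := mul_le_of_le_one_left p.le σ1
    have := mul_nonneg p.le n0
    linarith
  refine ⟨s0, e3, le_mul_of_one_le_left l0.le c1, by linarith only [s0, e4, kz], ?_, by linarith only [kz, zs, ss], by linarith only [kz, zs], ?_, e2,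
    τ1, le_trans ?_ τ1, τ3, τ3.trans ss, ?_, ?_, ?_⟩
  · rw [mul_assoc]
    exact mul_le_of_le_one_left (mul_pos k0 s0).le σ1
  · rw [Cu.ρx]
    positivity
  · have := mul_le_mul_of_nonneg_left (le_mul_of_one_le_left s0.le a1) h.lam0.le
    have := mul_pos h.lam0 s0
    rw [et]
    linarith
  · rw [le_div_iff₀ (by linarith only [c1]), e1]
    linarith only [h, s0, mul_le_mul_of_nonneg_right h.big s0.le]
  · rw [Ty.ζ, e1]
    field_simp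
  · have := mul_le_mul_of_nonneg_right h.L1.2 t0.le
    have := mul_le_mul_of_nonneg_left e5 σ0.le
    linarith

theorem Prep_mono (h : R ≤ R') : C.Q u R ⊆ C.Q u R' :=
  fun _ hx => ⟨hx.1, fun i hi => (hx.2 i hi).trans h⟩

theorem Prep_Zt {m m' : ℝ} (h : C.Ok aK) (e : m ≤ m') : C.Zt f u m ⊆ C.Zt f u m' := by
  rintro z ⟨x, hx, k⟩
  have n := Prep_num h u 0
  exact ⟨x, hx, k.trans (mul_le_mul_of_nonneg_right e (by linarith only [n, n.s0, n.m3]))⟩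

theorem Prep_ha (h : C.Ok aK) (hy : ‖y - f (C.ctr u)‖ ≤ C.l / 2) (hz : z ∈ C.Zt f u 1) :
    ‖(C.L - 1) z + (y - C.L (f (C.ctr u)))‖ ≤ C.σ * C.κ * C.s / 8 / 16 := by
  obtain ⟨x, hx, k⟩ := hz
  obtain ⟨s0, l1, l2, l3, m1, -, m3, x0, t0, -, -, -, -, -, -, L1⟩ := Prep_num h u 0
  have k1 := ((Cu.mem_Q (by linarith only [s0, l1, l2, l3, m1, x0])).1 hx).2
  have k2 : ‖C.A (x - C.ctr u)‖ ≤ ‖C.A‖ * (C.t0 / 2) :=
    (C.A.le_opNorm _).trans (mul_le_mul_of_nonneg_left (by linarith only [s0, l1, l2, l3, m1, t0, k1]) (norm_nonneg _))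
  have k3 : ‖z - f (C.ctr u)‖ ≤ (1 + ‖C.A‖) * (C.t0 / 2) := by
    have : z - f (C.ctr u) = z - C.aff0 f u x + C.A (x - C.ctr u) := by rw [Cu.aff0]; abel
    rw [this]
    linarith only [k, s0, l1, l2, l3, m1, x0, t0, k2, norm_add_le (z - C.aff0 f u x) (C.A (x - C.ctr u))]
  have k4 := ((C.L - 1).le_opNorm _).trans (mul_le_mul_of_nonneg_left k3 (norm_nonneg _))
  have : (C.L - 1) z + (y - C.L (f (C.ctr u))) =
      (C.L - 1) (z - f (C.ctr u)) + (y - f (C.ctr u)) := by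
    simp only [sub_apply, one_apply_eq_self, map_sub]
    abel
  rw [this]
  linarith only [hy, s0, l1, l2, l3, L1, k4, norm_add_le ((C.L - 1) (z - f (C.ctr u))) (y - f (C.ctr u))]

theorem Prep_aff (h : C.Ok aK) (hA : C.A ≠ 0) (hx : x ∈ C.Q u R) (f : Rn 3 → Rn 3) (y : Rn 3) :
    (C.pc u y).aff x = C.L (C.aff0 f u x - f (C.ctr u)) + y := by
  have e : prL C.I (x - C.ctr u) = x - C.ctr u := by
    ext i
    by_cases k : i ∈ C.I
    · simp [prL, k]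
    · simp [prL, k, show x i = C.ctr u i from hx.1 i k]
  have := h.tg.2.2.2 hA (x - C.ctr u)
  rw [e] at this
  rw [Cu.aff0, add_sub_cancel_left, ← this]
  rfl

theorem Prep_Z (h : C.Ok aK) (hA : C.A ≠ 0) (hy : ‖y - f (C.ctr u)‖ ≤ C.l / 2)
    (hx : x ∈ C.Q u (C.ρx + C.κ * C.s / 2)) {m : ℝ}
    (e : ‖z - (C.pc u y).aff x‖ + C.σ * C.κ * C.s / 8 / 16 ≤ m * (C.σ * C.κ * C.s / 8)) :
    z ∈ C.Zt f u m := by
  have n := Prep_num h u 0
  have k := Prep_ha h hy (z := C.aff0 f u x) ⟨x, hx, by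
    rw [sub_self, norm_zero]
    linarith only [n, n.s0, n.m3]⟩
  have : (C.L - 1) (C.aff0 f u x) + (y - C.L (f (C.ctr u))) = (C.pc u y).aff x - C.aff0 f u x := by
    rw [Prep_aff h hA hx f]
    simp only [sub_apply, one_apply_eq_self, map_sub]
    abel
  rw [this] at k
  exact ⟨x, hx, by linarith only [e, k, norm_sub_le_norm_sub_add_norm_sub z ((C.pc u y).aff x) (C.aff0 f u x)]⟩

theorem Prep_cl0 (h : C.Ok aK) (hg : C.Gd K f u) (hx : x ∈ K.sk 2) (hx' : x ∈ C.Q u (C.t0 / 2)) :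
    ‖f x - C.aff0 f u x‖ ≤ C.lam * C.t0 := by
  obtain ⟨-, -, -, t0, -, r0, -⟩ := h.pos
  have k := hg.cl x ⟨hx, Prep_mono (by split_ifs <;> linarith only [r0]) hx'⟩
  rwa [max_eq_left (((Cu.mem_Q (by linarith)).1 hx').2.trans (by linarith))] at k

theorem Prep_in (h : C.Ok aK) (hg : C.Gd K f u) (hx : x ∈ K.sk 2)
    (hx' : x ∈ C.Q u (C.ρx + C.κ * C.s / 2)) : f x ∈ C.Zt f u (1 / 2) := by
  have n := Prep_num h u 0
  have := Prep_cl0 h hg hx (Prep_mono (by linarith only [n, n.t0, n.m1, n.m3, n.s0]) hx')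
  exact ⟨x, hx', by linarith only [this, n, n.τ1, n.τ4, n.m3, n.s0]⟩

theorem Prep_L.sub (hl : Prep_L C f Ξ u y) (h : C.Ok aK) (hA : C.A ≠ 0) (hx : x ∈ C.Q u R)
    (hz : f x ∈ C.Zt f u (1 / 2)) : Ξ (f x) - (C.pc u y).aff x = C.L (f x - C.aff0 f u x) := by
  rw [hl.eq _ hz, Prep_aff h hA hx f]
  simp only [map_sub]
  abel

theorem Prep_L.cl (hl : Prep_L C f Ξ u y) (h : C.Ok aK) (hg : C.Gd K f u) (hx : x ∈ K.sk 2)
    (hx' : x ∈ C.Q u (C.t0 / 2)) (hz : f x ∈ C.Zt f u (1 / 2)) :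
    ‖Ξ (f x) - (C.pc u y).aff x‖ ≤ (C.pc u y).tol C.σ C.s := by
  rw [hl.sub h hg.ne hx' hz]
  exact (C.L.le_opNorm _).trans ((mul_le_mul h.tg.2.1 (Prep_cl0 h hg hx hx') (norm_nonneg _)
    zero_le_two).trans (Prep_num h u y).τ1)

theorem Prep_L.core (hl : Prep_L C f Ξ u y) (h : C.Ok aK) (hA : C.A ≠ 0)
    (hx : x ∈ C.Q u (C.ρx + C.κ * C.s / 2))
    (e : ‖Ξ z - (C.pc u y).aff x‖ ≤ C.σ * C.κ * C.s / 100) : z ∈ C.Zt f u (1 / 2) := by
  have n := Prep_num h u 0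
  have s0 := n.s0
  have m3 := n.m3
  have k := hl.mv z ((hl.iff z).1 (Prep_Z h hA hl.lat hx (by linarith only [e, s0, m3])))
  rw [norm_sub_rev] at k
  exact Prep_Z h hA hl.lat hx
    (by linarith only [e, s0, m3, k, norm_sub_le_norm_sub_add_norm_sub z (Ξ z) ((C.pc u y).aff x)])

theorem Prep_L.far (hl : Prep_L C f Ξ u y) (h : C.Ok aK) (hg : C.Gd K f u) (hz : z ∈ K.sk 2)
    (hz' : z ∈ C.Q u (C.t0 / 2)) (hZ : f z ∈ C.Zt f u (1 / 2)) (hx : x ∈ C.Q u R) (hR : 0 ≤ R)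
    {d : ℝ} (e : ‖Ξ (f z) - (C.pc u y).aff x‖ + (C.pc u y).tol C.σ C.s ≤ C.σ * d) :
    z ∈ C.Q u (R + d) := by
  have k1 := hl.cl h hg hz hz' hZ
  have k2 := h.lowh (z - x)
  have : C.Ah (z - x) = Ξ (f z) - (C.pc u y).aff x - (Ξ (f z) - (C.pc u y).aff z) := by
    simp only [Pc.aff, Cu.pc, map_sub]
    abel
  rw [this] at k2
  have k3 : ‖z - x‖ ≤ d := le_of_mul_le_mul_left (by
    linarith only [e, k1, k2, norm_sub_le (Ξ (f z) - (C.pc u y).aff x) (Ξ (f z) - (C.pc u y).aff z)]) h.σ0.1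
  have k4 := ((Cu.mem_Q hR).1 hx).2
  exact (Cu.mem_Q (by linarith [norm_nonneg (z - x)])).2 ⟨hz'.1,
    by linarith [norm_sub_le_norm_sub_add_norm_sub z x (C.ctr u)]⟩

theorem Prep_sl (hf : C.Fit aK K ch w) (h : C.Ok aK) (hu : u ∈ C.Adm) (hc : 2 ≤ C.I.card)
    (hx : x ∈ K.sk 2) (hn : ‖x - C.ctr u‖ < C.ρ') : ∀ i, i ∉ C.I → x i = C.ctr u i := by
  rcases hc.eq_or_lt with e | e
  · exact hf.near2 h e.symm hu hx (by linarith only [hn, h, h.pos.2.2.2.1])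
  · intro i hi
    exact (hi ((Finset.eq_univ_of_card C.I (le_antisymm (Finset.card_le_univ _) e)).symm ▸
      Finset.mem_univ i)).elim

theorem Prep_WI (h : C.Ok aK) (hu : u ∈ C.Adm) : C.Q u (C.t0 / 2) ⊆ C.WI :=
  (Prep_mono (by linarith only [h, h.pos.2.2.2.2.2.1])).trans ((h.Q_sub hu).1.trans (h.Q_sub hu).2.1)

theorem Prep_L.box (hl : Prep_L C f Ξ u y) (hf : C.Fit aK K ch w) (h : C.Ok aK) (hg : C.Gd K f u)
    (hc : 2 ≤ C.I.card) (h3 : ∀ x ∈ Ω, f x ∈ C.Zt f u 1 → ‖x - C.ctr u‖ < C.ρ' ∧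
      ((∀ i, i ∉ C.I → x i = C.ctr u i) → x ∈ C.Q u (C.t0 / 2))) :
    BoxIn K (Ξ ∘ f) (C.pc u y) C.s C.r C.σ (C.g * C.l / C.cf) := by
  obtain ⟨s0, -, -, -, m1, m2, m3, x0, t0, -, τ2, τ3, -, big, -⟩ := Prep_num h u y
  have q1 : C.Q u (C.ρx + 32 * C.s) ⊆ C.Q u (C.ρx + C.κ * C.s / 2) := Prep_mono (by linarith only [s0, m1, m3])
  have q2 : C.Q u (C.ρx + 32 * C.s) ⊆ C.Q u (C.t0 / 2) := Prep_mono (by linarith only [s0, m1, m3, t0])
  obtain ⟨-, -, -, -, -, -, -, -, -, -, r1, r2, -⟩ := h.num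
  refine ⟨C.pc_ρx u y, ⟨r2, r1⟩, h.mult.2.2.2.1, big, h.σ0, h.lowh, ?_, ?_, ?_, ?_, ?_, ?_⟩ <;>
    simp only [Cu.pc_ρx, Cu.pc_Q]
  · refine q2.trans ((Prep_WI h hg.adm).trans (h.WI_prop.2.1.trans (h.O_prop.2.1.trans
      (Subset.trans ?_ hf.sub))))
    exact ball_subset_closedBall.trans (closedBall_subset_closedBall (by linarith only [h, h.pos.2.1]))
  · exact fun x hx => (hf.fine x (Prep_WI h hg.adm (q2 hx))).trans (h.grid hg.adm y (q2 hx))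
  · exact fun F hF => hf.frz h hc hg.adm hF
  · exact fun x hx => hl.cl h hg hx.1 (q2 hx.2) (Prep_in h hg hx.1 (q1 hx.2))
  · intro a b he ha hb
    have q3 : C.Q u (C.ρx + 16 * C.s) ⊆ C.Q u (C.ρx + 32 * C.s) := Prep_mono (by linarith only [s0])
    have e : EqOn (fun t => (Ξ ∘ f) (seg a b t) - (C.pc u y).aff (seg a b t))
        (C.L ∘ fun t => f (seg a b t) - C.aff0 f u (seg a b t)) (Icc 0 1) := fun t ht => by
      have m : seg a b t ∈ segment ℝ a b := (segment_eq_image' ℝ a b).symm ▸ ⟨t, ht, rfl⟩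
      have m' := q1 (q3 ((C.Q_cpt u _).2.segment_subset ha hb m))
      exact hl.sub h hg.ne m' (Prep_in h hg (Kx.sk_mono one_le_two (he.seg_sub m)) m')
    refine (eVariationOn.eq_of_eqOn e).trans_le (((C.L.lipschitz.weaken (K' := 2) h.tg.2.1
      ).lipschitzOnWith.comp_eVariationOn_le (mapsTo_univ _ _)).trans ?_)
    refine (mul_le_mul_right (hg.vr hc a b he (q2 (q3 ha)) (q2 (q3 hb))) _).trans ?_
    rw [← ENNReal.ofReal_coe_nnreal, ← ENNReal.ofReal_mul (by positivity)]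
    exact ENNReal.ofReal_le_ofReal τ2
  · intro x hx z hz hs hn
    by_contra k
    have k : ‖Ξ (f z) - (C.pc u y).aff x‖ ≤ C.σ * C.s / 50 := not_lt.1 k
    have p := mul_pos h.σ0.1 s0
    have k1 := hl.core h hg.ne (Prep_mono (by linarith only [s0, m1, m3]) hx) (k.trans (by linarith only [s0, m2, m3]))
    obtain ⟨k2, k3⟩ := h3 z hz (Prep_Zt h (by norm_num) k1)
    have k4 := k3 (hs.elim (fun o => Prep_sl hf h hg.adm hc o k2) fun o => o.1)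
    have := hl.far h hg (hs.elim id fun o => hf.Sk_sk h hg.adm y ⟨o, k4⟩) k4 k1 hx (by linarith only [s0, x0])
      (d := 4 * C.s) (by linarith only [τ3, k, p])
    exact hn (Prep_mono (by linarith only []) this)

theorem Prep_L.chd (hl : Prep_L C f Ξ u y) (hf : C.Fit aK K ch w) (h : C.Ok aK) (hg : C.Gd K f u)
    (hc : C.I.card = 1) : ∃ k, ∀ x ∈ C.Q u C.ρx, Ξ (f x) = C.L (f x) + k ∧
      ‖Ξ (f x) - (C.pc u y).aff x‖ ≤ C.g * C.l / C.cf / 2 := by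
  obtain ⟨s0, -, -, -, m1, -, m3, -, t0, -, -, -, τ4, big, -⟩ := Prep_num h u y
  refine ⟨y - C.L (f (C.ctr u)), fun x hx => ?_⟩
  have q : x ∈ C.Q u (C.t0 / 2) := Prep_mono (by linarith only [s0, m1, m3, t0]) hx
  have k := Kx.sk_mono (hc.le.trans one_le_two) (hf.WI_sk h (Prep_WI h hg.adm q))
  have k1 := Prep_in h hg k (Prep_mono (by linarith only [s0, m1, m3]) hx)
  refine ⟨?_, (hl.cl h hg k q k1).trans ?_⟩
  · rw [hl.eq _ k1, map_sub]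
    abel
  · linarith only [s0, τ4, big, mul_nonneg (norm_nonneg (C.Ah : Rn 3 →L[ℝ] Rn 3)) s0.le]

theorem Prep_L.zone (hl : Prep_L C f Ξ u y) (hf : C.Fit aK K ch w) (h : C.Ok aK) (hg : C.Gd K f u)
    (h3 : ∀ x ∈ Ω, f x ∈ C.Zt f u 1 → ‖x - C.ctr u‖ < C.ρ' ∧
      ((∀ i, i ∉ C.I → x i = C.ctr u i) → x ∈ C.Q u (C.t0 / 2)))
    (hz : z ∈ K.sk 2) (hn : (C.pc u y).Nr (C.cf * C.l) (Ξ (f z))) : z ∈ C.zone u := by
  obtain ⟨s0, l1, l2, l3, m1, -, m3, x0, -, -, -, -, τ4, -, ζ1, -⟩ := Prep_num h u y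
  obtain ⟨x, ⟨hx, -⟩, k⟩ := hn
  rw [Cu.pc_ρx, Cu.pc_Q] at hx
  have k1 := hl.core h hg.ne (Prep_mono (by linarith only [s0, l1, l2, l3, m1]) hx) (k.trans (by linarith only [s0, l1, l2, l3]))
  obtain ⟨k2, k3⟩ := h3 z hz.1 (Prep_Zt h (by norm_num) k1)
  by_cases e : ∀ i, i ∉ C.I → z i = C.ctr u i
  · exact .inl (hl.far h hg hz (k3 e) k1 hx x0.le (by linarith only [s0, l1, l2, τ4, ζ1, k]))
  · refine .inr ⟨?_, k2, by simpa using e⟩
    have := h.ne.card_pos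
    by_contra o
    exact e (Prep_sl hf h hg.adm (by omega) hz k2)

theorem Prep_near (h : C.Ok aK) (hA : C.A ≠ 0) (hy : ‖y - f (C.ctr u)‖ ≤ C.l / 2)
    (hx : x ∈ (C.pc u y).Q (C.pc u y).ρx) (e : ‖z - (C.pc u y).aff x‖ ≤ C.cf * C.l) :
    z ∈ C.Zt f u 1 := by
  obtain ⟨s0, -, -, l3, m1, -, m3, -⟩ := Prep_num h u y
  rw [Cu.pc_ρx, Cu.pc_Q] at hx
  exact Prep_Z h hA hy (Prep_mono (by linarith only [s0, m1, m3]) hx) (by linarith only [e, s0, l3, m3])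

theorem Prep_lat {l : ℝ} (hl : 0 < l) (z : Rn 3) :
    ∃ y : Rn 3, (∀ i, ∃ k : ℤ, y i = k * l) ∧ ‖y - z‖ ≤ l / 2 := by
  refine ⟨fun i => round (z i / l) * l, fun i => ⟨_, rfl⟩,
    (pi_norm_le_iff_of_nonneg (by positivity)).2 fun i => ?_⟩
  have : (round (z i / l) : ℝ) * l - z i = -(z i / l - round (z i / l)) * l := by
    field_simp
    ring
  rw [Pi.sub_apply, this, Real.norm_eq_abs, abs_mul, abs_neg, abs_of_pos hl]
  linarith only [hl, mul_le_mul_of_nonneg_right (abs_sub_round (z i / l)) hl.le]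

end

theorem prep_out {ι : Type} [Finite ι] {C : ι → Cu} {P : Pr} {aK : ℝ} {Ω : Set (Rn 3)} {K : Kx Ω}
    {ch : Set (Rn 3) → Ch} {w lam : Set (Rn 3) → ℝ} (hF : GFit C P aK K ch w lam)
    {f : Rn 3 → Rn 3} {θ : Rn 3 → ℝ} {μ0 θ0 : ℝ} (hm : MuIn C Ω f θ μ0 θ0)
    {kp : ι → Set (I3 × I3)} (hg : ∀ q, ∀ u ∈ kp q, (C q).Gd K f u)
    {Cf : (Rn 3 ≃L[ℝ] Rn 3) → ℝ} (hc : ∀ q, (C q).cf = Cf (C q).Ah)
    (hθ : ∀ y ∈ f '' Ω, 0 ≤ θ y) :
    ∃ Ξ y, PrepOut C K f θ Cf kp Ξ y := by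
  have hS := sep_out hF hm hg
  have : Finite (Pcs kp) := by
    refine Set.Finite.to_subtype (s := {b : ι × I3 × I3 | b.2 ∈ kp b.1}) ((finite_iUnion fun q =>
      ((hF.ok q).adm_finite.image (Prod.mk q))).subset fun b hb => ?_)
    exact mem_iUnion.2 ⟨b.1, b.2, (hg _ _ hb).adm, rfl⟩
  choose y y1 y2 using fun b : Pcs kp =>
    Prep_lat (hF.ok b.1.1).pos.2.2.2.2.1 (f ((C b.1.1).ctr b.1.2))
  have near : ∀ (b : Pcs kp) (m : ℝ) z, (∃ x ∈ (C b.1.1).aff0 f b.1.2 '' (C b.1.1).Q b.1.2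
      ((C b.1.1).ρx + (C b.1.1).κ * (C b.1.1).s / 2), ‖z - x‖ ≤ m) ↔ ∃ x ∈ (C b.1.1).Q b.1.2
      ((C b.1.1).ρx + (C b.1.1).κ * (C b.1.1).s / 2), ‖z - (C b.1.1).aff0 f b.1.2 x‖ ≤ m :=
    fun b m z => exists_mem_image
  have one : ∀ (b : Pcs kp) z, (∃ x ∈ (C b.1.1).aff0 f b.1.2 '' (C b.1.1).Q b.1.2
      ((C b.1.1).ρx + (C b.1.1).κ * (C b.1.1).s / 2),
        ‖z - x‖ ≤ (C b.1.1).σ * (C b.1.1).κ * (C b.1.1).s / 8) ↔ z ∈ (C b.1.1).Zt f b.1.2 1 :=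
    fun b z => by rw [near, Cu.Zt, one_mul]; rfl
  have dis : ∀ b b' : Pcs kp, b ≠ b' → ∀ z ∈ (C b.1.1).Zt f b.1.2 1, z ∉ (C b'.1.1).Zt f b'.1.2 1 :=
    fun b b' e z k => disjoint_left.1 (hS.z2 _ _ b.2 _ _ b'.2 fun o => e (Subtype.ext o)) k
  obtain ⟨Ξ, h1, h2, h3, h4, h5, h6⟩ := exists_xi
    (fun b : Pcs kp => (C b.1.1).aff0 f b.1.2 '' (C b.1.1).Q b.1.2
      ((C b.1.1).ρx + (C b.1.1).κ * (C b.1.1).s / 2))
    (fun b => (C b.1.1).σ * (C b.1.1).κ * (C b.1.1).s / 8) (fun b => (C b.1.1).L - 1)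
    (fun b => y b - (C b.1.1).L (f ((C b.1.1).ctr b.1.2)))
    (fun b => ((C b.1.1).Q_cpt _ _).1.image (by unfold Cu.aff0; fun_prop))
    (fun b => by linarith only [hF, (Prep_num (hF.ok b.1.1) 0 0).s0, (Prep_num (hF.ok b.1.1) 0 0).m3])
    (fun b => (hF.ok b.1.1).L1.1.trans (hF.ok b.1.1).g0.2)
    (fun b z hz => Prep_ha (hF.ok _) (y2 b) ((one b z).1 hz))
    fun b b' e z hz hz' => dis b b' e z ((one b z).1 hz) ((one b' z).1 hz')
  simp only [one] at h3 h5 h6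
  have hl : ∀ b : Pcs kp, Prep_L (C b.1.1) f Ξ b.1.2 (y b) := fun b =>
    ⟨y2 b, fun z ⟨x, hx, k⟩ => by
      rw [h4 b z ⟨_, ⟨x, hx, rfl⟩, by linarith only [k]⟩]
      simp only [sub_apply, one_apply_eq_self, map_sub]
      abel, h5 b, h6 b⟩
  have iff : ∀ z, Ξ z ∈ f '' Ω ↔ z ∈ f '' Ω := fun z => by
    by_cases e : ∃ b : Pcs kp, z ∈ (C b.1.1).Zt f b.1.2 1
    · obtain ⟨b, e⟩ := e
      exact iff_of_true (hS.z1 _ _ b.2 _ ((h6 b z).2 e)).1 (hS.z1 _ _ b.2 _ e).1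
    · rw [h3 z (not_exists.1 e)]
  refine ⟨Ξ, y, h1.1, h2, ?_, fun z hz => ?_, ⟨fun b => (hF.ok _).pcok _ (y1 b), fun b x hx z k => ?_,
    fun b b' e x hx x' hx' => ?_⟩,
    fun b k => (hl b).box (hF.fit _) (hF.ok _) (hg _ _ b.2) k (hS.z3 _ _ b.2),
    fun b k => (hl b).chd (hF.fit _) (hF.ok _) (hg _ _ b.2) k,
    fun b x hx k => (hl b).zone (hF.fit _) (hF.ok _) (hg _ _ b.2) (hS.z3 _ _ b.2) hx k⟩
  · refine Subset.antisymm (image_subset_iff.2 fun z hz => (iff z).2 hz) fun z hz => ?_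
    obtain ⟨z', rfl⟩ := h1.2 z
    exact ⟨z', (iff z').1 hz, rfl⟩
  · by_cases e : ∃ b : Pcs kp, z ∈ (C b.1.1).Zt f b.1.2 1
    · obtain ⟨b, e⟩ := e
      have n := Prep_num (hF.ok b.1.1) 0 0
      linarith only [h5, e, hS, hm, n, h5 b z e, (hS.z1 _ _ b.2 _ e).2, (hm.m2 b.1.1).2, n.t0, n.x0, n.m1, n.m3, n.s0]
    · rw [h3 z (not_exists.1 e), sub_self, norm_zero]
      exact hθ z hz
  · have e : Cf (pcs C kp y b).A * (pcs C kp y b).l = (C b.1.1).cf * (C b.1.1).l := by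
      rw [hc]; rfl
    rw [e] at k ⊢
    have k' := hS.z1 _ _ b.2 _ (Prep_near (hF.ok _) (hg _ _ b.2).ne (y2 b) hx k)
    have n := Prep_num (hF.ok b.1.1) 0 0
    exact ⟨k'.1, by linarith only [k', hm, n, k'.2, (hm.m2 b.1.1).2, n.t0, n.x0, n.m1, n.m3, n.s0, n.l3]⟩
  · have e' : ∀ b, Cf (pcs C kp y b).A * (pcs C kp y b).l = (C b.1.1).cf * (C b.1.1).l :=
      fun b => by rw [hc]; rfl
    have p : ∀ b : Pcs kp, 0 ≤ (C b.1.1).cf * (C b.1.1).l := fun b => by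
      have n := Prep_num (hF.ok b.1.1) 0 0
      linarith [n.s0, n.l1, n.l2]
    rw [e', e', add_comm]
    by_contra k
    obtain ⟨z, k1, k2⟩ := exists_dist_le_le (p b) (p b') ((dist_eq_norm _ _).trans_le (not_lt.1 k))
    rw [dist_comm, dist_eq_norm] at k1
    rw [dist_eq_norm] at k2
    exact dis b b' e z (Prep_near (hF.ok _) (hg _ _ b.2).ne (y2 b) hx k1)
      (Prep_near (hF.ok _) (hg _ _ b'.2).ne (y2 b') hx' k2)

end BEp
end
end

-- merged part: Pool.Agent.Work.MP_f0515e_an.P2.QNum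
section
/-! Numerical facts (`Ok.pos`, `Ok.num`, `Ok.mult`, `Sep_num`, `Prep_num`, `lam1`, `κζ`, `GNum_lt`) and the large private sets.
`pv_loc`: for `x ∈ Q u R1`, `x' ∈ Q u' R1`: `aff0 u x - aff0 u' x' = A (x - x') + (aff0 u c' - f c')`, `‖x - x'‖ ≥ ‖c - c'‖ - 2 R1`, `t0 ≤ ‖c - c'‖` (`tile_sep`), `t0 - 2 R1 ≥ κ s / 2`, `τ / t0 ≤ σ`.
`pv_dis`: a common point is `f x` with `x` in both balls of radius `ρ'` (`pv_ball`, `MuIn.m1`, injectivity); different cubes: `Sep_ball`, `GFit.far`; same cube: `rl`, `tile_sep`, `pv_loc`. -/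

open Set Metric Filter Topology Function BEv MeasureTheory
open scoped NNReal ENNReal

noncomputable section
namespace BEp

theorem Cu.Ok.nm {C : Cu} {aK : ℝ} (h : C.Ok aK) : C.Nm := by
  obtain ⟨-, -, s0, t0, -, -, k0, z0, -⟩ := h.pos
  obtain ⟨-, -, -, -, m1, -, m3, x0, e0, -⟩ := Prep_num h 0 0
  obtain ⟨σ0, σ1⟩ := h.σ0
  have k1 := h.num.2.2.2.2.1
  have l0 := h.lam0
  have p1 : (1 : ℝ) ≤ 2 ^ C.a := one_le_pow₀ one_le_two
  have n0 := norm_nonneg C.A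
  have q1 : 10 ^ 14 * (2 ^ C.a * C.lam) ≤ 1 := by
    have := mul_nonneg (norm_nonneg (C.Ah : Rn 3 →L[ℝ] Rn 3)) (mul_pos (one_pos.trans_le p1) l0).le
    have := pow_le_one₀ (n := 2) σ0.le σ1
    linarith [h.lam1]
  have q2 : C.lam ≤ 2 ^ C.a * C.lam := le_mul_of_one_le_left l0.le p1
  have et : C.t0 = 2 * 2 ^ C.a * C.s := by rw [Cu.t0, pow_succ]; ring
  have ep : 0 < C.ep := by unfold Ty.ep; positivity
  have dl : 0 < C.dl := by unfold Ty.dl; positivity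
  have e1 : 1000 * (1 + ‖C.A‖) * C.ep = C.lam * C.σ := by unfold Ty.ep; field_simp
  have e2 : 10 ^ 6 * 2 ^ (3 * C.a) * (1 + ‖C.A‖) ^ 2 * C.dl = C.ep ^ 2 := by
    unfold Ty.dl; field_simp
  have a1 : 1000 * C.ep ≤ C.lam * C.σ := by linarith only [e1, n0, ep, mul_nonneg n0 ep.le]
  have a2 : C.lam * C.σ ≤ C.lam := mul_le_of_le_one_right l0.le σ1
  have a3 : C.lam * C.σ ≤ C.σ := mul_le_of_le_one_left σ0.le (by linarith only [q1, q2, ep, a1, a2])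
  have a4 : C.ep * C.ep ≤ 1 / 1000 * C.ep := mul_le_mul_of_nonneg_right (by linarith only [q1, q2, ep, a1, a2]) ep.le
  have a5 : 2 ^ C.a * C.dl ≤ 2 ^ (3 * C.a) * (1 + ‖C.A‖) ^ 2 * C.dl :=
    mul_le_mul_of_nonneg_right ((pow_le_pow_right₀ one_le_two (by omega)).trans
      (le_mul_of_one_le_right (by positivity) (one_le_pow₀ (by linarith only [n0])))) dl.le
  have a6 : C.dl ≤ 2 ^ C.a * C.dl := le_mul_of_one_le_left dl.le p1
  have a7 : 6400 * C.s ≤ C.κ * C.s := m3.trans m1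
  have b1 : 1000 * C.τ ≤ C.lam * C.s := by
    linarith only [a1, a2, s0, mul_le_mul_of_nonneg_right (a1.trans a2) s0.le, show C.τ = C.ep * C.s from rfl]
  have b2 : 1000 * C.τ ≤ C.σ * C.s := by
    linarith only [a1, a3, s0, mul_le_mul_of_nonneg_right (a1.trans a3) s0.le, show C.τ = C.ep * C.s from rfl]
  have b3 : C.σ * C.s ≤ C.s := mul_le_of_le_one_left s0.le σ1
  have c1 := mul_le_mul_of_nonneg_left (Nat.le_ceil (C.κ / 64)) s0.le
  have c2 := mul_le_mul_of_nonneg_left (Nat.ceil_lt_add_one (a := C.κ / 64) (by positivity)).le s0.le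
  have r0 : C.R0 + 99 / 400 * (C.κ * C.s) ≤ C.R1 := by unfold Cu.R0 Cu.R1; linarith only [m1, m3, e0, c2]
  have em : C.m = C.σ * C.κ * C.s := rfl
  refine ⟨s0, t0, mul_pos ep s0, dl, ⟨ep, by linarith only [q1, q2, a1, a2]⟩, h.σ0, ?_, e2, et, by linarith only [s0, m1, m3, x0, e0], b1, ?_,
    mul_le_mul_of_nonneg_left (by linarith only [s0, m1, m3, x0, e0]) l0.le, by linarith, b2, ?_, by linarith only [ep, e2, a1, a3, a4, a5, a6], m3, m1,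
    (mul_assoc _ _ _).symm, x0, e0, r0, ?_, ?_, ?_, h.ρ1⟩
  · rw [Cu.τ, ← mul_assoc, e1]
  · rw [et]
    linarith only [s0, m3, em, q1, mul_le_mul_of_nonneg_right q1 s0.le]
  · have : 2000 * (2 ^ C.a * C.dl) ≤ C.ep := by linarith only [dl, e2, a4, a5, a6]
    rw [et, Cu.τ]
    linarith only [this, s0, mul_le_mul_of_nonneg_right this s0.le]
  · unfold Cu.R1; linarith only [c1]
  · unfold Cu.R0; linarith only [x0, e0]
  · obtain ⟨k, hk⟩ := h.mult.2.2.1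
    have : ⌈C.κ / 64⌉₊ ≤ k := by
      have : (⌈C.κ / 64⌉₊ : ℝ) * (16 * C.s) ≤ k * (16 * C.s) := by linarith only [s0, m1, m3, x0, e0, c2, hk]
      exact_mod_cast le_of_mul_le_mul_right this (by positivity)
    exact ⟨k - ⌈C.κ / 64⌉₊, by rw [Nat.cast_sub this, Cu.R1, hk]; ring⟩

theorem nb_mono {Y Y' : Set (Rn 3)} {a a' : ℝ} (h : Y ⊆ Y') (h' : a ≤ a') : nb Y a ⊆ nb Y' a' :=
  fun _ ⟨x, hx, k⟩ => ⟨x, h hx, k.trans h'⟩

section
variable {C : Cu} {aK : ℝ} {f : Rn 3 → Rn 3} {u u' : I3 × I3}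

theorem mem_Nb {R a : ℝ} {y : Rn 3} :
    y ∈ C.Nb f u R a ↔ ∃ x ∈ C.Q u R, ‖y - C.aff0 f u x‖ ≤ a := exists_mem_image

theorem Nb_mono {R R' a a' : ℝ} (h : R ≤ R') (h' : a ≤ a') : C.Nb f u R a ⊆ C.Nb f u R' a' :=
  nb_mono (image_mono (Prep_mono h)) h'

theorem Zt_eq (a : ℝ) : C.Zt f u a = C.Nb f u C.R0 (a * (C.m / 8)) :=
  Set.ext fun _ => mem_Nb.symm

theorem aff_low (h : C.Ok aK) (hA : C.A ≠ 0) {x y : Rn 3} (hx : ∀ i, i ∉ C.I → x i = y i) :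
    C.σ * ‖x - y‖ ≤ ‖C.aff0 f u x - C.aff0 f u y‖ := by
  have e : C.aff0 f u x - C.aff0 f u y = C.A (x - y) := by
    simp only [Cu.aff0, map_sub]
    abel
  rw [e]
  exact Sep_low h hA fun i hi => sub_eq_zero.2 (hx i hi)

theorem QNum_R1 (h : C.Ok aK) : 0 ≤ C.R1 := by
  have n := h.nm
  linarith only [n, n.r0, n.r2, n.t0, n.mκ, n.sm, n.s0]

theorem pv_ball (h : C.Ok aK) : C.Pv f u ⊆ ball (f (C.ctr u)) ((1 + ‖C.A‖) * C.t0) := by
  intro y hy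
  obtain ⟨x, hx, k⟩ := mem_Nb.1 hy
  have n := h.nm
  have c0 := ((Cu.mem_Q (QNum_R1 h)).1 hx).2
  have c1 : ‖C.A (x - C.ctr u)‖ ≤ ‖C.A‖ * C.t0 := (C.A.le_opNorm _).trans
    (mul_le_mul_of_nonneg_left (by linarith only [c0, n, n.r1, n.t0, n.mκ, n.sm, n.s0]) (norm_nonneg _))
  have e : y - f (C.ctr u) = (y - C.aff0 f u x) + C.A (x - C.ctr u) := by
    simp only [Cu.aff0]
    abel
  rw [mem_ball_iff_norm, e]
  linarith only [k, c1, n, norm_add_le (y - C.aff0 f u x) (C.A (x - C.ctr u)), n.e0, n.x0, n.mκ, n.sm, n.s0]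

theorem pv_loc (h : C.Ok aK) (hA : C.A ≠ 0) (hu : u ∈ C.Adm) (hu' : u' ∈ C.Adm) (hn : u ≠ u')
    (h1 : u.1 = u'.1) (hr : C.Rl f u u') : Disjoint (C.Pv f u) (C.Pv f u') := by
  refine disjoint_left.2 fun y hy hy' => ?_
  obtain ⟨x, hx, k⟩ := mem_Nb.1 hy
  obtain ⟨x', hx', k'⟩ := mem_Nb.1 hy'
  have n := h.nm
  obtain ⟨s1, -, s3⟩ := h.tile_sep hu hu' hn
  rw [Cu.mem_Q (QNum_R1 h)] at hx hx'
  have c1 := aff_low (f := f) (u := u) h hA (x := x) (y := x') fun i hi =>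
    (hx.1 i hi).trans ((s3 h1 i hi).trans (hx'.1 i hi).symm)
  have e : C.aff0 f u x - C.aff0 f u x' = (y - C.aff0 f u' x') - (y - C.aff0 f u x) +
      (f (C.ctr u') - C.aff0 f u (C.ctr u')) := by
    simp only [Cu.aff0, map_sub]
    abel
  have c2 := norm_add_le ((y - C.aff0 f u' x') - (y - C.aff0 f u x))
    (f (C.ctr u') - C.aff0 f u (C.ctr u'))
  have c3 := norm_sub_le (y - C.aff0 f u' x') (y - C.aff0 f u x)
  have c4 := norm_sub_le_norm_sub_add_norm_sub (C.ctr u) x (C.ctr u')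
  have c5 := norm_sub_le_norm_sub_add_norm_sub x x' (C.ctr u')
  rw [norm_sub_rev _ x] at c4
  rw [Cu.Rl, norm_sub_rev (C.ctr u')] at hr
  rw [← e] at c2
  have c6 : C.τ / C.t0 ≤ C.σ := (div_le_iff₀ n.t0).2 (by
    linarith only [n, n.τσ, n.τ0, mul_le_mul_of_nonneg_left n.st n.σ0.1.le, mul_pos n.σ0.1 n.s0])
  have c7 := mul_le_mul_of_nonneg_right c6 (sub_nonneg.2 s1)
  have c8 : C.σ * (‖C.ctr u - C.ctr u'‖ - C.t0 + C.κ * C.s / 2) ≤ C.σ * ‖x - x'‖ :=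
    mul_le_mul_of_nonneg_left (by linarith only [hx, hx', c4, c5, n, hx.2, hx'.2, n.r1]) n.σ0.1.le
  have c9 := div_mul_cancel₀ C.τ n.t0.ne'
  linarith only [hr, k, k', c1, c2, c3, c7, c8, c9, n, n.em, n.τm, n.τ0]

end

section
variable {ι : Type} [Finite ι] {C : ι → Cu} {P : Pr} {aK : ℝ} {Ω : Set (Rn 3)} {K : Kx Ω}
  {ch : Set (Rn 3) → Ch} {w lam : Set (Rn 3) → ℝ} {f Φ : Rn 3 → Rn 3} {θ : Rn 3 → ℝ} {μ ρ1 μ1 : ℝ}
  {kp : ι → Set (I3 × I3)} {𝒟 : Set Fg} {𝔅 : Pcs kp → Finset (Rn 3 × ℝ)}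

theorem QNum_q (h : QCf C P aK K ch w lam f θ μ ρ1 μ1 kp) {q : ι} {u : I3 × I3} (hu : u ∈ kp q)
    {x : Rn 3} (hn : ‖x - (C q).ctr u‖ < 3 * (C q).ρ') : x ∈ ball (C q).o (C q).η :=
  Sep_ball (h.gf.ok q) (h.adm q u hu).1 (mem_ball_iff_norm.2 hn)

theorem QCf.far (h : QCf C P aK K ch w lam f θ μ ρ1 μ1 kp) {q : ι} {u : I3 × I3} (hu : u ∈ kp q)
    {x : Rn 3} (hx : x ∈ Ω) : (‖f x - f ((C q).ctr u)‖ < μ → ‖x - (C q).ctr u‖ < (C q).ρ') ∧
      (‖f x - f ((C q).ctr u)‖ < μ1 → ‖x - (C q).ctr u‖ < ρ1) := by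
  have c : (C q).ctr u ∈ (C q).q := ball_subset_closedBall (QNum_q h hu (by
    rw [sub_self, norm_zero]
    linarith [(h.gf.ok q).pos.2.2.2.2.2.1]))
  refine ⟨fun k => ?_, fun k => ?_⟩
  · obtain ⟨x', a1, a2⟩ := (h.mu.m1 q _ c).1 (mem_ball_iff_norm.2 k)
    exact mem_ball_iff_norm.1 (h.mu.inj a1.2 hx a2 ▸ a1.1)
  · obtain ⟨x', a1, a2⟩ := h.m1.m1 q _ c (mem_ball_iff_norm.2 k)
    exact mem_ball_iff_norm.1 (h.mu.inj a1.2 hx a2 ▸ a1.1)

theorem QCf.same (h : QCf C P aK K ch w lam f θ μ ρ1 μ1 kp) {q q' : ι} {u : I3 × I3}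
    (hu : u ∈ kp q) {x : Rn 3} (hx : x ∈ (C q').q) (hn : ‖x - (C q).ctr u‖ < 3 * (C q).ρ') :
    q = q' := by
  exact by_contra fun e => disjoint_left.1 (h.gf.far q q' e) (QNum_q h hu hn) hx

theorem QCf.pv_dis (h : QCf C P aK K ch w lam f θ μ ρ1 μ1 kp) {q q' : ι} {u u' : I3 × I3}
    (hq : 2 ≤ (C q).I.card) (hu : u ∈ kp q) (hu' : u' ∈ kp q') (hn : (q, u) ≠ (q', u')) :
    Disjoint ((C q).Pv f u) ((C q').Pv f u') := by
  refine disjoint_left.2 fun y hy hy' => ?_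
  have ρ0 := fun q => (h.gf.ok q).pos.2.2.2.2.2.1
  have c : (C q).ctr u ∈ (C q).q := ball_subset_closedBall (QNum_q h hu (by
    rw [sub_self, norm_zero]
    linarith only [ρ0, ρ0 q]))
  obtain ⟨x, ⟨a1, a2⟩, rfl⟩ := (h.mu.m1 q _ c).1
    (ball_subset_ball (h.mu.m2 q).1.le (pv_ball (h.gf.ok q) hy))
  have a3 := (h.far hu' a2).1
    ((mem_ball_iff_norm.1 (pv_ball (h.gf.ok q') hy')).trans (h.mu.m2 q').1)
  rw [mem_ball_iff_norm] at a1
  obtain rfl := h.same hu (ball_subset_closedBall (QNum_q h hu' (x := x) (by linarith [ρ0 q'])))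
    (by linarith [ρ0 q])
  have e : u ≠ u' := fun k => hn (by rw [k])
  have d : ‖(C q).ctr u' - (C q).ctr u‖ < 2 * (C q).ρ' := by
    linarith [norm_sub_le_norm_sub_add_norm_sub ((C q).ctr u') x ((C q).ctr u),
      norm_sub_rev ((C q).ctr u') x]
  exact disjoint_left.1 (pv_loc (h.gf.ok q) (h.adm q u hu).2 (h.adm q u hu).1 (h.adm q u' hu').1 e
    (((h.gf.ok q).tile_sep (h.adm q u hu).1 (h.adm q u' hu').1 e).2.1 (by rwa [norm_sub_rev]))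
    (h.rl q hq u hu u' hu' d)) hy hy'

end

end BEp
end
end

-- merged part: Pool.Agent.Work.MP_f0515e_an.P2.QSk
section
/-! The skeleton in a tile. In `WI` the cells are `kbC (ns - 4)` (`Fit.fine`, `Q_sub`), `GGeo_dm_kb`, `Sel3_sk`, `Sep_sk`.
`sk_hl`: for plates the first part is convex. For solids it is the union of the convex sets `{z ∈ Q u R1 | z j = k * (16 s), 0 ≤ s (z i - a)}`; for `j ≠ i` such a set (if nonempty) meets the end face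
`z i = c i + s R1`, for `j = i` it meets the set with `j' ≠ i`, `z j' = c j' + R1` (`Nm.rk`). -/

open Set Metric Filter Topology Function BEv MeasureTheory
open scoped NNReal ENNReal

noncomputable section
namespace BEp

variable {C : Cu} {aK : ℝ} {Ω : Set (Rn 3)} {K : Kx Ω} {ch : Set (Rn 3) → Ch} {w : Set (Rn 3) → ℝ}
  {f : Rn 3 → Rn 3} {D : Rn 3 → Rn 3 →L[ℝ] Rn 3} {v : Rn 3 → ℝ≥0∞} {u u' : I3 × I3}

theorem sk_closed (K : Kx Ω) (hΩ : IsOpen Ω) (d : ℕ) {S : Set (Rn 3)} (hS : IsCompact S)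
    (hs : S ⊆ Ω) : IsCompact (K.sk d ∩ S) := by
  refine hS.of_isClosed_subset (isClosed_of_closure_subset fun x hx => ?_) inter_subset_right
  have h1 : x ∈ S := hS.isClosed.closure_subset (closure_mono inter_subset_right hx)
  exact ⟨Kx.sk_closed hΩ (hs h1) (closure_mono inter_subset_left hx), h1⟩

theorem sk_Rm (h : C.Ok aK) (hu : u ∈ C.Adm) : C.Q u C.Rm ⊆ C.WI ∧ C.Q u C.Rm ⊆ ball C.o C.η := by
  have h1 : C.Q u C.Rm ⊆ C.WI := (h.Q_sub hu).1.trans (h.Q_sub hu).2.1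
  refine ⟨h1, h1.trans (h.WI_prop.2.1.trans (h.O_prop.2.1.trans (ball_subset_ball ?_)))⟩
  linarith [h.pos.2.1]

theorem sk_lat (hf : C.Fit aK K ch w) (h : C.Ok aK) (hu : u ∈ C.Adm) {x : Rn 3}
    (hx : x ∈ C.Q u C.Rm) (J : Finset (Fin 3))
    (hJ : ∀ i ∈ C.I, i ∉ J → ∃ k : ℤ, x i = k * (16 * C.s)) : x ∈ K.sk J.card := by
  have hW := (sk_Rm h hu).1 hx
  refine ⟨hf.GGeo_WΩ h hW, ?_⟩
  rw [hf.fine x hW]
  refine GGeo_dm_kb h.GGeo_δ fun i hi => ?_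
  by_cases k : i ∈ C.I
  · exact hJ i k hi
  · obtain ⟨m, hm⟩ := (h.Q_sub hu).2.2.2 i
    exact ⟨m, (hx.1 i k).trans hm⟩

theorem QSk_lat (h : C.Ok aK) {t : ℝ} (ht : ∃ k : ℤ, 2 ^ (C.ns - 4) * t = k) :
    ∃ k : ℤ, t = k * (16 * C.s) := by
  obtain ⟨k, hk⟩ := ht
  refine ⟨k, ?_⟩
  rw [h.GGeo_δ, ← hk]
  field_simp

theorem sk_two (hf : C.Fit aK K ch w) (h : C.Ok aK) (hu : u ∈ C.Adm) {x : Rn 3}
    (hx : x ∈ K.sk 2 ∩ C.Q u C.Rm) : ∃ i, ∃ k : ℤ, x i = k * (16 * C.s) := by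
  have h1 := hx.1.2
  rw [hf.fine x ((sk_Rm h hu).1 hx.2)] at h1
  obtain ⟨i, hi⟩ := Sel3_sk h1
  exact ⟨i, QSk_lat h hi⟩

theorem QSk_fix (h : C.Ok aK) {P : Fin 3 → Prop} (h1 : ∀ i, i ∉ C.I → P i)
    (h2 : ∃ j, ∀ i, i ≠ j → P i) : ∃ j ∈ C.I, ∀ i, i ≠ j → P i := by
  obtain ⟨j, hj⟩ := h2
  by_cases k : j ∈ C.I
  · exact ⟨j, k, hj⟩
  · obtain ⟨j', hj'⟩ := h.ne
    refine ⟨j', hj', fun i _ => ?_⟩
    by_cases e : i = j
    · exact h1 i (e ▸ k)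
    · exact hj i e

theorem sk_one (hf : C.Fit aK K ch w) (h : C.Ok aK) (hu : u ∈ C.Adm) {x : Rn 3}
    (hx : x ∈ K.sk 1 ∩ C.Q u C.Rm) : ∃ j ∈ C.I, ∀ i, i ≠ j → ∃ k : ℤ, x i = k * (16 * C.s) := by
  have hW := (sk_Rm h hu).1 hx.2
  refine QSk_fix h (fun i hi => ?_) ?_
  · obtain ⟨m, hm⟩ := (h.Q_sub hu).2.2.2 i
    exact ⟨m, (hx.2.1 i hi).trans hm⟩
  rcases Kx.mem_sk_one.1 hx.1 with ⟨-, e⟩ | ⟨a, b, he, hab⟩
  · refine ⟨0, fun i _ => QSk_lat h ?_⟩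
    by_contra hn
    obtain ⟨ε, e0, e1⟩ := Sel3_b hn
    rw [← hf.fine x hW, e, mem_singleton_iff] at e1
    have e2 := congrFun e1 i
    simp only [Pi.add_apply, Pi.smul_apply, Pi.single_eq_same, smul_eq_mul, mul_one,
      add_eq_left] at e2
    exact e0 e2
  · have e : openSegment ℝ a b = kbC (C.ns - 4) x :=
      (Kx.cell_eq he.2 hab).symm.trans (hf.fine x hW)
    obtain ⟨j, hj⟩ := Sel3_edge e
    refine ⟨j, fun i hi => QSk_lat h ?_⟩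
    rw [← seg_image_open] at hab
    obtain ⟨t, -, rfl⟩ := hab
    have e2 : seg a b t i = a i := by
      simp only [seg, Pi.add_apply, Pi.smul_apply, Pi.sub_apply, (hj i hi).2, sub_self, smul_zero,
        add_zero]
    rw [e2]
    exact (hj i hi).1

theorem QSk_cvx (u : I3 × I3) (R : ℝ) : Convex ℝ (C.Q u R) := by
  intro x hx y hy a b ha hb hab
  refine ⟨fun i hi => ?_, fun i hi => ?_⟩
  · have x1 : x i = C.ctr u i := hx.1 i hi
    have y1 : y i = C.ctr u i := hy.1 i hi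
    show a * x i + b * y i = C.ctr u i
    rw [x1, y1, ← add_mul, hab, one_mul]
  · have x1 : |x i - C.ctr u i| ≤ R := hx.2 i hi
    have y1 : |y i - C.ctr u i| ≤ R := hy.2 i hi
    show |a * x i + b * y i - C.ctr u i| ≤ R
    have e : a * x i + b * y i - C.ctr u i = a * (x i - C.ctr u i) + b * (y i - C.ctr u i) := by
      linear_combination (C.ctr u i) * hab
    have eR : R = a * R + b * R := by rw [← add_mul, hab, one_mul]
    rw [e]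
    rw [abs_le] at x1 y1 ⊢
    constructor
    · linarith only [eR, x1, ha, y1, hb, mul_le_mul_of_nonneg_left x1.1 ha, mul_le_mul_of_nonneg_left y1.1 hb]
    · linarith only [eR, x1, ha, y1, hb, mul_le_mul_of_nonneg_left x1.2 ha, mul_le_mul_of_nonneg_left y1.2 hb]

theorem sk_edge (hf : C.Fit aK K ch w) (h : C.Ok aK) (hu : u ∈ C.Adm) {a b : Rn 3}
    (he : K.Edge a b) (ha : a ∈ C.Q u (C.t0 / 2)) (hb : b ∈ C.Q u (C.t0 / 2)) :
    ∃ j ∈ C.I, ∀ i, i ≠ j → (∃ k : ℤ, a i = k * (16 * C.s)) ∧ b i = a i := by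
  refine QSk_fix h (fun i hi => ?_) ?_
  · obtain ⟨m, hm⟩ := (h.Q_sub hu).2.2.2 i
    exact ⟨⟨m, (ha.1 i hi).trans hm⟩, (hb.1 i hi).trans (ha.1 i hi).symm⟩
  obtain ⟨x, hx⟩ := Kx.cells_ne he.2
  have hW : x ∈ C.WI := h.GGeo_QW hu le_rfl
    ((QSk_cvx u _).segment_subset ha hb (openSegment_subset_segment ℝ a b hx))
  obtain ⟨j, hj⟩ := Sel3_edge ((Kx.cell_eq he.2 hx).symm.trans (hf.fine x hW))
  exact ⟨j, fun i hi => ⟨QSk_lat h (hj i hi).1, (hj i hi).2⟩⟩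

theorem QSk_ray (u : I3 × I3) {i : Fin 3} (hi : i ∈ C.I) {t R : ℝ} (ht : |t| ≤ R) :
    C.ctr u + t • (Pi.single i 1 : Rn 3) ∈ C.Q u R := by
  refine ⟨fun j hj => ?_, fun j _ => ?_⟩
  · have e : j ≠ i := fun e => hj (e ▸ hi)
    show (C.ctr u + t • (Pi.single i 1 : Rn 3)) j = C.ctr u j
    rw [Pi.add_apply, Pi.smul_apply, Pi.single_eq_of_ne e, smul_zero, add_zero]
  · show |(C.ctr u + t • (Pi.single i 1 : Rn 3)) j - C.ctr u j| ≤ R
    rw [Pi.add_apply, add_sub_cancel_left, Pi.smul_apply, smul_eq_mul]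
    by_cases e : j = i
    · rwa [e, Pi.single_eq_same, mul_one]
    · rw [Pi.single_eq_of_ne e, mul_zero, abs_zero]
      exact (abs_nonneg t).trans ht

theorem sk_ray (hf : C.Fit aK K ch w) (h : C.Ok aK) (hu : u ∈ C.Adm) {i : Fin 3} (hi : i ∈ C.I)
    {t : ℝ} (ht : |t| ≤ C.Rm) : C.ctr u + t • (Pi.single i 1 : Rn 3) ∈ K.sk 1 ∩ C.Q u C.Rm := by
  have hQ := QSk_ray u hi ht
  refine ⟨?_, hQ⟩
  have h1 := sk_lat hf h hu hQ {i} fun j _ hj => by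
    obtain ⟨m, hm⟩ := (h.Q_sub hu).2.2.2 j
    refine ⟨m, ?_⟩
    rw [Finset.mem_singleton] at hj
    rw [Pi.add_apply, Pi.smul_apply, Pi.single_eq_of_ne hj, smul_zero, add_zero, hm]
  rwa [Finset.card_singleton] at h1

theorem QSk_R1 (h : C.Ok aK) : 0 < C.R1 ∧ C.R1 ≤ C.Rm := by
  have n := h.nm
  have k0 : 0 < C.κ * C.s := mul_pos h.pos.2.2.2.2.2.2.1 n.s0
  refine ⟨by linarith only [k0, n, n.r0, n.r2, n.t0], ?_⟩
  unfold Cu.Rm
  linarith only [k0, n, n.r1, n.ρ1, n.t0]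

theorem QSk_pl (hf : C.Fit aK K ch w) (h : C.Ok aK) (hu : u ∈ C.Adm) {x : Rn 3}
    (hx : x ∈ C.Q u C.R1) {j : Fin 3} (hj : ∃ k : ℤ, x j = k * (16 * C.s)) : x ∈ K.sk 2 := by
  have h1 := sk_lat hf h hu (Cu.GGeo_Q_mono (QSk_R1 h).2 hx) (Finset.univ.erase j)
    fun i _ hi => by
      have e : i = j := by simpa using hi
      rwa [e]
  have e : (Finset.univ.erase j).card = 2 := by simp
  rwa [e] at h1

theorem sk_sph (hf : C.Fit aK K ch w) (h : C.Ok aK) (hu : u ∈ C.Adm) (hc : C.I.card = 3) :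
    sphere (C.ctr u) C.R1 ⊆ K.sk 2 := by
  intro x hx
  obtain ⟨r0, r1⟩ := QSk_R1 h
  have hI : C.I = Finset.univ := Finset.eq_univ_of_card _ (by simpa using hc)
  have nx : ‖x - C.ctr u‖ = C.R1 := mem_sphere_iff_norm.1 hx
  have hQ : x ∈ C.Q u C.R1 := (Cu.mem_Q r0.le).2
    ⟨fun i hi => absurd (hI ▸ Finset.mem_univ i) hi, nx.le⟩
  obtain ⟨i, hi⟩ : ∃ i, |x i - C.ctr u i| = C.R1 := by
    by_contra hn
    push Not at hn
    have : ‖x - C.ctr u‖ < C.R1 := (pi_norm_lt_iff r0).2 fun i =>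
      lt_of_le_of_ne ((norm_le_pi_norm (x - C.ctr u) i).trans nx.le) (hn i)
    linarith only [nx, this]
  refine QSk_pl hf h hu hQ (j := i) ?_
  obtain ⟨m, hm⟩ := (h.Q_sub hu).2.2.2 i
  obtain ⟨k, hk⟩ := h.nm.rk
  rcases (abs_eq r0.le).1 hi with e | e
  · exact ⟨m + k, by push_cast; linarith only [hm, hk, e]⟩
  · exact ⟨m - k, by push_cast; linarith only [hm, hk, e]⟩

/-- Part of the skeleton of a tile in a half space, together with a ray. -/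
def Cu.hl (C : Cu) (K : Kx Ω) (u : I3 × I3) (i : Fin 3) (s a : ℝ) : Set (Rn 3) :=
  {z | z ∈ K.sk 2 ∩ C.Q u C.R1 ∧ 0 ≤ s * (z i - a)} ∪
    (fun t : ℝ => C.ctr u + (s * t) • (Pi.single i 1 : Rn 3)) '' Icc C.R1 C.Rm

theorem QSk_cpt (u : I3 × I3) {R : ℝ} (hR : 0 ≤ R) : IsCompact (C.Q u R) := by
  have e : C.Q u R = {x | ∀ i, i ∉ C.I → x i = C.ctr u i} ∩ closedBall (C.ctr u) R := by
    ext x
    rw [Cu.mem_Q hR, mem_inter_iff, mem_closedBall_iff_norm]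
    rfl
  rw [e]
  refine (isCompact_closedBall _ _).inter_left ?_
  simp only [ofPred_forall]
  exact isClosed_iInter fun i => isClosed_iInter fun _ =>
    isClosed_eq (continuous_apply i) continuous_const

theorem QSk_upd {R t : ℝ} {z : Rn 3} (hz : z ∈ C.Q u R) {j : Fin 3}
    (ht : t = C.ctr u j ∨ (j ∈ C.I ∧ |t - C.ctr u j| ≤ R)) (hR : 0 ≤ R) :
    update z j t ∈ C.Q u R := by
  refine ⟨fun i hi => ?_, fun i hi => ?_⟩
  · show update z j t i = C.ctr u i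
    by_cases e : i = j
    · subst e
      rw [update_self]
      exact ht.resolve_right fun k => hi k.1
    · rw [update_of_ne e]
      exact hz.1 i hi
  · show |update z j t i - C.ctr u i| ≤ R
    by_cases e : i = j
    · subst e
      rw [update_self]
      rcases ht with k | k
      · rwa [k, sub_self, abs_zero]
      · exact k.2
    · rw [update_of_ne e]
      exact hz.2 i hi

theorem sk_hl (hf : C.Fit aK K ch w) (h : C.Ok aK) (hu : u ∈ C.Adm) (hc : 2 ≤ C.I.card)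
    {i : Fin 3} (hi : i ∈ C.I) {s a : ℝ} (hs : s = 1 ∨ s = -1) (ha : s * (a - C.ctr u i) ≤ C.R1) :
    IsClosed (C.hl K u i s a) ∧ IsPreconnected (C.hl K u i s a) ∧
      C.hl K u i s a ⊆ K.sk 2 ∩ C.q := by
  obtain ⟨r0, r1⟩ := QSk_R1 h
  have s2 : s * s = 1 := by rcases hs with e | e <;> rw [e] <;> norm_num
  have sa : ∀ t : ℝ, 0 ≤ t → |s * t| = t := fun t ht => by
    rcases hs with e | e <;> rw [e] <;> simp [abs_of_nonneg ht]
  have hq : C.Q u C.Rm ⊆ C.q := (sk_Rm h hu).1.trans h.GGeo_Wq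
  have hQ : C.Q u C.R1 ⊆ C.q := (Cu.GGeo_Q_mono r1).trans hq
  have cr : Continuous fun t : ℝ => C.ctr u + (s * t) • (Pi.single i 1 : Rn 3) := by fun_prop
  refine ⟨IsClosed.union ?_ (isCompact_Icc.image cr).isClosed, ?_, ?_⟩
  · exact (sk_closed K hf.opn 2 (QSk_cpt u r0.le) (hQ.trans hf.sub)).isClosed.inter
      (isClosed_le (f := fun _ : Rn 3 => (0 : ℝ)) (g := fun z : Rn 3 => s * (z i - a))
        (by fun_prop) (by fun_prop))
  · -- the planes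
    let T : Fin 3 → ℤ → Set (Rn 3) := fun j k =>
      {z | z ∈ C.Q u C.R1 ∧ z j = k * (16 * C.s) ∧ 0 ≤ s * (z i - a)}
    have Tc : ∀ j k, IsPreconnected (T j k) := fun j k => by
      refine Convex.isPreconnected fun x hx y hy b c hb hc' hbc =>
        ⟨QSk_cvx u _ hx.1 hy.1 hb hc' hbc, ?_, ?_⟩
      · show b * x j + c * y j = k * (16 * C.s)
        rw [hx.2.1, hy.2.1, ← add_mul, hbc, one_mul]
      · show 0 ≤ s * (b * x i + c * y i - a)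
        have e : s * (b * x i + c * y i - a) = b * (s * (x i - a)) + c * (s * (y i - a)) := by
          linear_combination (s * a) * hbc
        rw [e]
        exact add_nonneg (mul_nonneg hb hx.2.2) (mul_nonneg hc' hy.2.2)
    have Ts : ∀ j k, T j k ⊆ C.hl K u i s a := fun j k z hz =>
      Or.inl ⟨⟨QSk_pl hf h hu hz.1 ⟨k, hz.2.1⟩, hz.1⟩, hz.2.2⟩
    obtain ⟨kE, hE⟩ : ∃ kE : ℤ, C.ctr u i + s * C.R1 = kE * (16 * C.s) := by
      obtain ⟨m, hm⟩ := (h.Q_sub hu).2.2.2 i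
      obtain ⟨k, hk⟩ := h.nm.rk
      rcases hs with e | e
      · exact ⟨m + k, by rw [e]; push_cast; linarith only [hm, hk]⟩
      · exact ⟨m - k, by rw [e]; push_cast; linarith only [hm, hk]⟩
    have hE2 : 0 ≤ s * (C.ctr u i + s * C.R1 - a) := by
      have e : s * (C.ctr u i + s * C.R1 - a) = C.R1 - s * (a - C.ctr u i) := by
        linear_combination C.R1 * s2
      rw [e]
      linarith
    have p0 : C.ctr u + (s * C.R1) • (Pi.single i 1 : Rn 3) ∈ T i kE := by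
      have e : (C.ctr u + (s * C.R1) • (Pi.single i 1 : Rn 3)) i = C.ctr u i + s * C.R1 := by
        rw [Pi.add_apply, Pi.smul_apply, Pi.single_eq_same, smul_eq_mul, mul_one]
      exact ⟨QSk_ray u hi (sa _ r0.le).le, e.trans hE, by rw [e]; exact hE2⟩
    have L1 : ∀ j k, j ≠ i → ∀ z ∈ T j k, ∃ t ⊆ C.hl K u i s a,
        C.ctr u + (s * C.R1) • (Pi.single i 1 : Rn 3) ∈ t ∧ z ∈ t ∧ IsPreconnected t := by
      intro j k hj z hz
      have z1 : update z i (C.ctr u i + s * C.R1) ∈ C.Q u C.R1 :=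
        QSk_upd hz.1 (Or.inr ⟨hi, by rw [add_sub_cancel_left, sa _ r0.le]⟩) r0.le
      have z2 : 0 ≤ s * (update z i (C.ctr u i + s * C.R1) i - a) := by
        rw [update_self]
        exact hE2
      refine ⟨T j k ∪ T i kE, union_subset (Ts j k) (Ts i kE), Or.inr p0, Or.inl hz,
        IsPreconnected.union (update z i (C.ctr u i + s * C.R1)) ⟨z1, ?_, z2⟩ ⟨z1, ?_, z2⟩
          (Tc j k) (Tc i kE)⟩
      · rw [update_of_ne hj]
        exact hz.2.1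
      · rw [update_self]
        exact hE
    refine isPreconnected_of_forall (C.ctr u + (s * C.R1) • (Pi.single i 1 : Rn 3)) ?_
    rintro z (hz | hz)
    · obtain ⟨j, k, hk⟩ := sk_two hf h hu ⟨hz.1.1, Cu.GGeo_Q_mono r1 hz.1.2⟩
      by_cases e : j = i
      · subst e
        obtain ⟨j', hj'⟩ := exists_ne j
        obtain ⟨m, hm⟩ := (h.Q_sub hu).2.2.2 j'
        have z1 : update z j' (C.ctr u j') ∈ C.Q u C.R1 := QSk_upd hz.1.2 (Or.inl rfl) r0.le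
        have z2 : 0 ≤ s * (update z j' (C.ctr u j') j - a) := by
          rw [update_of_ne hj'.symm]
          exact hz.2
        obtain ⟨t, t1, t2, t3, t4⟩ := L1 j' m hj' (update z j' (C.ctr u j'))
          ⟨z1, by rw [update_self]; exact hm, z2⟩
        refine ⟨T j k ∪ t, union_subset (Ts j k) t1, Or.inr t2, Or.inl ⟨hz.1.2, hk, hz.2⟩,
          IsPreconnected.union (update z j' (C.ctr u j')) ⟨z1, ?_, z2⟩ t3 (Tc j k) t4⟩
        rw [update_of_ne hj'.symm]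
        exact hk
      · exact L1 j k e z ⟨hz.1.2, hk, hz.2⟩
    · exact ⟨_, subset_union_right, mem_image_of_mem _ ⟨le_rfl, r1⟩, hz,
        isPreconnected_Icc.image _ cr.continuousOn⟩
  · rintro z (hz | ⟨t, ht, rfl⟩)
    · exact ⟨hz.1.1, hQ hz.1.2⟩
    · have h1 := sk_ray hf h hu hi (t := s * t) (by rw [sa t (r0.le.trans ht.1)]; exact ht.2)
      exact ⟨Kx.sk_mono (by norm_num) h1.1, hq h1.2⟩

end BEp
end
end

-- merged part: Pool.Agent.Work.MP_f0515e_an.P2.QCl1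
section
/-! Tracking along `hl`. `trk_hl`: `trk_det` with `L = hl K u i s (x i)` (`sk_hl`, `QFam.inter`; a disc has diameter at most `2 ρ1 ≤ ρ'`, the ray is longer), far point `p = c + (s Rm) e_i`: a point `p'` within `ρ'` of `p` is at distance at least `ρ'` from `c'`,
so `μ ≤ ‖f p' - f c'‖` (`QCf.far`), and `‖β.1 - f c'‖ ≤ μ / 1000` (`bal`, `pv_ball`, `Mu1.num`). `cl_other`: a point `z` of `hl` in `Q u R1` has `f z ∈ Pv f u` (`own`), against `pv_dis`. So `z` lies on the ray and `‖z - c'‖ < ρ1`.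
If `2 ρ' ≤ ‖c' - c‖`, the two opposite rays cannot both meet `ball c' (2 ρ')` (convexity). Otherwise the cube is the same (`QCf.same`), `rl` applies, `|c' i - c i| = R = ‖c' - c‖ ≥ t0` for some `i ∈ I` (`tile_sep`), `s (c' i - c i) = -R`;
for `z = c + (s t) e_i`, `x' ∈ Q u' R1`: `σ (t + R - R1) ≤ 4 t τ / t0 + 0.18 m + R τ / t0`, false. -/

open Set Metric Filter Topology Function BEv MeasureTheory
open scoped NNReal ENNReal

noncomputable section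
namespace BEp

variable {ι : Type} [Finite ι] {C : ι → Cu} {P : Pr} {aK : ℝ} {Ω : Set (Rn 3)} {K : Kx Ω}
  {ch : Set (Rn 3) → Ch} {w lam : Set (Rn 3) → ℝ} {f Φ : Rn 3 → Rn 3} {θ : Rn 3 → ℝ} {μ ρ1 μ1 : ℝ}
  {kp : ι → Set (I3 × I3)} {𝒟 : Set Fg} {𝔅 : Pcs kp → Finset (Rn 3 × ℝ)}

omit [Finite ι] in
theorem QCl1_ρ (h : QCf C P aK K ch w lam f θ μ ρ1 μ1 kp) (q : ι) : (C q).ρ' = P.ρ' :=
  congrArg Pr.ρ' (h.gf.par q)

omit [Finite ι] in
theorem QCl1_pv (h : QCf C P aK K ch w lam f θ μ ρ1 μ1 kp) (hG : QGS C K f ρ1 kp 𝒟 𝔅)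
    {b : Pcs kp} {β : Rn 3 × ℝ} (hβ : β ∈ 𝔅 b) :
    closedBall β.1 β.2 ⊆ (C b.1.1).Pv f b.1.2 := by
  have n := (h.gf.ok b.1.1).nm
  exact (hG.bal b β hβ).2.trans (Nb_mono le_rfl (by linarith only [n, n.sm, n.s0]))

theorem QCl1_co (c y : Rn 3) (i : Fin 3) (t : ℝ) :
    |c i + t - y i| ≤ ‖c + t • (Pi.single i 1 : Rn 3) - y‖ := by
  simpa using norm_le_pi_norm (c + t • (Pi.single i 1 : Rn 3) - y) i

theorem QCl1_mid {c y : Rn 3} {i : Fin 3} {t t' r : ℝ} (ht : 0 ≤ t) (ht' : t' ≤ 0)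
    (h1 : ‖c + t • (Pi.single i 1 : Rn 3) - y‖ < r)
    (h2 : ‖c + t' • (Pi.single i 1 : Rn 3) - y‖ < r) : ‖c - y‖ < r := by
  refine (pi_norm_lt_iff ((norm_nonneg _).trans_lt h1)).2 fun j => ?_
  by_cases e : j = i
  · subst e
    have a1 := abs_lt.1 ((QCl1_co c y j t).trans_lt h1)
    have a2 := abs_lt.1 ((QCl1_co c y j t').trans_lt h2)
    exact abs_lt.2 ⟨by rw [Pi.sub_apply]; linarith [a2.1], by rw [Pi.sub_apply]; linarith [a1.2]⟩
  · simpa [e] using (norm_le_pi_norm (c + t • (Pi.single i 1 : Rn 3) - y) j).trans_lt h1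

theorem QGS.cut (h : QCf C P aK K ch w lam f θ μ ρ1 μ1 kp) (hG : QGS C K f ρ1 kp 𝒟 𝔅) :
    QFam f (K.sk 2 ∩ ⋃ q, (C q).q) 𝒟 (allB 𝔅) ∧ (∀ φ ∈ 𝒟, φ.d ⊆ interior (⋃ q, (C q).q)) ∧
      (∀ φ ∈ 𝒟, ∀ x ∈ φ.d, ∀ y ∈ φ.d, ‖x - y‖ ≤ P.ρ' ∧ ‖f x - f y‖ ≤ μ / 1000) ∧
      ∀ b, ∀ β ∈ 𝔅 b, β.2 ≤ 3 * (C b.1.1).τ ∧ β.2 ≤ μ / 1000 ∧
        ‖β.1 - f ((C b.1.1).ctr b.1.2)‖ ≤ μ / 1000 := by
  have hb : ∀ φ ∈ 𝒟, ∃ q, ∃ u ∈ kp q, φ.d ⊆ closedBall ((C q).ctr u) ρ1 ∧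
      φ.d ⊆ ball (C q).o (C q).η := fun φ hφ => by
    obtain ⟨q, -, u, hu, hd⟩ := hG.near φ hφ
    refine ⟨q, u, hu, hd, fun x hx => QNum_q h hu ?_⟩
    linarith only [hd, hx, h, mem_closedBall_iff_norm.1 (hd hx), (h.m1.num q).2.2.2, (h.gf.ok q).pos.2.2.2.2.2.1]
  have hi : ∀ φ ∈ 𝒟, φ.d ⊆ interior (⋃ q, (C q).q) := fun φ hφ => by
    obtain ⟨q, u, -, -, hd⟩ := hb φ hφ
    exact hd.trans (interior_maximal
      (ball_subset_closedBall.trans (subset_iUnion (fun q => (C q).q) q)) isOpen_ball)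
  refine ⟨hG.fam.inter fun φ hφ => (hi φ hφ).trans interior_subset, hi, fun φ hφ x hx y hy => ?_,
    fun b β hβ => ?_⟩
  · obtain ⟨q, u, -, hd, hd'⟩ := hb φ hφ
    have e : ‖x - y‖ ≤ 2 * ρ1 := by
      linarith [mem_closedBall_iff_norm.1 (hd hx), mem_closedBall_iff_norm'.1 (hd hy),
        norm_sub_le_norm_sub_add_norm_sub x ((C q).ctr u) y]
    exact ⟨e.trans (QCl1_ρ h q ▸ (h.m1.num q).2.2.2),
      h.m1.osc q y (ball_subset_closedBall (hd' hy)) x (ball_subset_closedBall (hd' hx)) e⟩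
  · have n := (h.gf.ok b.1.1).nm
    have a1 : β.2 ≤ 3 * (C b.1.1).τ :=
      (Finset.single_le_sum (f := fun β : Rn 3 × ℝ => β.2)
        (fun β' hβ' => (hG.fam.pos β' ⟨b, hβ'⟩).le) hβ).trans (hG.sum b)
    have a2 := (h.m1.num b.1.1).2.1
    have a3 := mem_ball_iff_norm.1 (pv_ball (h.gf.ok b.1.1)
      (QCl1_pv h hG hβ (mem_closedBall_self (hG.fam.pos β ⟨b, hβ⟩).le)))
    refine ⟨a1, ?_, by linarith only [a2, a3]⟩
    linarith only [a1, a2, n, mul_nonneg (norm_nonneg (C b.1.1).A) n.t0.le, n.τσ, n.st, n.s0,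
      mul_le_of_le_one_left n.s0.le n.σ0.2]

theorem trk_hl (h : QCf C P aK K ch w lam f θ μ ρ1 μ1 kp) (hG : QGS C K f ρ1 kp 𝒟 𝔅)
    (hC : CtOut f (K.sk 2 ∩ ⋃ q, (C q).q) 𝒟 (allB 𝔅) (μ / 1000) Φ) {q : ι} {u : I3 × I3}
    (hu : u ∈ kp q) (h2 : 2 ≤ (C q).I.card) {x : Rn 3} (hx : x ∈ K.sk 2 ∩ (C q).Q u (C q).R1)
    {b : Pcs kp} {β : Rn 3 × ℝ} (hβ : β ∈ 𝔅 b) (hb : Φ (f x) ∈ ball β.1 β.2) {i : Fin 3}
    (hi : i ∈ (C q).I) {s : ℝ} (hs : s = 1 ∨ s = -1) (hp : 2 * P.ρ' ≤ ‖(C q).ctr u +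
      (s * (C q).Rm) • (Pi.single i 1 : Rn 3) - (C b.1.1).ctr b.1.2‖) :
    ∃ z ∈ (C q).hl K u i s (x i), Off 𝒟 z ∧ f z ∈ ball β.1 β.2 := by
  by_contra hn
  obtain ⟨c1, c2, c3, c4⟩ := hG.cut h
  have ok := h.gf.ok q
  have n := ok.nm
  have a1 : |x i - (C q).ctr u i| ≤ (C q).R1 := hx.2.2 i hi
  have a2 := abs_le.1 a1
  obtain ⟨l1, l2, l3⟩ := sk_hl (h.gf.fit q) ok (h.adm q u hu).1 h2 hi hs (a := x i)
    (by rcases hs with rfl | rfl <;> linarith only [a2, a2.1, a2.2])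
  have hxL : x ∈ (C q).hl K u i s (x i) := Or.inl ⟨hx, by rw [sub_self, mul_zero]⟩
  have hpL : (C q).ctr u + (s * (C q).Rm) • (Pi.single i 1 : Rn 3) ∈ (C q).hl K u i s (x i) :=
    Or.inr ⟨_, ⟨(QSk_R1 ok).2, le_rfl⟩, rfl⟩
  refine trk_det c1 hC ⟨b, hβ⟩ (l3.trans (inter_subset_inter_right _
    (subset_iUnion (fun q => (C q).q) q))) l1 l2 (fun φ hφ k => ?_)
    (fun z hz ho k => hn ⟨z, hz, ho, k⟩) ⟨_, hpL, fun p' hp' => ?_⟩ x hxL hb
  · have a3 := abs_le.1 ((QCl1_co _ _ _ _).trans (c3 φ hφ _ (k hpL) _ (k hxL)).1)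
    have a4 : (C q).Rm = (C q).t0 / 2 + 3 * (C q).ρ' := rfl
    rw [← QCl1_ρ h q] at a3
    rcases hs with rfl | rfl <;>
      linarith only [a2, a4, a3, n, a3.1, a3.2, a2.1, a2.2, n.r1, n.mκ, n.sm, n.s0, n.ρ1, n.t0]
  · have a3 : p' ∈ Ω ∧ ‖(C q).ctr u + (s * (C q).Rm) • (Pi.single i 1 : Rn 3) - p'‖ ≤ P.ρ' := by
      rcases hp' with rfl | ⟨φ, hφ, k1, k2⟩
      · refine ⟨(h.gf.fit q).sub (l3 hpL).2, ?_⟩
        rw [sub_self, norm_zero, ← QCl1_ρ h q]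
        exact ok.pos.2.2.2.2.2.1.le
      · obtain ⟨q', hq'⟩ := mem_iUnion.1 (interior_subset (c2 φ hφ k2))
        exact ⟨(h.gf.fit q').sub hq', (c3 φ hφ _ k1 _ k2).1⟩
    have a4 : μ ≤ ‖f p' - f ((C b.1.1).ctr b.1.2)‖ := not_lt.1 fun k => by
      have := (h.far b.2 a3.1).1 k
      rw [QCl1_ρ h] at this
      linarith only [hp, a3, this, a3.2, norm_sub_le_norm_sub_add_norm_sub
        ((C q).ctr u + (s * (C q).Rm) • (Pi.single i 1 : Rn 3)) p' ((C b.1.1).ctr b.1.2)]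
    linarith only [a4, c4, hβ, h, (c4 b β hβ).2.2, h.m1.μ0,
      norm_sub_le_norm_sub_add_norm_sub (f p') β.1 (f ((C b.1.1).ctr b.1.2))]

theorem cl_other (h : QCf C P aK K ch w lam f θ μ ρ1 μ1 kp) (hG : QGS C K f ρ1 kp 𝒟 𝔅)
    (hC : CtOut f (K.sk 2 ∩ ⋃ q, (C q).q) 𝒟 (allB 𝔅) (μ / 1000) Φ) {q : ι} {u : I3 × I3}
    (hu : u ∈ kp q) (h2 : 2 ≤ (C q).I.card) {x : Rn 3} (hx : x ∈ K.sk 2 ∩ (C q).Q u (C q).R1)
    {b : Pcs kp} {β : Rn 3 × ℝ} (hβ : β ∈ 𝔅 b) (hb : Φ (f x) ∈ ball β.1 β.2) : b.1 = (q, u) := by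
  by_contra hn
  have ok := h.gf.ok q
  have n := ok.nm
  have R0 := QSk_R1 ok
  have ray : ∀ i ∈ (C q).I, ∀ s : ℝ, s = 1 ∨ s = -1 → 2 * P.ρ' ≤ ‖(C q).ctr u +
      (s * (C q).Rm) • (Pi.single i 1 : Rn 3) - (C b.1.1).ctr b.1.2‖ →
      ∃ t ∈ Icc (C q).R1 (C q).Rm,
        f ((C q).ctr u + (s * t) • (Pi.single i 1 : Rn 3)) ∈ closedBall β.1 β.2 := by
    intro i hi s hs hp
    obtain ⟨z, hz, ho, k⟩ := trk_hl h hG hC hu h2 hx hβ hb hi hs hp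
    rcases hz with hz | ⟨t, ht, rfl⟩
    · refine absurd (QCl1_pv h hG hβ (ball_subset_closedBall k))
        (disjoint_left.1 (h.pv_dis h2 hu b.2 fun e => hn e.symm) (mem_Nb.2 ⟨z, hz.1.2, ?_⟩))
      linarith only [hG, h2, hu, hz, ho, n, hG.own q h2 u hu z hz.1 ho, n.τm, n.τ0]
    · exact ⟨t, ht, ball_subset_closedBall k⟩
  have ab : ∀ {s t : ℝ}, s = 1 ∨ s = -1 → t ∈ Icc (C q).R1 (C q).Rm → |s * t| = t := by
    rintro s t (rfl | rfl) ht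
    · rw [one_mul, abs_of_nonneg (R0.1.le.trans ht.1)]
    · rw [neg_one_mul, abs_neg, abs_of_nonneg (R0.1.le.trans ht.1)]
  have hρ : 0 < P.ρ' := QCl1_ρ h q ▸ ok.pos.2.2.2.2.2.1
  have near : ‖(C q).ctr u - (C b.1.1).ctr b.1.2‖ < 2 * P.ρ' := by
    obtain ⟨i, hi⟩ := ok.ne
    have key : ∀ s : ℝ, s = 1 ∨ s = -1 → ∃ t, 0 ≤ t ∧ ‖(C q).ctr u +
        (s * t) • (Pi.single i 1 : Rn 3) - (C b.1.1).ctr b.1.2‖ < 2 * P.ρ' := by
      intro s hs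
      by_contra k
      obtain ⟨t, ht, k'⟩ := ray i hi s hs (not_lt.1 fun e => k ⟨_, R0.1.le.trans R0.2, e⟩)
      have a1 := (h.gf.fit q).sub (ball_subset_closedBall ((sk_Rm ok (h.adm q u hu).1).2
        (QSk_ray u hi (t := s * t) ((ab hs ht).trans_le ht.2))))
      have a2 := (h.far b.2 a1).1 ((mem_ball_iff_norm.1 (pv_ball (h.gf.ok _)
        (QCl1_pv h hG hβ k'))).trans (h.mu.m2 _).1)
      rw [QCl1_ρ h] at a2
      exact k ⟨t, R0.1.le.trans ht.1, by linarith⟩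
    obtain ⟨t, ht, k⟩ := key 1 (Or.inl rfl)
    obtain ⟨t', ht', k'⟩ := key (-1) (Or.inr rfl)
    exact QCl1_mid (by linarith) (by linarith) k k'
  obtain ⟨⟨q', u'⟩, hu'⟩ := b
  simp only at near ray hn hu'
  obtain rfl : q' = q := h.same hu' (ball_subset_closedBall (QNum_q h hu (x := (C q).ctr u) (by
    rw [sub_self, norm_zero, QCl1_ρ h]; linarith))) (by rw [QCl1_ρ h]; linarith)
  rw [← QCl1_ρ h q'] at near
  obtain ⟨s1, s2, s3⟩ := ok.tile_sep (h.adm _ u hu).1 (h.adm _ u' hu').1 fun e => hn (by rw [e])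
  have rl : ‖f ((C q').ctr u') - (C q').aff0 f u ((C q').ctr u')‖ ≤
      (C q').τ / (C q').t0 * ‖(C q').ctr u' - (C q').ctr u‖ :=
    h.rl q' h2 u hu u' hu' (by rwa [norm_sub_rev])
  rw [norm_sub_rev ((C q').ctr u')] at rl
  generalize hR : ‖(C q').ctr u - (C q').ctr u'‖ = R at *
  obtain ⟨i, hi⟩ : ∃ i, R ≤ |(C q').ctr u i - (C q').ctr u' i| := by
    by_contra k
    refine lt_irrefl R (hR.ge.trans_lt ((pi_norm_lt_iff (n.t0.trans_le s1)).2 fun i => ?_))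
    exact not_le.1 fun e => k ⟨i, e⟩
  have hI : i ∈ (C q').I := by_contra fun k => by
    rw [s3 (s2 near) i k, sub_self, abs_zero] at hi
    linarith only [s1, hi, n, n.t0]
  obtain ⟨s, hs, hs'⟩ : ∃ s : ℝ, (s = 1 ∨ s = -1) ∧
      R ≤ s * ((C q').ctr u i - (C q').ctr u' i) := by
    rcases le_abs.1 hi with k | k
    · exact ⟨1, Or.inl rfl, by linarith⟩
    · exact ⟨-1, Or.inr rfl, by linarith⟩
  have co : ∀ (t : ℝ) (y : Rn 3), t + s * ((C q').ctr u i - y i) ≤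
      ‖(C q').ctr u + (s * t) • (Pi.single i 1 : Rn 3) - y‖ := fun t y => by
    have := abs_le.1 (QCl1_co ((C q').ctr u) y i (s * t))
    rcases hs with rfl | rfl <;> linarith only [this, this.1, this.2]
  obtain ⟨t, ht, k⟩ := ray i hI s hs (by
    have a4 : (C q').Rm = (C q').t0 / 2 + 3 * (C q').ρ' := rfl
    linarith only [hρ, s1, hs', a4, co, h, n, co (C q').Rm ((C q').ctr u'), QCl1_ρ h q', n.t0])
  obtain ⟨x', hx', k'⟩ := mem_Nb.1 ((hG.bal _ β hβ).2 k)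
  simp only at hx' k'
  have g1 := (h.g2 q' h2 u hu).ray i hI (s * t) ((ab hs ht).trans_le ht.2)
  rw [ab hs ht] at g1
  have c0 := co t x'
  have c1 := aff_low (f := f) (u := u) ok (h.adm _ u hu).2
    (x := (C q').ctr u + (s * t) • (Pi.single i 1 : Rn 3)) (y := x') fun j hj => by
      have e : j ≠ i := fun e => hj (e ▸ hI)
      have e' : x' j = (C q').ctr u' j := hx'.1 j hj
      simp [e, e', s3 (s2 near) j hj]
  generalize (C q').ctr u + (s * t) • (Pi.single i 1 : Rn 3) = z at *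
  have e : (C q').aff0 f u z - (C q').aff0 f u x' = (f z - (C q').aff0 f u' x') -
      (f z - (C q').aff0 f u z) + (f ((C q').ctr u') - (C q').aff0 f u ((C q').ctr u')) := by
    simp only [Cu.aff0, map_sub]
    abel
  have c2 := norm_add_le ((f z - (C q').aff0 f u' x') - (f z - (C q').aff0 f u z))
    (f ((C q').ctr u') - (C q').aff0 f u ((C q').ctr u'))
  have c3 := norm_sub_le (f z - (C q').aff0 f u' x') (f z - (C q').aff0 f u z)
  rw [← e] at c2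
  have c4 : |x' i - (C q').ctr u' i| ≤ (C q').R1 := hx'.2 i hI
  have c5 : t + R - (C q').R1 ≤ ‖z - x'‖ := by
    have := abs_le.1 c4
    rcases hs with rfl | rfl <;> linarith only [this, hs', c0, this.1, this.2]
  have a0 : 0 ≤ (C q').τ / (C q').t0 := div_nonneg n.τ0.le n.t0.le
  have c6 : 1000 * ((C q').τ / (C q').t0) ≤ (C q').σ := by
    rw [← mul_div_assoc, div_le_iff₀ n.t0]
    linarith only [n, n.τσ, mul_le_mul_of_nonneg_left n.st n.σ0.1.le, mul_pos n.σ0.1 n.s0]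
  have c7 : max (C q').t0 t ≤ R + t :=
    max_le (by linarith only [R0, s1, ht, ht.1, R0.1]) (by linarith only [s1, n, n.t0])
  have c8 : (C q').R1 ≤ R := by linarith only [R0, s1, n, n.r1, n.mκ, n.sm, n.s0, n.t0]
  have c9 : (C q').κ * (C q').s ≤ R := by linarith only [R0, s1, c8, n, n.e0, n.x0, n.t0]
  have R1 : 0 < R := n.t0.trans_le s1
  linarith only [rl, k', g1, c1, c2, c3, n, c5, c7, a0, c8, c9, c6, R1, ht, n.em, mul_le_mul_of_nonneg_left c5 n.σ0.1.le, mul_le_mul_of_nonneg_left c7 a0,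
    mul_le_mul_of_nonneg_left c8 a0, mul_le_mul_of_nonneg_left c9 n.σ0.1.le,
    mul_le_mul_of_nonneg_right c6 R1.le, mul_le_mul_of_nonneg_right c6 (sub_nonneg.2 ht.1),
    mul_nonneg a0 (sub_nonneg.2 ht.1), mul_pos n.σ0.1 R1]

end BEp
end
end

-- merged part: Pool.Agent.Work.MP_f0515e_an.P2.QSide
section
/-! A disc lies in `Q u R1` or misses it. Suppose `x ∈ d ∩ Q u R1` and `d ⊄ Q u R1`, `n = φ.n`. By `loc` the points `x + t e_n` leave the skeleton, so (`sk_lat`, `Sep_sk`) all `i ≠ n` lie in `I`, `x n` is a grid value (`sk_two`), and `n ∉ I` for plates.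
`d` is connected and lies in the plane, so it meets `Γ = pl n (x n) '' sphere (pq n c) R1 ⊆ sk 1 ∩ Q u R1`, which is connected (`isConnected_sphere`) and misses `J`: `Γ ⊆ d \ J` (`Fg.Ok.side`). Solids: at a point of `Γ` the direction `e_n` stays in the skeleton, against `loc`.
Plates: the rays `c ± t e_i`, `R1 ≤ t ≤ Rm` (`sk_ray`) start in `d \ J` and leave `d` (`hd`), so they meet `J` at `t₊, t₋ ≥ R1 ≥ t0 / 4`; `σ (t₊ + t₋) ≤ 6 τ + 4 (τ / t0) (t₊ + t₋)` (`ray`, `aff_low`) is false. -/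

open Set Metric Filter Topology Function BEv MeasureTheory
open scoped NNReal ENNReal

noncomputable section
namespace BEp

variable {C : Cu} {aK : ℝ} {Ω : Set (Rn 3)} {K : Kx Ω} {ch : Set (Rn 3) → Ch} {w : Set (Rn 3) → ℝ}
  {f : Rn 3 → Rn 3} {D : Rn 3 → Rn 3 →L[ℝ] Rn 3} {v : Rn 3 → ℝ≥0∞} {u u' : I3 × I3}

theorem QSide_lt (h : C.Ok aK) : C.R1 + 2 * C.ρ' < C.Rm ∧ 0 < C.ρ' ∧ C.t0 / 4 ≤ C.R1 := by
  have n := h.nm
  have k0 : 0 < C.κ * C.s := mul_pos h.pos.2.2.2.2.2.2.1 n.s0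
  unfold Cu.Rm
  refine ⟨by linarith only [k0, n, n.r1, n.ρ1, n.t0], by linarith [n.ρ1, n.t0], by linarith only [k0, n, n.r0, n.r2]⟩

/-- The normal direction leaves the skeleton. -/
theorem QSide_up (h : C.Ok aK) {φ : Fg} (hφ : φ.Ok (K.sk 2)) (hn : φ.n ∈ C.I) {y : Rn 3}
    (hy : y ∈ φ.d ∩ C.Q u C.R1) :
    ∃ y' ∈ C.Q u C.Rm, y' ∉ K.sk 2 ∧ ∀ i, i ≠ φ.n → y' i = y i := by
  obtain ⟨ε, e0, hε⟩ := hφ.miss
  obtain ⟨r1, r2, -⟩ := QSide_lt h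
  have t0 : 0 < min ε C.ρ' := lt_min e0 r2
  have a : ∀ i, i ≠ φ.n → (y + min ε C.ρ' • (Pi.single φ.n 1 : Rn 3)) i = y i := fun i hi => by
    rw [Pi.add_apply, Pi.smul_apply, Pi.single_eq_of_ne hi, smul_zero, add_zero]
  refine ⟨y + min ε C.ρ' • (Pi.single φ.n 1 : Rn 3), ⟨fun i hi => ?_, fun i hi => ?_⟩,
    hε y hy.1 _ t0.ne' (by rw [abs_of_pos t0]; exact min_le_left _ _), a⟩
  · exact (a i fun e => hi (e ▸ hn)).trans (hy.2.1 i hi)
  · have y1 : |y i - C.ctr u i| ≤ C.R1 := hy.2.2 i hi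
    show |(y + min ε C.ρ' • (Pi.single φ.n 1 : Rn 3)) i - C.ctr u i| ≤ C.Rm
    by_cases e : i = φ.n
    · rw [Pi.add_apply, Pi.smul_apply, e, Pi.single_eq_same, smul_eq_mul, mul_one]
      rw [e] at y1
      have := min_le_right ε C.ρ'
      rw [abs_le] at y1 ⊢
      constructor <;> linarith only [r1, r2, t0, y1, this, y1.1, y1.2]
    · rw [a i e]
      linarith

theorem QSide_no (hf : C.Fit aK K ch w) (h : C.Ok aK) (hu : u ∈ C.Adm) {φ : Fg}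
    (hφ : φ.Ok (K.sk 2)) (hn : φ.n ∈ C.I) {y : Rn 3} (hy : y ∈ φ.d ∩ C.Q u C.R1) {j : Fin 3}
    (hj : j ≠ φ.n) (hk : ∃ k : ℤ, y j = k * (16 * C.s)) : False := by
  obtain ⟨y', h1, h2, h3⟩ := QSide_up h hφ hn hy
  have h4 := sk_lat hf h hu h1 (Finset.univ.erase j) fun i _ hi => by
    have e : i = j := by simpa using hi
    rw [e, h3 j hj]
    exact hk
  have e : (Finset.univ.erase j).card = 2 := by simp
  rw [e] at h4
  exact h2 h4

/-- The boundary of the square in a grid plane. -/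
theorem QSide_gam (hf : C.Fit aK K ch w) (h : C.Ok aK) (hu : u ∈ C.Adm) {n : Fin 3}
    (hI : ∀ i, i ≠ n → i ∈ C.I) {x : Rn 3} (hx : x ∈ C.Q u C.R1)
    (hk : ∃ k : ℤ, x n = k * (16 * C.s)) {y : Rn 3}
    (hy : y ∈ pl n (x n) '' sphere (pq n (C.ctr u)) C.R1) :
    y ∈ K.sk 1 ∩ C.Q u C.R1 ∧ ∃ j, j ≠ n ∧ ∃ k : ℤ, y j = k * (16 * C.s) := by
  obtain ⟨r0, r1⟩ := QSk_R1 h
  obtain ⟨y1, y2⟩ := QBas_mem.1 hy
  have nx : ‖pq n y - pq n (C.ctr u)‖ = C.R1 := mem_sphere_iff_norm.1 y2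
  have hQ : y ∈ C.Q u C.R1 := by
    refine ⟨fun i hi => ?_, fun i hi => ?_⟩
    · have e : i = n := by_contra fun e => hi (hI i e)
      subst e
      exact y1.trans (hx.1 i hi)
    · show |y i - C.ctr u i| ≤ C.R1
      by_cases e : i = n
      · subst e
        rw [y1]
        exact hx.2 i hi
      · obtain ⟨a, rfl⟩ := Fin.exists_succAbove_eq e
        exact (norm_le_pi_norm (pq n y - pq n (C.ctr u)) a).trans nx.le
  obtain ⟨a, ha⟩ : ∃ a, |y (n.succAbove a) - C.ctr u (n.succAbove a)| = C.R1 := by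
    by_contra hn
    push Not at hn
    have : ‖pq n y - pq n (C.ctr u)‖ < C.R1 := (pi_norm_lt_iff r0).2 fun a =>
      lt_of_le_of_ne ((norm_le_pi_norm (pq n y - pq n (C.ctr u)) a).trans nx.le) (hn a)
    linarith
  have hj : ∃ k : ℤ, y (n.succAbove a) = k * (16 * C.s) := by
    obtain ⟨m, hm⟩ := (h.Q_sub hu).2.2.2 (n.succAbove a)
    obtain ⟨k, hk⟩ := h.nm.rk
    rcases (abs_eq r0.le).1 ha with e | e
    · exact ⟨m + k, by push_cast; linarith only [hm, hk, e]⟩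
    · exact ⟨m - k, by push_cast; linarith only [hm, hk, e]⟩
  refine ⟨⟨?_, hQ⟩, n.succAbove a, n.succAbove_ne a, hj⟩
  have h1 := sk_lat hf h hu (Cu.GGeo_Q_mono r1 hQ) ((Finset.univ.erase n).erase (n.succAbove a))
    fun i _ hi => by
      by_cases e : i = n
      · rw [e, y1]
        exact hk
      · have e' : i = n.succAbove a := by simpa [e] using hi
        rw [e']
        exact hj
  have e : ((Finset.univ.erase n).erase (n.succAbove a)).card = 1 := by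
    rw [Finset.card_erase_of_mem (by simp [n.succAbove_ne a])]
    simp
  rwa [e] at h1

/-- A ray which starts in the disc meets the circle. -/
theorem QSide_ray (hf : C.Fit aK K ch w) (h : C.Ok aK) (hu : u ∈ C.Adm) {φ : Fg}
    (hφ : φ.Ok (K.sk 2)) (hd : ∀ x ∈ φ.d, ∀ y ∈ φ.d, ‖x - y‖ ≤ C.ρ') {i : Fin 3} (hi : i ∈ C.I)
    {s : ℝ} (hs : |s| = 1) (h0 : C.ctr u + (s * C.R1) • (Pi.single i 1 : Rn 3) ∈ φ.d) :
    ∃ t ∈ Icc C.R1 C.Rm, C.ctr u + (s * t) • (Pi.single i 1 : Rn 3) ∈ φ.J := by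
  obtain ⟨r0, r1⟩ := QSk_R1 h
  obtain ⟨r2, r3, -⟩ := QSide_lt h
  by_contra hn
  push Not at hn
  have cr : Continuous fun t : ℝ => C.ctr u + (s * t) • (Pi.single i 1 : Rn 3) := by fun_prop
  have h1 := hφ.side (L := (fun t : ℝ => C.ctr u + (s * t) • (Pi.single i 1 : Rn 3)) ''
    Icc C.R1 C.Rm) (isPreconnected_Icc.image _ cr.continuousOn)
    (by
      rintro z ⟨t, ht, rfl⟩
      exact Kx.sk_mono (by norm_num) (sk_ray hf h hu hi (t := s * t)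
        (by rw [abs_mul, hs, one_mul, abs_of_nonneg (r0.le.trans ht.1)]; exact ht.2)).1)
    (disjoint_left.2 (by
      rintro z ⟨t, ht, rfl⟩
      exact hn t ht))
  rcases h1 with k | k
  · have h2 := hd _ (k (mem_image_of_mem _ (right_mem_Icc.2 r1))).1 _ h0
    have h3 := (norm_le_pi_norm _ i).trans h2
    simp only [Pi.sub_apply, Pi.add_apply, Pi.smul_apply, Pi.single_eq_same, smul_eq_mul, mul_one,
      Real.norm_eq_abs] at h3
    rw [add_sub_add_left_eq_sub, ← mul_sub, abs_mul, hs, one_mul] at h3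
    linarith [le_abs_self (C.Rm - C.R1)]
  · exact disjoint_left.1 k (mem_image_of_mem _ (left_mem_Icc.2 r1)) h0

theorem QSide_num {σ τ s t0 a b : ℝ} (σ0 : 0 < σ) (τ0 : 0 < τ) (h0 : 0 < t0)
    (h1 : 1000 * τ ≤ σ * s) (h2 : 32 * s ≤ t0) (ha : t0 / 4 ≤ a) (hb : t0 / 4 ≤ b) :
    τ / t0 * max t0 a + 6 * τ + τ / t0 * max t0 b < σ * (a + b) := by
  have k1 : τ / t0 ≤ σ / 32000 := by
    rw [div_le_iff₀ h0]
    linarith only [h1, h2, σ0, mul_le_mul_of_nonneg_left h2 σ0.le]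
  have k2 : τ ≤ σ * t0 / 32000 := by
    linarith only [h1, h2, σ0, mul_le_mul_of_nonneg_left h2 σ0.le]
  have k3 : max t0 a ≤ 4 * a := max_le (by linarith only [ha]) (by linarith only [h0, ha])
  have k4 : max t0 b ≤ 4 * b := max_le (by linarith only [hb]) (by linarith only [h0, hb])
  have k5 : τ / t0 * max t0 a ≤ σ / 32000 * (4 * a) :=
    mul_le_mul k1 k3 (h0.le.trans (le_max_left _ _)) (by positivity)
  have k6 : τ / t0 * max t0 b ≤ σ / 32000 * (4 * b) :=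
    mul_le_mul k1 k4 (h0.le.trans (le_max_left _ _)) (by positivity)
  linarith only [τ0, k2, k5, k6, ha, σ0, hb, mul_le_mul_of_nonneg_left ha σ0.le, mul_le_mul_of_nonneg_left hb σ0.le,
    mul_pos σ0 h0]

theorem side_one (hf : C.Fit aK K ch w) (h : C.Ok aK) (hu : u ∈ C.Adm) (hA : C.A ≠ 0)
    (h2 : 2 ≤ C.I.card) (hg : C.G1 K f u) {φ : Fg} (hφ : φ.Ok (K.sk 2))
    (hJ : Disjoint φ.J (K.sk 1 ∩ C.Q u C.R1)) (hd : ∀ x ∈ φ.d, ∀ y ∈ φ.d, ‖x - y‖ ≤ C.ρ')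
    (hb : (φ.d ∩ C.Q u C.R1).Nonempty → ∀ x ∈ φ.J, ∀ y ∈ φ.J, ‖f x - f y‖ ≤ 6 * C.τ) :
    φ.d ⊆ C.Q u C.R1 ∨ Disjoint φ.d (C.Q u C.R1) := by
  by_contra hc
  rw [not_or, not_subset, not_disjoint_iff] at hc
  obtain ⟨⟨z, zd, zQ⟩, x, xd, xQ⟩ := hc
  obtain ⟨r0, r1⟩ := QSk_R1 h
  have c3 : C.I.card ≤ 3 := by simpa using Finset.card_le_univ C.I
  have hI : ∀ i, i ≠ φ.n → i ∈ C.I := by
    by_cases hn : φ.n ∈ C.I
    · have hc : C.I.card = 3 := by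
        by_contra hc
        obtain ⟨y', h1, h2, -⟩ := QSide_up h hφ hn ⟨xd, xQ⟩
        exact h2 (Sep_sk hf h hu hc h1)
      have e : C.I = Finset.univ := Finset.eq_univ_of_card _ (by simpa using hc)
      exact fun i _ => e ▸ Finset.mem_univ i
    · have e : C.I = Finset.univ.erase φ.n := by
        refine Finset.eq_of_subset_of_card_le (fun i hi => ?_) (by simpa using h2)
        exact Finset.mem_erase.2 ⟨fun e => hn (e ▸ hi), Finset.mem_univ i⟩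
      exact fun i hi => e ▸ Finset.mem_erase.2 ⟨hi, Finset.mem_univ i⟩
  have hk : ∃ k : ℤ, x φ.n = k * (16 * C.s) := by
    by_cases hn : φ.n ∈ C.I
    · obtain ⟨i, hi⟩ := sk_two hf h hu ⟨hφ.sub xd, Cu.GGeo_Q_mono r1 xQ⟩
      by_cases e : i = φ.n
      · exact e ▸ hi
      · exact (QSide_no hf h hu hφ hn ⟨xd, xQ⟩ e hi).elim
    · obtain ⟨m, hm⟩ := (h.Q_sub hu).2.2.2 φ.n
      exact ⟨m, (xQ.1 _ hn).trans hm⟩
  have hpl : ∀ y ∈ φ.d, y φ.n = x φ.n := by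
    obtain ⟨c, B, S, -, e1, -⟩ := hφ.fd
    intro y hy
    exact (QBas_mem.1 (e1 ▸ hy)).1.trans (QBas_mem.1 (e1 ▸ xd)).1.symm
  obtain ⟨y, yd, yΓ⟩ : ∃ y ∈ φ.d, y ∈ pl φ.n (x φ.n) '' sphere (pq φ.n (C.ctr u)) C.R1 := by
    have cg : Continuous fun y : Rn 3 => ‖pq φ.n y - pq φ.n (C.ctr u)‖ :=
      ((pl_tp φ.n 0).2.2.continuous.sub continuous_const).norm
    have g1 : ‖pq φ.n x - pq φ.n (C.ctr u)‖ ≤ C.R1 :=
      (pi_norm_le_iff_of_nonneg r0.le).2 fun a => xQ.2 _ (hI _ (φ.n.succAbove_ne a))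
    have g2 : C.R1 ≤ ‖pq φ.n z - pq φ.n (C.ctr u)‖ := by
      by_contra hn
      refine zQ ⟨fun i hi => ?_, fun i hi => ?_⟩
      · have e : i = φ.n := by_contra fun e => hi (hI i e)
        rw [e, hpl z zd]
        exact xQ.1 _ (e ▸ hi)
      · show |z i - C.ctr u i| ≤ C.R1
        by_cases e : i = φ.n
        · rw [e, hpl z zd]
          exact xQ.2 _ (e ▸ hi)
        · obtain ⟨a, rfl⟩ := Fin.exists_succAbove_eq e
          exact (norm_le_pi_norm (pq φ.n z - pq φ.n (C.ctr u)) a).trans (not_le.1 hn).le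
    obtain ⟨y, yd, hy⟩ := hφ.top.2.2.1.2.intermediate_value xd zd cg.continuousOn ⟨g1, g2⟩
    exact ⟨y, yd, QBas_mem.2 ⟨hpl y yd, mem_sphere_iff_norm.2 hy⟩⟩
  by_cases hn : φ.n ∈ C.I
  · obtain ⟨⟨-, y1⟩, j, hj, y2⟩ := QSide_gam hf h hu hI xQ hk yΓ
    exact QSide_no hf h hu hφ hn ⟨yd, y1⟩ hj y2
  have hΓ : pl φ.n (x φ.n) '' sphere (pq φ.n (C.ctr u)) C.R1 ⊆ φ.d \ φ.J := by
    have rk : 1 < Module.rank ℝ (Rn 2) := by simp
    refine (hφ.side ((isConnected_sphere rk _ r0.le).image _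
      (pl_tp φ.n _).1.continuous.continuousOn).2 (fun p hp => ?_) ?_).resolve_right
      fun k => disjoint_left.1 k yΓ yd
    · exact Kx.sk_mono (by norm_num) (QSide_gam hf h hu hI xQ hk hp).1.1
    · exact disjoint_left.2 fun p hp k => disjoint_left.1 hJ k (QSide_gam hf h hu hI xQ hk hp).1
  have hi : φ.n.succAbove 0 ∈ C.I := hI _ (φ.n.succAbove_ne 0)
  have st : ∀ s : ℝ, |s| = 1 →
      C.ctr u + (s * C.R1) • (Pi.single (φ.n.succAbove 0) 1 : Rn 3) ∈ φ.d := fun s hs => by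
    have hQ := QSk_ray u hi (t := s * C.R1) (R := C.R1)
      (by rw [abs_mul, hs, one_mul, abs_of_pos r0])
    refine (hΓ (QBas_mem.2 ⟨(hQ.1 _ hn).trans (xQ.1 _ hn).symm, mem_sphere_iff_norm.2
      (le_antisymm ?_ ?_)⟩)).1
    · exact (pi_norm_le_iff_of_nonneg r0.le).2 fun a => hQ.2 _ (hI _ (φ.n.succAbove_ne a))
    · refine le_trans (le_of_eq ?_) (norm_le_pi_norm _ 0)
      simp only [pq, Pi.sub_apply, Pi.add_apply, Pi.smul_apply, Pi.single_eq_same, smul_eq_mul,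
        mul_one, Real.norm_eq_abs]
      rw [add_sub_cancel_left, abs_mul, hs, one_mul, abs_of_pos r0]
  obtain ⟨a, ha, aJ⟩ := QSide_ray hf h hu hφ hd hi abs_one (st 1 abs_one)
  obtain ⟨b, hb', bJ⟩ := QSide_ray hf h hu hφ hd hi (s := -1) (by simp) (st (-1) (by simp))
  have a0 : |1 * a| = a := by rw [one_mul, abs_of_pos (r0.trans_le ha.1)]
  have b0 : |-1 * b| = b := by rw [neg_one_mul, abs_neg, abs_of_pos (r0.trans_le hb'.1)]
  have k1 := hb ⟨x, xd, xQ⟩ _ aJ _ bJ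
  have k2 := hg.ray _ hi (1 * a) (by rw [a0]; exact ha.2)
  have k3 := hg.ray _ hi (-1 * b) (by rw [b0]; exact hb'.2)
  rw [a0] at k2
  rw [b0] at k3
  have k4 := aff_low (f := f) (u := u) h hA
    (x := C.ctr u + (1 * a) • (Pi.single (φ.n.succAbove 0) 1 : Rn 3))
    (y := C.ctr u + (-1 * b) • (Pi.single (φ.n.succAbove 0) 1 : Rn 3)) fun i hi' =>
      ((QSk_ray u hi le_rfl).1 i hi').trans ((QSk_ray u hi le_rfl).1 i hi').symm
  have k5 : a + b ≤ ‖C.ctr u + (1 * a) • (Pi.single (φ.n.succAbove 0) 1 : Rn 3) -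
      (C.ctr u + (-1 * b) • (Pi.single (φ.n.succAbove 0) 1 : Rn 3))‖ := by
    refine le_trans ?_ (norm_le_pi_norm _ (φ.n.succAbove 0))
    simp only [Pi.sub_apply, Pi.add_apply, Pi.smul_apply, Pi.single_eq_same, smul_eq_mul, mul_one,
      Real.norm_eq_abs]
    refine le_trans (le_of_eq ?_) (le_abs_self _)
    ring
  have n := h.nm
  have r4 := (QSide_lt h).2.2
  have k6 := QSide_num n.σ0.1 n.τ0 n.t0 n.τσ n.st (r4.trans ha.1) (r4.trans hb'.1)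
  have k7 := mul_le_mul_of_nonneg_left k5 n.σ0.1.le
  generalize C.ctr u + (1 * a) • (Pi.single (φ.n.succAbove 0) 1 : Rn 3) = p at k1 k2 k4 k7
  generalize C.ctr u + (-1 * b) • (Pi.single (φ.n.succAbove 0) 1 : Rn 3) = q at k1 k3 k4 k7
  have k8 : ‖C.aff0 f u p - C.aff0 f u q‖ ≤
      ‖f p - C.aff0 f u p‖ + ‖f p - f q‖ + ‖f q - C.aff0 f u q‖ := by
    rw [← dist_eq_norm, ← dist_eq_norm, ← dist_eq_norm, ← dist_eq_norm, dist_comm (f p) (C.aff0 f u p)]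
    exact dist_triangle4 _ _ _ _
  linarith only [k6, k2, k1, k3, k4, k7, k8]

end BEp
end
end
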