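import Pool.Agent.Work.MP_f0515e_an.P2.QLoop
import Pool.Agent.Work.MP_f0515e_an.P2.QSide

-- merged part: Pool.Agent.Work.MP_f0515e_an.P2.QOne
section
/-! One dimensional lemmas. `split3`: if `[s, s']` misses the closed set of fixed points it is sent into one ball (connected, disjoint open balls); otherwise take the least and the largest fixed point and use continuity.
`var_one`: for `0 ≤ b`, `s ≤ s'`: `h s' - h s ≤ V s' - V s` with `h t = p t - (a + b t)`, `V t` the variation of `g` on `[0, t]`; so `V - h` is monotone and the variation of `h` is at most `2 V 1 + |h 1 - h 0|`. For `b ≤ 0` reverse the parameter. -/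

open Set Metric Filter Topology Function BEv MeasureTheory
open scoped NNReal ENNReal

noncomputable section
namespace BEp

theorem QOne_gap {k k' : ℝ → Rn 3} (hk' : ContinuousOn k' (Icc 0 1)) {𝔅 : Set (Rn 3 × ℝ)}
    (hd : ∀ β ∈ 𝔅, ∀ β' ∈ 𝔅, β ≠ β' → Disjoint (closedBall β.1 β.2) (closedBall β'.1 β'.2))
    (h : ∀ t ∈ Icc (0 : ℝ) 1, k' t = k t ∨ ∃ β ∈ 𝔅, k' t ∈ ball β.1 β.2) {u v : ℝ} (h0 : 0 ≤ u)
    (h1 : u < v) (h2 : v ≤ 1) (hne : ∀ t ∈ Ioo u v, k' t ≠ k t) :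
    ∃ β ∈ 𝔅, k' u ∈ closedBall β.1 β.2 ∧ k' v ∈ closedBall β.1 β.2 := by
  have sub : Icc u v ⊆ Icc 0 1 := Icc_subset_Icc h0 h2
  have sub' : Ioo u v ⊆ Icc 0 1 := Ioo_subset_Icc_self.trans sub
  have hb : ∀ t ∈ Ioo u v, ∃ β ∈ 𝔅, k' t ∈ ball β.1 β.2 := fun t ht =>
    (h t (sub' ht)).resolve_left (hne t ht)
  obtain ⟨t0, ht0⟩ := nonempty_Ioo.2 h1
  obtain ⟨β, hβ, m0⟩ := hb t0 ht0
  have pc : IsPreconnected (k' '' Ioo u v) := isPreconnected_Ioo.image k' (hk'.mono sub')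
  have inb : k' '' Ioo u v ⊆ ball β.1 β.2 := by
    refine pc.subset_left_of_subset_union (v := ⋃ β' ∈ 𝔅 \ {β}, ball β'.1 β'.2) isOpen_ball
      (isOpen_biUnion fun _ _ => isOpen_ball) ?_ ?_ ⟨k' t0, mem_image_of_mem _ ht0, m0⟩
    · refine disjoint_iUnion₂_right.2 fun β' hβ' => ?_
      exact (hd β hβ β' hβ'.1 fun e => hβ'.2 e.symm).mono ball_subset_closedBall
        ball_subset_closedBall
    · rintro _ ⟨t, ht, rfl⟩
      obtain ⟨β', hβ', m⟩ := hb t ht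
      by_cases e : β' = β
      · exact Or.inl (e ▸ m)
      · exact Or.inr (mem_biUnion (show β' ∈ 𝔅 \ {β} from ⟨hβ', e⟩) m)
  have cl : k' '' Icc u v ⊆ closedBall β.1 β.2 := by
    rw [← closure_Ioo h1.ne]
    refine (ContinuousOn.image_closure (by rw [closure_Ioo h1.ne]; exact hk'.mono sub)).trans ?_
    exact closure_minimal (inb.trans ball_subset_closedBall) isClosed_closedBall
  exact ⟨β, hβ, cl (mem_image_of_mem _ (left_mem_Icc.2 h1.le)),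
    cl (mem_image_of_mem _ (right_mem_Icc.2 h1.le))⟩

theorem split3 {k k' : ℝ → Rn 3} (hk : ContinuousOn k (Icc 0 1)) (hk' : ContinuousOn k' (Icc 0 1))
    {𝔅 : Set (Rn 3 × ℝ)}
    (hd : ∀ β ∈ 𝔅, ∀ β' ∈ 𝔅, β ≠ β' → Disjoint (closedBall β.1 β.2) (closedBall β'.1 β'.2))
    (h : ∀ t ∈ Icc (0 : ℝ) 1, k' t = k t ∨ ∃ β ∈ 𝔅, k' t ∈ ball β.1 β.2) {s s' : ℝ} (h0 : 0 ≤ s)
    (h1 : s ≤ s') (h2 : s' ≤ 1) :
    (∃ β ∈ 𝔅, k' s ∈ closedBall β.1 β.2 ∧ k' s' ∈ closedBall β.1 β.2) ∨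
      ∃ a b, s ≤ a ∧ a ≤ b ∧ b ≤ s' ∧ k' a = k a ∧ k' b = k b ∧
        (a = s ∨ ∃ β ∈ 𝔅, k' s ∈ closedBall β.1 β.2 ∧ k' a ∈ closedBall β.1 β.2) ∧
        (b = s' ∨ ∃ β ∈ 𝔅, k' b ∈ closedBall β.1 β.2 ∧ k' s' ∈ closedBall β.1 β.2) := by
  have sub : Icc s s' ⊆ Icc 0 1 := Icc_subset_Icc h0 h2
  have cF : IsCompact {t | t ∈ Icc s s' ∧ k' t = k t} :=
    isCompact_Icc.of_isClosed_subset (isClosed_Icc.isClosed_eq (hk'.mono sub) (hk.mono sub)) fun t ht => ht.1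
  rcases eq_empty_or_nonempty {t | t ∈ Icc s s' ∧ k' t = k t} with e | ne
  · have hne : ∀ t ∈ Icc s s', k' t ≠ k t := fun t ht ht' => by
      have : t ∈ {t | t ∈ Icc s s' ∧ k' t = k t} := ⟨ht, ht'⟩
      rw [e] at this
      exact this
    left
    rcases h1.eq_or_lt with rfl | lt
    · obtain ⟨β, hβ, m⟩ := (h s ⟨h0, h2⟩).resolve_left (hne s ⟨le_rfl, le_rfl⟩)
      exact ⟨β, hβ, ball_subset_closedBall m, ball_subset_closedBall m⟩
    · exact QOne_gap hk' hd h h0 lt h2 fun t ht => hne t (Ioo_subset_Icc_self ht)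
  · obtain ⟨a, ha, la⟩ := cF.exists_isLeast ne
    obtain ⟨b, hb, lb⟩ := cF.exists_isGreatest ne
    refine Or.inr ⟨a, b, ha.1.1, la hb, hb.1.2, ha.2, hb.2, ?_, ?_⟩
    · rcases ha.1.1.eq_or_lt with e | lt
      · exact Or.inl e.symm
      · exact Or.inr (QOne_gap hk' hd h h0 lt (ha.1.2.trans h2) fun t ht e =>
          absurd (la ⟨⟨ht.1.le, ht.2.le.trans ha.1.2⟩, e⟩) (not_le.2 ht.2))
    · rcases hb.1.2.eq_or_lt with e | lt
      · exact Or.inl e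
      · exact Or.inr (QOne_gap hk' hd h (h0.trans hb.1.1) lt h2 fun t ht e =>
          absurd (lb ⟨⟨hb.1.1.trans ht.1.le, ht.2.le⟩, e⟩) (not_le.2 ht.1))

theorem QOne_var {h g : ℝ → ℝ} {c σ : ℝ} (hσ : |σ| = 1)
    (hv : ∀ s s', 0 ≤ s → s ≤ s' → s' ≤ 1 →
      ENNReal.ofReal (σ * (h s' - h s)) ≤ eVariationOn g (Icc s s'))
    (hc : ∀ t ∈ Icc (0 : ℝ) 1, |h t| ≤ c) :
    eVariationOn h (Icc 0 1) ≤ 2 * eVariationOn g (Icc 0 1) + ENNReal.ofReal (2 * c) := by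
  refine iSup_le ?_
  rintro ⟨n, u, hu, us⟩
  have e1 : ∑ i ∈ Finset.range n, edist (h (u (i + 1))) (h (u i))
      = ENNReal.ofReal (∑ i ∈ Finset.range n, |h (u (i + 1)) - h (u i)|) := by
    rw [ENNReal.ofReal_sum_of_nonneg fun _ _ => abs_nonneg _]
    exact Finset.sum_congr rfl fun i _ => by rw [edist_dist, Real.dist_eq]
  have e2 : ∑ i ∈ Finset.range n, |h (u (i + 1)) - h (u i)|
      ≤ 2 * ∑ i ∈ Finset.range n, max (σ * (h (u (i + 1)) - h (u i))) 0 + 2 * c := by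
    have a : ∀ i, |h (u (i + 1)) - h (u i)| = 2 * max (σ * (h (u (i + 1)) - h (u i))) 0
        - σ * (h (u (i + 1)) - h (u i)) := fun i => by
      rw [← one_mul |h (u (i + 1)) - h (u i)|, ← hσ, ← abs_mul]
      generalize σ * (h (u (i + 1)) - h (u i)) = y
      rcases le_total y 0 with hy | hy
      · rw [abs_of_nonpos hy, max_eq_right hy]; ring
      · rw [abs_of_nonneg hy, max_eq_left hy]; ring
    rw [Finset.sum_congr rfl fun i _ => a i, Finset.sum_sub_distrib, ← Finset.mul_sum,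
      ← Finset.mul_sum, Finset.sum_range_sub fun i => h (u i)]
    have b : |σ * (h (u n) - h (u 0))| ≤ 2 * c := by
      rw [abs_mul, hσ, one_mul]
      linarith [abs_sub (h (u n)) (h (u 0)), hc _ (us n), hc _ (us 0)]
    linarith [neg_abs_le (σ * (h (u n) - h (u 0)))]
  have e3 : ENNReal.ofReal (∑ i ∈ Finset.range n, max (σ * (h (u (i + 1)) - h (u i))) 0)
      ≤ eVariationOn g (Icc 0 1) := by
    rw [ENNReal.ofReal_sum_of_nonneg fun _ _ => le_max_right _ _]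
    refine le_trans (Finset.sum_le_sum fun i _ => ?_) ((eVariationOn.sum' g hu (n := n)).le.trans
      (eVariationOn.mono g (Icc_subset_Icc (us 0).1 (us n).2)))
    rw [ENNReal.ofReal_max, ENNReal.ofReal_zero]
    exact max_le (hv _ _ (us i).1 (hu (Nat.le_succ i)) (us (i + 1)).2) bot_le
  refine e1.le.trans ((ENNReal.ofReal_le_ofReal e2).trans (ENNReal.ofReal_add_le.trans ?_))
  rw [ENNReal.ofReal_mul zero_le_two, ENNReal.ofReal_ofNat]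
  gcongr

theorem var_one {p g π : ℝ → ℝ} {a b c : ℝ}
    (hπ : ∀ s s', s ≤ s' → π s ≤ π s' ∧ π s' - π s ≤ s' - s)
    (h : ∀ s s', 0 ≤ s → s ≤ s' → s' ≤ 1 → p s = p s' ∨ ∃ x y, s ≤ x ∧ x ≤ y ∧ y ≤ s' ∧
      p s = π (a + b * x + g x) ∧ p s' = π (a + b * y + g y))
    (hc : ∀ t ∈ Icc (0 : ℝ) 1, |p t - (a + b * t)| ≤ c) :
    eVariationOn (fun t => p t - (a + b * t)) (Icc 0 1) ≤
      2 * eVariationOn g (Icc 0 1) + ENNReal.ofReal (2 * c) := by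
  have hπ' : ∀ x y, π y - π x ≤ max (y - x) 0 := fun x y => by
    rcases le_total x y with l | l
    · exact (hπ x y l).2.trans (le_max_left _ _)
    · exact (sub_nonpos.2 (hπ y x l).1).trans (le_max_right _ _)
  have hg : ∀ s s' x y, s ≤ x → x ≤ y → y ≤ s' →
      ENNReal.ofReal |g y - g x| ≤ eVariationOn g (Icc s s') := fun s s' x y a1 a2 a3 => by
    rw [← Real.dist_eq, ← edist_dist]
    exact eVariationOn.edist_le g ⟨a1.trans a2, a3⟩ ⟨a1, a2.trans a3⟩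
  rcases le_total 0 b with hb | hb
  · refine QOne_var (σ := 1) abs_one (fun s s' h0 h1 h2 => ?_) hc
    have m := mul_le_mul_of_nonneg_left h1 hb
    rcases h s s' h0 h1 h2 with e | ⟨x, y, a1, a2, a3, e1, e2⟩
    · rw [e, ENNReal.ofReal_of_nonpos (by linarith)]
      exact bot_le
    · refine (ENNReal.ofReal_le_ofReal ?_).trans (hg s s' x y a1 a2 a3)
      have m1 := mul_le_mul_of_nonneg_left a1 hb
      have m2 := mul_le_mul_of_nonneg_left a3 hb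
      have := (hπ' (a + b * x + g x) (a + b * y + g y)).trans
        (max_le (c := b * s' - b * s + |g y - g x|) (by linarith [le_abs_self (g y - g x)])
          (by linarith [abs_nonneg (g y - g x)]))
      rw [e1, e2]
      linarith
  · refine QOne_var (σ := -1) (by simp) (fun s s' h0 h1 h2 => ?_) hc
    have m := mul_le_mul_of_nonpos_left h1 hb
    rcases h s s' h0 h1 h2 with e | ⟨x, y, a1, a2, a3, e1, e2⟩
    · rw [e, ENNReal.ofReal_of_nonpos (by linarith)]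
      exact bot_le
    · refine (ENNReal.ofReal_le_ofReal ?_).trans (hg s s' x y a1 a2 a3)
      have m1 := mul_le_mul_of_nonpos_left a1 hb
      have m2 := mul_le_mul_of_nonpos_left a3 hb
      have := (hπ' (a + b * y + g y) (a + b * x + g x)).trans
        (max_le (c := b * s - b * s' + |g y - g x|) (by linarith [neg_abs_le (g y - g x)])
          (by linarith [abs_nonneg (g y - g x)]))
      rw [e1, e2]
      linarith

theorem var_pi (k : ℝ → Rn 3) (s : Set ℝ) :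
    eVariationOn k s ≤ ∑ l, eVariationOn (fun t => k t l) s := by
  refine iSup_le ?_
  rintro ⟨n, u, hu, us⟩
  refine le_trans (Finset.sum_le_sum (g := fun i => ∑ l, edist (k (u (i + 1)) l) (k (u i) l))
    fun i _ => ?_) ?_
  · exact edist_pi_le_iff.2 fun l => Finset.single_le_sum
      (f := fun l => edist (k (u (i + 1)) l) (k (u i) l)) (fun _ _ => bot_le) (Finset.mem_univ l)
  · rw [Finset.sum_comm]
    exact Finset.sum_le_sum fun l _ => eVariationOn.sum_le (f := fun t => k t l) hu us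

theorem QOne_add (γ : ℝ → ℝ≥0∞) {s t u : ℝ} (h1 : s ≤ t) (h2 : t ≤ u) :
    (∫⁻ x in Icc s t, γ x) + ∫⁻ x in Icc t u, γ x = ∫⁻ x in Icc s u, γ x := by
  rw [← setLIntegral_congr (Ioc_ae_eq_Icc (a := t) (b := u)), ← Icc_union_Ioc_eq_Icc h1 h2,
    lintegral_union measurableSet_Ioc]
  exact disjoint_left.2 fun x hx hx' => absurd hx.2 (not_le.2 hx'.1)

theorem Thr.dbl {Z : Set (Rn 3)} {f f' : Rn 3 → Rn 3} (h : Thr 2 Z f f') {a b : Rn 3}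
    (hs : segment ℝ a b ⊆ Z) {γ : ℝ → ℝ≥0∞} (hγ : ∀ s s', 0 ≤ s → s ≤ s' → s' ≤ 1 →
      ‖f (seg a b s') - f (seg a b s)‖ₑ ≤ ∫⁻ x in Icc s s', γ x) {s s' : ℝ} (h0 : 0 ≤ s)
    (h1 : s ≤ s') (h2 : s' ≤ 1) :
    ‖f' (seg a b s') - f' (seg a b s)‖ₑ ≤ 2 * ∫⁻ x in Icc s s', γ x := by
  have mem : ∀ t, 0 ≤ t → t ≤ 1 → seg a b t ∈ segment ℝ a b := fun t t0 t1 => by
    rw [segment_eq_image']
    exact ⟨t, ⟨t0, t1⟩, rfl⟩
  have ss : ∀ x, seg (seg a b s) (seg a b s') x = seg a b (s + x * (s' - s)) := fun x => by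
    unfold seg
    module
  obtain ⟨σ, σ', a0, a1, a2, hb⟩ := h (seg a b s) (seg a b s')
    (((convex_segment a b).segment_subset (mem s h0 (h1.trans h2)) (mem s' (h0.trans h1) h2)).trans hs)
  rw [ss, ss] at hb
  have d0 : 0 ≤ s' - s := sub_nonneg.2 h1
  have b1 : s ≤ s + σ * (s' - s) := le_add_of_nonneg_right (mul_nonneg a0 d0)
  have b2 : s + σ * (s' - s) ≤ s + σ' * (s' - s) := by
    linarith [mul_le_mul_of_nonneg_right a1 d0]
  have b3 : s + σ' * (s' - s) ≤ s' := by linarith [mul_le_mul_of_nonneg_right a2 d0]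
  rw [← QOne_add γ (b1.trans b2) b3, ← QOne_add γ b1 b2, ← ofReal_norm]
  refine (ENNReal.ofReal_le_ofReal hb).trans ?_
  rw [ENNReal.ofReal_mul zero_le_two, ENNReal.ofReal_ofNat,
    ENNReal.ofReal_add (by positivity) (norm_nonneg _),
    ENNReal.ofReal_add (norm_nonneg _) (norm_nonneg _), ofReal_norm, ofReal_norm,
    ofReal_norm]
  have c1 := hγ _ _ h0 b1 (b2.trans (b3.trans h2))
  have c2 := hγ _ _ (h0.trans b1) b2 (b3.trans h2)
  have c3 := hγ _ _ (h0.trans (b1.trans b2)) b3 h2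
  gcongr

end BEp
end
end

-- merged part: Pool.Agent.Work.MP_f0515e_an.P2.QLam1
section
/-! The map `Λ = mix t Ξ ∘ Φ`, first properties. `QGS.cut`, `pv_ball`, `Mu1.num` (`6 τ ≤ t0 ≤ μ / 1000`). `bij`: `Accr.expanding`, `Accr.surjective`. `img`: `Λ` is bijective and the identity off the union of the balls of radius `μ / 50` around the points `f (ctr u)`, which lie in `f '' Ω` (`MuIn.m1`).
`fix`: `Sep_ball`, `QCf.far`. `back`: if `y ∈ Pv f u'`, then the cube is the same (two centres in different cubes are `3 ρ'` apart, so their images are `μ` apart), and `pv_dis` gives `u' = u`.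
`thr`: `split3` for `f ∘ seg a b` and `Φ ∘ f ∘ seg a b` on `[0, 1]`; on a closed ball of a tile `Ξ` is constant (`bal`, `eq`, `cst`), so `mix t Ξ y - mix t Ξ y' = t • (y - y')` and `t L ≤ 1`; `mix t Ξ` is `4 / 3` Lipschitz. -/

open Set Metric Filter Topology Function BEv MeasureTheory
open scoped NNReal ENNReal

noncomputable section
namespace BEp

variable {ι : Type} [Finite ι] {C : ι → Cu} {P : Pr} {aK : ℝ} {Ω : Set (Rn 3)} {K : Kx Ω}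
  {ch : Set (Rn 3) → Ch} {w lam : Set (Rn 3) → ℝ} {f Φ Ξ : Rn 3 → Rn 3} {θ : Rn 3 → ℝ}
  {μ ρ1 μ1 t L : ℝ} {kp : ι → Set (I3 × I3)} {𝒟 : Set Fg} {𝔅 : Pcs kp → Finset (Rn 3 × ℝ)}
  {π : Pcs kp → Fin 3 → ℝ → ℝ}

/-- The data of the modification. -/
structure LamIn (C : ι → Cu) (P : Pr) (aK : ℝ) (K : Kx Ω) (ch : Set (Rn 3) → Ch)
    (w lam : Set (Rn 3) → ℝ) (f : Rn 3 → Rn 3) (θ : Rn 3 → ℝ) (μ ρ1 μ1 : ℝ)
    (kp : ι → Set (I3 × I3)) (𝒟 : Set Fg) (𝔅 : Pcs kp → Finset (Rn 3 × ℝ)) (Φ Ξ : Rn 3 → Rn 3)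
    (π : Pcs kp → Fin 3 → ℝ → ℝ) (t L : ℝ) : Prop where
  cf : QCf C P aK K ch w lam f θ μ ρ1 μ1 kp
  gs : QGS C K f ρ1 kp 𝒟 𝔅
  ct : CtOut f (K.sk 2 ∩ ⋃ q, (C q).q) 𝒟 (allB 𝔅) (μ / 1000) Φ
  θ0 : ∀ y ∈ f '' Ω, 0 ≤ θ y
  acc : Accr Ξ
  lp : ∀ y y', ‖Ξ y - Ξ y'‖ ≤ 4 / 3 * ‖y - y'‖
  off : ∀ y, (∀ q, 2 ≤ (C q).I.card → ∀ u ∈ kp q, y ∉ (C q).Pv f u) → Ξ y = y
  mv : ∀ q, 2 ≤ (C q).I.card → ∀ u ∈ kp q, ∀ y ∈ (C q).Pv f u, ‖Ξ y - y‖ ≤ 6 * (C q).τ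
  mon : ∀ b l s s', s ≤ s' → π b l s ≤ π b l s' ∧ π b l s' - π b l s ≤ s' - s
  eq : ∀ b : Pcs kp, 2 ≤ (C b.1.1).I.card →
    ∀ y ∈ (C b.1.1).Nb f b.1.2 (C b.1.1).R1 (18 / 100 * (C b.1.1).m), ∀ l, Ξ y l = π b l (y l)
  cst : ∀ b, ∀ β ∈ 𝔅 b, ∀ l s s', |s - β.1 l| ≤ β.2 → |s' - β.1 l| ≤ β.2 → π b l s = π b l s'
  t0 : 0 < t ∧ t ≤ 1
  lΦ : 0 ≤ L ∧ t * L ≤ 1 ∧ ∀ y y', ‖Φ y - Φ y'‖ ≤ L * ‖y - y'‖
  tv : ∀ q, t * ((L + 1) * ((C q).τ + ‖(C q).A‖ * (C q).t0)) ≤ (C q).lam * (C q).s / 2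

namespace LamIn

theorem QLam1_num (h : LamIn C P aK K ch w lam f θ μ ρ1 μ1 kp 𝒟 𝔅 Φ Ξ π t L) (q : ι) :
    0 ≤ 6 * (C q).τ ∧ 6 * (C q).τ ≤ μ / 1000 ∧ (1 + ‖(C q).A‖) * (C q).t0 ≤ μ / 1000 := by
  have n := (h.cf.gf.ok q).nm
  have k := (h.cf.m1.num q).2.1
  have a1 := mul_le_mul_of_nonneg_right n.σ0.2 n.s0.le
  have a2 := mul_nonneg (norm_nonneg (C q).A) n.t0.le
  exact ⟨by linarith [n.τ0], by linarith [n.τσ, n.st, n.τ0, n.s0], by linarith⟩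

theorem QLam1_c (h : LamIn C P aK K ch w lam f θ μ ρ1 μ1 kp 𝒟 𝔅 Φ Ξ π t L) {q : ι} {u : I3 × I3}
    (hu : u ∈ kp q) : (C q).ctr u ∈ (C q).q :=
  ball_subset_closedBall (QNum_q h.cf hu (by
    rw [sub_self, norm_zero]
    linarith [(h.cf.gf.ok q).pos.2.2.2.2.2.1]))

theorem QLam1_pv (h : LamIn C P aK K ch w lam f θ μ ρ1 μ1 kp 𝒟 𝔅 Φ Ξ π t L) {q : ι} {u : I3 × I3}
    {y : Rn 3} (hy : y ∈ (C q).Pv f u) : ‖y - f ((C q).ctr u)‖ < μ / 1000 :=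
  (mem_ball_iff_norm.1 (pv_ball (h.cf.gf.ok q) hy)).trans_le (h.QLam1_num q).2.2

theorem QLam1_alt (h : LamIn C P aK K ch w lam f θ μ ρ1 μ1 kp 𝒟 𝔅 Φ Ξ π t L) (y : Rn 3) :
    Ξ y = y ∨ ∃ q, ∃ u ∈ kp q, y ∈ (C q).Pv f u ∧ ‖Ξ y - y‖ ≤ 6 * (C q).τ := by
  by_cases k : ∀ q, 2 ≤ (C q).I.card → ∀ u ∈ kp q, y ∉ (C q).Pv f u
  · exact Or.inl (h.off y k)
  · simp only [not_forall, not_not] at k
    obtain ⟨q, h2, u, hu, hy⟩ := k
    exact Or.inr ⟨q, u, hu, hy, h.mv q h2 u hu y hy⟩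

theorem QLam1_Ξ (h : LamIn C P aK K ch w lam f θ μ ρ1 μ1 kp 𝒟 𝔅 Φ Ξ π t L) (y : Rn 3) :
    ‖Ξ y - y‖ ≤ μ / 1000 := by
  obtain e | ⟨q, u, -, -, k⟩ := h.QLam1_alt y
  · rw [e, sub_self, norm_zero]
    linarith [h.cf.m1.μ0]
  · exact k.trans (h.QLam1_num q).2.1

theorem QLam1_mix (h : LamIn C P aK K ch w lam f θ μ ρ1 μ1 kp 𝒟 𝔅 Φ Ξ π t L) (y : Rn 3) :
    ‖mix t Ξ y - y‖ ≤ ‖Ξ y - y‖ := by
  rw [show mix t Ξ y - y = (1 - t) • (Ξ y - y) by unfold mix; module, norm_smul,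
    Real.norm_of_nonneg (sub_nonneg.2 h.t0.2)]
  exact mul_le_of_le_one_left (norm_nonneg _) (by linarith [h.t0.1])

theorem QLam1_lip (h : LamIn C P aK K ch w lam f θ μ ρ1 μ1 kp 𝒟 𝔅 Φ Ξ π t L) (y y' : Rn 3) :
    ‖mix t Ξ y - mix t Ξ y'‖ ≤ 4 / 3 * ‖y - y'‖ := by
  rw [show mix t Ξ y - mix t Ξ y' = t • (y - y') + (1 - t) • (Ξ y - Ξ y') by unfold mix; module]
  refine (norm_add_le _ _).trans ?_
  rw [norm_smul, norm_smul, Real.norm_of_nonneg (sub_nonneg.2 h.t0.2),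
    Real.norm_of_nonneg h.t0.1.le]
  linarith [mul_le_mul_of_nonneg_left (h.lp y y') (sub_nonneg.2 h.t0.2),
    mul_nonneg h.t0.1.le (norm_nonneg (y - y'))]

theorem near (h : LamIn C P aK K ch w lam f θ μ ρ1 μ1 kp 𝒟 𝔅 Φ Ξ π t L) (z : Rn 3) :
    ‖mix t Ξ (Φ z) - z‖ ≤ μ / 50 := by
  have := norm_sub_le_norm_sub_add_norm_sub (mix t Ξ (Φ z)) (Φ z) z
  linarith [h.QLam1_mix (Φ z), h.QLam1_Ξ (Φ z), h.ct.mv z, h.cf.m1.μ0]

theorem out (h : LamIn C P aK K ch w lam f θ μ ρ1 μ1 kp 𝒟 𝔅 Φ Ξ π t L) {z : Rn 3}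
    (hz : ∀ q, 2 ≤ (C q).I.card → ∀ u ∈ kp q, μ / 50 ≤ ‖z - f ((C q).ctr u)‖) :
    Φ z = z ∧ mix t Ξ z = z := by
  have μ0 := h.cf.m1.μ0
  refine ⟨h.ct.sup z ?_, ?_⟩
  · rintro β ⟨b, hb⟩
    have a1 := hz _ (h.gs.bal b β hb).1 _ b.2
    have a2 := ((QGS.cut h.cf h.gs).2.2.2 b β hb).2.2
    linarith [norm_sub_le_norm_sub_add_norm_sub z β.1 (f ((C b.1.1).ctr b.1.2))]
  · have e := h.off z fun q h2 u hu hy => by linarith [h.QLam1_pv hy, hz q h2 u hu]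
    have k := h.QLam1_mix z
    rw [e, sub_self, norm_zero] at k
    exact sub_eq_zero.1 (norm_le_zero_iff.1 k)

theorem bij (h : LamIn C P aK K ch w lam f θ μ ρ1 μ1 kp 𝒟 𝔅 Φ Ξ π t L) :
    Bijective (mix t Ξ ∘ Φ) ∧ ∃ M, LipschitzWith M (mix t Ξ ∘ Φ) := by
  have inj : Injective (mix t Ξ) := fun x y e => by
    have k := h.acc.expanding h.t0.1.le h.t0.2 x y
    rw [e, sub_self, norm_zero] at k
    exact sub_eq_zero.1 (norm_le_zero_iff.1 (nonpos_of_mul_nonpos_right k h.t0.1))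
  have l1 : LipschitzWith (Real.toNNReal (4 / 3)) Ξ := LipschitzWith.of_dist_le' fun x y => by
    simpa only [dist_eq_norm] using h.lp x y
  have l2 : LipschitzWith (Real.toNNReal (4 / 3)) (mix t Ξ) :=
    LipschitzWith.of_dist_le' fun x y => by simpa only [dist_eq_norm] using h.QLam1_lip x y
  have l3 : LipschitzWith (Real.toNNReal L) Φ := LipschitzWith.of_dist_le' fun x y => by
    simpa only [dist_eq_norm] using h.lΦ.2.2 x y
  exact ⟨Bijective.comp ⟨inj, h.acc.surjective ⟨_, l1⟩ h.t0.1 h.t0.2⟩ h.ct.lh.1, _, l2.comp l3⟩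

theorem QLam1_out (h : LamIn C P aK K ch w lam f θ μ ρ1 μ1 kp 𝒟 𝔅 Φ Ξ π t L) {z : Rn 3}
    (hz : ∀ q, 2 ≤ (C q).I.card → ∀ u ∈ kp q, μ / 50 ≤ ‖z - f ((C q).ctr u)‖) :
    (mix t Ξ ∘ Φ) z = z := by
  rw [comp_apply, (h.out hz).1, (h.out hz).2]

theorem img (h : LamIn C P aK K ch w lam f θ μ ρ1 μ1 kp 𝒟 𝔅 Φ Ξ π t L) :
    (mix t Ξ ∘ Φ) '' (f '' Ω) = f '' Ω := by
  have key : ∀ z, z ∉ f '' Ω → (mix t Ξ ∘ Φ) z = z := fun z hz =>
    h.QLam1_out fun q _ u hu => not_lt.1 fun k => hz (image_mono inter_subset_right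
      ((h.cf.mu.m1 q _ (h.QLam1_c hu)).1 (mem_ball_iff_norm.2 (by linarith [h.cf.m1.μ0]))))
  refine Subset.antisymm ?_ fun y hy => ?_
  · rintro _ ⟨z, hz, rfl⟩
    by_contra k
    exact k ((h.bij.1.1 (key _ k)).symm ▸ hz)
  · obtain ⟨z, rfl⟩ := h.bij.1.2 y
    refine ⟨z, by_contra fun k => k ?_, rfl⟩
    rwa [key z k] at hy

theorem mvθ (h : LamIn C P aK K ch w lam f θ μ ρ1 μ1 kp 𝒟 𝔅 Φ Ξ π t L) :
    ∀ z ∈ f '' Ω, ‖(mix t Ξ ∘ Φ) z - z‖ ≤ θ z := by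
  intro z hz
  have μ0 := h.cf.m1.μ0
  by_cases k : ∀ q, 2 ≤ (C q).I.card → ∀ u ∈ kp q, μ / 50 ≤ ‖z - f ((C q).ctr u)‖
  · rw [h.QLam1_out k, sub_self, norm_zero]
    exact h.θ0 z hz
  · simp only [not_forall, not_le] at k
    obtain ⟨q, -, u, hu, k⟩ := k
    have a1 := (h.cf.mu.m1 q _ (h.QLam1_c hu)).2 z (mem_ball_iff_norm.2 (by linarith))
    exact (h.near z).trans (by linarith)

theorem QLam1_far (h : LamIn C P aK K ch w lam f θ μ ρ1 μ1 kp 𝒟 𝔅 Φ Ξ π t L) {x : Rn 3} (hx : x ∈ Ω)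
    (k : ∀ q, 2 ≤ (C q).I.card → x ∉ ball (C q).o (C q).η) :
    ∀ q, 2 ≤ (C q).I.card → ∀ u ∈ kp q, μ / 50 ≤ ‖f x - f ((C q).ctr u)‖ := fun q h2 u hu =>
  not_lt.1 fun e => k q h2 (QNum_q h.cf hu (by
    linarith [(h.cf.far hu hx).1 (by linarith [h.cf.m1.μ0]), (h.cf.gf.ok q).pos.2.2.2.2.2.1]))

theorem fix (h : LamIn C P aK K ch w lam f θ μ ρ1 μ1 kp 𝒟 𝔅 Φ Ξ π t L) : ∀ x ∈ Ω,
    (∀ q, 2 ≤ (C q).I.card → x ∉ ball (C q).o (C q).η) → (mix t Ξ ∘ Φ) (f x) = f x := by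
  exact fun x hx k => h.QLam1_out (h.QLam1_far hx k)

theorem fix2 (h : LamIn C P aK K ch w lam f θ μ ρ1 μ1 kp 𝒟 𝔅 Φ Ξ π t L) :
    ∀ x ∈ K.sk 2, Φ (f x) = f x ∨ ∃ β ∈ allB 𝔅, Φ (f x) ∈ ball β.1 β.2 := by
  intro x hx
  by_cases k : x ∈ ⋃ q, (C q).q
  · exact h.ct.fix x ⟨hx, k⟩
  · exact Or.inl (h.out (h.QLam1_far hx.1 fun q _ e =>
      k (mem_iUnion.2 ⟨q, ball_subset_closedBall e⟩))).1

theorem mu (h : LamIn C P aK K ch w lam f θ μ ρ1 μ1 kp 𝒟 𝔅 Φ Ξ π t L) :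
    MuIn C Ω ((mix t Ξ ∘ Φ) ∘ f) θ (μ / 2) μ := by
  have μ0 := h.cf.m1.μ0
  obtain ⟨hb, M, hM⟩ := h.bij
  refine ⟨hM.continuous.comp_continuousOn h.cf.mu.cont, hb.1.comp_injOn h.cf.mu.inj,
    fun q x hx => ⟨fun y hy => ?_, fun y hy => (h.cf.mu.m1 q x hx).2 y ?_⟩,
    fun q => ⟨by linarith [(h.QLam1_num q).2.2], (h.cf.mu.m2 q).2⟩⟩
  · obtain ⟨z, rfl⟩ := hb.2 y
    have a0 : ‖mix t Ξ (Φ z) - mix t Ξ (Φ (f x))‖ < μ / 2 := mem_ball_iff_norm.1 hy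
    have a1 := norm_sub_le_norm_sub_add_norm_sub z (mix t Ξ (Φ z)) (f x)
    have a2 := norm_sub_le_norm_sub_add_norm_sub (mix t Ξ (Φ z)) (mix t Ξ (Φ (f x))) (f x)
    rw [norm_sub_rev z (mix t Ξ (Φ z))] at a1
    have a3 : z ∈ ball (f x) μ := mem_ball_iff_norm.2 (by linarith [h.near z, h.near (f x)])
    obtain ⟨x', hx', rfl⟩ := (h.cf.mu.m1 q x hx).1 a3
    exact ⟨x', hx', rfl⟩
  · have a0 : ‖y - mix t Ξ (Φ (f x))‖ < μ / 2 := mem_ball_iff_norm.1 hy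
    have a1 := norm_sub_le_norm_sub_add_norm_sub y (mix t Ξ (Φ (f x))) (f x)
    exact mem_ball_iff_norm.2 (by linarith [h.near (f x)])

theorem back (h : LamIn C P aK K ch w lam f θ μ ρ1 μ1 kp 𝒟 𝔅 Φ Ξ π t L) {q : ι} {u : I3 × I3}
    (hu : u ∈ kp q) (h2 : 2 ≤ (C q).I.card) {R a : ℝ} (hR : R ≤ (C q).R1)
    (ha : a + 6 * (C q).τ ≤ 19 / 100 * (C q).m) {y : Rn 3} (hy : mix t Ξ y ∈ (C q).Nb f u R a) :
    y ∈ (C q).Nb f u R (a + 6 * (C q).τ) := by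
  have τ0 := (h.QLam1_num q).1
  have p1 := h.QLam1_pv (Nb_mono hR (by linarith) hy)
  have k : ‖Ξ y - y‖ ≤ 6 * (C q).τ := by
    obtain e | ⟨q', u', hu', hy', k⟩ := h.QLam1_alt y
    · rwa [e, sub_self, norm_zero]
    · have p2 := h.QLam1_pv hy'
      have c := h.QLam1_c hu'
      have a1 := norm_sub_le_norm_sub_add_norm_sub (f ((C q').ctr u')) y (f ((C q).ctr u))
      have a2 := norm_sub_le_norm_sub_add_norm_sub y (mix t Ξ y) (f ((C q).ctr u))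
      rw [norm_sub_rev _ y] at a1
      rw [norm_sub_rev y (mix t Ξ y)] at a2
      have a3 := (h.cf.far hu ((h.cf.gf.fit q').sub c)).1
        (by linarith [h.QLam1_mix y, h.QLam1_Ξ y, h.cf.m1.μ0])
      obtain rfl := h.cf.same hu c (by linarith [(h.cf.gf.ok q).pos.2.2.2.2.2.1])
      exact k
  obtain ⟨x, hx, e⟩ := mem_Nb.1 hy
  have a1 := norm_sub_le_norm_sub_add_norm_sub y (mix t Ξ y) ((C q).aff0 f u x)
  rw [norm_sub_rev y (mix t Ξ y)] at a1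
  exact mem_Nb.2 ⟨x, hx, by linarith [h.QLam1_mix y]⟩

theorem QLam1_ball (h : LamIn C P aK K ch w lam f θ μ ρ1 μ1 kp 𝒟 𝔅 Φ Ξ π t L) {β : Rn 3 × ℝ}
    (hβ : β ∈ allB 𝔅) {z z' : Rn 3} (hz : Φ z ∈ closedBall β.1 β.2)
    (hz' : Φ z' ∈ closedBall β.1 β.2) : ‖mix t Ξ (Φ z) - mix t Ξ (Φ z')‖ ≤ ‖z - z'‖ := by
  obtain ⟨b, hb⟩ := hβ
  obtain ⟨h2, hs⟩ := h.gs.bal b β hb
  have co : ∀ y ∈ closedBall β.1 β.2, ∀ l, |y l - β.1 l| ≤ β.2 := fun y hy l =>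
    (norm_le_pi_norm (y - β.1) l).trans (mem_closedBall_iff_norm.1 hy)
  have e : Ξ (Φ z) = Ξ (Φ z') := funext fun l => by
    rw [h.eq b h2 _ (hs hz), h.eq b h2 _ (hs hz')]
    exact h.cst b β hb l _ _ (co _ hz l) (co _ hz' l)
  rw [show mix t Ξ (Φ z) - mix t Ξ (Φ z') = t • (Φ z - Φ z') by unfold mix; rw [e]; module,
    norm_smul, Real.norm_of_nonneg h.t0.1.le]
  refine (mul_le_mul_of_nonneg_left (h.lΦ.2.2 z z') h.t0.1.le).trans ?_
  rw [← mul_assoc]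
  exact mul_le_of_le_one_left (norm_nonneg _) h.lΦ.2.1

theorem thr (h : LamIn C P aK K ch w lam f θ μ ρ1 μ1 kp 𝒟 𝔅 Φ Ξ π t L) :
    Thr (4 / 3) (K.sk 2) f ((mix t Ξ ∘ Φ) ∘ f) := by
  intro a b hs
  have mem : ∀ s ∈ Icc (0 : ℝ) 1, seg a b s ∈ K.sk 2 := fun s k => hs (by
    rw [segment_eq_image']
    exact ⟨s, k, rfl⟩)
  have s0 : seg a b 0 = a := by simp [seg]
  have s1 : seg a b 1 = b := by simp [seg]
  have c1 : ContinuousOn (fun s => f (seg a b s)) (Icc 0 1) :=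
    h.cf.mu.cont.comp (by unfold seg; fun_prop) fun s k => (mem s k).1
  have c2 : ContinuousOn (fun s => Φ (f (seg a b s))) (Icc 0 1) :=
    h.ct.lh.tp.continuous.comp_continuousOn c1
  obtain ⟨β, hβ, k0, k1⟩ | ⟨s, s', b0, b1, b2, e0, e1, k0, k1⟩ :=
    split3 c1 c2 h.gs.fam.disb (fun s k => h.fix2 _ (mem s k)) le_rfl zero_le_one le_rfl
  · refine ⟨0, 0, le_rfl, le_rfl, zero_le_one, ?_⟩
    have k := h.QLam1_ball hβ k1 k0
    simp only [s0, s1, comp_apply, sub_self, norm_zero] at k ⊢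
    linarith [norm_nonneg (f b - f a)]
  · refine ⟨s, s', b0, b1, b2, ?_⟩
    have a0 : ‖mix t Ξ (Φ (f (seg a b s))) - mix t Ξ (Φ (f a))‖ ≤ ‖f (seg a b s) - f a‖ := by
      obtain rfl | ⟨β, hβ, k, k'⟩ := k0
      · rw [s0, sub_self, sub_self]
      · simpa only [s0] using h.QLam1_ball hβ k' k
    have a1 : ‖mix t Ξ (Φ (f b)) - mix t Ξ (Φ (f (seg a b s')))‖ ≤ ‖f b - f (seg a b s')‖ := by
      obtain rfl | ⟨β, hβ, k, k'⟩ := k1
      · rw [s1, sub_self, sub_self]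
      · simpa only [s1] using h.QLam1_ball hβ k' k
    have a2 := h.QLam1_lip (Φ (f (seg a b s'))) (Φ (f (seg a b s)))
    have e : ‖Φ (f (seg a b s')) - Φ (f (seg a b s))‖ = ‖f (seg a b s') - f (seg a b s)‖ := by
      rw [e0, e1]
    have a3 := norm_sub_le_norm_sub_add_norm_sub (mix t Ξ (Φ (f b)))
      (mix t Ξ (Φ (f (seg a b s')))) (mix t Ξ (Φ (f a)))
    have a4 := norm_sub_le_norm_sub_add_norm_sub (mix t Ξ (Φ (f (seg a b s'))))
      (mix t Ξ (Φ (f (seg a b s)))) (mix t Ξ (Φ (f a)))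
    simp only [comp_apply]
    linarith [norm_nonneg (f (seg a b s) - f a), norm_nonneg (f b - f (seg a b s'))]

end LamIn

end BEp
end
end

-- merged part: Pool.Agent.Work.MP_f0515e_an.P2.QCl
section
/-! After the cut the map is close to the affine map on the skeleton in `Q u R1`. If `Φ (f x) = f x` and `Off 𝒟 x`, use `own`. Otherwise (`fix`, `fing`) `Φ (f x)` lies in a ball `β` of the tile (`cl_other`), of radius at most `3 τ`; `trk_hl` gives points `z i s`.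
If no point `z0 ∈ sk 2 ∩ Q u R1` with `Off 𝒟 z0` has `f z0 ∈ ball β`, two of them lie on opposite rays: `σ (t₊ + t₋) ≤ 6 τ + 4 (τ / t0) (t₊ + t₋)`, false. So `z0` exists; `σ ‖z - z0‖ ≤ 8 τ + ‖f z - aff0 z‖` (`aff_low`); on a ray `t ≤ t0`
(otherwise `σ t / 2 ≤ 9 τ t / t0`); so `σ ‖z - z0‖ ≤ 10 τ`, and `0 ≤ s (z i - x i)` for both signs gives `σ |x i - z0 i| ≤ 10 τ` for `i ∈ I`. Finally `8 τ + 10 ‖A‖ τ / σ ≤ lam s / 100` (`Nm.eτ`). -/

open Set Metric Filter Topology Function BEv MeasureTheory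
open scoped NNReal ENNReal

noncomputable section
namespace BEp

variable {ι : Type} [Finite ι] {C : ι → Cu} {P : Pr} {aK : ℝ} {Ω : Set (Rn 3)} {K : Kx Ω}
  {ch : Set (Rn 3) → Ch} {w lam : Set (Rn 3) → ℝ} {f Φ : Rn 3 → Rn 3} {θ : Rn 3 → ℝ} {μ ρ1 μ1 : ℝ}
  {kp : ι → Set (I3 × I3)} {𝒟 : Set Fg} {𝔅 : Pcs kp → Finset (Rn 3 × ℝ)}

theorem QCl_core {C : Cu} (h : C.Ok aK) (hA : C.A ≠ 0) {u : I3 × I3} {x y o : Rn 3} {r : ℝ}
    (hx : x ∈ C.Q u C.R1) (hr : r ≤ 3 * C.τ) (hy : y ∈ ball o r)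
    (H : ∀ i ∈ C.I, ∀ s : ℝ, s = 1 ∨ s = -1 → ∃ z, f z ∈ ball o r ∧
      (∀ j, j ∉ C.I → z j = C.ctr u j) ∧ 0 ≤ s * (z i - x i) ∧
      ((‖z - C.ctr u‖ ≤ C.R1 ∧ ‖f z - C.aff0 f u z‖ ≤ 2 * C.τ) ∨
        (C.R1 ≤ ‖z - C.ctr u‖ ∧ s * (z i - C.ctr u i) = ‖z - C.ctr u‖ ∧
          ‖f z - C.aff0 f u z‖ ≤ C.τ + C.τ / C.t0 * ‖z - C.ctr u‖))) :
    ‖y - C.aff0 f u x‖ ≤ C.lam * C.s / 100 := by
  have n := h.nm
  have σ0 := n.σ0.1
  have τ0 := n.τ0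
  have bl : ∀ {a b : Rn 3}, a ∈ ball o r → b ∈ ball o r → ‖a - b‖ ≤ 6 * C.τ := fun {a b} ha hb => by
    rw [mem_ball_iff_norm] at ha hb
    linarith [norm_sub_le_norm_sub_add_norm_sub a o b, norm_sub_rev o b]
  have pr : ∀ {z z' : Rn 3}, f z ∈ ball o r → f z' ∈ ball o r → (∀ j, j ∉ C.I → z j = C.ctr u j) →
      (∀ j, j ∉ C.I → z' j = C.ctr u j) → C.σ * ‖z - z'‖ ≤
        6 * C.τ + ‖f z - C.aff0 f u z‖ + ‖f z' - C.aff0 f u z'‖ := fun {z z'} a a' b b' => by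
    linarith [aff_low (f := f) (u := u) h hA fun j hj => (b j hj).trans (b' j hj).symm, bl a a',
      norm_sub_le_norm_sub_add_norm_sub (C.aff0 f u z) (f z) (C.aff0 f u z'),
      norm_sub_le_norm_sub_add_norm_sub (f z) (f z') (C.aff0 f u z'),
      norm_sub_rev (f z) (C.aff0 f u z)]
  have d1 := div_mul_cancel₀ C.τ n.t0.ne'
  have d0 : 0 ≤ C.τ / C.t0 := div_nonneg τ0.le n.t0.le
  have t1 : 32000 * C.τ ≤ C.σ * C.t0 := by
    linarith [n.τσ, mul_le_mul_of_nonneg_left n.st σ0.le]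
  have d2 : C.τ / C.t0 ≤ C.σ / 32000 := (div_le_iff₀ n.t0).2 (by linarith)
  have κ0 : 0 ≤ C.κ * C.s := by linarith [n.mκ, n.sm, n.s0]
  generalize C.τ / C.t0 = δ at H d0 d1 d2
  have co : ∀ (a b : Rn 3) (i : Fin 3), |a i - b i| ≤ ‖a - b‖ := fun a b i => norm_le_pi_norm (a - b) i
  obtain ⟨z0, a0, b0, c0, e0⟩ : ∃ z, f z ∈ ball o r ∧ (∀ j, j ∉ C.I → z j = C.ctr u j) ∧
      ‖z - C.ctr u‖ ≤ C.R1 ∧ ‖f z - C.aff0 f u z‖ ≤ 2 * C.τ := by
    obtain ⟨i, hi⟩ := h.ne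
    obtain ⟨z, a, b, -, k | ⟨k1, k2, k3⟩⟩ := H i hi 1 (.inl rfl)
    · exact ⟨z, a, b, k⟩
    obtain ⟨z', a', b', -, k' | ⟨k1', k2', k3'⟩⟩ := H i hi (-1) (.inr rfl)
    · exact ⟨z', a', b', k'⟩
    have g1 : C.σ * (‖z - C.ctr u‖ + ‖z' - C.ctr u‖) ≤ C.σ * ‖z - z'‖ :=
      mul_le_mul_of_nonneg_left (by linarith [(abs_le.1 (co z z' i)).2]) σ0.le
    have g2 : C.σ * (C.t0 / 2) ≤ C.σ * (‖z - C.ctr u‖ + ‖z' - C.ctr u‖) :=
      mul_le_mul_of_nonneg_left (by linarith [n.r0, n.r2]) σ0.le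
    linarith [pr a a' b b', mul_le_mul_of_nonneg_right d2 (norm_nonneg (z - C.ctr u)),
      mul_le_mul_of_nonneg_right d2 (norm_nonneg (z' - C.ctr u))]
  have k0 : ∀ i ∈ C.I, ∀ s : ℝ, s = 1 ∨ s = -1 → ∃ z : Rn 3, 0 ≤ s * (z i - x i) ∧
      ‖z - z0‖ ≤ 10 * C.τ / C.σ := fun i hi s hs => by
    obtain ⟨z, a, b, c, k⟩ := H i hi s hs
    refine ⟨z, c, (le_div_iff₀' σ0).2 ?_⟩
    have g := pr a a0 b b0
    rcases k with k | ⟨-, -, k⟩
    · linarith [k.2]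
    · have g1 : δ * ‖z - C.ctr u‖ ≤ δ * (‖z - z0‖ + C.t0 / 2) := mul_le_mul_of_nonneg_left
        (by linarith [norm_sub_le_norm_sub_add_norm_sub z z0 (C.ctr u), n.r1]) d0
      linarith [mul_le_mul_of_nonneg_right d2 (norm_nonneg (z - z0))]
  have k1 : ‖z0 - x‖ ≤ 10 * C.τ / C.σ := by
    refine (pi_norm_le_iff_of_nonneg (by positivity)).2 fun i => ?_
    by_cases hi : i ∈ C.I
    · obtain ⟨z, a, b⟩ := k0 i hi 1 (.inl rfl)
      obtain ⟨z', a', b'⟩ := k0 i hi (-1) (.inr rfl)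
      refine abs_le.2 ⟨?_, ?_⟩ <;> rw [Pi.sub_apply]
      · linarith [(abs_le.1 (co z z0 i)).2]
      · linarith [(abs_le.1 (co z' z0 i)).1]
    · rw [Pi.sub_apply, b0 i hi, show x i = C.ctr u i from hx.1 i hi, sub_self, norm_zero]
      positivity
  have e : C.aff0 f u z0 - C.aff0 f u x = C.A (z0 - x) := by
    simp only [Cu.aff0, map_sub]
    abel
  have k2 : ‖C.aff0 f u z0 - C.aff0 f u x‖ ≤ ‖C.A‖ * (10 * C.τ / C.σ) := by
    rw [e]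
    exact (C.A.le_opNorm _).trans (mul_le_mul_of_nonneg_left k1 (norm_nonneg _))
  have k3 : (1 + ‖C.A‖) * (10 * C.τ / C.σ) = C.lam * C.s / 100 := by
    field_simp
    linarith [n.eτ]
  have k4 : 10 * C.τ ≤ 10 * C.τ / C.σ := le_div_self (by positivity) σ0 n.σ0.2
  linarith [bl hy a0, norm_sub_le_norm_sub_add_norm_sub y (f z0) (C.aff0 f u x),
    norm_sub_le_norm_sub_add_norm_sub (f z0) (C.aff0 f u z0) (C.aff0 f u x)]

theorem cl_cut (h : QCf C P aK K ch w lam f θ μ ρ1 μ1 kp) (hG : QGS C K f ρ1 kp 𝒟 𝔅)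
    (hC : CtOut f (K.sk 2 ∩ ⋃ q, (C q).q) 𝒟 (allB 𝔅) (μ / 1000) Φ) {q : ι} {u : I3 × I3}
    (hu : u ∈ kp q) (h2 : 2 ≤ (C q).I.card) {x : Rn 3} (hx : x ∈ K.sk 2 ∩ (C q).Q u (C q).R1) :
    ‖Φ (f x) - (C q).aff0 f u x‖ ≤ (C q).lam * (C q).s / 100 := by
  have ok := h.gf.ok q
  have n := ok.nm
  obtain ⟨R1, R2⟩ := QSk_R1 ok
  have hZ : x ∈ K.sk 2 ∩ ⋃ q, (C q).q := ⟨hx.1, mem_iUnion.2 ⟨q, ball_subset_closedBall
    ((sk_Rm ok (h.adm q u hu).1).2 ⟨hx.2.1, fun i hi => (hx.2.2 i hi).trans R2⟩)⟩⟩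
  by_cases hb : ∃ β ∈ allB 𝔅, Φ (f x) ∈ ball β.1 β.2
  swap
  · have of : Off 𝒟 x := fun φ hφ k => by
      obtain ⟨β, a, b⟩ := hC.fing φ hφ
      exact hb ⟨β, a, b x k.1⟩
    rw [(hC.fix x hZ).resolve_right hb]
    linarith [hG.own q h2 u hu x hx of, n.τl, n.τ0]
  obtain ⟨β, ⟨b, hβ⟩, hb⟩ := hb
  have e := cl_other h hG hC hu h2 hx hβ hb
  have r := ((hG.cut h).2.2.2 b β hβ).1
  have nr : ∀ (i : Fin 3) (s t : ℝ), s = 1 ∨ s = -1 → 0 ≤ t →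
      ‖(C q).ctr u + (s * t) • (Pi.single i 1 : Rn 3) - (C q).ctr u‖ = t := fun i s t hs ht => by
    rw [add_sub_cancel_left, norm_smul, Pi.norm_single, norm_one, mul_one, norm_mul,
      Real.norm_of_nonneg ht]
    rcases hs with rfl | rfl <;> simp
  rw [e] at r
  refine QCl_core ok (h.adm q u hu).2 hx.2 r hb fun i hi s hs => ?_
  obtain ⟨z, hz, of, a⟩ := trk_hl h hG hC hu h2 hx hβ hb hi hs (by
    rw [e, nr i s _ hs (R1.le.trans R2), ← h.gf.par q, Cu.Rm]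
    linarith [n.ρ1, n.t0])
  refine ⟨z, a, ?_⟩
  rcases hz with ⟨k, k'⟩ | ⟨t, ⟨t1, t2⟩, rfl⟩
  · exact ⟨k.2.1, k', .inl ⟨((Cu.mem_Q R1.le).1 k.2).2, (hG.own q h2 u hu z k of).le⟩⟩
  · have t0 : 0 ≤ t := R1.le.trans t1
    have ab : |s * t| = t := by rcases hs with rfl | rfl <;> simp [abs_of_nonneg t0]
    have g := (h.g2 q h2 u hu).ray i hi (s * t) (ab.trans_le t2)
    have g1 : |x i - (C q).ctr u i| ≤ (C q).R1 := hx.2.2 i hi
    have g2 := mul_le_mul_of_nonneg_left (max_le_add_of_nonneg n.t0.le t0)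
      (div_nonneg n.τ0.le n.t0.le)
    have g3 : ((C q).ctr u + (s * t) • (Pi.single i 1 : Rn 3)) i = (C q).ctr u i + s * t := by simp
    rw [ab] at g
    rw [abs_le] at g1
    beta_reduce
    rw [nr i s t hs t0, g3]
    refine ⟨(QSk_ray u hi le_rfl).1, ?_, .inr ⟨t1, ?_, ?_⟩⟩
    · rcases hs with rfl | rfl <;> linarith [g1.1, g1.2]
    · rcases hs with rfl | rfl <;> ring
    · linarith [div_mul_cancel₀ (C q).τ n.t0.ne']

end BEp
end
end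

-- merged part: Pool.Agent.Work.MP_f0515e_an.P2.QLam3
section
/-! Variation on an edge in `Q u R0`. Up to a constant the function is `t • (Φ f - aff0) + (1 - t) • (Ξ Φ f - aff0)` with `aff0 = aff0 f u`. First part: variation at most `L (τ + ‖A‖ t0) + ‖A‖ t0` (`ed`, `‖b - a‖ ≤ t0`), `tv`.
Second part: `var_pi`, and for each coordinate `l` `var_one` with `p s = π b l (Φ (f (seg a b s)) l)` (`cl_cut` puts `Φ (f x)` in `Nb f u R1 (0.18 m)`, `eq`), `g = (f - aff0) l`, `c = lam s / 100 + 6 τ`; `split3` with `fix2`; a closed ball which contains such a point belongs to the tile (`bal`, `pv_dis`), `cst`.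
The sum is at most `3 (2 τ + 2 c) ≤ lam s / 2`. -/

open Set Metric Filter Topology Function BEv MeasureTheory
open scoped NNReal ENNReal

noncomputable section
namespace BEp

variable {ι : Type} [Finite ι] {C : ι → Cu} {P : Pr} {aK : ℝ} {Ω : Set (Rn 3)} {K : Kx Ω}
  {ch : Set (Rn 3) → Ch} {w lam : Set (Rn 3) → ℝ} {f Φ Ξ : Rn 3 → Rn 3} {θ : Rn 3 → ℝ}
  {μ ρ1 μ1 t L : ℝ} {kp : ι → Set (I3 × I3)} {𝒟 : Set Fg} {𝔅 : Pcs kp → Finset (Rn 3 × ℝ)}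
  {π : Pcs kp → Fin 3 → ℝ → ℝ}

theorem QLam3_var {F G H : ℝ → Rn 3} {α δ : ℝ} (hα : 0 ≤ α) (hδ : 0 ≤ δ)
    (h : ∀ s ∈ Icc (0 : ℝ) 1, ∀ s' ∈ Icc (0 : ℝ) 1, s ≤ s' →
      ‖F s' - F s‖ ≤ α * ‖G s' - G s‖ + ‖H s' - H s‖ + δ * (s' - s)) :
    eVariationOn F (Icc 0 1) ≤ ENNReal.ofReal α * eVariationOn G (Icc 0 1) +
      eVariationOn H (Icc 0 1) + ENNReal.ofReal δ := by
  refine iSup_le ?_
  rintro ⟨n, u, hu, us⟩
  have h0 : ∀ i, 0 ≤ δ * (u (i + 1) - u i) := fun i =>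
    mul_nonneg hδ (sub_nonneg.2 (hu (Nat.le_succ i)))
  refine le_trans (Finset.sum_le_sum (g := fun i => ENNReal.ofReal α *
    edist (G (u (i + 1))) (G (u i)) + edist (H (u (i + 1))) (H (u i)) +
      ENNReal.ofReal (δ * (u (i + 1) - u i))) fun i _ => ?_) ?_
  · simp only [edist_dist, dist_eq_norm]
    rw [← ENNReal.ofReal_mul hα, ← ENNReal.ofReal_add (by positivity) (norm_nonneg _),
      ← ENNReal.ofReal_add (by positivity) (h0 i)]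
    exact ENNReal.ofReal_le_ofReal (h _ (us i) _ (us (i + 1)) (hu (Nat.le_succ i)))
  · rw [Finset.sum_add_distrib, Finset.sum_add_distrib, ← Finset.mul_sum,
      ← ENNReal.ofReal_sum_of_nonneg fun i _ => h0 i, ← Finset.mul_sum, Finset.sum_range_sub]
    refine add_le_add (add_le_add ?_ (eVariationOn.sum_le (f := H) hu us))
      (ENNReal.ofReal_le_ofReal ?_)
    · exact mul_le_mul_right (eVariationOn.sum_le (f := G) hu us) _
    · exact mul_le_of_le_one_right hδ (by linarith [(us n).2, (us 0).1])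

theorem QLam3_coord (k : ℝ → Rn 3) (s : Set ℝ) (l : Fin 3) :
    eVariationOn (fun t => k t l) s ≤ eVariationOn k s := by
  refine iSup_le ?_
  rintro ⟨n, u, hu, us⟩
  exact le_trans (Finset.sum_le_sum fun i _ => edist_le_pi_edist _ _ l)
    (eVariationOn.sum_le (f := k) hu us)

theorem LamIn.vr (h : LamIn C P aK K ch w lam f θ μ ρ1 μ1 kp 𝒟 𝔅 Φ Ξ π t L) {q : ι} {u : I3 × I3}
    (hu : u ∈ kp q) (h2 : 2 ≤ (C q).I.card) {a b : Rn 3} (he : K.Edge a b)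
    (ha : a ∈ (C q).Q u (C q).R0) (hb : b ∈ (C q).Q u (C q).R0) :
    vr (fun x => ((mix t Ξ ∘ Φ) ∘ f) x - (C q).aff0 ((mix t Ξ ∘ Φ) ∘ f) u x) a b ≤
      ENNReal.ofReal ((C q).lam * (C q).s) := by
  have ok := h.cf.gf.ok q
  have fit := h.cf.gf.fit q
  have nm := ok.nm
  have adm := (h.cf.adm q u hu).1
  have hτ := nm.τ0
  have hm : 0 < (C q).m := by linarith [nm.τm]
  have r01 : (C q).R0 ≤ (C q).R1 := by linarith [nm.r0, nm.mκ]
  have r1t : (C q).R1 ≤ (C q).t0 / 2 := by linarith [nm.r1, nm.mκ]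
  have ha' := Cu.GGeo_Q_mono (r01.trans r1t) ha
  have hb' := Cu.GGeo_Q_mono (r01.trans r1t) hb
  have hab : ‖b - a‖ ≤ (C q).t0 := by
    refine (pi_norm_le_iff_of_nonneg nm.t0.le).2 fun i => ?_
    rw [Real.norm_eq_abs, Pi.sub_apply]
    by_cases k : i ∈ (C q).I
    · linarith [abs_sub_le (b i) (((C q).pc u 0).c i) (a i), hb'.2 i k, ha'.2 i k,
        abs_sub_comm (((C q).pc u 0).c i) (a i)]
    · rw [hb'.1 i k, ha'.1 i k, sub_self, abs_zero]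
      exact nm.t0.le
  have hγ : ∀ s ∈ Icc (0 : ℝ) 1, seg a b s ∈ K.sk 2 ∩ (C q).Q u (C q).R1 := fun s hs => by
    have k1 : seg a b s ∈ (C q).Q u (C q).R1 :=
      (QSk_cvx u _).add_smul_sub_mem (Cu.GGeo_Q_mono r01 ha) (Cu.GGeo_Q_mono r01 hb) hs
    obtain ⟨j, -, hj⟩ := sk_edge fit ok adm he ha' hb'
    obtain ⟨i, hi⟩ := exists_ne j
    obtain ⟨⟨k, hk⟩, e⟩ := hj i hi
    exact ⟨QSk_pl fit ok adm k1 (j := i) ⟨k, by simp [seg, e, hk]⟩, k1⟩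
  have cΦ : Continuous Φ := (LipschitzWith.of_dist_le_mul (K := ⟨L, h.lΦ.1⟩) fun x y => by
    rw [dist_eq_norm, dist_eq_norm]
    exact h.lΦ.2.2 x y).continuous
  have ck : ContinuousOn (fun s => f (seg a b s)) (Icc 0 1) :=
    h.cf.mu.cont.comp (f := seg a b) (by unfold seg; fun_prop) fun s hs => (hγ s hs).1.1
  have cl : ∀ s ∈ Icc (0 : ℝ) 1, ‖Φ (f (seg a b s)) - (C q).aff0 f u (seg a b s)‖ ≤
      (C q).lam * (C q).s / 100 := fun s hs => cl_cut h.cf h.gs h.ct hu h2 (hγ s hs)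
  have nb : ∀ s ∈ Icc (0 : ℝ) 1,
      Φ (f (seg a b s)) ∈ (C q).Nb f u (C q).R1 (18 / 100 * (C q).m) := fun s hs =>
    mem_Nb.2 ⟨_, (hγ s hs).2, (cl s hs).trans (by linarith [nm.ls, nm.lm, nm.τl])⟩
  have pv : ∀ q' u', (C q').Nb f u' (C q').R1 (18 / 100 * (C q').m) ⊆ (C q').Pv f u' :=
    fun q' u' => Nb_mono le_rfl (by
      have := (h.cf.gf.ok q').nm
      linarith [this.τm, this.τ0])
  have eq : ∀ s ∈ Icc (0 : ℝ) 1, ∀ l,
      Ξ (Φ (f (seg a b s))) l = π ⟨(q, u), hu⟩ l (Φ (f (seg a b s)) l) := fun s hs =>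
    h.eq ⟨(q, u), hu⟩ h2 _ (nb s hs)
  have key : ∀ l, ∀ s ∈ Icc (0 : ℝ) 1, ∀ s' ∈ Icc (0 : ℝ) 1, (∃ β ∈ allB 𝔅,
      Φ (f (seg a b s)) ∈ closedBall β.1 β.2 ∧ Φ (f (seg a b s')) ∈ closedBall β.1 β.2) →
      Ξ (Φ (f (seg a b s))) l = Ξ (Φ (f (seg a b s'))) l := by
    rintro l s hs s' hs' ⟨β, ⟨b', hβ⟩, m, m'⟩
    obtain rfl : b' = ⟨(q, u), hu⟩ := by
      by_contra hn
      exact disjoint_left.1 (h.cf.pv_dis h2 hu b'.2 fun e => hn (Subtype.ext e.symm))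
        (pv _ _ (nb s hs)) (pv _ _ ((h.gs.bal b' β hβ).2 m))
    rw [eq s hs, eq s' hs']
    exact h.cst _ β hβ l _ _ ((norm_le_pi_norm (_ - β.1) l).trans (mem_closedBall_iff_norm.1 m))
      ((norm_le_pi_norm (_ - β.1) l).trans (mem_closedBall_iff_norm.1 m'))
  have af : ∀ s, (C q).aff0 f u (seg a b s) = (C q).aff0 f u a + s • (C q).A (b - a) := fun s => by
    rw [Cu.aff0, Cu.aff0, seg, add_sub_right_comm, map_add, map_smul, add_assoc]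
  have vG := (h.cf.g2 q h2 u hu).ed a b he ha' hb'
  have vH : eVariationOn (fun s => Ξ (Φ (f (seg a b s))) - (C q).aff0 f u (seg a b s)) (Icc 0 1) ≤
      ENNReal.ofReal (3 * (2 * (C q).τ + 2 * ((C q).lam * (C q).s / 100 + 6 * (C q).τ))) := by
    have c0 : 0 ≤ 2 * ((C q).lam * (C q).s / 100 + 6 * (C q).τ) := by linarith [nm.τl]
    refine (var_pi _ _).trans ((Finset.sum_le_sum (g := fun _ => ENNReal.ofReal (2 * (C q).τ +
      2 * ((C q).lam * (C q).s / 100 + 6 * (C q).τ))) fun l _ => ?_).trans ?_)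
    · have e : ∀ s, (C q).aff0 f u (seg a b s) l = (C q).aff0 f u a l + (C q).A (b - a) l * s :=
        fun s => by rw [af, mul_comm]; rfl
      have := var_one (p := fun s => Ξ (Φ (f (seg a b s))) l)
        (g := fun s => (f (seg a b s) - (C q).aff0 f u (seg a b s)) l) (a := (C q).aff0 f u a l)
        (b := (C q).A (b - a) l) (c := (C q).lam * (C q).s / 100 + 6 * (C q).τ)
        (h.mon ⟨(q, u), hu⟩ l) (fun s s' h0 h1 h3 => ?_) fun s hs => ?_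
      · simp only [Pi.sub_apply, e]
        refine this.trans ?_
        rw [ENNReal.ofReal_add (by linarith) c0, ENNReal.ofReal_mul (q := (C q).τ) zero_le_two,
          ENNReal.ofReal_ofNat]
        exact add_le_add_left (mul_le_mul_right ((QLam3_coord _ _ l).trans vG) _) _
      · have hs : s ∈ Icc (0 : ℝ) 1 := ⟨h0, h1.trans h3⟩
        have hs' : s' ∈ Icc (0 : ℝ) 1 := ⟨h0.trans h1, h3⟩
        rcases split3 ck (cΦ.comp_continuousOn ck) h.gs.fam.disb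
          (fun s hs => h.fix2 _ (hγ s hs).1) h0 h1 h3 with k | ⟨x, y, a1, a2, a3, ex, ey, kx, ky⟩
        · exact Or.inl (key l s hs s' hs' k)
        · have hx : x ∈ Icc (0 : ℝ) 1 := ⟨h0.trans a1, a2.trans (a3.trans h3)⟩
          have hy : y ∈ Icc (0 : ℝ) 1 := ⟨h0.trans (a1.trans a2), a3.trans h3⟩
          refine Or.inr ⟨x, y, a1, a2, a3, ?_, ?_⟩
          · rw [← e, Pi.sub_apply, add_sub_cancel, ← show Φ (f (seg a b x)) = _ from ex, ← eq x hx]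
            exact kx.elim (fun k => by rw [k]) (key l s hs x hx)
          · rw [← e, Pi.sub_apply, add_sub_cancel, ← show Φ (f (seg a b y)) = _ from ey, ← eq y hy]
            exact (ky.elim (fun k => by rw [k]) (key l y hy s' hs')).symm
      · rw [← e]
        refine (norm_le_pi_norm (Ξ (Φ (f (seg a b s))) - (C q).aff0 f u (seg a b s)) l).trans ?_
        linarith [norm_sub_le_norm_sub_add_norm_sub (Ξ (Φ (f (seg a b s)))) (Φ (f (seg a b s)))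
          ((C q).aff0 f u (seg a b s)), cl s hs, h.mv q h2 u hu _ (pv _ _ (nb s hs))]
    · rw [Finset.sum_const, Finset.card_univ, Fintype.card_fin, nsmul_eq_mul,
        ENNReal.ofReal_mul zero_le_three, ENNReal.ofReal_ofNat, Nat.cast_ofNat]
  obtain ⟨t0, t1⟩ := h.t0
  have L0 := h.lΦ.1
  have hA := mul_nonneg (norm_nonneg (C q).A) nm.t0.le
  refine (QLam3_var (G := fun s => f (seg a b s) - (C q).aff0 f u (seg a b s))
    (H := fun s => Ξ (Φ (f (seg a b s))) - (C q).aff0 f u (seg a b s)) (α := t * L)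
    (δ := t * ((L + 1) * (‖(C q).A‖ * (C q).t0))) (by positivity) (by positivity)
    fun s _ s' _ ss => ?_).trans ?_
  · have k1 : ‖(s' - s) • (C q).A (b - a)‖ ≤ ‖(C q).A‖ * (C q).t0 * (s' - s) := by
      rw [norm_smul, Real.norm_of_nonneg (sub_nonneg.2 ss), mul_comm]
      exact mul_le_mul_of_nonneg_right (((C q).A.le_opNorm _).trans
        (mul_le_mul_of_nonneg_left hab (norm_nonneg _))) (sub_nonneg.2 ss)
    have af' : ∀ (g : Rn 3 → Rn 3) s,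
        (C q).aff0 g u (seg a b s) = (C q).aff0 g u a + s • (C q).A (b - a) := fun g s => by
      rw [Cu.aff0, Cu.aff0, seg, add_sub_right_comm, map_add, map_smul, add_assoc]
    simp only [af', comp_apply, mix]
    have k2 := h.lΦ.2.2 (f (seg a b s')) (f (seg a b s))
    generalize (C q).aff0 ((mix t Ξ ∘ Φ) ∘ f) u a = z
    generalize (C q).aff0 f u a = z'
    generalize (C q).A (b - a) = v at k1 ⊢
    generalize Ξ (Φ (f (seg a b s'))) = X'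
    generalize Ξ (Φ (f (seg a b s))) = X
    generalize Φ (f (seg a b s')) = Y' at k2 ⊢
    generalize Φ (f (seg a b s)) = Y at k2 ⊢
    generalize f (seg a b s') = Z' at k2 ⊢
    generalize f (seg a b s) = Z at k2 ⊢
    rw [show t • Y' + (1 - t) • X' - (z + s' • v) - (t • Y + (1 - t) • X - (z + s • v)) =
      t • (Y' - Y - (s' - s) • v) + (1 - t) • (X' - (z' + s' • v) - (X - (z' + s • v))) by module]
    have k3 : ‖Z' - Z‖ ≤ ‖Z' - (z' + s' • v) - (Z - (z' + s • v))‖ + ‖(s' - s) • v‖ := by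
      refine le_trans (le_of_eq ?_) (norm_add_le _ _)
      congr 1
      module
    have k4 := norm_sub_le (Y' - Y) ((s' - s) • v)
    refine (norm_add_le _ _).trans ?_
    rw [norm_smul, norm_smul, Real.norm_of_nonneg t0.le, Real.norm_of_nonneg (sub_nonneg.2 t1)]
    have k5 := mul_le_mul_of_nonneg_left (k4.trans (add_le_add (k2.trans
      (mul_le_mul_of_nonneg_left (k3.trans (add_le_add_right k1 _)) L0)) k1)) t0.le
    have k6 := mul_nonneg t0.le (norm_nonneg (X' - (z' + s' • v) - (X - (z' + s • v))))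
    linarith
  · refine (add_le_add_left (add_le_add (mul_le_mul_right vG _) vH) _).trans ?_
    have k1 : 0 ≤ t * L * (C q).τ := by positivity
    rw [← ENNReal.ofReal_mul (by positivity), ← ENNReal.ofReal_add k1 (by linarith [nm.τl]),
      ← ENNReal.ofReal_add (by linarith [nm.τl]) (by positivity)]
    refine ENNReal.ofReal_le_ofReal ?_
    linarith [h.tv q, nm.τl, mul_pos t0 hτ]

end BEp
end
end
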