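import Pool.Agent.Work.MP_f0515e_an.P2.QLoop
import Pool.Agent.Work.MP_f0515e_an.P2.QSide
import Pool.Agent.Work.MP_f0515e_an.P2.QLam3
import Pool.Agent.Work.MP_f0515e_an.P2.QDetS
import Pool.Agent.Work.MP_f0515e_an.P3.Det

-- merged part: Pool.Agent.Work.MP_f0515e_an.P2.QPrep
section
/-! The pieces, from the weaker notion of good tile and the private sets. -/

open Set Metric Filter Topology Function BEv MeasureTheory
open scoped NNReal ENNReal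

noncomputable section
namespace BEp

theorem QPrep_xi {ι : Type} [Finite ι] (Y : ι → Set (Rn 3)) (μ : ι → ℝ)
    (B : ι → Rn 3 →L[ℝ] Rn 3) (k : ι → Rn 3) (hY : ∀ i, IsCompact (Y i)) (hμ : ∀ i, 0 < μ i)
    (hB : ∀ i, ‖B i‖ ≤ 1 / 8)
    (ha : ∀ i y, (∃ x ∈ Y i, ‖y - x‖ ≤ μ i) → ‖B i y + k i‖ ≤ μ i / 16)
    (hd : ∀ i j, i ≠ j → ∀ y, (∃ x ∈ Y i, ‖y - x‖ ≤ μ i) → ¬ ∃ x ∈ Y j, ‖y - x‖ ≤ μ j) :
    ∃ Ξ : Rn 3 → Rn 3, Bijective Ξ ∧ (∀ y y', ‖Ξ y - Ξ y'‖ ≤ 3 / 2 * ‖y - y'‖) ∧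
      (∀ y, (∀ i, ¬ ∃ x ∈ Y i, ‖y - x‖ ≤ μ i) → Ξ y = y) ∧
      (∀ i y, (∃ x ∈ Y i, ‖y - x‖ ≤ μ i / 2) → Ξ y = y + (B i y + k i)) ∧
      (∀ i y, (∃ x ∈ Y i, ‖y - x‖ ≤ μ i) → ‖Ξ y - y‖ ≤ μ i / 16) ∧
      ∀ i y, (∃ x ∈ Y i, ‖Ξ y - x‖ ≤ μ i) ↔ ∃ x ∈ Y i, ‖y - x‖ ≤ μ i := by
  classical
  haveI := Fintype.ofFinite ι
  choose T hL h0 h1 hs using fun i => Xi_term (Y i) (μ i) (B i) (k i) (hY i) (hμ i) (hB i) (ha i)
  have hin : ∀ i y, (∃ x ∈ Y i, ‖y - x‖ ≤ μ i) → ∑ j, T j y = T i y := fun i y hy =>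
    Finset.sum_eq_single i (fun j _ hj => h0 j y (hd i j (Ne.symm hj) y hy))
      (fun h => absurd (Finset.mem_univ i) h)
  have hout : ∀ y, (∀ i, ¬ ∃ x ∈ Y i, ‖y - x‖ ≤ μ i) → ∑ j, T j y = 0 := fun y hy =>
    Finset.sum_eq_zero fun j _ => h0 j y (hy j)
  have hone : ∀ i y y', (∃ x ∈ Y i, ‖y - x‖ ≤ μ i) → (∀ j, ¬ ∃ x ∈ Y j, ‖y' - x‖ ≤ μ j) →
      ‖∑ j, T j y - ∑ j, T j y'‖ ≤ 1 / 2 * ‖y - y'‖ := by
    intro i y y' hy hy'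
    rw [hin i y hy, hout y' hy', ← h0 i y' (hy' i)]
    linarith [hL i y y', norm_nonneg (y - y')]
  have hS : ∀ y y', ‖∑ j, T j y - ∑ j, T j y'‖ ≤ 1 / 2 * ‖y - y'‖ := by
    intro y y'
    by_cases hy : ∃ i, ∃ x ∈ Y i, ‖y - x‖ ≤ μ i
    · obtain ⟨i, hi⟩ := hy
      by_cases hy' : ∃ j, ∃ x ∈ Y j, ‖y' - x‖ ≤ μ j
      · obtain ⟨j, hj⟩ := hy'
        rw [hin i y hi, hin j y' hj]
        by_cases hij : i = j
        · subst hij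
          linarith [hL i y y', norm_nonneg (y - y')]
        · have e : T i y - T j y' = (T i y - T i y') + (T j y - T j y') := by
            rw [h0 i y' (hd j i (Ne.symm hij) y' hj), h0 j y (hd i j hij y hi)]
            simp only [sub_zero, zero_sub, sub_eq_add_neg, neg_zero, add_zero, zero_add]
          rw [e]
          linarith [norm_add_le (T i y - T i y') (T j y - T j y'), hL i y y', hL j y y']
      · exact hone i y y' hi (not_exists.1 hy')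
    · by_cases hy' : ∃ j, ∃ x ∈ Y j, ‖y' - x‖ ≤ μ j
      · obtain ⟨j, hj⟩ := hy'
        rw [norm_sub_rev, norm_sub_rev y]
        exact hone j y' y hj (not_exists.1 hy)
      · rw [hout y (not_exists.1 hy), hout y' (not_exists.1 hy'), sub_self, norm_zero]
        positivity
  have hmaps : ∀ i y, (∃ x ∈ Y i, ‖y - x‖ ≤ μ i) →
      ∃ x ∈ Y i, ‖(y + ∑ j, T j y) - x‖ ≤ μ i := by
    intro i y hy
    rw [hin i y hy]
    by_contra hc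
    have hi : Injective fun y => y + T i y :=
      Xi_inj (T i) fun a b => by linarith [hL i a b, norm_nonneg (a - b)]
    have e : (y + T i y) + T i (y + T i y) = y + T i y := by rw [h0 i _ hc, add_zero]
    have e' : y + T i y = y := hi e
    rw [e'] at hc
    exact hc hy
  refine ⟨fun y => y + ∑ j, T j y, Xi_bij _ hS, fun y y' => ?_, fun y hy => ?_, fun i y hy => ?_,
    fun i y hy => ?_, fun i y => ⟨fun h => ?_, hmaps i y⟩⟩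
  · have e : (y + ∑ j, T j y) - (y' + ∑ j, T j y') = (y - y') + (∑ j, T j y - ∑ j, T j y') := by
      abel
    show ‖(y + ∑ j, T j y) - (y' + ∑ j, T j y')‖ ≤ 3 / 2 * ‖y - y'‖
    rw [e]
    linarith [norm_add_le (y - y') (∑ j, T j y - ∑ j, T j y'), hS y y', norm_nonneg (y - y')]
  · show y + ∑ j, T j y = y
    rw [hout y hy, add_zero]
  · show y + ∑ j, T j y = y + (B i y + k i)
    obtain ⟨x, hx, hxe⟩ := hy
    rw [hin i y ⟨x, hx, by linarith [hμ i]⟩, h1 i y ⟨x, hx, hxe⟩]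
  · show ‖(y + ∑ j, T j y) - y‖ ≤ μ i / 16
    rw [add_sub_cancel_left, hin i y hy]
    exact hs i y hy
  · by_cases hy : ∃ j, ∃ x ∈ Y j, ‖y - x‖ ≤ μ j
    · obtain ⟨j, hj⟩ := hy
      by_cases hij : i = j
      · subst hij; exact hj
      · exact absurd (hmaps j y hj) (hd i j hij _ h)
    · have h' : ∃ x ∈ Y i, ‖(y + ∑ j, T j y) - x‖ ≤ μ i := h
      rwa [hout y (not_exists.1 hy), add_zero] at h'

section
variable {C : Cu} {aK : ℝ} {Ω : Set (Rn 3)} {K : Kx Ω} {ch : Set (Rn 3) → Ch} {w : Set (Rn 3) → ℝ}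
  {f Ξ : Rn 3 → Rn 3} {u : I3 × I3} {x y z : Rn 3} {R R' : ℝ}

theorem QPrep_in (h : C.Ok aK) (hg : C.Gd2 K f u) (hx : x ∈ K.sk 2)
    (hx' : x ∈ C.Q u (C.ρx + C.κ * C.s / 2)) : f x ∈ C.Zt f u (1 / 2) := by
  have n := Prep_num h u 0
  have := hg.cl x ⟨hx, Prep_mono (by linarith [n.t0, n.m1, n.m3, n.s0]) hx'⟩ (.inl hx')
  exact ⟨x, hx', by linarith [n.τ1, n.τ4, n.m3, n.s0]⟩

theorem Prep_L.cl2 (hl : Prep_L C f Ξ u y) (h : C.Ok aK) (hg : C.Gd2 K f u) (hx : x ∈ K.sk 2)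
    (hx' : x ∈ C.Q u (C.t0 / 2)) (hz : f x ∈ C.Zt f u (1 / 2)) :
    ‖Ξ (f x) - (C.pc u y).aff x‖ ≤ (C.pc u y).tol C.σ C.s := by
  rw [hl.sub h hg.ne hx' hz]
  exact (C.L.le_opNorm _).trans ((mul_le_mul h.tg.2.1 (hg.cl x ⟨hx, hx'⟩ (.inr hz)) (norm_nonneg _)
    zero_le_two).trans (Prep_num h u y).τ1)

theorem Prep_L.far2 (hl : Prep_L C f Ξ u y) (h : C.Ok aK) (hg : C.Gd2 K f u) (hz : z ∈ K.sk 2)
    (hz' : z ∈ C.Q u (C.t0 / 2)) (hZ : f z ∈ C.Zt f u (1 / 2)) (hx : x ∈ C.Q u R) (hR : 0 ≤ R)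
    {d : ℝ} (e : ‖Ξ (f z) - (C.pc u y).aff x‖ + (C.pc u y).tol C.σ C.s ≤ C.σ * d) :
    z ∈ C.Q u (R + d) := by
  have k1 := hl.cl2 h hg hz hz' hZ
  have k2 := h.lowh (z - x)
  have : C.Ah (z - x) = Ξ (f z) - (C.pc u y).aff x - (Ξ (f z) - (C.pc u y).aff z) := by
    simp only [Pc.aff, Cu.pc, map_sub]
    abel
  rw [this] at k2
  have k3 : ‖z - x‖ ≤ d := le_of_mul_le_mul_left (by
    linarith [norm_sub_le (Ξ (f z) - (C.pc u y).aff x) (Ξ (f z) - (C.pc u y).aff z)]) h.σ0.1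
  have k4 := ((Cu.mem_Q hR).1 hx).2
  exact (Cu.mem_Q (by linarith [norm_nonneg (z - x)])).2 ⟨hz'.1,
    by linarith [norm_sub_le_norm_sub_add_norm_sub z x (C.ctr u)]⟩

theorem Prep_L.box2 (hl : Prep_L C f Ξ u y) (hf : C.Fit aK K ch w) (h : C.Ok aK) (hg : C.Gd2 K f u)
    (hc : 2 ≤ C.I.card) (h3 : ∀ x ∈ Ω, f x ∈ C.Zt f u 1 → ‖x - C.ctr u‖ < C.ρ' ∧
      ((∀ i, i ∉ C.I → x i = C.ctr u i) → x ∈ C.Q u (C.t0 / 2))) :
    BoxIn K (Ξ ∘ f) (C.pc u y) C.s C.r C.σ (C.g * C.l / C.cf) := by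
  obtain ⟨s0, -, -, -, m1, m2, m3, x0, t0, -, τ2, τ3, -, big, -⟩ := Prep_num h u y
  have q1 : C.Q u (C.ρx + 32 * C.s) ⊆ C.Q u (C.ρx + C.κ * C.s / 2) := Prep_mono (by linarith)
  have q2 : C.Q u (C.ρx + 32 * C.s) ⊆ C.Q u (C.t0 / 2) := Prep_mono (by linarith)
  obtain ⟨-, -, -, -, -, -, -, -, -, -, r1, r2, -⟩ := h.num
  refine ⟨C.pc_ρx u y, ⟨r2, r1⟩, h.mult.2.2.2.1, big, h.σ0, h.lowh, ?_, ?_, ?_, ?_, ?_, ?_⟩ <;>
    simp only [Cu.pc_ρx, Cu.pc_Q]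
  · refine q2.trans ((Prep_WI h hg.adm).trans (h.WI_prop.2.1.trans (h.O_prop.2.1.trans
      (Subset.trans ?_ hf.sub))))
    exact ball_subset_closedBall.trans (closedBall_subset_closedBall (by linarith [h.pos.2.1]))
  · exact fun x hx => (hf.fine x (Prep_WI h hg.adm (q2 hx))).trans (h.grid hg.adm y (q2 hx))
  · exact fun F hF => hf.frz h hc hg.adm hF
  · exact fun x hx => hl.cl2 h hg hx.1 (q2 hx.2) (QPrep_in h hg hx.1 (q1 hx.2))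
  · intro a b he ha hb
    have q3 : C.Q u (C.ρx + 16 * C.s) ⊆ C.Q u (C.ρx + 32 * C.s) := Prep_mono (by linarith)
    have e : EqOn (fun t => (Ξ ∘ f) (seg a b t) - (C.pc u y).aff (seg a b t))
        (C.L ∘ fun t => f (seg a b t) - C.aff0 f u (seg a b t)) (Icc 0 1) := fun t ht => by
      have m : seg a b t ∈ segment ℝ a b := (segment_eq_image' ℝ a b).symm ▸ ⟨t, ht, rfl⟩
      have m' := q1 (q3 ((C.Q_cpt u _).2.segment_subset ha hb m))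
      exact hl.sub h hg.ne m' (QPrep_in h hg (Kx.sk_mono one_le_two (he.seg_sub m)) m')
    refine (eVariationOn.eq_of_eqOn e).trans_le (((C.L.lipschitz.weaken (K' := 2) h.tg.2.1
      ).lipschitzOnWith.comp_eVariationOn_le (mapsTo_univ _ _)).trans ?_)
    refine (mul_le_mul_right (hg.vr hc a b he (q1 (q3 ha)) (q1 (q3 hb))) _).trans ?_
    rw [← ENNReal.ofReal_coe_nnreal, ← ENNReal.ofReal_mul (by positivity)]
    exact ENNReal.ofReal_le_ofReal τ2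
  · intro x hx z hz hs hn
    by_contra k
    have k : ‖Ξ (f z) - (C.pc u y).aff x‖ ≤ C.σ * C.s / 50 := not_lt.1 k
    have p := mul_pos h.σ0.1 s0
    have k1 := hl.core h hg.ne (Prep_mono (by linarith) hx) (k.trans (by linarith))
    obtain ⟨k2, k3⟩ := h3 z hz (Prep_Zt h (by norm_num) k1)
    have k4 := k3 (hs.elim (fun o => Prep_sl hf h hg.adm hc o k2) fun o => o.1)
    have := hl.far2 h hg (hs.elim id fun o => hf.Sk_sk h hg.adm y ⟨o, k4⟩) k4 k1 hx (by linarith)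
      (d := 4 * C.s) (by linarith)
    exact hn (Prep_mono (by linarith) this)

theorem Prep_L.chd2 (hl : Prep_L C f Ξ u y) (hf : C.Fit aK K ch w) (h : C.Ok aK) (hg : C.Gd2 K f u)
    (hc : C.I.card = 1) : ∃ k, ∀ x ∈ C.Q u C.ρx, Ξ (f x) = C.L (f x) + k ∧
      ‖Ξ (f x) - (C.pc u y).aff x‖ ≤ C.g * C.l / C.cf / 2 := by
  obtain ⟨s0, -, -, -, m1, -, m3, -, t0, -, -, -, τ4, big, -⟩ := Prep_num h u y
  refine ⟨y - C.L (f (C.ctr u)), fun x hx => ?_⟩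
  have q : x ∈ C.Q u (C.t0 / 2) := Prep_mono (by linarith) hx
  have k := Kx.sk_mono (hc.le.trans one_le_two) (hf.WI_sk h (Prep_WI h hg.adm q))
  have k1 := QPrep_in h hg k (Prep_mono (by linarith) hx)
  refine ⟨?_, (hl.cl2 h hg k q k1).trans ?_⟩
  · rw [hl.eq _ k1, map_sub]
    abel
  · linarith [mul_nonneg (norm_nonneg (C.Ah : Rn 3 →L[ℝ] Rn 3)) s0.le]

theorem Prep_L.zone2 (hl : Prep_L C f Ξ u y) (hf : C.Fit aK K ch w) (h : C.Ok aK) (hg : C.Gd2 K f u)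
    (h3 : ∀ x ∈ Ω, f x ∈ C.Zt f u 1 → ‖x - C.ctr u‖ < C.ρ' ∧
      ((∀ i, i ∉ C.I → x i = C.ctr u i) → x ∈ C.Q u (C.t0 / 2)))
    (hz : z ∈ K.sk 2) (hn : (C.pc u y).Nr (C.cf * C.l) (Ξ (f z))) : z ∈ C.zone u := by
  obtain ⟨s0, l1, l2, l3, m1, -, m3, x0, -, -, -, -, τ4, -, ζ1, -⟩ := Prep_num h u y
  obtain ⟨x, ⟨hx, -⟩, k⟩ := hn
  rw [Cu.pc_ρx, Cu.pc_Q] at hx
  have k1 := hl.core h hg.ne (Prep_mono (by linarith) hx) (k.trans (by linarith))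
  obtain ⟨k2, k3⟩ := h3 z hz.1 (Prep_Zt h (by norm_num) k1)
  by_cases e : ∀ i, i ∉ C.I → z i = C.ctr u i
  · exact .inl (hl.far2 h hg hz (k3 e) k1 hx x0.le (by linarith))
  · refine .inr ⟨?_, k2, by simpa using e⟩
    have := h.ne.card_pos
    by_contra o
    exact e (Prep_sl hf h hg.adm (by omega) hz k2)

end

theorem prep_out2 {ι : Type} [Finite ι] {C : ι → Cu} {P : Pr} {aK : ℝ} {Ω : Set (Rn 3)} {K : Kx Ω}
    {ch : Set (Rn 3) → Ch} {w lam : Set (Rn 3) → ℝ} (hF : GFit C P aK K ch w lam)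
    {f : Rn 3 → Rn 3} {θ : Rn 3 → ℝ} {μ0 θ0 : ℝ} (hm : MuIn C Ω f θ μ0 θ0)
    {kp : ι → Set (I3 × I3)} (hg : ∀ q, ∀ u ∈ kp q, (C q).Gd2 K f u)
    (hS : SepOut C Ω f θ θ0 kp)
    {Cf : (Rn 3 ≃L[ℝ] Rn 3) → ℝ} (hc : ∀ q, (C q).cf = Cf (C q).Ah)
    (hθ : ∀ y ∈ f '' Ω, 0 ≤ θ y) :
    ∃ Ξ y, PrepOut C K f θ Cf kp Ξ y ∧ ∀ z z', ‖Ξ z - Ξ z'‖ ≤ 3 / 2 * ‖z - z'‖ := by
  have : Finite (Pcs kp) := by
    refine Set.Finite.to_subtype (s := {b : ι × I3 × I3 | b.2 ∈ kp b.1}) ((finite_iUnion fun q =>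
      ((hF.ok q).adm_finite.image (Prod.mk q))).subset fun b hb => ?_)
    exact mem_iUnion.2 ⟨b.1, b.2, (hg _ _ hb).adm, rfl⟩
  choose y y1 y2 using fun b : Pcs kp =>
    Prep_lat (hF.ok b.1.1).pos.2.2.2.2.1 (f ((C b.1.1).ctr b.1.2))
  have near : ∀ (b : Pcs kp) (m : ℝ) z, (∃ x ∈ (C b.1.1).aff0 f b.1.2 '' (C b.1.1).Q b.1.2
      ((C b.1.1).ρx + (C b.1.1).κ * (C b.1.1).s / 2), ‖z - x‖ ≤ m) ↔ ∃ x ∈ (C b.1.1).Q b.1.2
      ((C b.1.1).ρx + (C b.1.1).κ * (C b.1.1).s / 2), ‖z - (C b.1.1).aff0 f b.1.2 x‖ ≤ m :=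
    fun b m z => exists_mem_image
  have one : ∀ (b : Pcs kp) z, (∃ x ∈ (C b.1.1).aff0 f b.1.2 '' (C b.1.1).Q b.1.2
      ((C b.1.1).ρx + (C b.1.1).κ * (C b.1.1).s / 2),
        ‖z - x‖ ≤ (C b.1.1).σ * (C b.1.1).κ * (C b.1.1).s / 8) ↔ z ∈ (C b.1.1).Zt f b.1.2 1 :=
    fun b z => by rw [near, Cu.Zt, one_mul]; rfl
  have dis : ∀ b b' : Pcs kp, b ≠ b' → ∀ z ∈ (C b.1.1).Zt f b.1.2 1, z ∉ (C b'.1.1).Zt f b'.1.2 1 :=
    fun b b' e z k => disjoint_left.1 (hS.z2 _ _ b.2 _ _ b'.2 fun o => e (Subtype.ext o)) k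
  obtain ⟨Ξ, h1, h2, h3, h4, h5, h6⟩ := QPrep_xi
    (fun b : Pcs kp => (C b.1.1).aff0 f b.1.2 '' (C b.1.1).Q b.1.2
      ((C b.1.1).ρx + (C b.1.1).κ * (C b.1.1).s / 2))
    (fun b => (C b.1.1).σ * (C b.1.1).κ * (C b.1.1).s / 8) (fun b => (C b.1.1).L - 1)
    (fun b => y b - (C b.1.1).L (f ((C b.1.1).ctr b.1.2)))
    (fun b => ((C b.1.1).Q_cpt _ _).1.image (by unfold Cu.aff0; fun_prop))
    (fun b => by linarith [(Prep_num (hF.ok b.1.1) 0 0).s0, (Prep_num (hF.ok b.1.1) 0 0).m3])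
    (fun b => (hF.ok b.1.1).L1.1.trans (hF.ok b.1.1).g0.2)
    (fun b z hz => Prep_ha (hF.ok _) (y2 b) ((one b z).1 hz))
    fun b b' e z hz hz' => dis b b' e z ((one b z).1 hz) ((one b' z).1 hz')
  simp only [one] at h3 h5 h6
  have hl : ∀ b : Pcs kp, Prep_L (C b.1.1) f Ξ b.1.2 (y b) := fun b =>
    ⟨y2 b, fun z ⟨x, hx, k⟩ => by
      rw [h4 b z ⟨_, ⟨x, hx, rfl⟩, by linarith⟩]
      simp only [sub_apply, one_apply_eq_self, map_sub]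
      abel, h5 b, h6 b⟩
  have iff : ∀ z, Ξ z ∈ f '' Ω ↔ z ∈ f '' Ω := fun z => by
    by_cases e : ∃ b : Pcs kp, z ∈ (C b.1.1).Zt f b.1.2 1
    · obtain ⟨b, e⟩ := e
      exact iff_of_true (hS.z1 _ _ b.2 _ ((h6 b z).2 e)).1 (hS.z1 _ _ b.2 _ e).1
    · rw [h3 z (not_exists.1 e)]
  refine ⟨Ξ, y, ⟨h1.1, fun z z' => by linarith [h2 z z', norm_nonneg (z - z')], ?_, fun z hz => ?_, ⟨fun b => (hF.ok _).pcok _ (y1 b), fun b x hx z k => ?_,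
    fun b b' e x hx x' hx' => ?_⟩,
    fun b k => (hl b).box2 (hF.fit _) (hF.ok _) (hg _ _ b.2) k (hS.z3 _ _ b.2),
    fun b k => (hl b).chd2 (hF.fit _) (hF.ok _) (hg _ _ b.2) k,
    fun b x hx k => (hl b).zone2 (hF.fit _) (hF.ok _) (hg _ _ b.2) (hS.z3 _ _ b.2) hx k⟩, h2⟩
  · refine Subset.antisymm (image_subset_iff.2 fun z hz => (iff z).2 hz) fun z hz => ?_
    obtain ⟨z', rfl⟩ := h1.2 z
    exact ⟨z', (iff z').1 hz, rfl⟩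
  · by_cases e : ∃ b : Pcs kp, z ∈ (C b.1.1).Zt f b.1.2 1
    · obtain ⟨b, e⟩ := e
      have n := Prep_num (hF.ok b.1.1) 0 0
      linarith [h5 b z e, (hS.z1 _ _ b.2 _ e).2, (hm.m2 b.1.1).2, n.t0, n.x0, n.m1, n.m3, n.s0]
    · rw [h3 z (not_exists.1 e), sub_self, norm_zero]
      exact hθ z hz
  · have e : Cf (pcs C kp y b).A * (pcs C kp y b).l = (C b.1.1).cf * (C b.1.1).l := by
      rw [hc]; rfl
    rw [e] at k ⊢
    have k' := hS.z1 _ _ b.2 _ (Prep_near (hF.ok _) (hg _ _ b.2).ne (y2 b) hx k)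
    have n := Prep_num (hF.ok b.1.1) 0 0
    exact ⟨k'.1, by linarith [k'.2, (hm.m2 b.1.1).2, n.t0, n.x0, n.m1, n.m3, n.s0, n.l3]⟩
  · have e' : ∀ b, Cf (pcs C kp y b).A * (pcs C kp y b).l = (C b.1.1).cf * (C b.1.1).l :=
      fun b => by rw [hc]; rfl
    have p : ∀ b : Pcs kp, 0 ≤ (C b.1.1).cf * (C b.1.1).l := fun b => by
      have n := Prep_num (hF.ok b.1.1) 0 0
      linarith [n.s0, n.l1, n.l2]
    rw [e', e', add_comm]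
    by_contra k
    obtain ⟨z, k1, k2⟩ := exists_dist_le_le (p b) (p b') ((dist_eq_norm _ _).trans_le (not_lt.1 k))
    rw [dist_comm, dist_eq_norm] at k1
    rw [dist_eq_norm] at k2
    exact dis b b' e z (Prep_near (hF.ok _) (hg _ _ b.2).ne (y2 b) hx k1)
      (Prep_near (hF.ok _) (hg _ _ b'.2).ne (y2 b') hx' k2)

end BEp
end
end

-- merged part: Pool.Agent.Work.MP_f0515e_an.P2.QPr2
section
/-! The correction of the target after the modification. -/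

open Set Metric Filter Topology Function BEv MeasureTheory
open scoped NNReal ENNReal

noncomputable section
namespace BEp

theorem prep_lam {ι : Type} [Finite ι] {C : ι → Cu} {P : Pr} {aK : ℝ} {Ω : Set (Rn 3)} {K : Kx Ω}
    {ch : Set (Rn 3) → Ch} {w lam : Set (Rn 3) → ℝ} (hF : GFit C P aK K ch w lam)
    {f Λ : Rn 3 → Rn 3} {θ : Rn 3 → ℝ} {μ : ℝ} {kp : ι → Set (I3 × I3)}
    (hk : ∀ q, kp q ⊆ (C q).Adm) (h : Lam C K f θ μ kp Λ) {Cf : (Rn 3 ≃L[ℝ] Rn 3) → ℝ}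
    (hc : ∀ q, (C q).cf = Cf (C q).Ah) (hs : Scl (f '' Ω) θ 100) :
    ∃ Ξ y, PrepOut2 C K f θ Cf kp Ξ y := by
  have e : (Λ ∘ f) '' Ω = f '' Ω := by rw [image_comp, h.img]
  obtain ⟨Ξ, y, hP, hl⟩ := prep_out2 hF h.mu h.gd h.sep hc fun z hz => (hs.pos z (e ▸ hz)).le
  obtain ⟨L, hL⟩ := h.lip
  refine ⟨Ξ ∘ Λ, y, hP.inj.comp h.inj, ⟨2 * L, (LipschitzWith.of_dist_le_mul (K := 2) fun z z' => by
    simpa [dist_eq_norm] using hP.lip z z').comp hL⟩, fun a b hab γ hγ s s' h0 h1 h2 => ?_, ?_,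
    fun z hz => ?_, e ▸ hP.pc, hP.box, fun b hb => ?_, hP.zone⟩
  · refine Thr.dbl (f' := fun x => Ξ (Λ (f x))) (fun a b k => ?_) hab hγ h0 h1 h2
    obtain ⟨s, s', k0, k1, k2, k3⟩ := h.thr a b k
    refine ⟨s, s', k0, k1, k2, (hl _ _).trans ?_⟩
    simp only [comp_apply] at k3
    linarith
  · rw [image_comp, h.img, ← e, hP.img]
  · have k0 : Λ z ∈ f '' Ω := h.img ▸ mem_image_of_mem Λ hz
    have k1 := hP.mv _ (e ▸ k0)
    have k2 := h.mv z hz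
    have k3 := hs.lip (Λ z) z
    have k4 := le_abs_self (θ (Λ z) - θ z)
    have k5 := hs.pos _ hz
    have k6 := norm_sub_le_norm_sub_add_norm_sub (Ξ (Λ z)) (Λ z) z
    simp only [comp_apply]
    linarith
  · obtain ⟨k, hk'⟩ := hP.chd b hb
    refine ⟨k, fun x hx => ?_⟩
    have n := Prep_num (hF.ok b.1.1) 0 0
    have hq : x ∈ (C b.1.1).q := (hF.ok _).GGeo_Wq (Prep_WI (hF.ok _) (hk _ b.2)
      (Prep_mono (by linarith [n.t0, n.m1, n.m3, n.s0]) hx))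
    have e1 : Λ (f x) = f x := h.fix x ((hF.fit _).sub hq) fun q h2 hx' => by
      by_cases e2 : q = b.1.1
      · rw [e2] at h2
        omega
      · exact disjoint_left.1 (hF.far _ _ e2) hx' hq
    have := hk' x hx
    simp only [comp_apply, e1] at this ⊢
    exact this

theorem null_lip {Ξ : Rn 3 → Rn 3} (h : ∃ L, LipschitzWith L Ξ) {S : Set (Rn 3)}
    (hS : volume S = 0) : volume (Ξ '' S) = 0 := by
  obtain ⟨L, hL⟩ := h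
  have k := hL.hausdorffMeasure_image_le (d := (Fintype.card (Fin 3) : ℝ)) (by positivity) S
  rw [hausdorffMeasure_pi_real, hS, mul_zero] at k
  exact le_antisymm k zero_le

end BEp
end
end

-- merged part: Pool.Agent.Work.MP_f0515e_an.P2.QDet
section
/-! The deterministic part for maps which send the skeleton to a null set. -/

open Set Metric Filter Topology Function BEv MeasureTheory
open scoped NNReal ENNReal

noncomputable section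
namespace BEp

section
variable {ι : Type} {C : ι → Cu} {P : Pr} {aK : ℝ} {Ω : Set (Rn 3)} {K : Kx Ω}
  {ch : Set (Rn 3) → Ch} {w lam : Set (Rn 3) → ℝ} {kp : ι → Set (I3 × I3)} {p C1 : ℝ}
  {Cf Cg : (Rn 3 ≃L[ℝ] Rn 3) → ℝ} {f G G' : Rn 3 → Rn 3} {D : Rn 3 → Rn 3 →L[ℝ] Rn 3}
  {θ : Rn 3 → ℝ} {y : Pcs kp → Rn 3} {d : SD (Pcs kp)} {e : ℝ≥0∞}

theorem QDet_sup {Ξ : Rn 3 → Rn 3} (hΩ : IsOpen Ω) (hs : Scl (f '' Ω) θ 100) (hG : LTP Ω G)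
    (hi : InjOn G Ω) (hΞ : ∀ z ∈ f '' Ω, ‖Ξ z - z‖ ≤ 3 * θ z)
    (hm : ∀ x ∈ K.sk 2, ‖G x - Ξ (f x)‖ ≤ 8 * θ (Ξ (f x))) {σ : Set (Rn 3)} (hσ : σ ∈ K.cel 3)
    (h : G' '' closure σ ⊆ G '' closure σ) {z : Rn 3} {R : ℝ}
    (hR : ∀ x ∈ closure σ, ‖f x - z‖ + 17 * θ (f x) ≤ R) : ∀ x ∈ closure σ, ‖G' x - z‖ ≤ R := by
  have h1 : ∀ x ∈ closure σ, ‖G x - z‖ ≤ R := by
    refine hull_ball ((Kx.dm_three hσ.1).1 hσ.2) (Kx.cells_poly hσ.1).1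
      ((hG.continuousOn hΩ).mono (Kx.cl_sub hσ.1)) (hi.mono (Kx.cells_sub hσ.1)) fun x hx => ?_
    have k0 : f x ∈ f '' Ω := mem_image_of_mem f (Kx.cl_sub hσ.1 hx.1)
    have k1 := hm x (Kx.rb_sub_sk hσ.1 hσ.2.le hx)
    have k2 := hΞ _ k0
    have k3 := hs.lip (Ξ (f x)) (f x)
    have k4 := le_abs_self (θ (Ξ (f x)) - θ (f x))
    have k5 := hs.pos _ k0
    have k6 := hR x hx.1
    have k7 := norm_sub_le_norm_sub_add_norm_sub (G x) (Ξ (f x)) z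
    have k8 := norm_sub_le_norm_sub_add_norm_sub (Ξ (f x)) (f x) z
    linarith
  intro x hx
  obtain ⟨x', hx', k⟩ := h (mem_image_of_mem G' hx)
  exact k ▸ h1 x' hx'

end

theorem det_main2 {p : ℝ} (hp1 : 1 ≤ p) (hp : p < 3) : ∃ Cd : ℝ≥0∞, Cd ≠ ⊤ ∧
    ∀ (ι : Type) [Fintype ι] (C : ι → Cu) (P : Pr) (aK : ℝ) (Ω : Set (Rn 3)) (K : Kx Ω)
      (ch : Set (Rn 3) → Ch) (w lam : Set (Rn 3) → ℝ) (f : Rn 3 → Rn 3)
      (D : Rn 3 → Rn 3 →L[ℝ] Rn 3) (v : Rn 3 → ℝ≥0∞) (θ : Rn 3 → ℝ) (kp : ι → Set (I3 × I3))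
      (C1 μ : ℝ) (Cf Cg : (Rn 3 ≃L[ℝ] Rn 3) → ℝ) (e : ℝ≥0∞) (Λ : Rn 3 → Rn 3),
      GFit C P aK K ch w lam → ContinuousOn f Ω → InjOn f Ω →
      volume (f '' K.sk 2) = 0 → RegIn p C K ch f D v → Lam C K f θ μ kp Λ →
      Scl (f '' Ω) θ 100 → CstOk C C1 Cf Cg → SurfN p C1 P.g Cf Cg → e ≠ 0 →
      ∃ G, DetOut p C K f θ (Cd * ((∑ q, ((C q).XT p C1 aK K ch w (kp q) D + (C q).rem p +
        ‖(C q).A‖ₑ ^ p * (C q).unk (kp q))) + (SumO C K lam fun F => XO p C1 D (ch F)) + e)) G := by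
  obtain ⟨Cc, hc, hcav⟩ := cavg hp1 hp
  obtain ⟨C0, h0, hloc⟩ := loc_e hp1 hp hc
  refine ⟨2 * (C0 + Cc + 1), by finiteness, ?_⟩
  intro ι _ C P aK Ω K ch w lam f D v θ kp C1 μ Cf Cg e Λ hF hfc hfi hN hR hL hs hC hT he
  have hg := hL.gd
  have hk : ∀ q, kp q ⊆ (C q).Adm := fun q u hu => (hg q u hu).adm
  have := finite_pcs hF hk
  obtain ⟨Ξ, y, hP⟩ := prep_lam hF hk hL (fun q => (hC.2 q).1) hs
  obtain ⟨d, hI, hS⟩ := exists_skd2 hp1 hF hfc hfi hR hk hs hC hP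
  have hW : (1 + ∑ q, (C q).SumC (kp q) fun _ _ => 1) ≠ ⊤ :=
    ENNReal.add_ne_top.2 ⟨ENNReal.one_ne_top, ENNReal.sum_ne_top.2 fun q _ =>
      Det_W ((hF.ok q).adm_finite.subset (hk q))⟩
  have hB : 1 + ENNReal.ofReal (P.b ^ 3) ≠ ⊤ := by finiteness
  obtain ⟨G, hO⟩ := hT Ω K (Ξ ∘ f) (Pcs kp) d _ (ENNReal.div_ne_zero.2 ⟨he, hW⟩) hI
    (by rw [image_comp]; exact null_lip hP.lip hN)
  obtain ⟨ε, hε0, hε⟩ := K.exists_eps hF.opn (ENNReal.div_ne_zero.2 ⟨he, hB⟩)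
  obtain ⟨N, a, l, d1, d2, d3⟩ := Det_dat hF
  obtain ⟨G', g1, g2, g3, g4, g5⟩ := hcav Ω K ch G
    {σ | σ ∈ K.cel 3 ∧ ∀ q, ∀ u ∈ kp q, ¬ σ ⊆ (C q).Q u (C q).ρx} N a l ε hF.opn hO.ltp hO.inj
    (fun σ h => h.1) (fun σ h => d3 σ h.1) hε0
  have hE : ∀ q, (C q).EIn p Cc aK K ch (kp q) G G' ε := by
    intro q
    refine ⟨hk q, fun ⟨u, hu⟩ => (hg q u hu).ne, hO.ltp, g1, fun x hx => g3 x hx.1 fun k => ?_,
      fun u hu x hx => g3 x ((hF.fit q).sub (Det_Qq (hF.ok q) (hk q hu) hx)) fun k => ?_,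
      fun σ hσ hq hn => ?_, fun h2 u hu => ?_⟩
    · have k1 := hx.2
      rw [k.1.2] at k1
      omega
    · exact k.2 q u hu (Det_cel (hF.fit q) (hF.ok q) (hk q hu) hx)
    · obtain ⟨e1, e2, e3⟩ := d1 q σ hσ hq
      rw [← e1, ← e2, ← e3]
      refine g5 σ ⟨hσ, fun q' u hu k => ?_⟩
      obtain rfl := Det_uniq hF hσ hq (k.trans (Det_Qq (hF.ok q') (hk q' hu)))
      exact hn u hu k
    · have e1 : d.P ⟨(q, u), hu⟩ = (C q).pc u (y ⟨(q, u), hu⟩) := by rw [hS.eP]; rfl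
      have k := hO.rig ⟨(q, u), hu⟩ (by rw [e1]; exact h2)
      rw [e1, Cu.pc_ρx] at k
      rw [(hC.2 q).2.1]
      exact ⟨⟨_, k.1⟩, k.2⟩
  refine ⟨G', g1, g2, fun σ hσ z R h => QDet_sup hF.opn hs hO.ltp hO.inj hP.mv
    (fun x hx => hS.eθ ▸ hO.mv x hx) hσ (g4 σ hσ) h, ?_⟩
  have o1 : ∫⁻ x in Ω \ ⋃ q, (C q).q, ‖fderiv ℝ G' x‖ₑ ^ p ≤
      Cc * (SumO C K lam fun F => (ch F).E p G) +
        ∑' σ : {σ // σ ∈ K.cel 3 ∧ ∀ q, ¬ σ ⊆ (C q).q}, ε σ := by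
    rw [out_cells hF, SumO, ← ENNReal.tsum_mul_left, ← ENNReal.tsum_add]
    refine ENNReal.tsum_le_tsum fun σ => ?_
    obtain ⟨e1, e2, e3⟩ := d2 σ σ.2.2
    have k := g5 σ ⟨σ.2.1, fun q u hu k => σ.2.2 q (k.trans (Det_Qq (hF.ok q) (hk q hu)))⟩
    rw [e1, e2, e3, one_pow, one_mul, mul_assoc] at k
    rw [ENNReal.tsum_mul_left]
    exact k
  have o2 : ∑ q, ∫⁻ x in (C q).q, ‖fderiv ℝ (G' ∘ (C q).St) x - (C q).A‖ₑ ^ p ≤
      C0 * ((∑ q, (C q).SumF aK K (kp q) ((C q).S0 K) fun F => (ch F).E p G) +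
        (∑ q, (C q).SumE p (kp q) (edE p G)) + (∑ q, (C q).SumC (kp q) ((C q).ce p G)) +
        ENNReal.ofReal (P.b ^ 3) * (∑ q, ∑' σ : (C q).S0 K, ε σ) + (∑ q, (C q).rem p) +
        ∑ q, ‖(C q).A‖ₑ ^ p * (C q).unk (kp q)) := by
    simp only [Finset.mul_sum, ← Finset.sum_add_distrib]
    refine Finset.sum_le_sum fun q _ => ?_
    rw [← hF.par q]
    exact hloc (C q) aK Ω K ch w (kp q) G G' ε (hF.ok q) (hF.fit q) (hE q)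
  refine (add_le_add o2 o1).trans ?_
  simp only [Cu.XT, Finset.sum_add_distrib]
  refine Det_ar (Det_sk hF hS hO) ?_ ENNReal.mul_div_le ?_
  · rw [Finset.mul_sum, ← Finset.sum_add_distrib]
    exact Finset.sum_le_sum fun q _ => Det_chd hF hk hC hS hO q
  · exact (mul_le_mul_right ((sum_eps hF ε).trans hε) _).trans ENNReal.mul_div_le

end BEp
end
end
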