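import Pool.Agent.Work.MP_f0515e_an.P2.QLoop
import Pool.Agent.Work.MP_f0515e_an.P3.Vit
import Pool.Agent.Work.MP_f0515e_an.P2.QSide

-- merged part: Pool.Agent.Work.MP_f0515e_an.P2.QGS
section
-- merged part: Pool.Agent.Work.MP_f0515e_an.P2.QLn
section
/-! Lines. `ln_g`, `ln_vr`: `ACs.sub_le` on the segment from `update x i s` to `update x i s'` and the affine change of variables (see `Sel3_line`, `DetS_cv`); the case `s = s'` is trivial.
`ln_cs`: `ENNReal.lintegral_mul_le_Lp_mul_Lq` or `φ ≤ δ / 2 + φ ^ 2 / (2 δ)`. `ton2`, `ton3`: `volume_preserving_piFinSuccAbove`, Tonelli. `weak1`: `Vitali.exists_disjoint_subfamily_covering_enlargement_closedBall`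
(see `vit_count`). `weak2`: `v` is integrable on almost all lines, Tonelli. -/

open Set Metric Filter Topology Function BEv MeasureTheory
open scoped NNReal ENNReal

noncomputable section
namespace BEp

section
variable {S : Set (Rn 3)} {f : Rn 3 → Rn 3} {D : Rn 3 → Rn 3 →L[ℝ] Rn 3} {v : Rn 3 → ℝ≥0∞}

theorem QLn_cv {s s' : ℝ} (h : s < s') (g : ℝ → ℝ≥0∞) : ∫⁻ t in Icc s s', g t =
    ENNReal.ofReal (s' - s) * ∫⁻ t in Icc (0 : ℝ) 1, g (s + (s' - s) * t) := by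
  have p := sub_pos.2 h
  have e : (fun t : ℝ => s + (s' - s) * t) '' Icc 0 1 = Icc s s' := by
    ext t
    constructor
    · rintro ⟨u, hu, rfl⟩
      constructor <;> linarith only [h, hu, hu.1, hu.2, mul_nonneg_of_nonpos_of_nonpos (le_of_lt (Mathlib.Tactic.Linarith.sub_neg_of_lt h)) (Mathlib.Tactic.Linarith.sub_nonpos_of_le hu.left), mul_nonneg_of_nonpos_of_nonpos (le_of_lt (Mathlib.Tactic.Linarith.sub_neg_of_lt h)) (Mathlib.Tactic.Linarith.sub_nonpos_of_le hu.right)]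
    · intro ht
      refine ⟨(t - s) / (s' - s), ⟨div_nonneg (by linarith [ht.1]) p.le,
        (div_le_one p).2 (by linarith [ht.2])⟩, ?_⟩
      field_simp
      ring
  rw [← e, lintegral_image_eq_lintegral_abs_deriv_mul measurableSet_Icc (f' := fun _ => s' - s)
    (fun x _ => by
      simpa using (((hasDerivAt_id x).const_mul (s' - s)).const_add s).hasDerivWithinAt)
    (fun x _ y _ h => mul_left_cancel₀ p.ne' (add_left_cancel h)),
    abs_of_pos p, lintegral_const_mul' _ _ ENNReal.ofReal_ne_top]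

theorem QLn_seg (x : Rn 3) (i : Fin 3) (s s' t : ℝ) :
    seg (update x i s) (update x i s') t = update x i (s + (s' - s) * t) := by
  funext j
  by_cases e : j = i
  · subst e
    simp [seg, mul_comm]
  · simp [seg, e]

theorem QLn_int (x : Rn 3) (i : Fin 3) {s s' : ℝ} (h : s < s') (g : Rn 3 → ℝ≥0∞) :
    ‖update x i s' - update x i s‖ₑ * ∫⁻ t in Icc (0 : ℝ) 1,
      g (seg (update x i s) (update x i s') t) = ∫⁻ t in Icc s s', g (update x i t) := by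
  have e : update x i s' - update x i s = Pi.single i (s' - s) := by
    funext j
    by_cases e : j = i
    · subst e
      simp
    · simp [e]
  rw [QLn_cv h, e, ← ofReal_norm, Pi.norm_single, Real.norm_of_nonneg (sub_pos.2 h).le]
  simp only [QLn_seg]

theorem QLn_mem (x : Rn 3) (i : Fin 3) {s s' : ℝ} (h : s < s') {y : Rn 3} :
    y ∈ segment ℝ (update x i s) (update x i s') ↔ ∃ a ∈ Icc s s', update x i a = y := by
  have p := sub_pos.2 h
  rw [← seg_image]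
  refine ⟨fun ⟨u, hu, e⟩ => ⟨_, ⟨by linarith only [h, hu, hu.1, mul_nonneg_of_nonpos_of_nonpos (le_of_lt (Mathlib.Tactic.Linarith.sub_neg_of_lt h)) (Mathlib.Tactic.Linarith.sub_nonpos_of_le hu.left)], by nlinarith [hu.2]⟩,
    (QLn_seg x i s s' u).symm.trans e⟩, fun ⟨a, ha, e⟩ => ⟨(a - s) / (s' - s),
      ⟨div_nonneg (by linarith [ha.1]) p.le, (div_le_one p).2 (by linarith [ha.2])⟩, ?_⟩⟩
  rw [QLn_seg, mul_div_cancel₀ _ p.ne', add_sub_cancel, e]

theorem QLn_ac (hU : USeg S f D v) {x : Rn 3} {i : Fin 3} {s s' : ℝ} (h : s < s')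
    (hs : ∀ t ∈ Icc s s', update x i t ∈ S) (hv : ∫⁻ t in Icc s s', v (update x i t) ≠ ⊤) :
    ACs f D (update x i s) (update x i s') := by
  refine hU _ _ (fun y hy => ?_) fun e => hv ?_
  · obtain ⟨a, ha, rfl⟩ := (QLn_mem x i h).1 hy
    exact hs a ha
  · simp only [QLn_seg] at e
    rw [QLn_cv h, e, ENNReal.mul_top (by simpa using h)]

theorem ln_g (hU : USeg S f D v) (A : Rn 3 →L[ℝ] Rn 3) {x : Rn 3} {i : Fin 3} {s s' : ℝ}
    (h : s ≤ s') (hs : ∀ t ∈ Icc s s', update x i t ∈ S)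
    (hv : ∫⁻ t in Icc s s', v (update x i t) ≠ ⊤) :
    ‖f (update x i s') - f (update x i s) - A (update x i s' - update x i s)‖ₑ ≤
      ∫⁻ t in Icc s s', ‖D (update x i t) - A‖ₑ := by
  rcases h.eq_or_lt with rfl | h
  · simp
  have k := (QLn_ac hU h hs hv).sub_le A le_rfl zero_le_one le_rfl
  rw [QLn_int x i h fun y => ‖D y - A‖ₑ] at k
  simpa [QLn_seg] using k

theorem ln_vr (hU : USeg S f D v) (A : Rn 3 →L[ℝ] Rn 3) (y c : Rn 3) {x : Rn 3} {i : Fin 3}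
    {s s' a b : ℝ} (ha : a ∈ Icc s s') (hb : b ∈ Icc s s')
    (hs : ∀ t ∈ Icc s s', update x i t ∈ S) (hv : ∫⁻ t in Icc s s', v (update x i t) ≠ ⊤) :
    vr (fun z => f z - (y + A (z - c))) (update x i a) (update x i b) ≤
      ∫⁻ t in Icc s s', ‖D (update x i t) - A‖ₑ := by
  rcases (ha.1.trans ha.2).eq_or_lt with rfl | h
  · rw [le_antisymm ha.2 ha.1, le_antisymm hb.2 hb.1, vr, eVariationOn.constant_on]
    · exact zero_le
    · rintro _ ⟨t, -, rfl⟩ _ ⟨t', -, rfl⟩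
      simp [seg]
  simp only [add_comm y]
  exact ((QLn_ac hU h hs hv).vr_le A c y ((QLn_mem x i h).2 ⟨a, ha, rfl⟩)
    ((QLn_mem x i h).2 ⟨b, hb, rfl⟩)).trans_eq (QLn_int x i h fun y => ‖D y - A‖ₑ)

theorem ln_uga (hU : USeg S f D v) (A : Rn 3 →L[ℝ] Rn 3) (y c : Rn 3) (n : Fin 3) (h : ℝ)
    {U : Set (Rn 2)} (hs : ∀ ξ ∈ U, pl n h ξ ∈ S) :
    UgA U (fun ξ => f (pl n h ξ) - (y + A (pl n h ξ - c))) (fun ξ => v (pl n h ξ))
      fun ξ => ‖D (pl n h ξ) - A‖ₑ := by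
  intro ξ a s s' k hm hv
  simp only [pl_upd] at hv ⊢
  refine le_of_eq_of_le ?_ (ln_g hU A k (fun t ht => pl_upd n h ξ a t ▸ hs _ (hm t ht)) hv)
  congr 1
  simp only [map_sub]
  abel

theorem ln_uga0 (hU : USeg S f D v) (n : Fin 3) (h : ℝ) {U : Set (Rn 2)}
    (hs : ∀ ξ ∈ U, pl n h ξ ∈ S) :
    UgA U (fun ξ => f (pl n h ξ)) (fun ξ => v (pl n h ξ)) fun ξ => ‖D (pl n h ξ)‖ₑ := by
  simpa using ln_uga hU 0 0 0 n h hs

end

theorem UgA.lip {F F' : Type} [NormedAddCommGroup F] [NormedAddCommGroup F'] {U : Set (Rn 2)}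
    {k : Rn 2 → F} {k' : Rn 2 → F'} {v G : Rn 2 → ℝ≥0∞} (h : UgA U k v G)
    (e : ∀ ξ ∈ U, ∀ ξ' ∈ U, ‖k' ξ - k' ξ'‖ ≤ ‖k ξ - k ξ'‖) : UgA U k' v G := by
  intro ξ a s s' k hm hv
  refine le_trans ?_ (h ξ a s s' k hm hv)
  rw [← ofReal_norm, ← ofReal_norm]
  exact ENNReal.ofReal_le_ofReal (e _ (hm _ ⟨k, le_rfl⟩) _ (hm _ ⟨le_rfl, k⟩))

theorem ln_cs {φ : ℝ → ℝ≥0∞} (hφ : Measurable φ) {a b δ L : ℝ} (hδ : 0 < δ) (hL : 0 ≤ L)
    (hl : b - a ≤ L) (h : ∫⁻ t in Icc a b, φ t ^ 2 ≤ ENNReal.ofReal (δ ^ 2 * L)) :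
    ∫⁻ t in Icc a b, φ t ≤ ENNReal.ofReal (δ * L) := by
  have k : ∀ x : ℝ≥0∞, x ≤ ENNReal.ofReal (δ / 2) + ENNReal.ofReal (1 / (2 * δ)) * x ^ 2 := by
    intro x
    rcases eq_or_ne x ⊤ with rfl | e
    · rw [ENNReal.top_pow two_ne_zero, ENNReal.mul_top (by simpa using hδ), add_top]
    · rw [← ENNReal.ofReal_toReal e, ← ENNReal.ofReal_pow ENNReal.toReal_nonneg,
        ← ENNReal.ofReal_mul (by positivity), ← ENNReal.ofReal_add (by positivity) (by positivity)]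
      refine ENNReal.ofReal_le_ofReal ?_
      have : δ / 2 + 1 / (2 * δ) * x.toReal ^ 2 - x.toReal = (δ - x.toReal) ^ 2 / (2 * δ) := by
        field_simp
        ring
      have p : 0 ≤ (δ - x.toReal) ^ 2 / (2 * δ) := by positivity
      linarith only [this, p]
  refine (lintegral_mono fun t => k (φ t)).trans ?_
  rw [lintegral_add_left measurable_const, lintegral_const_mul _ (hφ.pow_const 2),
    setLIntegral_const, Real.volume_Icc]
  refine (add_le_add (mul_le_mul_right (ENNReal.ofReal_le_ofReal hl) _)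
    (mul_le_mul_right h _)).trans_eq ?_
  rw [← ENNReal.ofReal_mul (by positivity), ← ENNReal.ofReal_mul (by positivity),
    ← ENNReal.ofReal_add (by positivity) (by positivity)]
  congr 1
  field_simp
  ring

theorem QLn_ton {φ : Rn 2 → ℝ≥0∞} (hφ : Measurable φ) {a b : Fin 2} (hab : a ≠ b) (c : Rn 2) :
    ∫⁻ ξ, φ ξ = ∫⁻ s, ∫⁻ t, φ (update (update c b s) a t) := by
  have e : (Finset.univ : Finset (Fin 2)) = insert b {a} := by
    revert a b
    decide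
  rw [volume_pi, lintegral_eq_lmarginal_univ c, e,
    lmarginal_insert _ hφ (by simpa using hab.symm), lmarginal_singleton]

theorem ton2 {φ : Rn 2 → ℝ≥0∞} (hφ : Measurable φ) {a b : Fin 2} (hab : a ≠ b) (c : Rn 2) {R : ℝ}
    (hR : 0 ≤ R) : ∫⁻ ξ in closedBall c R, φ ξ = ∫⁻ s in Icc (c b - R) (c b + R),
      ∫⁻ t in Icc (c a - R) (c a + R), φ (update (update c b s) a t) := by
  have m : ∀ s t, update (update c b s) a t ∈ closedBall c R ↔
      s ∈ Icc (c b - R) (c b + R) ∧ t ∈ Icc (c a - R) (c a + R) := fun s t => by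
    have e : ∀ p : Fin 2 → Prop, (∀ j, p j) ↔ p b ∧ p a := fun p => by
      refine ⟨fun k => ⟨k b, k a⟩, fun k j => ?_⟩
      obtain rfl | rfl : j = b ∨ j = a := by omega
      exacts [k.1, k.2]
    rw [closedBall_pi c hR, mem_univ_pi, e, update_of_ne hab.symm, update_self, update_self,
      Real.closedBall_eq_Icc, Real.closedBall_eq_Icc]
  rw [← lintegral_indicator measurableSet_closedBall,
    QLn_ton (hφ.indicator measurableSet_closedBall) hab c, ← lintegral_indicator measurableSet_Icc]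
  refine lintegral_congr fun s => ?_
  by_cases k : s ∈ Icc (c b - R) (c b + R)
  · rw [indicator_of_mem k, ← lintegral_indicator measurableSet_Icc]
    refine lintegral_congr fun t => ?_
    by_cases l : t ∈ Icc (c a - R) (c a + R)
    · rw [indicator_of_mem l, indicator_of_mem ((m s t).2 ⟨k, l⟩)]
    · rw [indicator_of_notMem l, indicator_of_notMem fun e => l ((m s t).1 e).2]
  · rw [indicator_of_notMem k]
    exact (lintegral_congr fun t => indicator_of_notMem (fun e => k ((m s t).1 e).1) _).trans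
      lintegral_zero

theorem ton3 {φ : Rn 3 → ℝ≥0∞} (hφ : Measurable φ) (n : Fin 3) (c : Rn 3) {R : ℝ} (hR : 0 ≤ R) :
    ∫⁻ y in closedBall c R, φ y =
      ∫⁻ ξ in closedBall (pq n c) R, ∫⁻ t in Icc (c n - R) (c n + R), φ (pl n t ξ) := by
  have m : ∀ t ξ, pl n t ξ ∈ closedBall c R ↔
      ξ ∈ closedBall (pq n c) R ∧ t ∈ Icc (c n - R) (c n + R) := fun t ξ => by
    nth_rw 1 [← pl_pq n c]
    rw [mem_closedBall_iff_norm, pl_norm, max_le_iff, mem_closedBall_iff_norm,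
      ← Real.closedBall_eq_Icc, mem_closedBall, Real.dist_eq, and_comm]
  have mp := (volume_preserving_piFinSuccAbove (fun _ : Fin 3 => ℝ) n).symm
  have hF := hφ.indicator (measurableSet_closedBall (x := c) (ε := R))
  rw [← lintegral_indicator measurableSet_closedBall, ← mp.lintegral_comp hF, Measure.volume_eq_prod,
    lintegral_prod_symm' _ (hF.fun_comp mp.measurable),
    ← lintegral_indicator measurableSet_closedBall]
  refine lintegral_congr fun ξ => ?_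
  change ∫⁻ t, (closedBall c R).indicator φ (pl n t ξ) = _
  by_cases k : ξ ∈ closedBall (pq n c) R
  · rw [indicator_of_mem k, ← lintegral_indicator measurableSet_Icc]
    refine lintegral_congr fun t => ?_
    by_cases l : t ∈ Icc (c n - R) (c n + R)
    · rw [indicator_of_mem l, indicator_of_mem ((m t ξ).2 ⟨k, l⟩)]
    · rw [indicator_of_notMem l, indicator_of_notMem fun e => l ((m t ξ).1 e).2]
  · rw [indicator_of_notMem k]
    exact (lintegral_congr fun t => indicator_of_notMem (fun e => k ((m t ξ).1 e).1) _).trans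
      lintegral_zero

theorem weak1 {ψ : ℝ → ℝ≥0∞} {U : Set ℝ} {lam : ℝ≥0∞} {ρ : ℝ} (h : ∀ x ∈ U, ∃ d, 0 < d ∧ d ≤ ρ ∧
    lam * ENNReal.ofReal d ≤ ∫⁻ t in Icc (x - d) (x + d), ψ t) :
    lam * volume U ≤ 10 * ∫⁻ t, ψ t := by
  choose! r r0 r1 h using h
  obtain ⟨u, hu, hd, hc⟩ := Vitali.exists_disjoint_subfamily_covering_enlargement_closedBall
    U id r ρ r1 5 (by norm_num)
  have hcount : u.Countable := hd.countable_of_nonempty_interior fun y hy =>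
    ⟨y, ball_subset_interior_closedBall (mem_ball_self (r0 y (hu hy)))⟩
  have h1 : U ⊆ ⋃ b ∈ u, closedBall b (5 * r b) := fun y hy => by
    obtain ⟨b, hb, e⟩ := hc y hy
    exact mem_biUnion hb (e (mem_closedBall_self (r0 y hy).le))
  have h2 : ∀ b : u, lam * volume (closedBall b.1 (5 * r b)) ≤
      10 * ∫⁻ x in closedBall b.1 (r b), ψ x := by
    rintro ⟨b, hb⟩
    rw [Real.volume_closedBall, show 2 * (5 * r b) = 10 * r b by ring,
      ENNReal.ofReal_mul (by norm_num), mul_left_comm, ENNReal.ofReal_ofNat, Real.closedBall_eq_Icc]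
    exact mul_le_mul_right (h b (hu hb)) _
  calc lam * volume U ≤ lam * ∑' b : u, volume (closedBall b.1 (5 * r b)) :=
        mul_le_mul_right ((measure_mono h1).trans (measure_biUnion_le _ hcount _)) _
    _ ≤ 10 * ∑' b : u, ∫⁻ x in closedBall b.1 (r b), ψ x := by
        rw [← ENNReal.tsum_mul_left, ← ENNReal.tsum_mul_left]
        exact ENNReal.tsum_le_tsum h2
    _ ≤ _ := by
        refine mul_le_mul_right ?_ _
        exact (lintegral_biUnion hcount (fun _ _ => measurableSet_closedBall) hd ψ).ge.trans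
          (setLIntegral_le_lintegral _ _)

theorem weak2 {ψ v : Rn 2 → ℝ≥0∞} (hψ : Measurable ψ) (hv : Measurable v) (hi : ∫⁻ ξ, v ξ ≠ ⊤)
    {U : Set (Rn 2)} (hU : MeasurableSet U) (a : Fin 2) {lam : ℝ≥0∞} {ρ : ℝ}
    (h : ∀ ξ ∈ U, ∫⁻ t, v (update ξ a t) ≠ ⊤ → ∃ d, 0 < d ∧ d ≤ ρ ∧
      lam * ENNReal.ofReal d ≤ ∫⁻ t in Icc (ξ a - d) (ξ a + d), ψ (update ξ a t)) :
    lam * volume U ≤ 10 * ∫⁻ ξ, ψ ξ := by
  obtain ⟨b, hab⟩ := exists_ne a
  have cγ : Continuous fun p : ℝ × ℝ => update (update (0 : Rn 2) b p.1) a p.2 := by fun_prop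
  rw [QLn_ton hv hab.symm 0] at hi
  rw [← lintegral_indicator_one hU, QLn_ton (measurable_one.indicator hU) hab.symm 0,
    QLn_ton hψ hab.symm 0, ← lintegral_const_mul' _ _ ENNReal.ofNat_ne_top]
  refine (lintegral_const_mul_le _ _).trans (lintegral_mono_ae ?_)
  filter_upwards [ae_lt_top (hv.comp cγ.measurable).lintegral_prod_right' hi] with s hs
  have m : MeasurableSet {t | update (update (0 : Rn 2) b s) a t ∈ U} :=
    (cγ.comp (Continuous.prodMk_right s)).measurable hU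
  refine le_of_eq_of_le (congrArg _ (lintegral_indicator_one m)) (weak1 (ρ := ρ) fun t ht => ?_)
  simpa only [update_idem, update_self] using h _ ht (by simpa only [update_idem, comp] using hs.ne)

end BEp
end
end

-- merged part: Pool.Agent.Work.MP_f0515e_an.P2.QG1
section
/-! Edges and rays. `mx_step`: `M1` at `x` with `R = max (t0 / 2) |t - x i|`, `ln_cs`, `ln_g` (the line lies in `Q u Rm ⊆ q`, `sk_Rm`). `ed`: `sk_edge`, the point `update a j (ctr u j)` lies in `Gp u`, `ln_vr`.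
`c1`: `sk_one`; go from the centre to `x` changing one coordinate at a time, the coordinate `j` last (at most three steps, each at most `dl * t0`, `Nm.dτ`). -/

open Set Metric Filter Topology Function BEv MeasureTheory
open scoped NNReal ENNReal

noncomputable section
namespace BEp

variable {C : Cu} {aK : ℝ} {Ω : Set (Rn 3)} {K : Kx Ω} {ch : Set (Rn 3) → Ch} {w : Set (Rn 3) → ℝ}
  {f : Rn 3 → Rn 3} {D : Rn 3 → Rn 3 →L[ℝ] Rn 3} {v : Rn 3 → ℝ≥0∞} {u u' : I3 × I3}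

theorem mx_ctr (h : C.Ok aK) (hu : u ∈ C.Adm) : C.ctr u ∈ C.Gp u := by
  refine ⟨⟨fun _ _ => rfl, fun i _ => ?_⟩, (h.Q_sub hu).2.2.2⟩
  show |C.ctr u i - C.ctr u i| ≤ _
  rw [sub_self, abs_zero]
  linarith [h.nm.t0]

theorem QG1_Rm (h : C.Ok aK) : C.t0 / 2 ≤ C.Rm := by
  have n := h.nm
  unfold Cu.Rm
  linarith only [n, n.ρ1, n.t0]

theorem QG1_line (h : C.Ok aK) (hu : u ∈ C.Adm) (hD : Measurable D) (hm : C.Mx D v u) {i : Fin 3}
    (hi : i ∈ C.I) {x : Rn 3} (hx : x ∈ C.Gp u) (e : x i = C.ctr u i) {R : ℝ}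
    (hR : R ∈ Icc (C.t0 / 2) C.Rm) : (∀ t ∈ Icc (x i - R) (x i + R), update x i t ∈ C.q) ∧
      ∫⁻ t in Icc (x i - R) (x i + R), v (update x i t) ≠ ⊤ ∧
      ∫⁻ t in Icc (x i - R) (x i + R), ‖D (update x i t) - C.A‖ₑ ≤
        ENNReal.ofReal (C.dl * (2 * R)) := by
  have n := h.nm
  have t0 := n.t0
  obtain ⟨m1, m2⟩ := hm.m1 i hi x hx e
  refine ⟨fun t ht => ball_subset_closedBall ((sk_Rm h hu).2 (QSk_upd
    ⟨hx.1.1, fun j hj => (hx.1.2 j hj).trans (QG1_Rm h)⟩ (Or.inr ⟨hi, ?_⟩)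
    (by linarith only [t0, h, QG1_Rm h]))), ne_top_of_le_ne_top m1 (lintegral_mono_set
      (Icc_subset_Icc (by linarith [hR.2]) (by linarith [hR.2]))), ln_cs
    ((hD.comp (measurable_update x)).sub_const _).enorm n.dl0 (by linarith [hR.1]) (by linarith)
      (m2 R hR)⟩
  rw [← e, abs_le]
  exact ⟨by linarith [ht.1, hR.2], by linarith [ht.2, hR.2]⟩

theorem mx_step (h : C.Ok aK) (hu : u ∈ C.Adm) (hD : Measurable D) (hU : USeg C.q f D v)
    (hm : C.Mx D v u) {i : Fin 3} (hi : i ∈ C.I) {x : Rn 3} (hx : x ∈ C.Gp u)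
    (e : x i = C.ctr u i) {t : ℝ} (ht : |t - x i| ≤ C.Rm) :
    ‖f (update x i t) - f x - C.A (update x i t - x)‖ ≤ C.dl * max C.t0 (2 * |t - x i|) := by
  have n := h.nm
  have t0 := n.t0
  obtain ⟨l1, l2, l3⟩ := QG1_line h hu hD hm hi hx e (R := max (C.t0 / 2) |t - x i|)
    ⟨le_max_left _ _, max_le (QG1_Rm h) ht⟩
  have r1 := le_max_left (C.t0 / 2) |t - x i|
  have r2 := abs_le.1 (le_max_right (C.t0 / 2) |t - x i|)
  have e2 : max C.t0 (2 * |t - x i|) = 2 * max (C.t0 / 2) |t - x i| := by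
    rw [mul_max_of_nonneg _ _ zero_le_two, mul_div_cancel₀ _ two_ne_zero]
  rw [e2]
  generalize max (C.t0 / 2) |t - x i| = R at *
  have K : ∀ a b, x i - R ≤ a → a ≤ b → b ≤ x i + R → ‖f (update x i b) - f (update x i a) -
      C.A (update x i b - update x i a)‖ ≤ C.dl * (2 * R) := fun a b k1 k2 k3 => by
    have s := Icc_subset_Icc k1 k3
    rw [← ENNReal.ofReal_le_ofReal_iff (mul_nonneg n.dl0.le (by linarith only [t0, r1])), ofReal_norm]
    exact ((ln_g hU C.A k2 (fun t ht => l1 t (s ht))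
      (ne_top_of_le_ne_top l2 (lintegral_mono_set s))).trans (lintegral_mono_set s)).trans l3
  rcases le_total t (x i) with k | k
  · have := K t (x i) (by linarith) k (by linarith)
    rw [update_eq_self, ← norm_neg] at this
    refine le_of_eq_of_le (congrArg _ ?_) this
    rw [map_sub, map_sub]
    abel
  · have := K (x i) t (by linarith only [t0, r1]) k (by linarith)
    rwa [update_eq_self] at this

theorem mx_ray (h : C.Ok aK) (hu : u ∈ C.Adm) (hD : Measurable D) (hU : USeg C.q f D v)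
    (hm : C.Mx D v u) {i : Fin 3} (hi : i ∈ C.I) {t : ℝ} (ht : |t| ≤ C.Rm) :
    ‖f (C.ctr u + t • (Pi.single i 1 : Rn 3)) - C.aff0 f u (C.ctr u + t • (Pi.single i 1 : Rn 3))‖ ≤
      C.τ / C.t0 * max C.t0 |t| := by
  have n := h.nm
  have t0 := n.t0
  have e : C.ctr u + t • (Pi.single i 1 : Rn 3) = update (C.ctr u) i (C.ctr u i + t) := by
    funext j
    by_cases k : j = i
    · simp [k]
    · simp [k]
  have := mx_step h hu hD hU hm hi (mx_ctr h hu) rfl (t := C.ctr u i + t) (by simpa using ht)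
  rw [e, Cu.aff0, ← sub_sub]
  refine this.trans ?_
  rw [add_sub_cancel_left]
  have k1 : 2 * C.dl ≤ C.τ / C.t0 := (le_div_iff₀ t0).2 (by linarith only [n, t0, n.dτ, n.dl0, mul_pos_of_neg_of_neg (Mathlib.Tactic.Linarith.sub_neg_of_lt t0) (Mathlib.Tactic.Linarith.sub_neg_of_lt n.dl0)])
  have k2 : max C.t0 (2 * |t|) ≤ 2 * max C.t0 |t| :=
    max_le (by linarith [le_max_left C.t0 |t|]) (by linarith [le_max_right C.t0 |t|])
  calc _ ≤ C.dl * (2 * max C.t0 |t|) := mul_le_mul_of_nonneg_left k2 n.dl0.le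
    _ = 2 * C.dl * max C.t0 |t| := by ring
    _ ≤ _ := mul_le_mul_of_nonneg_right k1 (t0.le.trans (le_max_left _ _))

theorem mx_g1 (hf : C.Fit aK K ch w) (h : C.Ok aK) (hu : u ∈ C.Adm) (hD : Measurable D)
    (hU : USeg C.q f D v) (hm : C.Mx D v u) : C.G1 K f u := by
  have n := h.nm
  have t0 := n.t0
  have d0 := mul_pos n.dl0 t0
  have dτ := n.dτ
  refine ⟨fun a b he ha hb => ?_, fun x hx => ?_, fun i hi t ht => mx_ray h hu hD hU hm hi ht⟩
  · obtain ⟨j, hj, k⟩ := sk_edge hf h hu he ha hb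
    have g : update a j (C.ctr u j) ∈ C.Gp u := ⟨QSk_upd ha (Or.inl rfl) (by linarith), fun i => by
      by_cases q : i = j
      · rw [q, update_self]
        exact (mx_ctr h hu).2 j
      · rw [update_of_ne q]
        exact (k i q).1⟩
    obtain ⟨l1, l2, l3⟩ := QG1_line h hu hD hm hj g (update_self ..) ⟨le_rfl, QG1_Rm h⟩
    have a1 : |a j - C.ctr u j| ≤ C.t0 / 2 := ha.2 j hj
    have b1 : |b j - C.ctr u j| ≤ C.t0 / 2 := hb.2 j hj
    rw [abs_le] at a1 b1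
    have := ln_vr hU C.A (f (C.ctr u)) (C.ctr u) (a := a j) (b := b j)
      (by rw [update_self]; constructor <;> linarith only [a1])
      (by rw [update_self]; constructor <;> linarith only [b1]) l1 l2
    have eb : update a j (b j) = b := funext fun i => by
      by_cases q : i = j
      · rw [q, update_self]
      · rw [update_of_ne q, (k i q).2]
    rw [update_idem, update_idem, update_eq_self, eb] at this
    exact (this.trans l3).trans (ENNReal.ofReal_le_ofReal (by linarith only [d0, dτ]))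
  · obtain ⟨j, hj, k⟩ := sk_one hf h hu
      ⟨hx.1, hx.2.1, fun i hi => (hx.2.2 i hi).trans (QG1_Rm h)⟩
    have st : ∀ z ∈ C.Gp u, ∀ i, z i = C.ctr u i → update z i (x i) ∈ C.Q u (C.t0 / 2) ∧
        ‖f (update z i (x i)) - C.aff0 f u (update z i (x i))‖ ≤
          ‖f z - C.aff0 f u z‖ + C.dl * C.t0 := fun z hz i e => by
      by_cases hi : i ∈ C.I
      · have a1 : |x i - C.ctr u i| ≤ C.t0 / 2 := hx.2.2 i hi
        have := mx_step h hu hD hU hm hi hz e (t := x i) (e ▸ a1.trans (QG1_Rm h))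
        rw [e, max_eq_left (by linarith)] at this
        refine ⟨QSk_upd hz.1 (Or.inr ⟨hi, a1⟩) (by linarith), le_trans (le_of_eq_of_le
          (congrArg _ ?_) (norm_add_le _ _)) (add_le_add_right this _)⟩
        simp only [Cu.aff0, map_sub]
        abel
      · have a1 : x i = z i := (hx.2.1 i hi).trans e.symm
        rw [a1, update_eq_self]
        exact ⟨hz.1, by linarith⟩
    have ind : ∀ S : Finset (Fin 3), j ∉ S → S.piecewise x (C.ctr u) ∈ C.Gp u ∧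
        ‖f (S.piecewise x (C.ctr u)) - C.aff0 f u (S.piecewise x (C.ctr u))‖ ≤
          S.card * (C.dl * C.t0) := fun S => by
      induction S using Finset.induction_on with
      | empty => exact fun _ => ⟨mx_ctr h hu, by simp [Cu.aff0]⟩
      | insert i S hi ih =>
        intro q
        obtain ⟨q1, q2⟩ := not_or.1 (mt Finset.mem_insert.2 q)
        obtain ⟨i1, i2⟩ := ih q2
        obtain ⟨s1, s2⟩ := st _ i1 i (S.piecewise_eq_of_notMem _ _ hi)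
        rw [Finset.piecewise_insert, Finset.card_insert_of_notMem hi, Nat.cast_succ]
        refine ⟨⟨s1, fun l => ?_⟩, by linarith⟩
        by_cases w : l = i
        · rw [w, update_self]
          exact k i (Ne.symm q1)
        · rw [update_of_ne w]
          exact i1.2 l
    obtain ⟨i1, i2⟩ := ind (Finset.univ.erase j) (Finset.notMem_erase _ _)
    have s2 := (st _ i1 j (Finset.piecewise_eq_of_notMem _ _ _ (Finset.notMem_erase _ _))).2
    rw [← Finset.piecewise_insert, Finset.insert_erase (Finset.mem_univ j),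
      Finset.piecewise_univ] at s2
    rw [Finset.card_erase_of_mem (Finset.mem_univ j), Finset.card_fin,
      show ((3 - 1 : ℕ) : ℝ) = 2 by norm_num] at i2
    linarith

end BEp
end
end

-- merged part: Pool.Agent.Work.MP_f0515e_an.P2.QRl
section
/-! Neighbouring tiles. `R = ‖c' - c‖ ≥ t0` (`tile_sep`; trivial if `u = u'`), it suffices to bound `g c' - g c`, `g = f - A`, by `1000 dl R` (`Nm.dτ`). Two directions `i, j` (normal `n`): path `c → (a, c j) → (a, c' j) → c'` with `|a - c i| ≤ R / 2`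
chosen by `ton2` and `M2` at `c` with radius `R` (`exists_notMem_null_le_laverage` or `sel_t`-like averaging, `v` integrable on the line), `mx_step` for `u` and for `u'` (`3 R / 2 ≤ Rm`).
Three directions: path `c → (a, c 1, c 2) → (a, b, c 2) → (a, b, c' 2) → (a, c' 1, c' 2) → c'`, with `(a, b)` within `R / 2` of `(c 0, c 1)` chosen by averaging the sum of the three line integrals
(`M2` at `c` with radius `R`, `M3` at `c` with radius `R` and `ton3`, `M2` at `c'` with radius `3 R / 2`): the sum is at most `21 dl² R`. Each segment costs at most `6 dl R` (`ln_cs`, `ln_g`). -/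

open Set Metric Filter Topology Function BEv MeasureTheory
open scoped NNReal ENNReal

noncomputable section
namespace BEp

variable {C : Cu} {aK : ℝ} {Ω : Set (Rn 3)} {K : Kx Ω} {ch : Set (Rn 3) → Ch} {w : Set (Rn 3) → ℝ}
  {f : Rn 3 → Rn 3} {D : Rn 3 → Rn 3 →L[ℝ] Rn 3} {v : Rn 3 → ℝ≥0∞} {u u' : I3 × I3}

theorem QRl_sel {Ψ V : ℝ → ℝ≥0∞} (hΨ : Measurable Ψ) (hV : Measurable V) {p R c : ℝ} (hR : 0 < R)
    (h : ∫⁻ s in Icc (p - R / 2) (p + R / 2), Ψ s ≤ ENNReal.ofReal (c * R))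
    (hv : ∫⁻ s in Icc (p - R / 2) (p + R / 2), V s ≠ ⊤) :
    ∃ s, |s - p| ≤ R / 2 ∧ V s ≠ ⊤ ∧ Ψ s ≤ ENNReal.ofReal c := by
  have e : volume (Icc (p - R / 2) (p + R / 2)) = ENNReal.ofReal R := by
    rw [Real.volume_Icc]
    congr 1
    ring
  have h0 : volume (Icc (p - R / 2) (p + R / 2)) ≠ 0 := by
    rw [e]
    exact (ENNReal.ofReal_pos.2 hR).ne'
  obtain ⟨t, ht, k⟩ := exists_notMem_null_le_laverage
    (μ := volume.restrict (Icc (p - R / 2) (p + R / 2))) (by simpa using hR) hΨ.aemeasurable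
    (ae_iff.1 ((ae_restrict_mem measurableSet_Icc).and (ae_lt_top hV hv)))
  replace ht := not_not.1 ht
  refine ⟨t, abs_le.2 ⟨by linarith only [ht, ht.1.1], by linarith [ht.1.2]⟩, ht.2.ne, k.trans ?_⟩
  rw [laverage_eq, Measure.restrict_apply_univ, e]
  exact ENNReal.div_le_of_le_mul (h.trans_eq (ENNReal.ofReal_mul' hR.le))

theorem QRl_sel3 {Ψ₁ Ψ₂ Ψ₃ V₁ V₂ V₃ : ℝ → ℝ≥0∞} (A1 : Measurable Ψ₁) (A2 : Measurable Ψ₂)
    (A3 : Measurable Ψ₃) (B1 : Measurable V₁) (B2 : Measurable V₂) (B3 : Measurable V₃)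
    {p R d : ℝ} (hR : 0 < R)
    (h1 : ∫⁻ s in Icc (p - R / 2) (p + R / 2), Ψ₁ s ≤ ENNReal.ofReal (d ^ 2 * (2 * R) ^ 2))
    (h2 : ∫⁻ s in Icc (p - R / 2) (p + R / 2), Ψ₂ s ≤
      ENNReal.ofReal (d ^ 2 * (2 * (3 * R / 2)) ^ 2))
    (h3 : ∫⁻ s in Icc (p - R / 2) (p + R / 2), Ψ₃ s ≤ ENNReal.ofReal (d ^ 2 * (2 * R) ^ 3))
    (v1 : ∫⁻ s in Icc (p - R / 2) (p + R / 2), V₁ s ≠ ⊤)
    (v2 : ∫⁻ s in Icc (p - R / 2) (p + R / 2), V₂ s ≠ ⊤)
    (v3 : ∫⁻ s in Icc (p - R / 2) (p + R / 2), V₃ s ≠ ⊤) :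
    ∃ s, |s - p| ≤ R / 2 ∧ V₁ s ≠ ⊤ ∧ V₂ s ≠ ⊤ ∧ V₃ s ≠ ⊤ ∧
      Ψ₁ s ≤ ENNReal.ofReal ((3 * d) ^ 2 * (3 * R)) ∧ Ψ₂ s ≤ ENNReal.ofReal ((3 * d) ^ 2 * (3 * R)) ∧
      Ψ₃ s ≤ ENNReal.ofReal ((3 * d) ^ 2 * (3 * R) * R) := by
  have A4 : Measurable fun s => Ψ₁ s + Ψ₂ s := A1.add A2
  have B4 : Measurable fun s => V₁ s + V₂ s := B1.add B2
  obtain ⟨a, a1, a2, a3⟩ := QRl_sel (Ψ := fun s => ENNReal.ofReal R * (Ψ₁ s + Ψ₂ s) + Ψ₃ s)
    (V := fun s => V₁ s + V₂ s + V₃ s) ((A4.const_mul _).add A3) (B4.add B3) hR (p := p)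
    (c := (3 * d) ^ 2 * (3 * R) * R)
    (by
      rw [lintegral_add_right _ A3, lintegral_const_mul _ A4, lintegral_add_right _ A2]
      refine (add_le_add (mul_le_mul' le_rfl (add_le_add h1 h2)) h3).trans ?_
      rw [← ENNReal.ofReal_add (by positivity) (by positivity), ← ENNReal.ofReal_mul hR.le,
        ← ENNReal.ofReal_add (by positivity) (by positivity)]
      refine ENNReal.ofReal_le_ofReal ?_
      have : 0 ≤ d ^ 2 * R ^ 3 := by positivity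
      linarith only [this])
    (by
      rw [lintegral_add_right _ B3, lintegral_add_right _ B2]
      exact ENNReal.add_ne_top.2 ⟨ENNReal.add_ne_top.2 ⟨v1, v2⟩, v3⟩)
  obtain ⟨⟨w1, w2⟩, w3⟩ := (ENNReal.add_ne_top.1 a2).imp_left ENNReal.add_ne_top.1
  have a4 := le_self_add.trans a3
  rw [ENNReal.ofReal_mul' hR.le, mul_comm _ (ENNReal.ofReal R),
    ENNReal.mul_le_mul_iff_right (ENNReal.ofReal_pos.2 hR).ne' ENNReal.ofReal_ne_top] at a4
  exact ⟨a, a1, w1, w2, w3, le_self_add.trans a4, le_add_self.trans a4, le_add_self.trans a3⟩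

theorem QRl_sub {Ψ : ℝ → ℝ≥0∞} {p p' R r : ℝ} (h : |p - p'| + R / 2 ≤ r) :
    ∫⁻ s in Icc (p - R / 2) (p + R / 2), Ψ s ≤ ∫⁻ s in Icc (p' - r) (p' + r), Ψ s :=
  lintegral_mono_set (Icc_subset_Icc (by linarith only [h, neg_abs_le (p - p')])
    (by linarith [le_abs_self (p - p')]))

theorem QRl_m1 {ψ : Rn 3 → ℝ≥0∞} (hψ : Measurable ψ) (x : Rn 3) (i j : Fin 3) (T : Set ℝ) :
    Measurable fun s => ∫⁻ t in T, ψ (update (update x i s) j t) :=
  Measurable.lintegral_prod_right' (f := fun p : ℝ × ℝ => ψ (update (update x i p.1) j p.2))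
    (hψ.comp ((continuous_const.update i continuous_fst).update j continuous_snd).measurable)

theorem QRl_m0 {ψ : Rn 3 → ℝ≥0∞} (hψ : Measurable ψ) (n : Fin 3) (T : Set ℝ) :
    Measurable fun y : Rn 3 => ∫⁻ t in T, ψ (update y n t) :=
  Measurable.lintegral_prod_right' (f := fun p : Rn 3 × ℝ => ψ (update p.1 n p.2))
    (hψ.comp (continuous_fst.update n continuous_snd).measurable)

theorem QRl_pl (n : Fin 3) (h : ℝ) : Measurable (pl n h) :=
  (Continuous.finInsertNth (A := fun _ : Fin 3 => ℝ) n continuous_const continuous_id).measurable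

theorem QRl_t2 {ψ : Rn 3 → ℝ≥0∞} (hψ : Measurable ψ) (n : Fin 3) (x : Rn 3) {r : ℝ} (hr : 0 ≤ r) :
    ∫⁻ ξ in closedBall (pq n x) r, ψ (pl n (x n) ξ) =
      ∫⁻ s in Icc (x (n.succAbove 0) - r) (x (n.succAbove 0) + r),
        ∫⁻ t in Icc (x (n.succAbove 1) - r) (x (n.succAbove 1) + r),
          ψ (update (update x (n.succAbove 0) s) (n.succAbove 1) t) := by
  rw [ton2 (φ := fun ξ => ψ (pl n (x n) ξ)) (hψ.comp (QRl_pl n _)) (a := 1) (b := 0) (by decide)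
    (pq n x) hr]
  simp only [pl_upd, pl_pq, pq]

theorem QRl_t3 {ψ : Rn 3 → ℝ≥0∞} (hψ : Measurable ψ) (n : Fin 3) (x : Rn 3) {r : ℝ} (hr : 0 ≤ r) :
    ∫⁻ y in closedBall x r, ψ y =
      ∫⁻ s in Icc (x (n.succAbove 0) - r) (x (n.succAbove 0) + r),
        ∫⁻ t in Icc (x (n.succAbove 1) - r) (x (n.succAbove 1) + r),
          ∫⁻ z in Icc (x n - r) (x n + r),
            ψ (update (update (update x (n.succAbove 0) s) (n.succAbove 1) t) n z) := by
  rw [ton3 hψ n x hr, ← QRl_t2 (QRl_m0 hψ n (Icc (x n - r) (x n + r))) n x hr]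
  refine lintegral_congr fun ξ => lintegral_congr fun z => congrArg ψ ?_
  refine QBas_ext n ?_ fun a => ?_
  · rw [pl_n, update_self]
  · rw [update_of_ne (Fin.succAbove_ne n a), pl_a, pl_a]

theorem QRl_line (hU : USeg C.q f D v) (hD : Measurable D) {x : Rn 3} {i : Fin 3}
    {p r s s' δ L : ℝ} (hs : |s - p| ≤ r) (hs' : |s' - p| ≤ r)
    (hq : ∀ t, |t - p| ≤ r → update x i t ∈ C.q)
    (hv : ∫⁻ t in Icc (p - r) (p + r), v (update x i t) ≠ ⊤) (hδ : 0 < δ) (hL : 2 * r ≤ L)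
    (h : ∫⁻ t in Icc (p - r) (p + r), ‖D (update x i t) - C.A‖ₑ ^ 2 ≤
      ENNReal.ofReal (δ ^ 2 * L)) :
    ‖(f (update x i s') - C.A (update x i s')) - (f (update x i s) - C.A (update x i s))‖ ≤
      δ * L := by
  wlog hle : s ≤ s' generalizing s s'
  · rw [norm_sub_rev]
    exact this hs' hs (le_of_not_ge hle)
  have r0 : 0 ≤ r := (abs_nonneg _).trans hs
  have hsub : Icc s s' ⊆ Icc (p - r) (p + r) :=
    Icc_subset_Icc (by linarith [(abs_le.1 hs).1]) (by linarith [(abs_le.1 hs').2])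
  have h1 := ln_g hU C.A hle
    (fun t ht => hq t (abs_le.2 ⟨by linarith [(hsub ht).1], by linarith [(hsub ht).2]⟩))
    (ne_top_of_le_ne_top hv (lintegral_mono_set hsub))
  have h2 := ln_cs (φ := fun t => ‖D (update x i t) - C.A‖ₑ)
    ((hD.comp (continuous_const.update i continuous_id).measurable).sub_const _).enorm hδ
    (by linarith) (by linarith) h
  have h3 := (h1.trans (lintegral_mono_set hsub)).trans h2
  rw [← ofReal_norm, ENNReal.ofReal_le_ofReal_iff (mul_nonneg hδ.le (by linarith)),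
    map_sub] at h3
  refine le_of_eq_of_le (congrArg _ ?_) h3
  abel

theorem QRl_ctr (u : I3 × I3) {R : ℝ} (hR : 0 ≤ R) : C.ctr u ∈ C.Q u R :=
  ⟨fun _ _ => rfl, fun i _ => by
    change |C.ctr u i - C.ctr u i| ≤ R
    rwa [sub_self, abs_zero]⟩

theorem QRl_q (h : C.Ok aK) (hu : u ∈ C.Adm) {x : Rn 3} (hx : x ∈ C.Q u C.Rm) : x ∈ C.q :=
  ball_subset_closedBall ((sk_Rm h hu).2 hx)

theorem QRl_step (h : C.Ok aK) (hu : u ∈ C.Adm) (hD : Measurable D) (hU : USeg C.q f D v)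
    (hm : C.Mx D v u) {i : Fin 3} (hi : i ∈ C.I) {a R : ℝ} (hR : C.t0 ≤ R) (hR2 : R ≤ 2 * C.ρ')
    (ha : |a - C.ctr u i| ≤ 3 * R / 2) :
    ‖(f (update (C.ctr u) i a) - C.A (update (C.ctr u) i a)) - (f (C.ctr u) - C.A (C.ctr u))‖ ≤
      C.dl * (3 * R) := by
  have t0 := h.nm.t0
  have h1 := mx_step h hu hD hU hm hi (mx_ctr h hu) rfl (t := a)
    (by unfold Cu.Rm; linarith only [hR2, ha, t0])
  rw [map_sub] at h1
  refine le_of_eq_of_le (congrArg _ ?_) (h1.trans (mul_le_mul_of_nonneg_left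
    (max_le (by linarith) (by linarith)) h.nm.dl0.le))
  abel

theorem QRl_fin (h : C.Ok aK)
    (H : ‖(f (C.ctr u') - C.A (C.ctr u')) - (f (C.ctr u) - C.A (C.ctr u))‖ ≤
      1000 * C.dl * ‖C.ctr u' - C.ctr u‖) : C.Rl f u u' := by
  have h1 : 1000 * C.dl ≤ C.τ / C.t0 := by
    rw [le_div_iff₀ h.nm.t0]
    linarith [h.nm.dτ]
  unfold Cu.Rl Cu.aff0
  rw [map_sub]
  refine le_of_eq_of_le (congrArg _ ?_) (H.trans (mul_le_mul_of_nonneg_right h1 (norm_nonneg _)))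
  abel

theorem QRl_self : C.Rl f u u := by simp [Cu.Rl, Cu.aff0]

theorem QRl_sq (hD : Measurable D) : Measurable fun y => ‖D y - C.A‖ₑ ^ 2 :=
  (hD.sub_const _).enorm.pow_const 2

theorem QRl_ne (n : Fin 3) : n.succAbove 0 ≠ n.succAbove 1 := fun e =>
  absurd (Fin.succAbove_right_injective e) (by decide)

theorem mx_rl2 (h : C.Ok aK) (hc : C.I.card = 2) (hu : u ∈ C.Adm) (hu' : u' ∈ C.Adm)
    (hD : Measurable D) (hv : Measurable v) (hU : USeg C.q f D v) (hm : C.Mx D v u)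
    (hm' : C.Mx D v u') (e : u.1 = u'.1) (hn : ‖C.ctr u' - C.ctr u‖ ≤ 2 * C.ρ') : C.Rl f u u' := by
  by_cases e0 : u = u'
  · exact e0 ▸ QRl_self
  obtain ⟨n, hn0, hI⟩ : ∃ n, n ∉ C.I ∧ ∀ i, i ≠ n → i ∈ C.I := by
    generalize C.I = I at hc
    revert I
    decide
  obtain ⟨hR, -, hcn⟩ := h.tile_sep hu hu' e0
  rw [norm_sub_rev] at hR
  have cn := hcn e n hn0
  have nc : ∀ i, |C.ctr u' i - C.ctr u i| ≤ ‖C.ctr u' - C.ctr u‖ := fun i =>
    norm_le_pi_norm (C.ctr u' - C.ctr u) i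
  refine QRl_fin h ?_
  generalize ‖C.ctr u' - C.ctr u‖ = R at hR hn nc
  have t0 := h.nm.t0
  have d0 := h.nm.dl0
  have R0 : 0 < R := by linarith
  have Rm : 3 * R / 2 ≤ C.Rm := by unfold Cu.Rm; linarith only [hn, t0]
  have hi := hI _ (Fin.succAbove_ne n 0)
  have hj := hI _ (Fin.succAbove_ne n 1)
  obtain ⟨m1, m2⟩ := hm.m2 n hI _ (mx_ctr h hu) fun _ _ => rfl
  have m3 := m2 R ⟨by linarith only [hR, t0], by linarith⟩
  have m4 := ne_top_of_le_ne_top m1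
    (lintegral_mono_set (closedBall_subset_closedBall (show R ≤ C.Rm by linarith)))
  rw [QRl_t2 (QRl_sq hD) n _ R0.le] at m3
  rw [QRl_t2 hv n _ R0.le] at m4
  obtain ⟨a, a1, a2, a3⟩ := QRl_sel (QRl_m1 (QRl_sq hD) _ _ _ _) (QRl_m1 hv _ _ _ _) R0
    (p := C.ctr u (n.succAbove 0)) (c := (2 * C.dl) ^ 2 * (2 * R))
    (((QRl_sub (by rw [sub_self, abs_zero]; linarith)).trans m3).trans
      (ENNReal.ofReal_le_ofReal (by linarith only [mul_pos d0 R0, mul_nonneg_of_nonpos_of_nonpos (Mathlib.Tactic.Linarith.sub_nonpos_of_le (sq_nonneg C.dl)) (Mathlib.Tactic.Linarith.sub_nonpos_of_le (sq_nonneg ((2 : ℝ) * R)))])))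
    (ne_top_of_le_ne_top m4 (QRl_sub (by rw [sub_self, abs_zero]; linarith only [hR, t0])))
  have s1 := QRl_step h hu hD hU hm hi hR hn (a := a) (by linarith only [hR, t0, a1])
  have s3 := QRl_step h hu' hD hU hm' hi hR hn (a := a) (by
    linarith only [a1, nc, abs_sub_le a (C.ctr u (n.succAbove 0)) (C.ctr u' (n.succAbove 0)),
      abs_sub_comm (C.ctr u (n.succAbove 0)) (C.ctr u' (n.succAbove 0)), nc (n.succAbove 0)])
  have s2 := QRl_line hU hD (s := C.ctr u (n.succAbove 1)) (s' := C.ctr u' (n.succAbove 1))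
    (by rw [sub_self, abs_zero]; exact R0.le) (nc _)
    (fun t ht => QRl_q h hu (QSk_upd (QSk_upd (QRl_ctr u (by linarith only [hR, t0, Rm]))
      (Or.inr ⟨hi, by linarith only [hR, t0, Rm, a1]⟩) (by linarith only [hR, t0, Rm])) (Or.inr ⟨hj, by linarith only [hR, t0, Rm, ht]⟩) (by linarith only [hR, t0, Rm])))
    a2 (by positivity) le_rfl a3
  have e1 : update (update (C.ctr u) (n.succAbove 0) a) (n.succAbove 1)
      (C.ctr u (n.succAbove 1)) = update (C.ctr u) (n.succAbove 0) a := by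
    rw [update_eq_self_iff, update_of_ne (QRl_ne n).symm]
  have e2 : update (update (C.ctr u) (n.succAbove 0) a) (n.succAbove 1)
      (C.ctr u' (n.succAbove 1)) = update (C.ctr u') (n.succAbove 0) a := by
    refine QBas_ext n ?_ (Fin.forall_fin_two.2 ⟨?_, ?_⟩)
    · rw [update_of_ne (Fin.succAbove_ne n 1).symm, update_of_ne (Fin.succAbove_ne n 0).symm,
        update_of_ne (Fin.succAbove_ne n 0).symm, cn]
    · rw [update_of_ne (QRl_ne n), update_self, update_self]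
    · rw [update_self, update_of_ne (QRl_ne n).symm]
  rw [e1, e2] at s2
  rw [norm_sub_rev] at s3
  have k1 := (norm_sub_le_norm_sub_add_norm_sub _ _ _).trans (add_le_add s3
    ((norm_sub_le_norm_sub_add_norm_sub _ _ _).trans (add_le_add s2 s1)))
  linarith only [k1, d0, R0, mul_pos d0 R0]

theorem mx_rl3 (h : C.Ok aK) (hc : C.I.card = 3) (hu : u ∈ C.Adm) (hu' : u' ∈ C.Adm)
    (hD : Measurable D) (hv : Measurable v) (hU : USeg C.q f D v) (hm : C.Mx D v u)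
    (hm' : C.Mx D v u') (hn : ‖C.ctr u' - C.ctr u‖ ≤ 2 * C.ρ') : C.Rl f u u' := by
  by_cases e0 : u = u'
  · exact e0 ▸ QRl_self
  have hI : ∀ i, i ∈ C.I := by
    generalize C.I = I at hc
    revert I
    decide
  obtain ⟨n, -⟩ : ∃ n : Fin 3, n = n := ⟨0, rfl⟩
  have hR := (h.tile_sep hu hu' e0).1
  rw [norm_sub_rev] at hR
  have nc : ∀ i, |C.ctr u' i - C.ctr u i| ≤ ‖C.ctr u' - C.ctr u‖ := fun i =>
    norm_le_pi_norm (C.ctr u' - C.ctr u) i
  refine QRl_fin h ?_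
  generalize ‖C.ctr u' - C.ctr u‖ = R at hR hn nc
  have t0 := h.nm.t0
  have d0 := h.nm.dl0
  have R0 : 0 < R := by linarith
  have R1 : 0 ≤ 3 * R / 2 := by linarith only [hR, t0]
  have Rm : 3 * R / 2 ≤ C.Rm := by unfold Cu.Rm; linarith only [hn, t0]
  have z0 : ∀ p : ℝ, |p - p| + R / 2 ≤ R := fun p => by rw [sub_self, abs_zero]; linarith only [hR, t0]
  have z1 : ∀ i, |C.ctr u i - C.ctr u' i| + R / 2 ≤ 3 * R / 2 := fun i => by
    rw [abs_sub_comm]; linarith only [nc, nc i]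
  have z2 : ∀ i t, |t - C.ctr u i| ≤ R / 2 → |t - C.ctr u' i| ≤ 3 * R / 2 := fun i t ht => by
    linarith only [ht, z1, abs_sub_le t (C.ctr u i) (C.ctr u' i), z1 i]
  obtain ⟨m1, m2⟩ := hm.m2 n (fun i _ => hI i) _ (mx_ctr h hu) fun _ _ => rfl
  obtain ⟨p1, p2⟩ := hm'.m2 n (fun i _ => hI i) _ (mx_ctr h hu') fun _ _ => rfl
  obtain ⟨q1, q2⟩ := hm.m3 hc
  have m3 := m2 R ⟨by linarith only [hR, t0], by linarith only [hR, t0, Rm]⟩
  have p3 := p2 (3 * R / 2) ⟨by linarith only [hR, t0], Rm⟩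
  have q3 := q2 R ⟨by linarith only [hR, t0], by linarith only [hR, t0, Rm]⟩
  have m4 := ne_top_of_le_ne_top m1
    (lintegral_mono_set (closedBall_subset_closedBall (show R ≤ C.Rm by linarith only [hR, t0, Rm])))
  have p4 := ne_top_of_le_ne_top p1 (lintegral_mono_set (closedBall_subset_closedBall Rm))
  have q4 := ne_top_of_le_ne_top q1
    (lintegral_mono_set (closedBall_subset_closedBall (show R ≤ C.Rm by linarith only [hR, t0, Rm])))
  rw [QRl_t2 (QRl_sq hD) n _ R0.le] at m3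
  rw [QRl_t2 hv n _ R0.le] at m4
  rw [QRl_t2 (QRl_sq hD) n _ R1] at p3
  rw [QRl_t2 hv n _ R1] at p4
  rw [QRl_t3 (QRl_sq hD) n _ R0.le] at q3
  rw [QRl_t3 hv n _ R0.le] at q4
  replace m3 := (QRl_sub (z0 _)).trans m3
  replace p3 := (QRl_sub (z1 _)).trans p3
  replace q3 := (QRl_sub (z0 _)).trans q3
  replace m4 := ne_top_of_le_ne_top m4 (QRl_sub (z0 _))
  replace p4 := ne_top_of_le_ne_top p4 (QRl_sub (z1 _))
  replace q4 := ne_top_of_le_ne_top q4 (QRl_sub (z0 _))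
  obtain ⟨a, a1, v1, v2, v3, a2, a3, a4⟩ := QRl_sel3 (QRl_m1 (QRl_sq hD) _ _ _ _)
    (QRl_m1 (QRl_sq hD) _ _ _ _) (QRl_m1 (QRl_m0 (QRl_sq hD) n _) _ _ _ _) (QRl_m1 hv _ _ _ _)
    (QRl_m1 hv _ _ _ _) (QRl_m1 (QRl_m0 hv n _) _ _ _ _) R0 m3 p3 q3 m4 p4 q4
  obtain ⟨b, b1, b2, b3⟩ := QRl_sel
    ((QRl_m0 (QRl_sq (C := C) hD) n (Icc (C.ctr u n - R) (C.ctr u n + R))).comp
      (continuous_const.update (n.succAbove 1) continuous_id).measurable)
    ((QRl_m0 hv n (Icc (C.ctr u n - R) (C.ctr u n + R))).comp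
      (continuous_const.update (n.succAbove 1) continuous_id).measurable) R0
    ((QRl_sub (z0 _)).trans a4) (ne_top_of_le_ne_top v3 (QRl_sub (z0 _)))
  have up : ∀ {u : I3 × I3} {z : Rn 3}, z ∈ C.Q u C.Rm → ∀ {j : Fin 3} {t : ℝ},
      |t - C.ctr u j| ≤ 3 * R / 2 → update z j t ∈ C.Q u C.Rm := fun hz j t ht =>
    QSk_upd hz (Or.inr ⟨hI j, ht.trans Rm⟩) (R1.trans Rm)
  have c0 : ∀ u : I3 × I3, C.ctr u ∈ C.Q u C.Rm := fun u => QRl_ctr u (R1.trans Rm)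
  have s1 := QRl_step h hu hD hU hm (hI (n.succAbove 0)) hR hn (a := a) (by linarith only [hR, t0, a1])
  have s5 := QRl_step h hu' hD hU hm' (hI (n.succAbove 0)) hR hn (z2 _ _ a1)
  have s2 := QRl_line hU hD (s := C.ctr u (n.succAbove 1)) (s' := b)
    (by rw [sub_self, abs_zero]; exact R0.le) (by linarith only [hR, t0, b1])
    (fun t ht => QRl_q h hu (up (up (c0 u) (by linarith only [hR, t0, a1])) (by linarith only [hR, t0, ht])))
    v1 (by positivity) (by linarith only [hR, t0]) a2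
  have s3 := QRl_line hU hD (s := C.ctr u n) (s' := C.ctr u' n)
    (by rw [sub_self, abs_zero]; exact R0.le) (nc n)
    (fun t ht => QRl_q h hu (up (up (up (c0 u) (by linarith only [hR, t0, a1])) (by simp only [id]; linarith only [hR, t0, b1]))
      (by linarith only [hR, t0, ht])))
    b2 (by positivity) (by linarith only [hR, t0]) b3
  have s4 := QRl_line hU hD (s := b) (s' := C.ctr u' (n.succAbove 1)) (z2 _ _ b1)
    (by rw [sub_self, abs_zero]; exact R1)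
    (fun t ht => QRl_q h hu' (up (up (c0 u') (z2 _ _ a1)) ht))
    v2 (by positivity) (by linarith only []) a3
  have e1 : ∀ x : Rn 3, update (update x (n.succAbove 0) a) (n.succAbove 1)
      (x (n.succAbove 1)) = update x (n.succAbove 0) a := fun x => by
    rw [update_eq_self_iff, update_of_ne (QRl_ne n).symm]
  have e2 : update (update (update (C.ctr u) (n.succAbove 0) a) (n.succAbove 1) b) n
      (C.ctr u n) = update (update (C.ctr u) (n.succAbove 0) a) (n.succAbove 1) b := by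
    rw [update_eq_self_iff, update_of_ne (Fin.succAbove_ne n 1).symm,
      update_of_ne (Fin.succAbove_ne n 0).symm]
  have e3 : update (update (update (C.ctr u) (n.succAbove 0) a) (n.succAbove 1) b) n
      (C.ctr u' n) = update (update (C.ctr u') (n.succAbove 0) a) (n.succAbove 1) b := by
    refine QBas_ext n ?_ (Fin.forall_fin_two.2 ⟨?_, ?_⟩)
    · rw [update_self, update_of_ne (Fin.succAbove_ne n 1).symm,
        update_of_ne (Fin.succAbove_ne n 0).symm]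
    · rw [update_of_ne (Fin.succAbove_ne n 0), update_of_ne (QRl_ne n), update_of_ne (QRl_ne n),
        update_self, update_self]
    · rw [update_of_ne (Fin.succAbove_ne n 1), update_self, update_self]
  simp only [id] at s3
  rw [e1] at s2 s4
  rw [e2, e3] at s3
  rw [norm_sub_rev] at s5
  have k1 := (norm_sub_le_norm_sub_add_norm_sub _ _ _).trans (add_le_add s5
    ((norm_sub_le_norm_sub_add_norm_sub _ _ _).trans (add_le_add s4
    ((norm_sub_le_norm_sub_add_norm_sub _ _ _).trans (add_le_add s3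
    ((norm_sub_le_norm_sub_add_norm_sub _ _ _).trans (add_le_add s2 s1)))))))
  linarith only [k1, d0, R0, mul_pos d0 R0]

theorem mx_rl (h : C.Ok aK) (hc : 2 ≤ C.I.card) (hu : u ∈ C.Adm) (hu' : u' ∈ C.Adm)
    (hD : Measurable D) (hv : Measurable v) (hU : USeg C.q f D v) (hm : C.Mx D v u)
    (hm' : C.Mx D v u') (hn : ‖C.ctr u' - C.ctr u‖ < 2 * C.ρ') : C.Rl f u u' := by
  have h3 : C.I.card ≤ 3 := by simpa using C.I.card_le_univ
  by_cases e : u = u'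
  · subst e
    simp [Cu.Rl, Cu.aff0]
  obtain k | k : C.I.card = 2 ∨ C.I.card = 3 := by omega
  · exact mx_rl2 h k hu hu' hD hv hU hm hm'
      ((h.tile_sep hu hu' e).2.1 (by rwa [norm_sub_rev])) hn.le
  · exact mx_rl3 h k hu hu' hD hv hU hm hm' hn.le

end BEp
end
end

-- merged part: Pool.Agent.Work.MP_f0515e_an.P2.QGS
section
/-! The global system. Choose `𝒟 b`, `𝔅 b` for the tiles of rank at least two, empty for the others (`Pcs kp` is finite: `finite_pcs` or its proof). The circles of different tiles are disjoint: their images lie in the disjoint sets `Pv` (`pv_dis`).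
`Fg.Ok.nest`, `maxi`. `side`: `kind` if the disc belongs to the tile; otherwise `f` sends `sk 1 ∩ Q u R1` into `Pv f u` (`c1`); `side_one` (a disc which meets `Q u R1` belongs to a tile of the same cube, `QCf.same`; all cubes have the same `ρ'`, `GFit.par`). -/

open Set Metric Filter Topology Function BEv MeasureTheory
open scoped NNReal ENNReal

noncomputable section
namespace BEp

variable {ι : Type} [Finite ι] {C : ι → Cu} {P : Pr} {aK : ℝ} {Ω : Set (Rn 3)} {K : Kx Ω}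
  {ch : Set (Rn 3) → Ch} {w lam : Set (Rn 3) → ℝ} {f Φ : Rn 3 → Rn 3} {θ : Rn 3 → ℝ} {μ ρ1 μ1 : ℝ}
  {kp : ι → Set (I3 × I3)} {𝒟 : Set Fg} {𝔅 : Pcs kp → Finset (Rn 3 × ℝ)}

theorem qgs_ex (h : QCf C P aK K ch w lam f θ μ ρ1 μ1 kp)
    (hT : ∀ q, 2 ≤ (C q).I.card → ∀ u ∈ kp q, ∃ 𝒟 𝔅, (C q).TL K f ρ1 u 𝒟 𝔅) :
    ∃ 𝒟 𝔅, QGS C K f ρ1 kp 𝒟 𝔅 := by
  have hfin : Finite (Pcs kp) := by
    have k : {b : ι × I3 × I3 | b.2 ∈ kp b.1}.Finite := by
      refine (Set.finite_iUnion fun q : ι => (((h.gf.ok q).adm_finite.subset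
        fun u hu => (h.adm q u hu).1).image (fun u => (q, u)))).subset ?_
      rintro ⟨q, u⟩ hb
      exact mem_iUnion.2 ⟨q, u, hb, rfl⟩
    exact k.to_subtype
  have ex : ∀ b : Pcs kp, ∃ (𝒟 : Set Fg) (𝔅 : Finset (Rn 3 × ℝ)),
      (2 ≤ (C b.1.1).I.card → (C b.1.1).TL K f ρ1 b.1.2 𝒟 𝔅) ∧
        (¬ 2 ≤ (C b.1.1).I.card → 𝒟 = ∅ ∧ 𝔅 = ∅) := fun b => by
    by_cases k : 2 ≤ (C b.1.1).I.card
    · obtain ⟨𝒟, 𝔅, t⟩ := hT _ k _ b.2
      exact ⟨𝒟, 𝔅, fun _ => t, fun n => (n k).elim⟩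
    · exact ⟨∅, ∅, fun n => (k n).elim, fun _ => ⟨rfl, rfl⟩⟩
  choose 𝒜 𝔅 h1 h2 using ex
  have rd : ∀ b, ∀ φ ∈ 𝒜 b, 2 ≤ (C b.1.1).I.card := fun b φ k => by_contra fun n =>
    notMem_empty φ ((h2 b n).1 ▸ k)
  have rb : ∀ b, ∀ β ∈ 𝔅 b, 2 ≤ (C b.1.1).I.card := fun b β k => by_contra fun n =>
    Finset.notMem_empty β ((h2 b n).2 ▸ k)
  have m0 : ∀ q, 0 < (C q).m := fun q => by
    linarith [(h.gf.ok q).nm.sm, (h.gf.ok q).nm.s0]
  have pb : ∀ b, ∀ β ∈ 𝔅 b, closedBall β.1 β.2 ⊆ (C b.1.1).Pv f b.1.2 := fun b β k =>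
    ((h1 b (rb b β k)).pos β k).2.trans (Nb_mono le_rfl (by linarith only [m0, m0 b.1.1]))
  have pj : ∀ b, ∀ φ ∈ 𝒜 b, ∀ x ∈ φ.J, f x ∈ (C b.1.1).Pv f b.1.2 := fun b φ k x hx => by
    obtain ⟨β, k1, k2⟩ := (h1 b (rd b φ k)).inb φ k
    exact pb b β k1 (ball_subset_closedBall (k2 (mem_image_of_mem f hx)))
  have pd : ∀ b b' : Pcs kp, 2 ≤ (C b.1.1).I.card → b ≠ b' →
      Disjoint ((C b.1.1).Pv f b.1.2) ((C b'.1.1).Pv f b'.1.2) := fun b b' k n =>
    h.pv_dis k b.2 b'.2 fun e => n (Subtype.ext e)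
  have ok : ∀ φ ∈ ⋃ b, 𝒜 b, φ.Ok (K.sk 2) := fun φ k => by
    obtain ⟨b, k⟩ := mem_iUnion.1 k
    exact (h1 b (rd b φ k)).ok φ k
  obtain ⟨𝒟, s1, s2, s3, -⟩ := maxi (𝒟 := ⋃ b, 𝒜 b)
    (Set.finite_iUnion fun b => by
      by_cases k : 2 ≤ (C b.1.1).I.card
      · exact (h1 b k).fin
      · rw [(h2 b k).1]
        exact finite_empty) Fg.d Fg.J
    (fun φ k => ⟨(ok φ k).top.2.2.2.1.1, (ok φ k).top.2.2.2.2.1⟩) fun φ k φ' k' n => by
      refine (ok φ k).nest (ok φ' k') ?_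
      obtain ⟨b, k⟩ := mem_iUnion.1 k
      obtain ⟨b', k'⟩ := mem_iUnion.1 k'
      by_cases e : b = b'
      · subst e
        exact (h1 b (rd b φ k)).disJ φ k φ' k' n
      · exact disjoint_left.2 fun x hx hx' =>
          disjoint_left.1 (pd b b' (rd b φ k) e) (pj b φ k x hx) (pj b' φ' k' x hx')
  have of : ∀ b, ∀ x, Off 𝒟 x → ¬ ∃ φ ∈ 𝒜 b, x ∈ φ.d \ φ.J := fun b x o ⟨φ, k, hx⟩ => by
    obtain ⟨φ', k1, k2⟩ := s3 φ (mem_iUnion.2 ⟨b, k⟩)
    exact o φ' k1 (k2 hx)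
  refine ⟨𝒟, 𝔅, ⟨?_, ?_, fun φ k => ok φ (s1 k), s2, fun φ k => ?_, fun β ⟨b, k⟩ => ?_,
    fun β ⟨b, k⟩ β' ⟨b', k'⟩ n => ?_⟩, fun φ k => ?_, fun φ k q hq u hu => ?_,
    fun q hq u hu x hx o => ?_, fun q hq u hu x hx n o k => ?_,
    fun b β k => ⟨rb b β k, ((h1 b (rb b β k)).pos β k).2⟩, fun b => ?_⟩
  · refine (Set.finite_iUnion fun b => ?_).subset s1
    by_cases k : 2 ≤ (C b.1.1).I.card
    · exact (h1 b k).fin
    · rw [(h2 b k).1]
      exact finite_empty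
  · exact (Set.finite_iUnion fun b => (𝔅 b).finite_toSet).subset fun β k => mem_iUnion.2 k
  · obtain ⟨b, k⟩ := mem_iUnion.1 (s1 k)
    obtain ⟨β, k1, k2⟩ := (h1 b (rd b φ k)).inb φ k
    exact ⟨β, ⟨b, k1⟩, k2⟩
  · exact ((h1 b (rb b β k)).pos β k).1
  · by_cases e : b = b'
    · subst e
      exact (h1 b (rb b β k)).disb β k β' k' n
    · exact (pd b b' (rb b β k) e).mono (pb b β k) (pb b' β' k')
  · obtain ⟨b, k⟩ := mem_iUnion.1 (s1 k)
    exact ⟨b.1.1, rd b φ k, b.1.2, b.2, (h1 b (rd b φ k)).near φ k⟩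
  · obtain ⟨b, k'⟩ := mem_iUnion.1 (s1 k)
    have t := h1 b (rd b φ k')
    have n := (h.gf.ok q).nm
    have key : Disjoint φ.J (K.sk 1 ∩ (C q).Q u (C q).R1) →
        φ.d ⊆ (C q).Q u (C q).R1 ∨ Disjoint φ.d ((C q).Q u (C q).R1) := fun hJ => by
      refine side_one (h.gf.fit q) (h.gf.ok q) (h.adm q u hu).1 (h.adm q u hu).2 hq
        (h.g2 q hq u hu) (ok φ (s1 k)) hJ (fun x hx y hy => ?_) fun ⟨z, z1, z2⟩ x hx y hy => ?_
      · have a1 := mem_closedBall_iff_norm.1 (t.near φ k' hx)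
        have a2 := mem_closedBall_iff_norm'.1 (t.near φ k' hy)
        linarith only [a1, a2, h, norm_sub_le_norm_sub_add_norm_sub x ((C b.1.1).ctr b.1.2) y,
          (h.m1.num q).2.2.2]
      · have e : b.1.1 = q := h.same b.2 (x := z) (ball_subset_closedBall
          ((sk_Rm (h.gf.ok q) (h.adm q u hu).1).2 (Prep_mono (QSk_R1 (h.gf.ok q)).2 z2))) (by
            linarith only [t, k', z1, h, mem_closedBall_iff_norm.1 (t.near φ k' z1), (h.m1.num b.1.1).2.2.2,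
              (h.gf.ok b.1.1).pos.2.2.2.2.2.1])
        obtain ⟨β, k1, k2⟩ := t.inb φ k'
        have a1 := mem_ball_iff_norm.1 (k2 (mem_image_of_mem f hx))
        have a2 := mem_ball_iff_norm'.1 (k2 (mem_image_of_mem f hy))
        have a3 := (Finset.single_le_sum (fun β k => (t.pos β k).1.le) k1).trans t.sum
        rw [e] at a3
        linarith only [a1, a2, a3, norm_sub_le_norm_sub_add_norm_sub (f x) β.1 (f y)]
    by_cases e : b = ⟨(q, u), hu⟩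
    · subst e
      exact (t.kind φ k').elim Or.inl fun d => key (d.mono_right inter_subset_right)
    · refine key (disjoint_left.2 fun x hx hx' => disjoint_left.1 (pd b _ (rd b φ k') e)
        (pj b φ k' x hx) (mem_Nb.2 ⟨x, hx'.2, ?_⟩))
      have := (h.g2 q hq u hu).c1 x ⟨hx'.1, Prep_mono (by linarith only [n, m0, n.r1, n.mκ, m0 q]) hx'.2⟩
      linarith only [hu, this, n, n.τm, n.τ0]
  · exact lt_of_not_ge fun k => of ⟨(q, u), hu⟩ x o ((h1 ⟨(q, u), hu⟩ hq).own x hx k)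
  · exact of ⟨(q, u), hu⟩ x o ((h1 ⟨(q, u), hu⟩ hq.ge).intr hq x hx n k)
  · by_cases k : 2 ≤ (C b.1.1).I.card
    · exact (h1 b k).sum
    · rw [(h2 b k).2, Finset.sum_empty]
      linarith only [h, (h.gf.ok b.1.1).nm.τ0]

end BEp
end
end
end

-- merged part: Pool.Agent.Work.MP_f0515e_an.P2.QOwn
section
-- merged part: Pool.Agent.Work.MP_f0515e_an.P2.QOwn1
section
/-! The discs in one plane section of a tile. `loop` on `closedBall (pq n c) R1` with `k = f ∘ pl n h`, `ψ = ‖k - aff0 ∘ pl n h‖`, `h = x0 n`, `τ0 = -1`, `τ1 = τ`, `τ2 = 2 τ`, `θ = dl`, `G = ‖D‖`, `P = ‖D - A‖` (`ln_uga`, `ln_uga0`, `UgA.lip`),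
`E = 3 dl t0² (1 + ‖A‖)²` (`M2` at `x0` with radius `t0 / 2`, `‖D‖² ≤ 2 ‖A‖² + 2 ‖D - A‖²`), `ε = τ / (2 * 2 ^ a)`; `100 E / τ ≤ τ / (2 * 2 ^ a)` by `Nm.edl`, `Nm.et`, `τ = ep * s`. The boundary of the section lies in `sk 1` (`sk_lat`, `Nm.rk`), there `ψ < τ` (`c1`).
A circle misses the grid lines (`sk_lat`, `c1`), is connected, so lies in one open square of the grid, and so does its disc (`Ball.sub_convex`). Near such a point the skeleton lies in the plane (`near2` for plates; `sk_two` for solids). `sk_one` for the points of the discs. -/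

open Set Metric Filter Topology Function BEv MeasureTheory
open scoped NNReal ENNReal

noncomputable section
namespace BEp

variable {C : Cu} {aK : ℝ} {Ω : Set (Rn 3)} {K : Kx Ω} {ch : Set (Rn 3) → Ch} {w : Set (Rn 3) → ℝ}
  {f : Rn 3 → Rn 3} {D : Rn 3 → Rn 3 →L[ℝ] Rn 3} {v : Rn 3 → ℝ≥0∞} {u u' : I3 × I3}

theorem QOwn1_lat {δ : ℝ} (hδ : 0 < δ) (t0 : ℝ) :
    ∀ᶠ t in 𝓝 t0, (∃ k : ℤ, t = k * δ) → t = t0 := by
  have a1 : ((⌈t0 / δ⌉ : ℝ) - 1) * δ < t0 := by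
    rw [← lt_div_iff₀ hδ]
    linarith only [Int.ceil_lt_add_one (t0 / δ)]
  have a2 : t0 < ((⌊t0 / δ⌋ : ℝ) + 1) * δ := by
    rw [← div_lt_iff₀ hδ]
    exact Int.lt_floor_add_one _
  filter_upwards [Ioo_mem_nhds a1 a2] with t ht ⟨k, hk⟩
  obtain ⟨b1, b2⟩ := ht
  rw [hk] at b1 b2
  have c1 : ⌈t0 / δ⌉ - 1 < k := by exact_mod_cast lt_of_mul_lt_mul_right b1 hδ.le
  have c2 : k < ⌊t0 / δ⌋ + 1 := by exact_mod_cast lt_of_mul_lt_mul_right b2 hδ.le
  have d1 : t0 / δ ≤ k := Int.ceil_le.1 (by omega)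
  have d2 : (k : ℝ) ≤ t0 / δ := Int.le_floor.1 (by omega)
  rw [hk, ← le_antisymm d1 d2]
  exact div_mul_cancel₀ _ hδ.ne'

theorem QOwn1_line {B S : Set (Rn 2)} (hB : Ball B S) {a : Fin 2} {t : ℝ}
    (h : ∀ ξ ∈ S, ξ a ≠ t) : ∀ ξ ∈ B, ξ a ≠ t := by
  have l : IsLinearMap ℝ fun ξ : Rn 2 => ξ a := ⟨fun _ _ => rfl, fun _ _ => rfl⟩
  have o1 : IsOpen {ξ : Rn 2 | ξ a < t} := isOpen_lt (continuous_apply a) continuous_const
  have o2 : IsOpen {ξ : Rn 2 | t < ξ a} := isOpen_lt continuous_const (continuous_apply a)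
  have dj : Disjoint {ξ : Rn 2 | ξ a < t} {ξ : Rn 2 | t < ξ a} :=
    Set.disjoint_left.2 fun ξ h1 h2 => lt_asymm (show ξ a < t from h1) h2
  rcases (hB.conn_bd le_rfl).isPreconnected.subset_or_subset o1 o2 dj
    (fun ξ hξ => lt_or_gt_of_ne (h ξ hξ)) with k | k
  · exact fun ξ hξ => ne_of_lt (hB.sub_convex one_le_two (convex_halfSpace_lt l t) k hξ)
  · exact fun ξ hξ => ne_of_gt (hB.sub_convex one_le_two (convex_halfSpace_gt l t) k hξ)

theorem QOwn1_pt {a b : Rn 3 →L[ℝ] Rn 3} {δ : ℝ} (h0 : 0 < δ) (h1 : δ ≤ 1) :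
    ENNReal.ofReal δ * ‖a‖ₑ ^ 2 + ENNReal.ofReal δ⁻¹ * ‖a - b‖ₑ ^ 2 ≤
      ENNReal.ofReal (2 * δ * ‖b‖ ^ 2) + ENNReal.ofReal (3 / δ) * ‖a - b‖ₑ ^ 2 := by
  have e1 : ‖a‖ ≤ ‖b‖ + ‖a - b‖ := by
    have := norm_add_le b (a - b)
    rwa [add_sub_cancel] at this
  have p0 : 0 < δ⁻¹ := inv_pos.2 h0
  have p1 : δ ≤ δ⁻¹ := h1.trans (one_le_inv_iff₀.2 ⟨h0, h1⟩)
  rw [← ofReal_norm, ← ofReal_norm, ← ENNReal.ofReal_pow (norm_nonneg _),
    ← ENNReal.ofReal_pow (norm_nonneg _), ← ENNReal.ofReal_mul h0.le, ← ENNReal.ofReal_mul p0.le,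
    ← ENNReal.ofReal_mul (by positivity), ← ENNReal.ofReal_add (by positivity) (by positivity),
    ← ENNReal.ofReal_add (by positivity) (by positivity)]
  refine ENNReal.ofReal_le_ofReal ?_
  have e2 : ‖a‖ ^ 2 ≤ 2 * ‖b‖ ^ 2 + 2 * ‖a - b‖ ^ 2 := by
    linarith only [e1, sq_nonneg (‖b‖ - ‖a - b‖), norm_nonneg a, norm_nonneg b, norm_nonneg (a - b), sq_nonneg (‖b‖ - ‖a - b‖), mul_nonneg_of_nonpos_of_nonpos (Mathlib.Tactic.Linarith.sub_nonpos_of_le e1) (Mathlib.Tactic.Linarith.sub_nonpos_of_le e1), mul_nonneg_of_nonpos_of_nonpos (Mathlib.Tactic.Linarith.sub_nonpos_of_le e1) (Mathlib.Tactic.Linarith.sub_nonpos_of_le (norm_nonneg a))]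
  have e3 := mul_le_mul_of_nonneg_left e2 h0.le
  have e4 := mul_le_mul_of_nonneg_right p1 (sq_nonneg ‖a - b‖)
  rw [div_eq_mul_inv]
  linarith only [e3, e4]

theorem QOwn1_en {g : Rn 2 → Rn 3 →L[ℝ] Rn 3} (A : Rn 3 →L[ℝ] Rn 3) {c : Rn 2}
    {δ R : ℝ} (h0 : 0 < δ) (h1 : δ ≤ 1) (hR : 0 ≤ R) {U : Set (Rn 2)} (hU : U ⊆ closedBall c R)
    (h : ∫⁻ ξ in closedBall c R, ‖g ξ - A‖ₑ ^ 2 ≤ ENNReal.ofReal (δ ^ 2 * (2 * R) ^ 2)) :
    ∫⁻ ξ in U, (ENNReal.ofReal δ * ‖g ξ‖ₑ ^ 2 + ENNReal.ofReal δ⁻¹ * ‖g ξ - A‖ₑ ^ 2) ≤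
      ENNReal.ofReal (3 * δ * (2 * R) ^ 2 * (1 + ‖A‖) ^ 2) := by
  refine (lintegral_mono_set hU).trans ((lintegral_mono fun ξ => QOwn1_pt h0 h1).trans ?_)
  rw [lintegral_add_left measurable_const, lintegral_const_mul' _ _ ENNReal.ofReal_ne_top,
    setLIntegral_const, Real.volume_pi_closedBall c hR, Fintype.card_fin,
    ← ENNReal.ofReal_mul (by positivity)]
  refine (add_le_add le_rfl (mul_le_mul_right h _)).trans ?_
  rw [← ENNReal.ofReal_mul (by positivity), ← ENNReal.ofReal_add (by positivity) (by positivity)]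
  refine ENNReal.ofReal_le_ofReal ?_
  have e : 3 / δ * (δ ^ 2 * (2 * R) ^ 2) = 3 * δ * (2 * R) ^ 2 := by field_simp
  have p : 0 ≤ δ * (2 * R) ^ 2 := by positivity
  rw [e]
  linarith only [p, mul_nonneg p (norm_nonneg A), mul_nonneg p (sq_nonneg ‖A‖), sq_nonneg ‖A‖]

theorem QOwn1_num (n : C.Nm) : 100 * (3 * C.dl * (2 * (C.t0 / 2)) ^ 2 * (1 + ‖C.A‖) ^ 2) /
    (2 * C.τ - C.τ) + C.τ / (2 * 2 ^ C.a) ≤ C.τ / 2 ^ C.a := by
  have p : (0 : ℝ) < 2 ^ C.a := by positivity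
  have τ0 := n.τ0
  have e1 : C.τ ^ 2 = 10 ^ 6 * ((2 ^ C.a) ^ 3 * (1 + ‖C.A‖) ^ 2 * C.dl * C.s ^ 2) := by
    rw [Cu.τ, mul_pow, ← n.edl, ← pow_mul, mul_comm C.a 3]
    ring
  have e2 : 100 * (3 * C.dl * (2 * (C.t0 / 2)) ^ 2 * (1 + ‖C.A‖) ^ 2) * (2 * 2 ^ C.a) =
      2400 * ((2 ^ C.a) ^ 3 * (1 + ‖C.A‖) ^ 2 * C.dl * C.s ^ 2) := by
    rw [n.et]
    ring
  have q : 0 ≤ (2 ^ C.a) ^ 3 * (1 + ‖C.A‖) ^ 2 * C.dl * C.s ^ 2 := by
    have := n.dl0
    positivity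
  have e3 : C.τ / 2 ^ C.a = C.τ / (2 * 2 ^ C.a) + C.τ / (2 * 2 ^ C.a) := by
    field_simp
    ring
  rw [e3, show 2 * C.τ - C.τ = C.τ by ring]
  refine add_le_add ?_ le_rfl
  rw [div_le_div_iff₀ τ0 (by positivity), e2, ← pow_two, e1]
  linarith only [q]

theorem QOwn1_in {n : Fin 3} (hn : ∀ i, i ≠ n → i ∈ C.I) {x0 : Rn 3} {R : ℝ}
    (h2 : x0 ∈ C.Q u R) {ξ : Rn 2} (hξ : ξ ∈ closedBall (pq n (C.ctr u)) R) :
    pl n (x0 n) ξ ∈ C.Q u R := by
  refine ⟨fun i hi => ?_, fun i hi => ?_⟩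
  · obtain rfl : i = n := by_contra fun e => hi (hn i e)
    rw [pl_n]
    exact h2.1 i hi
  · rcases Fin.eq_self_or_eq_succAbove n i with rfl | ⟨a, rfl⟩
    · rw [pl_n]
      exact h2.2 i hi
    · rw [pl_a]
      exact (norm_le_pi_norm (ξ - pq n (C.ctr u)) a).trans (mem_closedBall_iff_norm.1 hξ)

theorem QOwn1_out {n : Fin 3} (hn : ∀ i, i ≠ n → i ∈ C.I) {x : Rn 3} {R : ℝ} (hR : 0 ≤ R)
    (hx : x ∈ C.Q u R) : pq n x ∈ closedBall (pq n (C.ctr u)) R :=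
  mem_closedBall_iff_norm.2 ((pi_norm_le_iff_of_nonneg hR).2 fun a =>
    hx.2 _ (hn _ (Fin.succAbove_ne n a)))

theorem QOwn1_one (hf : C.Fit aK K ch w) (h : C.Ok aK) (hu : u ∈ C.Adm) (hg : C.G1 K f u)
    {x : Rn 3} (hx : x ∈ C.Q u C.R1) {n i : Fin 3} (hi : i ≠ n)
    (k1 : ∃ k : ℤ, x n = k * (16 * C.s)) (k2 : ∃ k : ℤ, x i = k * (16 * C.s)) :
    ‖f x - C.aff0 f u x‖ < C.τ := by
  have nm := h.nm
  have k0 : 0 < C.κ * C.s := mul_pos h.pos.2.2.2.2.2.2.1 nm.s0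
  obtain ⟨j, hj⟩ :=
    (by decide : ∀ n i : Fin 3, i ≠ n → ∃ j, ∀ l, l ≠ j → l = n ∨ l = i) n i hi
  have h1 := sk_lat hf h hu (Cu.GGeo_Q_mono (QSk_R1 h).2 hx) {j} fun l _ hl => by
    rcases hj l (fun e => hl (Finset.mem_singleton.2 e)) with rfl | rfl
    exacts [k1, k2]
  rw [Finset.card_singleton] at h1
  exact hg.c1 x ⟨h1, Cu.GGeo_Q_mono (by linarith only [k0, nm, nm.r1]) hx⟩

theorem QOwn1_loc (hf : C.Fit aK K ch w) (h : C.Ok aK) (hu : u ∈ C.Adm) {n : Fin 3}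
    (hn : ∀ i, i ≠ n → i ∈ C.I) {x : Rn 3} (hx : x ∈ C.Q u C.R1)
    (ho : ∀ i, i ≠ n → ¬ ∃ k : ℤ, x i = k * (16 * C.s)) :
    ∀ᶠ y in 𝓝 x, y ∈ K.sk 2 → y n = x n := by
  have nm := h.nm
  have k0 : 0 < C.κ * C.s := mul_pos h.pos.2.2.2.2.2.2.1 nm.s0
  have r0 := h.pos.2.2.2.2.2.1
  have h1 : ‖x - C.ctr u‖ < C.t0 / 2 + C.ρ' := by
    refine lt_of_le_of_lt ((pi_norm_le_iff_of_nonneg (QSk_R1 h).1.le).2 fun i => ?_)
      (by linarith only [k0, r0, nm, nm.r1])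
    by_cases hi : i ∈ C.I
    · exact hx.2 i hi
    · have e : x i = C.ctr u i := hx.1 i hi
      rw [Pi.sub_apply, e, sub_self, norm_zero]
      exact (QSk_R1 h).1.le
  have h2 : ∀ᶠ y in 𝓝 x, ‖y - C.ctr u‖ < C.t0 / 2 + C.ρ' :=
    (continuous_id.sub continuous_const).norm.continuousAt.eventually_lt continuousAt_const h1
  by_cases k : n ∈ C.I
  · have al : ∀ i, i ∈ C.I := fun i => by
      by_cases e : i = n
      exacts [e ▸ k, hn i e]
    have h3 : ∀ᶠ y in 𝓝 x, ∀ i, (∃ k : ℤ, y i = k * (16 * C.s)) → y i = x i :=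
      eventually_all.2 fun i => (continuous_apply i).continuousAt.eventually
        (QOwn1_lat (by linarith only [nm, nm.s0]) (x i))
    filter_upwards [h2, h3] with y y2 y3 hy
    have hQ : y ∈ C.Q u C.Rm := ⟨fun i hi => (hi (al i)).elim, fun i _ =>
      ((norm_le_pi_norm (y - C.ctr u) i).trans y2.le).trans (by unfold Cu.Rm; linarith only [r0])⟩
    obtain ⟨i, hi⟩ := sk_two hf h hu ⟨hy, hQ⟩
    have e := y3 i hi
    by_cases e' : i = n
    · exact e' ▸ e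
    · exact (ho i e' (e ▸ hi)).elim
  · have e : C.I = Finset.univ.erase n := by
      ext i
      rw [Finset.mem_erase]
      exact ⟨fun hi => ⟨fun e => k (e ▸ hi), Finset.mem_univ _⟩, fun hi => hn i hi.1⟩
    have hc : C.I.card = 2 := by
      rw [e, Finset.card_erase_of_mem (Finset.mem_univ _), Finset.card_univ, Fintype.card_fin]
    filter_upwards [h2] with y y2 hy
    exact (hf.near2 h hc hu hy y2 n k).trans (hx.1 n k).symm

theorem own_sec (hf : C.Fit aK K ch w) (h : C.Ok aK) (hu : u ∈ C.Adm) (hc : ContinuousOn f C.q)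
    (hD : Measurable D) (hv : Measurable v) (hU : USeg C.q f D v) (hm : C.Mx D v u)
    (hg : C.G1 K f u) {n : Fin 3} (hn : ∀ i, i ≠ n → i ∈ C.I) {x0 : Rn 3} (h0 : x0 ∈ C.Gp u)
    (h1 : ∀ i, i ≠ n → x0 i = C.ctr u i) (h2 : x0 ∈ C.Q u C.R1) :
    ∃ 𝒟 𝔅, QPre f (K.sk 2) (C.τ / 2 ^ C.a) 𝒟 𝔅 ∧
      (∀ φ ∈ 𝒟, φ.d ⊆ C.Q u C.R1 ∧ (∀ x ∈ φ.d, x n = x0 n ∧ x ∉ K.sk 1) ∧
        ∀ x ∈ φ.J, ‖f x - C.aff0 f u x‖ < 2 * C.τ) ∧
      ∀ x ∈ C.Q u C.R1, x n = x0 n → 2 * C.τ ≤ ‖f x - C.aff0 f u x‖ → ∃ φ ∈ 𝒟, x ∈ φ.d \ φ.J := by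
  have nm := h.nm
  have k0 : 0 < C.κ * C.s := mul_pos h.pos.2.2.2.2.2.2.1 nm.s0
  have r0 := h.pos.2.2.2.2.2.1
  obtain ⟨R0, Rm⟩ := QSk_R1 h
  have R2 : C.R1 ≤ C.t0 / 2 := by linarith only [k0, nm, nm.r1]
  have τ0 := nm.τ0
  obtain ⟨m1, m2⟩ := hm.m2 n hn x0 h0 h1
  have ec : pq n x0 = pq n (C.ctr u) := funext fun a => h1 _ (Fin.succAbove_ne n a)
  rw [ec] at m1 m2
  have pc : Continuous (pl n (x0 n)) := (pl_tp n (x0 n)).1.continuous
  have inQ : ∀ ξ ∈ closedBall (pq n (C.ctr u)) C.R1, pl n (x0 n) ξ ∈ C.Q u C.R1 :=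
    fun ξ hξ => QOwn1_in hn h2 hξ
  have inq : ∀ ξ ∈ closedBall (pq n (C.ctr u)) C.R1, pl n (x0 n) ξ ∈ C.q := fun ξ hξ =>
    ball_subset_closedBall ((sk_Rm h hu).2 (Cu.GGeo_Q_mono Rm (inQ ξ hξ)))
  have hk : ContinuousOn (fun ξ => f (pl n (x0 n) ξ)) (closedBall (pq n (C.ctr u)) C.R1) :=
    hc.comp pc.continuousOn inq
  have ha : Continuous (C.aff0 f u) := by
    unfold Cu.aff0
    fun_prop
  have hψ : ContinuousOn (fun ξ => ‖f (pl n (x0 n) ξ) - C.aff0 f u (pl n (x0 n) ξ)‖)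
      (closedBall (pq n (C.ctr u)) C.R1) := (hk.sub (ha.comp pc).continuousOn).norm
  have ln : ∀ ξ, ∃ k : ℤ, pl n (x0 n) ξ n = k * (16 * C.s) := fun ξ => by
    rw [pl_n]
    exact h0.2 n
  have one : ∀ ξ ∈ closedBall (pq n (C.ctr u)) C.R1, ∀ a, (∃ k : ℤ, ξ a = k * (16 * C.s)) →
      ‖f (pl n (x0 n) ξ) - C.aff0 f u (pl n (x0 n) ξ)‖ < C.τ := fun ξ hξ a k =>
    QOwn1_one hf h hu hg (inQ ξ hξ) (Fin.succAbove_ne n a) (ln ξ) (by rwa [pl_a])
  have hb : ∀ ξ ∈ sphere (pq n (C.ctr u)) C.R1,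
      ‖f (pl n (x0 n) ξ) - C.aff0 f u (pl n (x0 n) ξ)‖ < C.τ := fun ξ hξ => by
    obtain ⟨a, ea⟩ : ∃ a, ‖(ξ - pq n (C.ctr u)) a‖ = C.R1 := by
      by_contra! k
      have e := mem_sphere_iff_norm.1 hξ
      exact ((pi_norm_lt_iff R0).2 fun a =>
        lt_of_le_of_ne ((norm_le_pi_norm _ a).trans e.le) (k a)).ne e
    refine one ξ (sphere_subset_closedBall hξ) a ?_
    obtain ⟨k, ek⟩ := nm.rk
    obtain ⟨m, em⟩ := (h.Q_sub hu).2.2.2 (n.succAbove a)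
    have e1 : |ξ a - m * (16 * C.s)| = C.R1 := by
      rw [← em]
      exact ea
    rcases (abs_eq R0.le).1 e1 with e | e
    · exact ⟨m + k, by push_cast; linarith only [ek, e]⟩
    · exact ⟨m - k, by push_cast; linarith only [ek, e]⟩
  have mD : Measurable fun ξ => D (pl n (x0 n) ξ) := hD.comp pc.measurable
  have dl1 : C.dl ≤ 1 := by linarith [nm.dσ, nm.σ0.2, nm.dl0]
  have t2 : 0 ≤ C.t0 / 2 := by linarith only [R0, R2, nm.t0]
  obtain ⟨𝒟, 𝔅, hL⟩ := loop (τ0 := -1) (τ2 := 2 * C.τ) R0 hk hψ (by linarith) (by linarith) hb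
    (hv.comp pc.measurable) mD.enorm (mD.sub_const C.A).enorm
    (ne_top_of_le_ne_top m1 (lintegral_mono_set (closedBall_subset_closedBall Rm))) rfl
    (ln_uga0 hU n (x0 n) fun ξ hξ => inq ξ hξ.1)
    ((ln_uga hU C.A (f (C.ctr u)) (C.ctr u) n (x0 n) fun ξ hξ => inq ξ hξ.1).lip
      fun ξ _ ξ' _ => abs_norm_sub_norm_le _ _) nm.dl0
    (E := 3 * C.dl * (2 * (C.t0 / 2)) ^ 2 * (1 + ‖C.A‖) ^ 2) (ε := C.τ / (2 * 2 ^ C.a))
    (by have := nm.dl0; positivity) (by positivity)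
    (QOwn1_en C.A nm.dl0 dl1 t2 (fun ξ hξ => closedBall_subset_closedBall R2 hξ.1)
      (m2 _ ⟨le_rfl, by unfold Cu.Rm; linarith only [r0]⟩))
  have off : ∀ d ∈ 𝒟, ∀ ξ ∈ d.1, ∀ i, i ≠ n → ¬ ∃ k : ℤ, pl n (x0 n) ξ i = k * (16 * C.s) := by
    rintro d hd ξ hξ i hi ⟨k, ek⟩
    obtain ⟨b1, b2, b3, -⟩ := hL.ball d hd
    obtain ⟨a, rfl⟩ := Fin.exists_succAbove_eq hi
    rw [pl_a] at ek
    exact QOwn1_line b1 (fun ζ hζ e => lt_asymm (b3 ζ hζ).1 (one ζ (b2 (b1.sub hζ)) a ⟨k, e⟩))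
      ξ hξ ek
  have hL' : Lp _ _ _ _ _ (C.τ / 2 ^ C.a) 𝒟 𝔅 :=
    ⟨hL.fin, hL.ball, hL.dis, hL.cov, hL.pos, hL.sum.trans (QOwn1_num nm)⟩
  refine ⟨fg n (x0 n) '' 𝒟, 𝔅, hL'.pre fun d hd ξ hξ => ?_, ?_, fun x hx e hl => ?_⟩
  · have hQ := inQ ξ ((hL.ball d hd).2.1 hξ)
    have := QOwn1_loc hf h hu hn hQ (off d hd ξ hξ)
    rw [pl_n] at this
    exact ⟨QSk_pl hf h hu hQ (ln ξ), this⟩
  · rintro _ ⟨d, hd, rfl⟩
    obtain ⟨-, b2, b3, -⟩ := hL.ball d hd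
    refine ⟨?_, ?_, ?_⟩
    · rintro _ ⟨ξ, hξ, rfl⟩
      exact inQ ξ (b2 hξ)
    · rintro _ ⟨ξ, hξ, rfl⟩
      refine ⟨pl_n _ _ _, fun hs => ?_⟩
      obtain ⟨j, -, hj⟩ := sk_one hf h hu ⟨hs, Cu.GGeo_Q_mono Rm (inQ ξ (b2 hξ))⟩
      obtain ⟨i, i1, i2⟩ := (by decide : ∀ n j : Fin 3, ∃ i, i ≠ n ∧ i ≠ j) n j
      exact off d hd ξ hξ i i1 (hj i i2)
    · rintro _ ⟨ξ, hξ, rfl⟩
      exact (b3 ξ hξ).2
  · have e2 : pl n (x0 n) (pq n x) = x := e ▸ pl_pq n x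
    obtain ⟨d, hd, k1, k2⟩ := hL.cov (pq n x) (QOwn1_out hn R0.le hx) (by rwa [e2])
    exact ⟨_, ⟨d, hd, rfl⟩, QBas_mem.2 ⟨e, k1⟩, fun k => k2 (QBas_mem.1 k).2⟩

end BEp
end
end

-- merged part: Pool.Agent.Work.MP_f0515e_an.P2.QOwn
section
/-! The own discs of a tile. Plates: one section. Solids: the sections `(n, k)`, `x0 = update c n (c n + k * (16 s))`, `|k| * (16 s) ≤ R1`, at most `3 (2 ^ a / 8 + 1) ≤ 2 ^ a` of them (`5 ≤ a`: `GNum_lt`, `nl4`); `QPre.union`.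
Discs in sections with different normals are disjoint: a common point has two grid coordinates, so lies in `sk 1` (`sk_lat`). Cover: `sk_two`. -/

open Set Metric Filter Topology Function BEv MeasureTheory
open scoped NNReal ENNReal

noncomputable section
namespace BEp

variable {C : Cu} {aK : ℝ} {Ω : Set (Rn 3)} {K : Kx Ω} {ch : Set (Rn 3) → Ch} {w : Set (Rn 3) → ℝ}
  {f : Rn 3 → Rn 3} {D : Rn 3 → Rn 3 →L[ℝ] Rn 3} {v : Rn 3 → ℝ≥0∞} {u u' : I3 × I3}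

theorem own_pre (hf : C.Fit aK K ch w) (h : C.Ok aK) (hu : u ∈ C.Adm) (h2 : 2 ≤ C.I.card)
    (hc : ContinuousOn f C.q) (hD : Measurable D) (hv : Measurable v) (hU : USeg C.q f D v)
    (hm : C.Mx D v u) (hg : C.G1 K f u) : ∃ 𝒟 𝔅, QPre f (K.sk 2) C.τ 𝒟 𝔅 ∧
      (∀ φ ∈ 𝒟, φ.d ⊆ C.Q u C.R1 ∧ ∀ x ∈ φ.J, ‖f x - C.aff0 f u x‖ < 2 * C.τ) ∧
      ∀ x ∈ K.sk 2 ∩ C.Q u C.R1, 2 * C.τ ≤ ‖f x - C.aff0 f u x‖ → ∃ φ ∈ 𝒟, x ∈ φ.d \ φ.J := by
  classical
  have nm := h.nm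
  obtain ⟨m, hm1⟩ := nm.rk
  obtain ⟨r0, rm⟩ := QSk_R1 h
  have s0 := nm.s0
  have δ0 : 0 < 16 * C.s := by positivity
  have r1 : C.R1 ≤ C.t0 / 2 := by linarith only [nm, h, s0, nm.r1, mul_pos h.pos.2.2.2.2.2.2.1 s0]
  choose k0 hk0 using (h.Q_sub hu).2.2.2
  have cQ : C.ctr u ∈ C.Q u C.R1 := (Cu.mem_Q r0.le).2 ⟨fun _ _ => rfl, by simpa using r0.le⟩
  obtain ⟨x0, hx0⟩ : ∃ x0 : Fin 3 × ℤ → Rn 3,
    x0 = fun a => update (C.ctr u) a.1 (C.ctr u a.1 + a.2 * (16 * C.s)) := ⟨_, rfl⟩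
  have e0 : ∀ a, x0 a a.1 = C.ctr u a.1 + a.2 * (16 * C.s) := fun a => by rw [hx0]; simp
  have e1 : ∀ a i, i ≠ a.1 → x0 a i = C.ctr u i := fun a i hi => by rw [hx0]; simp [hi]
  have g0 : ∀ a, x0 a a.1 = (k0 a.1 + a.2 : ℤ) * (16 * C.s) := fun a => by
    rw [e0, hk0]; push_cast; ring
  obtain ⟨s, hs⟩ : ∃ s : Finset (Fin 3 × ℤ), s = (Finset.univ ×ˢ Finset.Icc (-(m : ℤ)) m).filter
    fun a => (∀ i, i ≠ a.1 → i ∈ C.I) ∧ x0 a ∈ C.Q u C.R1 := ⟨_, rfl⟩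
  have key := fun (a) (ha : a ∈ s) => own_sec hf h hu hc hD hv hU hm hg
    (Finset.mem_filter.1 (hs ▸ ha)).2.1 (x0 := x0 a)
    ⟨Cu.GGeo_Q_mono r1 (Finset.mem_filter.1 (hs ▸ ha)).2.2, fun i => by
      by_cases k : i = a.1
      · exact ⟨_, k ▸ g0 a⟩
      · exact ⟨_, (e1 a i k).trans (hk0 i)⟩⟩ (e1 a) (Finset.mem_filter.1 (hs ▸ ha)).2.2
  choose! 𝒟 𝔅 q1 q2 q3 using key
  obtain ⟨𝔅', q⟩ := QPre.union s q1 fun a ha b hb ab φ hφ φ' hφ' => by
    refine Set.disjoint_left.2 fun x hx hx' => ?_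
    obtain ⟨a1, a2⟩ := (q2 a ha φ hφ).2.1 x hx
    have b1 := ((q2 b hb φ' hφ').2.1 x hx').1
    by_cases k : a.1 = b.1
    · rw [e0] at a1 b1
      rw [← k, a1, add_right_inj, mul_left_inj' δ0.ne', Int.cast_inj] at b1
      exact ab (Prod.ext k b1)
    · have := sk_lat hf h hu (Cu.GGeo_Q_mono rm ((q2 a ha φ hφ).1 hx))
        ((Finset.univ.erase a.1).erase b.1) fun i _ hi => by
          by_cases k1 : i = a.1
          · exact ⟨_, k1 ▸ a1.trans (g0 a)⟩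
          · by_cases k2 : i = b.1
            · exact ⟨_, k2 ▸ b1.trans (g0 b)⟩
            · exact (hi (by simp [k1, k2])).elim
      rw [Finset.card_erase_of_mem (by simp [Ne.symm k])] at this
      exact a2 (by simpa using this)
  have cd : (s.card : ℝ) ≤ 2 ^ C.a := by
    have a1 : s.card ≤ 3 * (2 * m + 1) := by
      refine (hs ▸ Finset.card_filter_le _ _).trans ?_
      rw [Finset.card_product, Int.card_Icc]
      simp only [Finset.card_univ, Fintype.card_fin]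
      omega
    have a2 : (s.card : ℝ) ≤ 3 * (2 * m + 1) := by exact_mod_cast a1
    have a3 : (16 : ℝ) ≤ 2 ^ C.a := le_of_mul_le_mul_right (by linarith only [nm, nm.st, nm.et]) s0
    have a4 : 16 * (m : ℝ) ≤ 2 ^ C.a := le_of_mul_le_mul_right (by linarith only [hm1, r1, nm, nm.et]) s0
    linarith only [a2, a3, a4]
  refine ⟨_, 𝔅', ⟨q.fin, q.ok, q.dis, q.inb, q.pos, q.sum.trans ?_⟩, fun φ hφ => ?_,
    fun x hx hτ => ?_⟩
  · rw [Finset.sum_const, nsmul_eq_mul, mul_div_assoc', div_le_iff₀' (by positivity)]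
    exact mul_le_mul_of_nonneg_right cd nm.τ0.le
  · obtain ⟨a, ha, k⟩ := mem_iUnion₂.1 hφ
    exact ⟨(q2 a ha φ k).1, (q2 a ha φ k).2.2⟩
  suffices H : ∃ a ∈ s, x a.1 = x0 a a.1 by
    obtain ⟨a, ha, k⟩ := H
    obtain ⟨φ, k1, k2⟩ := q3 a ha x hx.2 k hτ
    exact ⟨φ, mem_iUnion₂.2 ⟨a, ha, k1⟩, k2⟩
  simp only [hs, Finset.mem_filter, Finset.mem_product, Finset.mem_univ, true_and, Finset.mem_Icc]
  by_cases k : ∀ i, i ∈ C.I
  · obtain ⟨i, j, hj⟩ := sk_two hf h hu ⟨hx.1, Cu.GGeo_Q_mono rm hx.2⟩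
    have a1 : x i = C.ctr u i + (j - k0 i : ℤ) * (16 * C.s) := by
      rw [hj, hk0]; push_cast; ring
    have a2 : |x i - C.ctr u i| ≤ C.R1 := hx.2.2 i (k i)
    refine ⟨(i, j - k0 i), ⟨?_, fun i' _ => k i', ?_⟩, a1.trans (e0 (i, j - k0 i)).symm⟩
    · rw [a1, add_sub_cancel_left, hm1, abs_mul, abs_of_pos δ0, mul_le_mul_iff_left₀ δ0] at a2
      exact abs_le.1 (by exact_mod_cast a2)
    · rw [hx0]
      exact QSk_upd cQ (.inr ⟨k i, a1 ▸ a2⟩) r0.le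
  · obtain ⟨n, hn⟩ := not_forall.1 k
    have a1 : C.I = Finset.univ.erase n := Finset.eq_of_subset_of_card_le
      (fun i hi => by simpa using fun e : i = n => hn (e ▸ hi)) (by simpa using h2)
    refine ⟨(n, 0), ⟨by simp, fun i hi => by simpa [a1] using hi, ?_⟩, ?_⟩
    · rw [hx0]
      exact QSk_upd cQ (.inl (by simp)) r0.le
    · rw [e0, Int.cast_zero, zero_mul, add_zero]
      exact hx.2.1 n hn

end BEp
end
end
end
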