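import Pool.Agent.Work.MP_f0515e_an.P2.QSide

/-! No intruders after the cut. If `ρ' ≤ ‖x - c‖`, then `μ ≤ ‖f x - f c‖` (`QCf.far`), `mv`, `pv_ball`. Otherwise `x` lies in the plane of the plate (`near2`). If `Φ (f x) = f x` and `Off 𝒟 x`, use `intr`. Otherwise `Φ (f x)` lies in a ball `β`, of the tile (`bal`, `pv_dis`),
and `ball β ⊆ Nb f u R0 (0.135 m)`. `trk_det` along the segment `L` from `x` in a direction `i ∈ I` with `|x i - c i| = ‖x - c‖ > R1`, outwards, up to `|z i - c i| = 3 ρ'` (`Sep_sk`, `sk_Rm`). -/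

open Set Metric Filter Topology Function BEv MeasureTheory
open scoped NNReal ENNReal

noncomputable section
namespace BEp

variable {ι : Type} [Finite ι] {C : ι → Cu} {P : Pr} {aK : ℝ} {Ω : Set (Rn 3)} {K : Kx Ω}
  {ch : Set (Rn 3) → Ch} {w lam : Set (Rn 3) → ℝ} {f Φ : Rn 3 → Rn 3} {θ : Rn 3 → ℝ} {μ ρ1 μ1 : ℝ}
  {kp : ι → Set (I3 × I3)} {𝒟 : Set Fg} {𝔅 : Pcs kp → Finset (Rn 3 × ℝ)}

theorem z3_cut (h : QCf C P aK K ch w lam f θ μ ρ1 μ1 kp) (hG : QGS C K f ρ1 kp 𝒟 𝔅)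
    (hC : CtOut f (K.sk 2 ∩ ⋃ q, (C q).q) 𝒟 (allB 𝔅) (μ / 1000) Φ) {q : ι} {u : I3 × I3}
    (hu : u ∈ kp q) (h2 : (C q).I.card = 2) {x : Rn 3} (hx : x ∈ K.sk 2)
    (hn : x ∉ (C q).Q u (C q).R1) : Φ (f x) ∉ (C q).Nb f u (C q).R0 (13 / 100 * (C q).m) := by
  intro hy
  have ok := h.gf.ok q
  have n := ok.nm
  have ad := (h.adm q u hu).1
  have μ0 := h.m1.μ0
  have m0 : 0 < (C q).m := by linarith [n.sm, n.s0]
  have κ0 : 0 < (C q).κ * (C q).s := by linarith [n.mκ]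
  have ρ0 : 0 < (C q).ρ' := by linarith [n.ρ1, n.t0]
  have eρ : (C q).ρ' = P.ρ' := congrArg Pr.ρ' (h.gf.par q)
  obtain ⟨hF, -, dm, bl⟩ := QGS.cut h hG
  have yP : Φ (f x) ∈ (C q).Pv f u := Nb_mono (by linarith [n.r0]) (by linarith) hy
  have x1 : ‖x - (C q).ctr u‖ < (C q).ρ' := by
    refine (h.far hu (K.sk_sub 2 hx)).1 ?_
    have a := mem_ball_iff_norm.1 (pv_ball ok yP)
    have b := hC.mv (f x)
    have c := norm_sub_le_norm_sub_add_norm_sub (f x) (Φ (f x)) (f ((C q).ctr u))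
    rw [norm_sub_rev] at b
    linarith [(h.m1.num q).2.1]
  have x2 := (h.gf.fit q).near2 ok h2 ad hx (by linarith [n.t0])
  have Rm0 : 0 ≤ (C q).Rm := by unfold Cu.Rm; linarith [n.t0]
  have sub : (C q).Q u (C q).Rm ⊆ K.sk 2 ∩ ⋃ q, (C q).q := fun z hz =>
    ⟨Sep_sk (h.gf.fit q) ok ad (by omega) hz,
      mem_iUnion.2 ⟨q, ball_subset_closedBall ((sk_Rm ok ad).2 hz)⟩⟩
  have xQ : x ∈ (C q).Q u (C q).Rm :=
    (Cu.mem_Q Rm0).2 ⟨x2, by unfold Cu.Rm; linarith [n.t0]⟩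
  have eb : ∃ β ∈ allB 𝔅, Φ (f x) ∈ ball β.1 β.2 := by
    refine (hC.fix x (sub xQ)).elim (fun e => ?_) id
    by_cases c : Off 𝒟 x
    · exact absurd (Nb_mono le_rfl (by linarith) (e ▸ hy)) (hG.intr q h2 u hu x hx hn c)
    · obtain ⟨φ, k, d⟩ : ∃ φ ∈ 𝒟, x ∈ φ.d \ φ.J := by
        by_contra c'
        exact c fun φ k d => c' ⟨φ, k, d⟩
      obtain ⟨β, k', e'⟩ := hC.fing φ k
      exact ⟨β, k', e' x d.1⟩
  obtain ⟨β, ⟨b, hb⟩, yb⟩ := eb
  have eq : (q, u) = b.1 := by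
    by_contra ne
    have nb := (h.gf.ok b.1.1).nm
    exact disjoint_left.1 (h.pv_dis (q' := b.1.1) (u' := b.1.2) h2.ge hu b.2 ne) yP
      (Nb_mono le_rfl (by linarith [nb.sm, nb.s0]) ((hG.bal b β hb).2 (ball_subset_closedBall yb)))
  obtain ⟨b1, -, b3⟩ := bl b β hb
  rw [← eq] at b1 b3
  dsimp only at b1 b3
  have bn : ball β.1 β.2 ⊆ (C q).Nb f u (C q).R0 (135 / 1000 * (C q).m) := fun y' hy' => by
    obtain ⟨z, z1, z2⟩ := mem_Nb.1 hy
    refine mem_Nb.2 ⟨z, z1, ?_⟩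
    have a := mem_ball_iff_norm.1 hy'
    have a' := mem_ball_iff_norm'.1 yb
    have c := norm_sub_le_norm_sub_add_norm_sub y' β.1 (Φ (f x))
    have c' := norm_sub_le_norm_sub_add_norm_sub y' (Φ (f x)) ((C q).aff0 f u z)
    linarith [n.τm, n.τ0]
  have R1 := QNum_R1 ok
  obtain ⟨i, hi, hi'⟩ : ∃ i ∈ (C q).I, (C q).R1 < |x i - (C q).ctr u i| := by
    by_contra c
    exact hn ⟨x2, fun i hi => not_lt.1 fun d => c ⟨i, hi, d⟩⟩
  obtain ⟨s, hs, hs'⟩ : ∃ s : ℝ, (s = 1 ∨ s = -1) ∧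
      s * (x i - (C q).ctr u i) = |x i - (C q).ctr u i| := by
    rcases abs_cases (x i - (C q).ctr u i) with e | e
    · exact ⟨1, Or.inl rfl, by linarith [e.1]⟩
    · exact ⟨-1, Or.inr rfl, by linarith [e.1]⟩
  have ab : ∀ t : ℝ, s * t ≤ |t| := fun t => by
    rcases hs with rfl | rfl
    · linarith [le_abs_self t]
    · linarith [neg_abs_le t]
  have nm : ∀ z : Rn 3, s * z i ≤ ‖z‖ := fun z => (ab _).trans (norm_le_pi_norm z i)
  have ss : s * s = 1 := by rcases hs with rfl | rfl <;> norm_num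
  set p := update x i ((C q).ctr u i + s * (3 * (C q).ρ')) with hp
  have pi : s * (p i - (C q).ctr u i) = 3 * (C q).ρ' := by
    rw [hp, update_self, add_sub_cancel_left, ← mul_assoc, ss, one_mul]
  have pQ : p ∈ (C q).Q u (C q).Rm := QSk_upd xQ (Or.inr ⟨hi, by
    rw [add_sub_cancel_left]
    unfold Cu.Rm
    rcases hs with rfl | rfl <;> rw [abs_le] <;> constructor <;> linarith [n.t0]⟩) Rm0
  have xi := nm (x - (C q).ctr u)
  rw [Pi.sub_apply] at xi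
  have sL : segment ℝ x p ⊆ K.sk 2 ∩ ⋃ q, (C q).q :=
    ((QSk_cvx u _).segment_subset xQ pQ).trans sub
  refine trk_det hF hC ⟨b, hb⟩ sL ?_ (convex_segment x p).isPreconnected (fun φ k e => ?_)
    (fun z hz ho c => ?_) ⟨p, right_mem_segment _ _ _, fun p' hp' => ?_⟩ x
    (left_mem_segment _ _ _) yb
  · rw [segment_eq_image]
    exact (isCompact_Icc.image (by fun_prop)).isClosed
  · have a := (dm φ k p (e (right_mem_segment _ _ _)) x (e (left_mem_segment _ _ _))).1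
    have a' := nm (p - x)
    rw [Pi.sub_apply] at a'
    linarith
  · refine hG.intr q h2 u hu z (sL hz).1 (fun d => ?_) ho (bn c)
    have d' := (ab _).trans (d.2 i hi)
    obtain ⟨a, a', a0, a0', a1, rfl⟩ := hz
    have e : s * ((a • x + a' • p) i - (C q).ctr u i) =
        a * (s * (x i - (C q).ctr u i)) + a' * (s * (p i - (C q).ctr u i)) := by
      simp only [Pi.add_apply, Pi.smul_apply, smul_eq_mul]
      linear_combination (s * (C q).ctr u i) * a1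
    change s * ((a • x + a' • p) i - (C q).ctr u i) ≤ _ at d'
    rw [e, pi] at d'
    have g1 : (C q).R1 < s * (x i - (C q).ctr u i) := hs' ▸ hi'
    nlinarith [mul_le_mul_of_nonneg_left (show s * (x i - (C q).ctr u i) ≤ 3 * (C q).ρ' by
      linarith) a0']
  · have a : p' ∈ Ω ∧ ‖p - p'‖ ≤ (C q).ρ' := by
      rcases hp' with rfl | ⟨φ, k, d, d'⟩
      · exact ⟨K.sk_sub 2 (sub pQ).1, by simpa using ρ0.le⟩
      · exact ⟨K.sk_sub 2 ((hG.fam.ok φ k).sub d'), eρ ▸ (dm φ k p d p' d').1⟩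
    have a1 := nm (p - (C q).ctr u)
    rw [Pi.sub_apply] at a1
    have a2 := norm_sub_le_norm_sub_add_norm_sub p p' ((C q).ctr u)
    have a3 : μ ≤ ‖f p' - f ((C q).ctr u)‖ := not_lt.1 fun c => by
      linarith [(h.far hu a.1).1 c, a.2]
    have a4 := norm_sub_le_norm_sub_add_norm_sub (f p') β.1 (f ((C q).ctr u))
    linarith

end BEp
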