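import Pool.Agent.Work.MP_f0515e_an.P2.QLoop
import Pool.Agent.Work.MP_f0515e_an.P2.QOwn
import Pool.Agent.Work.MP_f0515e_an.P2.QSide
import Pool.Agent.Work.MP_f0515e_an.P2.QLam3
import Pool.Agent.Work.MP_f0515e_an.P2.QZ3
import Pool.Agent.Work.MP_f0515e_an.P2.QDetS

-- merged part: Pool.Agent.Work.MP_f0515e_an.P2.QCut
section
-- merged part: Pool.Agent.Work.MP_f0515e_an.P2.QIl
section
/-! The discs of the intruders of a plate. `n ∉ I`, `loop` on `closedBall (pq n c) ρ1` with `k = f ∘ pl n (c n)`, `ψ ξ = max 0 (0.19 m - infDist (k ξ) Y)` if `pl n (c n) ξ ∉ Q u R1` and `0` otherwise, `Y = aff0 '' Q u R0` (compact, nonempty).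
On the boundary of the square `Q u R1` (in `sk 1`: `sk_lat`, `Nm.rk`) the distance is at least `σ (R1 - R0) - τ > 0.19 m` (`c1`, `aff_low`), so `ψ` is continuous (`ContinuousOn.if` or similar). On the sphere `ψ = 0` (`pv_ball`, `hfar`).
`τ0 = 0`, `τ1 = 0.02 m`, `τ2 = 0.055 m`, `θ = 1`, `G = P = ‖D‖` (`ln_uga0`, `UgA.lip`), `E = 2 dl² s²` (`IE`; `U` lies in the set of `IE`), `ε = τ / 2`; `v` is integrable by `m2` at the centre. `Sep_sk`, `near2` for `Lp.pre` and for the cover. -/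

open Set Metric Filter Topology Function BEv MeasureTheory
open scoped NNReal ENNReal

noncomputable section
namespace BEp

variable {C : Cu} {aK : ℝ} {Ω : Set (Rn 3)} {K : Kx Ω} {ch : Set (Rn 3) → Ch} {w : Set (Rn 3) → ℝ}
  {f : Rn 3 → Rn 3} {D : Rn 3 → Rn 3 →L[ℝ] Rn 3} {v : Rn 3 → ℝ≥0∞} {u u' : I3 × I3}

/-- On the boundary of the square the image is far from the affine image of the small square. -/
theorem QIl_bd (hf : C.Fit aK K ch w) (h : C.Ok aK) (hu : u ∈ C.Adm) (hA : C.A ≠ 0)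
    (h2 : C.I.card = 2) (hg : C.G1 K f u) {x y : Rn 3} (hx : ∀ i, i ∉ C.I → x i = C.ctr u i)
    (e : ‖x - C.ctr u‖ = C.R1) (hy : y ∈ C.Q u C.R0) :
    19 / 100 * C.m ≤ ‖f x - C.aff0 f u y‖ := by
  have N := h.nm
  obtain ⟨r0, r1⟩ := QSk_R1 h
  have hQ : x ∈ C.Q u C.R1 := (Cu.mem_Q r0.le).2 ⟨hx, e.le⟩
  obtain ⟨i, hi⟩ : ∃ i, |x i - C.ctr u i| = C.R1 := by
    by_contra hn
    push Not at hn
    have : ‖x - C.ctr u‖ < C.R1 := (pi_norm_lt_iff r0).2 fun i =>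
      lt_of_le_of_ne ((norm_le_pi_norm (x - C.ctr u) i).trans e.le) (hn i)
    linarith only [e, this]
  have iI : i ∈ C.I := by_contra fun k => by
    rw [hx i k, sub_self, abs_zero] at hi
    exact r0.ne hi
  have s1 := sk_lat hf h hu (Prep_mono r1 hQ) (C.I.erase i) fun j hj k => by
    obtain rfl : j = i := by_contra fun q => k (Finset.mem_erase.2 ⟨q, hj⟩)
    obtain ⟨m, hm⟩ := (h.Q_sub hu).2.2.2 j
    obtain ⟨k, hk⟩ := N.rk
    rcases (abs_eq r0.le).1 hi with e | e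
    · exact ⟨m + k, by push_cast; linarith only [hm, hk, e]⟩
    · exact ⟨m - k, by push_cast; linarith only [hm, hk, e]⟩
  rw [Finset.card_erase_of_mem iI, h2] at s1
  have c1 := hg.c1 x ⟨s1, Prep_mono (by linarith only [N, N.r1, N.mκ, N.sm, N.s0]) hQ⟩
  rw [Cu.mem_Q (by linarith only [N, N.r2, N.t0])] at hy
  have c2 := aff_low (f := f) (u := u) h hA (x := x) (y := y) fun i hi =>
    (hx i hi).trans (hy.1 i hi).symm
  have c3 : C.σ * (99 / 400 * (C.κ * C.s)) ≤ C.σ * ‖x - y‖ := mul_le_mul_of_nonneg_left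
    (by linarith only [e, hy, N, norm_sub_le_norm_sub_add_norm_sub x y (C.ctr u), hy.2, N.r0]) N.σ0.1.le
  have c4 := norm_sub_le_norm_sub_add_norm_sub (C.aff0 f u x) (f x) (C.aff0 f u y)
  rw [norm_sub_rev _ (f x)] at c4
  linarith only [c1, c2, c3, c4, N, N.em, N.τm, N.τ0]

theorem intr_pre (hf : C.Fit aK K ch w) (h : C.Ok aK) (hu : u ∈ C.Adm) (hA : C.A ≠ 0)
    (h2 : C.I.card = 2) (hc : ContinuousOn f C.q) (hD : Measurable D) (hv : Measurable v)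
    (hU : USeg C.q f D v) (hm : C.Mx D v u) (hg : C.G1 K f u) (hi : C.IE f D u) {ρ1 : ℝ}
    (r1 : C.t0 ≤ ρ1) (r2 : 2 * ρ1 ≤ C.ρ')
    (hfar : ∀ x ∈ Ω, ‖f x - f (C.ctr u)‖ < (1 + ‖C.A‖) * C.t0 → ‖x - C.ctr u‖ < ρ1) :
    ∃ 𝒟 𝔅, QPre f (K.sk 2) C.τ 𝒟 𝔅 ∧
      (∀ φ ∈ 𝒟, φ.d ⊆ closedBall (C.ctr u) ρ1 ∧
        ∀ x ∈ φ.J, x ∉ C.Q u C.R1 ∧ f x ∈ C.Nb f u C.R0 (17 / 100 * C.m)) ∧
      ∀ x ∈ K.sk 2, x ∉ C.Q u C.R1 → f x ∈ C.Nb f u C.R0 (135 / 1000 * C.m) →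
        ∃ φ ∈ 𝒟, x ∈ φ.d \ φ.J := by
  classical
  have N := h.nm
  obtain ⟨r0, r3⟩ := QSk_R1 h
  have m0 : 0 < C.m := by linarith only [N, N.sm, N.s0]
  have ρ0 : 0 < ρ1 := N.t0.trans_le r1
  have R0 : 0 ≤ C.R0 := by linarith only [N, N.r2, N.t0]
  obtain ⟨n, hn⟩ : ∃ n, ∀ i, i ∈ C.I ↔ i ≠ n := by
    obtain ⟨n, hn⟩ := Finset.card_eq_one.1 (show C.Iᶜ.card = 1 by simp [Finset.card_compl, h2])
    exact ⟨n, fun i => by rw [Ne, ← Finset.mem_singleton, ← hn, Finset.mem_compl, not_not]⟩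
  have pn : ∀ ξ, ‖pl n (C.ctr u n) ξ - C.ctr u‖ = ‖ξ - pq n (C.ctr u)‖ := fun ξ => by
    have := pl_norm n (C.ctr u n) (C.ctr u n) ξ (pq n (C.ctr u))
    rwa [pl_pq, sub_self, abs_zero, max_eq_right (norm_nonneg _)] at this
  have pI : ∀ ξ i, i ∉ C.I → pl n (C.ctr u n) ξ i = C.ctr u i := fun ξ i hi => by
    obtain rfl : i = n := by_contra fun k => hi ((hn i).2 k)
    exact pl_n _ _ _
  have pQ : ∀ {ξ R}, 0 ≤ R → (pl n (C.ctr u n) ξ ∈ C.Q u R ↔ ξ ∈ closedBall (pq n (C.ctr u)) R) :=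
    fun hR => by rw [Cu.mem_Q hR, pn, mem_closedBall_iff_norm, and_iff_right (pI _)]
  have pb : ∀ ξ ∈ closedBall (pq n (C.ctr u)) ρ1, ‖pl n (C.ctr u n) ξ - C.ctr u‖ ≤ ρ1 :=
    fun ξ k => (pn ξ).trans_le (mem_closedBall_iff_norm.1 k)
  have hq : ∀ ξ ∈ closedBall (pq n (C.ctr u)) ρ1, pl n (C.ctr u n) ξ ∈ C.q := fun ξ k =>
    ball_subset_closedBall (Sep_ball h hu (mem_ball_iff_norm.2 (by linarith only [r2, ρ0, pb, k, pb ξ k])))
  have cp := (pl_tp n (C.ctr u n)).1.continuous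
  have ck : ContinuousOn (fun ξ => f (pl n (C.ctr u n) ξ)) (closedBall (pq n (C.ctr u)) ρ1) :=
    hc.comp cp.continuousOn hq
  have c0 : ∀ R, 0 ≤ R → C.ctr u ∈ C.Q u R := fun R hR =>
    (Cu.mem_Q hR).2 ⟨fun _ _ => rfl, by rwa [sub_self, norm_zero]⟩
  have Yn : (C.aff0 f u '' C.Q u C.R0).Nonempty := ⟨_, _, c0 _ R0, rfl⟩
  have nb1 : ∀ {y a}, infDist y (C.aff0 f u '' C.Q u C.R0) < a → y ∈ C.Nb f u C.R0 a := fun k => by
    obtain ⟨z, z1, z2⟩ := (infDist_lt_iff Yn).1 k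
    exact ⟨z, z1, (dist_eq_norm _ z).symm.trans_le z2.le⟩
  have far : ∀ x ∈ Ω, f x ∈ C.Nb f u C.R0 (19 / 100 * C.m) → ‖x - C.ctr u‖ < ρ1 := fun x hx k =>
    hfar x hx (mem_ball_iff_norm.1 (pv_ball h
      (Nb_mono (by linarith only [m0, N, N.r0, N.mκ, N.sm, N.s0]) le_rfl k)))
  obtain ⟨ψ, hψ⟩ : ∃ ψ : Rn 2 → ℝ, ψ = fun ξ => if ξ ∈ closedBall (pq n (C.ctr u)) C.R1 then 0 else
      max 0 (19 / 100 * C.m - infDist (f (pl n (C.ctr u n) ξ)) (C.aff0 f u '' C.Q u C.R0)) :=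
    ⟨_, rfl⟩
  have pos : ∀ ξ, 0 < ψ ξ → pl n (C.ctr u n) ξ ∉ C.Q u C.R1 ∧
      ψ ξ = 19 / 100 * C.m - infDist (f (pl n (C.ctr u n) ξ)) (C.aff0 f u '' C.Q u C.R0) := by
    intro ξ k
    simp only [hψ] at k ⊢
    split_ifs at k ⊢ with q
    · exact (lt_irrefl _ k).elim
    · exact ⟨fun r => q ((pQ r0.le).1 r),
        max_eq_right ((lt_max_iff.1 k).resolve_left (lt_irrefl _)).le⟩
  have cψ : ContinuousOn ψ (closedBall (pq n (C.ctr u)) ρ1) := by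
    rw [hψ]
    refine ContinuousOn.if (fun ξ k => (max_eq_left (sub_nonpos.2 ((le_infDist Yn).2 ?_))).symm)
      continuousOn_const ((continuousOn_const.sup (continuousOn_const.sub
        ((continuous_infDist_pt _).comp_continuousOn ck))).mono inter_subset_left)
    rintro _ ⟨y, hy, rfl⟩
    rw [dist_eq_norm]
    exact QIl_bd hf h hu hA h2 hg (pI ξ)
      ((pn ξ).trans (mem_sphere_iff_norm.1 (frontier_closedBall_subset_sphere k.2))) hy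
  have mD : Measurable fun ξ => ‖D (pl n (C.ctr u n) ξ)‖ₑ := (hD.comp cp.measurable).enorm
  have u1 := ln_uga0 hU n (C.ctr u n) (U := {ξ | ξ ∈ closedBall (pq n (C.ctr u)) ρ1 ∧ 0 < ψ ξ})
    fun ξ k => hq ξ k.1
  obtain ⟨𝒟, 𝔅, L⟩ := loop ρ0 ck cψ (τ0 := 0) (τ1 := 2 / 100 * C.m) (τ2 := 55 / 1000 * C.m)
    (by linarith only [m0]) (by linarith only [m0]) (fun ξ k => by
      by_contra q
      have := far _ (hf.sub (hq ξ (sphere_subset_closedBall k)))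
        (nb1 (by linarith only [m0, q, pos, (pos ξ (by linarith)).2]))
      rw [pn, mem_sphere_iff_norm.1 k] at this
      exact lt_irrefl _ this)
    (hv.comp cp.measurable) mD mD
    (ne_top_of_le_ne_top (hm.m2 n (fun i => (hn i).2) _ ⟨c0 _ (by linarith only [N, N.t0]),
      (h.Q_sub hu).2.2.2⟩ fun _ _ => rfl).1 (lintegral_mono_set (closedBall_subset_closedBall (by
        unfold Cu.Rm
        linarith only [r2, ρ0, N, N.t0]))))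
    rfl u1 (u1.lip fun ξ k ξ' k' => by
      rw [(pos ξ k.2).2, (pos ξ' k'.2).2, sub_sub_sub_cancel_left, norm_sub_rev, ← dist_eq_norm,
        ← dist_eq_norm]
      simpa using (lipschitz_infDist_pt (C.aff0 f u '' C.Q u C.R0)).dist_le_mul _ _)
    one_pos (E := 2 * (C.dl ^ 2 * C.s ^ 2)) (by positivity) (half_pos N.τ0) (by
      simp only [inv_one, ENNReal.ofReal_one, one_mul, ← two_mul]
      rw [lintegral_const_mul' _ _ (by simp), ENNReal.ofReal_mul zero_le_two, ENNReal.ofReal_ofNat]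
      refine mul_le_mul_right ((lintegral_mono_set fun ξ k => ?_).trans (hi n hn)) _
      exact ⟨closedBall_subset_closedBall (by linarith only [r2, ρ0]) k.1, (pos ξ k.2).1,
        nb1 (by linarith only [pos, k, (pos ξ k.2).2, k.2])⟩)
  have P := L.pre (Z := K.sk 2) fun d hd ξ k => by
    have b := (L.ball d hd).2.1 k
    refine ⟨Sep_sk hf h hu (by omega) ((pQ (by linarith only [r2, ρ0, N, N.t0])).2
      (closedBall_subset_closedBall (by linarith only [r2, ρ0, N, N.t0]) b)), ?_⟩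
    filter_upwards [isOpen_ball.mem_nhds (mem_ball_iff_norm.2 ((pb ξ b).trans_lt
      (show ρ1 < C.t0 / 2 + C.ρ' by linarith only [r2, ρ0, N, N.t0])))] with y y1 y2
    exact hf.near2 h h2 hu y2 (mem_ball_iff_norm.1 y1) n fun k => (hn n).1 k rfl
  refine ⟨_, 𝔅, { P with sum := P.sum.trans ?_ }, ?_, fun x hx hQ hN => ?_⟩
  · have a1 : 32000 * (C.dl * C.s) ≤ C.τ := by
      linarith only [N, N.dτ, mul_le_mul_of_nonneg_left N.st N.dl0.le]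
    have a2 := mul_le_mul a1 (a1.trans (show C.τ ≤ C.m by linarith only [m0, N, N.τm, N.τ0]))
      (by linarith only [N, mul_pos N.dl0 N.s0]) N.τ0.le
    rw [← le_sub_iff_add_le, div_le_iff₀ (by linarith only [m0])]
    linarith only [a2, mul_pos N.τ0 m0, mul_self_nonneg ((32000 : ℝ) * (C.dl * C.s))]
  · rintro _ ⟨d, hd, rfl⟩
    refine ⟨?_, ?_⟩
    · rintro _ ⟨ξ, k, rfl⟩
      exact mem_closedBall_iff_norm.2 (pb ξ ((L.ball d hd).2.1 k))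
    · rintro _ ⟨ξ, k, rfl⟩
      have a := ((L.ball d hd).2.2.1 ξ k).1
      have b := pos ξ (by linarith only [m0, a])
      exact ⟨b.1, nb1 (by linarith only [a, b, b.2])⟩
  · have a := far x hx.1 (Nb_mono le_rfl (by linarith only [m0]) hN)
    have e : pl n (C.ctr u n) (pq n x) = x := by
      rw [← hf.near2 h h2 hu hx (by linarith only [r2, ρ0, a, N, N.t0]) n fun k => (hn n).1 k rfl, pl_pq]
    obtain ⟨d, hd, k⟩ := L.cov (pq n x) (mem_closedBall_iff_norm.2 (by rw [← pn, e]; exact a.le)) (by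
      obtain ⟨z, z1, z2⟩ := hN
      have := infDist_le_dist_of_mem (x := f x) z1
      rw [dist_eq_norm] at this
      simp only [hψ]
      rw [if_neg fun q => hQ (e ▸ (pQ r0.le).2 q), e]
      exact le_max_of_le_right (by linarith only [z2, this]))
    refine ⟨_, ⟨d, hd, rfl⟩, ⟨_, k.1, e⟩, ?_⟩
    rintro ⟨ξ, k', e'⟩
    exact k.2 ((pl_tp n _).2.1 (e'.trans e.symm) ▸ k')

end BEp
end
end

-- merged part: Pool.Agent.Work.MP_f0515e_an.P2.QPill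
section
/-! Pillboxes `P = {x + t e_n | x ∈ d, |t| ≤ κ}`. `κ` small: the boxes are disjoint and lie in `interior S`, top and bottom miss `Z` (`Fg.Ok.miss`), `f` sends the lateral part into `O`. `P` is a `Ball` (chart `x ↦ pl n (h + κ * x 2) (Θ (pj3 x))`), its image under `g` too
(`PCel.image`, `PCel.ball3`). `ε` small (compactness, injectivity of `f`). For `x ∈ d` with `f x ∉ O` (a compact set in the interior of `P`) the segment from `g x` to `f x` misses the image of the boundary, `Ball.side`. -/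

open Set Metric Filter Topology Function BEv MeasureTheory
open scoped NNReal ENNReal

noncomputable section
namespace BEp

/-- Translates of `A` in the direction normal to `φ`. -/
def QPill_bx (φ : Fg) (A : Set (Rn 3)) (I : Set ℝ) : Set (Rn 3) :=
  image2 (fun x (t : ℝ) => x + t • (Pi.single φ.n 1 : Rn 3)) A I

/-- The height of the top or of the bottom. -/
def QPill_sg (κ : ℝ) (s : Bool) : ℝ := if s then κ else -κ

theorem QPill_sep {A B : Set (Rn 3)} (hA : IsCompact A) (hB : IsClosed B) (hd : Disjoint A B) :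
    ∀ᶠ κ in 𝓝[>] (0 : ℝ), ∀ x ∈ A, ∀ y ∈ B, 2 * κ < ‖x - y‖ := by
  obtain ⟨δ, hδ, h⟩ := hA.exists_cthickening_subset_open hB.isOpen_compl
    (subset_compl_iff_disjoint_right.2 hd)
  filter_upwards [Ioo_mem_nhdsGT (half_pos hδ)] with κ hκ x hx y hy
  by_contra hn
  refine h (mem_cthickening_of_dist_le y x δ A hx ?_) hy
  rw [dist_eq_norm, norm_sub_rev]
  linarith only [hn, hκ, hκ.2, not_lt.1 hn]

theorem QPill_in {A U : Set (Rn 3)} (hA : IsCompact A) (hU : IsOpen U) (hs : A ⊆ U) :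
    ∀ᶠ κ in 𝓝[>] (0 : ℝ), ∀ x ∈ A, ∀ y, ‖x - y‖ ≤ 2 * κ → y ∈ U := by
  filter_upwards [QPill_sep hA hU.isClosed_compl (disjoint_compl_right_iff_subset.2 hs)]
    with κ hκ x hx y hy
  by_contra hn
  exact absurd (hκ x hx y hn) (not_lt.2 hy)

theorem QPill_norm (n : Fin 3) (x : Rn 3) : ‖x‖ = max |x n| ‖pq n x‖ := by
  have h := pl_norm n (x n) 0 (pq n x) 0
  have e : pl n 0 0 = 0 := pl_pq n 0
  rwa [pl_pq, e, sub_zero, sub_zero, sub_zero] at h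

theorem QPill_e (n : Fin 3) (t : ℝ) : ‖t • (Pi.single n 1 : Rn 3)‖ = |t| := by
  rw [norm_smul, Pi.norm_single, norm_one, mul_one, Real.norm_eq_abs]

theorem QPill_near {φ : Fg} {A : Set (Rn 3)} {κ : ℝ} {y : Rn 3}
    (h : y ∈ QPill_bx φ A (Icc (-κ) κ)) : ∃ x ∈ A, ‖x - y‖ ≤ κ := by
  obtain ⟨x, hx, t, ht, rfl⟩ := h
  refine ⟨x, hx, ?_⟩
  rw [sub_add_cancel_left, norm_neg, QPill_e]
  exact abs_le.2 ht

theorem QPill_mono {φ : Fg} {A A' : Set (Rn 3)} {I I' : Set ℝ} (h : A ⊆ A') (h' : I ⊆ I') :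
    QPill_bx φ A I ⊆ QPill_bx φ A' I' := image2_subset h h'

theorem QPill_cpt (φ : Fg) {A : Set (Rn 3)} {I : Set ℝ} (hA : IsCompact A) (hI : IsCompact I) :
    IsCompact (QPill_bx φ A I) := by
  rw [QPill_bx, ← image_prod]
  exact (hA.prod hI).image (by fun_prop)

theorem QPill_uniq {φ : Fg} {Z : Set (Rn 3)} (h : φ.Ok Z) {x x' : Rn 3} {t t' : ℝ} (hx : x ∈ φ.d)
    (hx' : x' ∈ φ.d)
    (e : x + t • (Pi.single φ.n 1 : Rn 3) = x' + t' • (Pi.single φ.n 1 : Rn 3)) :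
    x = x' ∧ t = t' := by
  obtain ⟨c, B, S, -, hd, -⟩ := h.fd
  rw [hd] at hx hx'
  obtain ⟨ξ, -, rfl⟩ := hx
  obtain ⟨ξ', -, rfl⟩ := hx'
  rw [pl_add, pl_add] at e
  have e1 := congrFun e φ.n
  have e2 := congrArg (pq φ.n) e
  rw [pl_n, pl_n] at e1
  rw [pq_pl, pq_pl] at e2
  exact ⟨by rw [e2], add_left_cancel e1⟩

theorem QPill_sg_mem {κ : ℝ} (hκ : 0 < κ) (s : Bool) : QPill_sg κ s ∈ Icc (-κ) κ := by
  cases s
  · exact ⟨le_rfl, show -κ ≤ κ by linarith⟩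
  · exact ⟨show -κ ≤ κ by linarith, le_rfl⟩

theorem QPill_sg_abs {κ : ℝ} (hκ : 0 < κ) (s : Bool) : |QPill_sg κ s| = κ := by
  cases s
  · exact (abs_neg κ).trans (abs_of_pos hκ)
  · exact abs_of_pos hκ

theorem QPill_sg_inj {κ : ℝ} (hκ : 0 < κ) {s s' : Bool} (e : QPill_sg κ s = QPill_sg κ s') :
    s = s' := by
  cases s <;> cases s'
  · rfl
  · have : -κ = κ := e
    linarith only [hκ, this]
  · have : κ = -κ := e
    linarith
  · rfl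

theorem QPill_dsc {φ : Fg} {Z : Set (Rn 3)} (h : φ.Ok Z) (t : ℝ) :
    PDsc (QPill_bx φ φ.d {t}) (QPill_bx φ φ.J {t}) := by
  obtain ⟨c, B, S, hB, hd, hJ⟩ := h.fd
  have h1 : PDsc φ.d φ.J := by
    rw [hd, hJ]
    exact hB.cel.image (pl_tp φ.n c).1 (pl_tp φ.n c).2.1.injOn
  rw [QPill_bx, QPill_bx, image2_singleton_right, image2_singleton_right]
  exact h1.image (TP.id'.add (TP.const _)) fun _ _ _ _ e => add_right_cancel e

theorem QPill_img (φ : Fg) (c : ℝ) {κ : ℝ} (hκ : 0 < κ) (Θ : Rn 2 → Rn 2) (A : Set (Rn 2))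
    {I I' : Set ℝ} (hI : ∀ t, κ * t ∈ I' ↔ t ∈ I) :
    (fun x : Rn 3 => pl φ.n c (Θ (pq φ.n x)) + (κ * x φ.n) • (Pi.single φ.n 1 : Rn 3)) ''
      {x | pq φ.n x ∈ A ∧ x φ.n ∈ I} = QPill_bx φ (pl φ.n c '' (Θ '' A)) I' := by
  ext y
  constructor
  · rintro ⟨x, ⟨h1, h2⟩, rfl⟩
    exact ⟨_, ⟨_, ⟨_, h1, rfl⟩, rfl⟩, _, (hI _).2 h2, rfl⟩
  · rintro ⟨_, ⟨_, ⟨ξ, h1, rfl⟩, rfl⟩, t, ht, rfl⟩
    have e : κ * (t / κ) = t := mul_div_cancel₀ t hκ.ne'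
    refine ⟨pl φ.n (t / κ) ξ, ⟨by rwa [pq_pl], ?_⟩, ?_⟩
    · rw [pl_n, ← hI, e]
      exact ht
    · simp only [pq_pl, pl_n, e]

theorem QPill_cel {φ : Fg} {Z : Set (Rn 3)} (h : φ.Ok Z) {κ : ℝ} (hκ : 0 < κ) :
    PCel 3 (QPill_bx φ φ.d (Icc (-κ) κ)) (QPill_bx φ φ.d {QPill_sg κ true} ∪
      QPill_bx φ φ.d {QPill_sg κ false} ∪ QPill_bx φ φ.J (Icc (-κ) κ)) := by
  obtain ⟨c, B, S, ⟨Θ, hΘ, rfl, rfl⟩, hd, hJ⟩ := h.fd
  have i0 : ∀ t, κ * t ∈ Icc (-κ) κ ↔ t ∈ Icc (-1 : ℝ) 1 := fun t =>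
    ⟨fun k => ⟨by (refine le_of_not_gt fun h_nl => ?_; linarith only [h_nl, k, hκ, k.1, mul_pos_of_neg_of_neg (Mathlib.Tactic.Linarith.sub_neg_of_lt hκ) (Mathlib.Tactic.Linarith.sub_neg_of_lt h_nl)]), by nlinarith [k.2]⟩,
      fun k => ⟨by nlinarith [k.1], by nlinarith [k.2]⟩⟩
  have i1 : ∀ t, κ * t ∈ ({QPill_sg κ true} : Set ℝ) ↔ t ∈ ({1} : Set ℝ) := fun t =>
    mul_eq_left₀ hκ.ne'
  have i2 : ∀ t, κ * t ∈ ({QPill_sg κ false} : Set ℝ) ↔ t ∈ ({-1} : Set ℝ) := fun t => by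
    change κ * t = -κ ↔ t = -1
    rw [← mul_neg_one κ]
    exact mul_right_inj' hκ.ne'
  refine ⟨fun x : Rn 3 => pl φ.n c (Θ (pq φ.n x)) + (κ * x φ.n) • (Pi.single φ.n 1 : Rn 3),
    ((pl_tp φ.n c).1.comp (hΘ.tp.comp (pl_tp φ.n c).2.2)).add
      (((TP.id'.apply φ.n).const_mul κ).smul_const _), fun x _ x' _ e => ?_, ?_, ?_⟩
  · simp only [pl_add] at e
    have e1 := congrFun e φ.n
    have e2 := congrArg (pq φ.n) e
    rw [pl_n, pl_n] at e1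
    rw [pq_pl, pq_pl] at e2
    rw [← pl_pq φ.n x, ← pl_pq φ.n x', hΘ.inj e2, mul_left_cancel₀ hκ.ne' (add_left_cancel e1)]
  · rw [hd, ← QPill_img φ c hκ Θ _ i0]
    congr 1
    ext x
    simp only [mem_closedBall_zero_iff, mem_ofPred_eq, mem_Icc, ← abs_le]
    rw [QPill_norm φ.n x, max_le_iff, and_comm]
  · rw [hd, hJ, ← QPill_img φ c hκ Θ _ i0, ← QPill_img φ c hκ Θ _ i1, ← QPill_img φ c hκ Θ _ i2,
      ← image_union, ← image_union]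
    congr 1
    ext x
    simp only [mem_closedBall_zero_iff, mem_sphere_zero_iff_norm, mem_ofPred_eq, mem_Icc, ← abs_le,
      mem_union, mem_singleton_iff]
    rw [QPill_norm φ.n x]
    constructor
    · intro e
      have k1 := (le_max_left _ _).trans e.le
      have k2 := (le_max_right _ _).trans e.le
      rcases max_choice |x φ.n| ‖pq φ.n x‖ with k | k
      · rcases (abs_eq zero_le_one).1 (k.symm.trans e) with k' | k'
        · exact Or.inl (Or.inl ⟨k2, k'⟩)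
        · exact Or.inl (Or.inr ⟨k2, k'⟩)
      · exact Or.inr ⟨k.symm.trans e, k1⟩
    · rintro ((⟨k1, k2⟩ | ⟨k1, k2⟩) | ⟨k1, k2⟩)
      · rw [k2, abs_one]; exact max_eq_left k1
      · rw [k2, abs_neg, abs_one]; exact max_eq_left k1
      · rw [k1]; exact max_eq_right k2

/-- The height of the boxes. -/
theorem QPill_kap {S Z : Set (Rn 3)} {f : Rn 3 → Rn 3} (hS : IsCompact S) (hc : ContinuousOn f S)
    {𝒟 : Set Fg} (hf : 𝒟.Finite) (ok : ∀ φ ∈ 𝒟, φ.Ok Z ∧ φ.d ⊆ interior S)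
    (dis : ∀ φ ∈ 𝒟, ∀ φ' ∈ 𝒟, φ ≠ φ' → Disjoint φ.d φ'.d) {O : Fg → Set (Rn 3)}
    (hO : ∀ φ ∈ 𝒟, IsOpen (O φ) ∧ f '' φ.J ⊆ O φ) {η : ℝ} (hη : 0 < η) :
    ∃ κ : ℝ, 0 < κ ∧ ∀ φ ∈ 𝒟, QPill_bx φ φ.d (Icc (-κ) κ) ⊆ S ∧
      (∀ s, Disjoint Z (QPill_bx φ φ.d {QPill_sg κ s})) ∧
      f '' QPill_bx φ φ.J (Icc (-κ) κ) ⊆ O φ ∧
      (∀ y ∈ QPill_bx φ φ.d (Icc (-κ) κ), ∃ x ∈ φ.d, ‖f y - f x‖ < η) ∧
      ∀ φ' ∈ 𝒟, φ ≠ φ' →
        Disjoint (QPill_bx φ φ.d (Icc (-κ) κ)) (QPill_bx φ' φ'.d (Icc (-κ) κ)) := by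
  obtain ⟨δ, hδ, hu⟩ := Metric.uniformContinuousOn_iff.1
    (hS.uniformContinuousOn_of_continuous hc) η hη
  have key : ∀ᶠ κ in 𝓝[>] (0 : ℝ), 0 < κ ∧ ∀ φ ∈ 𝒟, QPill_bx φ φ.d (Icc (-κ) κ) ⊆ S ∧
      (∀ s, Disjoint Z (QPill_bx φ φ.d {QPill_sg κ s})) ∧
      f '' QPill_bx φ φ.J (Icc (-κ) κ) ⊆ O φ ∧
      (∀ y ∈ QPill_bx φ φ.d (Icc (-κ) κ), ∃ x ∈ φ.d, ‖f y - f x‖ < η) ∧
      ∀ φ' ∈ 𝒟, φ ≠ φ' →
        Disjoint (QPill_bx φ φ.d (Icc (-κ) κ)) (QPill_bx φ' φ'.d (Icc (-κ) κ)) := by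
    refine Eventually.and self_mem_nhdsWithin ((eventually_all_finite hf).2 fun φ hφ => ?_)
    obtain ⟨k1, k2⟩ := ok φ hφ
    obtain ⟨c1, c2, -, -, c3, -⟩ := k1.top
    obtain ⟨ε, hε, hm⟩ := k1.miss
    have o1 : IsOpen (interior S ∩ f ⁻¹' O φ) :=
      (hc.mono interior_subset).isOpen_inter_preimage isOpen_interior (hO φ hφ).1
    have e5 : ∀ᶠ κ in 𝓝[>] (0 : ℝ), ∀ φ' ∈ 𝒟, φ ≠ φ' → ∀ x ∈ φ.d, ∀ y ∈ φ'.d, 2 * κ < ‖x - y‖ :=
      (eventually_all_finite hf).2 fun φ' hφ' => by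
        by_cases e : φ = φ'
        · exact Eventually.of_forall fun _ hn => absurd e hn
        · exact (QPill_sep c1 (ok φ' hφ').1.top.1.isClosed (dis φ hφ φ' hφ' e)).mono
            fun _ k _ => k
    filter_upwards [QPill_in c1 isOpen_interior k2,
      QPill_in c2 o1 fun x hx => ⟨k2 (c3 hx), (hO φ hφ).2 (mem_image_of_mem f hx)⟩,
      Ioo_mem_nhdsGT hε, Ioo_mem_nhdsGT hδ, e5] with κ a1 a2 a3 a4 a5
    have b1 : QPill_bx φ φ.d (Icc (-κ) κ) ⊆ S := fun y hy => by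
      obtain ⟨x, hx, e⟩ := QPill_near hy
      exact interior_subset (a1 x hx y (by linarith [a3.1]))
    refine ⟨b1, fun s => disjoint_right.2 ?_, ?_, fun y hy => ?_, fun φ' hφ' hne => ?_⟩
    · rintro _ ⟨x, hx, t, rfl, rfl⟩
      have := QPill_sg_abs a3.1 s
      exact hm x hx _ (abs_pos.1 (by rw [this]; exact a3.1)) (by rw [this]; exact a3.2.le)
    · rintro _ ⟨y, hy, rfl⟩
      obtain ⟨x, hx, e⟩ := QPill_near hy
      exact (a2 x hx y (by linarith [a3.1])).2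
    · obtain ⟨x, hx, e⟩ := QPill_near hy
      refine ⟨x, hx, ?_⟩
      rw [← dist_eq_norm]
      refine hu y (b1 hy) x (interior_subset (k2 hx)) ?_
      rw [dist_eq_norm, norm_sub_rev]
      exact e.trans_lt a4.2
    · refine disjoint_left.2 fun y hy hy' => ?_
      obtain ⟨x, hx, e⟩ := QPill_near hy
      obtain ⟨x', hx', e'⟩ := QPill_near hy'
      have := a5 φ' hφ' hne x hx x' hx'
      have k := norm_sub_le_norm_sub_add_norm_sub x y x'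
      rw [norm_sub_rev y x'] at k
      linarith
  exact key.exists

/-- Images of disjoint compact sets are far apart. -/
theorem QPill_far {S A B : Set (Rn 3)} {f : Rn 3 → Rn 3} (hc : ContinuousOn f S) (hi : InjOn f S)
    (hA : IsCompact A) (hB : IsCompact B) (h1 : A ⊆ S) (h2 : B ⊆ S) (hd : Disjoint A B) :
    ∀ᶠ ε in 𝓝[>] (0 : ℝ), ∀ x ∈ A, ∀ y ∈ B, 2 * ε < ‖f x - f y‖ := by
  have := QPill_sep (hA.image_of_continuousOn (hc.mono h1))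
    (hB.image_of_continuousOn (hc.mono h2)).isClosed (hd.image hi h1 h2)
  exact this.mono fun ε k x hx y hy => k _ (mem_image_of_mem f hx) _ (mem_image_of_mem f hy)

theorem pill {S Z : Set (Rn 3)} {f : Rn 3 → Rn 3} (hS : IsCompact S) (hc : ContinuousOn f S)
    (hi : InjOn f S) (hm : Moi f S) (hZ : IsClosed Z) (hs : Z ⊆ S) {𝒟 : Set Fg} (hf : 𝒟.Finite)
    (ok : ∀ φ ∈ 𝒟, φ.Ok Z ∧ φ.d ⊆ interior S)
    (dis : ∀ φ ∈ 𝒟, ∀ φ' ∈ 𝒟, φ ≠ φ' → Disjoint φ.d φ'.d) {O : Fg → Set (Rn 3)}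
    (hO : ∀ φ ∈ 𝒟, IsOpen (O φ) ∧ f '' φ.J ⊆ O φ) {η : ℝ} (hη : 0 < η) :
    ∃ (D J : Fg → Bool → Set (Rn 3)) (L M : Fg → Set (Rn 3)), ∀ φ ∈ 𝒟,
      (∀ s, PDsc (D φ s) (J φ s) ∧ J φ s ⊆ L φ ∧ (∀ y ∈ D φ s, ∃ x ∈ φ.d, ‖y - f x‖ < η) ∧
        (f '' Z ∪ ⋃ φ' ∈ 𝒟, L φ') ∩ D φ s ⊆ J φ s) ∧ IsClosed (L φ) ∧ L φ ⊆ O φ ∧
      Ball (M φ) (D φ true ∪ D φ false ∪ L φ) ∧ f '' φ.d ⊆ M φ ∪ O φ ∧
      ∀ φ' ∈ 𝒟, ∀ s s', (φ, s) ≠ (φ', s') → Disjoint (D φ s) (D φ' s') := by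
  obtain ⟨κ, hκ, H⟩ := QPill_kap hS hc hf ok dis hO (half_pos hη)
  have hZc : IsCompact Z := hS.of_isClosed_subset hZ hs
  let P : Fg → Set (Rn 3) := fun φ => QPill_bx φ φ.d (Icc (-κ) κ)
  let T : Fg → Bool → Set (Rn 3) := fun φ s => QPill_bx φ φ.d {QPill_sg κ s}
  let W : Fg → Set (Rn 3) := fun φ => QPill_bx φ φ.J (Icc (-κ) κ)
  have TP' : ∀ φ s, T φ s ⊆ P φ := fun φ s =>
    QPill_mono Subset.rfl (singleton_subset_iff.2 (QPill_sg_mem hκ s))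
  have WP : ∀ φ ∈ 𝒟, W φ ⊆ P φ := fun φ hφ => QPill_mono (ok φ hφ).1.top.2.2.2.2.1 Subset.rfl
  have PS : ∀ φ ∈ 𝒟, P φ ⊆ S := fun φ hφ => (H φ hφ).1
  have cT : ∀ φ ∈ 𝒟, ∀ s, IsCompact (T φ s) := fun φ hφ s =>
    QPill_cpt φ (ok φ hφ).1.top.1 isCompact_singleton
  have cW : ∀ φ ∈ 𝒟, IsCompact (W φ) := fun φ hφ => QPill_cpt φ (ok φ hφ).1.top.2.1 isCompact_Icc
  have BP : ∀ φ ∈ 𝒟, T φ true ∪ T φ false ∪ W φ ⊆ P φ := fun φ hφ =>
    union_subset (union_subset (TP' φ true) (TP' φ false)) (WP φ hφ)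
  have dS : ∀ φ ∈ 𝒟, φ.d ⊆ S := fun φ hφ => (ok φ hφ).2.trans interior_subset
  have key : ∀ᶠ ε in 𝓝[>] (0 : ℝ), ε ∈ Ioo 0 (η / 2) ∧ ∀ φ ∈ 𝒟,
      (∀ s, ∀ x ∈ Z, ∀ y ∈ T φ s, 2 * ε < ‖f x - f y‖) ∧
      (∀ x ∈ f '' W φ, ∀ y, ‖x - y‖ ≤ 2 * ε → y ∈ O φ) ∧
      ∀ x ∈ φ.d ∩ f ⁻¹' (O φ)ᶜ, ∀ y ∈ T φ true ∪ T φ false ∪ W φ, 2 * ε < ‖f x - f y‖ := by
    refine Eventually.and (Ioo_mem_nhdsGT (half_pos hη))
      ((eventually_all_finite hf).2 fun φ hφ => ?_)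
    obtain ⟨k1, -⟩ := ok φ hφ
    refine (eventually_all.2 fun s => QPill_far hc hi hZc (cT φ hφ s) hs
      ((TP' φ s).trans (PS φ hφ)) ((H φ hφ).2.1 s)).and (Eventually.and
        (QPill_in ((cW φ hφ).image_of_continuousOn (hc.mono ((WP φ hφ).trans (PS φ hφ))))
          (hO φ hφ).1 (H φ hφ).2.2.1) ?_)
    refine QPill_far hc hi (k1.top.1.of_isClosed_subset
      ((hc.mono (dS φ hφ)).preimage_isClosed_of_isClosed k1.top.1.isClosed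
        (hO φ hφ).1.isClosed_compl) inter_subset_left)
      (((cT φ hφ true).union (cT φ hφ false)).union (cW φ hφ))
      (inter_subset_left.trans (dS φ hφ)) ((BP φ hφ).trans (PS φ hφ)) (disjoint_left.2 ?_)
    have tz : ∀ s, ∀ x ∈ φ.d, x ∉ T φ s := fun s x hx hx' =>
      disjoint_left.1 ((H φ hφ).2.1 s) (k1.sub hx) hx'
    rintro x ⟨hx, hx'⟩ ((h | h) | ⟨y, hy, t, -, e⟩)
    · exact tz true x hx h
    · exact tz false x hx h
    · have := (QPill_uniq k1 (t := t) (t' := 0) (k1.top.2.2.2.2.1 hy) hx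
        (e.trans (by rw [zero_smul, add_zero]))).1
      exact hx' ((hO φ hφ).2 ⟨y, hy, by rw [this]⟩)
  obtain ⟨ε, ⟨e0, e1⟩, E⟩ := key.exists
  obtain ⟨g, g1, g2, g3⟩ := hm ε e0
  refine ⟨fun φ s => g '' T φ s, fun φ s => g '' QPill_bx φ φ.J {QPill_sg κ s},
    fun φ => g '' W φ, fun φ => g '' P φ, fun φ hφ => ?_⟩
  obtain ⟨k1, -⟩ := ok φ hφ
  obtain ⟨E1, E2, E3⟩ := E φ hφ
  have TS : ∀ s, T φ s ⊆ S := fun s => (TP' φ s).trans (PS φ hφ)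
  have hB : Ball (g '' P φ) (g '' (T φ true ∪ T φ false ∪ W φ)) :=
    ((QPill_cel k1 hκ).image g1 (g2.mono (PS φ hφ))).ball3
  refine ⟨fun s => ⟨(QPill_dsc k1 _).image g1 (g2.mono (TS s)),
    image_mono (QPill_mono Subset.rfl (singleton_subset_iff.2 (QPill_sg_mem hκ s))), ?_, ?_⟩,
    ((cW φ hφ).image g1.continuous).isClosed, ?_, ?_, ?_, fun φ' hφ' s s' hne => ?_⟩
  · rintro _ ⟨y, hy, rfl⟩
    obtain ⟨x, hx, e⟩ := (H φ hφ).2.2.2.1 y (TP' φ s hy)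
    refine ⟨x, hx, ?_⟩
    have := norm_sub_le_norm_sub_add_norm_sub (g y) (f y) (f x)
    linarith only [e1, e, this, g3, TS, hy, g3 y (TS s hy)]
  · rintro _ ⟨⟨z, hz, e⟩ | h, y, hy, rfl⟩
    · have := E1 s z hz y hy
      rw [e] at this
      linarith [g3 y (TS s hy)]
    · obtain ⟨φ', hφ', y', hy', e⟩ := mem_iUnion₂.1 h
      obtain rfl : y' = y := g2 (PS φ' hφ' (WP φ' hφ' hy')) (TS s hy) e
      by_cases c : φ = φ'
      · subst c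
        obtain ⟨x, hx, t, -, e1⟩ := hy'
        obtain ⟨x', hx', t', ht', e2⟩ := hy
        have := (QPill_uniq k1 (k1.top.2.2.2.2.1 hx) hx' (e1.trans e2.symm)).1
        exact mem_image_of_mem g ⟨x', this ▸ hx, t', ht', e2⟩
      · exact absurd (WP φ' hφ' hy')
          (disjoint_left.1 ((H φ hφ).2.2.2.2 φ' hφ' c) (TP' φ s hy))
  · rintro _ ⟨y, hy, rfl⟩
    refine E2 _ (mem_image_of_mem f hy) _ ?_
    rw [norm_sub_rev]
    linarith only [e0, g3, PS, hφ, WP, hy, g3 y (PS φ hφ (WP φ hφ hy))]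
  · rwa [image_union, image_union] at hB
  · rintro _ ⟨x, hx, rfl⟩
    by_cases c : f x ∈ O φ
    · exact Or.inr c
    have sb : segment ℝ (g x) (f x) ⊆ closedBall (f x) ε :=
      (convex_closedBall _ _).segment_subset
        (mem_closedBall_iff_norm.2 (g3 x (dS φ hφ hx))) (mem_closedBall_self e0.le)
    have hd : Disjoint (segment ℝ (g x) (f x)) (g '' (T φ true ∪ T φ false ∪ W φ)) := by
      refine disjoint_right.2 ?_
      rintro _ ⟨y, hy, rfl⟩ hy'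
      have a1 := E3 x ⟨hx, c⟩ y hy
      have a2 := mem_closedBall_iff_norm'.1 (sb hy')
      have a3 := g3 y (PS φ hφ (BP φ hφ hy))
      have a4 := norm_sub_le_norm_sub_add_norm_sub (f x) (g y) (f y)
      linarith only [a1, a2, a3, a4]
    rcases hB.side (convex_segment _ _).isPreconnected hd with h | h
    · exact Or.inl (h (right_mem_segment _ _ _)).1
    · refine absurd (mem_image_of_mem g ?_) (disjoint_left.1 h (left_mem_segment _ _ _))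
      exact ⟨x, hx, 0, ⟨by linarith, hκ.le⟩, by simp⟩
  · refine Disjoint.image ?_ g2 (TS s) ((TP' φ' s').trans (PS φ' hφ'))
    by_cases c : φ = φ'
    · subst c
      refine disjoint_left.2 ?_
      rintro _ ⟨x, hx, t, rfl, rfl⟩ ⟨x', hx', t', rfl, e⟩
      exact hne (by rw [QPill_sg_inj hκ (QPill_uniq k1 hx' hx e).2])
    · exact ((H φ hφ).2.2.2.2 φ' hφ' c).mono (TP' φ s) (TP' φ' s')

end BEp
end
end

-- merged part: Pool.Agent.Work.MP_f0515e_an.P2.QCut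
section
/-! `cut_dom`: `pill` with `η = ρ / 6`, `O φ` the ball of `φ`; `Y = f '' Z ∪ ⋃ L`; indices `𝒟 × Bool` and `𝔅`; `cut_main`. The image under `Φ` of the boundary of `M φ` is connected and lies in the union of the
disjoint open balls, so in one ball, and so does `Φ '' M φ` (`Ball.sub_convex`); the points of `f '' φ.d` in `O φ` are fixed or sent to a ball; `Φ '' (f '' φ.d)` is connected. -/

open Set Metric Filter Topology Function BEv MeasureTheory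
open scoped NNReal ENNReal

noncomputable section
namespace BEp

theorem QCut_one {κ : Type} {B : κ → Set (Rn 3)} (ho : ∀ k, IsOpen (B k))
    (hd : Pairwise fun k l => Disjoint (B k) (B l)) {T : Set (Rn 3)} (hT : IsConnected T)
    (hs : ∀ x ∈ T, ∃ k, x ∈ B k) : ∃ k, T ⊆ B k := by
  obtain ⟨x, hx⟩ := hT.nonempty
  obtain ⟨k, hk⟩ := hs x hx
  refine ⟨k, hT.isPreconnected.subset_left_of_subset_union (v := ⋃ l ∈ {l | l ≠ k}, B l) (ho k)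
    (isOpen_biUnion fun l _ => ho l) (disjoint_iUnion₂_right.2 fun l hl => hd (Ne.symm hl))
    (fun y hy => ?_) ⟨x, hx, hk⟩⟩
  obtain ⟨l, hl⟩ := hs y hy
  exact (eq_or_ne l k).imp (fun e : l = k => e ▸ hl) fun e => mem_iUnion₂.2 ⟨l, e, hl⟩

theorem cut_dom {S Z : Set (Rn 3)} {f : Rn 3 → Rn 3} (hS : IsCompact S) (hc : ContinuousOn f S)
    (hi : InjOn f S) (hm : Moi f S) (hZ : IsClosed Z) (hs : Z ⊆ S) {𝒟 : Set Fg}
    {𝔅 : Set (Rn 3 × ℝ)} (hF : QFam f Z 𝒟 𝔅) (hin : ∀ φ ∈ 𝒟, φ.d ⊆ interior S) {ρ : ℝ}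
    (hρ : 0 < ρ) (h1 : ∀ φ ∈ 𝒟, ∀ x ∈ φ.d, ∀ x' ∈ φ.d, ‖f x - f x'‖ ≤ ρ)
    (h2 : ∀ b ∈ 𝔅, b.2 ≤ ρ) : ∃ Φ, CtOut f Z 𝒟 𝔅 ρ Φ := by
  choose! β hβ hβ' using hF.inb
  obtain ⟨D, J, L, M, hP⟩ := pill hS hc hi hm hZ hs hF.fin (fun φ k => ⟨hF.ok φ k, hin φ k⟩) hF.dis
    (O := fun φ => ball (β φ).1 (β φ).2) (fun φ k => ⟨isOpen_ball, hβ' φ k⟩)
    (η := ρ / 6) (by positivity)
  have := hF.fin.to_subtype
  have := hF.finb.to_subtype
  have hB : Pairwise fun k l : 𝔅 => Disjoint (ball k.1.1 k.1.2) (ball l.1.1 l.1.2) := fun k l e =>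
    (hF.disb k k.2 l l.2 (Subtype.coe_ne_coe.2 e)).mono ball_subset_closedBall ball_subset_closedBall
  obtain ⟨Φ, h, k2⟩ := cut_main (μ := 𝒟 × Bool) (κ := 𝔅) (c := fun k => k.1.1) (R := fun k => k.1.2)
    (ρ := ρ) (a := 4 * ρ / 3) (E := fun j => D j.1 j.2) (J := fun j => J j.1 j.2)
    (U := fun j => ⋃ x ∈ j.1.1.d, ball (f x) (ρ / 6)) (Y := f '' Z ∪ ⋃ φ ∈ 𝒟, L φ)
    (fun k => ⟨hF.pos k k.2, h2 k k.2⟩) hB (fun j => ((hP j.1 j.1.2).1 j.2).1)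
    (fun j l e => (hP j.1 j.1.2).2.2.2.2.2 l.1 l.1.2 j.2 l.2 fun e' =>
      e (Prod.ext (Subtype.ext (Prod.ext_iff.1 e').1) (Prod.ext_iff.1 e').2))
    (fun j => ⟨isOpen_biUnion fun _ _ => isOpen_ball, fun y hy => by
      obtain ⟨x, a, b⟩ := ((hP j.1 j.1.2).1 j.2).2.2.1 y hy
      exact mem_iUnion₂.2 ⟨x, a, mem_ball_iff_norm.2 b⟩, fun x hx y hy => by
      obtain ⟨p, a, b⟩ := mem_iUnion₂.1 hx
      obtain ⟨q, a', b'⟩ := mem_iUnion₂.1 hy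
      have := h1 j.1 j.1.2 p a q a'
      rw [← dist_eq_norm] at this
      linarith only [this, b, b', mem_ball.1 b, mem_ball'.1 b', dist_triangle4 x (f p) (f q) y]⟩) (by positivity)
    (fun j => ⟨⟨β j.1, hβ j.1 j.1.2⟩, ((hP j.1 j.1.2).1 j.2).2.1.trans (hP j.1 j.1.2).2.2.1⟩)
    (((hS.of_isClosed_subset hZ hs).image_of_continuousOn (hc.mono hs)).isClosed.union
      (hF.fin.isClosed_biUnion fun φ k => (hP φ k).2.1)) fun j => ((hP j.1 j.1.2).1 j.2).2.2.2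
  have cΦ := h.lh.tp.continuous
  refine ⟨Φ, h.lh, fun y => ?_, fun y hy => (h.mv y).resolve_right fun ⟨k, _, b⟩ => ?_,
    fun x hx => (h.fy _ (Or.inl ⟨x, hx, rfl⟩)).imp_right fun ⟨k, a⟩ => ⟨k, k.2, a⟩, fun φ hφ => ?_,
    fun b hb T t1 t2 t3 ⟨z, z1, z2⟩ x hx => disjoint_left.1 (h.tr ⟨b, hb⟩ (f '' T)
      ((image_mono t1).trans subset_union_left) (t2.image _ (hc.mono (t1.trans hs)))
      (disjoint_left.2 (forall_mem_image.2 t3)) fun a => ?_) ⟨_, ⟨x, hx, rfl⟩, rfl⟩⟩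
  · rcases h.mv y with a | ⟨k, a, b⟩
    · rw [a, sub_self, norm_zero]
      positivity
    · rw [← dist_eq_norm]
      linarith only [a, b, mem_ball.1 a, mem_ball.1 b, dist_triangle_right (Φ y) y k.1.1]
  · linarith only [hρ, b, hy, mem_ball_iff_norm.1 b, hy k k.2]
  · obtain ⟨p1, -, p3, p4, p5, -⟩ := hP φ hφ
    have hO : ∀ y ∈ f '' Z ∪ ⋃ φ ∈ 𝒟, L φ, y ∈ ball (β φ).1 (β φ).2 →
        ∃ k : 𝔅, Φ y ∈ ball k.1.1 k.1.2 := fun y hy a =>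
      (h.fy y hy).elim (fun e => ⟨⟨β φ, hβ φ hφ⟩, e.symm ▸ a⟩) id
    obtain ⟨k, hk⟩ := QCut_one (fun k : 𝔅 => isOpen_ball) hB
      ((p4.conn_bd (by norm_num)).image _ cΦ.continuousOn) (by
        rintro _ ⟨y, (a | a) | a, rfl⟩
        · exact (k2 (⟨φ, hφ⟩, true)).imp fun k e => e ⟨y, a, rfl⟩
        · exact (k2 (⟨φ, hφ⟩, false)).imp fun k e => e ⟨y, a, rfl⟩
        · exact hO y (Or.inr (mem_biUnion hφ a)) (p3 a))
    have hM := (p4.image h.lh).sub_convex (by norm_num) (convex_ball _ _) hk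
    have sub := (hF.ok φ hφ).sub
    obtain ⟨l, hl⟩ := QCut_one (fun k : 𝔅 => isOpen_ball) hB
      (((hF.ok φ hφ).top.2.2.1.image _ (hc.mono (sub.trans hs))).image _ cΦ.continuousOn) (by
        rintro _ ⟨y, a, rfl⟩
        rcases p5 a with b | b
        · exact ⟨k, hM ⟨y, b, rfl⟩⟩
        · exact hO y (Or.inl (image_mono sub a)) b)
    exact ⟨l, l.2, fun x hx => hl ⟨_, ⟨x, hx, rfl⟩, rfl⟩⟩
  · linarith only [hρ, z2, hb, a, z1, mem_ball_iff_norm.1 (a ⟨z, z1, rfl⟩)]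

end BEp
end
end
end

-- merged part: Pool.Agent.Work.MP_f0515e_an.P2.QLam2
section
/-! Good tiles and private sets for `f' = Λ ∘ f`. `cl1`: `cl_cut`, `mv`. The centre lies in `sk 2 ∩ Q u R1` (`sk_ray` with `t = 0`), so `aff0 f' u` and `aff0 f u` differ by at most `lam s / 50`. `z3`: plates: `back`, `z3_cut`;
solids: `deg_cover` for `f'` on `closedBall c R1` (`sk_sph`, `Sep_low`, `Nm.r0`) and injectivity. On a cube of rank one `f' = f` (`fix`, `GFit.far`). `gd`: `Prep_cl0` in rank one.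
`sep`: `z1` and the first part of `z3` from `mu` and `Sep_near`; `z2`: `Zt f' u 1 ⊆ Pv f u` in all ranks, `pv_dis`; for two tiles of rank one use `sep_out` for `f` and `fun q => {u ∈ kp q | (C q).I.card = 1}`; for plates a point of the slice within `ρ'` lies in `sk 2` (`Sep_sk`). -/

open Set Metric Filter Topology Function BEv MeasureTheory
open scoped NNReal ENNReal

noncomputable section
namespace BEp

variable {ι : Type} [Finite ι] {C : ι → Cu} {P : Pr} {aK : ℝ} {Ω : Set (Rn 3)} {K : Kx Ω}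
  {ch : Set (Rn 3) → Ch} {w lam : Set (Rn 3) → ℝ} {f Φ Ξ : Rn 3 → Rn 3} {θ : Rn 3 → ℝ}
  {μ ρ1 μ1 t L : ℝ} {kp : ι → Set (I3 × I3)} {𝒟 : Set Fg} {𝔅 : Pcs kp → Finset (Rn 3 × ℝ)}
  {π : Pcs kp → Fin 3 → ℝ → ℝ}

theorem QLam2_aff (D : Cu) (g g' : Rn 3 → Rn 3) (u : I3 × I3) (x y : Rn 3) :
    ‖y - D.aff0 g u x‖ ≤ ‖y - D.aff0 g' u x‖ + ‖g' (D.ctr u) - g (D.ctr u)‖ := by
  have e : y - D.aff0 g u x = (y - D.aff0 g' u x) + (g' (D.ctr u) - g (D.ctr u)) := by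
    simp only [Cu.aff0]
    abel
  rw [e]
  exact norm_add_le _ _

theorem QLam2_Nb {D : Cu} {g g' : Rn 3 → Rn 3} {u : I3 × I3} {R a b : ℝ}
    (h : ‖g' (D.ctr u) - g (D.ctr u)‖ ≤ b) : D.Nb g' u R a ⊆ D.Nb g u R (a + b) := by
  intro y hy
  obtain ⟨x, hx, k⟩ := mem_Nb.1 hy
  exact mem_Nb.2 ⟨x, hx, (QLam2_aff D g g' u x y).trans (add_le_add k h)⟩

theorem QLam2_card {D : Cu} (h : D.Ok aK) : D.I.card = 1 ∨ D.I.card = 2 ∨ D.I.card = 3 := by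
  have k : D.I.card ≤ 3 := by simpa using Finset.card_le_univ D.I
  have k' : 0 < D.I.card := Finset.card_pos.2 h.ne
  omega

theorem QLam2_ctr {D : Cu} {u : I3 × I3} (hf : D.Fit aK K ch w) (h : D.Ok aK) (hu : u ∈ D.Adm) :
    D.ctr u ∈ K.sk 2 ∩ D.Q u D.R1 := by
  obtain ⟨i, hi⟩ := h.ne
  obtain ⟨r0, r1⟩ := QSk_R1 h
  have k := sk_ray hf h hu hi (t := 0) (by rw [abs_zero]; linarith)
  rw [zero_smul, add_zero] at k
  refine ⟨Kx.sk_mono (by norm_num) k.1, (Cu.mem_Q r0.le).2 ⟨fun _ _ => rfl, ?_⟩⟩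
  rw [sub_self, norm_zero]
  exact r0.le

namespace LamIn

theorem cl1 (h : LamIn C P aK K ch w lam f θ μ ρ1 μ1 kp 𝒟 𝔅 Φ Ξ π t L) {q : ι} {u : I3 × I3}
    (hu : u ∈ kp q) (h2 : 2 ≤ (C q).I.card) {x : Rn 3} (hx : x ∈ K.sk 2 ∩ (C q).Q u (C q).R1) :
    ‖mix t Ξ (Φ (f x)) - (C q).aff0 f u x‖ ≤ (C q).lam * (C q).s / 50 := by
  have n := (h.cf.gf.ok q).nm
  have c1 := cl_cut h.cf h.gs h.ct hu h2 hx
  have c2 : Φ (f x) ∈ (C q).Pv f u :=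
    mem_Nb.2 ⟨x, hx.2, c1.trans (by linarith only [n, n.ls, n.lm, n.τl, n.τ0])⟩
  have c3 := h.mv q h2 u hu _ c2
  have e : mix t Ξ (Φ (f x)) - (C q).aff0 f u x =
      (Φ (f x) - (C q).aff0 f u x) + (1 - t) • (Ξ (Φ (f x)) - Φ (f x)) := by
    rw [mix]
    module
  have c4 : ‖(1 - t) • (Ξ (Φ (f x)) - Φ (f x))‖ ≤ 6 * (C q).τ := by
    rw [norm_smul, Real.norm_of_nonneg (by linarith only [h, h.t0.2])]
    exact (mul_le_of_le_one_left (norm_nonneg _) (by linarith [h.t0.1])).trans c3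
  rw [e]
  refine (norm_add_le _ _).trans ?_
  linarith only [c1, c4, n, n.τl, n.τ0]

theorem QLam2_c (h : LamIn C P aK K ch w lam f θ μ ρ1 μ1 kp 𝒟 𝔅 Φ Ξ π t L) {q : ι} {u : I3 × I3}
    (hu : u ∈ kp q) (h2 : 2 ≤ (C q).I.card) :
    ‖((mix t Ξ ∘ Φ) ∘ f) ((C q).ctr u) - f ((C q).ctr u)‖ ≤ (C q).lam * (C q).s / 50 := by
  have k := h.cl1 hu h2 (QLam2_ctr (h.cf.gf.fit q) (h.cf.gf.ok q) (h.cf.adm q u hu).1)
  rw [Cu.aff0, sub_self, map_zero, add_zero] at k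
  exact k

theorem z3 (h : LamIn C P aK K ch w lam f θ μ ρ1 μ1 kp 𝒟 𝔅 Φ Ξ π t L) {q : ι} {u : I3 × I3}
    (hu : u ∈ kp q) (h2 : 2 ≤ (C q).I.card) {x : Rn 3} (hx : x ∈ Ω)
    (hs : x ∈ K.sk 2 ∨ (C q).I.card = 3)
    (hz : mix t Ξ (Φ (f x)) ∈ (C q).Zt ((mix t Ξ ∘ Φ) ∘ f) u 1) : x ∈ (C q).Q u (C q).R1 := by
  have ok := h.cf.gf.ok q
  have n := ok.nm
  obtain ⟨ha, hA⟩ := h.cf.adm q u hu
  obtain ⟨r0, r1⟩ := QSk_R1 ok
  have k0 : 0 < (C q).κ * (C q).s := by linarith only [n, n.mκ, n.sm, n.s0]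
  have l0 : 0 < (C q).lam * (C q).s := by linarith [n.τl, n.τ0]
  rw [Zt_eq] at hz
  have hz' := QLam2_Nb (h.QLam2_c hu h2) hz
  by_cases hc : (C q).I.card = 3
  · have hI : ∀ i, i ∈ (C q).I := fun i => by
      rw [Finset.eq_univ_of_card (C q).I (by simpa using hc)]
      exact Finset.mem_univ i
    have sub : closedBall ((C q).ctr u) (C q).R1 ⊆ Ω :=
      (((closedBall_subset_ball (by linarith only [r0, k0, n, n.ρ1, n.r1, n.t0])).trans (Sep_ball ok ha)).trans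
        ball_subset_closedBall).trans (h.cf.gf.fit q).sub
    obtain ⟨x0, hx0, hy⟩ := mem_Nb.1 hz'
    rw [Cu.mem_Q (by linarith only [n, n.r2, n.t0])] at hx0
    have k := deg_cover (f := (mix t Ξ ∘ Φ) ∘ f) (c := (C q).ctr u) (y0 := f ((C q).ctr u))
      (R := (C q).R1) (R' := (C q).R0) (σ := (C q).σ) (m := (C q).lam * (C q).s / 50)
      (μ := 1 * ((C q).m / 8) + (C q).lam * (C q).s / 50) (A := (C q).A) (h.mu.cont.mono sub)
      n.σ0.1 (fun z => Sep_low ok hA fun i hi => absurd (hI i) hi)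
      (fun z hz => h.cl1 hu h2 ⟨sk_sph (h.cf.gf.fit q) ok ha hc hz, (Cu.mem_Q r0.le).2
        ⟨fun i hi => absurd (hI i) hi, (mem_sphere_iff_norm.1 hz).le⟩⟩) (by positivity)
      (by
        have a1 : (C q).σ * (99 / 400 * ((C q).κ * (C q).s)) ≤ (C q).σ * ((C q).R1 - (C q).R0) :=
          mul_le_mul_of_nonneg_left (by linarith only [n, n.r0]) n.σ0.1.le
        linarith only [l0, a1, n, n.em, n.lm, n.ls]) (mem_closedBall_iff_norm.2 hx0.2) hy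
    obtain ⟨x', a1, a2⟩ := k
    rw [← h.mu.inj (sub (ball_subset_closedBall a1)) hx a2]
    exact (Cu.mem_Q r0.le).2 ⟨fun i hi => absurd (hI i) hi, (mem_ball_iff_norm.1 a1).le⟩
  · have hc2 : (C q).I.card = 2 := by
      rcases QLam2_card ok with e | e | e <;> omega
    by_contra hn
    refine z3_cut h.cf h.gs h.ct hu hc2 (hs.resolve_right hc) hn ?_
    have k := h.back hu h2 (R := (C q).R0) (by linarith only [k0, n, n.r0])
      (by linarith only [l0, n, n.lm, n.ls, n.τl]) hz'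
    exact Nb_mono le_rfl (by linarith only [l0, n, n.lm, n.ls, n.τl]) k

theorem QLam2_one (h : LamIn C P aK K ch w lam f θ μ ρ1 μ1 kp 𝒟 𝔅 Φ Ξ π t L) {q : ι}
    (h1 : (C q).I.card = 1) {x : Rn 3} (hx : x ∈ ball (C q).o (C q).η) :
    ((mix t Ξ ∘ Φ) ∘ f) x = f x := by
  refine h.fix x ((h.cf.gf.fit q).sub (ball_subset_closedBall hx)) fun q' h2 k => ?_
  have e : q ≠ q' := by
    rintro rfl
    omega
  exact disjoint_left.1 (h.cf.gf.far q q' e) hx (ball_subset_closedBall k)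

theorem QLam2_aff1 (h : LamIn C P aK K ch w lam f θ μ ρ1 μ1 kp 𝒟 𝔅 Φ Ξ π t L) {q : ι}
    (h1 : (C q).I.card = 1) {u : I3 × I3} (hu : u ∈ kp q) :
    (C q).aff0 ((mix t Ξ ∘ Φ) ∘ f) u = (C q).aff0 f u := by
  funext x
  rw [Cu.aff0, Cu.aff0, h.QLam2_one h1 (QNum_q h.cf hu (by
    rw [sub_self, norm_zero]
    linarith only [h, (h.cf.gf.ok q).pos.2.2.2.2.2.1]))]

theorem QLam2_Zt1 (h : LamIn C P aK K ch w lam f θ μ ρ1 μ1 kp 𝒟 𝔅 Φ Ξ π t L) {q : ι}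
    (h1 : (C q).I.card = 1) {u : I3 × I3} (hu : u ∈ kp q) (a : ℝ) :
    (C q).Zt ((mix t Ξ ∘ Φ) ∘ f) u a = (C q).Zt f u a := by
  rw [Cu.Zt, Cu.Zt, h.QLam2_aff1 h1 hu]

theorem gd (h : LamIn C P aK K ch w lam f θ μ ρ1 μ1 kp 𝒟 𝔅 Φ Ξ π t L) :
    ∀ q, ∀ u ∈ kp q, (C q).Gd2 K ((mix t Ξ ∘ Φ) ∘ f) u := by
  intro q u hu
  have ok := h.cf.gf.ok q
  have n := ok.nm
  obtain ⟨ha, hA⟩ := h.cf.adm q u hu
  refine ⟨ha, hA, fun x hx hz => ?_, fun h2 a b he h3 h4 => h.vr hu h2 he h3 h4⟩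
  by_cases h1 : (C q).I.card = 1
  · have xb : x ∈ ball (C q).o (C q).η := (sk_Rm ok ha).2 (Prep_mono (by
      unfold Cu.Rm
      linarith only [n, n.ρ1, n.t0]) hx.2)
    rw [h.QLam2_one h1 xb, h.QLam2_aff1 h1 hu]
    exact Prep_cl0 ok (h.cf.g1 q h1 u hu) hx.1 hx.2
  · have h2 : 2 ≤ (C q).I.card := by
      rcases QLam2_card ok with e | e | e <;> omega
    have k0 : 0 < (C q).κ * (C q).s := by linarith only [n, n.mκ, n.sm, n.s0]
    have xq : x ∈ (C q).Q u (C q).R1 := by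
      rcases hz with k | k
      · exact Prep_mono (by linarith only [k0, n, n.r0]) k
      · exact h.z3 hu h2 hx.1.1 (Or.inl hx.1) (Prep_Zt ok (by norm_num) k)
    have c1 := h.cl1 hu h2 ⟨hx.1, xq⟩
    have c2 := h.QLam2_c hu h2
    have c3 := QLam2_aff (C q) ((mix t Ξ ∘ Φ) ∘ f) f u x (((mix t Ξ ∘ Φ) ∘ f) x)
    rw [norm_sub_rev] at c2
    refine c3.trans ((add_le_add c1 c2).trans ?_)
    linarith only [n, n.ls, n.τl, n.τ0]

theorem QLam2_pv (h : LamIn C P aK K ch w lam f θ μ ρ1 μ1 kp 𝒟 𝔅 Φ Ξ π t L) {q : ι}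
    {u : I3 × I3} (hu : u ∈ kp q) : (C q).Zt ((mix t Ξ ∘ Φ) ∘ f) u 1 ⊆ (C q).Pv f u := by
  have ok := h.cf.gf.ok q
  have n := ok.nm
  have k0 : 0 < (C q).κ * (C q).s := by linarith [n.mκ, n.sm, n.s0]
  have l0 : 0 < (C q).lam * (C q).s := by linarith [n.τl, n.τ0]
  by_cases h1 : (C q).I.card = 1
  · rw [h.QLam2_Zt1 h1 hu, Zt_eq]
    exact Nb_mono (by linarith only [k0, n, n.r0]) (by linarith only [l0, n, n.lm, n.ls])
  · have h2 : 2 ≤ (C q).I.card := by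
      rcases QLam2_card ok with e | e | e <;> omega
    rw [Zt_eq]
    exact (QLam2_Nb (h.QLam2_c hu h2)).trans
      (Nb_mono (by linarith only [k0, n, n.r0]) (by linarith only [l0, n, n.lm, n.ls]))

theorem sep (h : LamIn C P aK K ch w lam f θ μ ρ1 μ1 kp 𝒟 𝔅 Φ Ξ π t L) :
    SepOut C Ω ((mix t Ξ ∘ Φ) ∘ f) θ μ kp := by
  have hm := h.mu
  have hF := h.cf.gf
  have s1 : SepOut C Ω f θ μ fun q => {u ∈ kp q | (C q).I.card = 1} :=
    sep_out hF h.cf.mu fun q u hu => h.cf.g1 q hu.2 u hu.1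
  have cq : ∀ q, ∀ u ∈ kp q, (C q).ctr u ∈ (C q).q := fun q u hu =>
    ball_subset_closedBall (Sep_ball (hF.ok q) (h.cf.adm q u hu).1
      (mem_ball_self (by linarith [(hF.ok q).pos.2.2.2.2.2.1])))
  have pre : ∀ q, ∀ u ∈ kp q, ∀ y ∈ (C q).Zt ((mix t Ξ ∘ Φ) ∘ f) u 1,
      y ∈ ((mix t Ξ ∘ Φ) ∘ f) '' (ball ((C q).ctr u) (C q).ρ' ∩ Ω) ∧ μ ≤ θ y := fun q u hu y hy =>
    have k := Sep_near (hF.ok q) (hm.m2 q).1 hy
    ⟨(hm.m1 q _ (cq q u hu)).1 k, (hm.m1 q _ (cq q u hu)).2 y k⟩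
  have nr : ∀ q, ∀ u ∈ kp q, ∀ x ∈ Ω, ((mix t Ξ ∘ Φ) ∘ f) x ∈ (C q).Zt ((mix t Ξ ∘ Φ) ∘ f) u 1 →
      ‖x - (C q).ctr u‖ < (C q).ρ' := by
    intro q u hu x hx hz
    obtain ⟨x', a1, a2⟩ := (pre q u hu _ hz).1
    rw [← hm.inj a1.2 hx a2]
    exact mem_ball_iff_norm.1 a1.1
  refine ⟨fun q u hu y hy => ⟨image_mono inter_subset_right (pre q u hu y hy).1,
    (pre q u hu y hy).2⟩, fun q u hu q' u' hu' hne => ?_,
    fun q u hu x hx hz => ⟨nr q u hu x hx hz, fun hs => ?_⟩⟩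
  · by_cases h2 : 2 ≤ (C q).I.card
    · exact (h.cf.pv_dis h2 hu hu' hne).mono (h.QLam2_pv hu) (h.QLam2_pv hu')
    · by_cases h2' : 2 ≤ (C q').I.card
      · exact (h.cf.pv_dis h2' hu' hu hne.symm).symm.mono (h.QLam2_pv hu) (h.QLam2_pv hu')
      · have h1 : (C q).I.card = 1 := by
          rcases QLam2_card (hF.ok q) with e | e | e <;> omega
        have h1' : (C q').I.card = 1 := by
          rcases QLam2_card (hF.ok q') with e | e | e <;> omega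
        rw [h.QLam2_Zt1 h1 hu, h.QLam2_Zt1 h1' hu']
        exact s1.z2 q u ⟨hu, h1⟩ q' u' ⟨hu', h1'⟩ hne
  · have ok := hF.ok q
    have n := ok.nm
    have k0 : 0 < (C q).κ * (C q).s := by linarith [n.mκ, n.sm, n.s0]
    have n1 := nr q u hu x hx hz
    by_cases h1 : (C q).I.card = 1
    · rw [h.QLam2_Zt1 h1 hu, h.QLam2_one h1 (QNum_q h.cf hu (by linarith only [n1, n, n.ρ1, n.t0]))] at hz
      exact (s1.z3 q u ⟨hu, h1⟩ x hx hz).2 hs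
    · have h2 : 2 ≤ (C q).I.card := by
        rcases QLam2_card ok with e | e | e <;> omega
      refine Prep_mono (by linarith only [k0, n, n.r1]) (h.z3 hu h2 hx ?_ hz)
      by_cases hc : (C q).I.card = 3
      · exact Or.inr hc
      · exact Or.inl (Sep_sk (hF.fit q) ok (h.cf.adm q u hu).1 hc
          ((Cu.mem_Q (by linarith only [n, n.ρ1, n.t0])).2 ⟨hs, by linarith only [n1, n, n.ρ1, n.t0]⟩))

theorem toLam (h : LamIn C P aK K ch w lam f θ μ ρ1 μ1 kp 𝒟 𝔅 Φ Ξ π t L) : Lam C K f θ μ kp (mix t Ξ ∘ Φ) :=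
  ⟨h.bij.1.1, h.bij.2, h.img, h.mvθ, h.fix, h.thr, h.mu, h.gd, h.sep⟩

end LamIn

end BEp
end
end

-- merged part: Pool.Agent.Work.MP_f0515e_an.P2.QLamX
section
-- merged part: Pool.Agent.Work.MP_f0515e_an.P2.QTL
section
/-! The discs and balls of one tile: `own_pre`, `intr_pre` (for solids the empty family), `QPre.merge` with `ε = τ`. A merged ball has radius at most `3 τ` and contains a point of `Nb f u R1 (0.17 m)`; `6 τ ≤ 0.01 m`. -/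

open Set Metric Filter Topology Function BEv MeasureTheory
open scoped NNReal ENNReal

noncomputable section
namespace BEp

variable {C : Cu} {aK : ℝ} {Ω : Set (Rn 3)} {K : Kx Ω} {ch : Set (Rn 3) → Ch} {w : Set (Rn 3) → ℝ}
  {f : Rn 3 → Rn 3} {D : Rn 3 → Rn 3 →L[ℝ] Rn 3} {v : Rn 3 → ℝ≥0∞} {u u' : I3 × I3}

theorem tl_ex (hf : C.Fit aK K ch w) (h : C.Ok aK) (h2 : 2 ≤ C.I.card) (hc : ContinuousOn f C.q)
    (hD : Measurable D) (hv : Measurable v) (hU : USeg C.q f D v) (hs : C.Gs K f D v u)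
    (hg : C.G1 K f u) {ρ1 : ℝ} (r1 : C.t0 ≤ ρ1) (r2 : 2 * ρ1 ≤ C.ρ')
    (hfar : ∀ x ∈ Ω, ‖f x - f (C.ctr u)‖ < (1 + ‖C.A‖) * C.t0 → ‖x - C.ctr u‖ < ρ1) :
    ∃ 𝒟 𝔅, C.TL K f ρ1 u 𝒟 𝔅 := by
  have n := h.nm
  obtain ⟨𝒟, 𝔅, p, p1, p2⟩ := own_pre hf h hs.adm h2 hc hD hv hU (hs.mx h2) hg
  obtain ⟨𝒟', 𝔅', q, q1, q2⟩ : ∃ 𝒟 𝔅, QPre f (K.sk 2) C.τ 𝒟 𝔅 ∧
      (∀ φ ∈ 𝒟, φ.d ⊆ closedBall (C.ctr u) ρ1 ∧
        ∀ x ∈ φ.J, x ∉ C.Q u C.R1 ∧ f x ∈ C.Nb f u C.R0 (17 / 100 * C.m)) ∧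
      (C.I.card = 2 → ∀ x ∈ K.sk 2, x ∉ C.Q u C.R1 → f x ∈ C.Nb f u C.R0 (135 / 1000 * C.m) →
        ∃ φ ∈ 𝒟, x ∈ φ.d \ φ.J) := by
    by_cases e : C.I.card = 2
    · obtain ⟨𝒟, 𝔅, a, b, c⟩ :=
        intr_pre hf h hs.adm hs.ne e hc hD hv hU (hs.mx h2) hg hs.ie r1 r2 hfar
      exact ⟨𝒟, 𝔅, a, b, fun _ => c⟩
    · exact ⟨∅, ∅, ⟨finite_empty, fun _ k => k.elim, fun _ k => k.elim, fun _ k => k.elim,
        fun _ k => absurd k (Finset.notMem_empty _), by simpa using n.τ0.le⟩,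
        fun _ k => k.elim, fun k => absurd k e⟩
  obtain ⟨𝔅'', m1, m2, m3, m4⟩ := p.merge q n.τ0
  have hR : C.R0 ≤ C.R1 := by linarith only [n, n.r0, n.mκ, n.sm, n.s0]
  have hm : 0 < C.m := by linarith [n.sm, n.s0]
  have mix : ∀ φ ∈ 𝒟, ∀ φ' ∈ 𝒟', Disjoint φ.J φ'.J := fun φ a φ' b =>
    disjoint_left.2 fun x hx hx' =>
      ((q1 φ' b).2 x hx').1 ((p1 φ a).1 ((p.ok φ a).top.2.2.2.2.1 hx))
  refine ⟨𝒟 ∪ 𝒟', 𝔅'', p.fin.union q.fin, fun φ k => k.elim (p.ok φ) (q.ok φ), ?_, ?_, ?_, m1, ?_,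
    m3, by linarith, fun x hx k => ?_, fun e x hx k l => ?_⟩
  · rintro φ (k | k)
    · intro x hx
      have := ((Cu.mem_Q (QNum_R1 h)).1 ((p1 φ k).1 hx)).2
      rw [mem_closedBall_iff_norm]
      linarith only [r1, hm, this, n, n.r1, n.t0, n.mκ]
    · exact (q1 φ k).1
  · rintro φ (k | k)
    · exact Or.inl (p1 φ k).1
    · exact Or.inr (disjoint_left.2 fun x hx => ((q1 φ k).2 x hx).1)
  · rintro φ (k | k) φ' (k' | k') ne
    · exact (p.dis φ k φ' k' ne).mono (p.ok φ k).top.2.2.2.2.1 (p.ok φ' k').top.2.2.2.2.1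
    · exact mix φ k φ' k'
    · exact (mix φ' k' φ k).symm
    · exact (q.dis φ k φ' k' ne).mono (q.ok φ k).top.2.2.2.2.1 (q.ok φ' k').top.2.2.2.2.1
  · intro β hβ
    obtain ⟨b0, φ, hφ, x, hx, hb⟩ := m2 β hβ
    refine ⟨b0, fun y hy => ?_⟩
    have b1 : β.2 ≤ ∑ β ∈ 𝔅'', β.2 :=
      Finset.single_le_sum (f := fun β : Rn 3 × ℝ => β.2) (fun β k => (m2 β k).1.le) hβ
    have hN : f x ∈ C.Nb f u C.R1 (17 / 100 * C.m) := by
      rcases hφ with k | k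
      · exact mem_Nb.2 ⟨x, (p1 φ k).1 ((p.ok φ k).top.2.2.2.2.1 hx), by
          linarith only [hm, p1, k, hx, n, (p1 φ k).2 x hx, n.τm, n.τ0]⟩
      · exact Nb_mono hR le_rfl ((q1 φ k).2 x hx).2
    obtain ⟨z, hz, k⟩ := mem_Nb.1 hN
    refine mem_Nb.2 ⟨z, hz, ?_⟩
    rw [mem_closedBall_iff_norm] at hy
    rw [mem_ball_iff_norm'] at hb
    linarith only [m4, b0, hb, hy, b1, k, n, norm_sub_le_norm_sub_add_norm_sub y β.1 (C.aff0 f u z),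
      norm_sub_le_norm_sub_add_norm_sub β.1 (f x) (C.aff0 f u z), n.τm, n.τ0]
  · obtain ⟨φ, a, b⟩ := p2 x hx k
    exact ⟨φ, Or.inl a, b⟩
  · obtain ⟨φ, a, b⟩ := q2 e x hx k l
    exact ⟨φ, Or.inr a, b⟩

end BEp
end
end

-- merged part: Pool.Agent.Work.MP_f0515e_an.P2.QLamX
section
/-! Existence of the modification. -/

open Set Metric Filter Topology Function BEv MeasureTheory
open scoped NNReal ENNReal

noncomputable section
namespace BEp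

variable {ι : Type} [Finite ι] {C : ι → Cu} {P : Pr} {aK : ℝ} {Ω : Set (Rn 3)} {K : Kx Ω}
  {ch : Set (Rn 3) → Ch} {w lam : Set (Rn 3) → ℝ} {f : Rn 3 → Rn 3} {θ : Rn 3 → ℝ} {μ ρ1 μ1 : ℝ}
  {kp : ι → Set (I3 × I3)}

theorem QLamX_t {L : ℝ} (hL : 0 ≤ L) (a b : ι → ℝ) (hb : ∀ q, 0 < b q) :
    ∃ t : ℝ, (0 < t ∧ t ≤ 1) ∧ t * L ≤ 1 ∧ ∀ q, t * a q ≤ b q := by
  have e : ∀ k : ℝ, ∀ c : ℝ, 0 < c → ∀ᶠ s : ℝ in 𝓝[>] 0, s * k ≤ c := fun k c hc => by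
    have h1 : Tendsto (fun s : ℝ => s * k) (𝓝 0) (𝓝 (0 * k)) :=
      (continuous_id.mul continuous_const).tendsto 0
    rw [zero_mul] at h1
    exact mem_nhdsWithin_of_mem_nhds (h1.eventually_le_const hc)
  obtain ⟨t, ⟨⟨k1, k2⟩, k3⟩, k4⟩ := ((((e 1 1 one_pos).and (e L 1 one_pos)).and
    (eventually_all.2 fun q => e (a q) (b q) (hb q))).and self_mem_nhdsWithin).exists
  exact ⟨t, ⟨k4, by linarith⟩, k2, k3⟩

theorem lam_ex {D : Rn 3 → Rn 3 →L[ℝ] Rn 3} {v : Rn 3 → ℝ≥0∞} (hF : GFit C P aK K ch w lam)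
    (hm : MuIn C Ω f θ μ μ) (h1 : Mu1 C Ω f μ ρ1 μ1) (hD : Measurable D) (hv : Measurable v)
    (hU : ∀ q, USeg (C q).q f D v) (hg : ∀ q, ∀ u ∈ kp q, (C q).Gs K f D v u)
    (hM : Moi f (⋃ q, (C q).q)) (hθ : ∀ y ∈ f '' Ω, 0 ≤ θ y) : ∃ Λ, Lam C K f θ μ kp Λ := by
  have := Fintype.ofFinite ι
  have hQ : QCf C P aK K ch w lam f θ μ ρ1 μ1 kp := ⟨hF, hm, h1,
    fun q u hu => ⟨(hg q u hu).adm, (hg q u hu).ne⟩, fun q k u hu => (hg q u hu).g1 k,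
    fun q k u hu => mx_g1 (hF.fit q) (hF.ok q) (hg q u hu).adm hD (hU q) ((hg q u hu).mx k),
    fun q k u hu u' hu' => mx_rl (hF.ok q) k (hg q u hu).adm (hg q u' hu').adm hD hv (hU q)
      ((hg q u hu).mx k) ((hg q u' hu').mx k)⟩
  have := finite_pcs hF fun q u hu => (hg q u hu).adm
  obtain ⟨𝒟, 𝔅, hG⟩ := qgs_ex hQ fun q k u hu => tl_ex (hF.fit q) (hF.ok q) k
    (hm.cont.mono (hF.fit q).sub) hD hv (hU q) (hg q u hu) (hQ.g2 q k u hu) (h1.num q).2.2.1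
    (h1.num q).2.2.2 fun x hx e => (hQ.far hu hx).2 (e.trans (h1.num q).1)
  obtain ⟨c1, c2, c3, c4⟩ := hG.cut hQ
  have hS : IsCompact (⋃ q, (C q).q) := isCompact_iUnion fun q => isCompact_closedBall _ _
  have hs : (⋃ q, (C q).q) ⊆ Ω := iUnion_subset fun q => (hF.fit q).sub
  obtain ⟨Φ, hC⟩ := cut_dom hS (hm.cont.mono hs) (hm.inj.mono hs) hM
    (sk_closed K hF.opn 2 hS hs).isClosed inter_subset_right c1 c2 (ρ := μ / 1000)
    (by linarith only [h1, h1.μ0]) (fun φ k x hx x' hx' => (c3 φ k x hx x' hx').2)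
    fun β ⟨b, k⟩ => (c4 b β k).2.1
  classical
  obtain ⟨Ξ, π, x1, x2, x3, x4, x5, x6, x7⟩ := crush (fun b : Pcs kp =>
    if 2 ≤ (C b.1.1).I.card then (C b.1.1).aff0 f b.1.2 '' (C b.1.1).Q b.1.2 (C b.1.1).R1 else ∅)
    (fun b => by
      split_ifs
      · exact ((C b.1.1).Q_cpt _ _).1.image (by unfold Cu.aff0; fun_prop)
      · exact isCompact_empty)
    (fun b => 18 / 100 * (C b.1.1).m) (fun b => 1 / 100 * (C b.1.1).m) (fun b => 3 * (C b.1.1).τ) 𝔅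
    (fun b β k => (hG.fam.pos β ⟨b, k⟩).le) hG.sum
    (fun b => by linarith only [hF, (hF.ok b.1.1).nm.τm, (hF.ok b.1.1).nm.τ0]) fun b b' e => by
      split_ifs with k k'
      · have := hQ.pv_dis k b.2 b'.2 fun o => e (Subtype.ext o)
        exact this.mono (nb_mono subset_rfl (by linarith only [])) (nb_mono subset_rfl (by linarith only []))
      all_goals simp [nb]
  have pv : ∀ b : Pcs kp, 2 ≤ (C b.1.1).I.card → nb (if 2 ≤ (C b.1.1).I.card then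
      (C b.1.1).aff0 f b.1.2 '' (C b.1.1).Q b.1.2 (C b.1.1).R1 else ∅)
      (18 / 100 * (C b.1.1).m + 1 / 100 * (C b.1.1).m) = (C b.1.1).Pv f b.1.2 := fun b k => by
    rw [if_pos k, Cu.Pv, Cu.Nb]
    congr 1
    ring
  obtain ⟨L, hL⟩ := hC.lh.tp.1
  obtain ⟨t, t1, t2, t3⟩ := QLamX_t L.coe_nonneg
    (fun q => ((L : ℝ) + 1) * ((C q).τ + ‖(C q).A‖ * (C q).t0)) (fun q => (C q).lam * (C q).s / 2)
    fun q => half_pos (mul_pos (hF.ok q).lam0 (hF.ok q).nm.s0)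
  refine ⟨_, LamIn.toLam (π := π) (t := t) (L := L) ⟨hQ, hG, hC, hθ, x1, x2, fun y hy => x3 y
    fun b => ?_, fun q k u hu y hy => ?_, x5, fun b k y hy => x6 b y ?_, x7, t1,
    ⟨L.coe_nonneg, t2, fun y y' => by simpa [dist_eq_norm] using hL.dist_le_mul y y'⟩, t3⟩⟩
  · by_cases k : 2 ≤ (C b.1.1).I.card
    · rw [pv b k]
      exact hy _ k _ b.2
    · simp [if_neg k, nb]
  · have := x4 ⟨(q, u), hu⟩ y (by rw [pv ⟨(q, u), hu⟩ k]; exact hy)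
    linarith only [hu, this]
  · rw [if_pos k]
    exact hy

end BEp
end
end
end
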