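import Pool.Agent.Work.MP_f0515e_an.D3.O1
import Pool.Agent.Work.MP_f0515e_an.Pos.UCmp
import Pool.Agent.Work.MP_f0515e_an.Pos.BRed
import Pool.Agent.Work.MP_f0515e_an.P3.FinE
import Pool.Agent.Work.MP_f0515e_an.D3.LUg
import Pool.Agent.Work.MP_f0515e_an.D3.SRig0
import Pool.Agent.Work.MP_f0515e_an.P3.GGeo
import Pool.Agent.Work.MP_f0515e_an.D3.KA4
import Pool.Agent.Work.MP_f0515e_an.P3.CMass
import Pool.Agent.Work.MP_f0515e_an.P2.QLoop
import Pool.Agent.Work.MP_f0515e_an.P3.YEll1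
import Pool.Agent.Work.MP_f0515e_an.P3.SVr

-- merged part: Pool.Agent.Work.MP_f0515e_an.D3.LFin
section
/-! From locally piecewise affine embeddings to approximability.
Plan. ltp_isPAHomeo: copy tp_isPAHomeo (Pos/UChart) taking for each Whitney cube the TP map given by LTP; the embedding comes from GEmb_inv (continuous left inverse).
ltp_weak: for a test function take g from LTP.nhds on tsupport; the integrands for G and g agree everywhere on Omega (off tsupport both vanish, also fderiv of the test function); sob_lip for g.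
approx_of_ltp: choose F j with energy at most (1/(j+1))^p; F j - f and fderiv (F j) - D are AEStronglyMeasurable on Omega with small eLpNorm (BRed_lp), hence MemLp, add f and D.
open_mod: for x in S the set f '' (ball x (rho/2) n Omega) is open (GEmb_open) and contains a ball around f x of radius 2 mu_x; points x1 near x (within rho/2, f x1 within mu_x) inherit mu_x; compactness (IsCompact.induction_on or elim_nhds_subcover). -/

open Set Metric Filter Topology Function BEv MeasureTheory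
open scoped NNReal ENNReal

noncomputable section
namespace BEp

variable {n : ℕ} {Ω : Set (Rn n)}

theorem ltp_isPAHomeo {G : Rn n → Rn n} (hΩ : IsOpen Ω) (h : LTP Ω G) (hi : InjOn G Ω) :
    IsPAHomeo Ω G := by
  obtain ⟨S, h1, h2, h3, h4⟩ := whitney_cover hΩ
  have hc := h.continuousOn hΩ
  have hq : ∀ q ∈ S, closedBall q.1 q.2 ⊆ Ω := fun q hq =>
    h3 ▸ subset_biUnion_of_mem (u := fun q : Rn n × ℝ => closedBall q.1 q.2) hq
  have key : ∀ q ∈ S, ∃ T : Set (Affine.Simplex ℝ (Fin n → ℝ) n), T.Finite ∧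
      (⋃ σ ∈ T, convexHull ℝ (range σ.points)) = closedBall q.1 q.2 ∧
      ∀ σ ∈ T, ∃ A : (Fin n → ℝ) →ᵃ[ℝ] (Fin n → ℝ), EqOn G A (convexHull ℝ (range σ.points)) :=
    fun q k => by
      obtain ⟨g, g1, g2⟩ := h _ (isCompact_closedBall q.1 q.2) (hq q k)
      obtain ⟨T, t1, t2, t3⟩ := cube_simplices g1 q.1 (h2 q k)
      refine ⟨T, t1, t2, fun σ hσ => ?_⟩
      obtain ⟨A, hA⟩ := t3 σ hσ
      exact ⟨A, (g2.mono fun y hy => t2.subset (mem_iUnion₂.2 ⟨σ, hσ, hy⟩)).trans hA⟩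
  choose! T hT eT aT using key
  have he : IsEmbedding fun x : Ω => G x := by
    have c1 : Continuous fun x : Ω => G x := hc.domRestrict
    have c2 : Continuous fun y : G '' Ω => invFunOn G Ω y := (GEmb_inv hΩ hc hi).domRestrict
    have c3 : Continuous fun x : Ω => (⟨G x, x, x.2, rfl⟩ : G '' Ω) := c1.subtype_mk _
    have e3 : IsEmbedding fun x : Ω => (⟨G x, x, x.2, rfl⟩ : G '' Ω) := by
      refine IsEmbedding.of_comp c3 c2 ?_
      have e4 : ((fun y : G '' Ω => invFunOn G Ω y) ∘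
          fun x : Ω => (⟨G x, x, x.2, rfl⟩ : G '' Ω)) = Subtype.val :=
        funext fun x => hi.leftInvOn_invFunOn x.2
      rw [e4]
      exact IsEmbedding.subtypeVal
    exact IsEmbedding.subtypeVal.comp e3
  refine ⟨he, ⋃ q ∈ S, T q, h1.biUnion fun q hq => (hT q hq).countable, ?_,
    fun x hx => ?_, fun σ hσ => ?_⟩
  · rw [biUnion_iUnion]
    simp only [biUnion_iUnion]
    exact (iUnion₂_congr eT).trans h3
  · obtain ⟨t, ht, hf⟩ := h4 x hx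
    refine ⟨t, ht, (hf.biUnion fun q hq => hT q hq.1).subset ?_⟩
    rintro σ ⟨hσ, y, hy, hy'⟩
    obtain ⟨q, hq, k⟩ := mem_iUnion₂.1 hσ
    exact mem_iUnion₂.2 ⟨q, ⟨hq, y, (eT q hq).subset (mem_iUnion₂.2 ⟨σ, k, hy⟩), hy'⟩, k⟩
  · obtain ⟨q, hq, k⟩ := mem_iUnion₂.1 hσ
    exact aT q hq σ k

theorem ltp_weak {G : Rn n → Rn n} (hΩ : IsOpen Ω) (h : LTP Ω G) :
    IsWeakDeriv Ω G (fderiv ℝ G) := by
  intro φ hφ hc hs w
  obtain ⟨g, g1, g2⟩ := h.nhds hΩ hc hs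
  obtain ⟨L, hL⟩ := g1.lip
  have e1 : (fun x => fderiv ℝ φ x w • G x) = fun x => fderiv ℝ φ x w • g x := by
    funext x
    by_cases hx : x ∈ tsupport φ
    · rw [(g2 x hx).eq_of_nhds]
    · rw [fderiv_of_notMem_tsupport ℝ hx]; simp
  have e2 : (fun x => φ x • fderiv ℝ G x w) = fun x => φ x • fderiv ℝ g x w := by
    funext x
    by_cases hx : x ∈ tsupport φ
    · rw [(g2 x hx).fderiv_eq]
    · rw [image_eq_zero_of_notMem_tsupport hx, zero_smul, zero_smul]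
  rw [e1, e2]
  exact sob_lip hL Ω φ hφ hc hs w

theorem LFin_mem {E : Type} [NormedAddCommGroup E] {p : ℝ≥0∞} {μ : Measure (Rn n)}
    {a b : Rn n → E} (ha : AEStronglyMeasurable a μ) (hb : MemLp b p μ)
    (h : eLpNorm (a - b) p μ < ⊤) : MemLp a p μ := by
  have m : MemLp (a - b) p μ := ⟨ha.sub hb.1, h⟩
  have m2 := m.add hb
  rwa [sub_add_cancel] at m2

theorem approx_of_ltp {p : ℝ≥0∞} (hp1 : 1 ≤ p) (hp : p ≠ ⊤) (hΩ : IsOpen Ω) {f : Rn n → Rn n}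
    {D D' : Rn n → Rn n →L[ℝ] Rn n} (hW : MemW1p p Ω f D) (hD : D' =ᵐ[volume.restrict Ω] D)
    (h : ∀ ε : ℝ≥0∞, ε ≠ 0 → ∃ G, LTP Ω G ∧ InjOn G Ω ∧ ∫⁻ x in Ω, en p.toReal G f D' x ≤ ε) :
    Approximable IsPAHomeo p Ω f D := by
  have hp0 : p ≠ 0 := (lt_of_lt_of_le zero_lt_one hp1).ne'
  have hq : 0 < p.toReal := ENNReal.toReal_pos hp0 hp
  have hn : ∀ j : ℕ, (0 : ℝ≥0∞) < ((j : ℝ≥0∞) + 1)⁻¹ := fun j => ENNReal.inv_pos.2 (by simp)
  have hn' : ∀ j : ℕ, ((j : ℝ≥0∞) + 1)⁻¹ < ⊤ := fun j => ENNReal.inv_lt_top.2 (by simp)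
  choose G h1 h2 h3 using fun j : ℕ => h ((((j : ℝ≥0∞) + 1)⁻¹) ^ p.toReal)
    (ENNReal.rpow_pos_of_nonneg (hn j) hq.le).ne'
  have a1 : ∀ j, eLpNorm (G j - f) p (volume.restrict Ω) ≤ ((j : ℝ≥0∞) + 1)⁻¹ := fun j =>
    BRed_lp hp1 hp ((lintegral_mono fun x => le_self_add).trans (h3 j))
  have a2 : ∀ j, eLpNorm (fderiv ℝ (G j) - D) p (volume.restrict Ω) ≤ ((j : ℝ≥0∞) + 1)⁻¹ :=
    fun j => by
      have b : eLpNorm (fderiv ℝ (G j) - D') p (volume.restrict Ω) ≤ ((j : ℝ≥0∞) + 1)⁻¹ :=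
        BRed_lp hp1 hp ((lintegral_mono fun x => le_add_self).trans (h3 j))
      refine le_trans (le_of_eq (eLpNorm_congr_ae ?_)) b
      filter_upwards [hD] with x hx
      simp only [Pi.sub_apply, hx]
  have m0 : ∀ j, AEStronglyMeasurable (fderiv ℝ (G j)) (volume.restrict Ω) := fun j =>
    (measurable_fderiv ℝ (G j)).aestronglyMeasurable
  refine ⟨G, fun j => fderiv ℝ (G j), fun j => ⟨ltp_isPAHomeo hΩ (h1 j) (h2 j), ?_, ?_,
    ltp_weak hΩ (h1 j)⟩, ?_⟩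
  · exact LFin_mem (((h1 j).continuousOn hΩ).aestronglyMeasurable hΩ.measurableSet) hW.1
      ((a1 j).trans_lt (hn' j))
  · exact LFin_mem (m0 j) hW.2.1 ((a2 j).trans_lt (hn' j))
  · have t : Tendsto (fun j : ℕ => ((j : ℝ≥0∞) + 1)⁻¹) atTop (𝓝 0) := by
      have := ENNReal.tendsto_inv_nat_nhds_zero.comp (tendsto_add_atTop_nat 1)
      refine this.congr fun j => ?_
      simp
    have t2 := t.add t
    rw [add_zero] at t2
    exact tendsto_of_tendsto_of_tendsto_of_le_of_le tendsto_const_nhds t2 (fun _ => zero_le)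
      fun j => add_le_add (a1 j) (a2 j)

/-- A measurable representative of the weak derivative. -/
theorem exists_meas_rep {p : ℝ≥0∞} (hp1 : 1 ≤ p) (hp : p ≠ ⊤) (hΩ : IsOpen Ω) {f : Rn n → Rn n}
    {D : Rn n → Rn n →L[ℝ] Rn n} (hW : MemW1p p Ω f D) : ∃ D', Measurable D' ∧
      D' =ᵐ[volume.restrict Ω] D ∧ MemW1p p Ω f D' ∧ ∫⁻ x in Ω, ‖D' x‖ₑ ^ p.toReal ≠ ⊤ := by
  have hp0 : p ≠ 0 := (lt_of_lt_of_le zero_lt_one hp1).ne'
  have hD := hW.2.1.1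
  have hae : D =ᵐ[volume.restrict Ω] hD.mk D := hD.ae_eq_mk
  have m : MemLp (hD.mk D) p (volume.restrict Ω) := (memLp_congr_ae hae).1 hW.2.1
  refine ⟨hD.mk D, hD.stronglyMeasurable_mk.measurable, hae.symm, ⟨hW.1, m, ?_⟩,
    (lintegral_rpow_enorm_lt_top_of_eLpNorm_lt_top hp0 hp m.2).ne⟩
  intro φ a b c w
  rw [hW.2.2 φ a b c w]
  congr 1
  refine integral_congr_ae ?_
  filter_upwards [hae] with x hx
  rw [hx]

theorem open_mod (hΩ : IsOpen Ω) {f : Rn n → Rn n} (hc : ContinuousOn f Ω) (hi : InjOn f Ω)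
    {S : Set (Rn n)} (hS : IsCompact S) (hs : S ⊆ Ω) {ρ : ℝ} (hρ : 0 < ρ) :
    ∃ μ : ℝ, 0 < μ ∧ ∀ x ∈ S, ball (f x) μ ⊆ f '' (ball x ρ ∩ Ω) := by
  refine hS.induction_on
    (p := fun s => ∃ μ : ℝ, 0 < μ ∧ ∀ x ∈ s, ball (f x) μ ⊆ f '' (ball x ρ ∩ Ω))
    ⟨1, one_pos, by simp⟩ (fun s t e ⟨μ, a, b⟩ => ⟨μ, a, fun x hx => b x (e hx)⟩)
    (fun s t ⟨μ, a, b⟩ ⟨ν, c, d⟩ => ⟨min μ ν, lt_min a c, fun x hx => hx.elim
      (fun k => (ball_subset_ball (min_le_left _ _)).trans (b x k))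
      fun k => (ball_subset_ball (min_le_right _ _)).trans (d x k)⟩) fun x hx => ?_
  have ho := GEmb_open hc hi (U := ball x (ρ / 2) ∩ Ω) (isOpen_ball.inter hΩ) inter_subset_right
  obtain ⟨r, r0, hr⟩ := Metric.isOpen_iff.1 ho (f x)
    ⟨x, ⟨mem_ball_self (half_pos hρ), hs hx⟩, rfl⟩
  have h1 : f ⁻¹' ball (f x) (r / 2) ∈ 𝓝 x :=
    (hc.continuousAt (hΩ.mem_nhds (hs hx))) (ball_mem_nhds _ (half_pos r0))
  refine ⟨ball x (ρ / 2) ∩ f ⁻¹' ball (f x) (r / 2),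
    mem_nhdsWithin_of_mem_nhds (inter_mem (ball_mem_nhds _ (half_pos hρ)) h1), r / 2,
    half_pos r0, fun y hy => ?_⟩
  refine (ball_subset (by linarith only [hy, mem_ball.1 hy.2])).trans (hr.trans (image_mono ?_))
  exact inter_subset_inter_left _ (ball_subset (by linarith only [hy, mem_ball'.1 hy.1]))

end BEp
end
end

-- merged part: Pool.Agent.Work.MP_f0515e_an.D3.LMain
section
/-! Approximation on an arbitrary open set from the core statement. -/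

open Set Metric Filter Topology Function BEv MeasureTheory
open scoped NNReal ENNReal

noncomputable section
namespace BEp

theorem sel_t {n : ℕ} {η : ℝ} (hη : 0 < η) {Ψ : Rn n → ℝ≥0∞} (hΨ : Measurable Ψ) {c : ℝ≥0∞}
    (h : ∫⁻ t in closedBall (0 : Rn n) η, Ψ t ≤ c * volume (closedBall (0 : Rn n) η))
    {P : Rn n → Prop} (hP : ∀ᵐ t ∂volume.restrict (closedBall (0 : Rn n) η), P t) :
    ∃ t ∈ closedBall (0 : Rn n) η, P t ∧ Ψ t ≤ c := by
  have h0 : volume (closedBall (0 : Rn n) η) ≠ 0 := (measure_closedBall_pos _ _ hη).ne'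
  have h1 : volume (closedBall (0 : Rn n) η) ≠ ⊤ := measure_closedBall_lt_top.ne
  have : Fact (volume (closedBall (0 : Rn n) η) < ⊤) := ⟨h1.lt_top⟩
  obtain ⟨t, ht, k⟩ := exists_notMem_null_le_laverage
    (μ := volume.restrict (closedBall (0 : Rn n) η)) (by simpa using h0) hΨ.aemeasurable
    (ae_iff.1 ((ae_restrict_mem measurableSet_closedBall).and hP))
  replace ht := not_not.1 ht
  refine ⟨t, ht.1, ht.2, k.trans ?_⟩
  rw [laverage_eq, Measure.restrict_apply_univ]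
  exact ENNReal.div_le_of_le_mul h

variable {Ω : Set (V 1)} {d : V 1 → ℝ} {r η : ℝ} {σ : ℝ → ℝ} {Q H : Set (V 1)}
  {r1 : ℕ → V 1 → V 1}

theorem Ret.lev (X : Ret Ω d r η σ Q H r1) (hd : Lev Ω d) (hr : 0 < r) (hη : 1024 * η ≤ r)
    {z : V 1} (hz : z ∈ Ω) : X.TL z ∈ Ω ∧ d (X.TL z) ≤ 51 / 50 * d z := by
  have h1 := (X.mvL z hz).1
  have h2 := abs_le.1 (aa_near hd hr hη (y := X.TL z) (z := z)
    (by linarith only [h1, norm_nonneg (X.TL z - z)])).2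
  have h3 := (hd.pos z).2 hz
  exact ⟨(hd.pos _).1 (by linarith only [h2, h3]), by linarith only [h2]⟩

theorem Ret.nu_le (X : Ret Ω d r η σ Q H r1) (hd : Lev Ω d) (hr : 0 < r) (hη : 1024 * η ≤ r)
    (hQ : MeasurableSet Q) (h2 : ∀ x, 2 * r ≤ d x → x ∈ Q) {p ρ : ℝ} (hp : 0 ≤ p) (hρ : p ≤ ρ)
    {t : V 1} (ht : ‖t‖ ≤ η) {D : V 1 → V 1 →L[ℝ] V 1} (hD : Measurable D) :
    ∫⁻ y, (2 * ‖D (kap d r t y)‖ₑ) ^ p ∂X.ν p ≤ 2 ^ p * ∫⁻ z in Ω,
      indicator {x | x ∈ Ω ∧ d x < 3 * r} (fun x => ‖D x‖ₑ ^ p) (kap d r t (X.TL z)) *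
        X.W z ^ ρ := by
  have hk : Continuous (kap d r t) := (continuous_kap hd r).comp (Continuous.prodMk_right t)
  rw [X.ν_int p (g := fun y => (2 * ‖D (kap d r t y)‖ₑ) ^ p)
      (((hD.comp hk.measurable).enorm.const_mul 2).pow_const p),
    ← lintegral_const_mul' _ _ (ENNReal.rpow_ne_top_of_nonneg hp (by simp))]
  refine (setLIntegral_mono' ((hd.isOpen.measurableSet.diff hQ).inter
    (isClosed_mov _).measurableSet) fun z hz => ?_).trans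
    (lintegral_mono_set (inter_subset_left.trans sdiff_subset))
  have a1 := (X.mvL z hz.1.1).1
  have a2 := kap_mv hd hr ht (X.TL z)
  have a3 := not_le.1 (mt (h2 z) hz.1.2)
  have h0 : 0 ≤ η := (norm_nonneg t).trans ht
  have a4 := mul_le_mul_of_nonneg_left (aa_le_one d r z) h0
  have a5 := mul_le_mul_of_nonneg_left (aa_le_one d r (X.TL z)) h0
  have a6 := abs_le.1 (hd.lip (X.TL z) z)
  have a7 := abs_le.1 (hd.lip (kap d r t (X.TL z)) (X.TL z))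
  rw [indicator_of_mem (show kap d r t (X.TL z) ∈ {x | x ∈ Ω ∧ d x < 3 * r} from
    ⟨(kap_llh hd hr hη ht).1.mapsTo (X.lev hd hr hη hz.1.1).1, by linarith only [hr, hη, a1, a2, a3, a4, a5, a6, a7]⟩),
    ENNReal.mul_rpow_of_nonneg _ _ hp, mul_comm (X.W z ^ p), mul_assoc]
  gcongr
  exact X.one z

open Classical in
theorem Ret.sup_le (X : Ret Ω d r η σ Q H r1) (hd : Lev Ω d) (hr : 0 < r) (hη : 1024 * η ≤ r)
    (hσ : MP σ) {K : Kx Ω}
    (hK : ∀ x ∈ Ω, closure (K.cell x) ⊆ ball x (min (σ (d x / 2)) (d x / 2)))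
    (hZ : ∀ j, X.Z j ⊆ K.sk 1) {ε : ℝ → ℝ} (hε : MP ε) {f : V 1 → V 1}
    (hf : ∀ z ∈ Ω, ∀ y, ‖y - z‖ ≤ 2 * σ (d z) → ‖f y - f z‖ ≤ ε (d z) / 2) :
    ∃ θ : Set (V 1) → ℝ, (∀ s, 0 < θ s) ∧ ∀ G : V 1 → V 1,
      (∀ y ∈ K.sk 1, y ∉ H → ∃ y' ∈ closure (K.cell y), ‖G y - f y'‖ ≤ θ (K.cell y)) →
      ∀ z ∈ Ω, z ∉ Q → X.W z ≠ ⊤ → ‖G (X.TL z) - f z‖ ≤ ε (d z) := by
  refine ⟨fun s => if h : ∃ y ∈ s, y ∈ Ω then ε (d h.choose / 2) / 2 else 1, fun s => ?_,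
    fun G hG z hz hQ hW => ?_⟩
  · dsimp only
    split_ifs with h
    · exact half_pos (hε.2 _ (half_pos ((hd.pos _).2 h.choose_spec.2)))
    · exact one_pos
  obtain ⟨j, hj⟩ := mem_iUnion.1 (X.land z hz hQ hW)
  obtain ⟨y', a1, a2⟩ := hG _ (hZ j hj) (X.offH z hz hQ).1
  obtain ⟨b1, b2⟩ := X.lev hd hr hη hz
  have h : ∃ y ∈ K.cell (X.TL z), y ∈ Ω := ⟨_, K.mem _ b1, b1⟩
  simp only [dif_pos h] at a2
  have c0 := (hd.pos z).2 hz
  have c1 := (lt_min_iff.1 (mem_ball_iff_norm.1 (hK _ b1 (subset_closure h.choose_spec.1)))).2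
  have c2 := (lt_min_iff.1 (mem_ball_iff_norm.1 (hK _ b1 a1))).1
  have c3 := abs_le.1 (hd.lip h.choose (X.TL z))
  have c4 : ε (d h.choose / 2) ≤ ε (d z) := hε.1 (by linarith only [h, b2, c0, c1, c3])
  have c5 : σ (d (X.TL z) / 2) ≤ σ (d z) := hσ.1 (by linarith only [b2, c0])
  have c6 := hf z hz y' (by
    linarith only [c2, c5, hz, norm_sub_le_norm_sub_add_norm_sub y' (X.TL z) z, (X.mvL z hz).2])
  linarith only [h, a2, c4, c6, norm_sub_le_norm_sub_add_norm_sub (G (X.TL z)) (f y') (f z)]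

theorem main_en {p : ℝ≥0∞} (hp1 : 1 ≤ p) (hp2 : p < 2) (hc : Core3 p.toReal) (hΩ : IsOpen Ω)
    {f : V 1 → V 1} {D : V 1 → V 1 →L[ℝ] V 1} (hf : ContinuousOn f Ω) (hi : InjOn f Ω)
    (hW : MemW1p p Ω f D) (hD : Measurable D) (hDi : ∫⁻ x in Ω, ‖D x‖ₑ ^ p.toReal ≠ ⊤)
    {ε : ℝ≥0∞} (hε : ε ≠ 0) :
    ∃ G, LTP Ω G ∧ InjOn G Ω ∧ ∫⁻ x in Ω, en p.toReal G f D x ≤ ε := by
  have hp : p ≠ ⊤ := hp2.ne_top
  have q1 : 1 ≤ p.toReal := by simpa using ENNReal.toReal_mono hp hp1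
  have q2 : p.toReal < 2 := by simpa using ENNReal.toReal_strict_mono (by simp) hp2
  generalize hq : p.toReal = q at *
  have q0 : 0 < q := by linarith
  obtain ⟨ρ, ρ1, ρ2⟩ := exists_between q2
  obtain ⟨Cc, hCc, hcore⟩ := hc
  obtain ⟨Cr, hCr, hret⟩ := exists_lret (ρ := ρ) (by linarith) ρ2
  obtain ⟨Ck, hCk, hkap⟩ := kap_final (n := 2 * 1 + 1) q1
  have h2q : (2 : ℝ≥0∞) ^ q ≠ ⊤ := ENNReal.rpow_ne_top_of_nonneg q0.le (by simp)
  have h4q : (4 : ℝ≥0∞) ^ q ≠ ⊤ := ENNReal.rpow_ne_top_of_nonneg q0.le (by simp)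
  obtain ⟨e, he, he', hfin⟩ := ACo_small
    (c := Ck * (2 ^ q * (4 + (2 + Cr) + 4 ^ q * (Cc * (2 ^ q * (2 + Cr)) + 1)) + 1))
    (by finiteness) hε
  obtain ⟨d, hd⟩ := exists_lev hΩ
  obtain ⟨v, v1, v2, v3⟩ := exists_ug hp1 hp hΩ hf hW hD
  obtain ⟨r, hr, hr'⟩ := exists_r hd hDi he
  obtain ⟨ε0, e1, e2⟩ := exists_eps hd q0 he
  obtain ⟨σ, hσ, hσ'⟩ := exists_tol_kap hd hf (ε := fun s => ε0 s / 2)
    ⟨fun a b h => by have := e1.1 h; dsimp only; linarith only [this], fun s h => half_pos (e1.2 s h)⟩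
  have hsub : ∀ {a : ℝ}, 0 < a → {x | a ≤ d x} ⊆ Ω := fun h x hx => (hd.pos x).1 (h.trans_le hx)
  obtain ⟨f0, f1, f2⟩ := lug_ext (hd.cpt _ (half_pos hr)).isClosed (hf.mono (hsub (half_pos hr)))
  have hS : {x | r ≤ d x} ⊆ {x | r / 2 < d x} := fun x hx => (half_lt_self hr).trans_le hx
  have hO : IsOpen {x | r / 2 < d x} := isOpen_lt continuous_const hd.continuous
  have hO' : {x | r / 2 < d x} ⊆ {x | r / 2 ≤ d x} := fun x hx => le_of_lt (α := ℝ) hx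
  have f3 : EqOn f0 f {x | r ≤ d x} := f2.mono (hS.trans hO')
  obtain ⟨u, u1, u2, u3⟩ := exists_moll_lp hp1 hp hO (hd.cpt r hr) hS f1
    (memW1p_restrict hW hΩ.measurableSet hO.measurableSet (hO'.trans (hsub (half_pos hr)))
      (f2.mono hO'))
  rw [hq] at u3
  obtain ⟨η, η1, Q, H, c0, hA, hτ⟩ := hcore {x | r ≤ d x} {x | 2 * r ≤ d x} f0 D v e
    (min (r / 1024) (σ (r / 8))) (hd.cpt r hr) (hd.cpt _ (by linarith))
    (fun x hx => interior_maximal (t := {x | r < d x}) (fun x hx => le_of_lt (α := ℝ) hx)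
      (isOpen_lt continuous_const hd.continuous) (lt_of_lt_of_le (b := 2 * r) (by linarith) hx))
    f1 (fun x hx y hy h => hi (hsub hr hx) (hsub hr hy) (by rwa [← f3 hx, ← f3 hy])) hD
    (ne_top_of_le_ne_top hDi (lintegral_mono_set (hsub hr))) v1
    (ne_top_of_le_ne_top v2 (setLIntegral_le_lintegral _ _)) (v3.mono (hsub hr) f3)
    ⟨u, fun j => (u1 j).of_le one_le_two, u2, u3⟩ he
    (lt_min (by positivity) (hσ.2 _ (by positivity)))
  have η2 := le_min_iff.1 hA.ηle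
  have η3 := hA.η10
  have η4 := hA.η1le
  have hη : 1024 * η ≤ r := by linarith only [η2]
  have η0 : 0 < η := by linarith
  have hQr : ∀ x ∈ Q, r ≤ d x := fun x hx => hA.QS hx
  have hm : MeasurableSet {x | x ∈ Ω ∧ d x < 3 * r} :=
    (hΩ.inter (isOpen_lt hd.continuous continuous_const)).measurableSet
  have hΦ : ∫⁻ x, indicator {x | x ∈ Ω ∧ d x < 3 * r} (fun x => ‖D x‖ₑ ^ q) x ≤ e := by
    rwa [lintegral_indicator hm]
  obtain ⟨X, X1, X2, X3⟩ := hret Ω Q H _ _ d c0 r η _ η1 σ _ e hd hr hη hσ hA (by linarith only [η2, η3, η4]) hQr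
    ((hD.enorm.pow_const q).indicator hm) (ne_top_of_le_ne_top he' hΦ) he
  obtain ⟨τ1, hτ1⟩ := exists_kx' hd (δ := fun s => min (σ (s / 2)) (s / 2))
    ⟨fun a b h => min_le_min (hσ.1 (by linarith only [h])) (by linarith only [h]),
      fun s h => lt_min (hσ.2 _ (half_pos h)) (half_pos h)⟩
  obtain ⟨τ0, t1, t2, -⟩ := τ1.refine_pc hΩ X.Z (fun _ => 1) X.pcZ X.Zsub X.Zlf
  obtain ⟨K, E, K1, E1, E2, hK⟩ := hτ Ω τ0 hΩ (hsub hr)
  have hZ : ∀ j, X.Z j ⊆ K.sk 1 := fun j => (t2 j).trans (K1.sk 1)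
  obtain ⟨t, ht, ht1, ht2⟩ := sel_t η0 (E1.add X2) (c := (2 + Cr) * e) (by
    simp only [Pi.add_apply]
    rw [lintegral_add_left E1]
    refine (add_le_add E2 X3).trans ?_
    rw [← add_mul]
    gcongr
    calc _ ≤ e + (Cr * e + e) := by gcongr
      _ = _ := by ring) (eug_kap hd hr hη v1 v2 v3 K)
  have ht' := mem_closedBall_zero_iff.1 ht
  have hB : (2 + Cr) * e ≠ ⊤ := by finiteness
  have hκ := kap_llh hd hr hη ht'
  have hkc : Continuous (kap d r t) := (continuous_kap hd r).comp (Continuous.prodMk_right t)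
  have hf' : ContinuousOn (f ∘ kap d r t) Ω := hf.comp hkc.continuousOn hκ.1.mapsTo
  have hcor : ∀ x, r ≤ d x → kap d r t x = x + t := fun x hx => kap_core hr (by linarith only [η2, η3, η4, hx])
  have hν := (X.nu_le hd hr hη hA.mQ (fun x hx => by simpa using hA.cov x hx 0 (by simpa using η0.le))
    q0.le ρ1.le ht' hD).trans (mul_le_mul_right (le_add_self.trans ht2) _)
  obtain ⟨θ, θ1, θ2⟩ := X.sup_le hd hr hη hσ (K := K) (fun x hx =>
    (closure_mono ((t1.trans K1) x hx)).trans (hτ1 x hx)) hZ e1 (f := f ∘ kap d r t)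
    (hσ' r η t hr hη ht')
  obtain ⟨G, g', Sc, out⟩ := hK t ht (ne_top_of_le_ne_top hB (le_self_add.trans ht2))
    (f ∘ kap d r t) (fun y => 2 * ‖D (kap d r t y)‖ₑ) (X.ν q)
    ⟨hf', hi.comp hκ.1.injOn hκ.1.mapsTo, fun x hx => by
      have h1 := abs_le.1 (hd.lip (x + t) x)
      rw [add_sub_cancel_left] at h1
      rw [comp_apply, hcor x hx, f2 (show r / 2 ≤ d (x + t) by linarith only [η2, η3, η4, ht', h1, hx, show r ≤ d x from hx])],
      (hD.comp hkc.measurable).enorm.const_mul 2, ht1,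
      fun x hx => by rw [hcor x hx]; exact le_mul_of_one_le_left' one_le_two,
      X.eme hd hr hη hA.mQ hA.cH q0 ρ1.le X1 K, ne_top_of_le_ne_top (by finiteness) hν⟩
    θ θ1 e he
  obtain ⟨K2, hK2⟩ := out.en.exists
  obtain ⟨k, hk⟩ := eventually_atTop.1 hK2
  obtain ⟨mE, mO, m1, m2⟩ := X.outer hd hr hη hA.mQ q1 ρ1 X1 hZ out.ltp hf' out.mg
    (φ := fun z => ENNReal.ofReal (ε0 (d z)) ^ q)
    (((e1.1.measurable.comp hd.continuous.measurable).ennreal_ofReal).pow_const q) out.sp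
    (fun z hz hQ hW => by
      rw [← ofReal_norm]
      exact ENNReal.rpow_le_rpow (ENNReal.ofReal_le_ofReal (θ2 G out.sup z hz hQ hW)) q0.le) he k
  obtain ⟨F, F1, F2, F3⟩ := X.full hd hr hη hA.mQ hA.cH hA.HQ hQr q1 out.ltp out.inj (out.cs K2)
    mE mO (f ∘ kap d r t) (fun z => D (z + t)) he
  have hinv := hκ.inv hΩ
  refine ⟨F ∘ invFunOn (kap d r t) Ω, F1.comp hinv.ltp hinv.1.mapsTo,
    F2.comp hinv.1.injOn hinv.1.mapsTo, (hkap Ω Q d r η t F f D hd hr hη ht' hA.mQ hQr F1 hf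
      hD).trans (le_trans ?_ hfin)⟩
  have b1 : ∫⁻ x in Ω \ kap d r t '' Q, ‖D x‖ₑ ^ q ≤ e := by
    refine le_trans (lintegral_mono_set fun x hx => ?_) hr'
    refine ⟨hx.1, not_le.1 fun h => hx.2 ?_⟩
    have h1 := hA.cov x (show 2 * r ≤ d x by linarith only [η2, η3, η4, h]) t ht'
    exact ⟨x - t, h1, by rw [hcor _ (hQr _ h1), sub_add_cancel]⟩
  have b2 := (hk _ m1).trans (add_le_add_right (le_self_add.trans ht2) e)
  have b3 := out.int.trans (add_le_add_left (mul_le_mul_right hν Cc) e)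
  calc _ ≤ Ck * (2 ^ q * (e + ((e + (2 + Cr) * e) +
        (e + 4 ^ q * (Cc * (2 ^ q * ((2 + Cr) * e)) + e) + e))) + e) := by
        refine mul_le_mul_right (add_le_add (F3.trans ?_) b1) _
        gcongr
        refine m2.trans ?_
        gcongr
    _ = _ := by ring

theorem ltp3 {p : ℝ≥0∞} (hp1 : 1 ≤ p) (hp2 : p < 2) (hc : Core3 p.toReal) {Ω : Set (Rn 3)}
    (hΩ : IsOpen Ω) {f : Rn 3 → Rn 3} {D : Rn 3 → Rn 3 →L[ℝ] Rn 3}
    (hf : IsEmbedding fun x : Ω => f x) (hW : MemW1p p Ω f D) :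
    ∃ D', Measurable D' ∧ D' =ᵐ[volume.restrict Ω] D ∧ ∀ ε : ℝ≥0∞, ε ≠ 0 →
      ∃ G, LTP Ω G ∧ InjOn G Ω ∧ ∫⁻ x in Ω, en p.toReal G f D' x ≤ ε := by
  obtain ⟨D', h1, h2, h3, h4⟩ := exists_meas_rep hp1 hp2.ne_top hΩ hW
  exact ⟨D', h1, h2, fun ε hε => main_en hp1 hp2 hc hΩ
    (continuousOn_iff_continuous_domRestrict.2 hf.continuous)
    (fun x hx y hy h => congrArg Subtype.val (hf.injective (a₁ := ⟨x, hx⟩) (a₂ := ⟨y, hy⟩) h))
    h3 h1 h4 hε⟩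

theorem main3 {p : ℝ≥0∞} (hp1 : 1 ≤ p) (hp2 : p < 2) (hc : Core3 p.toReal) {Ω : Set (Rn 3)}
    (hΩ : IsOpen Ω) {f : Rn 3 → Rn 3} {D : Rn 3 → Rn 3 →L[ℝ] Rn 3}
    (hf : IsEmbedding fun x : Ω => f x) (hW : MemW1p p Ω f D) :
    Approximable IsPAHomeo p Ω f D :=
  let ⟨_, _, h2, h3⟩ := ltp3 hp1 hp2 hc hΩ hf hW
  approx_of_ltp hp1 hp2.ne_top hΩ hW h2 h3

end BEp
end
end

-- merged part: Pool.Agent.Work.MP_f0515e_an.P3.MSet
section
/-! Choice of the parameters. `mp_cont`: see the proof of `exists_kx'` (D3/LLev). `exists_theta`: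
`scl_exists` for `y ↦ ε (d (invFunOn f Ω y))` (the inverse is continuous on the open set `f '' Ω`,
`open_mod`); `θ` is continuous and positive, so bounded below on a compact neighbourhood of
`f '' S` in `f '' Ω`. `mu_kap`: `kap_core` on the balls of radius `ρ'`, `kap_llh`. `sup_kap`: take
a three cell with `x` in its closure (`exists_top`) and a point `x0` of it; for `y` in the closed
cell `‖y - x‖ < 2 δ x0`, `d x0 ≤ 4/3 d x`, `d x ≤ 5/4 d z`, so `‖y - z‖ ≤ 2 σ (d z)` and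
`d (kap y) ≤ 3 d z` (`aa_near`, `kap_mv`). -/

open Set Metric Filter Topology Function BEv MeasureTheory
open scoped NNReal ENNReal

noncomputable section
namespace BEp

variable {Ω : Set (Rn 3)} {d : Rn 3 → ℝ} {r η : ℝ}

theorem MSet_ev (k : ℝ) {c : ℝ} (hc : 0 < c) : ∀ᶠ m : ℕ in atTop, k * (1 / 2 ^ m) < c := by
  have h1 : Tendsto (fun m : ℕ => k * (1 / 2 ^ m : ℝ)) atTop (𝓝 (k * 0)) :=
    (tendsto_const_nhds.div_atTop
      (tendsto_pow_atTop_atTop_of_one_lt (one_lt_two (α := ℝ)))).const_mul k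
  rw [mul_zero] at h1
  exact h1.eventually_lt_const hc

theorem MSet_ev0 (k : ℝ) {c : ℝ} (hc : 0 < c) : ∀ᶠ s : ℝ in 𝓝[>] 0, k * s < c := by
  have h1 : Tendsto (fun s : ℝ => k * s) (𝓝 0) (𝓝 (k * 0)) :=
    (continuous_const.mul continuous_id).tendsto 0
  rw [mul_zero] at h1
  exact mem_nhdsWithin_of_mem_nhds (h1.eventually_lt_const hc)

theorem mp_cont {σ : ℝ → ℝ} (h : MP σ) :
    ∃ σ' : ℝ → ℝ, ContinuousOn σ' (Ioi 0) ∧ ∀ s, 0 < s → 0 < σ' s ∧ σ' s ≤ σ s := by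
  have hi : ∀ a b, IntervalIntegrable σ volume a b := fun a b => h.1.intervalIntegrable
  have hc := intervalIntegral.continuous_primitive hi 0
  refine ⟨fun s => ((∫ t in (0 : ℝ)..s, σ t) - ∫ t in (0 : ℝ)..s / 2, σ t) / s,
    (hc.sub (hc.comp (continuous_id.div_const 2))).continuousOn.div continuousOn_id
      fun s hs => ne_of_gt hs, fun s hs => ?_⟩
  beta_reduce
  rw [intervalIntegral.integral_interval_sub_left (hi _ _) (hi _ _)]
  have a0 : s / 2 ≤ s := half_le_self hs.le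
  have a1 := intervalIntegral.integral_mono_on a0 intervalIntegrable_const (hi _ _)
    fun t ht => h.1 ht.1
  have a2 := intervalIntegral.integral_mono_on a0 (hi _ _) intervalIntegrable_const
    fun t ht => h.1 ht.2
  rw [intervalIntegral.integral_const, smul_eq_mul] at a1 a2
  have a3 := mul_pos hs (h.2 _ (half_pos hs))
  have a4 := mul_pos hs (h.2 _ hs)
  exact ⟨div_pos (by linarith only [a1, a3]) hs, (div_le_iff₀ hs).2 (by linarith only [a1, a2, a3])⟩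

theorem exists_prm {ι : Type} [Finite ι] (T : ι → Ty) (o : ι → Rn 3) {g b aK : ℝ} (n n1 : ℕ)
    (hT : ∀ q, (T q).Ok g b) (ha : 3 * b ≤ aK) (ho : ∀ q i, ∃ k : ℤ, o q i = k * (1 / 2 ^ n))
    {c : ℝ} (hc : 0 < c) : ∃ (n0 : ℕ) (ρ' : ℝ), n1 ≤ n0 ∧ 3 * b * (1 / 2 ^ n0) < c ∧ 0 < ρ' ∧
      ρ' ≤ c ∧ ∀ μ : ℝ, 0 < μ → ∃ ns : ℕ, ∀ q,
        (⟨T q, ⟨g, b, n, n0, ns, ρ'⟩, o q⟩ : Cu).Ok aK ∧
          (1 + ‖(T q).A‖) * (⟨T q, ⟨g, b, n, n0, ns, ρ'⟩, o q⟩ : Cu).t0 < μ := by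
  have e4 : ∀ᶠ m : ℕ in atTop, ∀ q, aK ^ 30 * ((T q).cf + (T q).cg) ^ 3 * (100 * b) * (1 / 2 ^ m) <
      g * (1 / 2 ^ n) := eventually_all.2 fun q =>
    MSet_ev _ (mul_pos (hT q).g0.1 (by positivity))
  obtain ⟨n0, ⟨⟨a1, a2⟩, a3⟩, a4⟩ := ((((eventually_ge_atTop n1).and (eventually_gt_atTop n)).and
    (MSet_ev (3 * b) hc)).and e4).exists
  have e5 : ∀ᶠ s : ℝ in 𝓝[>] 0, ∀ q, 100 * (T q).cf ^ 3 * s < g * (1 / 2 ^ n0) :=
    eventually_all.2 fun q => MSet_ev0 _ (mul_pos (hT q).g0.1 (by positivity))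
  obtain ⟨ρ', ⟨b1, b2⟩, b3⟩ := (((MSet_ev0 1 hc).and e5).and self_mem_nhdsWithin).exists
  have b4 : 0 < ρ' := b3
  refine ⟨n0, ρ', a1, a3, b4, by linarith only [b1], fun μ hμ => ?_⟩
  have e6 : ∀ᶠ m : ℕ in atTop, ∀ q, (n0 + (T q).a + 1 ≤ m ∧ 2 ^ ((T q).a + 1) * (1 / 2 ^ m) < ρ') ∧
      (1 + ‖(T q).A‖) * 2 ^ ((T q).a + 1) * (1 / 2 ^ m) < μ := eventually_all.2 fun q =>
    ((eventually_ge_atTop _).and (MSet_ev _ b4)).and (MSet_ev _ hμ)
  obtain ⟨ns, c1⟩ := e6.exists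
  refine ⟨ns, fun q => ⟨⟨hT q, ha, ho q, a2, (c1 q).1.1, ?_, (c1 q).1.2.le, (b2 q).le⟩, ?_⟩⟩
  · have := a4 q
    rw [mul_assoc] at this
    exact this.le
  · have := (c1 q).2
    rw [mul_assoc] at this
    exact this

theorem exists_theta (hd : Lev Ω d) {f : Rn 3 → Rn 3} (hf : ContinuousOn f Ω) (hi : InjOn f Ω)
    {ε : ℝ → ℝ} (hε : MP ε) : ∃ θ, Scl (f '' Ω) θ 100 ∧ (∀ x ∈ Ω, θ (f x) ≤ ε (d x)) ∧
      ∀ S, IsCompact S → S ⊆ Ω → ∀ ρ : ℝ, 0 < ρ → ∃ μ : ℝ, 0 < μ ∧ ∀ x ∈ S,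
        ball (f x) μ ⊆ f '' (ball x ρ ∩ Ω) ∧ ∀ y ∈ ball (f x) μ, μ ≤ θ y := by
  have ho : IsOpen (f '' Ω) := GEmb_open hf hi hd.isOpen subset_rfl
  have hc := GEmb_inv hd.isOpen hf hi
  obtain ⟨θ, h1, h2⟩ := scl_exists (L := 100) (θ := fun y => ε (d (invFunOn f Ω y))) ho
    (fun y hy => by
      have a0 : 0 < d (invFunOn f Ω y) := (hd.pos _).2 (invFunOn_mem hy)
      have a1 : ContinuousAt (fun z => d (invFunOn f Ω z)) y :=
        hd.continuous.continuousAt.comp (hc.continuousAt (ho.mem_nhds hy))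
      exact ⟨_, hε.2 _ (half_pos a0), (a1.eventually (lt_mem_nhds (half_lt_self a0))).mono
        fun z hz => hε.1 hz.le⟩) (by norm_num)
  refine ⟨θ, h1, fun x hx => ?_, fun S hS hs ρ hρ => ?_⟩
  · have := h2 _ (mem_image_of_mem f hx)
    rwa [hi.leftInvOn_invFunOn hx] at this
  obtain ⟨μ, m0, hμ⟩ := open_mod hd.isOpen hf hi hS hs hρ
  obtain ⟨c, c0, hcS⟩ := hS.exists_forall_le' (a := 0) (f := fun x => θ (f x))
    ((h1.cont (by norm_num)).comp_continuousOn (hf.mono hs))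
    fun x hx => h1.pos _ (mem_image_of_mem f (hs hx))
  refine ⟨min μ (c / 2), lt_min m0 (half_pos c0), fun x hx =>
    ⟨(ball_subset_ball (min_le_left _ _)).trans (hμ x hx), fun y hy => ?_⟩⟩
  have a1 := h1.lip y (f x)
  have a2 := (mem_ball_iff_norm.1 hy).trans_le (min_le_right _ _)
  have a3 : c ≤ θ (f x) := hcS x hx
  linarith only [c0, a1, a2, a3, min_le_right μ (c / 2), neg_abs_le (θ y - θ (f x))]

theorem mu_kap (hd : Lev Ω d) (hr : 0 < r) (hη : 1024 * η ≤ r) {t : Rn 3} (ht : ‖t‖ ≤ η)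
    {f : Rn 3 → Rn 3} (hf : ContinuousOn f Ω) (hi : InjOn f Ω) {ι : Type} {C : ι → Cu} {aK : ℝ}
    (hC : ∀ q, (C q).Ok aK) (hq : ∀ q, ∀ x ∈ (C q).q, r ≤ d x) {ρ μ : ℝ} (hρ : ∀ q, (C q).ρ' = ρ)
    (hρη : ρ ≤ η) {θ : Rn 3 → ℝ} (h : ∀ x, r / 2 ≤ d x →
      ball (f x) μ ⊆ f '' (ball x ρ ∩ Ω) ∧ ∀ y ∈ ball (f x) μ, μ ≤ θ y)
    (hμ : ∀ q, (1 + ‖(C q).A‖) * (C q).t0 < μ) :
    MuIn C Ω (f ∘ kap d r t) θ μ μ ∧ (f ∘ kap d r t) '' Ω = f '' Ω := by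
  have hB := (kap_llh hd hr hη ht).1
  have cκ : Continuous (kap d r t) := (continuous_kap hd r).comp (.prodMk_right t)
  refine ⟨⟨hf.comp cκ.continuousOn hB.mapsTo, hi.comp hB.injOn hB.mapsTo, fun q x hx => ?_,
    fun q => ⟨hμ q, ?_⟩⟩, by rw [image_comp, hB.image_eq]⟩
  · have a0 := hq q x hx
    have a1 : kap d r t x = x + t := kap_core hr (by linarith only [hr, a0])
    have a2 : r / 2 ≤ d (x + t) := by
      have := hd.lip (x + t) x
      rw [add_sub_cancel_left] at this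
      linarith only [hr, hη, ht, a0, this, neg_abs_le (d (x + t) - d x)]
    obtain ⟨b1, b2⟩ := h _ a2
    rw [comp_apply, a1, hρ]
    refine ⟨b1.trans ?_, b2⟩
    rintro _ ⟨w, ⟨hw, -⟩, rfl⟩
    have a3 : ‖w - t - x‖ < ρ := by
      rw [sub_sub, add_comm]
      exact mem_ball_iff_norm.1 hw
    have a4 : r / 2 ≤ d (w - t) := by
      linarith only [hr, hη, hρη, a0, a3, hd, hd.lip (w - t) x, neg_abs_le (d (w - t) - d x)]
    refine ⟨w - t, ⟨mem_ball_iff_norm.2 a3, (hd.pos _).1 (by linarith only [hr, a4])⟩, ?_⟩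
    rw [comp_apply, kap_core hr a4, sub_add_cancel]
  · have a0 := (hC q).pos.2.2.2.1
    have a1 := mul_nonneg (norm_nonneg (C q).A) a0.le
    linarith [hμ q]

theorem sup_kap (hd : Lev Ω d) (hr : 0 < r) (hη : 1024 * η ≤ r) {t : Rn 3} (ht : ‖t‖ ≤ η)
    {f G : Rn 3 → Rn 3} {K : Kx Ω} {σ ε : ℝ → ℝ} (hσ : MP σ) (hε : MP ε)
    (hK : ∀ x ∈ Ω, closure (K.cell x) ⊆ ball x (min (σ (d x / 2) / 2) (d x / 4)))
    (hf : ∀ z ∈ Ω, ∀ y, ‖y - z‖ ≤ 2 * σ (d z) → ‖f (kap d r t y) - f (kap d r t z)‖ ≤ ε (d z))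
    {θ : Rn 3 → ℝ} (hθ : ∀ x ∈ Ω, θ (f x) ≤ ε (d x / 3))
    (hG : ∀ s ∈ K.cel 3, ∀ y R, (∀ x ∈ closure s, ‖f (kap d r t x) - y‖ +
      17 * θ (f (kap d r t x)) ≤ R) → ∀ x ∈ closure s, ‖G x - y‖ ≤ R) {z x : Rn 3} (hz : z ∈ Ω)
    (hx : x ∈ Ω) (h : x = z ∨ r ≤ d z ∧ ‖x - z‖ ≤ min (σ r) (r / 4)) :
    ‖G x - f (kap d r t z)‖ ≤ 18 * ε (d z) := by
  have hB := (kap_llh hd hr hη ht).1
  obtain ⟨s, hs, hxs⟩ := K.exists_top hd.isOpen hx
  have z0 := (hd.pos z).2 hz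
  have a1 : d x ≤ 5 / 4 * d z ∧ ‖x - z‖ ≤ σ (d z) := by
    rcases h with rfl | ⟨h1, h2⟩
    · rw [sub_self, norm_zero]
      exact ⟨by linarith only [z0], (hσ.2 _ z0).le⟩
    · rw [le_min_iff] at h2
      exact ⟨by linarith only [h1, h2, hd, le_abs_self (d x - d z), hd.lip x z, h2.2], h2.1.trans (hσ.1 h1)⟩
  refine hG s hs _ _ (fun y hy => ?_) x hxs
  obtain ⟨⟨x0, h0, rfl⟩, -⟩ := hs
  have b1 := lt_min_iff.1 (mem_ball_iff_norm.1 (hK x0 h0 hxs))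
  have b2 := lt_min_iff.1 (mem_ball_iff_norm.1 (hK x0 h0 hy))
  have b3 : d x0 ≤ 4 / 3 * d x := by linarith only [b1, hd, neg_abs_le (d x - d x0), hd.lip x x0, b1.2]
  have b4 : d y ≤ 5 / 4 * d x0 := by linarith only [b2, hd, le_abs_self (d y - d x0), hd.lip y x0, b2.2]
  have b5 : σ (d x0 / 2) ≤ σ (d z) := hσ.1 (by linarith only [z0, a1, b3, a1.1])
  have b6 : ‖y - z‖ ≤ 2 * σ (d z) := by
    linarith only [a1, b1, b2, b5, norm_sub_le_norm_sub_add_norm_sub y x0 x, norm_sub_le_norm_sub_add_norm_sub y x z,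
      norm_sub_rev x x0, b1.1, b2.1, a1.2]
  have b7 : η * aa d r y ≤ d y / 512 := by
    refine (mul_le_mul (show η ≤ r / 1024 by linarith only [hη]) (aa_le d r y) (aa_nonneg hd hr y)
      (by positivity)).trans (le_of_eq ?_)
    field_simp
    ring
  have b8 : ε (d (kap d r t y) / 3) ≤ ε (d z) := hε.1 (by
    linarith only [z0, a1, b3, b4, b7, hd, hr, ht, kap_mv hd hr ht y, hd.lip (kap d r t y) y, le_abs_self (d (kap d r t y) - d y), a1.1])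
  linarith only [b8, hf, hz, b6, hθ, hB, h0, hy, hf z hz y b6, hθ _ (hB.mapsTo (K.sub x0 h0 hy))]

end BEp
end
end

-- merged part: Pool.Agent.Work.MP_f0515e_an.P3.Reg
section
/-! Averaging over the translation. `ae_meas`, `out_av`: `av_pt` and Tonelli, then `av_hh` with
`w = 1`; for an outer cell `lam` times the area of its faces is at most `C` times its volume
(`mass`, `Cbe.vol`). `reg_ae`: countably many faces, finitely many segments (`ae_seg`); `GSeg` as in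
`eug_kap`; on the cubes `kap` is the translation (`kap_core`). -/

open Set Metric Filter Topology Function BEv MeasureTheory
open scoped NNReal ENNReal

noncomputable section
namespace BEp

variable {Ω : Set (Rn 3)} {d : Rn 3 → ℝ} {r η : ℝ}

theorem Reg_m (hd : Lev Ω d) (r : ℝ) {Φ : Rn 3 → ℝ≥0∞} (hΦ : Measurable Φ) {α : Type}
    [MeasurableSpace α] {φ : α → Rn 3} (hφ : Measurable φ) :
    Measurable fun q : Rn 3 × α => Φ (kap d r q.1 (φ q.2)) :=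
  hΦ.comp ((continuous_kap hd r).measurable.comp (measurable_fst.prodMk (hφ.comp measurable_snd)))

theorem Reg_par (hd : Lev Ω d) (hr : 0 < r) (hη : 1024 * η ≤ r) {Φ : Rn 3 → ℝ≥0∞}
    (hΦ : Measurable Φ) (hi : ∫⁻ x, Φ x ≠ ⊤) {α : Type} [MeasurableSpace α] {m : Measure α}
    (hm : m univ ≠ ⊤) {φ : α → Rn 3} (hφ : Measurable φ) {S : Set (Rn 3)} (hS : IsCompact S)
    (hs : S ⊆ Ω) (h0 : ∀ᵐ a ∂m, φ a ∈ S) :
    ∀ᵐ t ∂volume.restrict (closedBall (0 : Rn 3) η), ∫⁻ a, Φ (kap d r t (φ a)) ∂m ≠ ⊤ := by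
  rcases lt_or_ge η 0 with h1 | h1
  · simp [closedBall_eq_empty.2 h1]
  have : IsFiniteMeasure m := ⟨hm.lt_top⟩
  have m1 := Reg_m hd r hΦ hφ
  obtain ⟨c, c0, c1⟩ := hd.low hS hs
  refine (ae_lt_top m1.lintegral_prod_right' ?_).mono fun t ht => ht.ne
  rw [lintegral_lintegral_swap m1.aemeasurable]
  refine ((lintegral_mono_ae (g := fun _ =>
    2 ^ 3 * ((ENNReal.ofReal (min 1 (2 * c / r)))⁻¹ ^ 3 * ∫⁻ x, Φ x))
    (h0.mono fun a ha => ?_)).trans_lt ?_).ne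
  · refine (av_pt hd hr hη hΦ (y := φ a) (hs ha)
      (by simpa using mul_nonneg h1 (aa_nonneg hd hr _))).trans (mul_le_mul_right ?_ _)
    have := c1 _ ha
    refine mul_le_mul' (pow_le_pow_left' (ENNReal.inv_le_inv.2 (ENNReal.ofReal_le_ofReal
      (min_le_min_left _ ?_))) 3) (setLIntegral_le_lintegral _ _)
    gcongr
  · rw [lintegral_const]
    exact ENNReal.mul_lt_top (ENNReal.mul_lt_top (ENNReal.pow_lt_top ENNReal.ofNat_lt_top)
      (ENNReal.mul_lt_top (ENNReal.pow_lt_top (ENNReal.inv_lt_top.2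
        (ENNReal.ofReal_pos.2 (by positivity)))) hi.lt_top)) hm.lt_top

theorem ae_meas (hd : Lev Ω d) (hr : 0 < r) (hη : 1024 * η ≤ r) {Φ : Rn 3 → ℝ≥0∞}
    (hΦ : Measurable Φ) (hi : ∫⁻ x, Φ x ≠ ⊤) {m : Measure (Rn 3)} (hm : m univ ≠ ⊤)
    {S : Set (Rn 3)} (hS : IsCompact S) (hs : S ⊆ Ω) (h0 : m Sᶜ = 0) :
    ∀ᵐ t ∂volume.restrict (closedBall (0 : Rn 3) η), ∫⁻ y, Φ (kap d r t y) ∂m ≠ ⊤ :=
  Reg_par hd hr hη hΦ hi hm measurable_id hS hs h0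

theorem av_q (hd : Lev Ω d) (hr : 0 < r) {Φ : Rn 3 → ℝ≥0∞} (hΦ : Measurable Φ)
    {m : Measure (Rn 3)} (hm : m univ ≠ ⊤) {o : Rn 3} (h0 : m (closedBall o η)ᶜ = 0)
    (hq : ∀ x ∈ closedBall o η, r ≤ d x) :
    (Measurable fun t => ∫⁻ y, Φ (kap d r t y) ∂m) ∧
      ∫⁻ t in closedBall (0 : Rn 3) η, ∫⁻ y, Φ (kap d r t y) ∂m ≤
        m univ * ∫⁻ x in closedBall o (2 * η), Φ x := by
  have : IsFiniteMeasure m := ⟨hm.lt_top⟩
  have m1 := Reg_m hd r hΦ (measurable_id (α := Rn 3))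
  refine ⟨m1.lintegral_prod_right', ?_⟩
  rw [lintegral_lintegral_swap m1.aemeasurable, mul_comm, ← lintegral_const]
  have h1 : ∀ᵐ y ∂m, y ∈ closedBall o η := h0
  refine lintegral_mono_ae (h1.mono fun y hy => ?_)
  have e : ∀ t, kap d r t y = y + t := fun t => kap_core hr (by linarith only [hr, hq, hy, hq y hy])
  simp only [e]
  rw [← (measurePreserving_add_left volume y).setLIntegral_comp_preimage_emb
    (MeasurableEquiv.addLeft y).measurableEmbedding Φ]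
  refine lintegral_mono_set fun t ht => ?_
  rw [mem_closedBall_zero_iff] at ht
  rw [mem_closedBall, dist_eq_norm] at hy
  rw [mem_preimage, mem_closedBall, dist_eq_norm, add_sub_right_comm]
  linarith [norm_add_le (y - o) t]

theorem Reg_φ (k : Ch) : Continuous k.φ := by
  unfold Ch.φ
  fun_prop

theorem out_av : ∃ C0 : ℝ≥0∞, C0 ≠ ⊤ ∧ ∀ (ι : Type) (C : ι → Cu) (P : Pr) (aK : ℝ)
    (Ω : Set (Rn 3)) (K : Kx Ω) (ch : Set (Rn 3) → Ch) (w lam : Set (Rn 3) → ℝ) (d : Rn 3 → ℝ)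
    (r η : ℝ) (Φ : Rn 3 → ℝ≥0∞), GFit C P aK K ch w lam → Lev Ω d → 0 < r → 0 < η → 1024 * η ≤ r →
    (∀ x ∈ Ω, closure (K.cell x) ⊆ ball x (η * aa d r x)) → Measurable Φ →
    (Measurable fun t => SumO C K lam fun F => ∫⁻ ξ in (ch F).U, Φ (kap d r t ((ch F).φ ξ))) ∧
      ∫⁻ t in closedBall (0 : Rn 3) η,
        (SumO C K lam fun F => ∫⁻ ξ in (ch F).U, Φ (kap d r t ((ch F).φ ξ))) ≤
        C0 * (∫⁻ x, Φ x) * volume (closedBall (0 : Rn 3) η) := by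
  obtain ⟨Cm, hC1, hCm⟩ := mass
  refine ⟨ENNReal.ofReal Cm * (8 * 8000), ENNReal.mul_ne_top ENNReal.ofReal_ne_top (by norm_num),
    fun ι C P aK Ω K ch w lam d r η Φ hF hd hr h0 hη hK hΦ => ?_⟩
  have hc := K.countable hF.opn
  have : Countable {σ // σ ∈ K.cel 3 ∧ ∀ q, ¬ σ ⊆ (C q).q} :=
    (hc.mono (s₁ := {σ | σ ∈ K.cel 3 ∧ ∀ q, ¬ σ ⊆ (C q).q}) fun _ k => k.1.1).to_subtype
  have : ∀ σ, Countable (K.fc σ) := fun σ => (hc.mono (s₁ := K.fc σ) fun _ k => k.1.1).to_subtype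
  have m1 : ∀ F : Set (Rn 3), Measurable fun q : Rn 3 × Rn 2 => Φ (kap d r q.1 ((ch F).φ q.2)) :=
    fun F => Reg_m hd r hΦ (Reg_φ _).measurable
  have m2 : ∀ (c : ℝ≥0∞) (F : Set (Rn 3)),
      Measurable fun t => c * ∫⁻ ξ in (ch F).U, Φ (kap d r t ((ch F).φ ξ)) :=
    fun c F => (m1 F).lintegral_prod_right'.const_mul c
  have m3 : ∀ (c : ℝ≥0∞) (σ : Set (Rn 3)), Measurable fun t =>
      ∑' F : K.fc σ, c * ∫⁻ ξ in (ch F).U, Φ (kap d r t ((ch F).φ ξ)) :=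
    fun c σ => .tsum fun F => m2 c F
  refine ⟨.tsum fun σ => m3 _ σ, ?_⟩
  unfold SumO
  rw [lintegral_tsum fun σ => (m3 _ _).aemeasurable]
  have key : ∀ σ : {σ // σ ∈ K.cel 3 ∧ ∀ q, ¬ σ ⊆ (C q).q},
      ∫⁻ t in closedBall (0 : Rn 3) η, ∑' F : K.fc σ, ENNReal.ofReal (lam σ) *
        ∫⁻ ξ in (ch F).U, Φ (kap d r t ((ch F).φ ξ)) ≤
        ENNReal.ofReal Cm * ∫⁻ z in σ, 2 ^ 3 * hh d r η Φ z := by
    rintro ⟨σ, hσ, hq⟩
    obtain ⟨l0, l1, l2⟩ := hF.out σ hσ hq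
    obtain ⟨A, hA⟩ : ∃ A, A = ⨅ z ∈ σ, 2 ^ 3 * hh d r η Φ z := ⟨_, rfl⟩
    have k1 : ∀ F : K.fc σ, ∫⁻ t in closedBall (0 : Rn 3) η, ENNReal.ofReal (lam σ) *
        ∫⁻ ξ in (ch F).U, Φ (kap d r t ((ch F).φ ξ)) ≤
        ENNReal.ofReal (lam σ) * A * volume (ch F).U := by
      rintro ⟨F, hF1, hF2⟩
      obtain ⟨-, o2, o3⟩ := (hF.face F hF1).1
      rw [lintegral_const_mul' _ _ ENNReal.ofReal_ne_top,
        lintegral_lintegral_swap (m1 F).aemeasurable, mul_assoc, ← setLIntegral_const]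
      refine mul_le_mul_right (setLIntegral_mono' o2.measurableSet fun ξ hξ => ?_) _
      rw [hA]
      refine le_iInf₂ fun z hz => av_pt hd hr hη hΦ (Kx.cells_sub hσ.1 hz) ?_
      have k2 : (ch F).φ ξ ∈ closure (K.cell z) := by
        rw [Kx.cell_eq hσ.1 hz]
        exact hF2 (o3.subset (mem_image_of_mem _ hξ))
      exact (mem_ball_iff_norm.1 (hK z (Kx.cells_sub hσ.1 hz) k2)).le
    have k2 := hCm Ω K ch σ idE 1 (lam σ) hσ zero_le_one l0.le l1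
      fun F hF1 => ⟨(hF.face F hF1.1).1, l2 F hF1⟩
    have k3 := l1.vol zero_le_one l0.le
    rw [one_pow, ENNReal.ofReal_one, one_mul] at k3
    have k4 : A * volume σ ≤ ∫⁻ z in σ, 2 ^ 3 * hh d r η Φ z := by
      rw [← setLIntegral_const]
      refine setLIntegral_mono' ((Kx.dm_three hσ.1).1 hσ.2).measurableSet fun z hz => ?_
      rw [hA]
      exact iInf₂_le z hz
    rw [lintegral_tsum fun F => (m2 _ _).aemeasurable]
    refine (ENNReal.tsum_le_tsum k1).trans ?_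
    rw [ENNReal.tsum_mul_left]
    refine (mul_le_mul_right k2 _).trans (le_trans (le_of_eq ?_)
      (mul_le_mul_right ((mul_le_mul_right k3 A).trans k4) _))
    rw [one_pow, mul_one, ENNReal.ofReal_mul (by linarith), ENNReal.ofReal_pow l0.le,
      ENNReal.ofReal_pow l0.le]
    ring
  refine (ENNReal.tsum_le_tsum key).trans ?_
  rw [ENNReal.tsum_mul_left]
  have k1 := K.sum_vol hF.opn (T := {σ | σ ∈ K.cel 3 ∧ ∀ q, ¬ σ ⊆ (C q).q}) (fun _ k => k.1)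
    (S := Ω) (fun _ k => Kx.cells_sub k.1.1) fun z => 2 ^ 3 * hh d r η Φ z
  have k2 := av_hh hd hr h0 hη hΦ (w := fun _ => 1) measurable_const (C := 8000) fun x _ => by
    have k := mul_nonneg h0.le (aa_nonneg hd hr x)
    rw [setLIntegral_one, Real.volume_pi_closedBall _ (by linarith only [k]), Fintype.card_fin,
      ← ENNReal.ofReal_pow k, ← ENNReal.ofReal_ofNat 8000, ← ENNReal.ofReal_mul (by norm_num)]
    exact ENNReal.ofReal_le_ofReal (le_of_eq (by ring))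
  simp only [one_mul] at k2
  rw [lintegral_const_mul' _ _ (by norm_num)] at k1
  refine (mul_le_mul_right (k1.trans (mul_le_mul_right k2 _)) _).trans (le_of_eq ?_)
  rw [Real.volume_pi_closedBall _ h0.le, Fintype.card_fin, mul_pow,
    ENNReal.ofReal_mul (by norm_num), ENNReal.ofReal_pow h0.le, ENNReal.ofReal_pow zero_le_two,
    ENNReal.ofReal_ofNat]
  ring

theorem Reg_gs (hd : Lev Ω d) (hr : 0 < r) (hη : 1024 * η ≤ r) {f : Rn 3 → Rn 3}
    {D : Rn 3 → Rn 3 →L[ℝ] Rn 3} {v : Rn 3 → ℝ≥0∞} (h : UG Ω f D v) {t : Rn 3} (ht : ‖t‖ ≤ η) :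
    GSeg Ω (f ∘ kap d r t) (fun x => 2 * ‖(D ∘ kap d r t) x‖ₑ) (v ∘ kap d r t) := by
  intro a b hab h1
  have hk := kap_llh hd hr hη ht
  have s1 : seg a b '' Icc 0 1 ⊆ Ω := fun x hx => hab (seg_image a b ▸ hx)
  obtain ⟨k, k1, k2⟩ := hk.2 _ (isCompact_Icc.image (tp_seg a b).continuous) s1
  have e : ∀ s ∈ Icc (0 : ℝ) 1, kap d r t (seg a b s) = k (seg a b s) := fun s hs =>
    k2 ⟨s, hs, rfl⟩
  obtain ⟨q1, q2, q3⟩ := h _ (k1.tp.comp (tp_seg a b))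
    (fun s hs => e s hs ▸ hk.1.mapsTo (s1 ⟨s, hs, rfl⟩))
    (by
      rw [← setLIntegral_congr_fun measurableSet_Icc fun s hs => congrArg v (e s hs)]
      exact h1)
  have l1 : LipschitzOnWith (2 * ‖b - a‖₊) (fun s => k (seg a b s)) (Icc 0 1) :=
    .of_dist_le_mul fun s hs s' hs' => by
      rw [← e s hs, ← e s' hs', dist_eq_norm]
      refine (kap_lip hd hr hη ht _ _).1.trans_eq ?_
      rw [seg, seg, add_sub_add_left_eq_sub, ← sub_smul, norm_smul, dist_eq_norm]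
      push_cast
      ring
  intro s s' h0 h2 h3
  have m1 : s ∈ Icc (0 : ℝ) 1 := ⟨h0, h2.trans h3⟩
  have m2 : s' ∈ Icc (0 : ℝ) 1 := ⟨h0.trans h2, h3⟩
  rw [comp_apply, comp_apply, e s m1, e s' m2, q3 s m1, q3 s' m2, add_sub_add_left_eq_sub,
    intervalIntegral.integral_interval_sub_left
      (q2.mono_set (uIcc_subset_uIcc_left (Icc_subset_uIcc m2)))
      (q2.mono_set (uIcc_subset_uIcc_left (Icc_subset_uIcc m1)))]
  refine LUg_bd enorm_ne_top h2 fun x hx => (LUg_op _ (norm_deriv_le_of_lipschitzOn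
    (Icc_mem_nhds (h0.trans_lt hx.1) (hx.2.trans_le h3)) l1)).trans_eq ?_
  beta_reduce
  rw [comp_apply, e x ⟨h0.trans hx.1.le, hx.2.le.trans h3⟩, ENNReal.coe_mul, ← mul_assoc,
    mul_comm ‖b - a‖ₑ]
  rfl

theorem Reg_us (hd : Lev Ω d) (hr : 0 < r) (hη : 1024 * η ≤ r) {f : Rn 3 → Rn 3}
    {D : Rn 3 → Rn 3 →L[ℝ] Rn 3} {v : Rn 3 → ℝ≥0∞} (hD : Measurable D) (h : UG Ω f D v)
    {t : Rn 3} (ht : ‖t‖ ≤ η) {S : Set (Rn 3)} (hS : ∀ x ∈ S, r ≤ d x) :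
    USeg S (f ∘ kap d r t) (D ∘ kap d r t) (v ∘ kap d r t) := by
  intro a b hab h1
  have hk := kap_llh hd hr hη ht
  have s1 : ∀ s ∈ Icc (0 : ℝ) 1, seg a b s ∈ S := fun s hs => hab (seg_image a b ▸ ⟨s, hs, rfl⟩)
  have e : ∀ s ∈ Icc (0 : ℝ) 1, kap d r t (seg a b s) = seg (a + t) (b + t) s := fun s hs => by
    rw [kap_core hr (by linarith only [hr, hS, s1, hs, hS _ (s1 s hs)]), seg, seg, add_sub_add_right_eq_sub,
      add_right_comm]
  obtain ⟨q1, -, q3⟩ := h _ (tp_seg (a + t) (b + t))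
    (fun s hs => e s hs ▸ hk.1.mapsTo ((hd.pos _).1 (hr.trans_le (hS _ (s1 s hs)))))
    (by
      rw [← setLIntegral_congr_fun measurableSet_Icc fun s hs => congrArg v (e s hs)]
      exact h1)
  have hde : ∀ s, deriv (seg (a + t) (b + t)) s = b - a := fun s => by
    have k : HasDerivAt (seg (a + t) (b + t)) ((1 : ℝ) • (b + t - (a + t))) s :=
      ((hasDerivAt_id s).smul_const _).const_add _
    rw [k.deriv, one_smul, add_sub_add_right_eq_sub]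
  refine ⟨?_, fun s hs => ?_⟩
  · refine IntegrableOn.congr_fun (f := fun s => D (seg (a + t) (b + t) s))
      ⟨(hD.comp (tp_seg _ _).continuous.measurable).aestronglyMeasurable, q1.lt_top⟩
      (fun s hs => congrArg D (e s hs).symm) measurableSet_Icc
  · have e0 := e 0 (left_mem_Icc.2 zero_le_one)
    rw [show seg a b 0 = a by simp [seg]] at e0
    rw [comp_apply, comp_apply, e s hs, q3 s hs, e0]
    congr 1
    refine intervalIntegral.integral_congr fun x hx => ?_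
    rw [uIcc_of_le hs.1] at hx
    simp only [hde, comp_apply, e x ⟨hx.1, hx.2.trans hs.2⟩]

theorem reg_ae {p : ℝ} (hd : Lev Ω d) (hr : 0 < r) (hη : 1024 * η ≤ r) {ι : Type} [Finite ι]
    {C : ι → Cu} {P : Pr} {aK : ℝ} {K : Kx Ω} {ch : Set (Rn 3) → Ch} {w lam : Set (Rn 3) → ℝ}
    (hF : GFit C P aK K ch w lam) (hq : ∀ q, ∀ x ∈ (C q).q, r ≤ d x) {f : Rn 3 → Rn 3}
    {D : Rn 3 → Rn 3 →L[ℝ] Rn 3} {v : Rn 3 → ℝ≥0∞} (hD : Measurable D) (hv : Measurable v)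
    (hi : ∫⁻ x, v x ≠ ⊤) (hDi : ∫⁻ x in Ω, ‖D x‖ₑ ^ p ≠ ⊤) (h : UG Ω f D v) :
    ∀ᵐ t ∂volume.restrict (closedBall (0 : Rn 3) η),
      RegIn p C K ch (f ∘ kap d r t) (D ∘ kap d r t) (v ∘ kap d r t) := by
  have hΩ := hF.opn
  obtain ⟨Φ, hΦ⟩ : ∃ Φ : Rn 3 → ℝ≥0∞, Φ = fun x => v x + Ω.indicator (fun x => ‖D x‖ₑ ^ p) x :=
    ⟨_, rfl⟩
  have mΦ : Measurable Φ := hΦ ▸ hv.add ((hD.enorm.pow_const p).indicator hΩ.measurableSet)
  have iΦ : ∫⁻ x, Φ x ≠ ⊤ := by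
    rw [hΦ, lintegral_add_left hv, lintegral_indicator hΩ.measurableSet]
    exact ENNReal.add_ne_top.2 ⟨hi, hDi⟩
  have cl : ∀ F ∈ K.cel 2, (ch F).φ '' closure (ch F).U ⊆ Ω := fun F hF1 => by
    refine (image_closure_subset_closure_image (Reg_φ _)).trans ?_
    rw [(hF.face F hF1).1.2.2]
    exact Kx.cl_sub hF1.1
  have c2 : (K.cel 2).Countable := (K.countable hΩ).mono fun _ k => k.1
  have a1 : ∀ F ∈ K.cel 2, ∀ᵐ t ∂volume.restrict (closedBall (0 : Rn 3) η),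
      ∫⁻ ξ in (ch F).U, Φ (kap d r t ((ch F).φ ξ)) ≠ ⊤ ∧
        ∫⁻ ξ in frontier (ch F).U, Φ (kap d r t ((ch F).φ ξ)) ∂μH[1] ≠ ⊤ := by
    intro F hF1
    obtain ⟨o, s⟩ := hF.face F hF1
    obtain ⟨b1, b2, b3, -⟩ := s.bd
    refine (Reg_par hd hr hη mΦ iΦ (by simpa using b2) (Reg_φ _).measurable
      (b3.image (Reg_φ _)) (cl F hF1) ((ae_restrict_mem o.2.1.measurableSet).mono
        fun ξ hξ => mem_image_of_mem _ (subset_closure hξ))).and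
      (Reg_par hd hr hη mΦ iΦ ?_ (Reg_φ _).measurable
        (b3.image (Reg_φ _)) (cl F hF1) ((ae_restrict_mem isClosed_frontier.measurableSet).mono
          fun ξ hξ => mem_image_of_mem _ (frontier_subset_closure hξ)))
    rw [Measure.restrict_apply_univ]
    exact (ENNReal.lt_top_of_mul_ne_top_right
      (ne_top_of_le_ne_top (ENNReal.mul_ne_top (by norm_num) b2) b1)
      (ENNReal.ofReal_pos.2 s.1).ne').ne
  have qO : ∀ q, (C q).O ⊆ Ω := fun q => by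
    obtain ⟨-, hh, -⟩ := (hF.ok q).pos
    exact ((hF.ok q).O_prop.2.1.trans (ball_subset_closedBall.trans
      (closedBall_subset_closedBall (by linarith)))).trans (hF.fit q).sub
  have a2 : ∀ q, ∀ e ∈ (C q).Ed0, ∀ᵐ t ∂volume.restrict (closedBall (0 : Rn 3) η),
      ∫⁻ s in Icc (0 : ℝ) 1, v (kap d r t (seg e.1 e.2 s)) ≠ ⊤ := by
    rintro q e ⟨j, -, -, -, z, z1, z2⟩
    exact ae_seg hd hr hη hv hi ((z2.trans z1).trans (qO q))
  have s3 : ∀ q j, (C q).I = {j} → ∀ u ∈ (C q).Adm, segment ℝ (((C q).pc u 0).pt j (-(C q).ρ))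
      (((C q).pc u 0).pt j (C q).ρ) ⊆ Ω := by
    intro q j hj u hu
    obtain ⟨-, -, hs, -, hl, hρ, hκ, -⟩ := (hF.ok q).pos
    obtain ⟨-, n1, -, -, -, n2, n3, -⟩ := (hF.ok q).num
    have k : ∀ x : ℝ, |x| ≤ (C q).ρ →
        ((C q).pc u 0).pt j x ∈ (C q).Q u ((C q).t0 / 2 + 3 * (C q).ρ') := fun x hx => by
      refine ⟨fun i hi => ?_, fun i hi => ?_⟩
      · have k1 : i ≠ j := fun k => hi (by
          rw [k]
          exact hj.ge (Finset.mem_singleton_self j))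
        simp [Pc.pt, k1]
      · have k1 : i = j := Finset.mem_singleton.1 (hj.le hi)
        subst k1
        simp only [Pc.pt, Pi.add_apply, Pi.smul_apply, Pi.single_eq_same, smul_eq_mul, mul_one,
          add_sub_cancel_left]
        linarith only [hρ, n1, n3, hx, hκ, hs, mul_pos hκ hs]
    exact ((((C q).Q_cpt u _).2.segment_subset (k _ (by rw [abs_neg, abs_of_pos (by linarith)]))
      (k _ (by rw [abs_of_pos (by linarith)]))).trans ((hF.ok q).Q_sub hu).1).trans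
        (hu.1.trans (qO q))
  have a3 : ∀ q j, ∀ u ∈ (C q).Adm, ∀ᵐ t ∂volume.restrict (closedBall (0 : Rn 3) η),
      (C q).I = {j} → ∫⁻ s in Icc (0 : ℝ) 1, Φ (kap d r t (seg (((C q).pc u 0).pt j (-(C q).ρ))
        (((C q).pc u 0).pt j (C q).ρ) s)) ≠ ⊤ := by
    intro q j u hu
    by_cases hj : (C q).I = {j}
    · exact (ae_seg hd hr hη mΦ iΦ (s3 q j hj u hu)).mono fun t ht _ => ht
    · exact .of_forall fun t k => absurd k hj
  filter_upwards [(ae_ball_iff c2).2 a1,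
    ae_all_iff.2 fun q => (ae_ball_iff (hF.ok q).Ed0_finite.countable).2 (a2 q),
    ae_all_iff.2 fun q => ae_all_iff.2 fun j =>
      (ae_ball_iff (hF.ok q).adm_finite.countable).2 (a3 q j),
    ae_restrict_mem measurableSet_closedBall] with t h1 h2 h3 ht
  rw [mem_closedBall_zero_iff] at ht
  have hk := (kap_llh hd hr hη ht).1.mapsTo
  have mk : Measurable (kap d r t) :=
    ((continuous_kap hd r).comp (continuous_const.prodMk continuous_id)).measurable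
  have eΦ : ∀ x ∈ Ω, (v ∘ kap d r t) x + ‖(D ∘ kap d r t) x‖ₑ ^ p = Φ (kap d r t x) := by
    intro x hx
    rw [hΦ]
    simp only [comp_apply, indicator_of_mem (hk hx)]
  refine ⟨hD.comp mk, hv.comp mk, Reg_gs hd hr hη h ht, fun q => Reg_us hd hr hη hD h ht (hq q),
    fun F hF1 => ⟨?_, ?_⟩, h2, fun q j hj u hu a b ha hb => ?_⟩
  · rw [setLIntegral_congr_fun (hF.face F hF1).1.2.1.measurableSet fun ξ hξ =>
      eΦ _ (cl F hF1 (mem_image_of_mem _ (subset_closure hξ)))]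
    exact (h1 F hF1).1
  · rw [setLIntegral_congr_fun isClosed_frontier.measurableSet fun ξ hξ =>
      eΦ _ (cl F hF1 (mem_image_of_mem _ (frontier_subset_closure hξ)))]
    exact (h1 F hF1).2
  · subst ha hb
    rw [setLIntegral_congr_fun measurableSet_Icc fun s hs =>
      eΦ _ (s3 q j hj u hu (seg_image _ _ ▸ mem_image_of_mem _ hs))]
    exact h3 q j u hu hj

end BEp
end
end

-- merged part: Pool.Agent.Work.MP_f0515e_an.P3.MAv
section
/-! Choice of the translation. Take the measures `ν q` of `SelP` and `μ q` of `XBd`; `sel_t` for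
`Ψ t = ∑ q, (∫ Φ q (kap t y) dμ q + c q ∫ Φ q (kap t y) dν q) + (4 C1)^p SumO (∫ Φ0 (kap t ·))` with
`Φ q = ‖D - A q‖^p`, `c q = (C0 cf^3 + 1) ‖A q‖^p`, `Φ0` = indicator of `d < 3 r` in `Ω` times `‖D‖^p`
(`av_q`, `out_av`; the ball has volume `8 η^3`), and the properties `reg_ae`, `ae_meas` (for `v` and
`ν q`). On the closure of an outer cell `d ≤ 2 r`. If `A q = 0` the term with `unk` vanishes. -/

open Set Metric Filter Topology Function BEv MeasureTheory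
open scoped NNReal ENNReal

noncomputable section
namespace BEp

theorem MAv_out {p : ℝ} (hp : 0 < p) {ι : Type} {C : ι → Cu} {P : Pr} {aK : ℝ} {Ω : Set (Rn 3)}
    {K : Kx Ω} {ch : Set (Rn 3) → Ch} {w lam : Set (Rn 3) → ℝ} {d : Rn 3 → ℝ} {r η : ℝ} (C1 : ℝ)
    (D : Rn 3 → Rn 3 →L[ℝ] Rn 3) (hF : GFit C P aK K ch w lam) (hd : Lev Ω d) (hr : 0 < r)
    (hη : 1024 * η ≤ r) (hK : ∀ x ∈ Ω, closure (K.cell x) ⊆ ball x (η * aa d r x))
    (h2 : ∀ x, 2 * r ≤ d x → ∃ q, x ∈ (C q).q) {t : Rn 3} (ht : ‖t‖ ≤ η) :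
    (SumO C K lam fun F => XO p C1 (D ∘ kap d r t) (ch F)) ≤
      4 ^ p * ENNReal.ofReal C1 ^ p * SumO C K lam fun F => ∫⁻ ξ in (ch F).U,
        indicator {x | x ∈ Ω ∧ d x < 3 * r} (fun x => ‖D x‖ₑ ^ p) (kap d r t ((ch F).φ ξ)) := by
  have h0 : 0 ≤ η := (norm_nonneg t).trans ht
  have hT : (4 : ℝ≥0∞) ^ p * ENNReal.ofReal C1 ^ p ≠ ⊤ :=
    ENNReal.mul_ne_top (ENNReal.rpow_ne_top_of_nonneg hp.le (by simp))
      (ENNReal.rpow_ne_top_of_nonneg hp.le ENNReal.ofReal_ne_top)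
  unfold SumO
  rw [← ENNReal.tsum_mul_left]
  refine ENNReal.tsum_le_tsum ?_
  rintro ⟨σ, hσ, hq⟩
  rw [← ENNReal.tsum_mul_left]
  refine ENNReal.tsum_le_tsum ?_
  rintro ⟨F, hF1, hF2⟩
  rw [mul_left_comm]
  refine mul_le_mul_right ?_ _
  obtain ⟨-, o2, o3⟩ := (hF.face F hF1).1
  unfold XO
  rw [← lintegral_const_mul' _ _ hT]
  refine setLIntegral_mono' o2.measurableSet fun ξ hξ => le_of_eq ?_
  obtain ⟨z, hz⟩ := Kx.cells_ne hσ.1
  have z1 := Kx.cells_sub hσ.1 hz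
  have k1 : (ch F).φ ξ ∈ closure σ := hF2 (o3.subset (mem_image_of_mem _ hξ))
  have k2 : d z < 2 * r := not_le.1 fun k => by
    obtain ⟨q, hzq⟩ := h2 z k
    exact hq q (Kx.cell_eq hσ.1 hz ▸ (hF.fit q).cq z hzq)
  have k3 := mem_ball_iff_norm.1 (hK z z1 (by rwa [Kx.cell_eq hσ.1 hz]))
  have a2 := kap_mv hd hr ht ((ch F).φ ξ)
  have a4 := mul_le_mul_of_nonneg_left (aa_le_one d r z) h0
  have a5 := mul_le_mul_of_nonneg_left (aa_le_one d r ((ch F).φ ξ)) h0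
  have a6 := abs_le.1 (hd.lip ((ch F).φ ξ) z)
  have a7 := abs_le.1 (hd.lip (kap d r t ((ch F).φ ξ)) ((ch F).φ ξ))
  rw [indicator_of_mem (show kap d r t ((ch F).φ ξ) ∈ {x | x ∈ Ω ∧ d x < 3 * r} from
    ⟨(kap_llh hd hr hη ht).1.mapsTo (Kx.cl_sub hσ.1 k1), by linarith only [hη, k2, k3, a2, a4, a5, a6, a7]⟩),
    ENNReal.mul_rpow_of_nonneg _ _ hp.le, ENNReal.mul_rpow_of_nonneg _ _ hp.le, comp_apply]
  ring

theorem av_main {p : ℝ} (hp : 0 < p) : ∃ Co : ℝ≥0∞, Co ≠ ⊤ ∧ ∀ (ι : Type) [Fintype ι] (C : ι → Cu)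
    (P : Pr) (aK : ℝ) (Ω : Set (Rn 3)) (K : Kx Ω) (ch : Set (Rn 3) → Ch) (w lam : Set (Rn 3) → ℝ)
    (d : Rn 3 → ℝ) (r C1 : ℝ) (f : Rn 3 → Rn 3) (D : Rn 3 → Rn 3 →L[ℝ] Rn 3) (v : Rn 3 → ℝ≥0∞)
    (C0 : ℝ≥0∞) (Cs Cx : ι → ℝ≥0∞), GFit C P aK K ch w lam → Lev Ω d → 0 < r → 1024 * P.η ≤ r →
    (∀ x ∈ Ω, closure (K.cell x) ⊆ ball x (P.η * aa d r x)) → (∀ q, ∀ x ∈ (C q).q, r ≤ d x) →
    (∀ x, 2 * r ≤ d x → ∃ q, x ∈ (C q).q) → ContinuousOn f Ω → Measurable D → Measurable v →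
    ∫⁻ x, v x ≠ ⊤ → ∫⁻ x in Ω, ‖D x‖ₑ ^ p ≠ ⊤ → UG Ω f D v → C0 ≠ ⊤ → (∀ q, Cs q ≠ ⊤ ∧ Cx q ≠ ⊤) →
    (∀ q, (C q).SelP p (Cs q) K) →
    (∀ q, (C q).XBd p C1 C0 (Cx q) fun kp D => (C q).XT p C1 aK K ch w kp D) →
    ∃ t : Rn 3, ‖t‖ ≤ P.η ∧ RegIn p C K ch (f ∘ kap d r t) (D ∘ kap d r t) (v ∘ kap d r t) ∧
      ∃ kp : ι → Set (I3 × I3), (∀ q, ∀ u ∈ kp q, (C q).Gd K (f ∘ kap d r t) u) ∧
        (∑ q, ((C q).XT p C1 aK K ch w (kp q) (D ∘ kap d r t) + (C q).rem p +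
          ‖(C q).A‖ₑ ^ p * (C q).unk (kp q))) +
          (SumO C K lam fun F => XO p C1 (D ∘ kap d r t) (ch F)) ≤
        (∑ q, (Cx q + (C0 * ENNReal.ofReal (C q).cf ^ 3 + 1) * ‖(C q).A‖ₑ ^ p * Cs q) *
          ∫⁻ y in closedBall (C q).o (2 * P.η), ‖D y - (C q).A‖ₑ ^ p) +
          (C0 * ENNReal.ofReal C1 ^ 3 + 1) * (∑ q, (C q).rem p) +
          Co * ENNReal.ofReal C1 ^ p * ∫⁻ x in {x | x ∈ Ω ∧ d x < 3 * r}, ‖D x‖ₑ ^ p := by
  obtain ⟨Ca, hCa, hav⟩ := out_av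
  have h4 : (4 : ℝ≥0∞) ^ p ≠ ⊤ := ENNReal.rpow_ne_top_of_nonneg hp.le (by simp)
  refine ⟨4 ^ p * Ca, ENNReal.mul_ne_top h4 hCa, fun ι _ C P aK Ω K ch w lam d r C1 f D v C0 Cs Cx
    hF hd hr hη hK h1 h2 hf hD hv hi hDi hU hC0 hC hS hX => ?_⟩
  have η0 : 0 < P.η := by unfold Pr.η; positivity
  have eη : ∀ q, (C q).η = P.η := fun q => congrArg Pr.η (hF.par q)
  have eq : ∀ q, (C q).q = closedBall (C q).o P.η := fun q => by rw [Cu.q, eη]
  choose ν ν0 ν1 ν2 using hS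
  choose μ μ0 μ1 μ2 using hX
  have hvol : ∀ q, ENNReal.ofReal ((C q).η ^ 3) ≤ volume (closedBall (0 : Rn 3) P.η) := fun q => by
    rw [eη, Real.volume_pi_closedBall _ η0.le, Fintype.card_fin]
    exact ENNReal.ofReal_le_ofReal (pow_le_pow_left₀ η0.le (by linarith) 3)
  have νT : ∀ q, ν q univ ≠ ⊤ := fun q =>
    ne_top_of_le_ne_top (ENNReal.mul_ne_top (hC q).1 ENNReal.ofReal_ne_top) (ν1 q)
  have μT : ∀ q, μ q univ ≠ ⊤ := fun q =>
    ne_top_of_le_ne_top (ENNReal.mul_ne_top (hC q).2 ENNReal.ofReal_ne_top) (μ1 q)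
  have mΦ : ∀ q, Measurable fun y => ‖D y - (C q).A‖ₑ ^ p := fun q =>
    (hD.sub_const _).enorm.pow_const p
  have hm : MeasurableSet {x | x ∈ Ω ∧ d x < 3 * r} :=
    (hd.isOpen.inter (isOpen_lt hd.continuous continuous_const)).measurableSet
  have aν := fun q => av_q hd hr (mΦ q) (νT q) (eq q ▸ ν0 q) (eq q ▸ h1 q)
  have aμ := fun q => av_q hd hr (mΦ q) (μT q) (eq q ▸ μ0 q) (eq q ▸ h1 q)
  obtain ⟨o1, o2⟩ := hav ι C P aK Ω K ch w lam d r P.η _ hF hd hr η0 hη hK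
    ((hD.enorm.pow_const p).indicator hm)
  rw [lintegral_indicator hm] at o2
  obtain ⟨c, hc⟩ : ∃ c : ι → ℝ≥0∞,
      ∀ q, c q = (C0 * ENNReal.ofReal (C q).cf ^ 3 + 1) * ‖(C q).A‖ₑ ^ p := ⟨_, fun _ => rfl⟩
  have m1 : ∀ q, Measurable fun t => (∫⁻ y, ‖D (kap d r t y) - (C q).A‖ₑ ^ p ∂μ q) +
      c q * ∫⁻ y, ‖D (kap d r t y) - (C q).A‖ₑ ^ p ∂ν q := fun q =>
    (aμ q).1.add ((aν q).1.const_mul _)
  have m2 := Finset.measurable_sum Finset.univ fun q _ => m1 q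
  obtain ⟨t, ht, ⟨hR, hN⟩, hΨ⟩ := sel_t η0 (m2.add (o1.const_mul (4 ^ p * ENNReal.ofReal C1 ^ p)))
    (c := (∑ q, (Cx q + c q * Cs q) *
        ∫⁻ y in closedBall (C q).o (2 * P.η), ‖D y - (C q).A‖ₑ ^ p) +
      4 ^ p * Ca * ENNReal.ofReal C1 ^ p * ∫⁻ x in {x | x ∈ Ω ∧ d x < 3 * r}, ‖D x‖ₑ ^ p)
    (by
      simp only [Pi.add_apply]
      rw [lintegral_add_left m2, lintegral_const_mul _ o1, lintegral_finsetSum _ fun q _ => m1 q,
        add_mul, Finset.sum_mul]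
      refine add_le_add (Finset.sum_le_sum fun q _ => ?_)
        ((mul_le_mul_right o2 _).trans (le_of_eq (by ring)))
      rw [lintegral_add_left (aμ q).1, lintegral_const_mul _ (aν q).1]
      refine (add_le_add ((aμ q).2.trans (mul_le_mul_left ((μ1 q).trans
        (mul_le_mul_right (hvol q) _)) _)) (mul_le_mul_right ((aν q).2.trans (mul_le_mul_left
          ((ν1 q).trans (mul_le_mul_right (hvol q) _)) _)) _)).trans (le_of_eq ?_)
      ring)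
    ((reg_ae hd hr hη hF h1 hD hv hi hDi hU).and (ae_all_iff.2 fun q => ae_meas hd hr hη hv hi
      (νT q) (isCompact_closedBall (C q).o (C q).η) (hF.fit q).sub (ν0 q)))
  have ht' := mem_closedBall_zero_iff.1 ht
  have hkc : Continuous (kap d r t) := (continuous_kap hd r).comp (Continuous.prodMk_right t)
  have hf' : ContinuousOn (f ∘ kap d r t) Ω :=
    hf.comp hkc.continuousOn (kap_llh hd hr hη ht').1.mapsTo
  choose kp k1 k2 using fun q => ν2 q (f ∘ kap d r t) (D ∘ kap d r t) (v ∘ kap d r t)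
    (hf'.mono (hF.fit q).sub) hR.mD hR.mv (hR.us q) (hN q)
  refine ⟨t, ht', hR, kp, k1, ?_⟩
  have k3 : ∀ q, (C q).XT p C1 aK K ch w (kp q) (D ∘ kap d r t) + (C q).rem p +
      ‖(C q).A‖ₑ ^ p * (C q).unk (kp q) ≤
      ((∫⁻ y, ‖D (kap d r t y) - (C q).A‖ₑ ^ p ∂μ q) +
        c q * ∫⁻ y, ‖D (kap d r t y) - (C q).A‖ₑ ^ p ∂ν q) +
        (C0 * ENNReal.ofReal C1 ^ 3 + 1) * (C q).rem p := by
    intro q
    have g1 := μ2 q (kp q) (fun u hu => (k1 q u hu).adm) (fun ⟨u, hu⟩ => (k1 q u hu).ne) _ hR.mD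
    have g2 : ‖(C q).A‖ₑ ^ p * (C q).unk (kp q) ≤
        ‖(C q).A‖ₑ ^ p * ∫⁻ y, ‖D (kap d r t y) - (C q).A‖ₑ ^ p ∂ν q := by
      by_cases h0 : (C q).A = 0
      · have e : ‖(C q).A‖ₑ = 0 := by rw [← ofReal_norm, h0, norm_zero, ENNReal.ofReal_zero]
        rw [e, ENNReal.zero_rpow_of_pos hp, zero_mul, zero_mul]
      · exact mul_le_mul_right (k2 q h0) _
    rw [mul_assoc (ENNReal.ofReal (C q).cf ^ 3)] at g1
    refine (add_le_add (add_le_add (g1.trans (add_le_add le_rfl (mul_le_mul_right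
      (add_le_add le_rfl (mul_le_mul_right g2 _)) _))) le_rfl) g2).trans (le_of_eq ?_)
    rw [hc]
    simp only [comp_apply]
    ring
  refine (add_le_add (Finset.sum_le_sum fun q _ => k3 q)
    (MAv_out hp C1 D hF hd hr hη hK h2 ht')).trans ?_
  rw [Finset.sum_add_distrib, ← Finset.mul_sum, add_right_comm]
  refine (add_le_add hΨ le_rfl).trans (le_of_eq ?_)
  simp only [hc]
  ring

end BEp
end
end

-- merged part: Pool.Agent.Work.MP_f0515e_an.P2.QNull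
section
/-! The image of the skeleton is null for almost all `t`. The skeleton is a countable union of compact sets `F` (closed cells of dimension at most two), each in a plane `n ⬝ x = c`, `n ≠ 0`. For `t0` with `n ⬝ t0 = 0` the sets `kap (t0 + h n) '' F` (with `‖t0 + h n‖ ≤ η`) are disjoint
for different `h`: project along `n` (norm at most `3`, `‖t0‖ ≤ 3 η`, `aa` is `2 / r` Lipschitz and positive on `Ω`). So only countably many `h` give positive measure (`Measure.countable_meas_pos_of_disjoint_iUnion`). The function `t ↦ volume (f '' (kap t '' F))` is upper semicontinuous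
on the closed ball, so the bad set is measurable; Fubini in linear coordinates whose first vector is `n`. -/

open Set Metric Filter Topology Function BEv MeasureTheory
open scoped NNReal ENNReal

noncomputable section
namespace BEp

theorem QNull_lip {g : Rn 3 → Rn 3} {F : Set (Rn 3)} {L : ℝ≥0} (hg : LipschitzOnWith L g F)
    (h0 : volume F = 0) : volume (g '' F) = 0 := by
  have h := hg.hausdorffMeasure_image_le (d := ((Fintype.card (Fin 3) : ℕ) : ℝ))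
    (Nat.cast_nonneg _)
  rw [hausdorffMeasure_pi_real, h0, mul_zero] at h
  exact le_antisymm h zero_le

/-- The translations which move a point of a null set to a given point form a null set. -/
theorem QNull_fib {Ω : Set (Rn 3)} {d : Rn 3 → ℝ} (hd : Lev Ω d) {r η : ℝ} (hr : 0 < r)
    (hη : 1024 * η ≤ r) {F : Set (Rn 3)} (hF : IsCompact F) (hs : F ⊆ Ω) (h0 : volume F = 0)
    (z : Rn 3) : volume {t : Rn 3 | ‖t‖ ≤ η ∧ ∃ x ∈ F, kap d r t x = z} = 0 := by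
  obtain ⟨c, c0, hc⟩ := hF.exists_forall_le' (f := aa d r) (a := 0)
    (LKap_cont hd r).continuousOn fun x hx => (aa_pos hd hr).2 (hs hx)
  have e : ∀ x ∈ F, x + aa d r x • (aa d r x)⁻¹ • (z - x) = z := fun x hx => by
    rw [smul_inv_smul₀ (c0.trans_le (hc x hx)).ne', add_sub_cancel]
  have hL : LipschitzOnWith ⟨2 / c, by positivity⟩ (fun x => (aa d r x)⁻¹ • (z - x))
      {x | x ∈ F ∧ ‖(aa d r x)⁻¹ • (z - x)‖ ≤ η} := by
    refine LipschitzOnWith.of_dist_le_mul fun x hx y hy => ?_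
    have e1 := e x hx.1
    have e2 := e y hy.1
    have h2 := hy.2
    rw [dist_eq_norm, dist_eq_norm]
    generalize (aa d r x)⁻¹ • (z - x) = t at e1 ⊢
    generalize (aa d r y)⁻¹ • (z - y) = s at e2 h2 ⊢
    have e3 : aa d r x • (t - s) = (aa d r y • s - aa d r x • s) - (x - y) := by
      rw [smul_sub, eq_sub_of_add_eq' e1, eq_sub_of_add_eq' e2]
      abel
    have k := (LKap_half hr hη h2 (aa_lip hd hr)).dist_le_mul y x
    rw [dist_eq_norm, dist_eq_norm, norm_sub_rev y x] at k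
    have k2 := norm_sub_le (aa d r y • s - aa d r x • s) (x - y)
    rw [← e3, norm_smul, Real.norm_of_nonneg (aa_nonneg hd hr x)] at k2
    have k3 := mul_le_mul_of_nonneg_right (hc x hx.1) (norm_nonneg (t - s))
    change ‖t - s‖ ≤ 2 / c * ‖x - y‖
    rw [div_mul_eq_mul_div, le_div_iff₀ c0]
    push_cast at k
    linarith only [k, k2, k3, norm_nonneg (x - y)]
  refine measure_mono_null ?_ (QNull_lip hL (measure_mono_null (fun x hx => hx.1) h0))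
  rintro t ⟨ht, x, hx, rfl⟩
  have e4 : (aa d r x)⁻¹ • (kap d r t x - x) = t := by
    rw [kap, add_sub_cancel_left, inv_smul_smul₀ (c0.trans_le (hc x hx)).ne']
  exact ⟨x, ⟨hx, e4.symm ▸ ht⟩, e4⟩

theorem QNull_cpt {Ω : Set (Rn 3)} {d : Rn 3 → ℝ} (hd : Lev Ω d) {r η : ℝ} (hr : 0 < r)
    (hη : 1024 * η ≤ r) {f : Rn 3 → Rn 3} (hf : ContinuousOn f Ω) (hi : InjOn f Ω)
    {F : Set (Rn 3)} (hF : IsCompact F) (hs : F ⊆ Ω) (h0 : volume F = 0) :
    ∀ᵐ t ∂volume.restrict (closedBall (0 : Rn 3) η), volume ((f ∘ kap d r t) '' F) = 0 := by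
  have hm : ∀ t : Rn 3, ‖t‖ ≤ η → ∀ x ∈ F, kap d r t x ∈ Ω := fun t ht x hx =>
    (kap_llh hd hr hη ht).1.mapsTo (hs hx)
  have hE : IsCompact ((fun q : Rn 3 × Rn 3 => (q.1, f (kap d r q.1 q.2))) ''
      (closedBall 0 η ×ˢ F)) :=
    ((isCompact_closedBall 0 η).prod hF).image_of_continuousOn (continuousOn_fst.prodMk
      (hf.comp (continuous_kap hd r).continuousOn fun q hq =>
        hm _ (mem_closedBall_zero_iff.1 hq.1) _ hq.2))
  have key := (Measure.ae_ae_comm (μ := (volume : Measure (Rn 3))) (ν := (volume : Measure (Rn 3)))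
    (p := fun t y => (t, y) ∉ (fun q : Rn 3 × Rn 3 => (q.1, f (kap d r q.1 q.2))) ''
      (closedBall 0 η ×ˢ F)) hE.isClosed.measurableSet.compl).2 (ae_of_all _ fun y => by
    by_cases hy : ∃ z ∈ Ω, f z = y
    · obtain ⟨z, hz, rfl⟩ := hy
      refine measure_mono_null (fun t ht => ?_) (QNull_fib hd hr hη hF hs h0 z)
      obtain ⟨q, hq, e⟩ := not_not.1 ht
      obtain ⟨rfl, e2⟩ := Prod.mk.inj e
      have h1 := mem_closedBall_zero_iff.1 hq.1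
      exact ⟨h1, q.2, hq.2, hi (hm _ h1 _ hq.2) hz e2⟩
    · refine ae_of_all _ fun t ⟨q, hq, e⟩ => hy ?_
      exact ⟨_, hm _ (mem_closedBall_zero_iff.1 hq.1) _ hq.2, (Prod.mk.inj e).2⟩)
  rw [ae_restrict_iff' measurableSet_closedBall]
  refine key.mono fun t ht hb => measure_mono_null ?_ ht
  rintro _ ⟨x, hx, rfl⟩ h
  exact h ⟨(t, x), ⟨hb, hx⟩, rfl⟩

theorem null_ae {Ω : Set (Rn 3)} {d : Rn 3 → ℝ} (hd : Lev Ω d) {r η : ℝ} (hr : 0 < r)
    (hη : 1024 * η ≤ r) (K : Kx Ω) {f : Rn 3 → Rn 3} (hf : ContinuousOn f Ω) (hi : InjOn f Ω) :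
    ∀ᵐ t ∂volume.restrict (closedBall (0 : Rn 3) η), volume ((f ∘ kap d r t) '' K.sk 2) = 0 := by
  have hU : IsOpen (⋃ σ ∈ K.cel 3, σ) :=
    isOpen_biUnion fun σ hσ => (Kx.dm_three hσ.1).1 hσ.2
  have hsub : ∀ j : ℕ, {x | 1 / ((j : ℝ) + 1) ≤ d x} ⊆ Ω := fun j x hx =>
    (hd.pos x).1 (Nat.one_div_pos_of_nat.trans_le hx)
  have h1 : ∀ j : ℕ, ∀ᵐ t ∂volume.restrict (closedBall (0 : Rn 3) η),
      volume ((f ∘ kap d r t) '' ({x | 1 / ((j : ℝ) + 1) ≤ d x} \ ⋃ σ ∈ K.cel 3, σ)) = 0 :=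
    fun j => QNull_cpt hd hr hη hf hi ((hd.cpt _ Nat.one_div_pos_of_nat).diff hU)
      (fun x hx => hsub j hx.1) (measure_mono_null (t := K.sk 2) (fun x hx => ⟨hsub j hx.1, not_lt.1 fun k =>
        hx.2 (mem_biUnion (show K.cell x ∈ K.cel 3 from
          ⟨K.cell_mem (hsub j hx.1), le_antisymm (dm_le _) k⟩) (K.mem x (hsub j hx.1)))⟩)
        (K.sk_two_null hd.isOpen))
  refine (ae_all_iff.2 h1).mono fun t ht => measure_mono_null ?_ (measure_iUnion_null ht)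
  rintro _ ⟨x, hx, rfl⟩
  obtain ⟨j, hj⟩ := exists_nat_one_div_lt ((hd.pos x).2 hx.1)
  refine mem_iUnion.2 ⟨j, x, ⟨hj.le, fun h => ?_⟩, rfl⟩
  obtain ⟨σ, hσ, hxσ⟩ := mem_iUnion₂.1 h
  have h2 := hx.2
  rw [Kx.cell_eq hσ.1 hxσ, hσ.2] at h2
  omega

end BEp
end
end

-- merged part: Pool.Agent.Work.MP_f0515e_an.P2.QAv
section
/-! Choice of the translation for the exponent two. -/

open Set Metric Filter Topology Function BEv MeasureTheory
open scoped NNReal ENNReal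

noncomputable section
namespace BEp

theorem av_main2 {p : ℝ} (hp2 : p = 2) : ∃ Co : ℝ≥0∞, Co ≠ ⊤ ∧ ∀ (ι : Type) [Fintype ι] (C : ι → Cu)
    (P : Pr) (aK : ℝ) (Ω : Set (Rn 3)) (K : Kx Ω) (ch : Set (Rn 3) → Ch) (w lam : Set (Rn 3) → ℝ)
    (d : Rn 3 → ℝ) (r C1 : ℝ) (f : Rn 3 → Rn 3) (D : Rn 3 → Rn 3 →L[ℝ] Rn 3) (v : Rn 3 → ℝ≥0∞)
    (C0 : ℝ≥0∞) (Cs Cx : ι → ℝ≥0∞), GFit C P aK K ch w lam → Lev Ω d → 0 < r → 1024 * P.η ≤ r →
    (∀ x ∈ Ω, closure (K.cell x) ⊆ ball x (P.η * aa d r x)) → (∀ q, ∀ x ∈ (C q).q, r ≤ d x) →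
    (∀ x, 2 * r ≤ d x → ∃ q, x ∈ (C q).q) → ContinuousOn f Ω → InjOn f Ω → Measurable D → Measurable v →
    ∫⁻ x, v x ≠ ⊤ → ∫⁻ x in Ω, ‖D x‖ₑ ^ p ≠ ⊤ → UG Ω f D v → C0 ≠ ⊤ → (∀ q, Cs q ≠ ⊤ ∧ Cx q ≠ ⊤) →
    (∀ q, (C q).SelP2 (Cs q) K) →
    (∀ q, (C q).XBd p C1 C0 (Cx q) fun kp D => (C q).XT p C1 aK K ch w kp D) →
    ∃ t : Rn 3, ‖t‖ ≤ P.η ∧ RegIn p C K ch (f ∘ kap d r t) (D ∘ kap d r t) (v ∘ kap d r t) ∧
      volume ((f ∘ kap d r t) '' K.sk 2) = 0 ∧ ∃ kp : ι → Set (I3 × I3),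
        (∀ q, ∀ u ∈ kp q, (C q).Gs K (f ∘ kap d r t) (D ∘ kap d r t) (v ∘ kap d r t) u) ∧
        (∑ q, ((C q).XT p C1 aK K ch w (kp q) (D ∘ kap d r t) + (C q).rem p +
          ‖(C q).A‖ₑ ^ p * (C q).unk (kp q))) +
          (SumO C K lam fun F => XO p C1 (D ∘ kap d r t) (ch F)) ≤
        (∑ q, (Cx q + (C0 * ENNReal.ofReal (C q).cf ^ 3 + 1) * ‖(C q).A‖ₑ ^ p * Cs q) *
          ∫⁻ y in closedBall (C q).o (2 * P.η), ‖D y - (C q).A‖ₑ ^ p) +
          (C0 * ENNReal.ofReal C1 ^ 3 + 1) * (∑ q, (C q).rem p) +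
          Co * ENNReal.ofReal C1 ^ p * ∫⁻ x in {x | x ∈ Ω ∧ d x < 3 * r}, ‖D x‖ₑ ^ p := by
  have hp : 0 < p := by linarith
  obtain ⟨Ca, hCa, hav⟩ := out_av
  have h4 : (4 : ℝ≥0∞) ^ p ≠ ⊤ := ENNReal.rpow_ne_top_of_nonneg hp.le (by simp)
  refine ⟨4 ^ p * Ca, ENNReal.mul_ne_top h4 hCa, fun ι _ C P aK Ω K ch w lam d r C1 f D v C0 Cs Cx
    hF hd hr hη hK h1 h2 hf hfi hD hv hi hDi hU hC0 hC hS hX => ?_⟩
  have η0 : 0 < P.η := by unfold Pr.η; positivity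
  have eη : ∀ q, (C q).η = P.η := fun q => congrArg Pr.η (hF.par q)
  have eq : ∀ q, (C q).q = closedBall (C q).o P.η := fun q => by rw [Cu.q, eη]
  choose ν ν0 ν1 ν2 using hS
  choose μ μ0 μ1 μ2 using hX
  have hvol : ∀ q, ENNReal.ofReal ((C q).η ^ 3) ≤ volume (closedBall (0 : Rn 3) P.η) := fun q => by
    rw [eη, Real.volume_pi_closedBall _ η0.le, Fintype.card_fin]
    exact ENNReal.ofReal_le_ofReal (pow_le_pow_left₀ η0.le (by linarith) 3)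
  have νT : ∀ q, ν q univ ≠ ⊤ := fun q =>
    ne_top_of_le_ne_top (ENNReal.mul_ne_top (hC q).1 ENNReal.ofReal_ne_top) (ν1 q)
  have μT : ∀ q, μ q univ ≠ ⊤ := fun q =>
    ne_top_of_le_ne_top (ENNReal.mul_ne_top (hC q).2 ENNReal.ofReal_ne_top) (μ1 q)
  have mΦ : ∀ q, Measurable fun y => ‖D y - (C q).A‖ₑ ^ p := fun q =>
    (hD.sub_const _).enorm.pow_const p
  have hm : MeasurableSet {x | x ∈ Ω ∧ d x < 3 * r} :=
    (hd.isOpen.inter (isOpen_lt hd.continuous continuous_const)).measurableSet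
  have aν := fun q => av_q hd hr (mΦ q) (νT q) (eq q ▸ ν0 q) (eq q ▸ h1 q)
  have aμ := fun q => av_q hd hr (mΦ q) (μT q) (eq q ▸ μ0 q) (eq q ▸ h1 q)
  obtain ⟨o1, o2⟩ := hav ι C P aK Ω K ch w lam d r P.η _ hF hd hr η0 hη hK
    ((hD.enorm.pow_const p).indicator hm)
  rw [lintegral_indicator hm] at o2
  obtain ⟨c, hc⟩ : ∃ c : ι → ℝ≥0∞,
      ∀ q, c q = (C0 * ENNReal.ofReal (C q).cf ^ 3 + 1) * ‖(C q).A‖ₑ ^ p := ⟨_, fun _ => rfl⟩
  have m1 : ∀ q, Measurable fun t => (∫⁻ y, ‖D (kap d r t y) - (C q).A‖ₑ ^ p ∂μ q) +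
      c q * ∫⁻ y, ‖D (kap d r t y) - (C q).A‖ₑ ^ p ∂ν q := fun q =>
    (aμ q).1.add ((aν q).1.const_mul _)
  have m2 := Finset.measurable_sum Finset.univ fun q _ => m1 q
  obtain ⟨t, ht, ⟨⟨hR, hZ⟩, hN⟩, hΨ⟩ := sel_t η0 (m2.add (o1.const_mul (4 ^ p * ENNReal.ofReal C1 ^ p)))
    (c := (∑ q, (Cx q + c q * Cs q) *
        ∫⁻ y in closedBall (C q).o (2 * P.η), ‖D y - (C q).A‖ₑ ^ p) +
      4 ^ p * Ca * ENNReal.ofReal C1 ^ p * ∫⁻ x in {x | x ∈ Ω ∧ d x < 3 * r}, ‖D x‖ₑ ^ p)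
    (by
      simp only [Pi.add_apply]
      rw [lintegral_add_left m2, lintegral_const_mul _ o1, lintegral_finsetSum _ fun q _ => m1 q,
        add_mul, Finset.sum_mul]
      refine add_le_add (Finset.sum_le_sum fun q _ => ?_)
        ((mul_le_mul_right o2 _).trans (le_of_eq (by ring)))
      rw [lintegral_add_left (aμ q).1, lintegral_const_mul _ (aν q).1]
      refine (add_le_add ((aμ q).2.trans (mul_le_mul_left ((μ1 q).trans
        (mul_le_mul_right (hvol q) _)) _)) (mul_le_mul_right ((aν q).2.trans (mul_le_mul_left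
          ((ν1 q).trans (mul_le_mul_right (hvol q) _)) _)) _)).trans (le_of_eq ?_)
      ring)
    (((reg_ae hd hr hη hF h1 hD hv hi hDi hU).and (null_ae hd hr hη K hf hfi)).and (ae_all_iff.2 fun q => ae_meas hd hr hη hv hi
      (νT q) (isCompact_closedBall (C q).o (C q).η) (hF.fit q).sub (ν0 q)))
  have ht' := mem_closedBall_zero_iff.1 ht
  have hkc : Continuous (kap d r t) := (continuous_kap hd r).comp (Continuous.prodMk_right t)
  have hf' : ContinuousOn (f ∘ kap d r t) Ω :=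
    hf.comp hkc.continuousOn (kap_llh hd hr hη ht').1.mapsTo
  choose kp k1 k2 using fun q => ν2 q (f ∘ kap d r t) (D ∘ kap d r t) (v ∘ kap d r t)
    (hf'.mono (hF.fit q).sub) hR.mD hR.mv (hR.us q) (hN q)
  refine ⟨t, ht', hR, hZ, kp, k1, ?_⟩
  have k3 : ∀ q, (C q).XT p C1 aK K ch w (kp q) (D ∘ kap d r t) + (C q).rem p +
      ‖(C q).A‖ₑ ^ p * (C q).unk (kp q) ≤
      ((∫⁻ y, ‖D (kap d r t y) - (C q).A‖ₑ ^ p ∂μ q) +
        c q * ∫⁻ y, ‖D (kap d r t y) - (C q).A‖ₑ ^ p ∂ν q) +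
        (C0 * ENNReal.ofReal C1 ^ 3 + 1) * (C q).rem p := by
    intro q
    have g1 := μ2 q (kp q) (fun u hu => (k1 q u hu).adm) (fun ⟨u, hu⟩ => (k1 q u hu).ne) _ hR.mD
    have g2 : ‖(C q).A‖ₑ ^ p * (C q).unk (kp q) ≤
        ‖(C q).A‖ₑ ^ p * ∫⁻ y, ‖D (kap d r t y) - (C q).A‖ₑ ^ p ∂ν q := by
      by_cases h0 : (C q).A = 0
      · have e : ‖(C q).A‖ₑ = 0 := by rw [← ofReal_norm, h0, norm_zero, ENNReal.ofReal_zero]
        rw [e, ENNReal.zero_rpow_of_pos hp, zero_mul, zero_mul]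
      · exact mul_le_mul_right (hp2 ▸ k2 q h0) _
    rw [mul_assoc (ENNReal.ofReal (C q).cf ^ 3)] at g1
    refine (add_le_add (add_le_add (g1.trans (add_le_add le_rfl (mul_le_mul_right
      (add_le_add le_rfl (mul_le_mul_right g2 _)) _))) le_rfl) g2).trans (le_of_eq ?_)
    rw [hc]
    simp only [comp_apply]
    ring
  refine (add_le_add (Finset.sum_le_sum fun q _ => k3 q)
    (MAv_out hp C1 D hF hd hr hη hK h2 ht')).trans ?_
  rw [Finset.sum_add_distrib, ← Finset.mul_sum, add_right_comm]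
  refine (add_le_add hΨ le_rfl).trans (le_of_eq ?_)
  simp only [hc]
  ring

end BEp
end
end

-- merged part: Pool.Agent.Work.MP_f0515e_an.P2.QMoi
section
/-! Uniform approximation. `sc` from `scl_low` on `f '' Ω` (`open_img`) below `ε / 10 ^ 13`; a function `e` with `MP e` and `e (d z) ≤ sc (f (kap z))` (infimum of `sc ∘ f` on the compact sets `a ≤ d`, see `exists_theta`, `LKap`); `exists_tol_kap`, `mp_cont`, `exists_kx`;
`r` with `S ⊆ {2 r ≤ d}`, `η` small; for almost all `t` the functions `v` and `indicator Ω ‖D‖` are integrable on the images under `kap` of the countably many edges (`Reg_par`), so `f ∘ kap` has finite variation on them (`Reg_gs`);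
`top_anX` without boxes (`ι = Empty`, `Ec = ∅`, `be_exists`), convex hull clause for the three cells; `g x = G (x - t)` on `S` (`kap_core`). If `p > 1`, local integrability of `‖D‖` follows from `‖D‖ ≤ 1 + ‖D‖ ^ p`. -/

open Set Metric Filter Topology Function BEv MeasureTheory
open scoped NNReal ENNReal

noncomputable section
namespace BEp

theorem QMoi_bv {Ω : Set (Rn 3)} {d : Rn 3 → ℝ} (hd : Lev Ω d) {f : Rn 3 → Rn 3}
    {D : Rn 3 → Rn 3 →L[ℝ] Rn 3} {v : Rn 3 → ℝ≥0∞} (hD : Measurable D) (hv : Measurable v)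
    (h1 : ∫⁻ x, v x ≠ ⊤) {p : ℝ} (hp : 1 ≤ p) (h2 : ∫⁻ x in Ω, ‖D x‖ₑ ^ p ≠ ⊤) (hU : UG Ω f D v)
    {r η : ℝ} (hr : 0 < r) (h0 : 0 < η) (hη : 1024 * η ≤ r) (K : Kx Ω) :
    ∃ t, ‖t‖ ≤ η ∧ ∀ a b, K.Edge a b → vr (f ∘ kap d r t) a b ≠ ⊤ := by
  have hΩ := hd.isOpen
  obtain ⟨Φ, hΦ⟩ : ∃ Φ : Rn 3 → ℝ≥0∞, Φ = fun x => v x + Ω.indicator (fun x => ‖D x‖ₑ ^ p) x :=
    ⟨_, rfl⟩
  have mΦ : Measurable Φ := hΦ ▸ hv.add ((hD.enorm.pow_const p).indicator hΩ.measurableSet)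
  have iΦ : ∫⁻ x, Φ x ≠ ⊤ := by
    rw [hΦ, lintegral_add_left hv, lintegral_indicator hΩ.measurableSet]
    exact ENNReal.add_ne_top.2 ⟨h1, h2⟩
  have sb : ∀ a b, K.Edge a b → segment ℝ a b ⊆ Ω := fun a b h x hx => (h.seg_sub hx).1
  have sg : ∀ a b : Rn 3, ∀ s ∈ Icc (0 : ℝ) 1, seg a b s ∈ segment ℝ a b := fun a b s hs =>
    seg_image a b ▸ ⟨s, hs, rfl⟩
  have a1 := (ae_ball_iff (Kx.countable_edge K hΩ)).2 fun e he =>
    Reg_par hd hr hη mΦ iΦ (m := volume.restrict (Icc (0 : ℝ) 1)) (by simp)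
      (tp_seg e.1 e.2).continuous.measurable (seg_image e.1 e.2 ▸ isCompact_Icc.image (tp_seg e.1 e.2).continuous)
      (sb _ _ he)
      ((ae_restrict_mem measurableSet_Icc).mono (sg _ _))
  have : NeZero (volume (closedBall (0 : Rn 3) η)) := ⟨(measure_closedBall_pos _ _ h0).ne'⟩
  obtain ⟨t, t1, t2⟩ := ((ae_restrict_mem measurableSet_closedBall).and a1).exists
  rw [mem_closedBall_zero_iff] at t1
  refine ⟨t, t1, fun a b h => ?_⟩
  have k := t2 (a, b) h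
  have gs := Reg_gs hd hr hη hU t1 a b (sb a b h)
    (ne_top_of_le_ne_top k (lintegral_mono fun s => hΦ ▸ le_self_add))
  refine ne_top_of_le_ne_top (ENNReal.mul_ne_top enorm_ne_top ?_)
    (NLn_var fun s s' u0 u1 u2 => (edist_eq_enorm_sub _ _).trans_le (gs s s' u0 u1 u2))
  rw [lintegral_const_mul' _ _ (by simp)]
  refine ENNReal.mul_ne_top (by simp) (ne_top_of_le_ne_top (b := ∫⁻ s in Icc (0 : ℝ) 1,
    (1 + Φ (kap d r t (seg a b s)))) ?_ (setLIntegral_mono' measurableSet_Icc fun s hs => ?_))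
  · rw [lintegral_add_left measurable_const]
    exact ENNReal.add_ne_top.2 ⟨by simp, k⟩
  · rw [hΦ]
    beta_reduce
    rw [indicator_of_mem ((kap_llh hd hr hη t1).1.mapsTo (sb a b h (sg a b s hs))), comp_apply]
    rcases le_total ‖D (kap d r t (seg a b s))‖ₑ 1 with c | c
    · exact c.trans le_self_add
    · exact (ENNReal.le_rpow_self_of_one_le c hp).trans (le_add_self.trans le_add_self)

theorem QMoi_e {Ω : Set (Rn 3)} {d : Rn 3 → ℝ} (hd : Lev Ω d) {φ : Rn 3 → ℝ}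
    (hφ : ContinuousOn φ Ω) (h0 : ∀ x ∈ Ω, 0 < φ x) : ∃ e, MP e ∧ ∀ (r η : ℝ) (t : Rn 3), 0 < r →
      1024 * η ≤ r → ‖t‖ ≤ η → ∀ z ∈ Ω, e (d z) ≤ φ (kap d r t z) := by
  have sb : ∀ a : ℝ, 0 < a → {x | a ≤ d x} ⊆ Ω := fun a ha x hx => (hd.pos x).1 (ha.trans_le hx)
  choose c c0 hc using fun k : ℕ => (hd.cpt (1 / ((k : ℝ) + 1) / 2) (by positivity)).exists_forall_le'
    (a := 0) (hφ.mono (sb _ (by positivity))) fun x hx => h0 x (sb _ (by positivity) hx)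
  obtain ⟨e, e1, e2⟩ := lle_mp c0
  refine ⟨e, e1, fun r η t hr hη ht z hz => ?_⟩
  have z0 := (hd.pos z).2 hz
  obtain ⟨k, k1, k2⟩ := e2 _ z0
  refine k2.trans (hc k _ ?_)
  have a1 := kap_mv hd hr ht z
  have a2 : η * aa d r z ≤ r / 1024 * (2 * d z / r) :=
    mul_le_mul (by linarith only [hη]) (aa_le d r z) (aa_nonneg hd hr z) (by positivity)
  have a3 : r / 1024 * (2 * d z / r) = d z / 512 := by field_simp; ring
  have a4 := hd.lip (kap d r t z) z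
  show 1 / ((k : ℝ) + 1) / 2 ≤ d (kap d r t z)
  linarith only [z0, k1, a1, a2, a3, a4, neg_abs_le (d (kap d r t z) - d z)]

theorem moise {Ω : Set (Rn 3)} {d : Rn 3 → ℝ} (hd : Lev Ω d) {f : Rn 3 → Rn 3}
    {D : Rn 3 → Rn 3 →L[ℝ] Rn 3} {v : Rn 3 → ℝ≥0∞} (hf : ContinuousOn f Ω) (hi : InjOn f Ω)
    (hD : Measurable D) (hv : Measurable v) (h1 : ∫⁻ x, v x ≠ ⊤) {p : ℝ} (hp : 1 ≤ p)
    (h2 : ∫⁻ x in Ω, ‖D x‖ₑ ^ p ≠ ⊤) (hU : UG Ω f D v) {S : Set (Rn 3)} (hS : IsCompact S)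
    (hs : S ⊆ Ω) : Moi f S := by
  intro ε hε
  have hΩ := hd.isOpen
  obtain ⟨sc, s1, s2, -⟩ := scl_low (L := 10 ^ 12) (θ := fun _ => ε / 10 ^ 13)
    (GEmb_open hf hi hΩ subset_rfl) (fun _ _ => ⟨_, by positivity, .of_forall fun _ => le_rfl⟩)
    (by norm_num)
  have sC := s1.cont (by norm_num)
  obtain ⟨e, e1, e2⟩ := QMoi_e hd (φ := fun x => sc (f x)) (sC.comp_continuousOn hf)
    fun x hx => s1.pos _ (mem_image_of_mem f hx)
  obtain ⟨σ, σ1, σ2⟩ := exists_tol_kap hd hf e1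
  obtain ⟨K, hK⟩ := exists_kx' hd σ1
  obtain ⟨r, hr, hrS⟩ := hd.low hS hs
  have hη : 1024 * (r / 1024) ≤ r := by linarith only []
  obtain ⟨t, ht, bv⟩ := QMoi_bv hd hD hv h1 hp h2 hU hr (by positivity) hη K
  have hB := (kap_llh hd hr hη ht).1
  have cκ : Continuous (kap d r t) := (continuous_kap hd r).comp (.prodMk_right t)
  obtain ⟨F, hF⟩ : ∃ F, F = f ∘ kap d r t := ⟨_, rfl⟩
  have im : F '' Ω = f '' Ω := by rw [hF, image_comp, hB.image_eq]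
  have cF : ContinuousOn F Ω := hF ▸ hf.comp cκ.continuousOn hB.mapsTo
  have sm : ∀ x ∈ Ω, sc (F x) ≤ ε / 10 ^ 13 := fun x hx => s2 _ (im ▸ mem_image_of_mem F hx)
  have os : ∀ x ∈ Ω, ∀ y ∈ closure (K.cell x), ‖F y - F x‖ ≤ sc (F x) := fun x hx y hy => by
    have a := mem_ball_iff_norm.1 (hK x hx hy)
    have b := σ1.2 _ ((hd.pos x).2 hx)
    rw [hF]
    exact (σ2 r _ t hr hη ht x hx y (by linarith only [a, b])).trans (e2 r _ t hr hη ht x hx)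
  have hθ : ∀ τ : Set (Rn 3), ∃ c, 0 < c ∧ ∀ x ∈ Ω, K.cell x = τ → c ≤ sc (F x) := fun τ => by
    by_cases k : ∃ x ∈ Ω, K.cell x = τ
    · obtain ⟨x, hx, rfl⟩ := k
      obtain ⟨c, c0, hc⟩ := (K.poly x hx).1.exists_forall_le' (a := 0) (f := fun y => sc (F y))
        (sC.comp_continuousOn (cF.mono (K.sub x hx)))
        fun y hy => s1.pos _ (im ▸ mem_image_of_mem F (K.sub x hx hy))
      exact ⟨c, c0, fun y hy k => hc y (subset_closure (k ▸ K.mem y hy))⟩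
    · exact ⟨1, one_pos, fun x hx k' => (k ⟨x, hx, k'⟩).elim⟩
  choose θ θ0 hθ using hθ
  obtain ⟨be, hbe, -⟩ := be_exists K
  obtain ⟨G, g1, -, g2, g3⟩ := top_anX (K := K) (f := F) (D := fun _ => 0) (p := 1) (Ec := ∅)
    (ν := 0) (ι := Empty) (Bx := Empty.elim) (s := 1) (ε := Empty.elim) (ε' := Empty.elim) (e := 1)
    le_rfl ⟨hΩ, cF, hF ▸ hi.comp hB.injOn hB.mapsTo, measurable_const, hF ▸ bv, finite_empty,
      empty_subset _, fun _ _ _ k => k.elim, fun _ _ _ _ _ => rfl, by simp, by simp⟩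
    (by constructor <;> first | exact one_pos | exact fun i => i.elim) (fun _ k => k.elim) θ0 hbe
    one_ne_zero (im ▸ s1) (fun x hx => os x hx.1) (fun x hx => hθ _ x hx.1 rfl) fun i => i.elim
  have g4 : ∀ x ∈ K.sk 2, ‖G x - F x‖ ≤ ε / 2 := fun x hx => by
    linarith only [hε, g2, hx, sm, g2 x hx, sm x hx.1]
  have g5 : ∀ x ∈ Ω, ‖G x - F x‖ ≤ ε := fun x hx => by
    by_cases k : x ∈ K.sk 2
    · linarith only [hε, g4, k, g4 x k]
    have c3 : dm (K.cell x) = 3 := by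
      have := dm_le (K.cell x)
      have : ¬ dm (K.cell x) ≤ 2 := fun k' => k ⟨hx, k'⟩
      omega
    refine mem_closedBall_iff_norm.1 (g3 _ ⟨⟨x, hx, rfl⟩, c3⟩ _ (convex_closedBall _ _) ?_
      (mem_image_of_mem G (subset_closure (K.mem x hx))))
    rintro _ ⟨y, hy, rfl⟩
    have a := g4 y (rb_sk ⟨x, hx, rfl⟩ c3.le hy)
    have b := norm_sub_le_norm_sub_add_norm_sub (G y) (F y) (F x)
    rw [mem_closedBall_iff_norm]
    linarith only [hε, a, b, os, hx, hy, sm, os x hx y hy.1, sm x hx]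
  have dl : ∀ x ∈ S, r / 2 ≤ d (x - t) := fun x hx => by
    have := hd.lip (x - t) x
    rw [sub_sub_cancel_left, norm_neg] at this
    linarith only [hr, ht, this, hrS, hx, hrS x hx, neg_abs_le (d (x - t) - d x)]
  have mm : ∀ x ∈ S, x - t ∈ Ω := fun x hx => (hd.pos _).1 ((half_pos hr).trans_le (dl x hx))
  obtain ⟨g, hg, eg⟩ := g1.ltp _ (hS.image (continuous_sub_right t)) (image_subset_iff.2 mm)
  refine ⟨fun x => g (x - t), hg.comp (TP.id'.sub (.const t)), fun x hx y hy k => ?_,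
    fun x hx => ?_⟩
  · beta_reduce at k
    rw [← eg (mem_image_of_mem _ hx), ← eg (mem_image_of_mem _ hy)] at k
    exact sub_left_injective (g1.inj (mm x hx) (mm y hy) k)
  · have := g5 _ (mm x hx)
    rwa [hF, comp_apply, kap_core hr (dl x hx), sub_add_cancel, eg (mem_image_of_mem _ hx)] at this

theorem Moi.shift {f f' : Rn 3 → Rn 3} {S S' : Set (Rn 3)} (h : Moi f S') {t : Rn 3}
    (hs : ∀ x ∈ S, x + t ∈ S') (e : ∀ x ∈ S, f' x = f (x + t)) : Moi f' S := by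
  intro ε hε
  obtain ⟨g, h1, h2, h3⟩ := h ε hε
  exact ⟨fun x => g (x + t), h1.comp (TP.id'.add (.const t)),
    fun x hx y hy k => add_left_injective t (h2 (hs x hx) (hs y hy) k),
    fun x hx => e x hx ▸ h3 _ (hs x hx)⟩

end BEp
end
end
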