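import Pool.Agent.Work.MP_f0515e_an.P2.QOwn
import Pool.Agent.Work.MP_f0515e_an.P2.QSide
import Pool.Agent.Work.MP_f0515e_an.P3.Sel2
import Pool.Agent.Work.MP_f0515e_an.P2.QLoop
import Pool.Agent.Work.MP_f0515e_an.P3.Vit

-- merged part: Pool.Agent.Work.MP_f0515e_an.P2.QInt1
section
/-! An intruder lies in the set where the maximal function along a line is large. `x = pl n (c n) ξ`, `d = ‖x - c‖ > R1`, `x0 ∈ Q u R0` with `‖f x - aff0 x0‖ ≤ 0.19 m`: `‖f x - aff0 x‖ ≥ σ (d - R0) - 0.19 m ≥ 0.23 σ (d - R0)` (`aff_low`, `Nm.r0`).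
`y = pl n (c n) (update ξ a (pq n c a))` lies on a ray through `c`: `‖f y - aff0 y‖ ≤ τ / t0 * max t0 d ≤ σ (d - R0) / 10` (`mx_ray`; cases `d ≤ t0`, `t0 ≤ d`). So the integral of `‖D - A‖` on the segment from `y` to `x` (length `d`) is at least
`0.13 σ (d - R0) > ci * d` (`t0 = 2 * 2 ^ a * s`, `κ ≤ 2 ^ a / 8`); `ln_g`, `ln_cs` by contradiction. -/

open Set Metric Filter Topology Function BEv MeasureTheory
open scoped NNReal ENNReal

noncomputable section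
namespace BEp

variable {C : Cu} {aK : ℝ} {Ω : Set (Rn 3)} {K : Kx Ω} {ch : Set (Rn 3) → Ch} {w : Set (Rn 3) → ℝ}
  {f : Rn 3 → Rn 3} {D : Rn 3 → Rn 3 →L[ℝ] Rn 3} {v : Rn 3 → ℝ≥0∞} {u u' : I3 × I3}

def Ty.ci (T : Ty) : ℝ := T.σ * T.κ / (100 * 2 ^ T.a)

theorem QInt1_num {σ m t0 τ c d R k : ℝ} (σ0 : 0 < σ) (t1 : 0 < t0) (k0 : 0 < k) (d0 : 0 < d)
    (hc : 50 * (c * t0) = m) (hτ : 10 ^ 6 * τ ≤ m) (hm : σ * k = m) (hk : 8 * k ≤ t0)
    (hR : R + 99 / 400 * k < d) (hR' : R ≤ t0 / 2) :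
    c * d + τ / t0 * max t0 d + 19 / 100 * m < σ * (d - R) := by
  have m0 : 0 < m := hm ▸ mul_pos σ0 k0
  have c0 : 0 < c := (mul_pos_iff_of_pos_right t1).1 (by linarith)
  have a1 := mul_lt_mul_of_pos_left hR σ0
  have a2 : τ / t0 * t0 = τ := div_mul_cancel₀ _ t1.ne'
  rcases le_total d t0 with e | e
  · rw [max_eq_left e, a2]
    linarith [mul_le_mul_of_nonneg_left e c0.le]
  · have a3 : τ / t0 ≤ c := le_of_mul_le_mul_right (by linarith) t1
    have a4 : 400 * c ≤ σ :=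
      le_of_mul_le_mul_right (by linarith [mul_le_mul_of_nonneg_left hk σ0.le]) t1
    rw [max_eq_right e]
    linarith [mul_le_mul_of_nonneg_right a3 d0.le, mul_le_mul_of_nonneg_right a4 d0.le,
      mul_le_mul_of_nonneg_left hR' σ0.le, mul_le_mul_of_nonneg_left e σ0.le, mul_pos σ0 d0]

theorem QInt1_nrm (n : Fin 3) (c : Rn 3) (ζ : Rn 2) : ‖pl n (c n) ζ - c‖ = ‖ζ - pq n c‖ := by
  have := pl_norm n (c n) (c n) ζ (pq n c)
  rwa [pl_pq, sub_self, abs_zero, max_eq_right (norm_nonneg _)] at this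

theorem QInt1_off {n : Fin 3} (hn : ∀ i, i ∈ C.I ↔ i ≠ n) (ζ : Rn 2) (i : Fin 3) (hi : i ∉ C.I) :
    pl n (C.ctr u n) ζ i = C.ctr u i := by
  obtain rfl : i = n := not_not.1 fun e => hi ((hn i).2 e)
  exact pl_n _ _ _

theorem QInt1_ray (n : Fin 3) (c : Rn 3) (ξ : Rn 2) (a : Fin 2) : ∃ b : Fin 2,
    pl n (c n) (update ξ a (pq n c a)) =
      c + (ξ b - pq n c b) • (Pi.single (n.succAbove b) 1 : Rn 3) := by
  obtain ⟨b, hb⟩ := exists_ne a
  refine ⟨b, QBas_ext n ?_ fun i => ?_⟩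
  · rw [pl_n, Pi.add_apply, Pi.smul_apply, Pi.single_eq_of_ne (n.succAbove_ne b).symm, smul_zero,
      add_zero]
  · rw [pl_a, Pi.add_apply, Pi.smul_apply]
    by_cases e : i = b
    · rw [e, update_of_ne hb, Pi.single_eq_same, smul_eq_mul, mul_one]
      exact (add_sub_cancel _ _).symm
    · obtain rfl : i = a := by omega
      rw [update_self, Pi.single_eq_of_ne (fun k => e (Fin.succAbove_right_inj.1 k)), smul_zero,
        add_zero]
      rfl

theorem int_geo (h : C.Ok aK) (hu : u ∈ C.Adm) (hA : C.A ≠ 0) (hD : Measurable D)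
    (hU : USeg C.q f D v) (hm : C.Mx D v u) {n : Fin 3} (hn : ∀ i, i ∈ C.I ↔ i ≠ n) {ξ : Rn 2}
    (h1 : ξ ∈ closedBall (pq n (C.ctr u)) C.ρ') (h2 : pl n (C.ctr u n) ξ ∉ C.Q u C.R1)
    (h3 : f (pl n (C.ctr u n) ξ) ∈ C.Nb f u C.R0 (19 / 100 * C.m)) {a : Fin 2}
    (ha : ‖ξ - pq n (C.ctr u)‖ = |ξ a - pq n (C.ctr u) a|)
    (hv : ∫⁻ t in Icc (ξ a - C.ρ') (ξ a + C.ρ'), v (pl n (C.ctr u n) (update ξ a t)) ≠ ⊤) :
    ∃ d, 0 < d ∧ d ≤ C.ρ' ∧ ENNReal.ofReal (C.ci ^ 2) * ENNReal.ofReal d ≤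
      ∫⁻ t in Icc (ξ a - d) (ξ a + d), ‖D (pl n (C.ctr u n) (update ξ a t)) - C.A‖ₑ ^ 2 := by
  have N := h.nm
  have k0 : 0 < C.κ * C.s := mul_pos h.pos.2.2.2.2.2.2.1 N.s0
  have c0 : 0 < C.ci := div_pos (mul_pos N.σ0.1 h.pos.2.2.2.2.2.2.1) (by positivity)
  obtain ⟨r0, r1⟩ := QSk_R1 h
  set p := pq n (C.ctr u) with hp
  set d := ‖ξ - p‖ with hd
  have d1 : d ≤ C.ρ' := mem_closedBall_iff_norm.1 h1
  have d2 : C.R1 < d := not_le.1 fun k => h2
    ((Cu.mem_Q r0.le).2 ⟨QInt1_off hn ξ, (QInt1_nrm n _ ξ).trans_le k⟩)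
  have d0 : 0 < d := r0.trans d2
  have d3 : d ≤ C.Rm := by
    unfold Cu.Rm
    linarith [N.t0]
  refine ⟨d, d0, d1, not_lt.1 fun hlt => ?_⟩
  rw [← ENNReal.ofReal_mul (sq_nonneg _)] at hlt
  simp only [pl_upd] at hlt hv
  set x := pl n (C.ctr u n) ξ with hx
  set j := n.succAbove a with hj
  have key : ∀ s s', s ≤ s' → s' - s ≤ d → ξ a - d ≤ s → s' ≤ ξ a + d → p a - d ≤ s →
      s' ≤ p a + d →
      ‖f (update x j s') - f (update x j s) - C.A (update x j s' - update x j s)‖ ≤ C.ci * d := by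
    intro s s' a1 a2 a3 a4 a5 a6
    have b1 := ln_g hU C.A (x := x) (i := j) a1 (fun t ht => by
      refine ball_subset_closedBall ((sk_Rm h hu).2 ?_)
      rw [hx, hj, ← pl_upd]
      refine (Cu.mem_Q (d0.le.trans d3)).2 ⟨QInt1_off hn _, (QInt1_nrm n _ _).trans_le
        (le_trans ((pi_norm_le_iff_of_nonneg d0.le).2 fun i => ?_) d3)⟩
      by_cases e : i = a
      · rw [e, Pi.sub_apply, update_self]
        exact abs_le.2 ⟨by linarith [ht.1], by linarith [ht.2]⟩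
      · rw [Pi.sub_apply, update_of_ne e]
        exact norm_le_pi_norm (ξ - p) i)
      (ne_top_of_le_ne_top hv (lintegral_mono_set (Icc_subset_Icc (by linarith) (by linarith))))
    have b2 := ln_cs (φ := fun t => ‖D (update x j t) - C.A‖ₑ)
      ((hD.comp (measurable_update x)).sub_const _).enorm c0 d0.le a2
      ((lintegral_mono_set (Icc_subset_Icc a3 a4)).trans hlt.le)
    have b3 := b1.trans b2
    rwa [← ofReal_norm, ENNReal.ofReal_le_ofReal_iff (mul_pos c0 d0).le] at b3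
  have e1 : update x j (ξ a) = x := by rw [hx, hj, ← pl_upd, update_eq_self]
  have k1 : ‖f x - f (update x j (p a)) - C.A (x - update x j (p a))‖ ≤ C.ci * d := by
    rcases abs_cases (ξ a - p a) with ⟨e, -⟩ | ⟨e, -⟩
    · have := key (p a) (ξ a) (by linarith) (by linarith) (by linarith) (by linarith) (by linarith)
        (by linarith)
      rwa [e1] at this
    · have := key (ξ a) (p a) (by linarith) (by linarith) (by linarith) (by linarith) (by linarith)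
        (by linarith)
      rw [e1, ← norm_neg, map_sub] at this
      rw [map_sub]
      exact le_of_eq_of_le (congrArg _ (by abel)) this
  obtain ⟨b, hb⟩ := QInt1_ray n (C.ctr u) ξ a
  have b1 : |ξ b - p b| ≤ d := norm_le_pi_norm (ξ - p) b
  have k2 := mx_ray h hu hD hU hm ((hn _).2 (n.succAbove_ne b)) (b1.trans d3)
  rw [← hb, pl_upd] at k2
  have k3 := k2.trans (mul_le_mul_of_nonneg_left (max_le_max_left C.t0 b1)
    (div_pos N.τ0 N.t0).le)
  obtain ⟨x0, q0, k4⟩ := mem_Nb.1 h3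
  have q1 := (Cu.mem_Q (by linarith [N.r2, N.t0])).1 q0
  have k5 := aff_low (f := f) (u := u) h hA (x := x) (y := x0)
    fun i hi => (QInt1_off hn ξ i hi).trans (q1.1 i hi).symm
  have k6 : d - C.R0 ≤ ‖x - x0‖ := by
    have := norm_sub_le_norm_sub_add_norm_sub x x0 (C.ctr u)
    rw [hx, QInt1_nrm] at this
    linarith [q1.2]
  have k7 : C.aff0 f u x - C.aff0 f u x0 = (f x - C.aff0 f u x0) -
      (f x - f (update x j (p a)) - C.A (x - update x j (p a))) -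
      (f (update x j (p a)) - C.aff0 f u (update x j (p a))) := by
    simp only [Cu.aff0, map_sub]
    abel
  have k8 := (norm_sub_le _ _).trans (add_le_add ((norm_sub_le _ _).trans (add_le_add k4 k1)) k3)
  rw [← k7] at k8
  have k9 := QInt1_num (c := C.ci) (R := C.R0) N.σ0.1 N.t0 k0 d0 (by
      rw [N.et, Ty.ci, Cu.m]
      field_simp
      ring) N.τm N.em
    (by linarith [h.num.2.2.2.2.2.2.2.2.2.2.2.2.1, mul_le_mul_of_nonneg_right h.g0.2 N.t0.le])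
    (by linarith [N.r0]) (by linarith [N.r0, N.r1])
  linarith [mul_le_mul_of_nonneg_left k6 N.σ0.1.le]

end BEp
end
end

-- merged part: Pool.Agent.Work.MP_f0515e_an.P2.QMg
section
/-! The generic selection. `π u = (u.1, fun l => if l ∈ range J then 0 else u.2 l)`; the point `extend J ξ (ctr u + ω)` depends only on `π u`. For `p` in the finite set `π '' Adm` take the image under this chart of the volume on the box
`pi fun k => Icc (X z (J k)) (X z (J k) + h)` (`z = p.1`; the image lies in `icl z`, `mem_icl`; the balls of radius `Rm` lie in the box by `Adm`). `ν = c • ∑ p`, `c = 10 ^ card κ / δ ^ 2 * t0 ^ (card I - card κ) * (b h) ^ (3 - card I)`.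
Each `z` carries at most `(h / t0) ^ (card I - card κ)` elements `p` (`Ok.mult`, `0 ≤ u.2 l < h / t0`); `box_cnt` (see `Sel1_cnt`, `Sel2_vol`). `vit_count` on each flat for the indicator of the box times `‖D - A‖ₑ ^ 2`, `Sel2_enc`. -/

open Set Metric Filter Topology Function BEv MeasureTheory
open scoped NNReal ENNReal

noncomputable section
namespace BEp

/-- Maximal condition on the flat through `x` in the directions `J`. -/
def Cu.MG (C : Cu) {κ : Type} [Fintype κ] (J : κ → Fin 3) (D : Rn 3 → Rn 3 →L[ℝ] Rn 3)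
    (v : Rn 3 → ℝ≥0∞) (δ : ℝ) (x : Rn 3) : Prop :=
  ∫⁻ ξ in closedBall (x ∘ J) C.Rm, v (extend J ξ x) ≠ ⊤ ∧ ∀ R ∈ Icc (C.t0 / 2) C.Rm,
    ∫⁻ ξ in closedBall (x ∘ J) R, ‖D (extend J ξ x) - C.A‖ₑ ^ 2 ≤
      ENNReal.ofReal (δ ^ 2 * (2 * R) ^ Fintype.card κ)

variable {C : Cu} {aK : ℝ}

theorem box_cnt (h : C.Ok aK) (Z : Finset I3) (hZ : ∀ z ∈ Z, C.icl z ⊆ C.O) :
    (Z.card : ℝ≥0∞) * ENNReal.ofReal (C.b ^ (3 - C.I.card) * C.h ^ 3) ≤
      8 * ENNReal.ofReal (C.η ^ 3) := by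
  have h1 : ∀ z : I3, volume (C.X '' cu z) = ENNReal.ofReal (C.b ^ (3 - C.I.card) * C.h ^ 3) :=
    fun z => by
      have := h.lintX (cu z) fun _ => 1
      have e : cu z = univ.pi fun i => Ioo (z i : ℝ) (z i + 1) := by
        ext ξ
        simp [cu]
      rw [setLIntegral_one, setLIntegral_one, e, Real.volume_pi_Ioo] at this
      rw [e, this]
      simp
  have h2 := measure_biUnion_finset (μ := volume) (s := Z) (f := fun z => C.X '' cu z)
    (fun z _ z' _ hn => by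
      refine disjoint_left.2 ?_
      rintro _ ⟨ξ, k1, rfl⟩ ⟨ξ', k2, k3⟩
      obtain rfl : ξ' = ξ := by rw [← h.Xξ.2.1 ξ', k3, h.Xξ.2.1]
      refine hn (funext fun i => ?_)
      have a3 : z i < z' i + 1 := by exact_mod_cast (k1 i).1.trans (k2 i).2
      have a4 : z' i < z i + 1 := by exact_mod_cast (k2 i).1.trans (k1 i).2
      omega)
    fun z _ => (h.bx_prop z).2.2.1 ▸ isOpen_interior.measurableSet
  simp only [h1, Finset.sum_const, nsmul_eq_mul] at h2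
  rw [← h2]
  have h3 : (⋃ z ∈ Z, C.X '' cu z) ⊆ ball C.o C.η := iUnion₂_subset fun z hz => by
    have k1 : C.X (fun i => z i) ∈ C.icl z :=
      h.mem_icl.2 ⟨fun _ _ => rfl, fun _ _ => ⟨le_rfl, by linarith [h.pos.2.1]⟩⟩
    rw [← (h.bx_prop z).2.2.1]
    exact interior_subset.trans ((hZ z hz k1 z k1.1).trans
      (ball_subset_ball (by linarith [h.pos.2.1])))
  refine (measure_mono h3).trans (le_of_eq ?_)
  rw [Real.volume_pi_ball _ h.pos.1, Fintype.card_fin, mul_pow,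
    ENNReal.ofReal_mul (by norm_num)]
  norm_num

theorem QMg_lip {κ : Type} [Fintype κ] {J : κ → Fin 3} (hJ : Injective J) (x : Rn 3)
    (ξ ξ' : κ → ℝ) : ‖(extend J ξ x : Rn 3) - extend J ξ' x‖ ≤ ‖ξ - ξ'‖ := by
  refine (pi_norm_le_iff_of_nonneg (norm_nonneg _)).2 fun l => ?_
  by_cases k : ∃ k, J k = l
  · obtain ⟨k, rfl⟩ := k
    rw [Pi.sub_apply, hJ.extend_apply, hJ.extend_apply]
    exact norm_le_pi_norm (ξ - ξ') k
  · rw [Pi.sub_apply, extend_apply' _ _ _ k, extend_apply' _ _ _ k, sub_self, norm_zero]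
    exact norm_nonneg _

theorem QMg_meas {α κ : Type} [Fintype κ] (F : Finset α) (φ : α → (κ → ℝ) → Rn 3)
    (hφ : ∀ p, Measurable (φ p)) (S : α → Set (κ → ℝ)) (c : ℝ≥0∞) : ∃ ν : Measure (Rn 3),
      ∀ ψ : Rn 3 → ℝ≥0∞, Measurable ψ → ∫⁻ y, ψ y ∂ν = c * ∑ p ∈ F, ∫⁻ ξ in S p, ψ (φ p ξ) := by
  refine ⟨c • ∑ p ∈ F, (volume.restrict (S p)).map (φ p), fun ψ hψ => ?_⟩
  simp only [lintegral_smul_measure, lintegral_finsetSum_measure, lintegral_map hψ (hφ _),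
    smul_eq_mul]

theorem selq_gen (h : C.Ok aK) {κ : Type} [Fintype κ] {J : κ → Fin 3} (hJ : Injective J)
    (hI : ∀ k, J k ∈ C.I) {ω : Rn 3} (h0 : ∀ k, ω (J k) = 0) (h1 : ∀ l, l ∉ C.I → ω l = 0)
    (h2 : ‖ω‖ ≤ C.t0 / 2) {δ : ℝ} (hδ : 0 < δ) :
    C.SelQ (ENNReal.ofReal (10 ^ 4 / δ ^ 2)) fun _ D v u => C.MG J D v δ (C.ctr u + ω) := by
  classical
  obtain ⟨-, hh, -, ht, -, hρ, -, -, hb, -⟩ := h.pos
  obtain ⟨-, ⟨N, hN⟩, -⟩ := h.mult
  obtain ⟨I', hI'⟩ : ∃ I', I' = C.I \ Finset.univ.image J := ⟨_, rfl⟩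
  have em : C.I.card = I'.card + Fintype.card κ := by
    rw [hI', ← Finset.card_univ, ← Finset.card_image_of_injective _ hJ,
      Finset.card_sdiff_add_card_eq_card (Finset.image_subset_iff.2 fun k _ => hI k)]
  have d3 : C.I.card ≤ 3 := (Finset.card_le_univ _).trans_eq (Fintype.card_fin 3)
  let π : I3 × I3 → I3 × I3 := fun u => (u.1, fun l => if ∃ k, J k = l then 0 else u.2 l)
  let S : I3 → Set (κ → ℝ) := fun z =>
    Icc (fun k => C.X (fun i => z i) (J k)) fun k => C.X (fun i => z i) (J k) + C.h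
  have e1 : ∀ u ξ, extend J ξ (C.ctr u + ω) = extend J ξ (C.ctr (π u) + ω) := fun u ξ => by
    funext l
    by_cases k : ∃ k, J k = l
    · obtain ⟨k, rfl⟩ := k
      rw [hJ.extend_apply, hJ.extend_apply]
    · rw [extend_apply' _ _ _ k, extend_apply' _ _ _ k]
      simp only [π, Cu.ctr, Pi.add_apply, GGeo_prL, if_neg k]
  have e2 : ∀ u ∈ C.Adm, closedBall ((C.ctr u + ω) ∘ J) C.Rm ⊆ S u.1 := fun u hu ξ hξ => by
    have a : ∀ k, |ξ k - (C.X (fun i => u.1 i) (J k) + (u.2 (J k) + 1 / 2) * C.t0)| ≤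
        C.t0 / 2 + 3 * C.ρ' := fun k => by
      have := (dist_le_pi_dist ξ _ k).trans hξ
      rwa [comp_apply, Pi.add_apply, h0, add_zero, Cu.GGeo_ctr_in (hI k)] at this
    exact ⟨fun k => by linarith [(abs_le.1 (a k)).1, (hu.2.2 _ (hI k)).1],
      fun k => by linarith [(abs_le.1 (a k)).2, (hu.2.2 _ (hI k)).2]⟩
  have e3 : ∀ u ∈ C.Adm, ∀ ξ ∈ S u.1, extend J ξ (C.ctr u + ω) ∈ C.q := fun u hu ξ hξ => by
    refine Sel2_Oq h (hu.1 (h.mem_icl.2 ⟨fun i hi => ?_, fun i hi => ?_⟩))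
    · rw [extend_apply' _ _ _ fun ⟨k, e⟩ => hi (e ▸ hI k), Pi.add_apply, h1 i hi, add_zero,
        Cu.GGeo_ctr_out hi]
    · by_cases k : ∃ k, J k = i
      · obtain ⟨k, rfl⟩ := k
        rw [hJ.extend_apply]
        exact ⟨hξ.1 k, hξ.2 k⟩
      · rw [extend_apply' _ _ _ k, Pi.add_apply, Cu.GGeo_ctr_in hi]
        have a := abs_le.1 ((norm_le_pi_norm ω i).trans h2)
        have b := hu.2.2 i hi
        constructor <;> linarith [a.1, a.2, b.1, b.2]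
  obtain ⟨Z, hZ⟩ : ∃ Z : Finset I3, ∀ z, z ∈ Z ↔ C.icl z ⊆ C.O :=
    ⟨h.O_prop.2.2.2.2.2.1.toFinset, fun z => by simp⟩
  obtain ⟨F, hF⟩ : ∃ F : Finset (I3 × I3), ∀ p, p ∈ F ↔ ∃ u ∈ C.Adm, π u = p :=
    ⟨h.adm_finite.toFinset.image π, fun z => by simp⟩
  have cF : F.card ≤ Z.card * N ^ I'.card := by
    have a : F ⊆ Z ×ˢ Fintype.piFinset fun l => if l ∈ I' then Finset.Ico (0 : ℤ) N else {0} :=
      fun p hp => by
        obtain ⟨u, hu, rfl⟩ := (hF p).1 hp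
        refine Finset.mem_product.2 ⟨(hZ _).2 hu.1, Fintype.mem_piFinset.2 fun l => ?_⟩
        by_cases k : ∃ k, J k = l
        · rw [if_neg (by simp [hI', k])]
          exact Finset.mem_singleton.2 (if_pos k)
        · by_cases hl : l ∈ C.I
          · have b := hu.2.2 l hl
            have b1 : (0 : ℝ) < u.2 l := (mul_pos_iff_of_pos_right ht).1 (by linarith [b.1])
            have b2 : (u.2 l : ℝ) < N := lt_of_mul_lt_mul_right (by linarith [b.2]) ht.le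
            rw [if_pos (by simpa [hI', hl] using k)]
            simp only [π, if_neg k, Finset.mem_Ico]
            exact ⟨by exact_mod_cast b1.le, by exact_mod_cast b2⟩
          · rw [if_neg (by simp [hI', hl])]
            exact Finset.mem_singleton.2 ((if_neg k).trans (hu.2.1 l hl))
    refine (Finset.card_le_card a).trans_eq ?_
    rw [Finset.card_product, Fintype.card_piFinset]
    simp [apply_ite Finset.card]
  obtain ⟨c, hc⟩ : ∃ c, c = C.t0 ^ I'.card * (C.b * C.h) ^ (3 - C.I.card) / δ ^ 2 := ⟨_, rfl⟩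
  have c0 : 0 < c := by rw [hc]; positivity
  obtain ⟨ν, hν⟩ := QMg_meas F (fun p ξ => extend J ξ (C.ctr p + ω))
    (fun p => (LipschitzWith.mk_one fun ξ ξ' => by
      simpa only [dist_eq_norm] using QMg_lip hJ _ ξ ξ').continuous.measurable)
    (fun p => S p.1) (ENNReal.ofReal c * 10 ^ Fintype.card κ)
  refine ⟨ν, ?_, ?_, fun f D v _ hD hv _ hi => ?_⟩
  · have m : MeasurableSet C.qᶜ := measurableSet_closedBall.compl
    rw [← lintegral_indicator_one m, hν _ (measurable_one.indicator m), Finset.sum_eq_zero,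
      mul_zero]
    intro p hp
    obtain ⟨u, hu, rfl⟩ := (hF p).1 hp
    exact setLIntegral_eq_zero measurableSet_Icc fun ξ hξ =>
      indicator_of_notMem (not_not.2 (e1 u ξ ▸ e3 u hu ξ hξ)) _
  · rw [← lintegral_one, hν _ measurable_const]
    simp only [S, setLIntegral_one, Real.volume_Icc_pi, add_sub_cancel_left, Finset.prod_const,
      Finset.sum_const, nsmul_eq_mul, Finset.card_univ]
    have a1 : (F.card : ℝ≥0∞) ≤ Z.card * ENNReal.ofReal (N ^ I'.card) := by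
      rw [ENNReal.ofReal_pow N.cast_nonneg, ENNReal.ofReal_natCast]
      exact_mod_cast cF
    have a2 : (10 : ℝ≥0∞) ^ Fintype.card κ ≤ 10 ^ 3 :=
      pow_le_pow_right₀ (by norm_num) (by omega)
    have a3 : ENNReal.ofReal c * ENNReal.ofReal (N ^ I'.card) * ENNReal.ofReal C.h ^ Fintype.card κ =
        ENNReal.ofReal (1 / δ ^ 2) * ENNReal.ofReal (C.b ^ (3 - C.I.card) * C.h ^ 3) := by
      rw [← ENNReal.ofReal_pow hh.le, ← ENNReal.ofReal_mul c0.le,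
        ← ENNReal.ofReal_mul (by positivity), ← ENNReal.ofReal_mul (by positivity), hc]
      congr 1
      have e : C.h ^ 3 = C.h ^ (3 - C.I.card) * (N * C.t0) ^ I'.card * C.h ^ Fintype.card κ := by
        rw [← hN, ← pow_add, ← pow_add]
        congr 1
        omega
      rw [e]
      ring
    calc _ ≤ ENNReal.ofReal c * 10 ^ 3 * (Z.card * ENNReal.ofReal (N ^ I'.card) *
          ENNReal.ofReal C.h ^ Fintype.card κ) := by gcongr
      _ = 10 ^ 3 * (Z.card * (ENNReal.ofReal c * ENNReal.ofReal (N ^ I'.card) *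
          ENNReal.ofReal C.h ^ Fintype.card κ)) := by ring
      _ = 10 ^ 3 * ENNReal.ofReal (1 / δ ^ 2) *
          (Z.card * ENNReal.ofReal (C.b ^ (3 - C.I.card) * C.h ^ 3)) := by rw [a3]; ring
      _ ≤ 10 ^ 3 * ENNReal.ofReal (1 / δ ^ 2) * (10 * ENNReal.ofReal (C.η ^ 3)) := by
          exact mul_le_mul_right ((box_cnt h Z fun z => (hZ z).1).trans (by gcongr; norm_num)) _
      _ = _ := by
          rw [div_eq_mul_one_div (10 ^ 4 : ℝ), ENNReal.ofReal_mul (by norm_num),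
            ENNReal.ofReal_pow (p := 10) (by norm_num), ENNReal.ofReal_ofNat]
          ring
  have mD : Measurable fun y => ‖D y - C.A‖ₑ ^ 2 := (hD.sub_const _).enorm.pow_const 2
  rw [hν v hv] at hi
  have i1 := ENNReal.sum_lt_top.1 (ENNReal.lt_top_of_mul_ne_top_right hi (mul_ne_zero
    (ENNReal.ofReal_pos.2 c0).ne' (by positivity)))
  obtain ⟨B, hB⟩ : ∃ B, B = C.Adm \ {u | C.MG J D v δ (C.ctr u + ω)} := ⟨_, rfl⟩
  have hB1 : ∀ u ∈ B, u ∈ C.Adm := fun u hu => (hB ▸ hu).1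
  have c1 : ENNReal.ofReal (δ ^ 2) * (B.encard : ℝ≥0∞) * ENNReal.ofReal (C.t0 ^ Fintype.card κ) ≤
      10 ^ Fintype.card κ * ∑ p ∈ F, ∫⁻ ξ in S p.1, ‖D (extend J ξ (C.ctr p + ω)) - C.A‖ₑ ^ 2 := by
    refine (mul_le_mul_left (mul_le_mul_right
      (Sel2_enc π F B fun u hu => (hF _).2 ⟨u, hB1 u hu, rfl⟩) _) _).trans ?_
    rw [Finset.mul_sum, Finset.sum_mul, Finset.mul_sum]
    refine Finset.sum_le_sum fun p hp => ?_
    rw [← lintegral_indicator measurableSet_Icc]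
    refine vit_count _ _ (fun u => (C.ctr u + ω) ∘ J) (ρ := C.Rm) ht (fun u hu u' hu' hn => ?_)
      fun u hu => ?_
    · have a := QMg_lip hJ (C.ctr p + ω) ((C.ctr u + ω) ∘ J) ((C.ctr u' + ω) ∘ J)
      have b : ∀ x : Rn 3, extend J (x ∘ J) x = x := fun x => funext fun l => by
        by_cases k : ∃ k, J k = l
        · obtain ⟨k, rfl⟩ := k
          exact hJ.extend_apply _ _ k
        · exact extend_apply' _ _ _ k
      nth_rewrite 1 [← hu.2] at a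
      rw [← hu'.2, ← e1, ← e1, b, b, add_sub_add_right_eq_sub] at a
      exact (h.tile_sep (hB1 u hu.1) (hB1 u' hu'.1) hn).1.trans a
    · obtain ⟨hu, rfl⟩ := hu
      have a := e2 u (hB1 u hu)
      have b : ¬ C.MG J D v δ (C.ctr u + ω) := (hB ▸ hu).2
      simp only [Cu.MG, not_and, not_forall, not_le] at b
      obtain ⟨R, k1, k2⟩ := b (by
        simp only [e1 u]
        exact ((lintegral_mono_set a).trans_lt (i1 (π u) hp)).ne)
      refine ⟨R, k1, ?_⟩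
      rw [← ENNReal.ofReal_mul (by positivity)]
      refine k2.le.trans_eq (setLIntegral_congr_fun measurableSet_closedBall fun ξ hξ => ?_)
      rw [indicator_of_mem (a (closedBall_subset_closedBall k1.2 hξ)), e1]
  rw [hν _ mD, Cu.unk, ← hB, mul_assoc]
  refine le_of_eq_of_le ?_ (mul_le_mul_right c1 _)
  rw [mul_right_comm, ← mul_assoc, mul_comm, ← ENNReal.ofReal_mul (by positivity),
    ← ENNReal.ofReal_mul c0.le, hc, Cu.tv]
  congr 2
  nth_rewrite 1 [em]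
  field_simp
  ring

end BEp
end
end

-- merged part: Pool.Agent.Work.MP_f0515e_an.P2.QMx
section
/-! All the maximal conditions at once. `MG` for `J = fun _ : Unit => i` is `M1` (`volume_preserving_funUnique`, see `Sel1_vit`), for `J = n.succAbove` it is `M2`, for `J = id` it is `M3`.
A point of `Gp u` is `ctr u + ω`, `ω = fun l => k l * (16 s)`, `|k l| ≤ 2 ^ a` (`Q_sub`: the centre is a grid point). Use `SelQ.fin` over `Fin 3 × {k}` (filtered by the conditions on `ω`). -/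

open Set Metric Filter Topology Function BEv MeasureTheory
open scoped NNReal ENNReal

noncomputable section
namespace BEp

variable {C : Cu} {aK : ℝ}

theorem SelQ.mono {Cs Cs' : ℝ≥0∞} {Pd Pd' : (Rn 3 → Rn 3) → (Rn 3 → Rn 3 →L[ℝ] Rn 3) →
    (Rn 3 → ℝ≥0∞) → I3 × I3 → Prop} (h : C.SelQ Cs Pd) (hc : Cs ≤ Cs')
    (e : ∀ f D v, ∀ u ∈ C.Adm, Pd f D v u → Pd' f D v u) : C.SelQ Cs' Pd' := by
  obtain ⟨ν, a1, a2, a3⟩ := h
  refine ⟨ν, a1, a2.trans (mul_le_mul_left hc _), fun f D v b1 b2 b3 b4 b5 =>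
    le_trans (mul_le_mul_left ?_ _) (a3 f D v b1 b2 b3 b4 b5)⟩
  exact_mod_cast encard_le_encard (s := C.Adm \ {u | Pd' f D v u}) (t := C.Adm \ {u | Pd f D v u})
    fun u hu => ⟨hu.1, fun k => hu.2 (e f D v u hu.1 k)⟩

theorem QMx_triv {Cs : ℝ≥0∞} {Pd : (Rn 3 → Rn 3) → (Rn 3 → Rn 3 →L[ℝ] Rn 3) →
    (Rn 3 → ℝ≥0∞) → I3 × I3 → Prop} (h : ∀ f D v u, Pd f D v u) : C.SelQ Cs Pd := by
  refine ⟨0, rfl, bot_le, fun f D v _ _ _ _ _ => ?_⟩
  rw [Cu.unk, (sdiff_eq_empty (t := {u | Pd f D v u})).2 fun u _ => h f D v u]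
  simp

theorem QMx_imp {Cs : ℝ≥0∞} {Pd : (Rn 3 → Rn 3) → (Rn 3 → Rn 3 →L[ℝ] Rn 3) →
    (Rn 3 → ℝ≥0∞) → I3 × I3 → Prop} {p : Prop} (h : p → C.SelQ Cs Pd) :
    C.SelQ Cs fun f D v u => p → Pd f D v u := by
  by_cases hp : p
  · exact SelQ.mono (h hp) le_rfl fun _ _ _ _ _ k _ => k
  · exact QMx_triv fun _ _ _ _ k => absurd k hp

theorem QMx_and {Cs Cs' : ℝ≥0∞} {Pd Pd' : (Rn 3 → Rn 3) → (Rn 3 → Rn 3 →L[ℝ] Rn 3) →
    (Rn 3 → ℝ≥0∞) → I3 × I3 → Prop} (h : C.SelQ Cs Pd) (h' : C.SelQ Cs' Pd') :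
    C.SelQ (Cs + Cs') fun f D v u => Pd f D v u ∧ Pd' f D v u := by
  obtain ⟨ν, a1, a2, a3⟩ := h
  obtain ⟨ν', c1, c2, c3⟩ := h'
  refine ⟨ν + ν', by rw [Measure.add_apply, a1, c1, add_zero],
    by rw [Measure.add_apply, add_mul]; exact add_le_add a2 c2, fun f D v b1 b2 b3 b4 b5 => ?_⟩
  rw [lintegral_add_measure] at b5 ⊢
  refine le_trans ?_ (add_le_add (a3 f D v b1 b2 b3 b4 (ENNReal.add_ne_top.1 b5).1)
    (c3 f D v b1 b2 b3 b4 (ENNReal.add_ne_top.1 b5).2))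
  rw [Cu.unk, Cu.unk, Cu.unk, ← add_mul]
  refine mul_le_mul_left ?_ _
  have sub : C.Adm \ {u | Pd f D v u ∧ Pd' f D v u} ⊆
      C.Adm \ {u | Pd f D v u} ∪ C.Adm \ {u | Pd' f D v u} := fun u hu =>
    (not_and_or.1 hu.2).imp (fun k => ⟨hu.1, k⟩) fun k => ⟨hu.1, k⟩
  exact_mod_cast (encard_le_encard sub).trans (encard_union_le _ _)

theorem SelQ.fin {α : Type} (s : Finset α) {Cs : α → ℝ≥0∞} {Pd : α → (Rn 3 → Rn 3) →
    (Rn 3 → Rn 3 →L[ℝ] Rn 3) → (Rn 3 → ℝ≥0∞) → I3 × I3 → Prop} (h : ∀ a ∈ s, C.SelQ (Cs a) (Pd a)) :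
    C.SelQ (∑ a ∈ s, Cs a) fun f D v u => ∀ a ∈ s, Pd a f D v u := by
  classical
  induction s using Finset.induction_on with
  | empty => exact QMx_triv fun _ _ _ _ a ha => absurd ha (Finset.notMem_empty a)
  | insert a s ha ih =>
    rw [Finset.sum_insert ha]
    exact SelQ.mono (QMx_and (h a (Finset.mem_insert_self a s))
      (ih fun b hb => h b (Finset.mem_insert_of_mem hb))) le_rfl
      fun f D v u _ k => (Finset.forall_mem_insert _ _ _).2 k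

theorem SelQ.and {Cs Cs' : ℝ≥0∞} {Pd Pd' : (Rn 3 → Rn 3) → (Rn 3 → Rn 3 →L[ℝ] Rn 3) →
    (Rn 3 → ℝ≥0∞) → I3 × I3 → Prop} (h : C.SelQ Cs Pd) (h' : C.SelQ Cs' Pd') :
    C.SelQ (Cs + Cs') fun f D v u => Pd f D v u ∧ Pd' f D v u := by
  exact QMx_and h h'

section
variable {D : Rn 3 → Rn 3 →L[ℝ] Rn 3} {v : Rn 3 → ℝ≥0∞} {δ : ℝ} {x : Rn 3}

theorem QMx_line (i : Fin 3) (x : Rn 3) (g : Rn 3 → ℝ≥0∞) {R : ℝ} (hR : 0 ≤ R) :
    ∫⁻ ξ in closedBall (x ∘ fun _ : Unit => i) R, g (extend (fun _ : Unit => i) ξ x) =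
      ∫⁻ t in Icc (x i - R) (x i + R), g (update x i t) := by
  rw [← (volume_preserving_funUnique Unit ℝ).setLIntegral_comp_preimage_emb
    (MeasurableEquiv.measurableEmbedding _)]
  have e1 : closedBall (x ∘ fun _ : Unit => i) R =
      MeasurableEquiv.funUnique Unit ℝ ⁻¹' Icc (x i - R) (x i + R) := by
    ext ξ
    rw [← Real.closedBall_eq_Icc, mem_preimage, mem_closedBall, mem_closedBall, dist_pi_le_iff hR]
    exact ⟨fun k => k (), fun k _ => k⟩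
  have e2 : ∀ ξ : Unit → ℝ, extend (fun _ : Unit => i) ξ x =
      update x i (MeasurableEquiv.funUnique Unit ℝ ξ) := by
    intro ξ
    funext l
    by_cases hl : l = i
    · subst hl
      rw [update_self]
      exact Injective.extend_apply (f := fun _ : Unit => l) (fun _ _ _ => rfl) ξ x ()
    · rw [update_of_ne hl, extend_apply' _ _ _ fun ⟨_, k⟩ => hl k.symm]
  simp only [e1, e2]

theorem QMx_m1 (h : C.Ok aK) {i : Fin 3} (k : C.MG (fun _ : Unit => i) D v δ x) :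
    C.M1 D v δ i x := by
  have n := h.nm
  have r0 : 0 ≤ C.Rm := by unfold Cu.Rm; linarith [n.t0, n.ρ1]
  obtain ⟨k1, k2⟩ := k
  rw [QMx_line i x v r0] at k1
  refine ⟨k1, fun R hR => ?_⟩
  have := k2 R hR
  rwa [QMx_line i x (fun y => ‖D y - C.A‖ₑ ^ 2) (by linarith [n.t0, hR.1]), Fintype.card_unique,
    pow_one] at this

theorem QMx_m2 {n : Fin 3} (k : C.MG n.succAbove D v δ x) : C.M2 D v δ n x := by
  have e : ∀ ξ : Rn 2, extend n.succAbove ξ x = pl n (x n) ξ := fun ξ =>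
    QBas_ext n (by rw [pl_n, extend_apply' _ _ _ fun ⟨a, k⟩ => n.succAbove_ne a k]) fun a => by
      rw [pl_a, Fin.succAbove_right_injective.extend_apply]
  simp only [Cu.MG, e, Fintype.card_fin] at k
  exact k

theorem QMx_m3 (k : C.MG id D v δ x) : C.M3 D v δ x := by
  have e : ∀ ξ : Rn 3, extend id ξ x = ξ := fun ξ =>
    funext fun a => injective_id.extend_apply ξ x a
  simp only [Cu.MG, e, Fintype.card_fin] at k
  exact k

end

/-- The offsets of the grid points of a tile. -/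
def QMx_K (a : ℕ) : Finset I3 := Fintype.piFinset fun _ => Finset.Icc (-2 ^ a) (2 ^ a)

def QMx_w (C : Cu) (k : I3) : Rn 3 := fun l => k l * (16 * C.s)

theorem QMx_grid (h : C.Ok aK) {u : I3 × I3} (hu : u ∈ C.Adm) {x : Rn 3} (hx : x ∈ C.Gp u) :
    ∃ k ∈ QMx_K C.a, x = C.ctr u + QMx_w C k ∧ (∀ l, l ∉ C.I → QMx_w C k l = 0) ∧
      ‖QMx_w C k‖ ≤ C.t0 / 2 := by
  have n := h.nm
  obtain ⟨a1, a2⟩ := (Cu.mem_Q (half_pos n.t0).le).1 hx.1
  choose k hk using hx.2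
  choose m hm using (h.Q_sub hu).2.2.2
  have e : QMx_w C (k - m) = x - C.ctr u := funext fun l => by
    rw [QMx_w, Pi.sub_apply, Pi.sub_apply, hk, hm, Int.cast_sub, sub_mul]
  refine ⟨k - m, Fintype.mem_piFinset.2 fun l => Finset.mem_Icc.2 (abs_le.1 ?_),
    by rw [e, add_sub_cancel], fun l hl => by rw [e, Pi.sub_apply, a1 l hl, sub_self], e ▸ a2⟩
  have b1 : |QMx_w C (k - m) l| ≤ C.t0 / 2 := (norm_le_pi_norm _ l).trans (e ▸ a2)
  have s0 := n.s0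
  rw [QMx_w, abs_mul, abs_of_pos (by positivity : 0 < 16 * C.s), n.et] at b1
  have b2 : |(((k - m) l : ℤ) : ℝ)| ≤ 2 ^ C.a := by
    refine le_of_mul_le_mul_right ?_ s0
    linarith [mul_nonneg (abs_nonneg (((k - m) l : ℤ) : ℝ)) s0.le]
  exact_mod_cast b2

theorem sel_mx (T : Ty) : ∃ Cs : ℝ≥0∞, Cs ≠ ⊤ ∧ ∀ (C : Cu) (aK : ℝ), C.toTy = T → C.Ok aK →
    C.SelQ Cs fun _ D v u => C.Mx D v u := by
  refine ⟨∑ _p ∈ (Finset.univ : Finset (Fin 3)) ×ˢ QMx_K T.a, ENNReal.ofReal (10 ^ 4 / T.dl ^ 2) +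
    (∑ _p ∈ (Finset.univ : Finset (Fin 3)) ×ˢ QMx_K T.a, ENNReal.ofReal (10 ^ 4 / T.dl ^ 2) +
      ENNReal.ofReal (10 ^ 4 / T.dl ^ 2)), ?_, ?_⟩
  · have := ENNReal.sum_ne_top (s := (Finset.univ : Finset (Fin 3)) ×ˢ QMx_K T.a)
      (f := fun _ => ENNReal.ofReal (10 ^ 4 / T.dl ^ 2)) |>.2 fun _ _ => ENNReal.ofReal_ne_top
    exact ENNReal.add_ne_top.2 ⟨this, ENNReal.add_ne_top.2 ⟨this, ENNReal.ofReal_ne_top⟩⟩
  rintro C aK rfl h
  have n := h.nm
  have s1 := SelQ.fin (C := C) ((Finset.univ : Finset (Fin 3)) ×ˢ QMx_K C.a)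
    (Pd := fun p _ D v u => (p.1 ∈ C.I ∧ QMx_w C p.2 p.1 = 0 ∧ (∀ l, l ∉ C.I → QMx_w C p.2 l = 0) ∧
      ‖QMx_w C p.2‖ ≤ C.t0 / 2) → C.MG (fun _ : Unit => p.1) D v C.dl (C.ctr u + QMx_w C p.2))
    fun p _ => QMx_imp fun k => selq_gen h (fun _ _ _ => rfl) (fun _ => k.1) (fun _ => k.2.1)
      k.2.2.1 k.2.2.2 n.dl0
  have s2 := SelQ.fin (C := C) ((Finset.univ : Finset (Fin 3)) ×ˢ QMx_K C.a)
    (Pd := fun p _ D v u => ((∀ i, i ≠ p.1 → i ∈ C.I) ∧ (∀ i, i ≠ p.1 → QMx_w C p.2 i = 0) ∧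
      (∀ l, l ∉ C.I → QMx_w C p.2 l = 0) ∧ ‖QMx_w C p.2‖ ≤ C.t0 / 2) →
        C.MG p.1.succAbove D v C.dl (C.ctr u + QMx_w C p.2))
    fun p _ => QMx_imp fun k => selq_gen h Fin.succAbove_right_injective
      (fun a => k.1 _ (p.1.succAbove_ne a)) (fun a => k.2.1 _ (p.1.succAbove_ne a))
      k.2.2.1 k.2.2.2 n.dl0
  have s3 := QMx_imp (C := C) (p := C.I.card = 3) fun k => selq_gen h (ω := 0) injective_id
    (fun a => by rw [Finset.eq_univ_of_card C.I (k.trans (Fintype.card_fin 3).symm)]; simp)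
    (fun _ => rfl) (fun _ _ => rfl) (by rw [norm_zero]; exact (half_pos n.t0).le) n.dl0
  refine SelQ.mono (QMx_and s1 (QMx_and s2 s3)) le_rfl fun f D v u hu k =>
    ⟨fun i hi x hx e => ?_, fun i hi x hx e => ?_, fun e => ?_⟩
  · obtain ⟨m, a1, rfl, a2, a3⟩ := QMx_grid h hu hx
    exact QMx_m1 h (k.1 (i, m) (Finset.mem_product.2 ⟨Finset.mem_univ _, a1⟩)
      ⟨hi, add_eq_left.1 e, a2, a3⟩)
  · obtain ⟨m, a1, rfl, a2, a3⟩ := QMx_grid h hu hx
    exact QMx_m2 (k.2.1 (i, m) (Finset.mem_product.2 ⟨Finset.mem_univ _, a1⟩)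
      ⟨hi, fun j hj => add_eq_left.1 (e j hj), a2, a3⟩)
  · have := k.2.2 e
    rw [add_zero] at this
    exact QMx_m3 this

end BEp
end
end

-- merged part: Pool.Agent.Work.MP_f0515e_an.P2.QInt
section
/-! The intruders. `ν = c (b h) ∑ z, area on icl z` (chart `pl n (X z n)` on the square `S z`, `box_cnt`). Fix `z`; `B` = admissible tiles with `u.1 = z`, `Mx` and not `IE`; `U u` = the set in `IE` (measurable: `f` is continuous on the closed square, `nb` of a compact set is closed).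
The sets `U u`, `u ∈ B` are disjoint (`mx_rl2` and `pv_loc` if the centres are at distance at most `2 ρ'`). Their union `U` is the union over `a : Fin 2` of the measurable parts where `‖ξ - pq n c‖ = |ξ a - pq n c a|`;
`weak2` for the indicators of `S z` times `‖D - A‖ₑ ^ 2` and `v` (`int_geo`; the points within `2 ρ'` of the centre lie in `S z`) gives `ci² |U| ≤ 20 ∫`. So `card B * dl² s² ≤ ∫ U ‖D‖² ≤ (2 + 40 ‖A‖² / ci²) ∫ S z ‖D - A‖²`; `tv = t0² (b h)`, `t0 = 2 * 2 ^ a * s`. -/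

open Set Metric Filter Topology Function BEv MeasureTheory
open scoped NNReal ENNReal

noncomputable section
namespace BEp

theorem QInt_plane {ι : Type} (F : Finset ι) {U : ι → Set (Rn 2)} {c : ι → Rn 2} {S : Set (Rn 2)}
    {ψ g v : Rn 2 → ℝ≥0∞} {lam K μ : ℝ≥0∞} {ρ : ℝ} (hψ : Measurable ψ) (hv : Measurable v)
    (hS : MeasurableSet S) (hi : ∫⁻ ξ in S, v ξ ≠ ⊤) (l0 : lam ≠ 0) (lt : lam ≠ ⊤)
    (hU : ∀ u ∈ F, MeasurableSet (U u)) (hd : (F : Set ι).PairwiseDisjoint U)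
    (hb : ∀ u ∈ F, U u ⊆ closedBall (c u) ρ ∧ closedBall (c u) (2 * ρ) ⊆ S)
    (hg : ∀ ξ, g ξ ≤ 2 * ψ ξ + K) (hμ : ∀ u ∈ F, μ ≤ ∫⁻ ξ in U u, g ξ)
    (hw : ∀ u ∈ F, ∀ ξ ∈ U u, ∀ a, ‖ξ - c u‖ = |ξ a - c u a| →
      ∫⁻ t in Icc (ξ a - ρ) (ξ a + ρ), v (update ξ a t) ≠ ⊤ → ∃ d, 0 < d ∧ d ≤ ρ ∧
        lam * ENNReal.ofReal d ≤ ∫⁻ t in Icc (ξ a - d) (ξ a + d), ψ (update ξ a t)) :
    μ * F.card ≤ (2 + K * lam⁻¹ * 20) * ∫⁻ ξ in S, ψ ξ := by
  have inS : ∀ u ∈ F, ∀ ξ ∈ U u, ∀ a d, d ≤ ρ → ∀ t ∈ Icc (ξ a - d) (ξ a + d), update ξ a t ∈ S :=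
    fun u hu ξ hξ a d hd t ht => (hb u hu).2 (by
      have a1 : dist ξ (c u) ≤ ρ := (hb u hu).1 hξ
      have a2 : dist (update ξ a t) ξ ≤ ρ := by
        refine (dist_pi_le_iff (dist_nonneg.trans a1)).2 fun b => ?_
        rcases eq_or_ne b a with rfl | k
        · rw [update_self, Real.dist_eq, abs_le]
          constructor <;> linarith [ht.1, ht.2]
        · rw [update_of_ne k, dist_self]
          exact dist_nonneg.trans a1
      exact (dist_triangle _ ξ _).trans (by linarith))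
  have w : ∀ a : Fin 2, lam * volume (⋃ u ∈ F, U u ∩ {ξ | ‖ξ - c u‖ = |ξ a - c u a|}) ≤
      10 * ∫⁻ ξ in S, ψ ξ := fun a => by
    rw [← lintegral_indicator hS]
    refine weak2 (ρ := ρ) (hψ.indicator hS) (hv.indicator hS) (by rwa [lintegral_indicator hS])
      (F.measurableSet_biUnion fun u hu => (hU u hu).inter
        (isClosed_eq (by fun_prop) (by fun_prop)).measurableSet) a fun ξ hξ k => ?_
    obtain ⟨u, hu, h1, h2⟩ := mem_iUnion₂.1 hξ
    obtain ⟨d, d0, d1, d2⟩ := hw u hu ξ h1 a h2 (ne_top_of_le_ne_top k (le_of_eq_of_le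
      (setLIntegral_congr_fun measurableSet_Icc fun t ht =>
        (indicator_of_mem (inS u hu ξ h1 a ρ le_rfl t ht) v).symm) (setLIntegral_le_lintegral _ _)))
    exact ⟨d, d0, d1, d2.trans_eq (setLIntegral_congr_fun measurableSet_Icc fun t ht =>
      (indicator_of_mem (inS u hu ξ h1 a d d1 t ht) ψ).symm)⟩
  have w2 : volume (⋃ u ∈ F, U u) ≤ lam⁻¹ * 20 * ∫⁻ ξ in S, ψ ξ := by
    have sub : (⋃ u ∈ F, U u) ⊆ (⋃ u ∈ F, U u ∩ {ξ | ‖ξ - c u‖ = |ξ 0 - c u 0|}) ∪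
        ⋃ u ∈ F, U u ∩ {ξ | ‖ξ - c u‖ = |ξ 1 - c u 1|} := fun ξ hξ => by
      obtain ⟨u, hu, h1⟩ := mem_iUnion₂.1 hξ
      have q : ∀ a, (∀ b, |ξ b - c u b| ≤ |ξ a - c u a|) → ‖ξ - c u‖ = |ξ a - c u a| := fun a k =>
        ((pi_norm_le_iff_of_nonneg (abs_nonneg _)).2 k).antisymm (norm_le_pi_norm (ξ - c u) a)
      rcases le_total |ξ 1 - c u 1| |ξ 0 - c u 0| with k | k
      exacts [Or.inl (mem_iUnion₂.2 ⟨u, hu, h1, q 0 (Fin.forall_fin_two.2 ⟨le_rfl, k⟩)⟩),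
        Or.inr (mem_iUnion₂.2 ⟨u, hu, h1, q 1 (Fin.forall_fin_two.2 ⟨k, le_rfl⟩)⟩)]
    rw [mul_assoc, ← ENNReal.mul_le_iff_le_inv l0 lt]
    refine (mul_le_mul_right ((measure_mono sub).trans (measure_union_le _ _)) _).trans ?_
    rw [mul_add]
    refine (add_le_add (w 0) (w 1)).trans_eq ?_
    ring
  have US : (⋃ u ∈ F, U u) ⊆ S := iUnion₂_subset fun u hu ξ hξ => by
    simpa using inS u hu ξ hξ 0 0 (dist_nonneg.trans ((hb u hu).1 hξ)) (ξ 0) (by simp)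
  calc μ * F.card ≤ ∑ u ∈ F, ∫⁻ ξ in U u, g ξ := by
        simpa [mul_comm] using Finset.card_nsmul_le_sum F _ μ hμ
    _ = ∫⁻ ξ in ⋃ u ∈ F, U u, g ξ := (lintegral_biUnion_finset hd hU g).symm
    _ ≤ ∫⁻ ξ in ⋃ u ∈ F, U u, 2 * ψ ξ + K := lintegral_mono hg
    _ = 2 * (∫⁻ ξ in ⋃ u ∈ F, U u, ψ ξ) + K * volume (⋃ u ∈ F, U u) := by
        rw [lintegral_add_right _ measurable_const, lintegral_const_mul _ hψ, setLIntegral_const]
    _ ≤ 2 * (∫⁻ ξ in S, ψ ξ) + K * (lam⁻¹ * 20 * ∫⁻ ξ in S, ψ ξ) := by gcongr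
    _ = _ := by ring

theorem QInt_sq {E : Type} [NormedAddCommGroup E] (x a : E) :
    ‖x‖ₑ ^ 2 ≤ 2 * ‖x - a‖ₑ ^ 2 + 2 * ‖a‖ₑ ^ 2 := by
  have : ‖x‖ ^ 2 ≤ 2 * ‖x - a‖ ^ 2 + 2 * ‖a‖ ^ 2 := by
    have := norm_le_norm_sub_add x a
    nlinarith [norm_nonneg x, norm_nonneg a, norm_nonneg (x - a), sq_nonneg (‖x - a‖ - ‖a‖)]
  simp only [enorm_eq_nnnorm]
  exact_mod_cast this

theorem sel_ie (T : Ty) (hc : T.I.card = 2) (hA : T.A ≠ 0) : ∃ Cs : ℝ≥0∞, Cs ≠ ⊤ ∧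
    ∀ (C : Cu) (aK : ℝ), C.toTy = T → C.Ok aK →
      C.SelQ Cs fun f D v u => C.Mx D v u → C.IE f D u := by
  classical
  by_cases hp : 0 < T.ci ∧ 0 < T.dl
  swap
  · refine ⟨0, ENNReal.zero_ne_top, fun C aK e h => absurd ?_ hp⟩
    subst e
    have := h.nm.σ0.1
    have := h.pos.2.2.2.2.2.2.1
    exact ⟨by unfold Ty.ci; positivity, h.nm.dl0⟩
  obtain ⟨n, hn⟩ : ∃ n, ∀ i, i ∈ T.I ↔ i ≠ n := by
    revert hc
    generalize T.I = I
    revert I
    decide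
  have l0 : ENNReal.ofReal (T.ci ^ 2) ≠ 0 := (ENNReal.ofReal_pos.2 (pow_pos hp.1 2)).ne'
  have d0 : ENNReal.ofReal (T.dl ^ 2) ≠ 0 := (ENNReal.ofReal_pos.2 (pow_pos hp.2 2)).ne'
  obtain ⟨M, hM⟩ : ∃ M, M = 2 + 2 * ‖T.A‖ₑ ^ 2 * (ENNReal.ofReal (T.ci ^ 2))⁻¹ * 20 := ⟨_, rfl⟩
  obtain ⟨c, hc'⟩ : ∃ c, c = ENNReal.ofReal ((2 * 2 ^ T.a) ^ 2) * (ENNReal.ofReal (T.dl ^ 2))⁻¹ * M :=
    ⟨_, rfl⟩
  have M0 : M ≠ 0 := by simp [hM]
  have c0 : c ≠ 0 := hc' ▸ mul_ne_zero (mul_ne_zero (ENNReal.ofReal_pos.2 (by positivity)).ne'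
    (ENNReal.inv_ne_zero.2 ENNReal.ofReal_ne_top)) M0
  refine ⟨c * 8, by rw [hc', hM]; finiteness, fun C aK e h => ?_⟩
  subst e
  obtain ⟨Z, hZ⟩ : ∃ Z : Finset I3, ∀ z, z ∈ Z ↔ C.icl z ⊆ C.O :=
    ⟨h.O_prop.2.2.2.2.2.1.toFinset, fun z => by simp⟩
  obtain ⟨-, hh, hs, ht, -, hρ, hκ, -, hb, -⟩ := h.pos
  have hbh : 0 < C.b * C.h := by positivity
  have nI : n ∉ C.I := fun k => (hn n).1 k rfl
  obtain ⟨S, hS⟩ : ∃ S : I3 → Set (Rn 2), S = fun z => Icc (pq n (C.X fun i => z i))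
    fun a => pq n (C.X fun i => z i) a + C.h := ⟨_, rfl⟩
  have mS : ∀ z, MeasurableSet (S z) := fun z => hS ▸ measurableSet_Icc
  have cφ : ∀ t, Continuous (pl n t) := fun t => (pl_tp n t).1.continuous
  have iS : ∀ (z : I3) ξ, pl n (C.X (fun i => z i) n) ξ ∈ C.icl z ↔ ξ ∈ S z := fun z ξ => by
    rw [h.mem_icl, hS]
    refine ⟨fun k => ⟨fun a => ?_, fun a => ?_⟩, fun k => ⟨fun i hi => ?_, fun i hi => ?_⟩⟩
    · exact pl_a n _ ξ a ▸ (k.2 _ ((hn _).2 (n.succAbove_ne a))).1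
    · exact pl_a n _ ξ a ▸ (k.2 _ ((hn _).2 (n.succAbove_ne a))).2
    · obtain rfl : i = n := not_not.1 fun q => hi ((hn i).2 q)
      exact pl_n _ _ _
    · obtain ⟨a, rfl⟩ := Fin.exists_succAbove_eq ((hn i).1 hi)
      rw [pl_a]
      exact ⟨k.1 a, k.2 a⟩
  have qS : ∀ z ∈ Z, ∀ ξ ∈ S z, pl n (C.X (fun i => z i) n) ξ ∈ C.q := fun z hz ξ hξ =>
    Sel2_Oq h ((hZ z).1 hz ((iS z ξ).2 hξ))
  obtain ⟨ν, hν⟩ : ∃ ν : Measure (Rn 3), ∀ ψ : Rn 3 → ℝ≥0∞, Measurable ψ → ∫⁻ y, ψ y ∂ν =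
      c * ENNReal.ofReal (C.b * C.h) * ∑ z ∈ Z, ∫⁻ ξ in S z, ψ (pl n (C.X (fun i => z i) n) ξ) :=
    ⟨(c * ENNReal.ofReal (C.b * C.h)) • ∑ z ∈ Z,
      (volume.restrict (S z)).map (pl n (C.X (fun i => z i) n)), fun ψ hψ => by
        simp only [lintegral_smul_measure, lintegral_finsetSum_measure,
          lintegral_map hψ (cφ _).measurable, smul_eq_mul]⟩
  refine ⟨ν, ?_, ?_, fun f D v hf hD hv hU hi => ?_⟩
  · have m : MeasurableSet C.qᶜ := measurableSet_closedBall.compl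
    rw [← lintegral_indicator_one m, hν _ (measurable_one.indicator m), Finset.sum_eq_zero, mul_zero]
    exact fun z hz => setLIntegral_eq_zero (mS z)
      fun ξ hξ => indicator_of_notMem (not_not.2 (qS z hz ξ hξ)) _
  · rw [← lintegral_one, hν _ measurable_const, mul_assoc, mul_assoc]
    refine mul_le_mul_right (le_of_eq_of_le ?_ (Sel2_vol h hc Z fun z => (hZ z).1)) _
    simp only [hS, setLIntegral_one, Real.volume_Icc_pi, add_sub_cancel_left, Fin.prod_univ_two,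
      Finset.sum_const, nsmul_eq_mul]
    rw [mul_left_comm, ← ENNReal.ofReal_mul hh.le, ← ENNReal.ofReal_mul hbh.le]
    congr 2
    ring
  have mD : Measurable fun y => ‖D y - C.A‖ₑ ^ 2 := (hD.sub_const _).enorm.pow_const _
  rw [hν v hv] at hi
  have i1 := ENNReal.sum_lt_top.1 (ENNReal.lt_top_of_mul_ne_top_right hi
    (mul_ne_zero c0 (ENNReal.ofReal_pos.2 hbh).ne'))
  have N := h.nm
  have key : ∀ z ∈ Z, ENNReal.ofReal (C.dl ^ 2 * C.s ^ 2) * (({u | u ∈ C.Adm \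
      {u | C.Mx D v u → C.IE f D u} ∧ u.1 = z} : Set (I3 × I3)).encard : ℝ≥0∞) ≤
        M * ∫⁻ ξ in S z, ‖D (pl n (C.X (fun i => z i) n) ξ) - C.A‖ₑ ^ 2 := fun z hz => by
    obtain ⟨F, hF⟩ := (h.adm_finite.subset (fun u k => k.1.1 : {u | u ∈ C.Adm \
      {u | C.Mx D v u → C.IE f D u} ∧ u.1 = z} ⊆ C.Adm)).exists_finset_coe
    have hF' : ∀ u ∈ F, u ∈ C.Adm ∧ C.Mx D v u ∧ ¬ C.IE f D u ∧ u.1 = z ∧
        C.ctr u n = C.X (fun i => z i) n := fun u hu => by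
      have k : u ∈ (F : Set (I3 × I3)) := hu
      rw [hF] at k
      exact ⟨k.1.1, (Classical.not_imp.1 k.1.2).1, (Classical.not_imp.1 k.1.2).2, k.2,
        k.2 ▸ Cu.GGeo_ctr_out nI⟩
    have bS : ∀ u ∈ F, closedBall (pq n (C.ctr u)) (2 * C.ρ') ⊆ S z := fun u hu ξ hξ => by
      obtain ⟨a, -, -, b, e⟩ := hF' u hu
      refine (iS z ξ).1 (b ▸ (h.Q_sub a).1 ((Cu.mem_Q (by linarith)).2 ⟨fun i hi => ?_, ?_⟩))
      · obtain rfl : i = n := not_not.1 fun q => hi ((hn i).2 q)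
        rw [pl_n, e, b]
      · conv_lhs => rw [← pl_pq n (C.ctr u), pl_norm, e, b, sub_self, abs_zero]
        exact max_le (by linarith) ((mem_closedBall_iff_norm.1 hξ).trans (by linarith))
    rw [← hF, encard_coe_eq_coe_finsetCard, hM]
    refine QInt_plane F (c := fun u => pq n (C.ctr u)) (ρ := C.ρ')
      (U := fun u => {ξ | ξ ∈ closedBall (pq n (C.ctr u)) C.ρ' ∧
        pl n (C.X (fun i => z i) n) ξ ∉ C.Q u C.R1 ∧
          f (pl n (C.X (fun i => z i) n) ξ) ∈ C.Nb f u C.R0 (19 / 100 * C.m)})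
      (g := fun ξ => ‖D (pl n (C.X (fun i => z i) n) ξ)‖ₑ ^ 2) (mD.comp (cφ _).measurable)
      (hv.comp (cφ _).measurable) (mS z) (i1 z hz).ne l0 ENNReal.ofReal_ne_top (fun u hu => ?_)
      (fun u hu u' hu' ne => disjoint_left.2 fun ξ k k' => ?_) (fun u hu => ⟨fun _ k => k.1, bS u hu⟩)
      (fun ξ => QInt_sq _ _) (fun u hu => ?_) fun u hu ξ k a => ?_
    · have cl : IsClosed (C.Nb f u C.R0 (19 / 100 * C.m)) := by
        have : IsCompact (C.aff0 f u '' C.Q u C.R0) :=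
          (C.Q_cpt u _).1.image (by unfold Cu.aff0; fun_prop)
        refine (?_ : _ = cthickening (19 / 100 * C.m) (C.aff0 f u '' C.Q u C.R0)).symm.subst
          isClosed_cthickening
        rw [this.cthickening_eq_biUnion_closedBall (by linarith [N.sm])]
        ext y
        simp only [Cu.Nb, nb, mem_ofPred_eq, mem_iUnion, mem_closedBall_iff_norm, exists_prop]
      have := ((hf.comp (cφ _).continuousOn fun ξ k => qS z hz ξ (bS u hu
        (closedBall_subset_closedBall (by linarith : C.ρ' ≤ _) k))).preimage_isClosed_of_isClosed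
          isClosed_closedBall cl).measurableSet.inter
        ((C.Q_cpt u C.R1).1.isClosed.preimage (cφ (C.X (fun i => z i) n))).measurableSet.compl
      convert this using 1
      ext ξ
      exact ⟨fun k => ⟨⟨k.1, k.2.2⟩, k.2.1⟩, fun k => ⟨k.1.1, k.2, k.1.2⟩⟩
    · obtain ⟨a, m, -, b, e⟩ := hF' u hu
      obtain ⟨a', m', -, b', e'⟩ := hF' u' hu'
      have r : C.R0 ≤ C.R1 := by nlinarith [N.r0, mul_pos hκ hs]
      refine disjoint_left.1 (pv_loc h hA a a' ne (b.trans b'.symm)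
        (mx_rl2 h hc a a' hD hv hU m m' (b.trans b'.symm) ?_)) (Nb_mono r le_rfl k.2.2)
          (Nb_mono r le_rfl k'.2.2)
      rw [← pl_pq n (C.ctr u), ← pl_pq n (C.ctr u'), pl_norm, e, e', sub_self, abs_zero,
        ← dist_eq_norm]
      exact max_le (by linarith) ((dist_triangle_left _ _ ξ).trans
        (by linarith [mem_closedBall.1 k.1, mem_closedBall.1 k'.1]))
    · obtain ⟨-, -, m, -, e⟩ := hF' u hu
      refine le_of_not_ge fun k => m fun n' hn' => ?_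
      obtain rfl : n = n' := not_not.1 fun q => nI ((hn' n).2 q)
      rwa [e]
    · obtain ⟨a', m, -, -, e⟩ := hF' u hu
      rw [← e] at k ⊢
      exact int_geo h a' hA hD hU m hn k.1 k.2.1 k.2.2
  rw [hν _ mD, Cu.unk, Finset.mul_sum]
  refine (mul_le_mul_left (Sel2_enc Prod.fst Z _ fun u hu => (hZ _).2 hu.1.1) _).trans ?_
  rw [Finset.sum_mul]
  refine Finset.sum_le_sum fun z hz => ?_
  have e : ENNReal.ofReal C.tv = ENNReal.ofReal ((2 * 2 ^ C.a) ^ 2) *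
      (ENNReal.ofReal (C.dl ^ 2))⁻¹ * ENNReal.ofReal (C.b * C.h) *
        ENNReal.ofReal (C.dl ^ 2 * C.s ^ 2) := by
    rw [← ENNReal.ofReal_inv_of_pos (pow_pos hp.2 2), ← ENNReal.ofReal_mul (by positivity),
      ← ENNReal.ofReal_mul (by positivity), ← ENNReal.ofReal_mul (by positivity), Cu.tv, hc, N.et]
    congr 1
    have := hp.2.ne'
    field_simp
    exact pow_one _
  rw [e, hc', mul_comm, mul_assoc]
  refine (mul_le_mul_right (key z hz) _).trans_eq ?_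
  ring

end BEp
end
end

-- merged part: Pool.Agent.Work.MP_f0515e_an.P2.QSel
section
/-! Selection of the tiles for all ranks. `A = 0`: `ν = 0`, no tile. Rank one: `Sel1_main`. Rank two: `sel_mx`, `sel_ie`, `SelQ.and`. Rank three: `sel_mx`. `IE` is void unless the rank is two. -/

open Set Metric Filter Topology Function BEv MeasureTheory
open scoped NNReal ENNReal

noncomputable section
namespace BEp

theorem QSel_void {C : Cu} (hc : C.I.card ≠ 2) (f : Rn 3 → Rn 3) (D : Rn 3 → Rn 3 →L[ℝ] Rn 3)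
    (u : I3 × I3) : C.IE f D u := fun n hn => by
  have e : C.I = Finset.univ.erase n := by
    ext i
    simp [hn i]
  rw [e, Finset.card_erase_of_mem (Finset.mem_univ n)] at hc
  simp at hc

theorem QSel_of {C : Cu} {Cs : ℝ≥0∞} {Ω : Set (Rn 3)} (K : Kx Ω) (hA : C.A ≠ 0)
    (hc : C.I.card ≠ 1) (h : C.SelQ Cs fun f D v u => C.Mx D v u ∧ C.IE f D u) : C.SelP2 Cs K := by
  obtain ⟨ν, h1, h2, h3⟩ := h
  refine ⟨ν, h1, h2, fun f D v a b c d e => ⟨{u | u ∈ C.Adm ∧ C.Mx D v u ∧ C.IE f D u},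
    fun u hu => ⟨hu.1, hA, fun h => absurd h hc, fun _ => hu.2.1, hu.2.2⟩, fun _ => ?_⟩⟩
  have e1 : C.Adm \ {u | u ∈ C.Adm ∧ C.Mx D v u ∧ C.IE f D u} =
      C.Adm \ {u | C.Mx D v u ∧ C.IE f D u} := by
    ext u
    simp only [Set.mem_sdiff, Set.mem_ofPred_eq]
    tauto
  simp only [ENNReal.rpow_two]
  unfold Cu.unk
  rw [e1]
  exact h3 f D v a b c d e

theorem sel_all2 (T : Ty) (hn : T.I.Nonempty) : ∃ Cs : ℝ≥0∞, Cs ≠ ⊤ ∧
    ∀ (C : Cu) (aK : ℝ) (Ω : Set (Rn 3)) (K : Kx Ω) (ch : Set (Rn 3) → Ch) (w : Set (Rn 3) → ℝ),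
      C.toTy = T → C.Ok aK → C.Fit aK K ch w → C.SelP2 Cs K := by
  by_cases hA : T.A = 0
  · refine ⟨0, ENNReal.zero_ne_top, fun C aK Ω K ch w hT _ _ => ?_⟩
    subst hT
    exact ⟨0, rfl, by simp, fun f D v _ _ _ _ _ => ⟨∅, fun u hu => hu.elim, fun h => absurd hA h⟩⟩
  have h1 := hn.card_pos
  have h2 : T.I.card ≤ 3 := by simpa using T.I.card_le_univ
  obtain ⟨Cm, m0, hm⟩ := sel_mx T
  obtain h | h | h : T.I.card = 1 ∨ T.I.card = 2 ∨ T.I.card = 3 := by omega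
  · by_cases hl : 0 < T.lam
    · refine ⟨80 * (ENNReal.ofReal (T.lam / 4) ^ (2 : ℝ))⁻¹, ENNReal.mul_ne_top (by norm_num)
        (ENNReal.inv_ne_top.2 (ENNReal.rpow_pos (ENNReal.ofReal_pos.2 (by positivity))
          ENNReal.ofReal_ne_top).ne'), fun C aK Ω K ch w hT hok _ => ?_⟩
      subst hT
      obtain ⟨j, hj⟩ := Finset.card_eq_one.1 h
      obtain ⟨ν, n1, n2, n3⟩ := Sel1_main hok hj (p := 2) (by norm_num) K
      refine ⟨ν, n1, n2, fun f D v a b c d e => ?_⟩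
      obtain ⟨kp, k1, k2⟩ := n3 f D v a b c d e
      exact ⟨kp, fun u hu => ⟨(k1 u hu).adm, hA, fun _ => k1 u hu, fun h' => by omega,
        QSel_void (by omega) f D u⟩, k2⟩
    · refine ⟨0, ENNReal.zero_ne_top, fun C aK Ω K ch w hT hok _ => ?_⟩
      subst hT
      exact absurd hok.lam0 hl
  · obtain ⟨Ci, i0, hi⟩ := sel_ie T h hA
    refine ⟨Cm + Ci, ENNReal.add_ne_top.2 ⟨m0, i0⟩, fun C aK Ω K ch w hT hok _ => ?_⟩
    have := SelQ.and (hm C aK hT hok) (hi C aK hT hok)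
    subst hT
    exact QSel_of K hA (by omega) (SelQ.mono this le_rfl fun f D v u _ h => ⟨h.1, h.2 h.1⟩)
  · refine ⟨Cm, m0, fun C aK Ω K ch w hT hok _ => ?_⟩
    have := hm C aK hT hok
    subst hT
    exact QSel_of K hA (by omega)
      (SelQ.mono this le_rfl fun f D v u _ h' => ⟨h', QSel_void (by omega) f D u⟩)

end BEp
end
end
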