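import Pool.Agent.Work.MP_f0515e_an.P3.SEd
import Pool.Agent.Work.MP_f0515e_an.P3.CPush
import Pool.Agent.Work.MP_f0515e_an.P3.SOne
import Pool.Agent.Work.MP_f0515e_an.P3.KInt
import Pool.Agent.Work.MP_f0515e_an.P3.DMain
import Pool.Agent.Work.MP_f0515e_an.P2.QDet
import Pool.Agent.Work.MP_f0515e_an.P2.QMoi
import Pool.Agent.Work.MP_f0515e_an.P2.QSel
import Pool.Agent.Work.MP_f0515e_an.P2.QLamX

-- merged part: Pool.Agent.Work.MP_f0515e_an.P3.SMid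
section
-- merged part: Pool.Agent.Work.MP_f0515e_an.P3.SG0
section
/-! The first piecewise affine embedding.
Plan.  `rig_in`: `Pc.box_Q` turns `Q s 40, 30, 24, 16, 12, 8` into `P.Q (ρx + 32 s), (ρx + 22 s), (ρx + 16 s), (ρx + 8 s), (ρx + 4 s), ρx`; `Wi.cell`, `Wi.cells`, `Wi.sk2`, `BoxIn.thick`, `BoxIn.sk`, `Pc.Q_cvx`;
`rsub`, `sep`: `Pc.clamp`, `Pc.aff_le`, `BoxIn.small`, `a_le`, `PcIn.sub`, `PcIn.sep`.
`an_in`: `Wi.bv`; `Kx.cover` on the compact chords; `ACs.sub`, `Pc.Q_seg`; `acm_H1`; `⋃₀ d.Ec K' ⊆ d.Chs`, `chs_meas`, `ID_fin`.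
`vr_rig`: `vr_congr`, `vr_lip` give `vr G a b ≤ ofReal ‖A (b - a)‖`; `vr_ge`, `BoxIn.close`, `BoxIn.len`, `BoxIn.low`, `tol_le` give `‖A (b - a)‖ ≤ 2 ‖f b - f a‖`.
`gout_exists`: `θ σ = min (τ σ) (m σ)`, `0 < m σ ≤ sc ∘ f` on the closure of the cell `σ`; `be_exists`, `top_anX` (`Scl.mono`, `SCt.sc_box`, `SIn.disj`), `ψ = (⋃₀ d.Ec K').indicator (ofReal ∘ ψ0)` (`meas_oseg`, `dm_one`, `Finite.measurableSet_sUnion`, `lintegral_indicator`);
`var`: `AnOut.lin`, `vr_lip`, `ENNReal.ofReal_toReal_le`, `vr_rig`; `cvar`: `vr_core`, `Ioo_ae_eq_Icc`. -/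

open Set Metric Filter Topology Function BEv MeasureTheory
open scoped NNReal ENNReal

noncomputable section
namespace BEp

variable {ι : Type} {Ω : Set (Rn 3)} {K K' : Kx Ω} {f : Rn 3 → Rn 3} {d : SD ι} {p C0 C1 g cm : ℝ}
  {CT Cf : (Rn 3 ≃L[ℝ] Rn 3) → ℝ} {T : TS} {u sc : Rn 3 → ℝ} {M ε : Set (Rn 3) → ℝ≥0∞}
  {h τ : Set (Rn 3) → ℝ} {W : Set (Rn 3) → Set (Rn 2)}

/-- The edges in the chords. -/
def SD.Ec (d : SD ι) (K' : Kx Ω) : Set (Set (Rn 3)) :=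
  {σ | σ ∈ K'.cel 1 ∧ ∃ i, (d.P i).I.card = 1 ∧ σ ⊆ (d.P i).Q (d.P i).ρ}

theorem ec_iff {a b : Rn 3} (he : K'.Edge a b) : openSegment ℝ a b ∈ d.Ec K' ↔ d.Chd a b :=
  ⟨fun ⟨_, i, h1, h2⟩ => ⟨i, h1, he.cl ▸ closure_minimal h2 ((d.P i).Q_cpt _).isClosed⟩,
    fun ⟨i, h1, h2⟩ => ⟨⟨he.2, he.dm⟩, i, h1, (openSegment_subset_segment _ _ _).trans h2⟩⟩

theorem SG0_Q {P : Pc} {s σ a : ℝ} {r : ℕ} (B : BoxIn K f P s r σ a) (t t' : ℝ) (e : t - 8 = t') :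
    (P.box r).Q s t = P.Q (P.ρx + t' * s) := e ▸ Pc.box_Q B.rho t

theorem SG0_edge (w : Wi p K K' f d u sc M ε h W) (s : SIn p C1 g Cf K f d) {i : ι}
    (hc : 2 ≤ (d.P i).I.card) {a b : Rn 3} (he : K'.Edge a b)
    (ha : a ∈ (d.P i).Q ((d.P i).ρx + 22 * d.s)) (hb : b ∈ (d.P i).Q ((d.P i).ρx + 22 * d.s)) :
    K.Edge a b :=
  ⟨he.1, (w.cells s hc (((d.P i).Q_cvx _).openSegment_subset ha hb)).1 he.2⟩

theorem SG0_near (C : SCt p C0 C1 g CT Cf K f d T u cm) {i : ι} (hc : 2 ≤ (d.P i).I.card)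
    {x : Rn 3} (hx : x ∈ (d.P i).Q ((d.P i).ρx + 4 * d.s)) : ∃ x' ∈ (d.P i).Q (d.P i).ρx,
      ‖(d.P i).aff x - (d.P i).aff x'‖ + 10 * (d.σ i * d.s / 1000) ≤ Cf (d.P i).A * (d.P i).l := by
  have B := C.s.box i hc
  have s0 := C.s.s0
  obtain ⟨a1, a2, a3, a4⟩ := SCx_a C i
  obtain ⟨b1, b2⟩ := B.small s0
  obtain ⟨x', hx', k⟩ := Pc.clamp (B.ρx0 s0).le (by positivity) hx
  have h1 := ((d.P i).aff_le x x').trans (mul_le_mul_of_nonneg_left k (norm_nonneg _))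
  exact ⟨x', hx', by linarith only [s0, a2, a3, a4, b1, b2, h1, B, (B.tol_le s0).2, (d.P i).l0]⟩

theorem rig_in (C : SCt p C0 C1 g CT Cf K f d T u cm) (w : Wi p K K' f d u sc M ε h W) :
    RigIn K' f (fun i : {b // 2 ≤ (d.P b).I.card} => (d.P i).box (d.r i)) d.s
      (fun i => d.σ i * d.s / 1000) fun i => (d.P i).tol (d.σ i) d.s := by
  have s0 := C.s.s0
  have B := fun i : {b // 2 ≤ (d.P b).I.card} => C.s.box i i.2
  have sk : ∀ x ∈ K'.sk 1, x ∈ K.sk 2 := fun x hx => w.sk2 ▸ Kx.sk_mono one_le_two hx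
  have q40 := fun i => SG0_Q (B i) 40 32 (by norm_num)
  have q24 := fun i => SG0_Q (B i) 24 16 (by norm_num)
  have q16 := fun i => SG0_Q (B i) 16 8 (by norm_num)
  have q12 := fun i => SG0_Q (B i) 12 4 (by norm_num)
  refine ⟨s0, fun i => ⟨by have := (B i).σ0.1; positivity, (B i).tol_pos s0⟩, fun i => ?_,
    fun i => i.2, fun i => (B i).r8, fun i => q40 i ▸ (B i).QS,
    fun i j k => q40 i ▸ q40 j ▸ C.s.disj i j fun e => k (Subtype.ext e), fun i x hx => ?_,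
    fun i => ?_, fun i z _ => ?_, fun i x hx => ?_, fun i a b he ha hb => ?_,
    fun i x hx y hy k1 k2 => ?_, fun i x hx y hy => ?_, fun i j k x hx y hy => ?_⟩
  · change 1000000 * (1 + ‖((d.P i).A : Rn 3 →L[ℝ] Rn 3)‖) * d.s * (d.P i).tol (d.σ i) d.s ≤ _
    have e : 1000000 * (1 + ‖((d.P i).A : Rn 3 →L[ℝ] Rn 3)‖) * d.s * (d.P i).tol (d.σ i) d.s =
        (d.σ i * d.s / 1000) ^ 2 / 10 := by
      unfold Pc.tol
      field_simp
      ring
    rw [e]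
    exact div_le_self (sq_nonneg _) (by norm_num)
  · rw [q24] at hx
    exact (w.cell C.s i.2 (Pc.Q_mono (by linarith) hx)).trans
      ((B i).grid x (Pc.Q_mono (by linarith) hx))
  · obtain ⟨e, e0, k⟩ := (B i).thick s0 C.s.opn
    refine ⟨e, e0, fun x hx => ?_⟩
    have k1 := k x (sk x hx.1) hx.2
    exact (B i).sk s0 (Pc.Q_mono (by linarith) k1) ⟨hx.1.1, w.cell C.s i.2 k1 ▸ hx.1.2⟩
  · have := mul_le_mul_of_nonneg_left ((B i).low z) s0.le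
    change _ ≤ d.s * ‖(d.P i).A z‖
    linarith only [this]
  · rw [q24] at hx
    rw [Pc.box_aff]
    exact (B i).close x ⟨sk x hx.1, Pc.Q_mono (by linarith) hx.2⟩
  · rw [q24] at ha hb
    rw [Pc.box_aff]
    exact (B i).rvar a b (SG0_edge w C.s i.2 he (Pc.Q_mono (by linarith) ha)
      (Pc.Q_mono (by linarith) hb)) ha hb
  · rw [q12] at hx
    rw [q16] at k2
    rw [Pc.box_aff]
    have := (B i).nohit x hx y hy (k1.imp_left (sk y)) k2
    linarith only [this, B, s0, mul_pos (B i).σ0.1 s0]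
  · rw [q12] at hx
    rw [Pc.box_aff, mem_closedBall_iff_norm] at hy
    obtain ⟨x', hx', k⟩ := SG0_near C i.2 hx
    refine (C.s.pc.sub i x' hx' y ?_).1
    linarith only [hy, k, norm_sub_le_norm_sub_add_norm_sub y ((d.P i).aff x) ((d.P i).aff x')]
  · rw [q12] at hx hy
    rw [Pc.box_aff, Pc.box_aff]
    obtain ⟨x', hx', k1⟩ := SG0_near C i.2 hx
    obtain ⟨y', hy', k2⟩ := SG0_near C j.2 hy
    have k3 := C.s.pc.sep j i (fun e => k (Subtype.ext e.symm)) y' hy' x' hx'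
    have k4 := norm_sub_le_norm_sub_add_norm_sub ((d.P j).aff y') ((d.P j).aff y) ((d.P i).aff x')
    have k5 := norm_sub_le_norm_sub_add_norm_sub ((d.P j).aff y) ((d.P i).aff x) ((d.P i).aff x')
    rw [norm_sub_rev ((d.P j).aff y') ((d.P j).aff y)] at k4
    linarith only [k1, k2, k3, k4, k5, B, s0, mul_pos (B j).σ0.1 s0]

theorem SG0_fin [Finite ι] (s : SIn p C1 g Cf K f d) : (d.Ec K').Finite :=
  (finite_iUnion fun i => Kx.cover (K := K') ((d.P i).Q_cpt (d.P i).ρ)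
    ((Pc.Q_mono (d.P i).ρ_le).trans (s.QS i))).subset fun _ ⟨h1, i, _, h2⟩ =>
      mem_iUnion.2 ⟨i, h1.1, (Kx.cells_ne h1.1).mono (subset_inter subset_rfl h2)⟩

theorem an_in [Finite ι] (C : SCt p C0 C1 g CT Cf K f d T u cm) (w : Wi p K K' f d u sc M ε h W) :
    AnIn K' f d.D p (d.Ec K') μH[1] := by
  have k : ⋃₀ d.Ec K' ⊆ d.Chs := sUnion_subset fun _ ⟨_, i, h1, h2⟩ _ hx => ⟨i, h1, h2 hx⟩
  refine ⟨C.s.opn, C.s.cont, C.s.inj, C.s.mD, fun a b he => w.bv (by linarith [C.p2.1]) C.s he,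
    SG0_fin C.s, fun _ h => h.1, fun a b he hE => ?_, acm_H1,
    ne_top_of_le_ne_top C.s.chs_meas.2 (measure_mono k),
    ne_top_of_le_ne_top C.s.ID_fin (lintegral_mono_set k)⟩
  obtain ⟨i, h1, h2⟩ := (ec_iff he).1 hE
  obtain ⟨j, hj⟩ := Finset.card_eq_one.1 h1
  rw [Pc.Q_seg hj (C.s.SSin_ρ i)] at h2
  exact (C.s.chd i j hj).ac.sub (h2 (left_mem_segment _ _ _)) (h2 (right_mem_segment _ _ _))

theorem vr_rig (s : SIn p C1 g Cf K f d) {i : ι} (hc : 2 ≤ (d.P i).I.card) {a b : Rn 3}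
    (he : K.Edge a b) (hq : segment ℝ a b ⊆ (d.P i).Q (d.P i).ρx) {G : Rn 3 → Rn 3}
    (e : EqOn G (d.P i).aff ((d.P i).Q (d.P i).ρx)) : vr G a b ≤ 2 * vr f a b := by
  have B := s.box i hc
  have s0 := s.s0
  have hq' := hq.trans (s.SSin_le i)
  have cl : ∀ x ∈ segment ℝ a b, ‖f x - (d.P i).aff x‖ ≤ (d.P i).tol (d.σ i) d.s := fun x hx =>
    B.close x ⟨Kx.sk_mono one_le_two (he.seg_sub hx), hq' hx⟩
  have h1 : vr G a b ≤ ENNReal.ofReal ‖(d.P i).A (b - a)‖ := by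
    rw [vr_congr (e.mono hq)]
    refine vr_lip fun t _ t' _ => le_of_eq ?_
    have : seg a b t - seg a b t' = (t - t') • (b - a) := by
      simp only [seg, sub_smul]
      abel
    rw [Pc.aff_sub, this, map_smul, norm_smul, Real.norm_eq_abs, mul_comm]
  have h2 : ‖(d.P i).A (b - a)‖ ≤ 2 * ‖f b - f a‖ := by
    have k1 := cl a (left_mem_segment _ _ _)
    have k2 := cl b (right_mem_segment _ _ _)
    have k3 := mul_le_mul_of_nonneg_left (B.len s0 he hq') B.σ0.1.le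
    have k4 := B.low (b - a)
    have k5 := norm_sub_le_norm_sub_add_norm_sub ((d.P i).aff b) (f b) ((d.P i).aff a)
    have k6 := norm_sub_le_norm_sub_add_norm_sub (f b) (f a) ((d.P i).aff a)
    rw [norm_sub_rev ((d.P i).aff b) (f b), Pc.aff_sub] at k5
    linarith only [k1, k2, k3, k4, k5, k6, B, s0, (B.tol_le s0).1, B.tol_pos s0]
  refine h1.trans ((ENNReal.ofReal_le_ofReal h2).trans ?_)
  rw [ENNReal.ofReal_mul zero_le_two, ENNReal.ofReal_ofNat, ofReal_norm]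
  exact mul_le_mul_right (vr_ge f a b) _

theorem SG0_m (C : SCt p C0 C1 g CT Cf K f d T u cm) (S : Scal g CT T sc (f '' Ω) d.P)
    (σ : Set (Rn 3)) : ∃ m, 0 < m ∧ (σ ∈ K'.cells → ∀ x ∈ σ, m ≤ sc (f x)) := by
  by_cases k : σ ∈ K'.cells
  · obtain ⟨y, hy, m⟩ := (Kx.cells_poly k).1.exists_isMinOn (Kx.cells_ne k).closure
      ((S.scl.cont (by norm_num)).comp_continuousOn (C.s.cont.mono (Kx.cl_sub k)))
    exact ⟨sc (f y), S.scl.pos _ ⟨y, Kx.cl_sub k hy, rfl⟩, fun _ x hx => m (subset_closure hx)⟩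
  · exact ⟨1, one_pos, fun m => absurd m k⟩

theorem gout_exists [Finite ι] (C : SCt p C0 C1 g CT Cf K f d T u cm)
    (S : Scal g CT T sc (f '' Ω) d.P) (w : Wi p K K' f d u sc M ε h W) (τ0 : ∀ σ, 0 < τ σ)
    {e : ℝ≥0∞} (he : e ≠ 0) : ∃ G ψ, GOut p K' f d sc τ e G ψ := by
  have s0 := C.s.s0
  have p0 : 0 < p := by linarith [C.p2.1]
  have B := fun i : {b // 2 ≤ (d.P b).I.card} => C.s.box i i.2
  choose m m0 hm using SG0_m (K' := K') C S
  obtain ⟨be, hb, hbe⟩ := be_exists K'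
  obtain ⟨G, O, h1, h2, -⟩ := top_anX (θ := fun σ => min (τ σ) (m σ)) (by linarith [C.p2.1])
    (an_in C w) (rig_in C w) (fun σ ⟨_, j, k1, k2⟩ i => by
      rw [SG0_Q (B i) 24 16 (by norm_num)]
      exact (C.s.disj j i fun c => by have := i.2; rw [← c] at this; omega).mono
        (k2.trans (Pc.Q_mono (by linarith only [s0, (d.P j).ρ_le]))) (Pc.Q_mono (by linarith)))
    (fun σ => lt_min (τ0 σ) (m0 σ)) hb he (S.scl.mono (by norm_num)) w.osc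
    (fun x hx => (min_le_right _ _).trans (hm _ (K'.cell_mem hx.1) x (K'.mem x hx.1)))
    fun i x hx => by
      rw [SG0_Q (B i) 12 4 (by norm_num)] at hx
      rw [Pc.box_aff]
      have := (C.sc_box S i.2 (Pc.Q_mono (by linarith) hx)).1
      have k := mul_nonneg (norm_nonneg ((d.P i).A : Rn 3 →L[ℝ] Rn 3)) s0.le
      change 17 * d.s * ‖((d.P i).A : Rn 3 →L[ℝ] Rn 3)‖ ≤ _
      linarith
  have q8 : ∀ i : {b // 2 ≤ (d.P b).I.card}, ((d.P i).box (d.r i)).Q d.s 8 = (d.P i).Q (d.P i).ρx :=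
    fun i => by rw [SG0_Q (B i) 8 0 (by norm_num), zero_mul, add_zero]
  have rig : ∀ b, 2 ≤ (d.P b).I.card → EqOn G (d.P b).aff ((d.P b).Q (d.P b).ρx) := fun b hc => by
    have := O.rig ⟨b, hc⟩
    rwa [q8, Pc.box_aff] at this
  obtain ⟨ψ, N, ψ1, ψ2, hN, ψ3, ψ4⟩ := O.core
  have mE : MeasurableSet (⋃₀ d.Ec K') := (SG0_fin C.s).measurableSet_sUnion fun σ k => by
    obtain ⟨a, b, -, rfl⟩ := Kx.dm_one k.1.1 k.1.2
    exact meas_oseg a b
  refine ⟨G, (⋃₀ d.Ec K').indicator fun y => ENNReal.ofReal (ψ y), O.ltp, O.inj, h1, rig, h2,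
    fun a b k1 k2 => ?_, ψ1.ennreal_ofReal.indicator mE, ?_, fun a b k1 k2 A c y => ?_⟩
  · by_cases k3 : ∃ i : {b // 2 ≤ (d.P b).I.card}, segment ℝ a b ⊆ ((d.P i).box (d.r i)).Q d.s 8
    · obtain ⟨i, k3⟩ := k3
      rw [q8] at k3
      have k4 := k3.trans (Pc.Q_mono (le_add_of_nonneg_right (by positivity : 0 ≤ 22 * d.s)))
      exact ((vr_rig C.s i.2 (SG0_edge w C.s i.2 k1 (k4 (left_mem_segment _ _ _))
        (k4 (right_mem_segment _ _ _))) k3 (rig i i.2)).trans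
          (mul_le_mul_left (by norm_num) _)).trans le_self_add
    · refine (vr_lip fun t ht t' ht' => hbe a b k1 t t' ▸ O.lin a b k1 (mt (ec_iff k1).1 k2)
        (not_exists.1 k3) _ (o_mem _ _ ht) _ (o_mem _ _ ht')).trans
          (ENNReal.ofReal_add_le.trans (add_le_add ?_ (ENNReal.ofReal_le_ofReal (min_le_left _ _))))
      rw [ENNReal.ofReal_mul (by norm_num), ENNReal.ofReal_ofNat]
      exact mul_le_mul_right ENNReal.ofReal_toReal_le _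
  · rw [← lintegral_indicator mE] at ψ3
    refine le_trans (lintegral_mono fun y => ?_) ψ3
    by_cases k : y ∈ ⋃₀ d.Ec K'
    · rw [indicator_of_mem k, indicator_of_mem k]
    · rw [indicator_of_notMem k, ENNReal.zero_rpow_of_pos p0]
      exact zero_le
  · have k3 := (ec_iff k1).2 k2
    refine (vr_core C.s.opn O.ltp k1.1 (k1.seg_sub.trans (K'.sk_sub 1)) hN (ψ4 a b k1 k3)
      A c y).trans (le_of_eq ?_)
    rw [← setLIntegral_congr Ioo_ae_eq_Icc, ← setLIntegral_congr Ioo_ae_eq_Icc]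
    exact setLIntegral_congr_fun measurableSet_Ioo fun t ht => by
      simp only [indicator_of_mem (subset_sUnion_of_mem k3 (o_memo a b ht))]

end BEp
end
end

-- merged part: Pool.Agent.Work.MP_f0515e_an.P3.SFc
section
/-! The energy of a face.
Plan.  Apply `FaceEn` to `Ψ ξ = 30 * (ofReal (u (φ ξ)) * γ ξ) + if d.Frz F then 0 else ofReal (cm * ‖M‖) * χ (φ ξ)`, `χ = ψ + d.Chs.indicator ‖D ·‖ₑ`.
Faces: `Cht.sub`, `HOut.face`, `SIn.not_In`, `h / (h / 16) = 16`; `(c.sub F').φ = c.φ` and `(c.sub F').U = c.φ ⁻¹' F'` hold by `rfl`.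
Edges: the segment lies in `closure F` (`Ch.Of.cl_eq`, `Ch.Of.cvx`); off the chords `All.edge` with `Γ t = ‖ξ' - ξ‖ₑ * γ (seg ξ ξ' t)` (`Wi.ug`, `lintegral_const_mul'`, `Ch.φ_seg`); on a chord `F` is not frozen (`frz_chd`), `All.cedge`, `Ch.φ_sub`, `le_opNorm`.
Then `add_rpow4`, `Wi.wire`, `Wi.chd`, `MOk` for `χ` (`All.chi`); with `C = C0 * 16 ^ 6`: `k1 = 16 * (30 * C)`, `256 ≤ 16 ^ p`, `Y_mul`. -/

open Set Metric Filter Topology Function BEv MeasureTheory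
open scoped NNReal ENNReal

noncomputable section
namespace BEp

variable {ι : Type} {Ω : Set (Rn 3)} {z : Dat Ω ι}

theorem SD.Y_mul (d : SD ι) {p k : ℝ} (hp : 0 < p) (hk : 0 ≤ k) (u : Rn 3 → ℝ) (F : Set (Rn 3)) :
    d.Y p (fun x => ENNReal.ofReal (k * u x)) F =
      ENNReal.ofReal k ^ p * d.Y p (fun x => ENNReal.ofReal (u x)) F := by
  have e : ∀ (a : ℝ) (b : ℝ≥0∞), (ENNReal.ofReal (k * a) * b) ^ p =
      ENNReal.ofReal k ^ p * (ENNReal.ofReal a * b) ^ p := fun a b => by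
    rw [ENNReal.ofReal_mul hk, mul_assoc, ENNReal.mul_rpow_of_nonneg _ _ hp.le]
  have t : ENNReal.ofReal k ^ p ≠ ⊤ := ENNReal.rpow_ne_top_of_nonneg hp.le ENNReal.ofReal_ne_top
  simp only [SD.Y, e, lintegral_const_mul' _ _ t]
  split_ifs
  · exact mul_left_comm _ _ _
  · rfl

theorem All.chi [Finite ι] (A : All z) :
    Measurable (fun y => z.ψ y + z.d.Chs.indicator (fun y => ‖z.d.D y‖ₑ) y) ∧
      ∫⁻ y, (z.ψ y + z.d.Chs.indicator (fun y => ‖z.d.D y‖ₑ) y) ^ z.p ∂μH[1] ≤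
        4 * (1 + z.d.ID z.p) := by
  obtain ⟨p2, p3⟩ := A.c.p2
  have p0 : 0 < z.p := by linarith
  refine ⟨A.g.mψ.add (A.c.s.mD.enorm.indicator A.c.s.chs_meas.1),
    (lintegral_mono fun y => add_rpow4 (by linarith) p3.le _ _).trans ?_⟩
  rw [lintegral_const_mul' _ _ (by norm_num), lintegral_add_left (A.g.mψ.pow_const _)]
  gcongr
  · exact A.g.int.trans A.e1
  · rw [SD.ID, ← lintegral_indicator A.c.s.chs_meas.1]
    refine lintegral_mono fun y => ?_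
    by_cases hy : y ∈ z.d.Chs
    · simp only [indicator_of_mem hy, le_refl]
    · simp only [indicator_of_notMem hy, ENNReal.zero_rpow_of_pos p0, le_refl]

theorem All.face [Finite ι] (A : All z) {F : Set (Rn 3)} (hF : F ∈ z.K.cel 2) (hr : ¬ z.d.Rig F)
    {δ : ℝ} (E : FaceEn z.p (z.C0 * 16 ^ 6) (z.cm + 1) z.K' (z.d.ch F) (z.h F) (z.W F) δ (z.ε F))
    (hτ : ∀ σ ∈ z.K'.cells, σ ⊆ closure F → z.τ σ ≤ δ) :
    (z.d.ch F).E z.p z.H ≤ z.d.Y z.p (fun x => ENNReal.ofReal (k1 z.C0 * z.u x)) F +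
      (2 * ENNReal.ofReal (k1 z.C0) ^ z.p + 1) * z.ε F := by
  classical
  obtain ⟨p2, p3⟩ := A.c.p2
  have p0 : 0 < z.p := by linarith
  have p1 : 1 ≤ z.p := by linarith
  have s := A.c.s
  obtain ⟨hc, -, hγ, -⟩ := s.face F hF
  obtain ⟨mχ, iχ⟩ := A.chi
  set c := z.d.ch F with ec
  set χ : Rn 3 → ℝ≥0∞ := fun y => z.ψ y + z.d.Chs.indicator (fun y => ‖z.d.D y‖ₑ) y with eχ
  have h0 := (A.w.sbd F hF).h0
  have cm0 : 0 ≤ z.cm := by linarith [A.c.ub 0]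
  have nI : ∀ σ ∈ z.K'.cells, σ ⊆ closure F → ∀ i, ¬ σ ⊆ (z.d.P i).In := fun σ hσ hs i hh => by
    obtain ⟨x, hx⟩ := Kx.cells_ne hσ
    exact s.not_In hF hr (hs hx) (hh hx)
  let a : Rn 2 → ℝ≥0∞ := fun ξ => ENNReal.ofReal (z.u (c.φ ξ)) * z.d.γ F ξ
  let b : Rn 2 → ℝ≥0∞ := fun ξ =>
    if z.d.Frz F then 0 else ENNReal.ofReal (z.cm * ‖c.M‖) * χ (c.φ ξ)
  have ma : Measurable a := (A.c.mu.comp c.cont.measurable).ennreal_ofReal.mul hγ.mγ
  have mb : Measurable b := by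
    by_cases hz : z.d.Frz F
    · simp only [b, if_pos hz, measurable_const]
    · simp only [b, if_neg hz]
      exact (mχ.comp c.cont.measurable).const_mul _
  have key := E z.H z.sp z.τ (fun ξ => 30 * a ξ + b ξ) ((ma.const_mul _).add mb)
    (by rw [hc.2.2]; exact hτ) (fun F' hF' hs ψ mψ hψ => ?_) (fun ξ ξ' he h1 h2 => ?_)
  · have hb : ENNReal.ofReal (z.h F) * ∫⁻ ξ in c.S (z.W F), b ξ ^ z.p ∂μH[1] ≤ z.ε F := by
      by_cases hz : z.d.Frz F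
      · simp only [b, if_pos hz, ENNReal.zero_rpow_of_pos p0, lintegral_zero, mul_zero, zero_le]
      · simp only [b, if_neg hz]
        exact (mul_le_mul_right ((setLIntegral_le_lintegral _ _).trans (A.m F hF χ mχ iχ)) _).trans
          (A.w.chd F hF hz)
    have t30 : (30 : ℝ≥0∞) ^ z.p ≠ ⊤ := ENNReal.rpow_ne_top_of_nonneg p0.le (by norm_num)
    have hab : ENNReal.ofReal (z.h F) * ∫⁻ ξ in c.S (z.W F), (30 * a ξ + b ξ) ^ z.p ∂μH[1] ≤
        4 * (30 ^ z.p * (4 * z.d.Y z.p (fun x => ENNReal.ofReal (z.u x)) F + z.ε F) + z.ε F) := by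
      refine (mul_le_mul_right (lintegral_mono fun ξ => add_rpow4 p1 p3.le _ _) _).trans ?_
      simp only [ENNReal.mul_rpow_of_nonneg 30 _ p0.le]
      rw [lintegral_const_mul' _ _ (by norm_num), lintegral_add_right _ (mb.pow_const _),
        lintegral_const_mul' _ _ t30, mul_left_comm, mul_add, mul_left_comm]
      gcongr
      exact A.w.wire F hF
    have C0 : 0 ≤ z.C0 := by linarith [A.c.C01]
    rw [SD.Y_mul _ p0 (by unfold k1; positivity)]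
    have hk : 256 * (30 ^ z.p * ENNReal.ofReal (z.C0 * 16 ^ 6) ^ z.p) ≤
        ENNReal.ofReal (k1 z.C0) ^ z.p := by
      rw [show k1 z.C0 = 16 * (30 * (z.C0 * 16 ^ 6)) by unfold k1; ring,
        ENNReal.ofReal_mul (p := 16) (by norm_num), ENNReal.ofReal_mul (p := 30) (by norm_num),
        ENNReal.ofReal_ofNat, ENNReal.ofReal_ofNat, ENNReal.mul_rpow_of_nonneg _ _ p0.le,
        ENNReal.mul_rpow_of_nonneg _ _ p0.le]
      gcongr
      calc (256 : ℝ≥0∞) = 16 ^ (2 : ℝ) := by norm_num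
        _ ≤ _ := ENNReal.rpow_le_rpow_of_exponent_le (by norm_num) p2
    have h30 : (1 : ℝ≥0∞) ≤ 30 ^ z.p := ENNReal.one_le_rpow (by norm_num) p0
    refine key.trans ((add_le_add_left (mul_le_mul_right hab _) _).trans ?_)
    generalize ENNReal.ofReal (k1 z.C0) ^ z.p = k at hk ⊢
    generalize ENNReal.ofReal (z.C0 * 16 ^ 6) ^ z.p = P at hk ⊢
    generalize (30 : ℝ≥0∞) ^ z.p = T at hk h30 ⊢
    have k1 : 64 * (T * P) ≤ k := le_trans (by gcongr; norm_num) hk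
    have k2 : 64 * P ≤ k := le_trans (by gcongr; exact le_mul_of_one_le_left' h30) k1
    calc _ = 256 * (T * P) * z.d.Y z.p (fun x => ENNReal.ofReal (z.u x)) F +
          (64 * (T * P) + 64 * P + 1) * z.ε F := by ring
      _ ≤ _ := by rw [two_mul]; gcongr
  · rw [hc.2.2] at hs
    obtain ⟨e1, e2, e3⟩ := A.t.sub F hF hr F' hF' hs
    have := A.o.face F' hF' (nI F' hF'.1 (hs.trans subset_closure)) ψ mψ (by rw [e1]; exact hψ)
    rwa [e1, e2, e3, show z.h F / (z.h F / 16) = 16 by field_simp] at this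
  · have sg : segment ℝ (c.φ ξ) (c.φ ξ') ⊆ closure F :=
      (Kx.cells_cvx hF.1).closure.segment_subset (hc.cl_eq ▸ mem_image_of_mem _ h1)
        (hc.cl_eq ▸ mem_image_of_mem _ h2)
    rw [← lintegral_const_mul' _ _ enorm_ne_top]
    by_cases hd : z.d.Chd (c.φ ξ) (c.φ ξ')
    · have sC : segment ℝ (c.φ ξ) (c.φ ξ') ⊆ z.d.Chs := fun x hx =>
        hd.imp fun i hi => ⟨hi.1, hi.2 hx⟩
      have hz : ¬ z.d.Frz F := fun hz =>
        s.frz_chd hz (sg (left_mem_segment _ _ _)) (sC (left_mem_segment _ _ _))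
      refine (A.cedge he hd).trans (add_le_add_left ?_ _)
      rw [← lintegral_const_mul' _ _ enorm_ne_top,
        ← lintegral_const_mul' _ _ ENNReal.ofReal_ne_top]
      refine setLIntegral_mono' measurableSet_Icc fun t ht => ?_
      have m : seg (c.φ ξ) (c.φ ξ') t ∈ z.d.Chs := sC (seg_image _ _ ▸ mem_image_of_mem _ ht)
      refine le_trans ?_ (mul_le_mul_right le_add_self _)
      simp only [b, if_neg hz, eχ, c.φ_seg, indicator_of_mem m]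
      rw [c.φ_sub, ENNReal.ofReal_mul cm0, ofReal_norm]
      calc _ ≤ ENNReal.ofReal z.cm * (‖c.M‖ₑ * ‖ξ' - ξ‖ₑ * _) := by
            gcongr
            exact c.M.le_opENorm _
        _ = _ := by ring
    · refine (A.edge he (nI _ he.2 ((openSegment_subset_segment _ _ _).trans sg)) hd
        (Γ := fun t => ‖ξ' - ξ‖ₑ * z.d.γ F (seg ξ ξ' t))
        (by rw [lintegral_const_mul' _ _ enorm_ne_top]; exact (A.w.ug p1 s hF he h1 h2).2)).trans
        (add_le_add_left (lintegral_mono fun t => ?_) _)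
      refine le_trans (le_of_eq ?_) (mul_le_mul_right le_self_add _)
      simp only [a, c.φ_seg]
      ring

end BEp
end
end

-- merged part: Pool.Agent.Work.MP_f0515e_an.P3.SLip
section
/-! The Lipschitz bound on the barrier.
Plan.  `All.sp_rig`: `HOut.edge` with `x = a`, `y = G a = aff a` (`GOut.rig`, `GOut.sub`, `TSOk.l0`); `T.c y ≤ CT A` by `TSOk.cb`, `PcIn.mono`, `PcIn.uniq`, `Pc.Bx_sub`; `vr_congr`, `vr_lip`, `Pc.aff_le`; `τ ≤ s ≤ ‖b - a‖` (`Wi.cells`, `BoxIn.len`).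
`All.lip_face`: `F ∈ K'.cel 2` (`Wi.cells`), `Cht.iso`, `Cht.chart`, `HOut.lip` with `L = CT ‖A‖ + 1`; `closure F` misses all `In i` (`Pc.In_open`, `Pc.Bx_not`, `SIn.disj`); `Ch.Of.cl_eq`, `Ch.φ_sub`, `τ ≤ 1`; pass to the closure by `LTP.continuousOn` (`LipschitzOnWith.closure`-like, or `closure_prod_eq` and `ContinuousWithinAt.closure_le`).
`All.lip`: `lip_cover` with the closures of the faces in `Bx` (`BoxIn.cover`, `Kx.cover`, `Pc.Q_cpt`). -/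

open Set Metric Filter Topology Function BEv MeasureTheory
open scoped NNReal ENNReal

noncomputable section
namespace BEp

variable {ι : Type} {Ω : Set (Rn 3)} {z : Dat Ω ι}

theorem All.sp_rig (A : All z) {i : ι} (hc : 2 ≤ (z.d.P i).I.card) {a b : Rn 3}
    (he : z.K'.Edge a b) (hI : ∀ i, ¬ openSegment ℝ a b ⊆ (z.d.P i).In)
    (hq : segment ℝ a b ⊆ (z.d.P i).Q (z.d.P i).ρx) : z.sp (openSegment ℝ a b) ≤
      (z.CT (z.d.P i).A * ‖((z.d.P i).A : Rn 3 →L[ℝ] Rn 3)‖ + 1) * ‖b - a‖ := by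
  have s0 := A.c.s.s0
  have ha : a ∈ (z.d.P i).Q (z.d.P i).ρx := hq (left_mem_segment ℝ a b)
  have hy : z.G a ∈ z.f '' Ω := A.g.sub ⟨a, A.c.s.QS i ha, rfl⟩
  have e : z.G a = (z.d.P i).aff a := A.g.rig i hc ha
  have h1 := (A.o.edge a b he hI).2 (z.G a) hy ⟨a, left_mem_segment ℝ a b, by
    rw [sub_self, norm_zero]
    linarith only [A, hy, A.c.t.l0 _ hy]⟩
  have c1 : 1 ≤ z.CT (z.d.P i).A := A.c.C01.trans (A.c.CT1 _).1
  have h2 : z.T.c (z.G a) ≤ z.CT (z.d.P i).A := by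
    rcases A.c.t.cb _ hy with h | ⟨j, ⟨x, hx, k⟩, h⟩
    · exact h.trans (A.c.CT1 _).1
    · have : j = i := (A.c.s.pc.mono fun B => (A.c.CT1 B).2).uniq ((z.d.P j).Bx_sub hx) ha k (by
        rw [e, sub_self, norm_zero]
        exact mul_nonneg (by linarith) (z.d.P i).l0.le)
      rwa [this] at h
  have h3 : vr z.G a b ≤ ENNReal.ofReal (‖((z.d.P i).A : Rn 3 →L[ℝ] Rn 3)‖ * ‖b - a‖) := by
    rw [vr_congr ((A.g.rig i hc).mono hq)]
    apply vr_lip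
    intro s _ s' _
    refine ((z.d.P i).aff_le _ _).trans (le_of_eq ?_)
    have : seg a b s - seg a b s' = (s - s') • (b - a) := by
      simp only [seg, sub_smul]
      abel
    rw [this, norm_smul, Real.norm_eq_abs]
    ring
  have he' : z.K.Edge a b := ⟨he.1, (A.w.cells A.c.s hc (((openSegment_subset_segment ℝ a b).trans
    hq).trans (Pc.Q_mono (by linarith)))).1 he.2⟩
  have h4 := (A.c.s.box i hc).len s0 he' (hq.trans (Pc.Q_mono (by linarith)))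
  have t := A.τ0 (openSegment ℝ a b)
  have n0 : 0 ≤ ‖((z.d.P i).A : Rn 3 →L[ℝ] Rn 3)‖ * ‖b - a‖ := by positivity
  have h5 : ENNReal.ofReal (z.sp (openSegment ℝ a b)) ≤ ENNReal.ofReal
      ((z.CT (z.d.P i).A * ‖((z.d.P i).A : Rn 3 →L[ℝ] Rn 3)‖ + 1) * ‖b - a‖) := by
    refine h1.trans ((add_le_add (mul_le_mul' (ENNReal.ofReal_le_ofReal h2) h3) le_rfl).trans ?_)
    rw [← ENNReal.ofReal_mul (by linarith), ← ENNReal.ofReal_add (mul_nonneg (by linarith) n0) t.1.le]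
    apply ENNReal.ofReal_le_ofReal
    linarith only [s0, h4, t, t.2.2]
  exact (ENNReal.ofReal_le_ofReal_iff (by positivity)).1 h5

theorem All.lip_face (A : All z) {i : ι} (hc : 2 ≤ (z.d.P i).I.card) {F : Set (Rn 3)}
    (hF : F ∈ z.K.cel 2) (hB : F ⊆ (z.d.P i).Bx) : ∀ x ∈ closure F, ∀ x' ∈ closure F,
      ‖z.H x - z.H x'‖ ≤ k2 z.C0 (z.CT (z.d.P i).A) (z.d.P i).A * ‖x - x'‖ := by
  have s0 := A.c.s.s0
  have hQ : F ⊆ (z.d.P i).Q (z.d.P i).ρx := hB.trans (z.d.P i).Bx_sub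
  have hF' : F ∈ z.K'.cel 2 :=
    ⟨(A.w.cells A.c.s hc (hQ.trans (Pc.Q_mono (by linarith only [s0])))).2 hF.1, hF.2⟩
  obtain ⟨e, hM⟩ := A.t.iso F hF' ⟨i, hc, hQ⟩
  obtain ⟨hO, hR⟩ := A.t.chart F hF'
  have hcl : closure F ⊆ (z.d.P i).Q (z.d.P i).ρx :=
    closure_minimal hQ ((z.d.P i).Q_cpt _).isClosed
  have hI : ∀ j, ∀ x ∈ closure F, x ∉ (z.d.P j).In := by
    intro j x hx hj
    obtain ⟨y, h1, h2⟩ := mem_closure_iff.1 hx _ (z.d.P j).In_open hj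
    by_cases k : j = i
    · subst k
      exact Pc.Bx_not (hB h2) h1
    · exact disjoint_left.1 (A.c.s.disj j i k)
        (Pc.Q_mono (by linarith only [s0, (z.d.P j).ρ_le]) ((z.d.P j).In_sub h1))
        (Pc.Q_mono (by linarith) (hQ h2))
  have c1 : 1 ≤ z.CT (z.d.P i).A := A.c.C01.trans (A.c.CT1 _).1
  have hφ : ∀ ξ η, ‖(z.ch F).φ ξ - (z.ch F).φ η‖ = ‖ξ - η‖ := fun ξ η => by
    rw [Ch.φ_sub, hM]
  have h1 := A.o.lip F hF' (fun j k => by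
      obtain ⟨x, hx⟩ := Kx.cells_ne hF.1
      exact hI j x (subset_closure hx) (k hx))
    (z.CT (z.d.P i).A * ‖((z.d.P i).A : Rn 3 →L[ℝ] Rn 3)‖ + 1) (by positivity) (by
      intro ξ ξ' he k k'
      have hs : segment ℝ ((z.ch F).φ ξ) ((z.ch F).φ ξ') ⊆ closure F :=
        (Kx.cells_cvx hF.1).closure.segment_subset (hO.cl_eq ▸ mem_image_of_mem _ k)
          (hO.cl_eq ▸ mem_image_of_mem _ k')
      rw [← hφ]
      refine A.sp_rig hc he (fun j m => ?_) (hs.trans hcl)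
      obtain ⟨x, hx⟩ := Kx.cells_ne he.2
      exact hI j x (hs (openSegment_subset_segment ℝ _ _ hx)) (m hx))
  have h2 : ∀ x ∈ F, ∀ x' ∈ F,
      ‖z.H x - z.H x'‖ ≤ k2 z.C0 (z.CT (z.d.P i).A) (z.d.P i).A * ‖x - x'‖ := by
    rw [← hO.2.2]
    rintro _ ⟨ξ, k, rfl⟩ _ ⟨ξ', k', rfl⟩
    refine (h1 ξ k ξ' k').trans ?_
    rw [hφ, ← e, div_self hR.1.ne', one_pow, mul_one]
    apply mul_le_mul_of_nonneg_right _ (norm_nonneg _)
    unfold k2
    linarith [(A.τ0 F).2.1]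
  have hH : ContinuousOn z.H (closure F) :=
    (A.o.ltp.continuousOn A.c.s.opn).mono (Kx.cl_sub hF.1)
  intro x hx
  refine le_on_closure (f := fun x' => ‖z.H x - z.H x'‖)
    (g := fun x' => k2 z.C0 (z.CT (z.d.P i).A) (z.d.P i).A * ‖x - x'‖) (fun x' hx' => ?_)
    (continuousOn_const.sub hH).norm (by fun_prop)
  exact le_on_closure (f := fun x => ‖z.H x - z.H x'‖)
    (g := fun x => k2 z.C0 (z.CT (z.d.P i).A) (z.d.P i).A * ‖x - x'‖) (fun x hx => h2 x hx x' hx')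
    (hH.sub continuousOn_const).norm (by fun_prop) hx

theorem All.lip (A : All z) {i : ι} (hc : 2 ≤ (z.d.P i).I.card) : ∀ W ⊆ (z.d.P i).Bx,
    Convex ℝ W → ∀ x ∈ W, ∀ x' ∈ W,
      ‖z.H x - z.H x'‖ ≤ k2 z.C0 (z.CT (z.d.P i).A) (z.d.P i).A * ‖x - x'‖ := by
  intro W hW hv
  refine lip_cover hv (𝒞 := closure '' {F | F ∈ z.K.cel 2 ∧ F ⊆ (z.d.P i).Bx}) ?_ ?_ ?_ ?_
  · refine ((Kx.cover (K := z.K) ((z.d.P i).Q_cpt _) (A.c.s.QS i)).subset ?_).image _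
    rintro F ⟨hF, hB⟩
    obtain ⟨x, hx⟩ := Kx.cells_ne hF.1
    exact ⟨hF.1, x, hx, (z.d.P i).Bx_sub (hB hx)⟩
  · rintro _ ⟨F, -, rfl⟩
    exact isClosed_closure
  · intro x hx
    obtain ⟨F, hF, hB, k⟩ := (A.c.s.box i hc).cover A.c.s.s0 (A.c.s.pc.ok i) hc (hW hx)
    exact ⟨_, ⟨F, ⟨hF, hB⟩, rfl⟩, k⟩
  · rintro _ ⟨F, ⟨hF, hB⟩, rfl⟩ x hx y hy
    exact A.lip_face hc hF hB x hx.1 y hy.1

end BEp
end
end

-- merged part: Pool.Agent.Work.MP_f0515e_an.P3.SMid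
section
/-! The embedding before the cone extension. -/

open Set Metric Filter Topology Function BEv MeasureTheory
open scoped NNReal ENNReal

noncomputable section
namespace BEp

variable {ι : Type} {Ω : Set (Rn 3)} {K : Kx Ω} {f : Rn 3 → Rn 3} {d : SD ι} {p C0 C1 g cm : ℝ}
  {CT Cf : (Rn 3 ≃L[ℝ] Rn 3) → ℝ} {T : TS} {u : Rn 3 → ℝ}

theorem SMid_wt (K : Kx Ω) (hΩ : IsOpen Ω) {ω : Set (Rn 3) → ℝ≥0∞} (Z : Set (Rn 3) → Prop)
    (hω : ∀ F ∈ K.cel 2, ω F ≠ ⊤) {κ e : ℝ≥0∞} (hκ : κ ≠ ⊤) (he : e ≠ 0) :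
    ∃ ε : Set (Rn 3) → ℝ≥0∞, (∀ F, ε F ≠ 0) ∧
      ∑' F : {F // F ∈ K.cel 2 ∧ Z F}, ω F * (κ * ε F) ≤ e := by
  classical
  obtain ⟨ε, h0, h1⟩ := K.exists_eps hΩ he
  refine ⟨fun F => if ω F = ⊤ then 1 else ε F / (ω F * κ), fun F => ?_, le_trans ?_ h1⟩
  · dsimp only
    split_ifs with k
    · exact one_ne_zero
    · exact ENNReal.div_ne_zero.2 ⟨h0 F, ENNReal.mul_ne_top k hκ⟩
  · refine le_trans (ENNReal.tsum_le_tsum fun F => ?_) (ENNReal.tsum_comp_le_tsum_of_injective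
      (f := fun F : {F // F ∈ K.cel 2 ∧ Z F} => (⟨F.1, F.2.1.1⟩ : K.cells))
      (fun F F' k => Subtype.ext (congrArg (fun x : K.cells => x.1) k)) fun σ => ε σ)
    dsimp only
    rw [if_neg (hω _ F.2.1), ← mul_assoc]
    exact ENNReal.mul_div_le

theorem SMid_min {α : Type} [Finite α] {δ : α → ℝ} (h : ∀ a, 0 < δ a) :
    ∃ c, 0 < c ∧ ∀ a, c ≤ δ a := by
  obtain ⟨τ, h1, h2⟩ := exists_tau (Rl := fun (_ : α) (_ : Unit) => True) (fun _ => toFinite _) h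
  exact ⟨τ (), h1 _, fun a => h2 a () trivial⟩

theorem SMid_e {α : Type} [Finite α] (k : α → ℝ) {e : ℝ≥0∞} (he : e ≠ 0) :
    ∃ e' : ℝ≥0∞, e' ≠ 0 ∧ e' ≤ 1 ∧ ∀ a, ENNReal.ofReal (k a) * e' ≤ e := by
  choose δ h1 _ h3 using fun a => small_mul (k := ENNReal.ofReal (k a)) ENNReal.ofReal_ne_top he
  obtain ⟨c, c0, c1⟩ := SMid_min h1
  refine ⟨ENNReal.ofReal (min c 1), (ENNReal.ofReal_pos.2 (lt_min c0 one_pos)).ne',
    ENNReal.ofReal_le_one.2 (min_le_right _ _), fun a => le_trans ?_ (h3 a)⟩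
  gcongr
  exact (min_le_left _ _).trans (c1 a)

theorem mid [Finite ι] (C : SCt p C0 C1 g CT Cf K f d T u cm) {e : ℝ≥0∞} (he : e ≠ 0) :
    ∃ H, MOut p C0 g CT K f d u e H := by
  classical
  have s := C.s
  have hΩ := s.opn
  obtain ⟨p2, p3⟩ := C.p2
  have p1 : 1 ≤ p := by linarith
  have cm1 : 1 ≤ cm := (C.ub 0).1.trans (C.ub 0).2
  have e2 : e / 2 ≠ 0 := ENNReal.div_ne_zero.2 ⟨he, ENNReal.ofNat_ne_top⟩
  obtain ⟨sc, S⟩ := scal_exists C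
  obtain ⟨M, M1, M2⟩ := s.exists_M (by linarith) cm
  obtain ⟨ε, ε0, ε1⟩ := SMid_wt K hΩ (fun F => ¬ d.Rig F) (fun F hF => (s.face F hF).2.2.2)
    (κ := 2 * ENNReal.ofReal (k1 C0) ^ p + 1) (by finiteness) e2
  obtain ⟨K', h, W, w⟩ := wi_exists C S M1 ε0
  have f1 : ∀ F, ∃ δ > 0, F ∈ K.cel 2 →
      FaceEn p (C0 * 16 ^ 6) (cm + 1) K' (d.ch F) (h F) (W F) δ (ε F) := fun F => by
    by_cases hF : F ∈ K.cel 2
    · obtain ⟨δ, a, b⟩ := face_en p1 p3.le (cm := cm + 1) (by linarith) (C0 * 16 ^ 6) hF w.ref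
        (s.face F hF).1 (w.sbd F hF) (ε0 F)
      exact ⟨δ, a, fun _ => b⟩
    · exact ⟨1, one_pos, fun k => (hF k).elim⟩
  choose δ1 δ10 δ11 using f1
  obtain ⟨εe, εe0, -, εe1⟩ := small_mul (k := ∑ q ∈ d.Ed, d.ωe q)
    (ENNReal.sum_ne_top.2 fun q hq => (s.edge q hq).2.2.2.1) e2
  have f2 : ∀ q : d.Ed, ∃ (J : Finset (ℝ × ℝ)) (δ : ℝ), 0 < δ ∧ Prt 0 1 J ∧
      (∀ x ∈ J, K'.Edge (q.1.1 + x.1 • (q.1.2 - q.1.1)) (q.1.1 + x.2 • (q.1.2 - q.1.1))) ∧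
      En1 p 0 1 J δ (ENNReal.ofReal εe) := fun q => by
    have k := (s.edge q q.2).1
    obtain ⟨J, a, b⟩ := seg_part (K := K') q.1.1 (q.1.2 - q.1.1) (sub_ne_zero.2 k.1.symm)
      (α := 0) (β := 1) (fun t ht => (k.seg_sub (o_mem _ _ ht)).1) fun t ht y hy => by
        have m := o_memo q.1.1 q.1.2 ht
        have := w.ref _ (Kx.cells_sub k.2 m) hy
        rw [Kx.cell_eq k.2 m, ← seg_image_open] at this
        exact image_mono Ioo_subset_Icc_self this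
    obtain ⟨δ, c, c'⟩ := en1 p1 p3.le a (ENNReal.ofReal_pos.2 εe0).ne'
    exact ⟨J, δ, c, a, b, c'⟩
  choose J2 δ2 δ20 J21 J22 J23 using f2
  have f3 : ∀ q : ι × Fin 3, ∃ (J : Finset (ℝ × ℝ)) (δ : ℝ), 0 < δ ∧ ((d.P q.1).I = {q.2} →
      Prt (-(d.P q.1).ρ) (d.P q.1).ρ J ∧
      (∀ x ∈ J, K'.Edge ((d.P q.1).pt q.2 x.1) ((d.P q.1).pt q.2 x.2)) ∧
      Ch1 p g (CT (d.P q.1).A) (-(d.P q.1).ρ) (d.P q.1).ρ ((d.P q.1).A (Pi.single q.2 1)) J δ
        (e / 2)) := fun q => by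
    by_cases hq : (d.P q.1).I = {q.2}
    · have k := s.chd _ _ hq
      have m : ∀ t ∈ Icc (-(d.P q.1).ρ) (d.P q.1).ρ, (d.P q.1).pt q.2 t ∈ (d.P q.1).Q (d.P q.1).ρ :=
        fun t ht => Pc.Q_one hq _ ▸ mem_image_of_mem _ ht
      obtain ⟨J, a, b⟩ := seg_part (K := K') (d.P q.1).c (Pi.single q.2 1) (by simp)
        (fun t ht => k.QS (m t ht)) fun t ht y hy => by
          have m' := m t (Ioo_subset_Icc_self ht)
          have := k.cel _ m' (w.ref _ (k.QS m') hy)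
          rwa [Pc.Q_one hq] at this
      obtain ⟨δ, c, c'⟩ := chd1 p2 p3.le C.g0.1 C.g0.2
        (c := CT (d.P q.1).A) (by linarith [C.C01, (C.CT1 (d.P q.1).A).1])
        ((d.P q.1).A (Pi.single q.2 1)) a e2
      exact ⟨J, δ, c, fun _ => ⟨a, b, c'⟩⟩
    · exact ⟨∅, 1, one_pos, fun k => (hq k).elim⟩
  choose J3 δ3 δ30 J31 using f3
  obtain ⟨c2, c20, c21⟩ := SMid_min δ20
  obtain ⟨c3, c30, c31⟩ := SMid_min δ30
  obtain ⟨τ1, τ10, τ11⟩ := exists_tau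
    (Rl := fun F σ : Set (Rn 3) => F ∈ K.cel 2 ∧ σ ∈ K'.cells ∧ σ ⊆ closure F) (fun σ => by
      by_cases hσ : σ ∈ K'.cells
      · obtain ⟨x, hx⟩ := Kx.cells_ne hσ
        exact (Kx.lf_cl (K := K) hΩ isCompact_singleton
          (singleton_subset_iff.2 (Kx.cells_sub hσ hx))).subset fun F k => ⟨k.1.1, x, k.2.2 hx, rfl⟩
      · exact finite_empty.subset fun F k => hσ k.2.1) δ10
  obtain ⟨τ, τ0, t1, t2, t3, t4, t5⟩ : ∃ τ : Set (Rn 3) → ℝ, (∀ σ, 0 < τ σ) ∧ (∀ σ, τ σ ≤ τ1 σ) ∧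
      (∀ σ, τ σ ≤ c2 / (cm + 1)) ∧ (∀ σ, τ σ ≤ c3) ∧ (∀ σ, τ σ ≤ 1) ∧ ∀ σ, τ σ ≤ d.s := by
    refine ⟨fun σ => min (τ1 σ) (min (c2 / (cm + 1)) (min c3 (min 1 d.s))), fun σ => ?_, ?_⟩
    · have := τ10 σ
      have := s.s0
      positivity
    · simp only [min_le_iff, le_refl, true_or, or_true, implies_true, and_self]
  obtain ⟨e', e'0, e'1, e'2⟩ := SMid_e (fun b => k3 g (CT (d.P b).A) (d.P b).A) e2
  obtain ⟨G, ψ, o⟩ := gout_exists C S w τ0 e'0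
  obtain ⟨ch, r, R, t⟩ := cht_exists s w
  obtain ⟨H, sp, O⟩ := C.t.top Ω K' G ch r R τ (hin C S w o t τ0)
  have A : All ⟨p, C0, C1, g, CT, Cf, K, K', f, d, T, u, cm, sc, M, ε, h, W, τ, e', G, ψ, ch, r, R,
    H, sp⟩ := ⟨C, S, w, o, t, O, fun σ => ⟨τ0 σ, t4 σ, t5 σ⟩, e'1, M2⟩
  refine ⟨H, O.ltp, O.inj, fun x hx hI => A.mv hx hI, ?_, O.bar, fun b hb => A.lip hb,
    fun b j hj => ?_⟩
  · have a1 := ENNReal.tsum_le_tsum fun F : {F // F ∈ K.cel 2 ∧ ¬ d.Rig F} =>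
      mul_le_mul_right (A.face F.2.1 F.2.2 (δ11 F F.2.1) fun σ k k' =>
        (t1 σ).trans (τ11 _ _ ⟨F.2.1, k, k'⟩)) (d.ω F)
    have a2 := Finset.sum_le_sum fun q (hq : q ∈ d.Ed) =>
      mul_le_mul_right (A.ed hq (J21 ⟨q, hq⟩) (J22 ⟨q, hq⟩) (J23 ⟨q, hq⟩) fun σ =>
        le_trans ((le_div_iff₀' (by linarith)).1 (t2 σ)) (c21 _)) (d.ωe q)
    simp only [mul_add, ENNReal.tsum_add, Finset.sum_add_distrib, ← Finset.sum_mul] at a1 a2
    refine (add_le_add a1 a2).trans ?_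
    rw [add_add_add_comm, ← ENNReal.add_halves e]
    exact add_le_add_right (add_le_add ε1 εe1) _
  · obtain ⟨a, b', c⟩ := J31 (b, j) hj
    exact (A.chd hj a b' c fun σ => (t3 σ).trans (c31 _)).trans (add_le_add_right
      ((add_le_add_right (e'2 b) _).trans_eq (ENNReal.add_halves e)) _)

end BEp
end
end
end

-- merged part: Pool.Agent.Work.MP_f0515e_an.P2.QMain
section
-- merged part: Pool.Agent.Work.MP_f0515e_an.P3.SMain
section
/-! EXPORT: the theorem on the two skeleton follows from the exchange theorem. -/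

open Set Metric Filter Topology Function BEv MeasureTheory
open scoped NNReal ENNReal

noncomputable section
namespace BEp

theorem SMain_E {c : Ch} {F : Set (Rn 3)} (h : c.Of F) {G H : Rn 3 → Rn 3} (e : EqOn G H F)
    (p : ℝ) : c.E p G = c.E p H := by
  refine setLIntegral_congr_fun h.2.1.measurableSet fun ξ hξ => ?_
  have : G ∘ c.φ =ᶠ[𝓝 ξ] H ∘ c.φ := by
    filter_upwards [h.2.1.mem_nhds hξ] with η hη
    exact e (h.2.2 ▸ mem_image_of_mem _ hη)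
  simp only [this.fderiv_eq]

theorem SMain_I {a b : ℝ} {k k' : ℝ → Rn 3} (e : EqOn k k' (Ioo a b)) (Φ : Rn 3 → ℝ≥0∞) :
    ∫⁻ t in Icc a b, Φ (deriv k t) = ∫⁻ t in Icc a b, Φ (deriv k' t) := by
  rw [← restrict_Ioo_eq_restrict_Icc]
  refine setLIntegral_congr_fun measurableSet_Ioo fun t ht => ?_
  simp only [(e.eventuallyEq_of_mem (isOpen_Ioo.mem_nhds ht)).deriv_eq]

theorem surf2N {p : ℝ} (hT : TopH p) (h2 : 2 ≤ p) (h3 : p < 3) :
    ∃ (C1 : ℝ) (Cf : (Rn 3 ≃L[ℝ] Rn 3) → ℝ) (Cg : ℝ → (Rn 3 ≃L[ℝ] Rn 3) → ℝ), 1 ≤ C1 ∧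
    (∀ A, C1 ≤ Cf A) ∧ (∀ g A, 1 ≤ Cg g A) ∧ ∀ g : ℝ, 0 < g → g ≤ 1 / 8 →
      ∀ (Ω : Set (Rn 3)) (K : Kx Ω) (f : Rn 3 → Rn 3) (ι : Type) [Finite ι] (d : SD ι) (e : ℝ≥0∞),
        e ≠ 0 → SIn p C1 g Cf K f d → volume (f '' K.sk 2) = 0 →
        ∃ G, SOut p C1 g (Cg g) K f d e G := by
  obtain ⟨C0, CT, C01, hCT, hT⟩ := hT
  have k11 : 10 ^ 4 ≤ k1 C0 := by
    unfold k1
    linarith
  have c1 : ∀ A, 1 ≤ CT A := fun A => C01.trans (hCT A)
  have k21 : ∀ A, 1 ≤ k2 C0 (CT A) A := fun A => by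
    have := c1 A
    unfold k2
    exact le_add_of_nonneg_left (by positivity)
  have k30 : ∀ g A, 0 ≤ k3 g (CT A) A := fun g A => by
    have := c1 A
    unfold k3
    positivity
  have ce1 : ∀ A, 1 ≤ ceC A * k2 C0 (CT A) A := fun A => by
    refine one_le_mul_of_one_le_of_one_le ?_ (k21 A)
    unfold ceC
    linarith only [norm_nonneg (A : Rn 3 →L[ℝ] Rn 3), norm_nonneg (A.symm : Rn 3 →L[ℝ] Rn 3),
      mul_nonneg (norm_nonneg (A : Rn 3 →L[ℝ] Rn 3)) (norm_nonneg (A.symm : Rn 3 →L[ℝ] Rn 3))]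
  have sq : ∀ c : ℝ, 1 ≤ c → 10 ^ 4 * c ≤ k1 C0 * c ^ 2 := fun c hc =>
    mul_le_mul k11 (by nlinarith) (by linarith) (by linarith)
  refine ⟨k1 C0 * C0 ^ 2, fun A => k1 C0 * CT A ^ 2 + ‖(A : Rn 3 →L[ℝ] Rn 3)‖,
    fun g A => k3 g (CT A) A + ceC A * k2 C0 (CT A) A, by linarith [sq C0 C01], fun A => ?_,
    fun g A => by linarith [k30 g A, ce1 A], fun g g0 g1 Ω K f ι _ d e he s hn => ?_⟩
  · refine le_add_of_le_of_nonneg ?_ (norm_nonneg _)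
    have := hCT A
    gcongr
  have cf : ∀ A, CT A ≤ k1 C0 * CT A ^ 2 + ‖(A : Rn 3 →L[ℝ] Rn 3)‖ := fun A => by
    linarith only [g0, g1, sq, c1, sq _ (c1 A), c1 A, norm_nonneg (A : Rn 3 →L[ℝ] Rn 3)]
  obtain ⟨vo, vl⟩ := s.scl.lb (by norm_num)
  obtain ⟨T, hT⟩ := hT g g0 g1 _ d.θ ι d.P vo vl (s.pc.mono cf)
  obtain ⟨f1, b, u, cm, C, e1, e2, e3⟩ := ctx_exists ⟨h2, h3⟩ ⟨g0, g1⟩ C01 le_rfl
    (fun A => ⟨hCT A, le_add_of_nonneg_right (norm_nonneg _)⟩) s hn hT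
  obtain ⟨H, O⟩ := mid C he
  have s0 := s.s0
  have dj : ∀ i j, i ≠ j → Disjoint ((d.P i).Q (d.P i).ρx) ((d.P j).Q (d.P j).ρx) := fun i j k =>
    (s.disj i j k).mono (Pc.Q_mono (by linarith)) (Pc.Q_mono (by linarith))
  obtain ⟨G, G1, G2, G3, G4⟩ := ce_all (Z := K.sk 2) s.opn s.pc.ok s.QS dj
    (fun i hi => by
      obtain ⟨a, a0, a1⟩ := s.thin hi
      exact ⟨a, a0, fun x hx => a1 x hx.1 hx.2.1 hx.2.2⟩) O.ltp O.inj O.bar
    (L := fun i => k2 C0 (CT (d.P i).A) (d.P i).A) (fun i => k21 _) O.lip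
  have off : ∀ x ∈ K.sk 2, (∀ i, 2 ≤ (d.P i).I.card → x ∉ (d.P i).Q (d.P i).ρx) → G x = H x :=
    fun x hx k => G3 x hx fun i hi m => k i hi (Pc.Q_mono (d.P i).ρ_le m)
  refine ⟨G, G1, G2, fun x hx => ?_, le_trans (le_of_eq ?_) (O.en.trans (add_le_add_left e3 e)),
    fun i hi => ⟨(G4 i hi).1, fun x hx x' hx' => ((G4 i hi).2.2 x hx x' hx').trans ?_⟩,
    fun i j hj => ?_⟩
  · have θ0 := s.scl.pos _ (mem_image_of_mem f hx.1)
    by_cases k : ∃ i, 2 ≤ (d.P i).I.card ∧ x ∈ (d.P i).Q (d.P i).ρ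
    · obtain ⟨i, hi, m⟩ := k
      have m' := Pc.Q_mono (d.P i).ρ_le m
      have B := s.box i hi
      have a1 := B.close x ⟨hx, Pc.Q_mono (by linarith only [s0]) m'⟩
      have a2 := B.tol_le s0
      have a3 := B.tol_pos s0
      have a4 := (B.small s0).1
      have a5 := a_le ⟨g0, g1⟩ (d.P i).l0 ((c1 _).trans (cf (d.P i).A)) le_rfl
      have a6 := (s.pc.sub i x m' (f x) (by linarith only [a1, a2, a3, a4, a5, a5.2.2.1, a5.2.2.2])).2
      have a7 := (G4 i hi).2.1 x m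
      have a8 : ‖((d.P i).A : Rn 3 →L[ℝ] Rn 3)‖ * (d.P i).l ≤
          (k1 C0 * CT (d.P i).A ^ 2 + ‖((d.P i).A : Rn 3 →L[ℝ] Rn 3)‖) * (d.P i).l :=
        mul_le_mul_of_nonneg_right (le_add_of_nonneg_left (by positivity)) (d.P i).l0.le
      have a9 := norm_sub_le_norm_sub_add_norm_sub (G x) ((d.P i).aff x) (f x)
      rw [norm_sub_rev ((d.P i).aff x)] at a9
      linarith only [a1, a2, a3, a4, a5, a6, a7, a8, a9, a5.2.2.1, a5.2.2.2, (d.P i).l0]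
    · have a1 := O.mv x hx fun i m =>
        k ⟨i, (Pc.In_card (P := d.P i) m).symm ▸ by norm_num, (d.P i).In_sub m⟩
      have a2 := e2 x hx.1
      have a3 := (s.scl.le (y := f x) (z := f1 x) (a := 1) zero_le_one (by norm_num)
        (mem_image_of_mem f hx.1) (by rwa [one_mul, norm_sub_rev])).2
      have a4 := norm_sub_le_norm_sub_add_norm_sub (H x) (f1 x) (f x)
      rw [G3 x hx fun i hi m => k ⟨i, hi, m⟩]
      have a5 : (d.upd b).θ (f1 x) = d.θ (f1 x) := rfl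
      linarith only [θ0, a1, a2, a3, a4, a5]
  · refine congrArg₂ (· + ·) (tsum_congr fun F => congrArg (d.ω F * ·) ?_)
      (Finset.sum_congr rfl fun q hq => congrArg (d.ωe q * ·) ?_)
    · exact SMain_E (s.face F F.2.1).1 (fun x hx => off x
        (Kx.cl_sub_sk F.2.1.1 F.2.1.2.le (subset_closure hx)) fun i hi m =>
          F.2.2 (s.rig_of F.2.1.1 hi hx m)) p
    · obtain ⟨a1, a2, -⟩ := s.edge q hq
      exact SMain_I (fun t ht => off _ (Kx.sk_mono one_le_two (a1.seg_sub (o_mem _ _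
        (Ioo_subset_Icc_self ht)))) fun i _ => disjoint_left.1 (a2 i) (o_memo _ _ ht)) (‖·‖ₑ ^ p)
  · exact mul_le_mul_of_nonneg_right (le_add_of_nonneg_left (k30 _ _)) (norm_nonneg _)
  · have c : (d.P i).I.card = 1 := by rw [hj, Finset.card_singleton]
    have r0 := (d.P i).l0.trans_le (s.pc.ok i).l_le
    have l0 := (d.P i).l0
    refine (SMain_I (k' := fun t => H ((d.P i).pt j t)) (fun t ht => ?_)
      (‖· - (d.P i).A (Pi.single j 1)‖ₑ ^ p)).trans_le ((O.chd i j hj).trans ?_)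
    · have m : (d.P i).pt j t ∈ (d.P i).Q (d.P i).ρ :=
        Pc.Q_one hj _ ▸ mem_image_of_mem _ (Ioo_subset_Icc_self ht)
      exact off _ (Kx.sk_mono one_le_two (s.chs_sk ⟨i, c, m⟩)) fun i' hi =>
        disjoint_left.1 (dj i i' fun k => by rw [← k, c] at hi; omega) (Pc.Q_mono (d.P i).ρ_le m)
    · have a1 : k3 g (CT (d.P i).A) (d.P i).A ≤
          k3 g (CT (d.P i).A) (d.P i).A + ceC (d.P i).A * k2 C0 (CT (d.P i).A) (d.P i).A := by
        linarith only [g0, g1, ce1, ce1 (d.P i).A]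
      have a2 : 10 ^ 4 ≤ k1 C0 * C0 ^ 2 := by linarith [sq C0 C01]
      refine add_le_add_left (add_le_add (ENNReal.ofReal_le_ofReal ?_)
        (mul_le_mul_left (ENNReal.ofReal_le_ofReal a1) _)) e
      dsimp only [SD.upd]
      gcongr

theorem surf2 {p : ℝ} (hT : TopH p) (h2 : 2 < p) (h3 : p < 3) : Surf2 p :=
  let ⟨C1, Cf, Cg, a, b, c, h⟩ := surf2N hT h2.le h3
  ⟨C1, Cf, Cg, a, b, c, fun g g0 g1 Ω K f ι _ d e he s =>
    h g g0 g1 Ω K f ι d e he s (sk_null ⟨h2, h3⟩ s)⟩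

end BEp
end
end

-- merged part: Pool.Agent.Work.MP_f0515e_an.P2.QMain
section
/-! Approximation on an arbitrary open set for the exponent two. -/

open Set Metric Filter Topology Function BEv MeasureTheory
open scoped NNReal ENNReal

noncomputable section
namespace BEp

theorem mu1_kap {Ω : Set (Rn 3)} {d : Rn 3 → ℝ} {r η : ℝ} (hd : Lev Ω d) (hr : 0 < r)
    (hη : 1024 * η ≤ r) {t : Rn 3} (ht : ‖t‖ ≤ η) {f : Rn 3 → Rn 3} (hf : ContinuousOn f Ω)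
    (hi : InjOn f Ω) {ι : Type} {C : ι → Cu} {aK : ℝ} (hC : ∀ q, (C q).Ok aK)
    (hq : ∀ q, ∀ x ∈ (C q).q, r ≤ d x) {ρ ρ1 μ μ1 : ℝ} (hρ : ∀ q, (C q).ρ' = ρ) (hρη : ρ ≤ η)
    (h2 : 2 * ρ1 ≤ ρ) (h0 : 0 < ρ1) (hμ : 0 < μ)
    (h : ∀ x, r / 2 ≤ d x → ball (f x) μ1 ⊆ f '' (ball x ρ1 ∩ Ω))
    (ho : ∀ x, r / 2 ≤ d x → ∀ y, r / 2 ≤ d y → ‖y - x‖ ≤ 2 * ρ1 → ‖f y - f x‖ ≤ μ / 1000)
    (hn : ∀ q, (1 + ‖(C q).A‖) * (C q).t0 < min (μ / 1000) (min μ1 ρ1)) :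
    Mu1 C Ω (f ∘ kap d r t) μ ρ1 μ1 := by
  have a1 : ∀ x, r ≤ d x → kap d r t x = x + t ∧ r / 2 ≤ d (x + t) := fun x hx => by
    refine ⟨kap_core hr (by linarith only [hη, hρη, h2, h0, hx]), ?_⟩
    have := hd.lip (x + t) x
    rw [add_sub_cancel_left] at this
    linarith only [hη, ht, hρη, h2, h0, hx, this, neg_abs_le (d (x + t) - d x)]
  refine ⟨fun q x hx => ?_, fun q x hx y hy e => ?_, fun q => ?_, hμ⟩
  · obtain ⟨b1, b2⟩ := a1 x (hq q x hx)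
    rw [comp_apply, b1]
    refine (h _ b2).trans ?_
    rintro _ ⟨w, ⟨hw, -⟩, rfl⟩
    have a3 : ‖w - t - x‖ < ρ1 := by
      rw [sub_sub, add_comm]
      exact mem_ball_iff_norm.1 hw
    have a4 : r / 2 ≤ d (w - t) := by
      linarith only [hη, hρη, h2, h0, a3, hd, hq, hx, hd.lip (w - t) x, neg_abs_le (d (w - t) - d x), hq q x hx]
    refine ⟨w - t, ⟨mem_ball_iff_norm.2 a3, (hd.pos _).1 (by linarith only [hη, hρη, h2, h0, a4])⟩, ?_⟩
    rw [comp_apply, kap_core hr a4, sub_add_cancel]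
  · obtain ⟨b1, b2⟩ := a1 x (hq q x hx)
    obtain ⟨b3, b4⟩ := a1 y (hq q y hy)
    rw [comp_apply, comp_apply, b1, b3]
    exact ho _ b2 _ b4 (by rwa [add_sub_add_right_eq_sub])
  · have a0 := (hC q).pos.2.2.2.1
    have a2 := mul_nonneg (norm_nonneg (C q).A) a0.le
    have a3 := hn q
    simp only [lt_min_iff] at a3
    exact ⟨a3.2.1, by linarith only [a3, a3.1], by linarith [a3.2.2], hρ q ▸ h2⟩

theorem QMain_osc {S : Set (Rn 3)} (hS : IsCompact S) {f : Rn 3 → Rn 3} (hf : ContinuousOn f S)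
    {ε ρ : ℝ} (hε : 0 < ε) (hρ : 0 < ρ) : ∃ ρ1, 0 < ρ1 ∧ 2 * ρ1 ≤ ρ ∧
      ∀ x ∈ S, ∀ y ∈ S, ‖y - x‖ ≤ 2 * ρ1 → ‖f y - f x‖ ≤ ε := by
  obtain ⟨δ, h0, h⟩ := Metric.uniformContinuousOn_iff_le.1
    (hS.uniformContinuousOn_of_continuous hf) ε hε
  refine ⟨min δ ρ / 2, half_pos (lt_min h0 hρ), by linarith only [min_le_right δ ρ],
    fun x hx y hy e => ?_⟩
  rw [← dist_eq_norm] at e ⊢
  exact h y hy x hx (by linarith [min_le_left δ ρ])

theorem main_en3 {p : ℝ≥0∞} (hp2 : p = 2) (hT : TopH p.toReal) {Ω : Set (Rn 3)}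
    (hΩ : IsOpen Ω) {f : Rn 3 → Rn 3} {D : Rn 3 → Rn 3 →L[ℝ] Rn 3} (hf : ContinuousOn f Ω)
    (hi : InjOn f Ω) (hW : MemW1p p Ω f D) (hD : Measurable D)
    (hDi : ∫⁻ x in Ω, ‖D x‖ₑ ^ p.toReal ≠ ⊤) {ε : ℝ≥0∞} (hε : ε ≠ 0) :
    ∃ G, LTP Ω G ∧ InjOn G Ω ∧ ∫⁻ x in Ω, en p.toReal G f D x ≤ ε := by
  have hp : p ≠ ⊤ := hp2 ▸ ENNReal.ofNat_ne_top
  have hp1 : 1 ≤ p := hp2 ▸ one_le_two
  have q2 : p.toReal = 2 := by simp [hp2]
  have q3 : p.toReal < 3 := by linarith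
  obtain ⟨v, v1, v2, v3⟩ := exists_ug hp1 hp hΩ hf hW hD
  generalize p.toReal = q at *
  have q1 : 1 ≤ q := by linarith
  have q0 : 0 < q := by linarith
  obtain ⟨C1, Cf, Cg, c1, c2, c3, hsurf⟩ := surf2N hT q2.ge q3
  obtain ⟨Ck, hCk, hkap⟩ := kap_final (n := 3) q1
  obtain ⟨Cd, hCd, hdet⟩ := det_main2 q1 q3
  obtain ⟨C0, hC0, hx⟩ := loc_x q1 q3
  obtain ⟨Co, hCo, hav⟩ := av_main2 q2
  have h2q : (2 : ℝ≥0∞) ^ q ≠ ⊤ := ENNReal.rpow_ne_top_of_nonneg q0.le (by simp)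
  have h4q : (4 : ℝ≥0∞) ^ q ≠ ⊤ := ENNReal.rpow_ne_top_of_nonneg q0.le (by simp)
  have hCq : ENNReal.ofReal C1 ^ q ≠ ⊤ := ENNReal.rpow_ne_top_of_nonneg q0.le (by simp)
  obtain ⟨e, he, he', hfin⟩ := ACo_small (c := Ck * (4 ^ q * (3 + Cd * (2 +
    (C0 * ENNReal.ofReal C1 ^ 3 + 1) + Co * ENNReal.ofReal C1 ^ q)) + 1)) (by finiteness) hε
  obtain ⟨d, hd⟩ := exists_lev hΩ
  obtain ⟨r, hr, hr'⟩ := exists_r hd hDi he
  obtain ⟨ε0, e1, e2⟩ := exists_eps hd q0 he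
  have e3 : MP fun s => ε0 s / 18 :=
    ⟨fun a b h => by have := e1.1 h; dsimp only; linarith only [this], fun s h => by have := e1.2 s h; positivity⟩
  obtain ⟨σ, hσ, hσ'⟩ := exists_tol_kap hd hf e3
  obtain ⟨σ', s1, s2⟩ := mp_cont hσ
  obtain ⟨θ, t1, t2, t3⟩ := exists_theta hd hf hi (ε := fun s => ε0 (s / 3) / 18)
    ⟨fun a b h => e3.1 (by linarith : a / 3 ≤ b / 3), fun s h => e3.2 _ (by positivity)⟩
  have hsub : ∀ {a : ℝ}, 0 < a → {x | a ≤ d x} ⊆ Ω := fun h x hx => (hd.pos x).1 (h.trans_le hx)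
  have hU : {x | r < d x} ⊆ {x | r ≤ d x} := fun x hx => le_of_lt (α := ℝ) hx
  have hUb : Bornology.IsBounded {x | r < d x} := (hd.cpt r hr).isBounded.subset hU
  have hI : ∫⁻ x, ‖indicator Ω D x‖ₑ ^ q = ∫⁻ x in Ω, ‖D x‖ₑ ^ q := by
    rw [← lintegral_indicator hΩ.measurableSet]
    refine lintegral_congr fun x => ?_
    by_cases h : x ∈ Ω
    · simp only [indicator_of_mem h]
    · rw [indicator_of_notMem h, indicator_of_notMem h, ← ofReal_norm, norm_zero,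
        ENNReal.ofReal_zero, ENNReal.zero_rpow_of_pos q0]
  have hv := (hUb.measure_lt_top (μ := volume)).ne
  obtain ⟨g, g0, g1, g2⟩ := DMain_g (M := volume {x | r < d x} +
    2 ^ q * ((∫⁻ x in Ω, ‖D x‖ₑ ^ q) + e)) (by finiteness) he
  have hb : 1 ≤ g * (⌈1 / g⌉₊ : ℕ) := by
    have := mul_le_mul_of_nonneg_left (Nat.le_ceil (1 / g)) g0.le
    rwa [mul_one_div_cancel g0.ne'] at this
  generalize ⌈1 / g⌉₊ = b at hb
  obtain ⟨aK, hK⟩ := exists_shK b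
  choose T T1 T2 T3 T4 using exists_ty g0 g1 hb (fun A => c1.trans (c2 A)) (c3 g)
  choose Cs Cs1 Cs2 using fun A => sel_all2 (T A) (T2 A).ne
  choose Cx Cx1 Cx2 using fun A => hx (T A) aK
  obtain ⟨ι, _, o, A, n, η, rfl, η1, o1, o2, o3, o4, o5, o6⟩ := exists_cubes2 q1
    (hD.indicator hΩ.measurableSet).aestronglyMeasurable (hI ▸ hDi) (hd.cpt (2 * r) (by linarith only [hr]))
    (isOpen_lt continuous_const hd.continuous) hUb
    (fun x hx => lt_of_lt_of_le (b := 2 * r) (by linarith) hx)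
    (cc := fun B => Cx B + (C0 * ENNReal.ofReal (T B).cf ^ 3 + 1) * ‖B‖ₑ ^ q * Cs B + 1)
    (fun B => by
      have := Cs1 B
      have := Cx1 B
      have : ‖B‖ₑ ^ q ≠ ⊤ := ENNReal.rpow_ne_top_of_nonneg q0.le enorm_ne_top
      finiteness) he (η0 := r / 1024) (by positivity)
  have η0 : (0 : ℝ) < 1 / 2 ^ n := by positivity
  have hη : 1024 * (1 / 2 ^ n) ≤ r := by linarith only [η1]
  have hδ : ContinuousOn (fun x => min (1 / 2 ^ n * aa d r x) (min (σ' (d x / 2) / 2) (d x / 4)))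
      Ω := (continuous_const.mul (LKap_cont hd r)).continuousOn.inf
    (((s1.comp (hd.continuous.div_const 2).continuousOn fun x hx =>
      half_pos ((hd.pos x).2 hx)).div_const 2).inf (hd.continuous.div_const 4).continuousOn)
  have hδ0 : ∀ x ∈ Ω, 0 < min (1 / 2 ^ n * aa d r x) (min (σ' (d x / 2) / 2) (d x / 4)) :=
    fun x hx => by
      have := (hd.pos x).2 hx
      exact lt_min (mul_pos η0 ((aa_pos hd hr).2 hx))
        (lt_min (half_pos (s2 _ (half_pos this)).1) (by positivity))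
  obtain ⟨n1, hfit⟩ := exists_gfit hΩ hδ hδ0 (hd.cpt r hr) (hsub hr)
  obtain ⟨c, c0, hc⟩ := (hd.cpt r hr).exists_forall_le' (hδ.mono (hsub hr))
    fun x hx => hδ0 x (hsub hr hx)
  obtain ⟨n0, ρ', a1, a2, a3, a4, a5⟩ := exists_prm (fun i => T (A i)) o n n1 (fun i => T2 _) hK.1
    o1 (c := min c (min (1 / 2 ^ n) (min (σ r) (r / 4))))
    (lt_min c0 (lt_min η0 (lt_min (hσ.2 r hr) (by positivity))))
  obtain ⟨μ, m0, m1⟩ := t3 _ (hd.cpt _ (half_pos hr)) (hsub (half_pos hr)) ρ' a3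
  obtain ⟨ρ1, r0, r1, r2⟩ := QMain_osc (hd.cpt _ (half_pos hr)) (hf.mono (hsub (half_pos hr)))
    (ε := μ / 1000) (by positivity) a3
  obtain ⟨μ1, m2, m3⟩ := t3 _ (hd.cpt _ (half_pos hr)) (hsub (half_pos hr)) ρ1 r0
  obtain ⟨ns, a6⟩ := a5 (min (μ / 1000) (min μ1 ρ1)) (lt_min (by positivity) (lt_min m2 r0))
  simp only [lt_min_iff, le_min_iff] at a2 a4
  set P : Pr := ⟨g, b, n, n0, ns, ρ'⟩
  set C : ι → Cu := fun i => ⟨T (A i), P, o i⟩
  have hq : ∀ i, closedBall (o i) (2 * (1 / 2 ^ n)) ⊆ closedBall (o i) (10 * (1 / 2 ^ n)) :=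
    fun i => closedBall_subset_closedBall (by linarith only [η0])
  have hq1 : ∀ i, (C i).q ⊆ closedBall (o i) (2 * (1 / 2 ^ n)) :=
    fun i => closedBall_subset_closedBall (show (1 / 2 ^ n : ℝ) ≤ _ by linarith only [η0])
  have hqr : ∀ i, ∀ x ∈ (C i).q, r ≤ d x := fun i x h => hU (o3 i (hq i (hq1 i h)))
  obtain ⟨K, ch, w, lam, hF, hsm⟩ := hfit ι C P aK hK a1 (fun _ => rfl) (fun i => (a6 i).1)
    (fun i j h => ball_disjoint_closedBall (by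
      rw [dist_eq_norm]
      exact le_trans (show (1 / 2 ^ n + 1 / 2 ^ n : ℝ) ≤ _ by linarith only []) (o2 i j h))) hqr
    fun x h => a2.1.trans_le (hc x h)
  have hcov : ∀ x, 2 * r ≤ d x → ∃ i, x ∈ (C i).q := fun x h => by
    have := o4 x h 0 (by simpa using η0.le)
    rwa [sub_zero] at this
  obtain ⟨t, ht, hR, hN, kp, hg, hX⟩ := hav ι C P aK Ω K ch w lam d r C1 f D v C0 (fun i => Cs (A i))
    (fun i => Cx (A i)) hF hd hr hη
    (fun x h => (hsm x h).trans (ball_subset_ball (min_le_left _ _))) hqr hcov hf hi hD v1 v2 hDi v3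
    hC0 (fun i => ⟨Cs1 _, Cx1 _⟩) (fun i => Cs2 _ _ _ _ _ _ _ rfl (hF.ok i) (hF.fit i))
    fun i => Cx2 _ _ _ _ _ _ _ rfl (hF.ok i) (hF.fit i) c1 ((c2 _).trans (T3 _).ge)
  obtain ⟨hM, him⟩ := mu_kap hd hr hη ht hf hi hF.ok hqr (fun _ => rfl) a4.2.1 m1
    fun i => (a6 i).2.trans_le ((min_le_left _ _).trans (by linarith only [m0]))
  obtain ⟨Λ, hΛ⟩ := lam_ex hF hM (mu1_kap hd hr hη ht hf hi hF.ok hqr (fun _ => rfl) a4.2.1 r1 r0
    m0 (fun x hx => (m3 x hx).1) r2 fun i => (a6 i).2) hR.mD hR.mv hR.us hg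
    ((moise hd hf hi hD v1 v2 q1 hDi v3 (hd.cpt _ (half_pos hr)) (hsub (half_pos hr))).shift (t := t)
      (fun x hx => by
        obtain ⟨i, hx⟩ := mem_iUnion.1 hx
        have k1 := hd.lip (x + t) x
        rw [add_sub_cancel_left] at k1
        have k2 : ‖t‖ ≤ 1 / 2 ^ n := ht
        show r / 2 ≤ d (x + t)
        linarith only [hr, η1, k1, k2, hqr, hx, neg_abs_le (d (x + t) - d x), hqr i x hx])
      fun x hx => by
        obtain ⟨i, hx⟩ := mem_iUnion.1 hx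
        rw [comp_apply, kap_core hr (by linarith only [hr, hqr, hx, hqr i x hx])])
    fun z hz => (t1.pos z (him ▸ hz)).le
  obtain ⟨G, hG⟩ := hdet ι C P aK Ω K ch w lam _ _ _ θ kp C1 μ Cf (Cg g) e Λ hF hM.cont hM.inj hN hR hΛ
    (him ▸ t1) ⟨c1, fun i => ⟨T3 _, T4 _, (c2 _).trans (T3 _).ge⟩⟩ (hsurf g g0 g1) he
  obtain ⟨F, F1, F2, F3⟩ := fin_en q1 hF hR.mD he hG (φ := fun z => ε0 (d z)) (fun z hz x h k => by
    have := sup_kap hd hr hη ht hσ e3 (fun x h => (hsm x h).trans (ball_subset_ball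
      ((min_le_right _ _).trans (min_le_min (by
        linarith only [s2, hd, h, (s2 _ (half_pos ((hd.pos x).2 h))).2]) le_rfl)))) (hσ' r _ t hr hη ht) t2 hG.sup
      hz h (k.imp_right fun ⟨⟨i, k1⟩, k2⟩ =>
        ⟨hqr i z k1, le_min (k2.trans a2.2.2.1.le) (k2.trans a2.2.2.2.le)⟩)
    exact this.trans_eq (by ring)) (e1.1.measurable.comp hd.continuous.measurable)
  have hκ := kap_llh hd hr hη ht
  have hinv := hκ.inv hΩ
  have hQr : ∀ z ∈ ⋃ i, (C i).q, r ≤ d z := fun z h => let ⟨i, h⟩ := mem_iUnion.1 h; hqr i z h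
  have hcor : ∀ x, r ≤ d x → kap d r t x = x + t := fun x hx => kap_core hr (by linarith only [hr, hx])
  rw [indicator_congr (g := fun z => D (z + t)) fun z h => by
    rw [comp_apply, hcor z (hQr z h)]] at F3
  refine ⟨F ∘ invFunOn (kap d r t) Ω, F1.comp hinv.ltp hinv.1.mapsTo,
    F2.comp hinv.1.injOn hinv.1.mapsTo, (hkap Ω _ d r _ t F f D hd hr hη ht
      (MeasurableSet.iUnion fun i => measurableSet_closedBall) hQr F1 hf hD).trans
      (le_trans ?_ hfin)⟩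
  have b1 : ∫⁻ x in Ω \ kap d r t '' ⋃ i, (C i).q, ‖D x‖ₑ ^ q ≤ e := by
    refine le_trans (lintegral_mono_set fun x hx => ?_) hr'
    refine ⟨hx.1, not_le.1 fun h => hx.2 ?_⟩
    obtain ⟨i, h1⟩ := o4 x (show 2 * r ≤ d x by linarith only [hr, h]) t ht
    exact ⟨x - t, mem_iUnion.2 ⟨i, h1⟩, by rw [hcor _ (hqr i _ h1), sub_add_cancel]⟩
  have b2 : ∀ i {s : Set (Rn 3)}, MeasurableSet s → s ⊆ closedBall (o i) (10 * (1 / 2 ^ n)) →
      ∫⁻ y in s, ‖indicator Ω D y - A i‖ₑ ^ q = ∫⁻ y in s, ‖D y - A i‖ₑ ^ q := fun i s h1 h2 =>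
    setLIntegral_congr_fun h1 fun y hy => by rw [indicator_of_mem (hsub hr (hU (o3 i (h2 hy))))]
  simp only [fun i => b2 i measurableSet_closedBall Subset.rfl] at o5
  have b3 : ∑ i, ∫⁻ y in closedBall (o i) (2 * (1 / 2 ^ n)), ‖D y - A i‖ₑ ^ q ≤ e :=
    le_trans (Finset.sum_le_sum fun i _ => (lintegral_mono_set (hq i)).trans
      (le_mul_of_one_le_left' le_add_self)) o5
  have b4 : ∑ i, (C i).rem q ≤ e := by
    refine le_trans ?_ g2
    rw [hI] at o6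
    refine le_trans (le_of_eq ?_) (mul_le_mul_right (o6.trans ?_) _)
    · rw [Finset.mul_sum]
      refine Finset.sum_congr rfl fun i _ => ?_
      rw [Cu.rem, mul_left_comm, ← ENNReal.ofReal_mul g0.le, T1]
      rfl
    · gcongr
      refine le_trans (Finset.sum_le_sum fun i _ => ?_) b3
      exact (b2 i measurableSet_closedBall ((hq1 i).trans (hq i))).trans_le
        (lintegral_mono_set (hq1 i))
  have b5 : ∑ i, ∫⁻ z in (C i).q, ‖(D ∘ kap d r t) z - (C i).A‖ₑ ^ q ≤ e := by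
    refine le_trans (Finset.sum_le_sum fun i _ => ?_) b3
    refine (setLIntegral_congr_fun (s := closedBall (o i) (1 / 2 ^ n)) measurableSet_closedBall
      (g := fun z => ‖D (z + t) - A i‖ₑ ^ q) fun z h => by
        simp only [comp_apply, hcor z (hqr i z h)]
        rw [T1]).trans_le ?_
    rw [← lintegral_indicator measurableSet_closedBall,
      ← lintegral_indicator measurableSet_closedBall,
      ← lintegral_add_right_eq_self (μ := volume) (indicator _ fun y => ‖D y - A i‖ₑ ^ q) t]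
    refine lintegral_mono fun z => ?_
    by_cases h : z ∈ closedBall (o i) (1 / 2 ^ n)
    · have : z + t ∈ closedBall (o i) (2 * (1 / 2 ^ n)) := by
        rw [mem_closedBall_iff_norm] at h ⊢
        linarith only [h, ht, norm_add_le (z - o i) t, show ‖t‖ ≤ 1 / 2 ^ n from ht,
          show ‖z + t - o i‖ = ‖z - o i + t‖ by rw [add_sub_right_comm]]
      rw [indicator_of_mem h, indicator_of_mem this]
    · exact (indicator_of_notMem h _).trans_le zero_le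
  have b6 := hX.trans (add_le_add (add_le_add (le_trans (Finset.sum_le_sum fun i _ =>
    mul_le_mul' (by rw [T1]; exact le_self_add) (by rw [T1]; exact lintegral_mono_set (hq i))) o5)
    (mul_le_mul_right b4 _)) (mul_le_mul_right hr' _))
  calc _ ≤ Ck * (4 ^ q * (e + e + Cd * (e + (C0 * ENNReal.ofReal C1 ^ 3 + 1) * e +
        Co * ENNReal.ofReal C1 ^ q * e + e) + e) + e) := by
        refine mul_le_mul_right (add_le_add (F3.trans ?_) b1) _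
        gcongr
    _ = _ := by ring

theorem ltp3_two {p : ℝ≥0∞} (hp2 : p = 2) (hT : TopH p.toReal) {Ω : Set (Rn 3)}
    (hΩ : IsOpen Ω) {f : Rn 3 → Rn 3} {D : Rn 3 → Rn 3 →L[ℝ] Rn 3}
    (hf : IsEmbedding fun x : Ω => f x) (hW : MemW1p p Ω f D) :
    ∃ D', Measurable D' ∧ D' =ᵐ[volume.restrict Ω] D ∧ ∀ ε : ℝ≥0∞, ε ≠ 0 →
      ∃ G, LTP Ω G ∧ InjOn G Ω ∧ ∫⁻ x in Ω, en p.toReal G f D' x ≤ ε := by
  obtain ⟨D', h1, h2, h3, h4⟩ := exists_meas_rep (hp2 ▸ one_le_two) (hp2 ▸ ENNReal.ofNat_ne_top) hΩ hW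
  exact ⟨D', h1, h2, fun ε hε => main_en3 hp2 hT hΩ
    (continuousOn_iff_continuous_domRestrict.2 hf.continuous)
    (fun x hx y hy h => congrArg Subtype.val (hf.injective (a₁ := ⟨x, hx⟩) (a₂ := ⟨y, hy⟩) h))
    h3 h1 h4 hε⟩

end BEp
end
end
end
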