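import Pool.Agent.Work.MP_f0515e_an.P3.XFin3
import Pool.Agent.Work.MP_f0515e_an.P3.XFin2
import Pool.Agent.Work.MP_f0515e_an.P3.XMid
import Pool.Agent.Work.MP_f0515e_an.P3.YApi
import Pool.Agent.Work.MP_f0515e_an.P3.VMain
import Pool.Agent.Work.MP_f0515e_an.P3.DMain
import Pool.Agent.Work.MP_f0515e_an.P2.QMain

-- merged part: Pool.Agent.Work.MP_f0515e_an.P3.XTopH
section
-- merged part: Pool.Agent.Work.MP_f0515e_an.P3.XFin
section
/-! The estimates after crushing.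
`Mid.eta`: `Api.eta` for the sum of the oriented edges off the solids (map `q ↦ Γ (seg x y (q 0))`, evaluate on the diagonal) and the faces; `Mid.lf`, `KA2_fib`; the chord classes are finite (`lf1`). `Mid.bD`: `Api.bD`, `Sca`.
`fin_edge`: `edT_of` with the weights `20 C ^ 13 ℓ / ncard` and the speed `40 C ^ 13 ℓ Λ` (`Jv.mono`; finitely many classes meet the path), `crush_mk`, `zedge'`; upper bound by `LUp`, `tvar`, `Sca`, `lv`, `c1`.
`fin_chd`: `chd_est` with `x₀ = (1 - g / 4) ^ 2` for the seminorms `‖z - (A.symm z j) • A (single j 1)‖` and `|A.symm z j|`; the class is the one of `chd_uq`; the set `S` of `LUp` is contained in `{v}` and is empty unless `g / 2 ≤ dev (t v (G x))` (`sma`); `1 / ((1 - g / 2) (1 - 5 g / 2) (1 - g / 4) ^ 2) ≤ 1 + 8 g ≤ 2`. `fin_bar`: `Cr.xeq`, `Api.bar`. About 600 lines; three tasks. -/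

open Set Metric Filter Topology Function BEv
open scoped NNReal

noncomputable section
namespace BEp

variable {n m : ℕ}

variable {ν ι : Type} {V : Set (Rn 3)} {g C : ℝ} {Cf : (Rn 3 ≃L[ℝ] Rn 3) → ℝ} {P : ι → Pc} {T : TS}
  {c : Rn 3 → ℝ} {t : ν → Rn 3 → ℝ} {mv : ν → Rn 3 → ℝ → Rn 3} {dim : ν → ℕ} {b : ν → Rn 3}
  {Ω : Set (Rn 3)} {K : Kx Ω} {G : Rn 3 → Rn 3} {θ : Rn 3 → ℝ} {ch : Set (Rn 3) → Ch}
  {r R τ : Set (Rn 3) → ℝ}
  {τ' ℓ Λ sp δ : Set (Rn 3) → ℝ} {A : ν → Set ℝ} {ε η : ν → ℝ} {Γ Θ : Rn 3 → Rn 3} {p C0 η₀ : ℝ}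
  {φ : ν → ℝ → ℝ}

end BEp
end
end

-- merged part: Pool.Agent.Work.MP_f0515e_an.P3.XTopH
section
/-! The exchange theorem. -/

open Set Metric Filter Topology Function BEv
open scoped NNReal

noncomputable section
namespace BEp

variable {n m : ℕ}

variable {ν ι : Type} {V : Set (Rn 3)} {g C : ℝ} {Cf : (Rn 3 ≃L[ℝ] Rn 3) → ℝ} {P : ι → Pc} {T : TS}
  {c : Rn 3 → ℝ} {t : ν → Rn 3 → ℝ} {mv : ν → Rn 3 → ℝ → Rn 3} {dim : ν → ℕ} {b : ν → Rn 3}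
  {Ω : Set (Rn 3)} {K : Kx Ω} {G : Rn 3 → Rn 3} {θ : Rn 3 → ℝ} {ch : Set (Rn 3) → Ch}
  {r R τ : Set (Rn 3) → ℝ}

theorem top_of_api [Finite ι] (h : XCtx V g C P T t mv dim K G Cf c b θ ch r R τ) {p C0 : ℝ}
    (hp : 1 ≤ p) (hC : 10 ^ 9 ≤ C0) : ∃ H sp, HOut V T p C0 g Cf P K G ch r R τ H sp := by
  have hτ := h.hin.τ0
  have hC1 := h.api.C1
  have hg := h.api.g0.1
  obtain ⟨ℓ, hℓ⟩ := h.sca
  obtain ⟨κ, hκ⟩ := h.kap
  obtain ⟨τ', t1, t2⟩ := edge_small K (fun i x _ => 4 * |κ i x|) (fun σ => 80 * C ^ 13 * ℓ σ) hτ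
  obtain ⟨a, r', A, e, Φ, R₁, Λ, q⟩ := h.pre3 fun σ => (t1 σ).1
  have s0 : ∀ σ, 0 ≤ 40 * C ^ 13 * ℓ σ * Λ σ + τ σ / 2 := fun σ => by
    have := hℓ.1 σ
    have := q.up.1 σ
    have := hτ σ
    positivity
  obtain ⟨A', ε, Γ, m⟩ := h.mid (sp := fun σ => 40 * C ^ 13 * ℓ σ * Λ σ + τ σ / 2) q hℓ s0
    (fun σ => by linarith [hτ σ]) hp hC
  choose! χ d f1 f2 f3 f4 using m.face
  have hd : ∀ σ, 0 < min (τ σ) (if 0 < d σ then d σ else 1) := fun σ =>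
    lt_min (hτ σ) (by split_ifs with k; exacts [k, one_pos])
  obtain ⟨δ, d1, d2⟩ := edge_small K (fun i x y => 4 * (|κ i x| +
    (1 + ‖((P i).A.symm : Rn 3 →L[ℝ] Rn 3)‖ * (1 + ‖((P i).A : Rn 3 →L[ℝ] Rn 3)‖)) *
      (30 * C ^ 10 * ℓ (openSegment ℝ x y))) / g) (fun σ => 60 * C ^ 10 * ℓ σ / g) hd
  obtain ⟨η, η₀, e1, e2, e3, e4, e5⟩ := m.eta h (fun F hF ho => ⟨f1 F hF ho, f2 F hF ho⟩)
    fun σ => (d1 σ).1
  obtain ⟨φ, Θ, k⟩ := h.api.cr m.lev fun v => ⟨(e2 v).1, (e2 v).2.trans e1⟩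
  have hm : MapsTo Γ Ω V := fun x hx => m.sub (mem_image_of_mem _ hx)
  have fc : ∀ F ∈ K.cel 2, Ofs P F → _ := fun F hF ho => f4 F hF ho (Θ ∘ Γ)
    (m.fin_face h hℓ k hF ho (f1 F hF ho) (f2 F hF ho) (e5 F hF ho) (by
      have k1 := (d1 F).2.trans (min_le_right _ _)
      rw [if_pos (f3 F hF ho)] at k1
      have k2 : 0 ≤ 30 * C ^ 10 * ℓ F / g * δ F := by
        have := hℓ.1 F
        have := (d1 F).1
        positivity
      have k3 : 60 * C ^ 10 * ℓ F / g * δ F = 2 * (30 * C ^ 10 * ℓ F / g * δ F) := by ring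
      linarith))
  refine ⟨Θ ∘ Γ, _, k.gm.ltp.comp' m.ltp hm, k.gm.bij.injOn.comp m.inj hm,
    (k.gm.bij.mapsTo.comp hm).image_subset, fun x hx ho => m.fin_mv h k hx ho, s0,
    fun x y hxy ho => m.fin_edge h hℓ q.up k (fun _ => rfl) (fun σ => (t1 σ).2)
      (fun σ => (d1 σ).2.trans (min_le_left _ _)) hxy ho (e4 x y hxy ho),
    fun F hF ho => (fc F hF ho).1, fun F hF ho => (fc F hF ho).2, fun i hi => m.fin_bar h k hi,
    fun i j hi => ⟨fun z => (P i).A.symm ((Θ ∘ Γ) z) j, fun x y hxy hs => ?_⟩⟩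
  exact m.fin_chd h hℓ q.up k (fun v => (e2 v).2) hi (e3 i (by rw [hi]; rfl)) hxy hs
    (hκ i j hi x y hxy hs) (t2 i x y hxy) (d1 _).1.le ((d2 i x y hxy).trans (min_le_left _ _))
    (e4 x y hxy (h.chd_ofs hi hxy hs))

theorem topH {p : ℝ} (h1 : 1 ≤ p) (h3 : p < 3) : TopH p := by
  obtain ⟨C0, C, Cf, k1, k2, k3⟩ := api_exists h1 h3
  have k0 : 1 ≤ C0 := le_trans (by norm_num) k1
  refine ⟨C0, Cf, k0, k2, fun g g0 g1 V θ ι _ P hV hθ hP => ?_⟩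
  obtain ⟨T, ν, c, t, mv, dim, b, a1, a2⟩ := k3 g g0 g1 V θ ι P hV hθ hP
  exact ⟨T, a2.ok fun Ω K G ch r R τ hI =>
    top_of_api ⟨a1, hP, fun A => k0.trans (k2 A), hI⟩ h1 k1⟩

end BEp
end
end
end

-- merged part: Pool.Agent.Work.MP_f0515e_an.P2.QFinal
section
-- merged part: Pool.Agent.Work.MP_f0515e_an.P3.Final
section
/-! EXPORT: approximation in dimension three for exponents below three other than two. -/

open Set Metric Filter Topology Function BEv MeasureTheory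
open scoped NNReal ENNReal

noncomputable section
namespace BEp

theorem dim_three_high {p : ℝ≥0∞} (hp2 : 2 < p) (hp3 : p < 3) {Ω : Set (Rn 3)} (hΩ : IsOpen Ω)
    {f : Rn 3 → Rn 3} {D : Rn 3 → Rn 3 →L[ℝ] Rn 3} (hf : IsEmbedding fun x : Ω => f x)
    (hW : MemW1p p Ω f D) : Approximable IsDiffeo p Ω f D ∧ Approximable IsPAHomeo p Ω f D := by
  have hp : p ≠ ⊤ := hp3.ne_top
  have hp1 : 1 ≤ p := le_trans one_le_two hp2.le
  have q2 : 2 < p.toReal := by simpa using ENNReal.toReal_strict_mono hp hp2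
  have q3 : p.toReal < 3 := by simpa using ENNReal.toReal_strict_mono (by simp) hp3
  obtain ⟨D', -, h2, h3⟩ := ltp3_high hp2 hp3 (surf2 (topH (by linarith) q3) q2 q3) hΩ hf hW
  exact ⟨approx_diffeoC hp1 hp hΩ hW h2 h3, approx_of_ltp hp1 hp hΩ hW h2 h3⟩

theorem dim_three_lt3 {p : ℝ≥0∞} (hp1 : 1 ≤ p) (hp3 : p < 3) (hp2 : p ≠ 2) {Ω : Set (Rn 3)}
    (hΩ : IsOpen Ω) {f : Rn 3 → Rn 3} {D : Rn 3 → Rn 3 →L[ℝ] Rn 3}
    (hf : IsEmbedding fun x : Ω => f x) (hW : MemW1p p Ω f D) :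
    Approximable IsDiffeo p Ω f D ∧ Approximable IsPAHomeo p Ω f D := by
  rcases lt_or_gt_of_ne hp2 with h | h
  · exact dim_three hp1 h hΩ hf hW
  · exact dim_three_high h hp3 hΩ hf hW

end BEp
end
end

-- merged part: Pool.Agent.Work.MP_f0515e_an.P2.QFinal
section
/-! EXPORT: approximation in dimension three for all exponents below three. -/

open Set Metric Filter Topology Function BEv MeasureTheory
open scoped NNReal ENNReal

noncomputable section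
namespace BEp

theorem dim_three_two {p : ℝ≥0∞} (hp2 : p = 2) {Ω : Set (Rn 3)} (hΩ : IsOpen Ω)
    {f : Rn 3 → Rn 3} {D : Rn 3 → Rn 3 →L[ℝ] Rn 3} (hf : IsEmbedding fun x : Ω => f x)
    (hW : MemW1p p Ω f D) : Approximable IsDiffeo p Ω f D ∧ Approximable IsPAHomeo p Ω f D := by
  have hp : p ≠ ⊤ := hp2 ▸ ENNReal.ofNat_ne_top
  have hp1 : 1 ≤ p := hp2 ▸ one_le_two
  have q2 : p.toReal = 2 := by simp [hp2]
  obtain ⟨D', -, h2, h3⟩ := ltp3_two hp2 (topH (by linarith) (by linarith)) hΩ hf hW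
  exact ⟨approx_diffeoC hp1 hp hΩ hW h2 h3, approx_of_ltp hp1 hp hΩ hW h2 h3⟩

theorem dim_three_all {p : ℝ≥0∞} (hp1 : 1 ≤ p) (hp3 : p < 3) {Ω : Set (Rn 3)}
    (hΩ : IsOpen Ω) {f : Rn 3 → Rn 3} {D : Rn 3 → Rn 3 →L[ℝ] Rn 3}
    (hf : IsEmbedding fun x : Ω => f x) (hW : MemW1p p Ω f D) :
    Approximable IsDiffeo p Ω f D ∧ Approximable IsPAHomeo p Ω f D := by
  by_cases h : p = 2
  · exact dim_three_two h hΩ hf hW
  · exact dim_three_lt3 hp1 hp3 h hΩ hf hW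

end BEp
end
end
end
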